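import Pool.Agent.H835.AV.Rel

set_option autoImplicit false
set_option linter.unusedSectionVars false

/-!
# Scalings of the coordinates, and averages of cycles
-/

universe u

namespace Pool.Agent.H835.AV

open MvPolynomial Pool.Agent.W5h86.HC

section sc

variable {K : Type u} [Field K] {N : ℕ}

/-- Scaling of the variables. -/
noncomputable def sc (w : Fin N → K) : MvPolynomial (Fin N) K →ₐ[K] MvPolynomial (Fin N) K :=
  aeval fun j => C (w j) * X j

@[simp] lemma sc_X (w : Fin N → K) (j : Fin N) : sc w (X j) = C (w j) * X j := by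
  unfold sc
  rw [aeval_X]

@[simp] lemma sc_C (w : Fin N → K) (a : K) : sc w (C a) = C a := by
  unfold sc
  rw [aeval_C]
  rfl

lemma sc_eq_lsub (w : Fin N → K) : sc w = lsub K (Matrix.diagonal w) := by
  apply MvPolynomial.algHom_ext
  intro i
  rw [sc_X, lsub_X, Finset.sum_eq_single i]
  · rw [Matrix.diagonal_apply_eq]
  · intro j _ hj
    rw [Matrix.diagonal_apply_ne _ hj.symm, map_zero, zero_mul]
  · simp

lemma sc_sc (w w' : Fin N → K) (f : MvPolynomial (Fin N) K) : sc w (sc w' f) = sc (w * w') f := by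
  have h : (sc w).comp (sc w') = sc (w * w') := by
    apply MvPolynomial.algHom_ext
    intro i
    rw [AlgHom.comp_apply, sc_X, map_mul, sc_C, sc_X, sc_X, Pi.mul_apply, map_mul]
    ring
  exact DFunLike.congr_fun h f

lemma sc_one (f : MvPolynomial (Fin N) K) : sc (1 : Fin N → K) f = f := by
  have h : sc (1 : Fin N → K) = AlgHom.id K _ := by
    apply MvPolynomial.algHom_ext
    intro i
    rw [sc_X, Pi.one_apply, map_one, one_mul]
    rfl
  rw [h]
  rfl

lemma isFib_sc {w w' : Fin N → K} (h : w * w' = 1) (l : MvPolynomial (Fin N) K) :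
    IsFib (sc w) l where
  graded := by
    rw [sc_eq_lsub]
    exact homogeneousComponent_lsub _
  den := by
    intro y
    refine ⟨1, sc w' y, 0, isHomogeneous_one _ _, ?_, ?_⟩
    · rw [sc_sc, h, sc_one, map_one, one_mul]
    · intro P hP _ h1
      rw [map_one] at h1
      exact hP.ne_top ((Ideal.eq_top_iff_one _).2 h1)

lemma comap_comap_sc (w w' : Fin N → K) (P : Ideal (MvPolynomial (Fin N) K)) :
    (P.comap (sc w)).comap (sc w') = P.comap (sc (w * w')) := by
  ext f
  rw [Ideal.mem_comap, Ideal.mem_comap, Ideal.mem_comap, sc_sc]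

lemma comap_sc_one (P : Ideal (MvPolynomial (Fin N) K)) : P.comap (sc (1 : Fin N → K)) = P := by
  ext f
  rw [Ideal.mem_comap, sc_one]

lemma isHomogeneous_sc {f : MvPolynomial (Fin N) K} {d : ℕ} (w : Fin N → K)
    (hf : IsHomogeneous f d) : IsHomogeneous (sc w f) d := by
  rw [sc_eq_lsub]
  exact isHomogeneous_lsub _ hf

lemma isSub_comap_sc {w w' : Fin N → K} (h : w * w' = 1) {t : ℕ} {l l' : MvPolynomial (Fin N) K}
    {P : Ideal (MvPolynomial (Fin N) K)} (hP : IsSub t l P) (hl : sc w l' ∈ P → l ∈ P) :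
    IsSub t l' (P.comap (sc w)) := by
  have h1 : IsSub t (sc w l') P := ⟨hP.prime, hP.hom, hP.trdeg, fun h2 => hP.notMem (hl h2)⟩
  have h2 := (isFib_sc h l').isSub_comap (trdeg_self_eq) h1
  rw [add_zero] at h2
  exact h2

/-- The operation of a scaling on cycles. -/
noncomputable def tr (w : Fin N → K) :
    (Ideal (MvPolynomial (Fin N) K) → ℚ) →ₗ[ℚ] (Ideal (MvPolynomial (Fin N) K) → ℚ) where
  toFun c P := c (P.comap (sc w))
  map_add' _ _ := rfl
  map_smul' _ _ := rfl

lemma tr_apply (w : Fin N → K) (c : Ideal (MvPolynomial (Fin N) K) → ℚ)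
    (P : Ideal (MvPolynomial (Fin N) K)) : tr w c P = c (P.comap (sc w)) := rfl

lemma tr_tr (w w' : Fin N → K) (c : Ideal (MvPolynomial (Fin N) K) → ℚ) :
    tr w (tr w' c) = tr (w * w') c := by
  funext P
  rw [tr_apply, tr_apply, tr_apply, comap_comap_sc]

lemma tr_one (c : Ideal (MvPolynomial (Fin N) K) → ℚ) : tr (1 : Fin N → K) c = c := by
  funext P
  rw [tr_apply, comap_sc_one]

lemma tr_pt {w w' : Fin N → K} (h : w * w' = 1) (P : Ideal (MvPolynomial (Fin N) K)) :
    tr w (pt P) = pt (P.comap (sc w')) := by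
  classical
  funext P'
  rw [tr_apply]
  unfold pt
  by_cases h1 : P'.comap (sc w) = P
  · have h2 : P' = P.comap (sc w') := by
      rw [← h1, comap_comap_sc, h, comap_sc_one]
    rw [h1, ← h2, Pi.single_eq_same, Pi.single_eq_same]
  · have h2 : P' ≠ P.comap (sc w') := by
      intro h2
      apply h1
      rw [h2, comap_comap_sc, mul_comm, h, comap_sc_one]
    rw [Pi.single_eq_of_ne h1, Pi.single_eq_of_ne h2]

/-- `l` is an eigenvector of the scaling. -/
def Eig (w : Fin N → K) (l : MvPolynomial (Fin N) K) : Prop := ∃ c : K, c ≠ 0 ∧ sc w l = C c * l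

lemma Eig.mem_iff {w : Fin N → K} {l : MvPolynomial (Fin N) K} (h : Eig w l)
    (P : Ideal (MvPolynomial (Fin N) K)) : sc w l ∈ P ↔ l ∈ P := by
  obtain ⟨c, hc, h1⟩ := h
  rw [h1, Ideal.unit_mul_mem_iff_mem]
  exact (isUnit_iff_ne_zero.2 hc).map C

lemma eig_one (w : Fin N → K) : Eig w 1 := ⟨1, one_ne_zero, by rw [map_one, map_one, one_mul]⟩

lemma eig_X {w : Fin N → K} (j : Fin N) (h : w j ≠ 0) : Eig w (X j) := ⟨w j, h, sc_X w j⟩

lemma isSub_comap_sc_iff {w w' : Fin N → K} (h : w * w' = 1) {t : ℕ}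
    {l : MvPolynomial (Fin N) K} (hl : Eig w l) (hl' : Eig w' l)
    {P : Ideal (MvPolynomial (Fin N) K)} : IsSub t l (P.comap (sc w)) ↔ IsSub t l P := by
  constructor
  · intro h1
    have h2 := isSub_comap_sc (w := w') (w' := w) (by rw [mul_comm, h]) (l' := l) h1
      (fun h3 => (hl'.mem_iff _).1 h3)
    rw [comap_comap_sc, h, comap_sc_one] at h2
    exact h2
  · intro h1
    exact isSub_comap_sc h h1 fun h2 => (hl.mem_iff _).1 h2

lemma tr_idiv {w w' : Fin N → K} (h : w * w' = 1) {t : ℕ} {l : MvPolynomial (Fin N) K}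
    (hl : Eig w l) (hl' : Eig w' l) (Q : Ideal (MvPolynomial (Fin N) K))
    (G : MvPolynomial (Fin N) K) :
    tr w (idiv t l Q G) = idiv t l (Q.comap (sc w')) (sc w G) := by
  funext P
  rw [tr_apply]
  by_cases hP : IsSub t l P
  · have h1 : IsSub t l (P.comap (sc w)) := (isSub_comap_sc_iff h hl hl').2 hP
    rw [idiv_of h1, idiv_of hP]
    have h2 : Q = (Q.comap (sc w')).comap (sc w) := by
      rw [comap_comap_sc, mul_comm, h, comap_sc_one]
    conv_lhs => rw [h2]
    congr 1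
    have h3 : sc w (1 : MvPolynomial (Fin N) K) ∉ P := by
      rw [map_one]
      intro h3
      exact hP.prime.ne_top ((Ideal.eq_top_iff_one _).2 h3)
    exact (isFib_sc h (1 : MvPolynomial (Fin N) K)).mult_eq (Q' := Q.comap (sc w')) hP.prime h3
      (s := 1) (y := sc w G) (r := G) h3 (by rw [map_one, one_mul])
  · rw [idiv_of_not fun h1 => hP ((isSub_comap_sc_iff h hl hl').1 h1), idiv_of_not hP]

lemma tr_iRel {w w' : Fin N → K} (h : w * w' = 1) {t : ℕ} {l : MvPolynomial (Fin N) K}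
    (hl : Eig w l) (hl' : Eig w' l) {I : Ideal (MvPolynomial (Fin N) K)}
    (hI : I ≤ I.comap (sc w')) : (IRel I t l).map (tr w) ≤ IRel I t l := by
  unfold IRel
  rw [Submodule.map_span_le]
  rintro c ⟨Q, G, e, hQ, hFQ, hG, hGQ, rfl⟩
  rw [tr_idiv h hl hl']
  refine Submodule.subset_span ⟨_, _, e, ?_, hI.trans (Ideal.comap_mono hFQ),
    isHomogeneous_sc w hG, ?_, rfl⟩
  · exact (isSub_comap_sc_iff (by rw [mul_comm, h]) hl' hl).2 hQ
  · rw [Ideal.mem_comap, sc_sc, mul_comm, h, sc_one]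
    exact hGQ

lemma tr_iRatEq {w w' : Fin N → K} (h : w * w' = 1) {t : ℕ}
    {I : Ideal (MvPolynomial (Fin N) K)}
    (hI : I ≤ I.comap (sc w')) : (IRatEq I t).map (tr w) ≤ IRatEq I t := by
  unfold IRatEq
  rw [Submodule.map_span_le]
  rintro c ⟨Q, G₁, G₂, e, hQ, hFQ, hG₁, hG₂, hGQ₁, hGQ₂, rfl⟩
  rw [map_sub, tr_idiv h (eig_one _) (eig_one _), tr_idiv h (eig_one _) (eig_one _)]
  refine Submodule.subset_span ⟨_, _, _, e, ?_, hI.trans (Ideal.comap_mono hFQ),
    isHomogeneous_sc w hG₁, isHomogeneous_sc w hG₂, ?_, ?_, rfl⟩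
  · exact (isSub_comap_sc_iff (by rw [mul_comm, h]) (eig_one _) (eig_one _)).2 hQ
  · rw [Ideal.mem_comap, sc_sc, mul_comm, h, sc_one]
    exact hGQ₁
  · rw [Ideal.mem_comap, sc_sc, mul_comm, h, sc_one]
    exact hGQ₂

end sc

/-! ### Averages -/

section av

variable {K : Type u} [Field K] {N m : ℕ} {ι : Type} [Fintype ι] [DecidableEq ι] [NeZero m]

/-- The scaling by the roots of unity given by `a` on the blocks of variables. -/
def wt (e : AddChar (ZMod m) K) (β : Fin N → ι) (a : ι → ZMod m) : Fin N → K := fun j => e (a (β j))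

variable (e : AddChar (ZMod m) K) (β : Fin N → ι)

lemma wt_add (a b : ι → ZMod m) : wt e β (a + b) = wt e β a * wt e β b := by
  funext j
  simp only [wt, Pi.add_apply, Pi.mul_apply, AddChar.map_add_eq_mul]

lemma wt_zero : wt e β (0 : ι → ZMod m) = 1 := by
  funext j
  simp [wt]

lemma wt_mul_neg (a : ι → ZMod m) : wt e β a * wt e β (-a) = 1 := by
  rw [← wt_add, add_neg_cancel, wt_zero]

lemma wt_neg_mul (a : ι → ZMod m) : wt e β (-a) * wt e β a = 1 := by
  rw [← wt_add, neg_add_cancel, wt_zero]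

lemma wt_ne_zero (a : ι → ZMod m) (j : Fin N) : wt e β a j ≠ 0 := by
  intro h
  have h1 := congrFun (wt_mul_neg e β a) j
  rw [Pi.mul_apply, h, zero_mul] at h1
  exact zero_ne_one h1

/-- The sum of the translates of a cycle. -/
noncomputable def av : (Ideal (MvPolynomial (Fin N) K) → ℚ) →ₗ[ℚ]
    (Ideal (MvPolynomial (Fin N) K) → ℚ) := ∑ a : ι → ZMod m, tr (wt e β a)

lemma av_apply (c : Ideal (MvPolynomial (Fin N) K) → ℚ) :
    av e β c = ∑ a : ι → ZMod m, tr (wt e β a) c := by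
  unfold av
  rw [LinearMap.sum_apply]

lemma av_tr (b : ι → ZMod m) (c : Ideal (MvPolynomial (Fin N) K) → ℚ) :
    av e β (tr (wt e β b) c) = av e β c := by
  rw [av_apply, av_apply]
  simp only [tr_tr, ← wt_add]
  exact Fintype.sum_equiv (Equiv.addRight b) _ _ fun a => rfl

lemma tr_av (b : ι → ZMod m) (c : Ideal (MvPolynomial (Fin N) K) → ℚ) :
    tr (wt e β b) (av e β c) = av e β c := by
  rw [av_apply, map_sum]
  simp only [tr_tr, ← wt_add]
  exact Fintype.sum_equiv (Equiv.addLeft b) _ _ fun a => rfl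

lemma av_of_inv {c : Ideal (MvPolynomial (Fin N) K) → ℚ} (h : ∀ a, tr (wt e β a) c = c) :
    av e β c = (Fintype.card (ι → ZMod m) : ℚ) • c := by
  rw [av_apply, Finset.sum_congr rfl fun a _ => h a, Finset.sum_const, Finset.card_univ,
    Nat.cast_smul_eq_nsmul]

lemma av_av (c : Ideal (MvPolynomial (Fin N) K) → ℚ) :
    av e β (av e β c) = (Fintype.card (ι → ZMod m) : ℚ) • av e β c :=
  av_of_inv e β fun a => tr_av e β a c

lemma card_ne_zero' : (Fintype.card (ι → ZMod m) : ℚ) ≠ 0 := by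
  rw [Nat.cast_ne_zero]
  exact Fintype.card_ne_zero

/-- The ideal is stable under the scalings. -/
def Stable (I : Ideal (MvPolynomial (Fin N) K)) : Prop :=
  ∀ a : ι → ZMod m, I ≤ I.comap (sc (wt e β a))

variable {e β}

lemma av_map_le {S : Submodule ℚ (Ideal (MvPolynomial (Fin N) K) → ℚ)}
    (h : ∀ a : ι → ZMod m, S.map (tr (wt e β a)) ≤ S) : S ≤ S.comap (av e β) := by
  intro c hc
  rw [Submodule.mem_comap, av_apply]
  exact Submodule.sum_mem _ fun a _ => h a (Submodule.mem_map_of_mem hc)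

lemma iRel_le_av {I : Ideal (MvPolynomial (Fin N) K)} (hI : Stable e β I) {t : ℕ}
    {l : MvPolynomial (Fin N) K} (hl : ∀ a : ι → ZMod m, Eig (wt e β a) l) :
    IRel I t l ≤ (IRel I t l).comap (av e β) :=
  av_map_le fun a => tr_iRel (wt_mul_neg e β a) (hl a) (hl (-a)) (hI (-a))

lemma iRatEq_le_av {I : Ideal (MvPolynomial (Fin N) K)} (hI : Stable e β I) {t : ℕ} :
    IRatEq I t ≤ (IRatEq I t).comap (av e β) :=
  av_map_le fun a => tr_iRatEq (wt_mul_neg e β a) (hI (-a))

lemma eig_wt_X (j : Fin N) (a : ι → ZMod m) : Eig (wt e β a) (X j) :=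
  eig_X j (wt_ne_zero e β a j)

/-- If `av (av c) ∈ S` then `av c ∈ S`. -/
lemma av_mem_of_av_av_mem {S : Submodule ℚ (Ideal (MvPolynomial (Fin N) K) → ℚ)}
    {c : Ideal (MvPolynomial (Fin N) K) → ℚ} (h : av e β (av e β c) ∈ S) : av e β c ∈ S := by
  rw [av_av] at h
  have h1 := S.smul_mem (Fintype.card (ι → ZMod m) : ℚ)⁻¹ h
  rwa [smul_smul, inv_mul_cancel₀ card_ne_zero', one_smul] at h1

lemma av_pt_comap (a : ι → ZMod m) (P : Ideal (MvPolynomial (Fin N) K)) :
    av e β (pt (P.comap (sc (wt e β a)))) = av e β (pt P) := by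
  rw [← tr_pt (wt_neg_mul e β a), av_tr]

/-- A nonnegative cycle supported on the conjugates of `P`. -/
lemma av_pt_mem_of_conj {S : Submodule ℚ (Ideal (MvPolynomial (Fin N) K) → ℚ)}
    {c : Ideal (MvPolynomial (Fin N) K) → ℚ} {P : Ideal (MvPolynomial (Fin N) K)}
    (hfin : (Function.support c).Finite) (hpos : ∀ P', 0 ≤ c P') (hP : c P ≠ 0)
    (hconj : ∀ P', c P' ≠ 0 → ∃ a : ι → ZMod m, P' = P.comap (sc (wt e β a)))
    (hc : av e β c ∈ S) : av e β (pt P) ∈ S := by
  classical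
  have h1 : c = ∑ P' ∈ hfin.toFinset, c P' • pt P' := by
    funext P₁
    rw [Finset.sum_apply]
    by_cases hP₁ : c P₁ = 0
    · rw [hP₁, Finset.sum_eq_zero]
      intro P' hP'
      have h2 : P' ≠ P₁ := by
        rintro rfl
        rw [Set.Finite.mem_toFinset] at hP'
        exact hP' hP₁
      simp only [pt, Pi.smul_apply, smul_eq_mul]
      rw [Pi.single_eq_of_ne h2.symm, mul_zero]
    · rw [Finset.sum_eq_single P₁]
      · simp only [pt, Pi.smul_apply, smul_eq_mul, Pi.single_eq_same, mul_one]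
      · intro P' _ h2
        simp only [pt, Pi.smul_apply, smul_eq_mul]
        rw [Pi.single_eq_of_ne h2.symm, mul_zero]
      · intro h2
        rw [Set.Finite.mem_toFinset] at h2
        exact absurd hP₁ h2
  have h2 : av e β c = (∑ P' ∈ hfin.toFinset, c P') • av e β (pt P) := by
    conv_lhs => rw [h1]
    rw [map_sum, Finset.sum_smul]
    refine Finset.sum_congr rfl fun P' hP' => ?_
    rw [Set.Finite.mem_toFinset] at hP'
    obtain ⟨a, ha⟩ := hconj P' hP'
    rw [map_smul]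
    congr 1
    rw [ha, av_pt_comap]
  have h3 : (∑ P' ∈ hfin.toFinset, c P') ≠ 0 := by
    apply ne_of_gt
    refine Finset.sum_pos' (fun P' _ => hpos P') ⟨P, ?_, lt_of_le_of_ne (hpos P) hP.symm⟩
    rw [Set.Finite.mem_toFinset]
    exact hP
  rw [h2] at hc
  have h4 := S.smul_mem (∑ P' ∈ hfin.toFinset, c P')⁻¹ hc
  rwa [smul_smul, inv_mul_cancel₀ h3, one_smul] at h4

lemma idiv_nonneg (t : ℕ) (l : MvPolynomial (Fin N) K) (Q : Ideal (MvPolynomial (Fin N) K))
    (G : MvPolynomial (Fin N) K) (P : Ideal (MvPolynomial (Fin N) K)) : 0 ≤ idiv t l Q G P := by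
  by_cases hP : IsSub t l P
  · rw [idiv_of hP]
    exact Nat.cast_nonneg _
  · rw [idiv_of_not hP]

end av

end Pool.Agent.H835.AV
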