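import Pool.Agent.H835.AV.LinSup

set_option autoImplicit false
set_option linter.unusedSectionVars false

/-!
# The group ring acting on cycles of all dimensions on sums of forms
-/

universe u

namespace Pool.Agent.H835.AV

open MvPolynomial Pool.Agent.W5h86.HC

section lin

variable {K : Type u} [Field K] {N : ℕ} {I : Ideal (MvPolynomial (Fin N) K)} {i : ℕ}

/-- The class of a subvariety. -/
noncomputable def cls (V : Subvar I i) : CH I i := (ratEq I i).mkQ (Finsupp.single V 1)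

lemma cls_mem_of_pt {T : Set (Ideal (MvPolynomial (Fin N) K))}
    (hT : ∀ P ∈ T, IsSub (i + 1) 1 P ∧ I ≤ P) {V : Subvar I i}
    (h : pt V.P ∈ Submodule.span ℚ (pt '' T) ⊔ IRatEq I (i + 1)) :
    cls V ∈ Submodule.span ℚ (cls '' {W : Subvar I i | W.P ∈ T}) := by
  have h1 : Submodule.span ℚ (pt '' T) = (Submodule.span ℚ
      ((fun W : Subvar I i => (Finsupp.single W 1 : Cyc I i)) '' {W | W.P ∈ T})).map
        (emb I i) := by
    rw [Submodule.map_span]
    congr 1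
    ext x
    constructor
    · rintro ⟨P, hP, rfl⟩
      obtain ⟨W, rfl⟩ := exists_subvar (i := i) (hT P hP).1 (hT P hP).2
      exact ⟨_, ⟨W, hP, rfl⟩, emb_single W⟩
    · rintro ⟨_, ⟨W, hW, rfl⟩, rfl⟩
      exact ⟨W.P, hW, (emb_single W).symm⟩
  rw [h1, ← map_ratEq, ← Submodule.map_sup, ← emb_single] at h
  obtain ⟨z, hz1, hz2⟩ := h
  rw [emb_injective hz2] at hz1
  obtain ⟨a, ha, b, hb, hab⟩ := Submodule.mem_sup.1 hz1
  have h2 : (ratEq I i).mkQ b = 0 := by
    rw [Submodule.mkQ_apply, Submodule.Quotient.mk_eq_zero]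
    exact hb
  have h3 : cls V = (ratEq I i).mkQ a := by
    unfold cls
    rw [← hab, map_add, h2, add_zero]
  rw [h3]
  have h4 := Submodule.mem_map_of_mem (f := (ratEq I i).mkQ) ha
  rw [Submodule.map_span, ← Set.image_comp] at h4
  exact h4

/-- The subvarieties in a linear subspace. -/
theorem lin_subvar (S : Set (MvPolynomial (Fin N) K)) (hS : ∀ l ∈ S, IsHomogeneous l 1)
    (hIS : I ≤ Ideal.span S) (i : ℕ) :
    ∃ T : Finset (Subvar I i), T.card ≤ 1 ∧ (∀ V ∈ T, IsLin V.P) ∧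
      ∀ V : Subvar I i, Ideal.span S ≤ V.P →
        cls V ∈ Submodule.span ℚ (cls '' (T : Set (Subvar I i))) := by
  classical
  obtain ⟨T, hT1, hT2, hT3⟩ := lin_cycles S hS (t := i + 1) (by omega)
  have hrat : IRatEq (Ideal.span S) (i + 1) ≤ IRatEq I (i + 1) := by
    unfold IRatEq
    apply Submodule.span_mono
    rintro c ⟨Q, G₁, G₂, e, h1, h2, h3⟩
    exact ⟨Q, G₁, G₂, e, h1, hIS.trans h2, h3⟩
  have hsub : {W : Subvar I i | W.P ∈ T}.Subsingleton := fun W hW W' hW' =>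
    Subvar.ext' (hT1 hW hW')
  refine ⟨hsub.finite.toFinset, ?_, fun V hV => ?_, fun V hV => ?_⟩
  · rw [Finset.card_le_one]
    intro a ha b hb
    exact hsub ((Set.Finite.mem_toFinset _).1 ha) ((Set.Finite.mem_toFinset _).1 hb)
  · have hV' : V ∈ {W : Subvar I i | W.P ∈ T} := (Set.Finite.mem_toFinset _).1 hV
    exact (hT2 V.P hV').2.2
  · rw [Set.Finite.coe_toFinset]
    exact cls_mem_of_pt (fun P hP => ⟨(hT2 P hP).1, hIS.trans (hT2 P hP).2.1⟩)
      (sup_le_sup_left hrat _ (hT3 V.P V.isSub hV))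

end lin

section supp

variable {K : Type u} [Field K] {N : ℕ} {ι : Type} [Fintype ι] [DecidableEq ι]
  {f : ι → MvPolynomial (Fin N) K}

/-- The classes of the cycles supported in the union of the closed subsets where the merged forms
vanish. -/
noncomputable def Supp (f : ι → MvPolynomial (Fin N) K) (S : Set (ι → ι)) (i : ℕ) :
    Submodule ℚ (CH (Ideal.span {∑ k, f k}) i) :=
  Submodule.span ℚ {x | ∃ π ∈ S, ∃ V : Subvar (Ideal.span {∑ k, f k}) i,
    locus f π ≤ V.P ∧ x = cls V}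

lemma suppCH_le (f : ι → MvPolynomial (Fin N) K) (S : Set (ι → ι)) (i : ℕ) :
    suppCH (Ideal.span {∑ k, f k}) (⨅ π ∈ S, locus f π) i ≤ Supp f S i := by
  classical
  unfold suppCH
  rw [Submodule.span_le]
  rintro _ ⟨V, hV, rfl⟩
  have h1 : (Set.toFinite S).toFinset.inf (locus f) ≤ V.P := by
    refine le_trans ?_ hV
    refine le_iInf₂ fun π hπ => Finset.inf_le ?_
    rw [Set.Finite.mem_toFinset]
    exact hπ
  obtain ⟨π, hπ, h2⟩ := (V.prime.inf_le' (s := (Set.toFinite S).toFinset)).1 h1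
  rw [Set.Finite.mem_toFinset] at hπ
  exact Submodule.subset_span ⟨π, hπ, V, h2, rfl⟩

/-- If the merged forms are products of linear forms, the cycles supported in the union of the
closed subsets are combinations of linear subspaces. -/
theorem supp_lin {n : ℕ} (S : Set (ι → ι))
    (hS : ∀ π ∈ S, ∀ k, ∃ L : Fin n → MvPolynomial (Fin N) K,
      (∀ j, IsHomogeneous (L j) 1) ∧ mrg f π k = ∏ j, L j) (i : ℕ) :
    ∃ T : Finset (Subvar (Ideal.span {∑ k, f k}) i), (∀ V ∈ T, IsLin V.P) ∧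
      T.card ≤ S.ncard * n ^ Fintype.card ι ∧
      Supp f S i ≤ Submodule.span ℚ (cls '' (T : Set (Subvar (Ideal.span {∑ k, f k}) i))) := by
  classical
  choose! L hL1 hL2 using hS
  have h1 : ∀ (π : ι → ι) (j : ι → Fin n), π ∈ S → ∃ T : Finset (Subvar (Ideal.span {∑ k, f k}) i),
      T.card ≤ 1 ∧ (∀ V ∈ T, IsLin V.P) ∧
      ∀ V : Subvar (Ideal.span {∑ k, f k}) i, Ideal.span (Set.range fun k => L π k (j k)) ≤ V.P →
        cls V ∈ Submodule.span ℚ (cls '' (T : Set (Subvar (Ideal.span {∑ k, f k}) i))) := by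
    intro π j hπ
    refine lin_subvar _ ?_ ?_ i
    · rintro _ ⟨k, rfl⟩
      exact hL1 π hπ k (j k)
    · refine (hyp_le_locus f π).trans ?_
      unfold locus
      rw [Ideal.span_le]
      rintro _ ⟨k, rfl⟩
      rw [SetLike.mem_coe, hL2 π hπ k, ← Finset.mul_prod_erase _ _ (Finset.mem_univ (j k))]
      exact Ideal.mul_mem_right _ _ (Ideal.subset_span ⟨k, rfl⟩)
  choose! T hT1 hT2 hT3 using h1
  refine ⟨((Set.toFinite S).toFinset ×ˢ (Finset.univ : Finset (ι → Fin n))).biUnion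
    fun p => T p.1 p.2, ?_, ?_, ?_⟩
  · intro V hV
    obtain ⟨p, hp, hV⟩ := Finset.mem_biUnion.1 hV
    rw [Finset.mem_product, Set.Finite.mem_toFinset] at hp
    exact hT2 p.1 p.2 hp.1 V hV
  · refine (Finset.card_biUnion_le_card_mul _ _ 1 fun p hp => ?_).trans ?_
    · rw [Finset.mem_product, Set.Finite.mem_toFinset] at hp
      exact hT1 p.1 p.2 hp.1
    · rw [Finset.card_product, mul_one, Finset.card_univ, Fintype.card_fun, Fintype.card_fin,
        ← Set.ncard_eq_toFinset_card]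
  · unfold Supp
    rw [Submodule.span_le]
    rintro _ ⟨π, hπ, V, hV, rfl⟩
    have h2 : ∀ k, ∃ j, L π k j ∈ V.P := by
      intro k
      have h3 : ∏ j, L π k j ∈ V.P := by
        rw [← hL2 π hπ k]
        exact hV (Ideal.subset_span ⟨k, rfl⟩)
      obtain ⟨j, -, hj⟩ := (V.prime.prod_mem_iff).1 h3
      exact ⟨j, hj⟩
    choose j hj using h2
    have h4 := hT3 π j hπ V (by
      rw [Ideal.span_le]
      rintro _ ⟨k, rfl⟩
      exact hj k)
    refine Submodule.span_mono (Set.image_mono ?_) h4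
    intro W hW
    rw [Finset.mem_coe, Finset.mem_biUnion]
    refine ⟨(π, j), ?_, hW⟩
    rw [Finset.mem_product, Set.Finite.mem_toFinset]
    exact ⟨hπ, Finset.mem_univ _⟩

end supp

section main

variable {K : Type u} [Field K] {m : ℕ} [NeZero m] {ζ : K} {N s : ℕ} {β : Fin N → Fin s}
  {f : Fin s → MvPolynomial (Fin N) K}

lemma hz_conv {S : Set (Fin s → Fin s)} {z z' : (Fin s → ZMod m) → ℚ}
    (hz : ∀ x : Fin s → ZMod m, ∑ k, x k = 0 → (∀ π ∈ S, ¬ ∀ l, ∑ k with π k = l, x k = 0) →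
      ∑ g, (z g : ℂ) * ZMod.stdAddChar (∑ k, x k * g k) = 0) (hz' : ∀ g, z' g = z (-g))
    (x : Fin s → ZMod m) (hx : ∑ k, x k = 0) (hzx : ∑ g, (z' g : ℂ) * ch x g ≠ 0) :
    ∃ π ∈ S, ∀ k, ∑ j with π j = k, x j = 0 := by
  by_contra hcon
  apply hzx
  rw [sum_ch_neg hz']
  refine hz (-x) ?_ fun π hπ h => hcon ⟨π, hπ, fun k => ?_⟩
  · simp only [Pi.neg_apply, Finset.sum_neg_distrib, hx, neg_zero]
  · have h2 := h k
    simp only [Pi.neg_apply, Finset.sum_neg_distrib, neg_eq_zero] at h2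
    exact h2

/-- **The group ring acting on cycles of all dimensions.** -/
theorem all_main (hζ : IsPrimitiveRoot ζ m) {n a i : ℕ} (hn : n = m * ringExpChar K ^ a)
    (hi : i + 2 ≤ N) (hf : ∀ k, IsHomogeneous (f k) n)
    (hfβ : ∀ k, f k ∈ supported K {l | β l = k}) {S : Set (Fin s → Fin s)} (hS : S.Nonempty)
    (z : (Fin s → ZMod m) → ℚ)
    (hz : ∀ x : Fin s → ZMod m, ∑ k, x k = 0 → (∀ π ∈ S, ¬ ∀ l, ∑ k with π k = l, x k = 0) →
      ∑ g, (z g : ℂ) * ZMod.stdAddChar (∑ k, x k * g k) = 0) :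
    ∃ (r : ℕ) (c : Fin r → Fin N),
      DimAtMost (Ideal.span {∑ k, f k} ⊔ Ideal.span (Set.range fun l => X (c l))) i ∧
      ∀ α : CH (Ideal.span {∑ k, f k}) i, ∃ q : ℚ,
        ∑ g, z g • blockAct hζ.pow_eq_one
          (sum_stable hζ.pow_eq_one (hn ▸ Dvd.intro _ rfl) hf hfβ) i g α -
        q • (ratEq (Ideal.span {∑ k, f k}) i).mkQ (cyc (Ideal.span {∑ k, f k}) i
          (Ideal.span {∑ k, f k} ⊔ Ideal.span (Set.range fun l => X (c l)))) ∈ Supp f S i := by
  have hle : Ideal.span {∑ k, f k} ≤ ⨅ π ∈ S, locus f π := le_iInf₂ fun π _ => hyp_le_locus f π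
  obtain ⟨r, c, h1, h2⟩ := block_main (J := ⨅ π ∈ S, locus f π) hζ hn
    (sum_stable hζ.pow_eq_one (hn ▸ Dvd.intro _ rfl) hf hfβ) hle i z fun e he z' hz' =>
      sp_main he (by omega) (by omega) hf hfβ hS z' fun x hx hzx => hz_conv hz hz' x hx hzx
  refine ⟨r, c, h1, fun α => ?_⟩
  obtain ⟨q, hq⟩ := h2 α
  exact ⟨q, suppCH_le f S i hq⟩

/-- **Cycles of low codimension**: multiples of a linear section. -/
theorem codim_main (hζ : IsPrimitiveRoot ζ m) {n a i : ℕ} (hn : n = m * ringExpChar K ^ a)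
    (hi : i + 2 ≤ N) (hf : ∀ k, IsHomogeneous (f k) n)
    (hfβ : ∀ k, f k ∈ supported K {l | β l = k}) (h0 : ∀ k, f k ≠ 0)
    {S : Set (Fin s → Fin s)} (hS : S.Nonempty)
    (hcard : ∀ π ∈ S, i + 2 ≤ (Finset.univ.image π).card ∨ N ≤ i + (Finset.univ.image π).card)
    (z : (Fin s → ZMod m) → ℚ)
    (hz : ∀ x : Fin s → ZMod m, ∑ k, x k = 0 → (∀ π ∈ S, ¬ ∀ l, ∑ k with π k = l, x k = 0) →
      ∑ g, (z g : ℂ) * ZMod.stdAddChar (∑ k, x k * g k) = 0) :
    ∃ (r : ℕ) (c : Fin r → Fin N),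
      DimAtMost (Ideal.span {∑ k, f k} ⊔ Ideal.span (Set.range fun l => X (c l))) i ∧
      ∀ α : CH (Ideal.span {∑ k, f k}) i, ∃ q : ℚ,
        ∑ g, z g • blockAct hζ.pow_eq_one
          (sum_stable hζ.pow_eq_one (hn ▸ Dvd.intro _ rfl) hf hfβ) i g α =
        q • (ratEq (Ideal.span {∑ k, f k}) i).mkQ (cyc (Ideal.span {∑ k, f k}) i
          (Ideal.span {∑ k, f k} ⊔ Ideal.span (Set.range fun l => X (c l)))) := by
  refine block_main' hζ hn _ i z ?_
  intro e he z' hz'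
  have hst : Stable e β (Ideal.span {∑ k, f k}) := by
    intro b
    rw [Ideal.span_singleton_le_iff_mem, Ideal.mem_comap,
      (show SF β n (∑ k, f k) from ⟨f, hf, hfβ, rfl⟩).inv he.dvd]
    exact Ideal.mem_span_singleton_self _
  have hav : ∀ π ∈ S, AvTriv e (π ∘ β) (i + 1) (Ideal.span {∑ k, f k}) := by
    intro π hπ
    refine avTriv_sum he (by omega) (by omega) hf hfβ h0 ?_
    have := hcard π hπ
    omega
  obtain ⟨π₀, hπ₀⟩ := hS
  refine char_main hst (hav π₀ hπ₀) z' fun x hx hzx => ?_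
  obtain ⟨π, hπ, h3⟩ := hz_conv hz hz' x hx hzx
  exact ⟨π, hav π hπ, h3⟩

end main

end Pool.Agent.H835.AV
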