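import Mathlib.Tactic.Ring

set_option autoImplicit false
set_option maxHeartbeats 40000000

/-!
# Arithmetic of zero-sum partitions in degrees 2, 3, 4, 5, 7
-/

namespace Pool.Agent.H835.AV

theorem ar2 (c1 k q : ℕ) (hk : 1 ≤ k)
    (hq : c1 = 2 * q)
    (h1 : k * 2 ≤ c1) :
    ∃ y1 q' : ℕ, (y1 ≤ c1) ∧
      0 < y1 ∧ y1 = 2 * q' ∧
      y1 + (k - 1) * 2 ≤
        c1 := by
  by_cases p1 : 2 ≤ c1
  · have p := p1
    exact ⟨2, 1, by omega⟩
  exfalso
  omega

theorem ar3 (c1 c2 k q : ℕ) (hk : 1 ≤ k)
    (hq : c1 + 2 * c2 = 3 * q)
    (h1 : k * 3 ≤ c1 + 2 * c2)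
    (h2 : k * 3 ≤ 2 * c1 + c2) :
    ∃ y1 y2 q' : ℕ, (y1 ≤ c1 ∧ y2 ≤ c2) ∧
      0 < y1 + y2 ∧ y1 + 2 * y2 = 3 * q' ∧
      y1 + 2 * y2 + (k - 1) * 3 ≤
        c1 + 2 * c2 ∧
      2 * y1 + y2 + (k - 1) * 3 ≤
        2 * c1 + c2 := by
  by_cases p1 : 1 ≤ c1 ∧ 1 ≤ c2
  · have p := p1
    exact ⟨1, 1, 1, by omega⟩
  rcases Nat.eq_zero_or_pos c2 with s1 | s1
  · subst s1
    rcases Nat.lt_or_ge c1 3 with r1 | r1
    · exfalso
      omega
    · exact ⟨3, 0, 1, by omega⟩
  · obtain rfl : c1 = 0 := by omega
    rcases Nat.lt_or_ge c2 3 with r2 | r2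
    · exfalso
      omega
    · exact ⟨0, 3, 2, by omega⟩

theorem ar4 (c1 c2 c3 k q : ℕ) (hk : 1 ≤ k)
    (hq : c1 + 2 * c2 + 3 * c3 = 4 * q)
    (h1 : k * 4 ≤ c1 + 2 * c2 + 3 * c3)
    (h3 : k * 4 ≤ 3 * c1 + 2 * c2 + c3) :
    ∃ y1 y2 y3 q' : ℕ, (y1 ≤ c1 ∧ y2 ≤ c2 ∧ y3 ≤ c3) ∧
      0 < y1 + y2 + y3 ∧ y1 + 2 * y2 + 3 * y3 = 4 * q' ∧
      y1 + 2 * y2 + 3 * y3 + (k - 1) * 4 ≤
        c1 + 2 * c2 + 3 * c3 ∧
      3 * y1 + 2 * y2 + y3 + (k - 1) * 4 ≤
        3 * c1 + 2 * c2 + c3 := by
  by_cases p1 : 1 ≤ c1 ∧ 1 ≤ c3
  · have p := p1
    exact ⟨1, 0, 1, 1, by omega⟩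
  by_cases p2 : 2 ≤ c2
  · have p := p2
    exact ⟨0, 2, 0, 1, by omega⟩
  rcases Nat.eq_zero_or_pos c3 with s1 | s1
  · subst s1
    rcases Nat.lt_or_ge c1 4 with r1 | r1
    · rcases Nat.lt_or_ge c2 1 with r2 | r2
      · obtain rfl : c2 = 0 := by omega
        exfalso
        omega
      · obtain rfl : c2 = 1 := by omega
        rcases Nat.lt_or_ge c1 2 with r1 | r1
        · exfalso
          omega
        · exact ⟨2, 1, 0, 1, by omega⟩
    · exact ⟨4, 0, 0, 1, by omega⟩
  · obtain rfl : c1 = 0 := by omega
    rcases Nat.lt_or_ge c3 4 with r3 | r3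
    · rcases Nat.lt_or_ge c2 1 with r2 | r2
      · obtain rfl : c2 = 0 := by omega
        exfalso
        omega
      · obtain rfl : c2 = 1 := by omega
        rcases Nat.lt_or_ge c3 2 with r3 | r3
        · exfalso
          omega
        · exact ⟨0, 1, 2, 2, by omega⟩
    · exact ⟨0, 0, 4, 3, by omega⟩

theorem ar5 (c1 c2 c3 c4 k q : ℕ) (hk : 1 ≤ k)
    (hq : c1 + 2 * c2 + 3 * c3 + 4 * c4 = 5 * q)
    (h1 : k * 5 ≤ c1 + 2 * c2 + 3 * c3 + 4 * c4)
    (h2 : k * 5 ≤ 2 * c1 + 4 * c2 + c3 + 3 * c4)
    (h3 : k * 5 ≤ 3 * c1 + c2 + 4 * c3 + 2 * c4)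
    (h4 : k * 5 ≤ 4 * c1 + 3 * c2 + 2 * c3 + c4) :
    ∃ y1 y2 y3 y4 q' : ℕ, (y1 ≤ c1 ∧ y2 ≤ c2 ∧ y3 ≤ c3 ∧ y4 ≤ c4) ∧
      0 < y1 + y2 + y3 + y4 ∧ y1 + 2 * y2 + 3 * y3 + 4 * y4 = 5 * q' ∧
      y1 + 2 * y2 + 3 * y3 + 4 * y4 + (k - 1) * 5 ≤
        c1 + 2 * c2 + 3 * c3 + 4 * c4 ∧
      2 * y1 + 4 * y2 + y3 + 3 * y4 + (k - 1) * 5 ≤
        2 * c1 + 4 * c2 + c3 + 3 * c4 ∧
      3 * y1 + y2 + 4 * y3 + 2 * y4 + (k - 1) * 5 ≤
        3 * c1 + c2 + 4 * c3 + 2 * c4 ∧
      4 * y1 + 3 * y2 + 2 * y3 + y4 + (k - 1) * 5 ≤
        4 * c1 + 3 * c2 + 2 * c3 + c4 := by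
  by_cases p1 : 1 ≤ c1 ∧ 1 ≤ c4
  · have p := p1
    exact ⟨1, 0, 0, 1, 1, by omega⟩
  by_cases p2 : 1 ≤ c2 ∧ 1 ≤ c3
  · have p := p2
    exact ⟨0, 1, 1, 0, 1, by omega⟩
  rcases Nat.eq_zero_or_pos c4 with s1 | s1
  · subst s1
    rcases Nat.eq_zero_or_pos c3 with s2 | s2
    · subst s2
      rcases Nat.lt_or_ge c1 1 with r1 | r1
      · obtain rfl : c1 = 0 := by omega
        rcases Nat.lt_or_ge c2 5 with r2 | r2
        · exfalso
          omega
        · exact ⟨0, 5, 0, 0, 2, by omega⟩
      · rcases Nat.lt_or_ge c2 2 with r2 | r2
        · rcases Nat.lt_or_ge c1 5 with r1 | r1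
          · rcases Nat.lt_or_ge c2 1 with r2 | r2
            · obtain rfl : c2 = 0 := by omega
              exfalso
              omega
            · obtain rfl : c2 = 1 := by omega
              rcases Nat.lt_or_ge c1 3 with r1 | r1
              · exfalso
                omega
              · exact ⟨3, 1, 0, 0, 1, by omega⟩
          · exact ⟨5, 0, 0, 0, 1, by omega⟩
        · exact ⟨1, 2, 0, 0, 1, by omega⟩
    · obtain rfl : c2 = 0 := by omega
      rcases Nat.lt_or_ge c3 1 with r3 | r3
      · obtain rfl : c3 = 0 := by omega
        rcases Nat.lt_or_ge c1 5 with r1 | r1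
        · exfalso
          omega
        · exact ⟨5, 0, 0, 0, 1, by omega⟩
      · rcases Nat.lt_or_ge c1 2 with r1 | r1
        · rcases Nat.lt_or_ge c3 5 with r3 | r3
          · rcases Nat.lt_or_ge c1 1 with r1 | r1
            · obtain rfl : c1 = 0 := by omega
              exfalso
              omega
            · obtain rfl : c1 = 1 := by omega
              rcases Nat.lt_or_ge c3 3 with r3 | r3
              · exfalso
                omega
              · exact ⟨1, 0, 3, 0, 2, by omega⟩
          · exact ⟨0, 0, 5, 0, 3, by omega⟩
        · exact ⟨2, 0, 1, 0, 1, by omega⟩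
  · obtain rfl : c1 = 0 := by omega
    rcases Nat.eq_zero_or_pos c3 with s2 | s2
    · subst s2
      rcases Nat.lt_or_ge c2 1 with r2 | r2
      · obtain rfl : c2 = 0 := by omega
        rcases Nat.lt_or_ge c4 5 with r4 | r4
        · exfalso
          omega
        · exact ⟨0, 0, 0, 5, 4, by omega⟩
      · rcases Nat.lt_or_ge c4 2 with r4 | r4
        · rcases Nat.lt_or_ge c2 5 with r2 | r2
          · rcases Nat.lt_or_ge c4 1 with r4 | r4
            · obtain rfl : c4 = 0 := by omega
              exfalso
              omega
            · obtain rfl : c4 = 1 := by omega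
              rcases Nat.lt_or_ge c2 3 with r2 | r2
              · exfalso
                omega
              · exact ⟨0, 3, 0, 1, 2, by omega⟩
          · exact ⟨0, 5, 0, 0, 2, by omega⟩
        · exact ⟨0, 1, 0, 2, 2, by omega⟩
    · obtain rfl : c2 = 0 := by omega
      rcases Nat.lt_or_ge c4 1 with r4 | r4
      · obtain rfl : c4 = 0 := by omega
        rcases Nat.lt_or_ge c3 5 with r3 | r3
        · exfalso
          omega
        · exact ⟨0, 0, 5, 0, 3, by omega⟩
      · rcases Nat.lt_or_ge c3 2 with r3 | r3
        · rcases Nat.lt_or_ge c4 5 with r4 | r4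
          · rcases Nat.lt_or_ge c3 1 with r3 | r3
            · obtain rfl : c3 = 0 := by omega
              exfalso
              omega
            · obtain rfl : c3 = 1 := by omega
              rcases Nat.lt_or_ge c4 3 with r4 | r4
              · exfalso
                omega
              · exact ⟨0, 0, 1, 3, 3, by omega⟩
          · exact ⟨0, 0, 0, 5, 4, by omega⟩
        · exact ⟨0, 0, 2, 1, 2, by omega⟩

theorem ar7 (c1 c2 c3 c4 c5 c6 k q : ℕ) (hk : 1 ≤ k)
    (hq : c1 + 2 * c2 + 3 * c3 + 4 * c4 + 5 * c5 + 6 * c6 = 7 * q)
    (h1 : k * 7 ≤ c1 + 2 * c2 + 3 * c3 + 4 * c4 + 5 * c5 + 6 * c6)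
    (h2 : k * 7 ≤ 2 * c1 + 4 * c2 + 6 * c3 + c4 + 3 * c5 + 5 * c6)
    (h3 : k * 7 ≤ 3 * c1 + 6 * c2 + 2 * c3 + 5 * c4 + c5 + 4 * c6)
    (h4 : k * 7 ≤ 4 * c1 + c2 + 5 * c3 + 2 * c4 + 6 * c5 + 3 * c6)
    (h5 : k * 7 ≤ 5 * c1 + 3 * c2 + c3 + 6 * c4 + 4 * c5 + 2 * c6)
    (h6 : k * 7 ≤ 6 * c1 + 5 * c2 + 4 * c3 + 3 * c4 + 2 * c5 + c6) :
    ∃ y1 y2 y3 y4 y5 y6 q' : ℕ, (y1 ≤ c1 ∧ y2 ≤ c2 ∧ y3 ≤ c3 ∧ y4 ≤ c4 ∧ y5 ≤ c5 ∧ y6 ≤ c6) ∧
      0 < y1 + y2 + y3 + y4 + y5 + y6 ∧ y1 + 2 * y2 + 3 * y3 + 4 * y4 + 5 * y5 + 6 * y6 = 7 * q' ∧
      y1 + 2 * y2 + 3 * y3 + 4 * y4 + 5 * y5 + 6 * y6 + (k - 1) * 7 ≤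
        c1 + 2 * c2 + 3 * c3 + 4 * c4 + 5 * c5 + 6 * c6 ∧
      2 * y1 + 4 * y2 + 6 * y3 + y4 + 3 * y5 + 5 * y6 + (k - 1) * 7 ≤
        2 * c1 + 4 * c2 + 6 * c3 + c4 + 3 * c5 + 5 * c6 ∧
      3 * y1 + 6 * y2 + 2 * y3 + 5 * y4 + y5 + 4 * y6 + (k - 1) * 7 ≤
        3 * c1 + 6 * c2 + 2 * c3 + 5 * c4 + c5 + 4 * c6 ∧
      4 * y1 + y2 + 5 * y3 + 2 * y4 + 6 * y5 + 3 * y6 + (k - 1) * 7 ≤
        4 * c1 + c2 + 5 * c3 + 2 * c4 + 6 * c5 + 3 * c6 ∧
      5 * y1 + 3 * y2 + y3 + 6 * y4 + 4 * y5 + 2 * y6 + (k - 1) * 7 ≤
        5 * c1 + 3 * c2 + c3 + 6 * c4 + 4 * c5 + 2 * c6 ∧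
      6 * y1 + 5 * y2 + 4 * y3 + 3 * y4 + 2 * y5 + y6 + (k - 1) * 7 ≤
        6 * c1 + 5 * c2 + 4 * c3 + 3 * c4 + 2 * c5 + c6 := by
  by_cases p1 : 1 ≤ c1 ∧ 1 ≤ c6
  · have p := p1
    exact ⟨1, 0, 0, 0, 0, 1, 1, by omega⟩
  by_cases p2 : 1 ≤ c2 ∧ 1 ≤ c5
  · have p := p2
    exact ⟨0, 1, 0, 0, 1, 0, 1, by omega⟩
  by_cases p3 : 1 ≤ c3 ∧ 1 ≤ c4
  · have p := p3
    exact ⟨0, 0, 1, 1, 0, 0, 1, by omega⟩
  rcases Nat.eq_zero_or_pos c6 with s1 | s1
  · subst s1
    rcases Nat.eq_zero_or_pos c5 with s2 | s2
    · subst s2
      rcases Nat.eq_zero_or_pos c4 with s3 | s3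
      · subst s3
        rcases Nat.lt_or_ge c3 1 with r3 | r3
        · obtain rfl : c3 = 0 := by omega
          rcases Nat.lt_or_ge c1 1 with r1 | r1
          · obtain rfl : c1 = 0 := by omega
            rcases Nat.lt_or_ge c2 7 with r2 | r2
            · exfalso
              omega
            · exact ⟨0, 7, 0, 0, 0, 0, 2, by omega⟩
          · rcases Nat.lt_or_ge c2 3 with r2 | r2
            · rcases Nat.lt_or_ge c1 7 with r1 | r1
              · rcases Nat.lt_or_ge c2 2 with r2 | r2
                · rcases Nat.lt_or_ge c2 1 with r2 | r2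
                  · obtain rfl : c2 = 0 := by omega
                    exfalso
                    omega
                  · obtain rfl : c2 = 1 := by omega
                    rcases Nat.lt_or_ge c1 5 with r1 | r1
                    · exfalso
                      omega
                    · exact ⟨5, 1, 0, 0, 0, 0, 1, by omega⟩
                · obtain rfl : c2 = 2 := by omega
                  rcases Nat.lt_or_ge c1 3 with r1 | r1
                  · exfalso
                    omega
                  · exact ⟨3, 2, 0, 0, 0, 0, 1, by omega⟩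
              · exact ⟨7, 0, 0, 0, 0, 0, 1, by omega⟩
            · exact ⟨1, 3, 0, 0, 0, 0, 1, by omega⟩
        · rcases Nat.lt_or_ge c2 2 with r2 | r2
          · rcases Nat.lt_or_ge c1 1 with r1 | r1
            · obtain rfl : c1 = 0 := by omega
              rcases Nat.lt_or_ge c3 7 with r3 | r3
              · rcases Nat.lt_or_ge c2 1 with r2 | r2
                · obtain rfl : c2 = 0 := by omega
                  exfalso
                  omega
                · obtain rfl : c2 = 1 := by omega
                  rcases Nat.lt_or_ge c3 4 with r3 | r3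
                  · exfalso
                    omega
                  · exact ⟨0, 1, 4, 0, 0, 0, 2, by omega⟩
              · exact ⟨0, 0, 7, 0, 0, 0, 3, by omega⟩
            · rcases Nat.lt_or_ge c3 2 with r3 | r3
              · obtain rfl : c3 = 1 := by omega
                rcases Nat.lt_or_ge c1 4 with r1 | r1
                · rcases Nat.lt_or_ge c2 1 with r2 | r2
                  · obtain rfl : c2 = 0 := by omega
                    exfalso
                    omega
                  · obtain rfl : c2 = 1 := by omega
                    rcases Nat.lt_or_ge c1 2 with r1 | r1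
                    · obtain rfl : c1 = 1 := by omega
                      exfalso
                      omega
                    · exact ⟨2, 1, 1, 0, 0, 0, 1, by omega⟩
                · exact ⟨4, 0, 1, 0, 0, 0, 1, by omega⟩
              · exact ⟨1, 0, 2, 0, 0, 0, 1, by omega⟩
          · exact ⟨0, 2, 1, 0, 0, 0, 1, by omega⟩
      · obtain rfl : c3 = 0 := by omega
        rcases Nat.lt_or_ge c1 1 with r1 | r1
        · obtain rfl : c1 = 0 := by omega
          rcases Nat.lt_or_ge c2 1 with r2 | r2
          · obtain rfl : c2 = 0 := by omega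
            rcases Nat.lt_or_ge c4 7 with r4 | r4
            · exfalso
              omega
            · exact ⟨0, 0, 0, 7, 0, 0, 4, by omega⟩
          · rcases Nat.lt_or_ge c4 3 with r4 | r4
            · rcases Nat.lt_or_ge c2 7 with r2 | r2
              · rcases Nat.lt_or_ge c4 2 with r4 | r4
                · rcases Nat.lt_or_ge c4 1 with r4 | r4
                  · obtain rfl : c4 = 0 := by omega
                    exfalso
                    omega
                  · obtain rfl : c4 = 1 := by omega
                    rcases Nat.lt_or_ge c2 5 with r2 | r2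
                    · exfalso
                      omega
                    · exact ⟨0, 5, 0, 1, 0, 0, 2, by omega⟩
                · obtain rfl : c4 = 2 := by omega
                  rcases Nat.lt_or_ge c2 3 with r2 | r2
                  · exfalso
                    omega
                  · exact ⟨0, 3, 0, 2, 0, 0, 2, by omega⟩
              · exact ⟨0, 7, 0, 0, 0, 0, 2, by omega⟩
            · exact ⟨0, 1, 0, 3, 0, 0, 2, by omega⟩
        · rcases Nat.lt_or_ge c2 1 with r2 | r2
          · obtain rfl : c2 = 0 := by omega
            rcases Nat.lt_or_ge c4 1 with r4 | r4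
            · obtain rfl : c4 = 0 := by omega
              rcases Nat.lt_or_ge c1 7 with r1 | r1
              · exfalso
                omega
              · exact ⟨7, 0, 0, 0, 0, 0, 1, by omega⟩
            · rcases Nat.lt_or_ge c1 3 with r1 | r1
              · rcases Nat.lt_or_ge c4 5 with r4 | r4
                · rcases Nat.lt_or_ge c1 2 with r1 | r1
                  · obtain rfl : c1 = 1 := by omega
                    exfalso
                    omega
                  · obtain rfl : c1 = 2 := by omega
                    rcases Nat.lt_or_ge c4 3 with r4 | r4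
                    · exfalso
                      omega
                    · exact ⟨2, 0, 0, 3, 0, 0, 2, by omega⟩
                · exact ⟨1, 0, 0, 5, 0, 0, 3, by omega⟩
              · exact ⟨3, 0, 0, 1, 0, 0, 1, by omega⟩
          · rcases Nat.lt_or_ge c4 1 with r4 | r4
            · obtain rfl : c4 = 0 := by omega
              rcases Nat.lt_or_ge c2 3 with r2 | r2
              · rcases Nat.lt_or_ge c1 5 with r1 | r1
                · rcases Nat.lt_or_ge c2 2 with r2 | r2
                  · obtain rfl : c2 = 1 := by omega
                    exfalso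
                    omega
                  · obtain rfl : c2 = 2 := by omega
                    rcases Nat.lt_or_ge c1 3 with r1 | r1
                    · exfalso
                      omega
                    · exact ⟨3, 2, 0, 0, 0, 0, 1, by omega⟩
                · exact ⟨5, 1, 0, 0, 0, 0, 1, by omega⟩
              · exact ⟨1, 3, 0, 0, 0, 0, 1, by omega⟩
            · exact ⟨1, 1, 0, 1, 0, 0, 1, by omega⟩
    · obtain rfl : c2 = 0 := by omega
      rcases Nat.eq_zero_or_pos c4 with s3 | s3
      · subst s3
        rcases Nat.lt_or_ge c1 1 with r1 | r1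
        · obtain rfl : c1 = 0 := by omega
          rcases Nat.lt_or_ge c5 1 with r5 | r5
          · obtain rfl : c5 = 0 := by omega
            rcases Nat.lt_or_ge c3 7 with r3 | r3
            · exfalso
              omega
            · exact ⟨0, 0, 7, 0, 0, 0, 3, by omega⟩
          · rcases Nat.lt_or_ge c3 3 with r3 | r3
            · rcases Nat.lt_or_ge c5 7 with r5 | r5
              · rcases Nat.lt_or_ge c3 2 with r3 | r3
                · rcases Nat.lt_or_ge c3 1 with r3 | r3
                  · obtain rfl : c3 = 0 := by omega
                    exfalso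
                    omega
                  · obtain rfl : c3 = 1 := by omega
                    rcases Nat.lt_or_ge c5 5 with r5 | r5
                    · exfalso
                      omega
                    · exact ⟨0, 0, 1, 0, 5, 0, 4, by omega⟩
                · obtain rfl : c3 = 2 := by omega
                  rcases Nat.lt_or_ge c5 3 with r5 | r5
                  · exfalso
                    omega
                  · exact ⟨0, 0, 2, 0, 3, 0, 3, by omega⟩
              · exact ⟨0, 0, 0, 0, 7, 0, 5, by omega⟩
            · exact ⟨0, 0, 3, 0, 1, 0, 2, by omega⟩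
        · rcases Nat.lt_or_ge c3 2 with r3 | r3
          · rcases Nat.lt_or_ge c5 1 with r5 | r5
            · obtain rfl : c5 = 0 := by omega
              rcases Nat.lt_or_ge c1 7 with r1 | r1
              · rcases Nat.lt_or_ge c3 1 with r3 | r3
                · obtain rfl : c3 = 0 := by omega
                  exfalso
                  omega
                · obtain rfl : c3 = 1 := by omega
                  rcases Nat.lt_or_ge c1 4 with r1 | r1
                  · exfalso
                    omega
                  · exact ⟨4, 0, 1, 0, 0, 0, 1, by omega⟩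
              · exact ⟨7, 0, 0, 0, 0, 0, 1, by omega⟩
            · rcases Nat.lt_or_ge c1 2 with r1 | r1
              · obtain rfl : c1 = 1 := by omega
                rcases Nat.lt_or_ge c5 4 with r5 | r5
                · rcases Nat.lt_or_ge c3 1 with r3 | r3
                  · obtain rfl : c3 = 0 := by omega
                    exfalso
                    omega
                  · obtain rfl : c3 = 1 := by omega
                    rcases Nat.lt_or_ge c5 2 with r5 | r5
                    · obtain rfl : c5 = 1 := by omega
                      exfalso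
                      omega
                    · exact ⟨1, 0, 1, 0, 2, 0, 2, by omega⟩
                · exact ⟨1, 0, 0, 0, 4, 0, 3, by omega⟩
              · exact ⟨2, 0, 0, 0, 1, 0, 1, by omega⟩
          · exact ⟨1, 0, 2, 0, 0, 0, 1, by omega⟩
      · obtain rfl : c3 = 0 := by omega
        rcases Nat.lt_or_ge c5 1 with r5 | r5
        · obtain rfl : c5 = 0 := by omega
          rcases Nat.lt_or_ge c4 1 with r4 | r4
          · obtain rfl : c4 = 0 := by omega
            rcases Nat.lt_or_ge c1 7 with r1 | r1
            · exfalso
              omega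
            · exact ⟨7, 0, 0, 0, 0, 0, 1, by omega⟩
          · rcases Nat.lt_or_ge c1 3 with r1 | r1
            · rcases Nat.lt_or_ge c4 7 with r4 | r4
              · rcases Nat.lt_or_ge c1 2 with r1 | r1
                · rcases Nat.lt_or_ge c1 1 with r1 | r1
                  · obtain rfl : c1 = 0 := by omega
                    exfalso
                    omega
                  · obtain rfl : c1 = 1 := by omega
                    rcases Nat.lt_or_ge c4 5 with r4 | r4
                    · exfalso
                      omega
                    · exact ⟨1, 0, 0, 5, 0, 0, 3, by omega⟩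
                · obtain rfl : c1 = 2 := by omega
                  rcases Nat.lt_or_ge c4 3 with r4 | r4
                  · exfalso
                    omega
                  · exact ⟨2, 0, 0, 3, 0, 0, 2, by omega⟩
              · exact ⟨0, 0, 0, 7, 0, 0, 4, by omega⟩
            · exact ⟨3, 0, 0, 1, 0, 0, 1, by omega⟩
        · rcases Nat.lt_or_ge c1 2 with r1 | r1
          · rcases Nat.lt_or_ge c4 1 with r4 | r4
            · obtain rfl : c4 = 0 := by omega
              rcases Nat.lt_or_ge c5 7 with r5 | r5
              · rcases Nat.lt_or_ge c1 1 with r1 | r1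
                · obtain rfl : c1 = 0 := by omega
                  exfalso
                  omega
                · obtain rfl : c1 = 1 := by omega
                  rcases Nat.lt_or_ge c5 4 with r5 | r5
                  · exfalso
                    omega
                  · exact ⟨1, 0, 0, 0, 4, 0, 3, by omega⟩
              · exact ⟨0, 0, 0, 0, 7, 0, 5, by omega⟩
            · rcases Nat.lt_or_ge c5 2 with r5 | r5
              · obtain rfl : c5 = 1 := by omega
                rcases Nat.lt_or_ge c4 4 with r4 | r4
                · rcases Nat.lt_or_ge c1 1 with r1 | r1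
                  · obtain rfl : c1 = 0 := by omega
                    exfalso
                    omega
                  · obtain rfl : c1 = 1 := by omega
                    rcases Nat.lt_or_ge c4 2 with r4 | r4
                    · obtain rfl : c4 = 1 := by omega
                      exfalso
                      omega
                    · exact ⟨1, 0, 0, 2, 1, 0, 2, by omega⟩
                · exact ⟨0, 0, 0, 4, 1, 0, 3, by omega⟩
              · exact ⟨0, 0, 0, 1, 2, 0, 2, by omega⟩
          · exact ⟨2, 0, 0, 0, 1, 0, 1, by omega⟩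
  · obtain rfl : c1 = 0 := by omega
    rcases Nat.eq_zero_or_pos c5 with s2 | s2
    · subst s2
      rcases Nat.eq_zero_or_pos c4 with s3 | s3
      · subst s3
        rcases Nat.lt_or_ge c2 1 with r2 | r2
        · obtain rfl : c2 = 0 := by omega
          rcases Nat.lt_or_ge c3 1 with r3 | r3
          · obtain rfl : c3 = 0 := by omega
            rcases Nat.lt_or_ge c6 7 with r6 | r6
            · exfalso
              omega
            · exact ⟨0, 0, 0, 0, 0, 7, 6, by omega⟩
          · rcases Nat.lt_or_ge c6 3 with r6 | r6
            · rcases Nat.lt_or_ge c3 7 with r3 | r3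
              · rcases Nat.lt_or_ge c6 2 with r6 | r6
                · rcases Nat.lt_or_ge c6 1 with r6 | r6
                  · obtain rfl : c6 = 0 := by omega
                    exfalso
                    omega
                  · obtain rfl : c6 = 1 := by omega
                    rcases Nat.lt_or_ge c3 5 with r3 | r3
                    · exfalso
                      omega
                    · exact ⟨0, 0, 5, 0, 0, 1, 3, by omega⟩
                · obtain rfl : c6 = 2 := by omega
                  rcases Nat.lt_or_ge c3 3 with r3 | r3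
                  · exfalso
                    omega
                  · exact ⟨0, 0, 3, 0, 0, 2, 3, by omega⟩
              · exact ⟨0, 0, 7, 0, 0, 0, 3, by omega⟩
            · exact ⟨0, 0, 1, 0, 0, 3, 3, by omega⟩
        · rcases Nat.lt_or_ge c6 2 with r6 | r6
          · rcases Nat.lt_or_ge c3 1 with r3 | r3
            · obtain rfl : c3 = 0 := by omega
              rcases Nat.lt_or_ge c2 7 with r2 | r2
              · rcases Nat.lt_or_ge c6 1 with r6 | r6
                · obtain rfl : c6 = 0 := by omega
                  exfalso
                  omega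
                · obtain rfl : c6 = 1 := by omega
                  rcases Nat.lt_or_ge c2 4 with r2 | r2
                  · exfalso
                    omega
                  · exact ⟨0, 4, 0, 0, 0, 1, 2, by omega⟩
              · exact ⟨0, 7, 0, 0, 0, 0, 2, by omega⟩
            · rcases Nat.lt_or_ge c2 2 with r2 | r2
              · obtain rfl : c2 = 1 := by omega
                rcases Nat.lt_or_ge c3 4 with r3 | r3
                · rcases Nat.lt_or_ge c6 1 with r6 | r6
                  · obtain rfl : c6 = 0 := by omega
                    exfalso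
                    omega
                  · obtain rfl : c6 = 1 := by omega
                    rcases Nat.lt_or_ge c3 2 with r3 | r3
                    · obtain rfl : c3 = 1 := by omega
                      exfalso
                      omega
                    · exact ⟨0, 1, 2, 0, 0, 1, 2, by omega⟩
                · exact ⟨0, 1, 4, 0, 0, 0, 2, by omega⟩
              · exact ⟨0, 2, 1, 0, 0, 0, 1, by omega⟩
          · exact ⟨0, 1, 0, 0, 0, 2, 2, by omega⟩
      · obtain rfl : c3 = 0 := by omega
        rcases Nat.lt_or_ge c6 1 with r6 | r6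
        · obtain rfl : c6 = 0 := by omega
          rcases Nat.lt_or_ge c2 1 with r2 | r2
          · obtain rfl : c2 = 0 := by omega
            rcases Nat.lt_or_ge c4 7 with r4 | r4
            · exfalso
              omega
            · exact ⟨0, 0, 0, 7, 0, 0, 4, by omega⟩
          · rcases Nat.lt_or_ge c4 3 with r4 | r4
            · rcases Nat.lt_or_ge c2 7 with r2 | r2
              · rcases Nat.lt_or_ge c4 2 with r4 | r4
                · rcases Nat.lt_or_ge c4 1 with r4 | r4
                  · obtain rfl : c4 = 0 := by omega
                    exfalso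
                    omega
                  · obtain rfl : c4 = 1 := by omega
                    rcases Nat.lt_or_ge c2 5 with r2 | r2
                    · exfalso
                      omega
                    · exact ⟨0, 5, 0, 1, 0, 0, 2, by omega⟩
                · obtain rfl : c4 = 2 := by omega
                  rcases Nat.lt_or_ge c2 3 with r2 | r2
                  · exfalso
                    omega
                  · exact ⟨0, 3, 0, 2, 0, 0, 2, by omega⟩
              · exact ⟨0, 7, 0, 0, 0, 0, 2, by omega⟩
            · exact ⟨0, 1, 0, 3, 0, 0, 2, by omega⟩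
        · rcases Nat.lt_or_ge c4 2 with r4 | r4
          · rcases Nat.lt_or_ge c2 1 with r2 | r2
            · obtain rfl : c2 = 0 := by omega
              rcases Nat.lt_or_ge c6 7 with r6 | r6
              · rcases Nat.lt_or_ge c4 1 with r4 | r4
                · obtain rfl : c4 = 0 := by omega
                  exfalso
                  omega
                · obtain rfl : c4 = 1 := by omega
                  rcases Nat.lt_or_ge c6 4 with r6 | r6
                  · exfalso
                    omega
                  · exact ⟨0, 0, 0, 1, 0, 4, 4, by omega⟩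
              · exact ⟨0, 0, 0, 0, 0, 7, 6, by omega⟩
            · rcases Nat.lt_or_ge c6 2 with r6 | r6
              · obtain rfl : c6 = 1 := by omega
                rcases Nat.lt_or_ge c2 4 with r2 | r2
                · rcases Nat.lt_or_ge c4 1 with r4 | r4
                  · obtain rfl : c4 = 0 := by omega
                    exfalso
                    omega
                  · obtain rfl : c4 = 1 := by omega
                    rcases Nat.lt_or_ge c2 2 with r2 | r2
                    · obtain rfl : c2 = 1 := by omega
                      exfalso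
                      omega
                    · exact ⟨0, 2, 0, 1, 0, 1, 2, by omega⟩
                · exact ⟨0, 4, 0, 0, 0, 1, 2, by omega⟩
              · exact ⟨0, 1, 0, 0, 0, 2, 2, by omega⟩
          · exact ⟨0, 0, 0, 2, 0, 1, 2, by omega⟩
    · obtain rfl : c2 = 0 := by omega
      rcases Nat.eq_zero_or_pos c4 with s3 | s3
      · subst s3
        rcases Nat.lt_or_ge c3 1 with r3 | r3
        · obtain rfl : c3 = 0 := by omega
          rcases Nat.lt_or_ge c6 1 with r6 | r6
          · obtain rfl : c6 = 0 := by omega
            rcases Nat.lt_or_ge c5 7 with r5 | r5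
            · exfalso
              omega
            · exact ⟨0, 0, 0, 0, 7, 0, 5, by omega⟩
          · rcases Nat.lt_or_ge c5 3 with r5 | r5
            · rcases Nat.lt_or_ge c6 7 with r6 | r6
              · rcases Nat.lt_or_ge c5 2 with r5 | r5
                · rcases Nat.lt_or_ge c5 1 with r5 | r5
                  · obtain rfl : c5 = 0 := by omega
                    exfalso
                    omega
                  · obtain rfl : c5 = 1 := by omega
                    rcases Nat.lt_or_ge c6 5 with r6 | r6
                    · exfalso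
                      omega
                    · exact ⟨0, 0, 0, 0, 1, 5, 5, by omega⟩
                · obtain rfl : c5 = 2 := by omega
                  rcases Nat.lt_or_ge c6 3 with r6 | r6
                  · exfalso
                    omega
                  · exact ⟨0, 0, 0, 0, 2, 3, 4, by omega⟩
              · exact ⟨0, 0, 0, 0, 0, 7, 6, by omega⟩
            · exact ⟨0, 0, 0, 0, 3, 1, 3, by omega⟩
        · rcases Nat.lt_or_ge c5 1 with r5 | r5
          · obtain rfl : c5 = 0 := by omega
            rcases Nat.lt_or_ge c6 3 with r6 | r6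
            · rcases Nat.lt_or_ge c3 7 with r3 | r3
              · rcases Nat.lt_or_ge c6 2 with r6 | r6
                · rcases Nat.lt_or_ge c6 1 with r6 | r6
                  · obtain rfl : c6 = 0 := by omega
                    exfalso
                    omega
                  · obtain rfl : c6 = 1 := by omega
                    rcases Nat.lt_or_ge c3 5 with r3 | r3
                    · exfalso
                      omega
                    · exact ⟨0, 0, 5, 0, 0, 1, 3, by omega⟩
                · obtain rfl : c6 = 2 := by omega
                  rcases Nat.lt_or_ge c3 3 with r3 | r3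
                  · exfalso
                    omega
                  · exact ⟨0, 0, 3, 0, 0, 2, 3, by omega⟩
              · exact ⟨0, 0, 7, 0, 0, 0, 3, by omega⟩
            · exact ⟨0, 0, 1, 0, 0, 3, 3, by omega⟩
          · rcases Nat.lt_or_ge c6 1 with r6 | r6
            · obtain rfl : c6 = 0 := by omega
              rcases Nat.lt_or_ge c3 3 with r3 | r3
              · rcases Nat.lt_or_ge c5 5 with r5 | r5
                · rcases Nat.lt_or_ge c3 2 with r3 | r3
                  · obtain rfl : c3 = 1 := by omega
                    exfalso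
                    omega
                  · obtain rfl : c3 = 2 := by omega
                    rcases Nat.lt_or_ge c5 3 with r5 | r5
                    · exfalso
                      omega
                    · exact ⟨0, 0, 2, 0, 3, 0, 3, by omega⟩
                · exact ⟨0, 0, 1, 0, 5, 0, 4, by omega⟩
              · exact ⟨0, 0, 3, 0, 1, 0, 2, by omega⟩
            · exact ⟨0, 0, 1, 0, 1, 1, 2, by omega⟩
      · obtain rfl : c3 = 0 := by omega
        rcases Nat.lt_or_ge c4 1 with r4 | r4
        · obtain rfl : c4 = 0 := by omega
          rcases Nat.lt_or_ge c6 1 with r6 | r6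
          · obtain rfl : c6 = 0 := by omega
            rcases Nat.lt_or_ge c5 7 with r5 | r5
            · exfalso
              omega
            · exact ⟨0, 0, 0, 0, 7, 0, 5, by omega⟩
          · rcases Nat.lt_or_ge c5 3 with r5 | r5
            · rcases Nat.lt_or_ge c6 7 with r6 | r6
              · rcases Nat.lt_or_ge c5 2 with r5 | r5
                · rcases Nat.lt_or_ge c5 1 with r5 | r5
                  · obtain rfl : c5 = 0 := by omega
                    exfalso
                    omega
                  · obtain rfl : c5 = 1 := by omega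
                    rcases Nat.lt_or_ge c6 5 with r6 | r6
                    · exfalso
                      omega
                    · exact ⟨0, 0, 0, 0, 1, 5, 5, by omega⟩
                · obtain rfl : c5 = 2 := by omega
                  rcases Nat.lt_or_ge c6 3 with r6 | r6
                  · exfalso
                    omega
                  · exact ⟨0, 0, 0, 0, 2, 3, 4, by omega⟩
              · exact ⟨0, 0, 0, 0, 0, 7, 6, by omega⟩
            · exact ⟨0, 0, 0, 0, 3, 1, 3, by omega⟩
        · rcases Nat.lt_or_ge c5 2 with r5 | r5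
          · rcases Nat.lt_or_ge c6 1 with r6 | r6
            · obtain rfl : c6 = 0 := by omega
              rcases Nat.lt_or_ge c4 7 with r4 | r4
              · rcases Nat.lt_or_ge c5 1 with r5 | r5
                · obtain rfl : c5 = 0 := by omega
                  exfalso
                  omega
                · obtain rfl : c5 = 1 := by omega
                  rcases Nat.lt_or_ge c4 4 with r4 | r4
                  · exfalso
                    omega
                  · exact ⟨0, 0, 0, 4, 1, 0, 3, by omega⟩
              · exact ⟨0, 0, 0, 7, 0, 0, 4, by omega⟩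
            · rcases Nat.lt_or_ge c4 2 with r4 | r4
              · obtain rfl : c4 = 1 := by omega
                rcases Nat.lt_or_ge c6 4 with r6 | r6
                · rcases Nat.lt_or_ge c5 1 with r5 | r5
                  · obtain rfl : c5 = 0 := by omega
                    exfalso
                    omega
                  · obtain rfl : c5 = 1 := by omega
                    rcases Nat.lt_or_ge c6 2 with r6 | r6
                    · obtain rfl : c6 = 1 := by omega
                      exfalso
                      omega
                    · exact ⟨0, 0, 0, 1, 1, 2, 3, by omega⟩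
                · exact ⟨0, 0, 0, 1, 0, 4, 4, by omega⟩
              · exact ⟨0, 0, 0, 2, 0, 1, 2, by omega⟩
          · exact ⟨0, 0, 0, 1, 2, 0, 2, by omega⟩

end Pool.Agent.H835.AV
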