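import Pool.Agent.H835.AV.SF

set_option autoImplicit false
set_option linter.unusedSectionVars false

/-!
# Transitivity of the roots of unity for sums of two forms
-/

universe u

namespace Pool.Agent.H835.AV

open MvPolynomial Pool.Agent.W5h86.HC
open scoped Pointwise

section gr

variable {K : Type u} [Field K] {N : ℕ} {ι : Type} [DecidableEq ι] {β : Fin N → ι} {k : ι}

/-- The variables of the block `k` are multiplied by a new variable. -/
noncomputable def gr (β : Fin N → ι) (k : ι) :
    MvPolynomial (Fin N) K →ₐ[K] Polynomial (MvPolynomial (Fin N) K) :=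
  aeval fun j => if β j = k then Polynomial.C (X j) * Polynomial.X else Polynomial.C (X j)

lemma gr_X_of {j : Fin N} (h : β j = k) :
    gr (K := K) β k (X j) = Polynomial.C (X j) * Polynomial.X := by
  unfold gr
  rw [aeval_X, if_pos h]

lemma gr_X_of_not {j : Fin N} (h : β j ≠ k) :
    gr (K := K) β k (X j) = Polynomial.C (X j) := by
  unfold gr
  rw [aeval_X, if_neg h]

lemma gr_C (a : K) : gr β k (C a : MvPolynomial (Fin N) K) = Polynomial.C (C a) := by
  unfold gr
  rw [aeval_C]
  rfl

lemma eval_gr (h : MvPolynomial (Fin N) K) : (gr β k h).eval 1 = h := by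
  induction h using MvPolynomial.induction_on with
  | C a => rw [gr_C, Polynomial.eval_C]
  | add p q hp hq => rw [map_add, Polynomial.eval_add, hp, hq]
  | mul_X p j hp =>
    rw [map_mul, Polynomial.eval_mul, hp]
    by_cases hj : β j = k
    · rw [gr_X_of hj, Polynomial.eval_mul, Polynomial.eval_C, Polynomial.eval_X, mul_one]
    · rw [gr_X_of_not hj, Polynomial.eval_C]

/-- The components have the expected degrees. -/
lemma gr_coeff (h : MvPolynomial (Fin N) K) : ∀ d : ℕ,
    gr β k ((gr β k h).coeff d) = Polynomial.C ((gr β k h).coeff d) * Polynomial.X ^ d := by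
  induction h using MvPolynomial.induction_on with
  | C a =>
    intro d
    rw [gr_C, Polynomial.coeff_C]
    split_ifs with hd
    · rw [gr_C, hd, pow_zero, mul_one]
    · rw [map_zero, map_zero, zero_mul]
  | add p q hp hq =>
    intro d
    rw [map_add, Polynomial.coeff_add, map_add, hp, hq, map_add, add_mul]
  | mul_X p j hp =>
    intro d
    rw [map_mul]
    by_cases hj : β j = k
    · rw [gr_X_of hj, ← mul_assoc]
      cases d with
      | zero => rw [Polynomial.coeff_mul_X_zero, map_zero, map_zero, zero_mul]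
      | succ d =>
        rw [Polynomial.coeff_mul_X, Polynomial.coeff_mul_C, map_mul, hp, gr_X_of hj, map_mul,
          pow_succ]
        ring
    · rw [gr_X_of_not hj, Polynomial.coeff_mul_C, map_mul, hp, gr_X_of_not hj, map_mul]
      ring

lemma gr_ne_zero {h : MvPolynomial (Fin N) K} (hh : h ≠ 0) : gr β k h ≠ 0 := by
  intro h1
  apply hh
  rw [← eval_gr (β := β) (k := k) h, h1, Polynomial.eval_zero]

/-- Factors of homogeneous polynomials are homogeneous. -/
lemma gr_of_dvd {h p : MvPolynomial (Fin N) K} {d : ℕ} (hh : h ≠ 0)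
    (hd : gr β k h = Polynomial.C h * Polynomial.X ^ d) (hp : p ∣ h) :
    ∃ d', gr β k p = Polynomial.C p * Polynomial.X ^ d' := by
  obtain ⟨q, rfl⟩ := hp
  have hp0 : p ≠ 0 := left_ne_zero_of_mul hh
  have hq0 : q ≠ 0 := right_ne_zero_of_mul hh
  have hP := gr_ne_zero (β := β) (k := k) hp0
  have hQ := gr_ne_zero (β := β) (k := k) hq0
  have h1 : (gr β k p * gr β k q).natDegree = d := by
    rw [← map_mul, hd, Polynomial.natDegree_C_mul_X_pow _ _ hh]
  have h2 : (gr β k p * gr β k q).natTrailingDegree = d := by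
    rw [← map_mul, hd, Polynomial.natTrailingDegree_mul_X_pow, Polynomial.natTrailingDegree_C,
      zero_add]
    exact Polynomial.C_ne_zero.2 hh
  rw [Polynomial.natDegree_mul hP hQ] at h1
  rw [Polynomial.natTrailingDegree_mul hP hQ] at h2
  have h3 := Polynomial.natTrailingDegree_le_natDegree (gr β k p)
  have h4 := Polynomial.natTrailingDegree_le_natDegree (gr β k q)
  have h5 : (gr β k p).natTrailingDegree = (gr β k p).natDegree := by omega
  have h6 : gr β k p = Polynomial.C ((gr β k p).coeff (gr β k p).natDegree) *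
      Polynomial.X ^ (gr β k p).natDegree := by
    ext1 n
    rw [Polynomial.coeff_C_mul_X_pow]
    split_ifs with hn
    · rw [hn]
    · rcases Nat.lt_or_gt_of_ne hn with h7 | h7
      · exact Polynomial.coeff_eq_zero_of_lt_natTrailingDegree (by omega)
      · exact Polynomial.coeff_eq_zero_of_natDegree_lt h7
  refine ⟨(gr β k p).natDegree, ?_⟩
  have h7 : (gr β k p).coeff (gr β k p).natDegree = p := by
    conv_rhs => rw [← eval_gr (β := β) (k := k) p, h6]
    rw [Polynomial.eval_mul, Polynomial.eval_C, Polynomial.eval_pow, Polynomial.eval_X, one_pow,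
      mul_one]
  conv_lhs => rw [h6]
  rw [h7]

lemma gr_of_supported {f : MvPolynomial (Fin N) K} {n : ℕ} (hf : IsHomogeneous f n)
    (hs : f ∈ supported K {j | β j = k}) :
    gr β k f = Polynomial.C f * Polynomial.X ^ n := by
  have key : ∀ d : Fin N →₀ ℕ, (∀ j, d j ≠ 0 → β j = k) → ∀ c : K,
      gr β k (monomial d c) = Polynomial.C (monomial d c) * Polynomial.X ^ (∑ j, d j) := by
    intro d hd c
    unfold gr
    rw [aeval_monomial, Finsupp.prod_fintype _ _ (fun i => by simp)]
    have h1 : ∀ j, (if β j = k then Polynomial.C (X j : MvPolynomial (Fin N) K) * Polynomial.X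
        else Polynomial.C (X j)) ^ d j =
        Polynomial.C (X j ^ d j) * Polynomial.X ^ d j := by
      intro j
      by_cases hj : d j = 0
      · rw [hj, pow_zero, pow_zero, pow_zero, map_one, one_mul]
      · rw [if_pos (hd j hj), mul_pow, map_pow]
    rw [Finset.prod_congr rfl fun j _ => h1 j, Finset.prod_mul_distrib,
      Finset.prod_pow_eq_pow_sum, ← map_prod, ← mul_assoc]
    congr 1
    rw [monomial_eq, Finsupp.prod_fintype _ _ (fun i => by simp), map_mul]
    rfl
  conv_lhs => rw [f.as_sum]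
  rw [map_sum]
  have h2 : ∀ d ∈ f.support, gr β k (monomial d (coeff d f)) =
      Polynomial.C (monomial d (coeff d f)) * Polynomial.X ^ n := by
    intro d hd
    have h3 : coeff d f ≠ 0 := mem_support_iff.1 hd
    rw [key d fun j hj => mem_of_coeff hs h3 hj, sum_eq_of_coeff hf h3]
  rw [Finset.sum_congr rfl h2, ← Finset.sum_mul, ← map_sum]
  conv_rhs => rw [f.as_sum]

lemma gr_of_supported_compl {f : MvPolynomial (Fin N) K}
    (hs : f ∈ supported K {j | β j ≠ k}) : gr β k f = Polynomial.C f := by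
  rw [supported_eq_adjoin_X] at hs
  induction hs using Algebra.adjoin_induction with
  | mem x hx =>
    obtain ⟨j, hj, rfl⟩ := hx
    exact gr_X_of_not hj
  | algebraMap r =>
    rw [algebraMap_eq, gr_C]
  | add x y _ _ hx hy => rw [map_add, map_add, hx, hy]
  | mul x y _ _ hx hy => rw [map_mul, map_mul, hx, hy]

lemma degreeOf_of_supported {f : MvPolynomial (Fin N) K} {s : Set (Fin N)}
    (hs : f ∈ supported K s) {j : Fin N} (hj : j ∉ s) : degreeOf j f = 0 := by
  classical
  rw [degreeOf_eq_sup, ← bot_eq_zero, Finset.sup_eq_bot_iff]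
  intro d hd
  by_contra hcon
  exact hj (mem_of_coeff hs (mem_support_iff.1 hd) hcon)

/-- A factor of `f + g` is not homogeneous in the block of `f`. -/
lemma isUnit_of_dvd {f g p h : MvPolynomial (Fin N) K} {n d : ℕ} (hn : 0 < n)
    (hf : IsHomogeneous f n) (hfs : f ∈ supported K {j | β j = k})
    (hgs : g ∈ supported K {j | β j ≠ k}) (hf0 : f ≠ 0) (hg0 : g ≠ 0) (hp : p ∣ f + g)
    (hh : h ≠ 0) (hph : p ∣ h) (hgr : gr β k h = Polynomial.C h * Polynomial.X ^ d) :
    IsUnit p := by
  obtain ⟨d', hd'⟩ := gr_of_dvd hh hgr hph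
  obtain ⟨q, hq⟩ := hp
  have h1 : Polynomial.C f * Polynomial.X ^ n + Polynomial.C g =
      Polynomial.C p * Polynomial.X ^ d' * gr β k q := by
    rw [← hd', ← map_mul, ← hq, map_add, gr_of_supported hf hfs, gr_of_supported_compl hgs]
  have hd0 : d' = 0 := by
    by_contra hcon
    have h2 := congrArg (fun P => Polynomial.coeff P 0) h1
    simp only [Polynomial.coeff_add, Polynomial.coeff_C_mul_X_pow, Polynomial.coeff_C_zero] at h2
    rw [if_neg (by omega), zero_add, mul_assoc, Polynomial.coeff_C_mul,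
      Polynomial.coeff_X_pow_mul', if_neg (by omega), mul_zero] at h2
    exact hg0 h2
  rw [hd0, pow_zero, mul_one] at h1
  have hpf : p ∣ f := by
    have h2 := congrArg (fun P => Polynomial.coeff P n) h1
    simp only [Polynomial.coeff_add, Polynomial.coeff_C_mul] at h2
    rw [Polynomial.coeff_X_pow_self, mul_one, Polynomial.coeff_C_of_ne_zero hn.ne', add_zero] at h2
    exact ⟨_, h2⟩
  have hpg : p ∣ g := by
    have h2 := congrArg (fun P => Polynomial.coeff P 0) h1
    simp only [Polynomial.coeff_add, Polynomial.coeff_C_mul, Polynomial.coeff_C_zero,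
      Polynomial.coeff_X_pow] at h2
    rw [if_neg (by omega), mul_zero, zero_add] at h2
    exact ⟨_, h2⟩
  obtain ⟨q₁, hq₁⟩ := hpf
  obtain ⟨q₂, hq₂⟩ := hpg
  have hp0 : p ≠ 0 := by
    rintro rfl
    rw [zero_mul] at hq₁
    exact hf0 hq₁
  have hdeg : ∀ j, degreeOf j p = 0 := by
    intro j
    by_cases hj : β j = k
    · have h3 := degreeOf_of_supported hgs (j := j) (fun h => h hj)
      rw [hq₂, degreeOf_mul_eq hp0 (by
        rintro rfl
        rw [mul_zero] at hq₂
        exact hg0 hq₂)] at h3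
      omega
    · have h3 := degreeOf_of_supported hfs (j := j) (fun h => hj h)
      rw [hq₁, degreeOf_mul_eq hp0 (by
        rintro rfl
        rw [mul_zero] at hq₁
        exact hf0 hq₁)] at h3
      omega
  have hC : p = C (coeff 0 p) := by
    rw [← vars_eq_empty_iff_eq_C]
    rw [Finset.eq_empty_iff_forall_notMem]
    intro j hj
    obtain ⟨d, hd, hdj⟩ := (mem_vars_iff_mem_support j).1 hj
    have h4 := hdeg j
    rw [degreeOf_eq_sup, ← bot_eq_zero, Finset.sup_eq_bot_iff] at h4
    exact (Finsupp.mem_support_iff.1 hdj) (h4 d hd)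
  rw [hC]
  refine (isUnit_iff_ne_zero.2 ?_).map C
  intro h5
  rw [h5, map_zero] at hC
  exact hp0 hC

end gr

section gen

variable {K : Type u} [Field K] {M : ℕ}

/-- Prime ideals of codimension one are principal. -/
lemma exists_gen {P : Ideal (MvPolynomial (Fin (M + 1)) K)} (hP : P.IsPrime)
    (htr : Algebra.trdeg K (MvPolynomial (Fin (M + 1)) K ⧸ P) = M)
    {F : MvPolynomial (Fin (M + 1)) K} (hF : F ∈ P) (hF0 : F ≠ 0) :
    ∃ p, Prime p ∧ p ∣ F ∧ P = Ideal.span {p} := by
  obtain ⟨s, hs, hsF⟩ := UniqueFactorizationMonoid.exists_prime_factors F hF0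
  have h1 : s.prod ∈ P := by
    obtain ⟨v, hv⟩ := hsF
    have h2 : s.prod * v ∈ P := by
      rw [hv]
      exact hF
    refine (hP.mem_or_mem h2).resolve_right fun h3 => ?_
    exact hP.ne_top (Ideal.eq_top_of_isUnit_mem _ h3 v.isUnit)
  obtain ⟨p, hp, hpP⟩ := (hP.multiset_prod_mem_iff_exists_mem s).1 h1
  have hprime := hs p hp
  refine ⟨p, hprime, (Multiset.dvd_prod hp).trans hsF.dvd, ?_⟩
  refine (eq_of_trdeg_eq (K := K) ((Ideal.span_singleton_prime hprime.ne_zero).2 hprime) hP ?_
    (trdeg_span_prime hprime) htr).symm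
  rw [Ideal.span_singleton_le_iff_mem]
  exact hpP

end gen

section tl

variable {K : Type u} [Field K] {N : ℕ} {ι : Type} [DecidableEq ι] {β : Fin N → ι} {k : ι}

/-- The value of `h` at the points of `f + g = 0`, up to a factor. -/
noncomputable def tl (β : Fin N → ι) (k : ι) (n : ℕ) (f g h : MvPolynomial (Fin N) K) (D : ℕ) :
    MvPolynomial (Fin N) K :=
  ∑ i ∈ Finset.range (D + 1), (gr β k h).coeff (n * i) * (-g) ^ i * f ^ (D - i)

lemma gr_tl {f g h : MvPolynomial (Fin N) K} {n : ℕ} (hf : IsHomogeneous f n)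
    (hfs : f ∈ supported K {j | β j = k}) (hgs : g ∈ supported K {j | β j ≠ k}) (D : ℕ) :
    gr β k (tl β k n f g h D) = Polynomial.C (tl β k n f g h D) * Polynomial.X ^ (n * D) := by
  unfold tl
  rw [map_sum, map_sum, Finset.sum_mul]
  refine Finset.sum_congr rfl fun i hi => ?_
  have hi' : i ≤ D := Nat.lt_succ_iff.1 (Finset.mem_range.1 hi)
  rw [map_mul, map_mul, gr_coeff, map_pow, map_neg, gr_of_supported_compl hgs, map_pow,
    gr_of_supported hf hfs]
  have h1 : n * D = n * i + n * (D - i) := by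
    rw [← mul_add]
    congr 1
    omega
  rw [h1, pow_add, mul_pow, ← pow_mul]
  simp only [map_mul, map_pow, map_neg]
  ring

lemma tl_mem {f g h : MvPolynomial (Fin N) K} {n D : ℕ} (hn : 0 < n)
    (hdvd : ∀ d, (gr β k h).coeff d ≠ 0 → n ∣ d) (hD : (gr β k h).natDegree ≤ D) :
    f ^ D * h - tl β k n f g h D ∈ Ideal.span {f + g} := by
  have h1 : h = ∑ i ∈ Finset.range (D + 1), (gr β k h).coeff (n * i) := by
    conv_lhs => rw [← eval_gr (β := β) (k := k) h]
    rw [Polynomial.eval_eq_sum_range' (n := n * D + 1) (by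
      have h2 : D ≤ n * D := Nat.le_mul_of_pos_left D hn
      omega)]
    simp only [one_pow, mul_one]
    symm
    refine Finset.sum_bij_ne_zero (fun i _ _ => n * i) ?_ ?_ ?_ ?_
    · intro i hi _
      rw [Finset.mem_range] at hi ⊢
      have h3 : n * i ≤ n * D := Nat.mul_le_mul_left n (by omega)
      omega
    · intro i _ _ j _ _ hij
      exact Nat.eq_of_mul_eq_mul_left hn hij
    · intro d hd hd0
      obtain ⟨i, rfl⟩ := hdvd d hd0
      refine ⟨i, ?_, hd0, rfl⟩
      rw [Finset.mem_range] at hd ⊢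
      have h3 : n * i ≤ n * D := by omega
      have h4 := Nat.le_of_mul_le_mul_left h3 hn
      omega
    · intro i _ _
      rfl
  have h2 : f ^ D * h - tl β k n f g h D =
      ∑ i ∈ Finset.range (D + 1), (gr β k h).coeff (n * i) * f ^ (D - i) *
        (f ^ i - (-g) ^ i) := by
    have h3 : f ^ D * h = ∑ i ∈ Finset.range (D + 1), f ^ D * (gr β k h).coeff (n * i) := by
      rw [← Finset.mul_sum, ← h1]
    rw [h3]
    unfold tl
    rw [← Finset.sum_sub_distrib]
    refine Finset.sum_congr rfl fun i hi => ?_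
    have hi' : i ≤ D := Nat.lt_succ_iff.1 (Finset.mem_range.1 hi)
    have h3 : f ^ D = f ^ (D - i) * f ^ i := by
      rw [← pow_add]
      congr 1
      omega
    rw [h3]
    ring
  rw [h2]
  refine Ideal.sum_mem _ fun i _ => Ideal.mul_mem_left _ _ ?_
  rw [Ideal.mem_span_singleton]
  have h3 := sub_dvd_pow_sub_pow f (-g) i
  rw [sub_neg_eq_add] at h3
  exact h3

end tl

section two

variable {K : Type u} [Field K] {M m : ℕ} {ι : Type} [Fintype ι] [DecidableEq ι] [NeZero m]
  {e : AddChar (ZMod m) K} {β : Fin (M + 1) → ι} {k : ι}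

lemma coeff_gr_sc {N : ℕ} {β : Fin N → ι} (c : ZMod m) (h : MvPolynomial (Fin N) K) (d : ℕ) :
    (gr β k (sc (wt e β (Pi.single k c)) h)).coeff d = (gr β k h).coeff d * C (e c ^ d) := by
  have h1 : ∀ h : MvPolynomial (Fin N) K, gr β k (sc (wt e β (Pi.single k c)) h) =
      (gr β k h).comp (Polynomial.C (C (e c)) * Polynomial.X) := by
    intro h
    induction h using MvPolynomial.induction_on with
    | C a => rw [sc_C, gr_C, Polynomial.C_comp]
    | add p q hp hq => rw [map_add, map_add, map_add, Polynomial.add_comp, hp, hq]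
    | mul_X p j hp =>
      rw [map_mul, map_mul, map_mul, Polynomial.mul_comp, hp, sc_X, map_mul, gr_C]
      congr 1
      by_cases hj : β j = k
      · rw [gr_X_of hj, Polynomial.mul_comp, Polynomial.C_comp, Polynomial.X_comp]
        unfold wt
        rw [hj, Pi.single_eq_same]
        ring
      · rw [gr_X_of_not hj, Polynomial.C_comp]
        unfold wt
        rw [Pi.single_eq_of_ne hj, AddChar.map_zero_eq_one, map_one, map_one, one_mul]
  rw [h1, Polynomial.comp_C_mul_X_coeff, map_pow]

/-- The components of the invariants have degrees divisible by `m`. -/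
lemma dvd_of_inv {N : ℕ} {β : Fin N → ι} (he : Faithful e) {h : MvPolynomial (Fin N) K}
    (hinv : sc (wt e β (Pi.single k 1)) h = h) {d : ℕ} (hd : (gr β k h).coeff d ≠ 0) : m ∣ d := by
  have h1 := coeff_gr_sc (e := e) (β := β) (k := k) 1 h d
  rw [hinv] at h1
  have h2 : (gr β k h).coeff d * (C (e 1 ^ d) - 1) = 0 := by
    rw [mul_sub, ← h1, mul_one, sub_self]
  have h3 := (mul_eq_zero.1 h2).resolve_left hd
  rw [sub_eq_zero, ← C_1] at h3
  have h4 : e 1 ^ d = 1 := C_injective _ _ h3
  rw [← AddChar.map_nsmul_eq_pow] at h4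
  have h5 := he _ h4
  rw [nsmul_eq_mul, mul_one] at h5
  exact (ZMod.natCast_eq_zero_iff _ _).1 h5

lemma coeff_pow_expChar {R : Type u} [CommRing R] {p a m : ℕ} [ExpChar R p] {P : Polynomial R}
    (hP : ∀ d, P.coeff d ≠ 0 → m ∣ d) {d : ℕ} (hd : (P ^ p ^ a).coeff d ≠ 0) :
    m * p ^ a ∣ d := by
  have h1 : P ^ p ^ a = ∑ i ∈ P.support, (Polynomial.monomial i (P.coeff i)) ^ p ^ a := by
    conv_lhs => rw [P.as_sum_support]
    rw [← iterateFrobenius_def, map_sum]
    rfl
  rw [h1, Polynomial.finsetSum_coeff] at hd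
  obtain ⟨i, hi, hi2⟩ := Finset.exists_ne_zero_of_sum_ne_zero hd
  rw [Polynomial.monomial_pow, Polynomial.coeff_monomial] at hi2
  have h2 : i * p ^ a = d := by
    by_contra hcon
    rw [if_neg hcon] at hi2
    exact hi2 rfl
  rw [← h2]
  exact Nat.mul_dvd_mul_right (hP i (Polynomial.mem_support_iff.1 hi)) _

/-- **Transitivity.** The roots of unity permute the primes over a sum of two forms. -/
theorem conj_of_two {n : ℕ} (he : Good e n) {f g : MvPolynomial (Fin (M + 1)) K}
    (hf : IsHomogeneous f n) (hfs : f ∈ supported K {j | β j = k})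
    (hgs : g ∈ supported K {j | β j ≠ k}) (hf0 : f ≠ 0) (hg0 : g ≠ 0)
    {P₁ P₂ : Ideal (MvPolynomial (Fin (M + 1)) K)} (h₁ : P₁.IsPrime) (h₂ : P₂.IsPrime)
    (hF₁ : f + g ∈ P₁) (hF₂ : f + g ∈ P₂)
    (ht₁ : Algebra.trdeg K (MvPolynomial (Fin (M + 1)) K ⧸ P₁) = M)
    (ht₂ : Algebra.trdeg K (MvPolynomial (Fin (M + 1)) K ⧸ P₂) = M) :
    ∃ a : ι → ZMod m, P₂ = P₁.comap (sc (wt e β a)) := by
  classical
  have hn := he.pos
  have hF0 : f + g ≠ 0 := by
    intro h0
    have h2 : Polynomial.C f * Polynomial.X ^ n + Polynomial.C g = 0 := by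
      rw [← gr_of_supported hf hfs, ← gr_of_supported_compl hgs, ← map_add, h0, map_zero]
    have h3 := congrArg (fun P => Polynomial.coeff P 0) h2
    simp only [Polynomial.coeff_add, Polynomial.coeff_C_mul, Polynomial.coeff_C_zero,
      Polynomial.coeff_X_pow, Polynomial.coeff_zero] at h3
    rw [if_neg (by omega), mul_zero, zero_add] at h3
    exact hg0 h3
  -- no homogeneous elements
  have key : ∀ P : Ideal (MvPolynomial (Fin (M + 1)) K), P.IsPrime → f + g ∈ P →
      Algebra.trdeg K (MvPolynomial (Fin (M + 1)) K ⧸ P) = M →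
      ∀ (h : MvPolynomial (Fin (M + 1)) K) (d : ℕ),
        gr β k h = Polynomial.C h * Polynomial.X ^ d → h ∈ P → h = 0 := by
    intro P hP hFP htP h d hd hhP
    obtain ⟨p, hp, hpF, rfl⟩ := exists_gen hP htP hFP hF0
    by_contra hcon
    exact hp.not_isUnit (isUnit_of_dvd hn hf hfs hgs hf0 hg0 hpF hcon
      (Ideal.mem_span_singleton.1 hhP) hd)
  let G := (scHom e β (Finset.univ : Finset (Fin (M + 1)))).range
  have hfin : Finite G := Finite.of_surjective (scHom e β Finset.univ).rangeRestrict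
    (scHom e β Finset.univ).rangeRestrict_surjective
  let A : Subalgebra K (MvPolynomial (Fin (M + 1)) K) :=
    { carrier := {x | ∀ g : G, g • x = x}
      mul_mem' := fun {x y} hx hy g => by rw [smul_mul', hx g, hy g]
      add_mem' := fun {x y} hx hy g => by rw [smul_add, hx g, hy g]
      algebraMap_mem' := fun r g => by
        obtain ⟨_, a, rfl⟩ := g
        exact sc_C _ r }
  have hcomm : SMulCommClass G A (MvPolynomial (Fin (M + 1)) K) := by
    refine ⟨fun g x y => ?_⟩
    rw [Subalgebra.smul_def, Subalgebra.smul_def, smul_eq_mul, smul_eq_mul, smul_mul',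
      x.2 g]
  have hinv : Algebra.IsInvariant A (MvPolynomial (Fin (M + 1)) K) G := by
    refine ⟨fun b hb => ⟨⟨b, hb⟩, rfl⟩⟩
  have hwt : ∀ a : ι → ZMod m, wt e β (rJ β (Finset.univ : Finset (Fin (M + 1))) a) =
      wt e β a := by
    intro a
    funext j
    unfold wt rJ
    rw [if_pos (Finset.mem_image_of_mem _ (Finset.mem_univ j))]
  have hle : ∀ P P' : Ideal (MvPolynomial (Fin (M + 1)) K), P.IsPrime → P'.IsPrime →
      f + g ∈ P → f + g ∈ P' →
      Algebra.trdeg K (MvPolynomial (Fin (M + 1)) K ⧸ P) = M →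
      Algebra.trdeg K (MvPolynomial (Fin (M + 1)) K ⧸ P') = M →
      ∀ x : A, (x : MvPolynomial (Fin (M + 1)) K) ∈ P → (x : MvPolynomial (Fin (M + 1)) K) ∈ P' := by
    intro P P' hP hP' hFP hFP' htP htP' x hx
    obtain ⟨p, a, hexp, hnp⟩ := he.exp
    have hexp' : ExpChar (MvPolynomial (Fin (M + 1)) K) p :=
      expChar_of_injective_algebraMap (C_injective (Fin (M + 1)) K) p
    have hx1 : sc (wt e β (Pi.single k 1)) (x : MvPolynomial (Fin (M + 1)) K) = x := by
      have h3 := x.2 ⟨scHom e β Finset.univ (Multiplicative.ofAdd (Pi.single k 1)), ⟨_, rfl⟩⟩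
      have h4 : sc (wt e β (rJ β Finset.univ (Pi.single k 1)))
        (x : MvPolynomial (Fin (M + 1)) K) = x := h3
      rw [hwt] at h4
      exact h4
    set h := (x : MvPolynomial (Fin (M + 1)) K) ^ p ^ a with hh
    have hhP : h ∈ P := Ideal.pow_mem_of_mem _ hx _ (pow_pos (expChar_pos K p) a)
    have hdvd : ∀ d, (gr β k h).coeff d ≠ 0 → n ∣ d := by
      intro d hd
      rw [hh, map_pow] at hd
      rw [hnp]
      exact coeff_pow_expChar (fun d hd => dvd_of_inv he.faithful hx1 hd) hd
    set D := (gr β k h).natDegree with hD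
    have h5 : tl β k n f g h D ∈ P := by
      have h6 : f ^ D * h - tl β k n f g h D ∈ P := by
        refine (Ideal.span_le.2 ?_) (tl_mem hn hdvd le_rfl)
        rw [Set.singleton_subset_iff]
        exact hFP
      have h7 := Ideal.sub_mem _ (Ideal.mul_mem_left P (f ^ D) hhP) h6
      rw [sub_sub_cancel] at h7
      exact h7
    have h6 := key P hP hFP htP _ _ (gr_tl hf hfs hgs D) h5
    have h7 := tl_mem (f := f) (g := g) hn hdvd hD.ge
    rw [h6, sub_zero] at h7
    have h8 : f ^ D * h ∈ P' := by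
      refine (Ideal.span_le.2 ?_) h7
      rw [Set.singleton_subset_iff]
      exact hFP'
    rcases hP'.mem_or_mem h8 with h9 | h9
    · exact absurd (key P' hP' hFP' htP' f n (gr_of_supported hf hfs)
        (hP'.mem_of_pow_mem _ h9)) hf0
    · exact hP'.mem_of_pow_mem _ h9
  have hunder : P₁.under A = P₂.under A := by
    ext x
    rw [Ideal.mem_comap, Ideal.mem_comap]
    exact ⟨hle P₁ P₂ h₁ h₂ hF₁ hF₂ ht₁ ht₂ x, hle P₂ P₁ h₂ h₁ hF₂ hF₁ ht₂ ht₁ x⟩
  obtain ⟨⟨g', a, rfl⟩, hg'⟩ := Algebra.IsInvariant.exists_smul_of_under_eq A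
    (MvPolynomial (Fin (M + 1)) K) G P₁ P₂ hunder
  refine ⟨-a.toAdd, ?_⟩
  rw [hg']
  ext x
  rw [Ideal.mem_comap, Ideal.mem_pointwise_smul_iff_inv_smul_mem]
  have h7 : (⟨scHom e β Finset.univ a, ⟨a, rfl⟩⟩ : G)⁻¹ • x = sc (wt e β (-a.toAdd)) x := by
    rw [inv_smul_eq_iff]
    change x = sc (wt e β (rJ β Finset.univ a.toAdd)) (sc (wt e β (-a.toAdd)) x)
    rw [hwt, sc_sc, wt_mul_neg, sc_one]
  rw [h7]

end two

end Pool.Agent.H835.AV
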