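import Pool.Agent.H835.AV.Gen2
import Pool.Agent.H835.AV.Two

set_option autoImplicit false
set_option linter.unusedSectionVars false

/-!
# Cycles of low codimension
-/

universe u

namespace Pool.Agent.H835.AV

open MvPolynomial Pool.Agent.W5h86.HC

section inj

variable {K : Type u} [Field K] {M : ℕ}

lemma lsub_fm_tt_injective (v : Fin (M + 1)) (u' : Fin M) {f : MvPolynomial (Fin (M + 1)) K}
    (hf : lsub K (fm v u' (tt K)) f = 0) : f = 0 := by
  have h1 : IsSub M (X u' : MvPolynomial (Fin M) (Kt K)) ⊥ := isSub_bot u'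
  have h2 := (isFib_fm (v := v) (u' := u') (θ := tt K) (hgen_Kt (K := K))).isSub_comap
    (t := M) (P' := ⊥) trdeg_Kt (by
      rw [lsub_fm_a]
      exact h1)
  have h3 := eq_bot_of_trdeg h2
  have h4 : f ∈ (⊥ : Ideal (MvPolynomial (Fin M) (Kt K))).comap (lsub K (fm v u' (tt K))) := by
    rw [Ideal.mem_comap, Ideal.mem_bot]
    exact hf
  rw [h3, Ideal.mem_bot] at h4
  exact h4

lemma rename_lsub_fm (v : Fin (M + 1)) (u' : Fin M) {κ : Type u} [Field κ] [Algebra K κ] (θ : κ)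
    {f : MvPolynomial (Fin (M + 1)) K} (hf : f ∈ supported K {j | j ≠ v}) :
    rename v.succAbove (lsub K (fm v u' θ) f) = map (algebraMap K κ) f := by
  rw [supported_eq_adjoin_X] at hf
  induction hf using Algebra.adjoin_induction with
  | mem x hx =>
    obtain ⟨j, hj, rfl⟩ := hx
    obtain ⟨i, rfl⟩ := Fin.exists_succAbove_eq (show j ≠ v from hj)
    rw [lsub_fm_succAbove, rename_X, map_X]
  | algebraMap r =>
    rw [algebraMap_eq, lsub_C, map_C, rename_C]
  | add x y _ _ hx hy => rw [map_add, map_add, map_add, hx, hy]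
  | mul x y _ _ hx hy => rw [map_mul, map_mul, map_mul, hx, hy]

lemma lsub_fm_ne_zero {v : Fin (M + 1)} {u' : Fin M} {κ : Type u} [Field κ] [Algebra K κ] {θ : κ}
    {f : MvPolynomial (Fin (M + 1)) K} (hf : f ∈ supported K {j | j ≠ v}) (hf0 : f ≠ 0) :
    lsub K (fm v u' θ) f ≠ 0 := by
  intro h1
  have h2 := rename_lsub_fm v u' θ hf
  rw [h1, map_zero] at h2
  exact hf0 (map_injective (algebraMap K κ) (algebraMap K κ).injective (by
    rw [← h2, map_zero]))

lemma rename_lsub_zi (v : Fin (M + 1)) {f : MvPolynomial (Fin (M + 1)) K}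
    (hf : f ∈ supported K {j | j ≠ v}) :
    rename v.succAbove (lsub K (zi K v) f) = f := by
  rw [supported_eq_adjoin_X] at hf
  induction hf using Algebra.adjoin_induction with
  | mem x hx =>
    obtain ⟨j, hj, rfl⟩ := hx
    obtain ⟨i, rfl⟩ := Fin.exists_succAbove_eq (show j ≠ v from hj)
    rw [lsub_zi_succAbove, rename_X]
  | algebraMap r =>
    rw [algebraMap_eq, lsub_C]
    exact rename_C _ _
  | add x y _ _ hx hy => rw [map_add, map_add, hx, hy]
  | mul x y _ _ hx hy => rw [map_mul, map_mul, hx, hy]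

lemma lsub_zi_ne_zero {v : Fin (M + 1)} {f : MvPolynomial (Fin (M + 1)) K}
    (hf : f ∈ supported K {j | j ≠ v}) (hf0 : f ≠ 0) : lsub K (zi K v) f ≠ 0 := by
  intro h1
  have h2 := rename_lsub_zi v hf
  rw [h1, map_zero] at h2
  exact hf0 h2.symm

end inj

section cls

variable {m : ℕ} {ι : Type} [Fintype ι] [DecidableEq ι] [NeZero m]

open scoped Classical in
/-- The ideals generated by a sum of forms many of which are nonzero. -/
def CCo (m : ℕ) [NeZero m] (ι : Type) [Fintype ι] [DecidableEq ι] (n : ℕ) (κ : Type u) [Field κ]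
    (M : ℕ) (e : AddChar (ZMod m) κ) (β : Fin M → ι) (t ρ : ℕ)
    (I : Ideal (MvPolynomial (Fin M) κ)) : Prop :=
  Good e n ∧ ρ = 1 ∧ ∃ G : ι → MvPolynomial (Fin M) κ, (∀ k, IsHomogeneous (G k) n) ∧
    (∀ k, G k ∈ supported κ {j | β j = k}) ∧ I = Ideal.span {∑ k, G k} ∧
    M + 1 ≤ t + (Finset.univ.filter fun k => G k ≠ 0).card

lemma gr_sum {κ : Type u} [Field κ] {M : ℕ} {β : Fin M → ι} {G : ι → MvPolynomial (Fin M) κ}
    (h2 : ∀ k, G k ∈ supported κ {j | β j = k}) (k : ι) :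
    ∑ l ∈ Finset.univ.erase k, G l ∈ supported κ {j | β j ≠ k} := by
  refine Subalgebra.sum_mem _ fun l hl => supported_mono ?_ (h2 l)
  intro j hj
  have h3 : β j = l := hj
  change β j ≠ k
  rw [h3]
  exact (Finset.mem_erase.1 hl).1

lemma sum_forms_ne_zero {κ : Type u} [Field κ] {M n : ℕ} (hn : 0 < n) {β : Fin M → ι}
    {G : ι → MvPolynomial (Fin M) κ}
    (h1 : ∀ k, IsHomogeneous (G k) n) (h2 : ∀ k, G k ∈ supported κ {j | β j = k})
    {s : Finset ι} {k : ι} (hk : k ∈ s) (hG : G k ≠ 0) : ∑ l ∈ s, G l ≠ 0 := by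
  intro h0
  rw [← Finset.add_sum_erase s G hk] at h0
  have h3 : ∑ l ∈ s.erase k, G l ∈ supported κ {j | β j ≠ k} := by
    refine Subalgebra.sum_mem _ fun l hl => supported_mono ?_ (h2 l)
    intro j hj
    have h3 : β j = l := hj
    change β j ≠ k
    rw [h3]
    exact (Finset.mem_erase.1 hl).1
  have h4 := congrArg (gr β k) h0
  rw [map_add, map_zero, gr_of_supported (h1 k) (h2 k), gr_of_supported_compl h3] at h4
  have h5 := congrArg (fun P => Polynomial.coeff P n) h4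
  simp only [Polynomial.coeff_add, Polynomial.coeff_C_mul, Polynomial.coeff_zero] at h5
  rw [Polynomial.coeff_X_pow_self, mul_one, Polynomial.coeff_C_of_ne_zero hn.ne', add_zero] at h5
  exact hG h5

/-- **Transitivity** if two of the forms are nonzero. -/
lemma top_of_two {κ : Type u} [Field κ] {M n : ℕ} {e : AddChar (ZMod m) κ} (he : Good e n)
    {β : Fin (M + 1) → ι} {G : ι → MvPolynomial (Fin (M + 1)) κ}
    (h1 : ∀ k, IsHomogeneous (G k) n) (h2 : ∀ k, G k ∈ supported κ {j | β j = k})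
    {k k' : ι} (hkk : k' ≠ k) (hG : G k ≠ 0) (hG' : G k' ≠ 0) :
    Top e β M (Ideal.span {∑ k, G k}) := by
  have hsplit : ∑ l, G l = G k + ∑ l ∈ Finset.univ.erase k, G l :=
    (Finset.add_sum_erase _ _ (Finset.mem_univ k)).symm
  have hg0 : ∑ l ∈ Finset.univ.erase k, G l ≠ 0 :=
    sum_forms_ne_zero he.pos h1 h2 (Finset.mem_erase.2 ⟨hkk, Finset.mem_univ k'⟩) hG'
  constructor
  · intro P₁ P₂ hP₁ hP₂ hI₁ hI₂
    rw [Ideal.span_singleton_le_iff_mem, hsplit] at hI₁ hI₂
    exact conj_of_two he (h1 k) (h2 k) (gr_sum h2 k) hG hg0 hP₁.prime hP₂.prime hI₁ hI₂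
      hP₁.trdeg hP₂.trdeg
  · intro P hP hIP n' hn'
    rw [Ideal.span_singleton_le_iff_mem] at hIP
    have hF0 : ∑ l, G l ≠ 0 := sum_forms_ne_zero he.pos h1 h2 (Finset.mem_univ k) hG
    have h3 : (⊥ : Ideal (MvPolynomial (Fin (M + 1)) κ)) < P := by
      refine lt_of_le_of_ne bot_le fun h => ?_
      rw [← h, Ideal.mem_bot] at hIP
      exact hF0 hIP
    have h4 := trdeg_quot_lt (K := κ) Ideal.isPrime_bot hP h3 trdeg_bot hn'
    omega

/-- Both classes. -/
def CCS (m : ℕ) [NeZero m] (ι : Type) [Fintype ι] [DecidableEq ι] (n : ℕ) (κ : Type u) [Field κ]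
    (M : ℕ) (e : AddChar (ZMod m) κ) (β : Fin M → ι) (t ρ : ℕ)
    (I : Ideal (MvPolynomial (Fin M) κ)) : Prop :=
  CSF m ι n κ M e β t ρ I ∨ CCo m ι n κ M e β t ρ I

lemma supported_ne {κ : Type u} [Field κ] {M : ℕ} {β : Fin (M + 1) → ι} {v : Fin (M + 1)} {k : ι}
    (hk : k ≠ β v) {f : MvPolynomial (Fin (M + 1)) κ} (hf : f ∈ supported κ {j | β j = k}) :
    f ∈ supported κ {j | j ≠ v} := by
  refine supported_mono ?_ hf
  intro j hj hjv
  have h1 : β j = k := hj
  have h2 : j = v := hjv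
  rw [h2] at h1
  exact hk h1.symm

/-- The blocks in the fibres. -/
lemma fm_blocks {κ : Type u} [Field κ] {M n : ℕ} {β : Fin (M + 1) → ι}
    {G : ι → MvPolynomial (Fin (M + 1)) κ}
    (h1 : ∀ k, IsHomogeneous (G k) n) (h2 : ∀ k, G k ∈ supported κ {j | β j = k})
    {v : Fin (M + 1)} {u' : Fin M} (hβ : β v = β (v.succAbove u')) {κ' : Type u} [Field κ']
    [Algebra κ κ'] (θ : κ') :
    (∀ k, IsHomogeneous (lsub κ (fm v u' θ) (G k)) n) ∧
    (∀ k, lsub κ (fm v u' θ) (G k) ∈ supported κ' {j | (β ∘ v.succAbove) j = k}) ∧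
    fI v u' θ (Ideal.span {∑ k, G k}) = Ideal.span {∑ k, lsub κ (fm v u' θ) (G k)} := by
  refine ⟨fun k => isHomogeneous_lsub _ (h1 k), fun k => ?_, ?_⟩
  · refine lsub_mem_supported _ (fun j hj => ?_) (h2 k)
    have hj' : β j = k := hj
    rcases Fin.eq_self_or_eq_succAbove v j with hi | ⟨i, hi⟩
    · rw [hi, lsub_fm_self]
      refine Subalgebra.mul_mem _ (Subalgebra.algebraMap_mem _ θ) ?_
      rw [X_mem_supported]
      change β (v.succAbove u') = k
      rw [← hβ, ← hi, hj']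
    · rw [hi, lsub_fm_succAbove, X_mem_supported]
      change β (v.succAbove i) = k
      rw [← hi, hj']
  · unfold fI
    rw [Ideal.map_span, Set.image_singleton]
    congr 2
    exact map_sum _ _ _

lemma zi_blocks {κ : Type u} [Field κ] {M n : ℕ} {β : Fin (M + 1) → ι}
    {G : ι → MvPolynomial (Fin (M + 1)) κ}
    (h1 : ∀ k, IsHomogeneous (G k) n) (h2 : ∀ k, G k ∈ supported κ {j | β j = k})
    (v : Fin (M + 1)) :
    (∀ k, IsHomogeneous (lsub κ (zi κ v) (G k)) n) ∧
    (∀ k, lsub κ (zi κ v) (G k) ∈ supported κ {j | (β ∘ v.succAbove) j = k}) ∧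
    zI v (Ideal.span {∑ k, G k}) = Ideal.span {∑ k, lsub κ (zi κ v) (G k)} := by
  refine ⟨fun k => isHomogeneous_lsub _ (h1 k), fun k => ?_, ?_⟩
  · refine lsub_mem_supported _ (fun j hj => ?_) (h2 k)
    have hj' : β j = k := hj
    rcases Fin.eq_self_or_eq_succAbove v j with hi | ⟨i, hi⟩
    · rw [hi, lsub_zi_self]
      exact Subalgebra.zero_mem _
    · rw [hi, lsub_zi_succAbove, X_mem_supported]
      change β (v.succAbove i) = k
      rw [← hi, hj']
  · unfold zI
    rw [Ideal.map_span, Set.image_singleton]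
    congr 2
    exact map_sum _ _ _

open scoped Classical in
lemma card_le_of_erase {κ κ' : Type u} [Field κ] [Field κ'] {M M' : ℕ}
    {G : ι → MvPolynomial (Fin M) κ} {G' : ι → MvPolynomial (Fin M') κ'} (k₀ : ι)
    (h : ∀ k, k ≠ k₀ → G k ≠ 0 → G' k ≠ 0) :
    (Finset.univ.filter fun k => G k ≠ 0).card ≤
      (Finset.univ.filter fun k => G' k ≠ 0).card + 1 := by
  have h1 : (Finset.univ.filter fun k => G k ≠ 0).erase k₀ ⊆
      Finset.univ.filter fun k => G' k ≠ 0 := by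
    intro k hk
    rw [Finset.mem_erase, Finset.mem_filter] at hk
    rw [Finset.mem_filter]
    exact ⟨Finset.mem_univ k, h k hk.1 hk.2.2⟩
  have h2 := Finset.card_le_card h1
  have h3 := Finset.pred_card_le_card_erase (s := Finset.univ.filter fun k => G k ≠ 0) (a := k₀)
  omega

open scoped Classical in
theorem cls_CCS (n : ℕ) : Cls2 m ι (CCS.{u} m ι n) where
  gens := by
    rintro κ _ M e β t ρ I (h | ⟨he, rfl, G, h1, h2, rfl, h3⟩)
    · exact (cls_CSF n).gens _ _ _ _ _ _ _ h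
    · refine ⟨fun _ => ∑ k, G k, fun _ => ⟨n, IsHomogeneous.sum _ _ _ fun k _ => h1 k⟩, ?_⟩
      rw [Set.range_const]
  stable := by
    rintro κ _ M e β t ρ I (h | ⟨he, rfl, G, h1, h2, rfl, h3⟩)
    · exact (cls_CSF n).stable _ _ _ _ _ _ _ h
    · intro a
      rw [Ideal.span_singleton_le_iff_mem, Ideal.mem_comap,
        (show SF β n (∑ k, G k) from ⟨G, h1, h2, rfl⟩).inv he.dvd]
      exact Ideal.mem_span_singleton_self _
  fmg := by
    rintro κ _ M e β t ρ I v u' hβ (h | ⟨he, rfl, G, h1, h2, rfl, h3⟩)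
    · exact Or.inl ((cls_CSF n).lower _ _ _ _ _ _ _
        ((cls_CSF n).fm _ _ _ _ _ _ _ v u' hβ h (Kt κ) (tt κ)))
    · right
      obtain ⟨h4, h5, h6⟩ := fm_blocks h1 h2 hβ (tt κ)
      refine ⟨he.ex, rfl, _, h4, h5, h6, ?_⟩
      have h7 : (Finset.univ.filter fun k => G k ≠ 0) ⊆
          Finset.univ.filter fun k => lsub κ (fm v u' (tt κ)) (G k) ≠ 0 := by
        intro k hk
        rw [Finset.mem_filter] at hk ⊢
        exact ⟨hk.1, fun h8 => hk.2 (lsub_fm_tt_injective v u' h8)⟩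
      have h8 := Finset.card_le_card h7
      have h9 : M + 1 ≤ t + (Finset.univ.filter fun k => lsub κ (AV.fm v u' (tt κ)) (G k) ≠ 0).card := by
        omega
      convert h9
  fm := by
    rintro κ _ M e β t ρ I v u' hβ (h | ⟨he, rfl, G, h1, h2, rfl, h3⟩) κ' _ _ θ
    · exact Or.inl ((cls_CSF n).fm _ _ _ _ _ _ _ v u' hβ h κ' θ)
    · right
      obtain ⟨h4, h5, h6⟩ := fm_blocks h1 h2 hβ θ
      refine ⟨he.ex, rfl, _, h4, h5, h6, ?_⟩
      have h7 := card_le_of_erase (G := G) (G' := fun k => lsub κ (fm v u' θ) (G k)) (β v)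
        fun k hk hG => lsub_fm_ne_zero (supported_ne hk (h2 k)) hG
      omega
  zi := by
    rintro κ _ M e β t ρ I v w hw hβ (h | ⟨he, rfl, G, h1, h2, rfl, h3⟩)
    · exact Or.inl ((cls_CSF n).zi _ _ _ _ _ _ _ v w hw hβ h)
    · right
      obtain ⟨h4, h5, h6⟩ := zi_blocks h1 h2 v
      refine ⟨he, rfl, _, h4, h5, h6, ?_⟩
      have h7 := card_le_of_erase (G := G) (G' := fun k => lsub κ (zi κ v) (G k)) (β v)
        fun k hk hG => lsub_zi_ne_zero (supported_ne hk (h2 k)) hG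
      omega
  top := by
    rintro κ _ M e β t ρ I (h | ⟨he, rfl, G, h1, h2, rfl, h3⟩) hM
    · rcases (cls_CSF n).top _ _ _ _ _ _ _ h hM with ⟨ρ', h4, h5⟩ | h4
      · exact Or.inl ⟨ρ', h4, Or.inl h5⟩
      · exact Or.inr h4
    · right
      subst hM
      obtain ⟨k, hk, k', hk', hkk⟩ := Finset.one_lt_card.1
        (show 1 < (Finset.univ.filter fun k => G k ≠ 0).card by omega)
      exact top_of_two he h1 h2 (Ne.symm hkk) (Finset.mem_filter.1 hk).2 (Finset.mem_filter.1 hk').2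
  merge := by
    rintro κ _ M e β t ρ I h hβ ht ht1
    have h' : CSF m ι n κ M e β t ρ I := by
      rcases h with h | ⟨he, rfl, G, h1, h2, rfl, h3⟩
      · exact h
      · refine ⟨he, ?_, fun _ => ∑ k, G k, fun _ => ⟨G, h1, h2, rfl⟩, ?_⟩
        · rw [Finset.card_image_of_injective _ hβ, Finset.card_univ, Fintype.card_fin]
          omega
        · rw [Set.range_const]
    obtain ⟨f, h4, h5⟩ := (cls_CSF n).merge _ _ _ _ _ _ _ h' hβ ht ht1
    exact ⟨f, h4, Or.inl h5⟩

end cls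

end Pool.Agent.H835.AV
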