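import Pool.Agent.H835.AV.GenSp
import Pool.Agent.H835.AV.Codim

set_option autoImplicit false
set_option linter.unusedSectionVars false

/-!
# Averages of cycles on sums of forms, modulo cycles where all the forms vanish
-/

universe u

namespace Pool.Agent.H835.AV

open MvPolynomial Pool.Agent.W5h86.HC

section cls

variable {m : ℕ} {ι : Type} [Fintype ι] [DecidableEq ι] [NeZero m]

/-- The pairs `I`, `J` where `I` is generated by the sum of forms which generate `J`. -/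
def CSpJ (m : ℕ) [NeZero m] (ι : Type) [Fintype ι] [DecidableEq ι] (n : ℕ) (κ : Type u) [Field κ]
    (M : ℕ) (e : AddChar (ZMod m) κ) (β : Fin M → ι) (_t ρ : ℕ)
    (I J : Ideal (MvPolynomial (Fin M) κ)) : Prop :=
  Good e n ∧ ρ = 1 ∧ ∃ G : ι → MvPolynomial (Fin M) κ, (∀ k, IsHomogeneous (G k) n) ∧
    (∀ k, G k ∈ supported κ {j | β j = k}) ∧ I = Ideal.span {∑ k, G k} ∧
    J = Ideal.span (Set.range G)

/-- Both classes. -/
def CSpS (m : ℕ) [NeZero m] (ι : Type) [Fintype ι] [DecidableEq ι] (n : ℕ) (κ : Type u) [Field κ]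
    (M : ℕ) (e : AddChar (ZMod m) κ) (β : Fin M → ι) (t ρ : ℕ)
    (I J : Ideal (MvPolynomial (Fin M) κ)) : Prop :=
  (CSF m ι n κ M e β t ρ I ∧ J = ⊤) ∨ CSpJ m ι n κ M e β t ρ I J

lemma stable_top {κ : Type u} [Field κ] {M : ℕ} {e : AddChar (ZMod m) κ} {β : Fin M → ι} :
    Stable e β (⊤ : Ideal (MvPolynomial (Fin M) κ)) := fun _ => by
  rw [Ideal.comap_top]

lemma stable_forms {κ : Type u} [Field κ] {M n : ℕ} {e : AddChar (ZMod m) κ} (he : Good e n)
    {β : Fin M → ι} {G : ι → MvPolynomial (Fin M) κ} (h1 : ∀ k, IsHomogeneous (G k) n)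
    (h2 : ∀ k, G k ∈ supported κ {j | β j = k}) : Stable e β (Ideal.span (Set.range G)) := by
  intro a
  rw [Ideal.span_le]
  rintro _ ⟨k, rfl⟩
  have h3 : SF β n (G k) := by
    refine ⟨Pi.single k (G k), fun l => ?_, fun l => ?_, ?_⟩
    · by_cases hl : l = k
      · rw [hl, Pi.single_eq_same]
        exact h1 k
      · rw [Pi.single_eq_of_ne hl]
        exact isHomogeneous_zero _ _ _
    · by_cases hl : l = k
      · rw [hl, Pi.single_eq_same]
        exact h2 k
      · rw [Pi.single_eq_of_ne hl]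
        exact Subalgebra.zero_mem _
    · rw [Finset.sum_pi_single']
      simp
  rw [SetLike.mem_coe, Ideal.mem_comap, h3.inv he.dvd]
  exact Ideal.subset_span ⟨k, rfl⟩

lemma map_span_range' {K κ : Type u} [Field K] [Field κ] {N N' : ℕ}
    (φ : MvPolynomial (Fin N) K →+* MvPolynomial (Fin N') κ)
    (G : ι → MvPolynomial (Fin N) K) :
    (Ideal.span (Set.range G)).map φ = Ideal.span (Set.range fun i => φ (G i)) := by
  rw [Ideal.map_span, ← Set.range_comp]
  rfl

theorem cls_CSpS (n : ℕ) : Cls3 m ι (CSpS.{u} m ι n) where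
  gens := by
    rintro κ _ M e β t ρ I J (⟨h, -⟩ | ⟨he, rfl, G, h1, h2, rfl, rfl⟩)
    · exact (cls_CSF n).gens _ _ _ _ _ _ _ h
    · refine ⟨fun _ => ∑ k, G k, fun _ => ⟨n, IsHomogeneous.sum _ _ _ fun k _ => h1 k⟩, ?_⟩
      rw [Set.range_const]
  stable := by
    rintro κ _ M e β t ρ I J (⟨h, -⟩ | ⟨he, rfl, G, h1, h2, rfl, rfl⟩)
    · exact (cls_CSF n).stable _ _ _ _ _ _ _ h
    · intro a
      rw [Ideal.span_singleton_le_iff_mem, Ideal.mem_comap,
        (show SF β n (∑ k, G k) from ⟨G, h1, h2, rfl⟩).inv he.dvd]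
      exact Ideal.mem_span_singleton_self _
  stable' := by
    rintro κ _ M e β t ρ I J (⟨-, rfl⟩ | ⟨he, rfl, G, h1, h2, rfl, rfl⟩)
    · exact stable_top
    · exact stable_forms he h1 h2
  fmg := by
    rintro κ _ M e β t ρ I J v u' hβ (⟨h, rfl⟩ | ⟨he, rfl, G, h1, h2, rfl, rfl⟩)
    · refine Or.inl ⟨(cls_CSF n).lower _ _ _ _ _ _ _
        ((cls_CSF n).fm _ _ _ _ _ _ _ v u' hβ h (Kt κ) (tt κ)), ?_⟩
      unfold fI
      exact Ideal.map_top _
    · right
      obtain ⟨h4, h5, h6⟩ := fm_blocks h1 h2 hβ (tt κ)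
      exact ⟨he.ex, rfl, _, h4, h5, h6, map_span_range' _ G⟩
  fm := by
    rintro κ _ M e β t ρ I J v u' hβ (⟨h, rfl⟩ | ⟨he, rfl, G, h1, h2, rfl, rfl⟩) κ' _ _ θ
    · refine Or.inl ⟨(cls_CSF n).fm _ _ _ _ _ _ _ v u' hβ h κ' θ, ?_⟩
      unfold fI
      exact Ideal.map_top _
    · right
      obtain ⟨h4, h5, h6⟩ := fm_blocks h1 h2 hβ θ
      exact ⟨he.ex, rfl, _, h4, h5, h6, map_span_range' _ G⟩
  zi := by
    rintro κ _ M e β t ρ I J v w hw hβ (⟨h, rfl⟩ | ⟨he, rfl, G, h1, h2, rfl, rfl⟩)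
    · refine Or.inl ⟨(cls_CSF n).zi _ _ _ _ _ _ _ v w hw hβ h, ?_⟩
      unfold zI
      exact Ideal.map_top _
    · right
      obtain ⟨h4, h5, h6⟩ := zi_blocks h1 h2 v
      exact ⟨he, rfl, _, h4, h5, h6, map_span_range' _ G⟩
  top := by
    rintro κ _ M e β t ρ I J (⟨h, rfl⟩ | ⟨he, rfl, G, h1, h2, rfl, rfl⟩) hM
    · rcases (cls_CSF n).top _ _ _ _ _ _ _ h hM with ⟨ρ', h4, h5⟩ | h4
      · exact Or.inl ⟨ρ', h4, Or.inl ⟨h5, rfl⟩⟩
      · exact Or.inr (Or.inl h4)
    · right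
      subst hM
      classical
      by_cases h3 : ∃ k k' : ι, k' ≠ k ∧ G k ≠ 0 ∧ G k' ≠ 0
      · obtain ⟨k, k', hkk, hG, hG'⟩ := h3
        exact Or.inl (top_of_two he h1 h2 hkk hG hG')
      · right
        push Not at h3
        rw [Ideal.span_le]
        rintro _ ⟨k, rfl⟩
        rw [SetLike.mem_coe]
        by_cases hG : G k = 0
        · rw [hG]
          exact Ideal.zero_mem _
        · have h4 : ∑ l, G l = G k := by
            refine Finset.sum_eq_single k (fun l _ hl => h3 k l hl hG) fun h => ?_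
            exact absurd (Finset.mem_univ k) h
          rw [h4]
          exact Ideal.mem_span_singleton_self _
  merge := by
    rintro κ _ M e β t ρ I J h hβ ht ht1
    have h' : CSF m ι n κ M e β t ρ I := by
      rcases h with ⟨h, -⟩ | ⟨he, rfl, G, h1, h2, rfl, -⟩
      · exact h
      · refine ⟨he, ?_, fun _ => ∑ k, G k, fun _ => ⟨G, h1, h2, rfl⟩, ?_⟩
        · rw [Finset.card_image_of_injective _ hβ, Finset.card_univ, Fintype.card_fin]
          omega
        · rw [Set.range_const]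
    obtain ⟨f, h4, h5⟩ := (cls_CSF n).merge _ _ _ _ _ _ _ h' hβ ht ht1
    exact ⟨f, ⊤, le_top, h4, Or.inl ⟨h5, rfl⟩⟩

end cls

section main

variable {K : Type u} [Field K] {m : ℕ} {ι : Type} [Fintype ι] [DecidableEq ι] [NeZero m]
  {e : AddChar (ZMod m) K} {n N t : ℕ} {β : Fin N → ι} {G : ι → MvPolynomial (Fin N) K}

/-- **Averages of cycles** outside of a coordinate hyperplane, in all dimensions. -/
theorem sum_low (he : Good e n) (ht : t + 1 < N) (h1 : ∀ k, IsHomogeneous (G k) n)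
    (h2 : ∀ k, G k ∈ supported K {j | β j = k}) {b : Fin N}
    {P : Ideal (MvPolynomial (Fin N) K)} (hP : IsSub t (X b) P) (hIP : ∑ k, G k ∈ P) :
    av e β (pt P) ∈ SRel (Ideal.span {∑ k, G k}) (Ideal.span (Set.range G)) t (X b) :=
  gen_low3 (cls_CSpS n) N K e β t 1 _ _ (Or.inr ⟨he, rfl, G, h1, h2, rfl, rfl⟩) ht b P hP
    ((Ideal.span_singleton_le_iff_mem _).2 hIP)

/-- **Averages of cycles**, in all dimensions: they are equivalent to multiples of a linear section
and cycles supported in the closed subset where all `G k` vanish. -/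
theorem sum_proj (he : Good e n) (ht : t + 1 ≤ N) (ht1 : 1 ≤ t) (h1 : ∀ k, IsHomogeneous (G k) n)
    (h2 : ∀ k, G k ∈ supported K {j | β j = k}) :
    AvSp e β t (Ideal.span {∑ k, G k}) (Ideal.span (Set.range G)) :=
  gen_proj3 (cls_CSpS n) N K e β t 1 _ _ (Or.inr ⟨he, rfl, G, h1, h2, rfl, rfl⟩) ht ht1

end main

end Pool.Agent.H835.AV
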