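import Pool.Agent.H835.AV.ChowAct
import Pool.Agent.H835.AV.SpSum

set_option autoImplicit false
set_option linter.unusedSectionVars false

/-!
# Roots of unity acting on blocks of variables and on Chow groups
-/

universe u

namespace Pool.Agent.H835.AV

open MvPolynomial Pool.Agent.W5h86.HC

section supp

variable {K : Type u} [Field K] {N : ℕ}

/-- The classes in the Chow group of `I = 0` of the cycles supported in the closed subset
`J = 0`. -/
noncomputable def suppCH (I J : Ideal (MvPolynomial (Fin N) K)) (i : ℕ) :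
    Submodule ℚ (CH I i) :=
  Submodule.span ℚ {x | ∃ V : Subvar I i, J ≤ V.P ∧ x = (ratEq I i).mkQ (Finsupp.single V 1)}

/-- The cycles supported in `J = 0`. -/
noncomputable def suppCyc (I J : Ideal (MvPolynomial (Fin N) K)) (i : ℕ) :
    Submodule ℚ (Cyc I i) :=
  Submodule.span ℚ {x | ∃ V : Subvar I i, J ≤ V.P ∧ x = Finsupp.single V 1}

variable {I J : Ideal (MvPolynomial (Fin N) K)} {i : ℕ}

lemma suppCyc_map : (suppCyc I J i).map (ratEq I i).mkQ = suppCH I J i := by
  unfold suppCyc suppCH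
  rw [Submodule.map_span]
  congr 1
  ext x
  constructor
  · rintro ⟨_, ⟨V, h1, rfl⟩, rfl⟩
    exact ⟨V, h1, rfl⟩
  · rintro ⟨V, h1, rfl⟩
    exact ⟨_, ⟨V, h1, rfl⟩, rfl⟩

lemma map_suppCyc (hIJ : I ≤ J) : (suppCyc I J i).map (emb I i) = sp J (i + 1) 1 := by
  unfold suppCyc sp
  rw [Submodule.map_span]
  congr 1
  ext x
  constructor
  · rintro ⟨_, ⟨V, h1, rfl⟩, rfl⟩
    exact ⟨V.P, V.isSub, h1, emb_single V⟩
  · rintro ⟨Q, hQ, hJ, rfl⟩
    obtain ⟨V, rfl⟩ := exists_subvar (i := i) hQ (hIJ.trans hJ)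
    exact ⟨_, ⟨V, hJ, rfl⟩, emb_single V⟩

lemma mem_of_emb' {k : ℕ} {c : Fin k → Fin N} {z : Cyc I i} (hIJ : I ≤ J)
    (h : emb I i z ∈ SS I J (i + 1) c) :
    z ∈ Submodule.span ℚ {cyc I i (secI I c)} ⊔ ratEq I i ⊔ suppCyc I J i := by
  unfold SS at h
  rw [← emb_cyc (I := I) (i := i) (J := secI I c) le_sup_left, ← map_ratEq, ← map_suppCyc hIJ, ← Set.image_singleton,
    ← Submodule.map_span, ← Submodule.map_sup, ← Submodule.map_sup] at h
  obtain ⟨z', h1, h2⟩ := h
  rw [← emb_injective h2]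
  exact h1

lemma suppCH_top : suppCH I ⊤ i = ⊥ := by
  unfold suppCH
  rw [Submodule.span_eq_bot]
  rintro x ⟨V, h1, -⟩
  exact absurd (top_le_iff.1 h1) V.prime.ne_top

end supp

section block

variable {K : Type u} [Field K] {N m : ℕ} [NeZero m] {ζ : K} {ι : Type} [Fintype ι]
  [DecidableEq ι] {β : Fin N → ι} {I J : Ideal (MvPolynomial (Fin N) K)}

/-- The action of `g` on the Chow groups of `I = 0`: the automorphism which multiplies the
coordinates `x j` in the block `k` (that is, `β j = k`) by `ζ ^ g k`. -/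
noncomputable def blockAct (hζ : ζ ^ m = 1)
    (hI : ∀ g : ι → ZMod m, I ≤ I.comap (sc (zpows ζ (g ∘ β)))) (i : ℕ) (g : ι → ZMod m) :
    CH I i →ₗ[ℚ] CH I i :=
  scaleCH (zpows_mul_neg hζ (g ∘ β)) (hI g)

lemma zpows_block (hζ : ζ ^ m = 1) (g : ι → ZMod m) :
    zpows ζ (g ∘ β) = wt (AddChar.zmodChar m hζ) β g := by
  rw [zpows_eq hζ]
  rfl

/-- **The group ring acting on the Chow groups**, modulo cycles supported in a closed subset. -/
theorem block_main (hζ : IsPrimitiveRoot ζ m) {n a : ℕ} (hn : n = m * ringExpChar K ^ a)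
    (hI : ∀ g : ι → ZMod m, I ≤ I.comap (sc (zpows ζ (g ∘ β)))) (hIJ : I ≤ J) (i : ℕ)
    (z : (ι → ZMod m) → ℚ)
    (hdiag : ∀ e : AddChar (ZMod m) K, Good e n → ∀ z' : (ι → ZMod m) → ℚ,
      (∀ g, z' g = z (-g)) →
      ∃ (k : ℕ) (c : Fin k → Fin N), DimLe (i + 1) (secI I c) ∧
      ∀ P, IsSub (i + 1) 1 P → I ≤ P →
      ∑ g, z' g • tr (wt e β g) (pt P) ∈ SS I J (i + 1) c) :
    ∃ (k : ℕ) (c : Fin k → Fin N),
      DimAtMost (I ⊔ Ideal.span (Set.range fun j => X (c j))) i ∧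
      ∀ α : CH I i, ∃ q : ℚ,
        ∑ g, z g • blockAct hζ.pow_eq_one hI i g α -
        q • (ratEq I i).mkQ (cyc I i (I ⊔ Ideal.span (Set.range fun j => X (c j)))) ∈
          suppCH I J i := by
  classical
  have hgood : Good (AddChar.zmodChar m hζ.pow_eq_one) n := by
    refine ⟨?_, ringExpChar K, a, inferInstance, hn⟩
    intro x hx
    rw [AddChar.zmodChar_apply, hζ.pow_eq_one_iff_dvd] at hx
    have h1 := ZMod.val_lt x
    have h2 : x.val = 0 := Nat.eq_zero_of_dvd_of_lt hx h1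
    exact (ZMod.val_eq_zero x).1 h2
  obtain ⟨k, c, hdim, hmem⟩ := hdiag _ hgood (fun g => z (-g)) fun g => rfl
  refine ⟨k, c, ?_, ?_⟩
  · intro P hP hIP
    obtain ⟨n, hn⟩ := exists_trdeg_eq (K := K) P
    have h1 := hdim P hP hIP n hn
    rw [hn]
    exact_mod_cast h1
  · intro α
    obtain ⟨α, rfl⟩ := (ratEq I i).mkQ_surjective α
    have h1 : ∑ g, z g • scaleCyc (zpows_mul_neg hζ.pow_eq_one (g ∘ β)) (hI g) α ∈
        Submodule.span ℚ {cyc I i (secI I c)} ⊔ ratEq I i ⊔ suppCyc I J i := by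
      induction α using Finsupp.induction_linear with
      | zero =>
        simp only [map_zero, smul_zero, Finset.sum_const_zero]
        exact Submodule.zero_mem _
      | add α α' h h' =>
        simp only [map_add, smul_add, Finset.sum_add_distrib]
        exact Submodule.add_mem _ h h'
      | single V q =>
        have h2 : Finsupp.single V q = q • (Finsupp.single V 1 : Cyc I i) := by
          rw [Finsupp.smul_single, smul_eq_mul, mul_one]
        rw [h2]
        simp only [map_smul, smul_comm _ q, ← Finset.smul_sum]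
        refine Submodule.smul_mem _ _ (mem_of_emb' hIJ ?_)
        rw [map_sum]
        have h3 : ∀ g : ι → ZMod m, emb I i (z g • scaleCyc
            (zpows_mul_neg hζ.pow_eq_one (g ∘ β)) (hI g) (Finsupp.single V 1)) =
            z g • tr (wt (AddChar.zmodChar m hζ.pow_eq_one) β (-g)) (pt V.P) := by
          intro g
          rw [map_smul, emb_scaleCyc, emb_single,
            (show -(g ∘ β) = (-g) ∘ β from rfl), zpows_block hζ.pow_eq_one]
        rw [Finset.sum_congr rfl fun g _ => h3 g]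
        have h4 := hmem V.P V.isSub V.le
        rw [← Fintype.sum_equiv (Equiv.neg (ι → ZMod m))
          (fun g => z g • tr (wt (AddChar.zmodChar m hζ.pow_eq_one) β (-g))
              (pt V.P)) _ (fun g => by rw [Equiv.neg_apply, neg_neg])] at h4
        exact h4
    obtain ⟨b₁, hb₁, b₂, hb₂, hab⟩ := Submodule.mem_sup.1 h1
    obtain ⟨a', ha', b, hb, rfl⟩ := Submodule.mem_sup.1 hb₁
    obtain ⟨q, rfl⟩ := Submodule.mem_span_singleton.1 ha'
    refine ⟨q, ?_⟩
    have h5 : ∑ g, z g • blockAct hζ.pow_eq_one hI i g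
        ((ratEq I i).mkQ α) = (ratEq I i).mkQ
        (∑ g, z g • scaleCyc (zpows_mul_neg hζ.pow_eq_one (g ∘ β)) (hI g) α) := by
      rw [map_sum]
      refine Finset.sum_congr rfl fun g _ => ?_
      rw [map_smul]
      rfl
    have h6 : (ratEq I i).mkQ b = 0 := by
      rw [Submodule.mkQ_apply, Submodule.Quotient.mk_eq_zero]
      exact hb
    rw [h5, ← hab, map_add, map_add, map_smul, h6, add_zero]
    have h7 : q • (ratEq I i).mkQ (cyc I i (secI I c)) + (ratEq I i).mkQ b₂ -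
        q • (ratEq I i).mkQ (cyc I i (I ⊔ Ideal.span (Set.range fun j => X (c j)))) =
        (ratEq I i).mkQ b₂ := add_sub_cancel_left _ _
    rw [h7, ← suppCyc_map]
    exact Submodule.mem_map_of_mem hb₂

/-- **The group ring acting on the Chow groups.** -/
theorem block_main' (hζ : IsPrimitiveRoot ζ m) {n a : ℕ} (hn : n = m * ringExpChar K ^ a)
    (hI : ∀ g : ι → ZMod m, I ≤ I.comap (sc (zpows ζ (g ∘ β)))) (i : ℕ)
    (z : (ι → ZMod m) → ℚ)
    (hdiag : ∀ e : AddChar (ZMod m) K, Good e n → ∀ z' : (ι → ZMod m) → ℚ,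
      (∀ g, z' g = z (-g)) →
      ∃ (k : ℕ) (c : Fin k → Fin N), DimLe (i + 1) (secI I c) ∧
      ∀ P, IsSub (i + 1) 1 P → I ≤ P →
      ∑ g, z' g • tr (wt e β g) (pt P) ∈
        Submodule.span ℚ {icyc (i + 1) (secI I c)} ⊔ IRatEq I (i + 1)) :
    ∃ (k : ℕ) (c : Fin k → Fin N),
      DimAtMost (I ⊔ Ideal.span (Set.range fun j => X (c j))) i ∧
      ∀ α : CH I i, ∃ q : ℚ,
        ∑ g, z g • blockAct hζ.pow_eq_one hI i g α =
        q • (ratEq I i).mkQ (cyc I i (I ⊔ Ideal.span (Set.range fun j => X (c j)))) := by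
  obtain ⟨k, c, h1, h2⟩ := block_main (J := ⊤) hζ hn hI le_top i z fun e he z' hz' => by
    obtain ⟨k, c, h3, h4⟩ := hdiag e he z' hz'
    exact ⟨k, c, h3, fun P hP hIP => Submodule.mem_sup_left (h4 P hP hIP)⟩
  refine ⟨k, c, h1, fun α => ?_⟩
  obtain ⟨q, hq⟩ := h2 α
  rw [suppCH_top, Submodule.mem_bot, sub_eq_zero] at hq
  exact ⟨q, hq⟩

/-- The ideal of a sum of forms is stable. -/
lemma sum_stable (hζ : ζ ^ m = 1) {n : ℕ} (hmn : m ∣ n) {G : ι → MvPolynomial (Fin N) K}
    (h1 : ∀ k, IsHomogeneous (G k) n) (h2 : ∀ k, G k ∈ supported K {j | β j = k})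
    (g : ι → ZMod m) :
    Ideal.span {∑ k, G k} ≤ (Ideal.span {∑ k, G k}).comap (sc (zpows ζ (g ∘ β))) := by
  rw [zpows_block hζ, Ideal.span_singleton_le_iff_mem, Ideal.mem_comap,
    (show SF β n (∑ k, G k) from ⟨G, h1, h2, rfl⟩).inv hmn]
  exact Ideal.mem_span_singleton_self _

end block

end Pool.Agent.H835.AV
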