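import Pool.Agent.H835.AV.Final

set_option autoImplicit false
set_option linter.unusedSectionVars false

/-!
# Chow groups of projective schemes, with rational coefficients
-/

universe u

namespace Pool.Agent.H835.AV

open MvPolynomial

section defs

variable {K : Type u} [Field K] {N : ℕ}

/-- The closed subvarieties of dimension `i` of the closed subscheme `I = 0` of the projective
space over `K` with homogeneous coordinates `X 0, ..., X (N - 1)`: the homogeneous prime ideals
`P` which contain `I`, such that `K[X] / P` has transcendence degree `i + 1` over `K`. -/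
structure Subvar (I : Ideal (MvPolynomial (Fin N) K)) (i : ℕ) where
  P : Ideal (MvPolynomial (Fin N) K)
  prime : P.IsPrime
  hom : ∀ f ∈ P, ∀ d, homogeneousComponent d f ∈ P
  dim : Algebra.trdeg K (MvPolynomial (Fin N) K ⧸ P) = i + 1
  le : I ≤ P

variable {I : Ideal (MvPolynomial (Fin N) K)} {i : ℕ}

/-- The multiplicity of the subvariety `V` in the closed subscheme `J = 0`: the length of the local
ring `K[X]_P / J K[X]_P` if it is finite, and `0` otherwise (`P` is the ideal of `V`). It is not
`0` exactly if `V` is an irreducible component of `J = 0`. -/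
noncomputable def Subvar.mult (V : Subvar I i) (J : Ideal (MvPolynomial (Fin N) K)) : ℕ :=
  haveI := V.prime
  (Module.length (Localization.AtPrime V.P) (Localization.AtPrime V.P ⧸
    J.map (algebraMap (MvPolynomial (Fin N) K) (Localization.AtPrime V.P)))).toNat

open Pool.Agent.W5h86.HC in
lemma Subvar.isSub (V : Subvar I i) : IsSub (i + 1) 1 V.P := by
  refine ⟨V.prime, V.hom, ?_, ?_⟩
  · rw [V.dim]
    push_cast
    rfl
  · intro h
    exact V.prime.ne_top ((Ideal.eq_top_iff_one _).2 h)

lemma Subvar.mult_eq (V : Subvar I i) (J : Ideal (MvPolynomial (Fin N) K)) :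
    V.mult J = Pool.Agent.W5h86.HC.mult J V.P := by
  have := V.prime
  unfold Subvar.mult
  rw [Pool.Agent.W5h86.HC.mult_eq]

lemma Subvar.ext' {V W : Subvar I i} (h : V.P = W.P) : V = W := by
  cases V
  cases W
  simp only at h
  subst h
  rfl

lemma mult_eq_zero_of_not_minimal {J P : Ideal (MvPolynomial (Fin N) K)} (hP : P.IsPrime)
    (h : P ∉ J.minimalPrimes) : Pool.Agent.W5h86.HC.mult J P = 0 := by
  by_cases hJ : J ≤ P
  · obtain ⟨p, hp, hpP⟩ := Ideal.exists_minimalPrimes_le hJ
    have hne : p < P := lt_of_le_of_ne hpP (by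
      rintro rfl
      exact h hp)
    rw [Pool.Agent.W5h86.HD.mult_eq_len]
    have h1 := Pool.Agent.W5h86.HD.len_prime_eq_top hp.1.1 hP hne
    have h2 : Pool.Agent.W5h86.HD.len P (MvPolynomial (Fin N) K ⧸ p) ≤
        Pool.Agent.W5h86.HD.len P (MvPolynomial (Fin N) K ⧸ J) :=
      Pool.Agent.W5h86.HD.len_le_of_surjective
        (Ideal.Quotient.factorₐ (MvPolynomial (Fin N) K) hp.1.2).toLinearMap
        (Ideal.Quotient.factor_surjective hp.1.2)
    rw [h1, top_le_iff] at h2
    rw [h2]
    rfl
  · exact Pool.Agent.W5h86.HC.mult_eq_zero hJ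

lemma finite_support_mult (I J : Ideal (MvPolynomial (Fin N) K)) (i : ℕ) :
    (Function.support fun V : Subvar I i => (V.mult J : ℚ)).Finite := by
  have h1 := Ideal.finite_minimalPrimes_of_isNoetherianRing (MvPolynomial (Fin N) K) J
  refine Set.Finite.of_finite_image (f := fun V : Subvar I i => V.P) (h1.subset ?_) ?_
  · rintro _ ⟨V, hV, rfl⟩
    by_contra hcon
    apply hV
    simp only
    rw [V.mult_eq, mult_eq_zero_of_not_minimal V.prime hcon, Nat.cast_zero]
  · intro V _ W _ h
    exact Subvar.ext' h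

/-- The group of cycles of dimension `i`, with rational coefficients, on `I = 0`. -/
abbrev Cyc (I : Ideal (MvPolynomial (Fin N) K)) (i : ℕ) : Type u := Subvar I i →₀ ℚ

/-- The cycle of dimension `i` of the closed subscheme `J = 0`: the sum of its irreducible components
of dimension `i` (contained in `I = 0`), with their multiplicities. -/
noncomputable def cyc (I : Ideal (MvPolynomial (Fin N) K)) (i : ℕ)
    (J : Ideal (MvPolynomial (Fin N) K)) : Cyc I i :=
  Finsupp.ofSupportFinite (fun V : Subvar I i => (V.mult J : ℚ)) (finite_support_mult I J i)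

/-- The cycles of dimension `i` on `I = 0` which are rationally equivalent to zero: the span of the
divisors of the rational functions `G₁ / G₂` on the closed subvarieties `W` of dimension `i + 1`,
where `G₁`, `G₂` are forms of the same degree which do not vanish on `W`, and the divisor of `G` is
the cycle of the scheme `W ∩ (G = 0)`. -/
noncomputable def ratEq (I : Ideal (MvPolynomial (Fin N) K)) (i : ℕ) : Submodule ℚ (Cyc I i) :=
  Submodule.span ℚ {c | ∃ (W : Subvar I (i + 1)) (G₁ G₂ : MvPolynomial (Fin N) K) (e : ℕ),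
    IsHomogeneous G₁ e ∧ IsHomogeneous G₂ e ∧ G₁ ∉ W.P ∧ G₂ ∉ W.P ∧
      c = cyc I i (W.P ⊔ Ideal.span {G₁}) - cyc I i (W.P ⊔ Ideal.span {G₂})}

/-- The Chow group `CH_i` of the closed subscheme `I = 0`, with rational coefficients. -/
abbrev CH (I : Ideal (MvPolynomial (Fin N) K)) (i : ℕ) : Type u := Cyc I i ⧸ ratEq I i

/-- All points of the closed subscheme `J = 0` have dimension at most `i`. -/
def DimAtMost (J : Ideal (MvPolynomial (Fin N) K)) (i : ℕ) : Prop :=
  ∀ P : Ideal (MvPolynomial (Fin N) K), P.IsPrime → J ≤ P →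
    Algebra.trdeg K (MvPolynomial (Fin N) K ⧸ P) ≤ i + 1

end defs

section bridge

open Pool.Agent.W5h86.HC

variable {K : Type u} [Field K] {N : ℕ} {I : Ideal (MvPolynomial (Fin N) K)} {i : ℕ}

lemma cyc_apply (J : Ideal (MvPolynomial (Fin N) K)) (V : Subvar I i) :
    cyc I i J V = (V.mult J : ℚ) := rfl

open scoped Classical in
/-- extension by zero -/
noncomputable def emb (I : Ideal (MvPolynomial (Fin N) K)) (i : ℕ) :
    Cyc I i →ₗ[ℚ] (Ideal (MvPolynomial (Fin N) K) → ℚ) where
  toFun z P := if h : ∃ V : Subvar I i, V.P = P then z h.choose else 0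
  map_add' z z' := by
    funext P
    rw [Pi.add_apply]
    split_ifs <;> simp
  map_smul' q z := by
    funext P
    rw [Pi.smul_apply, RingHom.id_apply]
    split_ifs <;> simp

lemma emb_apply (z : Cyc I i) (V : Subvar I i) : emb I i z V.P = z V := by
  classical
  have h : ∃ W : Subvar I i, W.P = V.P := ⟨V, rfl⟩
  change (if h : ∃ W : Subvar I i, W.P = V.P then z h.choose else 0) = z V
  rw [dif_pos h, Subvar.ext' h.choose_spec]

lemma emb_apply_of_not (z : Cyc I i) {P : Ideal (MvPolynomial (Fin N) K)}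
    (h : ¬ ∃ V : Subvar I i, V.P = P) : emb I i z P = 0 := dif_neg h

lemma emb_injective : Function.Injective (emb I i) := by
  intro z z' h
  ext V
  rw [← emb_apply z V, ← emb_apply z' V, h]

lemma exists_subvar {P : Ideal (MvPolynomial (Fin N) K)} (h : IsSub (i + 1) 1 P) (hI : I ≤ P) :
    ∃ V : Subvar I i, V.P = P := by
  refine ⟨⟨P, h.prime, h.hom, ?_, hI⟩, rfl⟩
  rw [h.trdeg]
  push_cast
  rfl

lemma emb_cyc {J : Ideal (MvPolynomial (Fin N) K)} (hJ : I ≤ J) :
    emb I i (cyc I i J) = icyc (i + 1) J := by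
  funext P
  by_cases h : ∃ V : Subvar I i, V.P = P
  · obtain ⟨V, rfl⟩ := h
    rw [emb_apply, cyc_apply, V.mult_eq, icyc_of V.isSub]
  · rw [emb_apply_of_not _ h]
    symm
    by_contra hcon
    obtain ⟨h1, h2⟩ := le_of_icyc_ne_zero hcon
    exact h (exists_subvar h1 (hJ.trans h2))

lemma icyc_sup (t : ℕ) (Q : Ideal (MvPolynomial (Fin N) K)) (G : MvPolynomial (Fin N) K) :
    icyc t (Q ⊔ Ideal.span {G}) = idiv t 1 Q G := rfl

lemma map_ratEq : (ratEq I i).map (emb I i) = IRatEq I (i + 1) := by
  unfold ratEq IRatEq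
  rw [Submodule.map_span]
  congr 1
  ext c
  constructor
  · rintro ⟨_, ⟨W, G₁, G₂, e, h1, h2, h3, h4, rfl⟩, rfl⟩
    refine ⟨W.P, G₁, G₂, e, W.isSub, W.le, h1, h2, h3, h4, ?_⟩
    rw [map_sub, emb_cyc (W.le.trans le_sup_left), emb_cyc (W.le.trans le_sup_left), icyc_sup,
      icyc_sup]
  · rintro ⟨Q, G₁, G₂, e, hQ, hIQ, h1, h2, h3, h4, rfl⟩
    obtain ⟨W, rfl⟩ := exists_subvar (i := i + 1) hQ hIQ
    refine ⟨_, ⟨W, G₁, G₂, e, h1, h2, h3, h4, rfl⟩, ?_⟩
    rw [map_sub, emb_cyc (W.le.trans le_sup_left), emb_cyc (W.le.trans le_sup_left), icyc_sup,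
      icyc_sup]

lemma emb_single (V : Subvar I i) : emb I i (Finsupp.single V 1) = pt V.P := by
  classical
  funext P
  by_cases h : ∃ W : Subvar I i, W.P = P
  · obtain ⟨W, rfl⟩ := h
    rw [emb_apply]
    unfold pt
    by_cases hVW : W = V
    · rw [hVW, Finsupp.single_eq_same, Pi.single_eq_same]
    · rw [Finsupp.single_eq_of_ne hVW, Pi.single_eq_of_ne]
      intro h
      exact hVW (Subvar.ext' h)
  · rw [emb_apply_of_not _ h]
    unfold pt
    rw [Pi.single_eq_of_ne]
    rintro rfl
    exact h ⟨V, rfl⟩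

lemma mem_of_emb {z : Cyc I i} {J : Ideal (MvPolynomial (Fin N) K)} (hJ : I ≤ J)
    (h : emb I i z ∈ Submodule.span ℚ {icyc (i + 1) J} ⊔ IRatEq I (i + 1)) :
    z ∈ Submodule.span ℚ {cyc I i J} ⊔ ratEq I i := by
  rw [← emb_cyc hJ, ← map_ratEq, ← Set.image_singleton, ← Submodule.map_span,
    ← Submodule.map_sup] at h
  obtain ⟨z', h1, h2⟩ := h
  rw [← emb_injective h2]
  exact h1

/-- **The Chow group of low dimension is generated by a coordinate linear section.** -/
theorem chow_of_triv (h : Triv (i + 1) I) :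
    ∃ (k : ℕ) (c : Fin k → Fin N),
      DimAtMost (I ⊔ Ideal.span (Set.range fun j => X (c j))) i ∧
      ∀ z : CH I i, ∃ q : ℚ,
        z = q • (ratEq I i).mkQ (cyc I i (I ⊔ Ideal.span (Set.range fun j => X (c j)))) := by
  obtain ⟨k, c, hdim, hmem⟩ := h
  refine ⟨k, c, ?_, ?_⟩
  · intro P hP hIP
    obtain ⟨n, hn⟩ := exists_trdeg_eq (K := K) P
    have h1 := hdim P hP hIP n hn
    rw [hn]
    exact_mod_cast h1
  · intro z
    obtain ⟨z, rfl⟩ := (ratEq I i).mkQ_surjective z
    have h1 : z ∈ Submodule.span ℚ {cyc I i (secI I c)} ⊔ ratEq I i := by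
      induction z using Finsupp.induction_linear with
      | zero => exact Submodule.zero_mem _
      | add z z' hz hz' => exact Submodule.add_mem _ hz hz'
      | single V q =>
        have h2 : Finsupp.single V q = q • (Finsupp.single V 1 : Cyc I i) := by
          rw [Finsupp.smul_single, smul_eq_mul, mul_one]
        rw [h2]
        refine Submodule.smul_mem _ _ (mem_of_emb le_sup_left ?_)
        rw [emb_single]
        exact hmem V.P V.isSub V.le
    obtain ⟨a, ha, b, hb, rfl⟩ := Submodule.mem_sup.1 h1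
    obtain ⟨q, rfl⟩ := Submodule.mem_span_singleton.1 ha
    refine ⟨q, ?_⟩
    rw [map_add, map_smul]
    have h3 : (ratEq I i).mkQ b = 0 := by
      rw [Submodule.mkQ_apply, Submodule.Quotient.mk_eq_zero]
      exact hb
    rw [h3, add_zero]
    rfl

end bridge

end Pool.Agent.H835.AV
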