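import Pool.Agent.H835.AV.Codim
import Pool.Agent.H835.AV.Chow

set_option autoImplicit false
set_option linter.unusedSectionVars false

/-!
# Cycles of low codimension on hypersurfaces given by sums of forms
-/

universe u

namespace Pool.Agent.H835.AV

open MvPolynomial Pool.Agent.W5h86.HC

section

variable {K : Type u} [Field K] {m : ℕ} {ι : Type} [Fintype ι] [DecidableEq ι] [NeZero m]
  {e : AddChar (ZMod m) K}

/-- Averages over merged blocks: dimension and codimension. -/
theorem avTriv_sum {n N t : ℕ} (he : Good e n) {β : Fin N → ι} (ht : 1 ≤ t) (htN : t + 1 ≤ N)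
    {G : ι → MvPolynomial (Fin N) K} (h1 : ∀ k, IsHomogeneous (G k) n)
    (h2 : ∀ k, G k ∈ supported K {j | β j = k}) (h0 : ∀ k, G k ≠ 0) {π : ι → ι}
    (hπ : t + 1 ≤ (Finset.univ.image π).card ∨ N + 1 ≤ t + (Finset.univ.image π).card) :
    AvTriv e (π ∘ β) t (Ideal.span {∑ k, G k}) := by
  classical
  have hβ : Function.Surjective β := by
    intro k
    by_contra hcon
    push Not at hcon
    have h3 : {j | β j = k} = (∅ : Set (Fin N)) := by
      ext j
      simp [hcon j]
    have h4 := h2 k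
    rw [h3, supported_empty, Algebra.mem_bot] at h4
    obtain ⟨c, hc⟩ := h4
    rw [algebraMap_eq] at hc
    have h5 := h1 k
    rw [← hc] at h5
    have h6 : c ≠ 0 := by
      rintro rfl
      rw [map_zero] at hc
      exact h0 k hc.symm
    have h7 := (isHomogeneous_C (Fin N) c).inj_right h5 (by
      rw [hc]
      exact h0 k)
    have := he.pos
    omega
  have himg : Finset.univ.image (π ∘ β) = Finset.univ.image π := by
    ext x
    simp only [Finset.mem_image, Finset.mem_univ, true_and, Function.comp_apply]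
    exact ⟨fun ⟨j, hj⟩ => ⟨_, hj⟩, fun ⟨k, hk⟩ => by
      obtain ⟨j, rfl⟩ := hβ k
      exact ⟨j, hk⟩⟩
  refine gen_proj2 (cls_CCS n) N K e (π ∘ β) t 1 _ ?_ htN ht
  rcases hπ with hπ | hπ
  · left
    refine ⟨he, by rw [himg]; exact hπ, fun _ => ∑ k, G k, fun _ => SF.comp ⟨G, h1, h2, rfl⟩ π, ?_⟩
    rw [Set.range_const]
  · right
    refine ⟨he, rfl, fun k' => ∑ k with π k = k', G k, fun k' => ?_, fun k' => ?_, ?_, ?_⟩
    · exact IsHomogeneous.sum _ _ _ fun k _ => h1 k
    · refine Subalgebra.sum_mem _ fun k hk => ?_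
      refine supported_mono ?_ (h2 k)
      intro j hj
      have h3 : β j = k := hj
      change π (β j) = k'
      rw [h3]
      exact (Finset.mem_filter.1 hk).2
    · rw [Finset.sum_fiberwise Finset.univ π G]
    · refine hπ.trans (Nat.add_le_add_left (Finset.card_le_card ?_) t)
      intro k' hk'
      obtain ⟨k, -, rfl⟩ := Finset.mem_image.1 hk'
      rw [Finset.mem_filter]
      exact ⟨Finset.mem_univ _, sum_forms_ne_zero he.pos h1 h2
        (Finset.mem_filter.2 ⟨Finset.mem_univ k, rfl⟩) (h0 k)⟩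

lemma triv_of_key {N t : ℕ} {β : Fin N → ι} {I : Ideal (MvPolynomial (Fin N) K)}
    (hst : Stable e β I) (key2 : ∀ x : ι → ZMod m, ∑ k, x k = 0 → ∃ π : ι → ι,
      AvTriv e (π ∘ β) t I ∧ ∀ k, ∑ j with π j = k, x j = 0) : Triv t I := by
  obtain ⟨π₀, h3, -⟩ := key2 0 (by simp)
  obtain ⟨k, c, h4, h5⟩ := char_main hst h3 (Pi.single 0 1) fun x hx _ => key2 x hx
  refine ⟨k, c, h4, fun P hP hIP => ?_⟩
  have h6 := h5 P hP hIP
  rw [Finset.sum_eq_single 0 (fun g _ hg => by rw [Pi.single_eq_of_ne hg, zero_smul])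
    (fun h => absurd (Finset.mem_univ _) h), Pi.single_eq_same, one_smul, wt_zero, tr_one] at h6
  exact h6

/-- **Cycles of low codimension**, with roots of unity. -/
theorem cod_of_good {n N t r : ℕ} (he : Good e n) {β : Fin N → ι} (ht : 1 ≤ t)
    (hN : N = t + 1 + r) (hs : m * (r + 1) < Fintype.card ι)
    {G : ι → MvPolynomial (Fin N) K} (h1 : ∀ k, IsHomogeneous (G k) n)
    (h2 : ∀ k, G k ∈ supported K {j | β j = k}) (h0 : ∀ k, G k ≠ 0) :
    Triv t (Ideal.span {∑ k, G k}) := by
  have key2 : ∀ x : ι → ZMod m, ∑ k, x k = 0 → ∃ π : ι → ι,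
      AvTriv e (π ∘ β) t (Ideal.span {∑ k, G k}) ∧ ∀ k, ∑ j with π j = k, x j = 0 := by
    intro x hx
    obtain ⟨π, h3, h4⟩ := exists_merge_of_card hs hx
    exact ⟨π, avTriv_sum he ht (by omega) h1 h2 h0 (Or.inr (by omega)), h4⟩
  refine triv_of_key ?_ key2
  intro a
  rw [Ideal.span_singleton_le_iff_mem, Ideal.mem_comap,
    (show SF β n (∑ k, G k) from ⟨G, h1, h2, rfl⟩).inv he.dvd]
  exact Ideal.mem_span_singleton_self _

end

section

variable {K : Type u} [Field K] {ι : Type} [Fintype ι] [DecidableEq ι]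

attribute [local instance] MvPolynomial.algebraMvPolynomial

/-- **Cycles of low codimension.** -/
theorem cod_any {n m a N t r : ℕ} (hn : n = m * ringExpChar K ^ a) (hm : (m : K) ≠ 0)
    {β : Fin N → ι} (ht : 1 ≤ t) (hN : N = t + 1 + r) (hs : m * (r + 1) < Fintype.card ι)
    {G : ι → MvPolynomial (Fin N) K} (h1 : ∀ k, IsHomogeneous (G k) n)
    (h2 : ∀ k, G k ∈ supported K {j | β j = k}) (h0 : ∀ k, G k ≠ 0) :
    Triv t (Ideal.span {∑ k, G k}) := by
  have hm' : NeZero m := ⟨by
    rintro rfl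
    exact hm Nat.cast_zero⟩
  have hmK : NeZero (m : K) := ⟨hm⟩
  let L := CyclotomicField m K
  have hfin : Module.Finite K L := IsCyclotomicExtension.finite_of_singleton m K L
  have hgal : IsGalois K L := IsCyclotomicExtension.isGalois {m} K L
  have hchar : ExpChar L (ringExpChar K) :=
    expChar_of_injective_algebraMap (algebraMap K L).injective _
  obtain ⟨e, he⟩ := exists_good (IsCyclotomicExtension.zeta_spec m K L) hchar hn
  apply Triv.descent (L := L)
  have h3 : (Ideal.span {∑ k, G k}).map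
      (algebraMap (MvPolynomial (Fin N) K) (MvPolynomial (Fin N) L)) =
      Ideal.span {∑ k, algebraMap (MvPolynomial (Fin N) K) (MvPolynomial (Fin N) L) (G k)} := by
    rw [Ideal.map_span, Set.image_singleton, map_sum]
  rw [h3]
  refine cod_of_good he ht hN hs (β := β) (fun k => (h1 k).map _) (fun k => ?_) fun k h4 => ?_
  · have h4 := h2 k
    rw [mem_supported] at h4 ⊢
    refine Set.Subset.trans ?_ h4
    intro j hj
    exact vars_map _ _ hj
  · exact h0 k (map_injective (algebraMap K L) (algebraMap K L).injective (by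
      rw [map_zero]
      exact h4))

end

end Pool.Agent.H835.AV
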