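import Pool.Agent.H835.AV.Two
import Mathlib.RingTheory.Nullstellensatz

set_option autoImplicit false
set_option linter.unusedSectionVars false

/-!
# Sums of prime ideals in disjoint variables
-/

universe u

namespace Pool.Agent.H835.AV

open MvPolynomial Pool.Agent.W5h86.HC

section ev

variable {K : Type u} [Field K] {N : ℕ} (B : Set (Fin N))

open scoped Classical in
/-- The variables outside of `B` are specialized. -/
noncomputable def ev (a : Fin N → K) : MvPolynomial (Fin N) K →ₐ[K] MvPolynomial (Fin N) K :=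
  aeval fun j => if j ∈ B then X j else C (a j)

variable {B}

lemma ev_of_supported (a : Fin N → K) {f : MvPolynomial (Fin N) K} (hf : f ∈ supported K B) :
    ev B a f = f := by
  rw [supported_eq_adjoin_X] at hf
  induction hf using Algebra.adjoin_induction with
  | mem x hx =>
    obtain ⟨j, hj, rfl⟩ := hx
    unfold ev
    rw [aeval_X, if_pos hj]
  | algebraMap r => rw [AlgHom.commutes]
  | add x y _ _ hx hy => rw [map_add, hx, hy]
  | mul x y _ _ hx hy => rw [map_mul, hx, hy]

lemma ev_of_supported_compl (a : Fin N → K) {f : MvPolynomial (Fin N) K}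
    (hf : f ∈ supported K Bᶜ) : ev B a f = C (aeval a f) := by
  rw [supported_eq_adjoin_X] at hf
  induction hf using Algebra.adjoin_induction with
  | mem x hx =>
    obtain ⟨j, hj, rfl⟩ := hx
    unfold ev
    rw [aeval_X, if_neg hj, aeval_X]
  | algebraMap r =>
    rw [AlgHom.commutes, AlgHom.commutes]
    rfl
  | add x y _ _ hx hy => rw [map_add, map_add, map_add, hx, hy]
  | mul x y _ _ hx hy => rw [map_mul, map_mul, map_mul, hx, hy]

/-- Every polynomial is a combination of lifts of a basis of the quotient of the ring of the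
variables in `B`, modulo `g`. -/
lemma exists_decomp {g : MvPolynomial (Fin N) K} {κ : Type u}
    {b : κ → MvPolynomial (Fin N) K}
    (hspan : ∀ w ∈ supported K B, ∃ c : κ →₀ K,
      w - c.sum (fun i r => C r * b i) ∈ Ideal.span {g}) (f : MvPolynomial (Fin N) K) :
    ∃ c : κ →₀ MvPolynomial (Fin N) K, (∀ i, c i ∈ supported K Bᶜ) ∧
      f - c.sum (fun i r => r * b i) ∈ Ideal.span {g} := by
  classical
  induction f using MvPolynomial.induction_on' with
  | monomial d r =>
    obtain ⟨c, hc⟩ := hspan (∏ j with j ∈ B, X j ^ d j)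
      (Subalgebra.prod_mem _ fun j hj => Subalgebra.pow_mem _
        ((X_mem_supported (R := K)).2 (Finset.mem_filter.1 hj).2) _)
    set p : MvPolynomial (Fin N) K := C r * ∏ j with ¬ j ∈ B, X j ^ d j with hp
    have hpm : p ∈ supported K Bᶜ := by
      refine Subalgebra.mul_mem _ (Subalgebra.algebraMap_mem _ r)
        (Subalgebra.prod_mem _ fun j hj => Subalgebra.pow_mem _
        ((X_mem_supported (R := K)).2 (Finset.mem_filter.1 hj).2) _)
    refine ⟨c.mapRange (fun s => C s * p) (by rw [map_zero, zero_mul]), fun i => ?_, ?_⟩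
    · rw [Finsupp.mapRange_apply]
      exact Subalgebra.mul_mem _ (Subalgebra.algebraMap_mem _ _) hpm
    · rw [Finsupp.sum_mapRange_index (fun i => by rw [zero_mul])]
      have h1 : monomial d r = p * ∏ j with j ∈ B, X j ^ d j := by
        rw [hp, mul_assoc, mul_comm (∏ j with ¬ j ∈ B, X j ^ d j), Finset.prod_filter_mul_prod_filter_not,
          monomial_eq, Finsupp.prod_fintype _ _ (fun i => by rw [pow_zero])]
      have h2 := Ideal.mul_mem_left _ p hc
      rw [mul_sub, ← h1, Finsupp.mul_sum] at h2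
      convert h2 using 2
      refine Finset.sum_congr rfl fun i _ => ?_
      ring
  | add p q hp hq =>
    obtain ⟨c, hc, hc2⟩ := hp
    obtain ⟨c', hc', hc2'⟩ := hq
    refine ⟨c + c', fun i => Subalgebra.add_mem _ (hc i) (hc' i), ?_⟩
    have h1 := Ideal.add_mem _ hc2 hc2'
    rw [Finsupp.sum_add_index' (fun i => by rw [zero_mul]) (fun i r s => add_mul _ _ _)]
    convert h1 using 1
    ring

/-- There are such combinations. -/
lemma exists_basis (g : MvPolynomial (Fin N) K) (B : Set (Fin N)) :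
    ∃ (κ : Type u) (b : κ → MvPolynomial (Fin N) K), (∀ i, b i ∈ supported K B) ∧
      (∀ w ∈ supported K B, ∃ c : κ →₀ K, w - c.sum (fun i r => C r * b i) ∈ Ideal.span {g}) ∧
      ∀ c : κ →₀ K, c.sum (fun i r => C r * b i) ∈ Ideal.span {g} → c = 0 := by
  let W : Submodule K (MvPolynomial (Fin N) K ⧸ Ideal.span {g}) :=
    (Subalgebra.toSubmodule (supported K B)).map
      ((Ideal.span {g}).mkQ.restrictScalars K : MvPolynomial (Fin N) K →ₗ[K] _)
  let bas := Module.Basis.ofVectorSpace K W
  have hlift : ∀ i, ∃ w ∈ supported K B, (Ideal.span {g}).mkQ w = (bas i : _ ⧸ Ideal.span {g}) := by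
    intro i
    obtain ⟨w, hw, hw2⟩ := (bas i).2
    exact ⟨w, hw, hw2⟩
  choose b hb hb2 using hlift
  have hsum : ∀ c : Module.Basis.ofVectorSpaceIndex K W →₀ K,
      (Ideal.span {g}).mkQ (c.sum (fun i r => C r * b i)) =
      ((Finsupp.linearCombination K bas c : W) : _ ⧸ Ideal.span {g}) := by
    intro c
    rw [Finsupp.linearCombination_apply, Finsupp.sum, Finsupp.sum, map_sum,
      Submodule.coe_sum]
    refine Finset.sum_congr rfl fun i _ => ?_
    rw [Submodule.coe_smul, ← hb2 i, ← smul_eq_C_mul]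
    rfl
  refine ⟨_, b, hb, ?_, ?_⟩
  · intro w hw
    refine ⟨bas.repr ⟨(Ideal.span {g}).mkQ w, ⟨w, hw, rfl⟩⟩, ?_⟩
    rw [← Submodule.Quotient.mk_eq_zero, ← Submodule.mkQ_apply, map_sub, hsum,
      Module.Basis.linearCombination_repr, sub_self]
  · intro c hc
    rw [← Submodule.Quotient.mk_eq_zero, ← Submodule.mkQ_apply, hsum] at hc
    have h1 : Finsupp.linearCombination K bas c = 0 := Subtype.ext hc
    have h2 := bas.linearIndependent
    rw [linearIndependent_iff] at h2
    exact h2 c h1

variable [IsAlgClosed K]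

/-- **Sums of prime ideals in disjoint variables are prime.** -/
theorem isPrime_sup {T : Set (MvPolynomial (Fin N) K)} (hT : ∀ p ∈ T, p ∈ supported K Bᶜ)
    (hprime : (Ideal.span T).IsPrime) {g : MvPolynomial (Fin N) K} (hg : g ∈ supported K B)
    (hgp : Prime g) : (Ideal.span T ⊔ Ideal.span {g}).IsPrime ∧ g ∉ Ideal.span T := by
  obtain ⟨κ, b, hb, hspan, hind⟩ := exists_basis g B
  have hgprime : (Ideal.span {g}).IsPrime := (Ideal.span_singleton_prime hgp.ne_zero).2 hgp
  have hnull : ∀ c : MvPolynomial (Fin N) K, (∀ a ∈ zeroLocus K (Ideal.span T), aeval a c = 0) →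
      c ∈ Ideal.span T := by
    intro c hc
    rw [← IsPrime.vanishingIdeal_zeroLocus (K := K) (Ideal.span T)]
    exact hc
  obtain ⟨a₀, ha₀⟩ : ∃ a, a ∈ zeroLocus K (Ideal.span T) := by
    by_contra hcon
    push Not at hcon
    exact hprime.ne_top ((Ideal.eq_top_iff_one _).2 (hnull 1 fun a ha => absurd ha (hcon a)))
  have hevT : ∀ a ∈ zeroLocus K (Ideal.span T), Ideal.span T ≤
      (⊥ : Ideal (MvPolynomial (Fin N) K)).comap (ev B a) := by
    intro a ha
    rw [Ideal.span_le]
    intro p hp
    rw [SetLike.mem_coe, Ideal.mem_comap, Ideal.mem_bot, ev_of_supported_compl a (hT p hp)]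
    rw [mem_zeroLocus_iff] at ha
    rw [ha p (Ideal.subset_span hp), map_zero]
  have hev : ∀ a ∈ zeroLocus K (Ideal.span T), Ideal.span T ⊔ Ideal.span {g} ≤
      (Ideal.span {g}).comap (ev B a) := by
    intro a ha
    refine sup_le ((hevT a ha).trans (Ideal.comap_mono bot_le)) ?_
    rw [Ideal.span_singleton_le_iff_mem, Ideal.mem_comap, ev_of_supported a hg]
    exact Ideal.mem_span_singleton_self g
  -- the coefficients
  have hcoef : ∀ (a : Fin N → K) (f : MvPolynomial (Fin N) K) (c : κ →₀ MvPolynomial (Fin N) K),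
      (∀ i, c i ∈ supported K Bᶜ) → f - c.sum (fun i r => r * b i) ∈ Ideal.span {g} →
      ev B a f ∈ Ideal.span {g} → ∀ i, aeval a (c i) = 0 := by
    intro a f c hc hf hfa
    have h1 : ev B a (f - c.sum (fun i r => r * b i)) ∈ Ideal.span {g} := by
      obtain ⟨q, hq⟩ := Ideal.mem_span_singleton.1 hf
      rw [hq, map_mul, ev_of_supported a hg]
      exact Ideal.mul_mem_right _ _ (Ideal.mem_span_singleton_self g)
    rw [map_sub] at h1
    have h2 := Ideal.sub_mem _ hfa h1
    rw [sub_sub_cancel] at h2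
    have h3 : ev B a (c.sum (fun i r => r * b i)) =
        (c.mapRange (fun p => aeval a p) (map_zero _)).sum (fun i r => C r * b i) := by
      rw [Finsupp.sum_mapRange_index (fun i => by rw [map_zero, zero_mul]), Finsupp.sum,
        Finsupp.sum, map_sum]
      refine Finset.sum_congr rfl fun i _ => ?_
      rw [map_mul, ev_of_supported_compl a (hc i), ev_of_supported a (hb i)]
    rw [h3] at h2
    have h4 := hind _ h2
    intro i
    have h5 := DFunLike.congr_fun h4 i
    rw [Finsupp.mapRange_apply] at h5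
    exact h5
  have hmem : ∀ (f : MvPolynomial (Fin N) K) (c : κ →₀ MvPolynomial (Fin N) K),
      f - c.sum (fun i r => r * b i) ∈ Ideal.span {g} → (∀ i, c i ∈ Ideal.span T) →
      f ∈ Ideal.span T ⊔ Ideal.span {g} := by
    intro f c hf hc
    have h1 : c.sum (fun i r => r * b i) ∈ Ideal.span T :=
      Ideal.sum_mem _ fun i _ => Ideal.mul_mem_right _ _ (hc i)
    have h2 := Ideal.add_mem (Ideal.span T ⊔ Ideal.span {g}) (Ideal.mem_sup_right hf)
      (Ideal.mem_sup_left h1)
    rw [sub_add_cancel] at h2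
    exact h2
  refine ⟨⟨?_, ?_⟩, ?_⟩
  · intro htop
    have h1 : (1 : MvPolynomial (Fin N) K) ∈ Ideal.span T ⊔ Ideal.span {g} := by
      rw [htop]
      exact Submodule.mem_top
    have h2 := hev a₀ ha₀ h1
    rw [Ideal.mem_comap, map_one] at h2
    exact hgprime.ne_top ((Ideal.eq_top_iff_one _).2 h2)
  · intro f f' hff
    obtain ⟨c, hc, hc2⟩ := exists_decomp hspan f
    obtain ⟨c', hc', hc2'⟩ := exists_decomp hspan f'
    have h1 : ∀ i i', c i * c' i' ∈ Ideal.span T := by
      intro i i'
      refine hnull _ fun a ha => ?_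
      have h2 := hev a ha hff
      rw [Ideal.mem_comap, map_mul] at h2
      rw [map_mul]
      rcases hgprime.mem_or_mem h2 with h3 | h3
      · rw [hcoef a f c hc hc2 h3 i, zero_mul]
      · rw [hcoef a f' c' hc' hc2' h3 i', mul_zero]
    by_cases h2 : ∀ i, c i ∈ Ideal.span T
    · exact Or.inl (hmem f c hc2 h2)
    · push Not at h2
      obtain ⟨i, hi⟩ := h2
      exact Or.inr (hmem f' c' hc2' fun i' => (hprime.mem_or_mem (h1 i i')).resolve_left hi)
  · intro h1
    have h2 := hevT a₀ ha₀ h1
    rw [Ideal.mem_comap, Ideal.mem_bot, ev_of_supported a₀ hg] at h2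
    exact hgp.ne_zero h2

end ev

section blocks

variable {K : Type u} [Field K] [IsAlgClosed K] {N : ℕ} {ι : Type} [Fintype ι] [DecidableEq ι]
  {β : Fin N → ι} {G : ι → MvPolynomial (Fin N) K}

lemma isPrime_forms (h2 : ∀ k, G k ∈ supported K {j | β j = k}) (s : Finset ι)
    (hs : ∀ k ∈ s, Prime (G k)) : (Ideal.span (G '' (s : Set ι))).IsPrime ∧
      ∀ n : ℕ, Algebra.trdeg K (MvPolynomial (Fin N) K ⧸ Ideal.span (G '' (s : Set ι))) = n →
        n + s.card ≤ N := by
  induction s using Finset.induction_on with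
  | empty =>
    rw [Finset.coe_empty, Set.image_empty, Ideal.span_empty]
    refine ⟨Ideal.isPrime_bot, fun n hn => ?_⟩
    rw [trdeg_bot] at hn
    have h3 : N = n := by exact_mod_cast hn
    rw [Finset.card_empty]
    omega
  | insert k s hk ih =>
    obtain ⟨h3, h4⟩ := ih fun l hl => hs l (Finset.mem_insert_of_mem hl)
    obtain ⟨h5, h6⟩ := isPrime_sup (B := {j | β j = k}) (T := G '' (s : Set ι)) (by
      rintro _ ⟨l, hl, rfl⟩
      refine supported_mono ?_ (h2 l)
      intro j hj hjk
      have h7 : β j = l := hj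
      have h8 : β j = k := hjk
      rw [h7] at h8
      rw [h8] at hl
      exact hk (Finset.mem_coe.1 hl)) h3 (h2 k) (hs k (Finset.mem_insert_self k s))
    have h7 : Ideal.span (G '' ((insert k s : Finset ι) : Set ι)) =
        Ideal.span (G '' (s : Set ι)) ⊔ Ideal.span {G k} := by
      rw [Finset.coe_insert, Set.image_insert_eq, Ideal.span_insert, sup_comm]
    rw [h7]
    refine ⟨h5, fun n hn => ?_⟩
    obtain ⟨n', hn'⟩ := exists_trdeg_eq (K := K) (Ideal.span (G '' (s : Set ι)))
    have h8 := trdeg_quot_lt (K := K) h3 h5 (lt_of_le_of_ne le_sup_left fun h9 => h6 (by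
      rw [h9]
      exact Ideal.mem_sup_right (Ideal.mem_span_singleton_self _))) hn' hn
    have h9 := h4 n' hn'
    rw [Finset.card_insert_of_notMem hk]
    omega

lemma eq_of_forms (h2 : ∀ k, G k ∈ supported K {j | β j = k}) {s : Finset ι}
    (hs : ∀ k ∈ s, Prime (G k)) {t : ℕ} (ht : N ≤ t + s.card)
    {P : Ideal (MvPolynomial (Fin N) K)} (hP : P.IsPrime)
    (htr : Algebra.trdeg K (MvPolynomial (Fin N) K ⧸ P) = t) (hGP : ∀ k ∈ s, G k ∈ P) :
    P = Ideal.span (G '' (s : Set ι)) := by
  obtain ⟨h3, h4⟩ := isPrime_forms h2 s hs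
  have h5 : Ideal.span (G '' (s : Set ι)) ≤ P := by
    rw [Ideal.span_le]
    rintro _ ⟨k, hk, rfl⟩
    exact hGP k hk
  by_contra hcon
  obtain ⟨n', hn'⟩ := exists_trdeg_eq (K := K) (Ideal.span (G '' (s : Set ι)))
  have h8 := trdeg_quot_lt (K := K) h3 hP (lt_of_le_of_ne h5 (Ne.symm hcon)) hn' htr
  have h9 := h4 n' hn'
  omega

end blocks

end Pool.Agent.H835.AV
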