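import Pool.Agent.H835.AV.SpSum
import Pool.Agent.H835.AV.PrimeSum
import Pool.Agent.H835.AV.CodMain

set_option autoImplicit false
set_option linter.unusedSectionVars false

/-!
# Cycles whose codimension is the number of blocks minus one
-/

universe u

namespace Pool.Agent.H835.AV

open MvPolynomial Pool.Agent.W5h86.HC

section factors

variable {K : Type u} [Field K] {N : ℕ}

/-- Factors of homogeneous polynomials are homogeneous. -/
lemma isHomogeneous_of_dvd {p h : MvPolynomial (Fin N) K} {n : ℕ} (hh : IsHomogeneous h n)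
    (h0 : h ≠ 0) (hp : p ∣ h) : ∃ d, IsHomogeneous p d := by
  have hsupp : ∀ f : MvPolynomial (Fin N) K,
      f ∈ supported K {j | (fun _ : Fin N => ()) j = ()} := by
    intro f
    have h1 : ({j | (fun _ : Fin N => ()) j = ()} : Set (Fin N)) = Set.univ := by
      ext j
      simp
    rw [h1, supported_univ]
    exact Algebra.mem_top
  obtain ⟨d, hd⟩ := gr_of_dvd (β := fun _ : Fin N => ()) (k := ()) h0
    (gr_of_supported hh (hsupp h)) hp
  refine ⟨d, ?_⟩
  have h1 : gr (fun _ : Fin N => ()) () p = ∑ i ∈ Finset.range (p.totalDegree + 1),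
      Polynomial.C (homogeneousComponent i p) * Polynomial.X ^ i := by
    conv_lhs => rw [← sum_homogeneousComponent p]
    rw [map_sum]
    exact Finset.sum_congr rfl fun i _ =>
      gr_of_supported (homogeneousComponent_isHomogeneous i p) (hsupp _)
  have h2 := congrArg (fun P => Polynomial.coeff P d) (hd.symm.trans h1)
  simp only [Polynomial.coeff_C_mul_X_pow, if_pos, Polynomial.finsetSum_coeff] at h2
  rw [Finset.sum_ite_eq] at h2
  split_ifs at h2 with h3
  · rw [h2]
    exact homogeneousComponent_isHomogeneous d p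
  · rw [h2]
    exact isHomogeneous_zero _ _ _

/-- Factors of polynomials in some of the variables. -/
lemma mem_supported_of_dvd {p h : MvPolynomial (Fin N) K} {B : Set (Fin N)}
    (hh : h ∈ supported K B) (h0 : h ≠ 0) (hp : p ∣ h) : p ∈ supported K B := by
  classical
  obtain ⟨q, rfl⟩ := hp
  have hp0 : p ≠ 0 := left_ne_zero_of_mul h0
  have hq0 : q ≠ 0 := right_ne_zero_of_mul h0
  rw [mem_supported]
  intro j hj
  by_contra hcon
  have h1 := degreeOf_of_supported hh hcon
  rw [degreeOf_mul_eq hp0 hq0] at h1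
  obtain ⟨d, hd, hdj⟩ := (mem_vars_iff_mem_support j).1 (Finset.mem_coe.1 hj)
  have h4 : degreeOf j p = 0 := by omega
  rw [degreeOf_eq_sup, ← bot_eq_zero, Finset.sup_eq_bot_iff] at h4
  exact (Finsupp.mem_support_iff.1 hdj) (h4 d hd)

/-- A prime ideal which contains `F` contains a prime factor of `F`. -/
lemma exists_prime_factor_mem {F : MvPolynomial (Fin N) K} (hF0 : F ≠ 0)
    {P : Ideal (MvPolynomial (Fin N) K)} (hP : P.IsPrime) (hF : F ∈ P) :
    ∃ p, Prime p ∧ p ∣ F ∧ p ∈ P := by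
  obtain ⟨s, hs, hsF⟩ := UniqueFactorizationMonoid.exists_prime_factors F hF0
  have h1 : s.prod ∈ P := by
    obtain ⟨v, hv⟩ := hsF
    have h2 : s.prod * v ∈ P := by
      rw [hv]
      exact hF
    refine (hP.mem_or_mem h2).resolve_right fun h3 => ?_
    exact hP.ne_top (Ideal.eq_top_of_isUnit_mem _ h3 v.isUnit)
  obtain ⟨p, hp, hpP⟩ := (hP.multiset_prod_mem_iff_exists_mem s).1 h1
  exact ⟨p, hs p hp, (Multiset.dvd_prod hp).trans hsF.dvd, hpP⟩

end factors

section border

variable {K : Type u} [Field K] [IsAlgClosed K] {N : ℕ} {ι : Type} [Fintype ι] [DecidableEq ι]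
  {β : Fin N → ι} {F : ι → MvPolynomial (Fin N) K}

/-- The components of the closed subset where all forms vanish are equivalent to zero outside of
a hyperplane. -/
theorem pt_mem_of_forms {n t : ℕ} (h1 : ∀ k, IsHomogeneous (F k) n)
    (h2 : ∀ k, F k ∈ supported K {j | β j = k}) {T : Finset ι} (hT : ∀ k, k ∈ T ↔ F k ≠ 0)
    {l₀ l₁ : ι} (hl₀ : l₀ ∈ T) (hl₁ : l₁ ∈ T) (hne : l₁ ≠ l₀) (hprime : Prime (F l₀))
    (ht : t + T.card = N) {l : MvPolynomial (Fin N) K} {P : Ideal (MvPolynomial (Fin N) K)}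
    (hP : IsSub t l P) (hJ : ∀ k, F k ∈ P) : pt P ∈ IRel (Ideal.span {∑ k, F k}) t l := by
  have hex : ∀ k, ∃ g, (∃ d, IsHomogeneous g d) ∧ g ∈ supported K {j | β j = k} ∧ g ∣ F k ∧
      g ∈ P ∧ (k ∈ T → Prime g) ∧ (k = l₀ → g = F k) := by
    intro k
    by_cases hk : k = l₀
    · refine ⟨F k, ⟨n, h1 k⟩, h2 k, dvd_rfl, hJ k, fun _ => ?_, fun _ => rfl⟩
      rw [hk]
      exact hprime
    · by_cases hkT : k ∈ T
      · obtain ⟨p, hp1, hp2, hp3⟩ := exists_prime_factor_mem ((hT k).1 hkT) hP.prime (hJ k)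
        exact ⟨p, isHomogeneous_of_dvd (h1 k) ((hT k).1 hkT) hp2,
          mem_supported_of_dvd (h2 k) ((hT k).1 hkT) hp2, hp2, hp3, fun _ => hp1,
          fun h => absurd h hk⟩
      · exact ⟨F k, ⟨n, h1 k⟩, h2 k, dvd_rfl, hJ k, fun h => absurd h hkT, fun h => absurd h hk⟩
  choose g hgh hgs hg1 hg2 hg3 hg4 using hex
  have hPg : P = Ideal.span (g '' (T : Set ι)) :=
    eq_of_forms hgs hg3 ht.ge hP.prime hP.trdeg fun k _ => hg2 k
  -- a subvariety of dimension one more
  have hcard : (T.erase l₀).card = T.card - 1 := Finset.card_erase_of_mem hl₀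
  have hT1 : 1 ≤ T.card := Finset.card_pos.2 ⟨l₀, hl₀⟩
  let eq := ((T.erase l₀).equivFinOfCardEq hcard).symm
  let G' : Fin (T.card - 1) → MvPolynomial (Fin N) K := fun i =>
    if ((eq i : {x // x ∈ T.erase l₀}) : ι) = l₁ then F l₀ + F l₁ else g (eq i : {x // x ∈ T.erase l₀})
  have hG'1 : ∀ i, ∃ d, IsHomogeneous (G' i) d := by
    intro i
    simp only [G']
    split_ifs
    · exact ⟨n, (h1 l₀).add (h1 l₁)⟩
    · exact hgh _
  have hG'2 : ∀ i, G' i ∈ P := by
    intro i
    simp only [G']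
    split_ifs
    · exact P.add_mem (hJ l₀) (hJ l₁)
    · exact hg2 _
  obtain ⟨Q, hQ, hQ2, hQP⟩ := exists_isSub_component G' hG'1 hP hG'2 (by omega)
  have hQ01 : F l₀ + F l₁ ∈ Q := by
    have h3 := hQ2 (eq.symm ⟨l₁, Finset.mem_erase.2 ⟨hne, hl₁⟩⟩)
    simp only [G', Equiv.apply_symm_apply, if_pos] at h3
    exact h3
  have hQk : ∀ k ∈ T, k ≠ l₀ → k ≠ l₁ → g k ∈ Q := by
    intro k hk hk0 hk1
    have h3 := hQ2 (eq.symm ⟨k, Finset.mem_erase.2 ⟨hk0, hk⟩⟩)
    simp only [G', Equiv.apply_symm_apply, if_neg hk1] at h3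
    exact h3
  have hmemF : ∀ (R : Ideal (MvPolynomial (Fin N) K)) k, g k ∈ R → F k ∈ R := by
    intro R k h3
    obtain ⟨q, hq⟩ := hg1 k
    rw [hq]
    exact R.mul_mem_right _ h3
  have hIQ : Ideal.span {∑ k, F k} ≤ Q := by
    rw [Ideal.span_singleton_le_iff_mem, ← Finset.add_sum_erase Finset.univ F (Finset.mem_univ l₀),
      ← Finset.add_sum_erase (Finset.univ.erase l₀) F
        (Finset.mem_erase.2 ⟨hne, Finset.mem_univ l₁⟩), ← add_assoc]
    refine Q.add_mem hQ01 (Q.sum_mem fun k hk => ?_)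
    rw [Finset.mem_erase, Finset.mem_erase] at hk
    by_cases hkT : k ∈ T
    · exact hmemF Q k (hQk k hkT hk.2.1 hk.1)
    · have h3 : F k = 0 := by
        by_contra hcon
        exact hkT ((hT k).2 hcon)
      rw [h3]
      exact Q.zero_mem
  -- the ideals which contain all factors
  have hall : ∀ R : Ideal (MvPolynomial (Fin N) K), Q ≤ R → g l₁ ∈ R → ∀ k ∈ T, g k ∈ R := by
    intro R hQR h3 k hk
    by_cases hk0 : k = l₀
    · rw [hk0, hg4 l₀ rfl]
      have h4 := R.sub_mem (hQR hQ01) (hmemF R l₁ h3)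
      rw [add_sub_cancel_right] at h4
      exact h4
    · by_cases hk1 : k = l₁
      · rw [hk1]
        exact h3
      · exact hQR (hQk k hk hk0 hk1)
  have hgQ : g l₁ ∉ Q := by
    intro h3
    have h4 := eq_of_forms hgs hg3 (t := t + 1) (by omega) hQ.prime hQ.trdeg
      (hall Q le_rfl h3)
    have h5 := (isPrime_forms hgs T hg3).2 (t + 1) (by rw [← h4]; exact hQ.trdeg)
    omega
  have hmem : idiv t l Q (g l₁) ∈ IRel (Ideal.span {∑ k, F k}) t l := by
    obtain ⟨d, hd⟩ := hgh l₁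
    exact Submodule.subset_span ⟨Q, g l₁, d, hQ, hIQ, hd, hgQ, rfl⟩
  have hval : idiv t l Q (g l₁) = (mult (Q ⊔ Ideal.span {g l₁}) P : ℚ) • pt P := by
    classical
    funext P'
    rw [Pi.smul_apply, smul_eq_mul]
    unfold pt
    by_cases hPP : P' = P
    · rw [hPP, Pi.single_eq_same, mul_one, idiv_of hP]
    · rw [Pi.single_eq_of_ne hPP, mul_zero]
      by_contra hcon
      obtain ⟨h3, h4, h5⟩ := le_of_idiv_ne_zero hcon
      apply hPP
      rw [hPg]
      exact eq_of_forms hgs hg3 ht.ge h3.prime h3.trdeg (hall P' h4 h5)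
  have hmult : (mult (Q ⊔ Ideal.span {g l₁}) P : ℚ) ≠ 0 := by
    rw [Nat.cast_ne_zero]
    apply mult_ne_zero
    refine mem_minimalPrimes (K := K) hP.prime hQ.prime hP.trdeg hQ.trdeg le_sup_left hgQ
      (Ideal.mem_sup_right (Ideal.mem_span_singleton_self _)) (sup_le hQP ?_)
    rw [Ideal.span_singleton_le_iff_mem]
    exact hg2 l₁
  rw [hval] at hmem
  have h3 := Submodule.smul_mem _ (mult (Q ⊔ Ideal.span {g l₁}) P : ℚ)⁻¹ hmem
  rw [smul_smul, inv_mul_cancel₀ hmult, one_smul] at h3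
  exact h3

variable {m : ℕ} [NeZero m] {e : AddChar (ZMod m) K}

/-- Averages of the cycles of codimension one less than the number of blocks. -/
theorem border_low {n t : ℕ} (he : Good e n) (h1 : ∀ k, IsHomogeneous (F k) n)
    (h2 : ∀ k, F k ∈ supported K {j | β j = k}) {T : Finset ι} (hT : ∀ k, k ∈ T ↔ F k ≠ 0)
    {l₀ l₁ : ι} (hl₀ : l₀ ∈ T) (hl₁ : l₁ ∈ T) (hne : l₁ ≠ l₀) (hprime : Prime (F l₀))
    (ht : t + T.card = N) {b : Fin N} {P : Ideal (MvPolynomial (Fin N) K)}
    (hP : IsSub t (X b) P) (hIP : ∑ k, F k ∈ P) :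
    av e β (pt P) ∈ IRel (Ideal.span {∑ k, F k}) t (X b) := by
  have hT2 : 1 < T.card := Finset.one_lt_card.2 ⟨l₀, hl₀, l₁, hl₁, hne.symm⟩
  have h3 := sum_low (t := t) (b := b) he (by omega) h1 h2 hP hIP
  refine (sup_le le_rfl ?_ : SRel _ _ t (X b) ≤ IRel (Ideal.span {∑ k, F k}) t (X b)) h3
  unfold sp
  rw [Submodule.span_le]
  rintro _ ⟨Q, hQ, hJ, rfl⟩
  exact pt_mem_of_forms h1 h2 hT hl₀ hl₁ hne hprime ht hQ fun k =>
    hJ (Ideal.subset_span ⟨k, rfl⟩)

/-- **Averages of the cycles of codimension one less than the number of blocks.** -/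
theorem border_proj {n t : ℕ} (he : Good e n) (h1 : ∀ k, IsHomogeneous (F k) n)
    (h2 : ∀ k, F k ∈ supported K {j | β j = k}) {T : Finset ι} (hT : ∀ k, k ∈ T ↔ F k ≠ 0)
    {l₀ l₁ : ι} (hl₀ : l₀ ∈ T) (hl₁ : l₁ ∈ T) (hne : l₁ ≠ l₀) (hprime : Prime (F l₀))
    (ht : t + T.card = N) (ht1 : 1 ≤ t) {u v : Fin N} (huv : v ≠ u) (hu : β u = l₀)
    (hv : β v = l₀) : AvTriv e β t (Ideal.span {∑ k, F k}) := by
  classical
  -- a variable which does not divide the prime form
  wlog hX : ¬ (X u ∣ F l₀) generalizing u v with H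
  · push Not at hX
    refine H (u := v) (v := u) huv.symm hv hu fun h3 => ?_
    obtain ⟨q, hq⟩ := hX
    have h4 : (X v : MvPolynomial (Fin N) K) ∣ X u := by
      rcases (hprime.irreducible).isUnit_or_isUnit hq with h5 | h5
      · exact absurd h5 (X_prime (R := K) (i := u)).not_isUnit
      · have h6 : Associated (X u : MvPolynomial (Fin N) K) (F l₀) := by
          rw [hq]
          exact (associated_mul_unit_left _ _ h5).symm
        exact h3.trans h6.symm.dvd
    have h5 : (X u : MvPolynomial (Fin N) K) ∈ Ideal.span {X v} := Ideal.mem_span_singleton.2 h4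
    have h6 : (Ideal.span {(X v : MvPolynomial (Fin N) K)}) ≤
        RingHom.ker (aeval (R := K) fun j => if j = v then (0 : K) else 1) := by
      rw [Ideal.span_singleton_le_iff_mem, RingHom.mem_ker, aeval_X, if_pos rfl]
    have h7 := h6 h5
    rw [RingHom.mem_ker, aeval_X, if_neg huv.symm] at h7
    exact one_ne_zero h7
  obtain ⟨M, rfl⟩ : ∃ M, N = M + 1 := ⟨N - 1, by
    have := u.pos
    omega⟩
  have hT2 : 1 < T.card := Finset.one_lt_card.2 ⟨l₀, hl₀, l₁, hl₁, hne.symm⟩
  have hst : Stable e β (Ideal.span {∑ k, F k}) := by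
    intro a
    rw [Ideal.span_singleton_le_iff_mem, Ideal.mem_comap,
      (show SF β n (∑ k, F k) from ⟨F, h1, h2, rfl⟩).inv he.dvd]
    exact Ideal.mem_span_singleton_self _
  obtain ⟨h3, h4, h5⟩ := zi_blocks h1 h2 u
  obtain ⟨k, c, hdim, hmem⟩ : AvTriv e (β ∘ u.succAbove) t (zI u (Ideal.span {∑ k, F k})) := by
    refine gen_proj2 (cls_CCS n) M K e _ t 1 _ (Or.inr ⟨he, rfl, _, h3, h4, h5, ?_⟩)
      (by omega) ht1
    have h6 : T ⊆ Finset.univ.filter fun k => lsub K (zi K u) (F k) ≠ 0 := by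
      intro k hk
      rw [Finset.mem_filter]
      refine ⟨Finset.mem_univ k, ?_⟩
      by_cases hk0 : k = l₀
      · intro h7
        have h8 := lsub_param_eq_zero (mul_zi u) h7
        rw [lform_single] at h8
        rw [hk0] at h8
        exact hX (Ideal.mem_span_singleton.1 h8)
      · refine lsub_zi_ne_zero (supported_ne ?_ (h2 k)) ((hT k).1 hk)
        rw [hu]
        exact hk0
    have h7 := Finset.card_le_card h6
    omega
  refine ⟨k + 1, Fin.cons u fun i => u.succAbove (c i), dimLe_cons u hdim, ?_⟩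
  set I := Ideal.span {∑ k, F k} with hI
  set S := Submodule.span ℚ {icyc t (secI I (Fin.cons u fun i => u.succAbove (c i)))} ⊔
    IRatEq I t with hS
  have key2 : ∀ P, IsSub t 1 P → I ≤ P → X u ∈ P → av e β (pt P) ∈ S := by
    intro P hP hIP hlP
    obtain ⟨P', hP', hPP'⟩ := exists_isSub_zi u hP hlP
    rw [map_one] at hP'
    have h4 := hmem P' hP' (zI_le (by rw [hPP']; exact hIP))
    have h5 := Submodule.mem_map_of_mem (f := push (lsub K (zi K u)) 1 t) h4
    rw [push_av_zi, push_pt (isFib_zi u 1) (by rw [map_one]; exact hP'), hPP',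
      Submodule.map_sup, Submodule.map_span, Set.image_singleton, push_icyc_zi] at h5
    exact (sup_le_sup_left (push_iRatEq_zi u t) _) h5
  intro P hP hIP
  by_cases hlP : X u ∈ P
  · exact key2 P hP hIP hlP
  · have h4 := border_low he h1 h2 hT hl₀ hl₁ hne hprime ht (b := u) (isSub_iff.2 ⟨hP, hlP⟩)
      (hIP (Ideal.mem_span_singleton_self _))
    have h5 : IRatEq I t ≤ S.comap (av e β) :=
      (iRatEq_le_av hst).trans (Submodule.comap_mono le_sup_right)
    have h6 := iRel_le (I := I) (t := t) (r := Pi.single u (1 : K)) h5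
      fun P₂ hP₂ hIP₂ hu₂ => by
        rw [lform_single] at hu₂
        exact key2 P₂ hP₂ hIP₂ hu₂
    rw [lform_single] at h6
    exact av_mem_of_av_av_mem (h6 h4)

end border

end Pool.Agent.H835.AV
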