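import Mathlib

set_option autoImplicit false

/-!
# Families of residues with sum zero: partitions in blocks with sum zero
-/

namespace Pool.Agent.H835.AV

variable {m : ℕ} [NeZero m] {ι : Type} [DecidableEq ι]

/-- Among `m` residues modulo `m` there are some with sum zero. -/
lemma exists_zero_sum {x : ι → ZMod m} {U : Finset ι} (hU : m ≤ U.card) :
    ∃ V ⊆ U, V.Nonempty ∧ V.card ≤ m ∧ ∑ j ∈ V, x j = 0 := by
  obtain ⟨U', hU', hcard⟩ := Finset.exists_subset_card_eq hU
  let e : Fin m ≃ U' := (Finset.equivFinOfCardEq hcard).symm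
  let s : Fin (m + 1) → ZMod m := fun k => ∑ i : Fin m, if i.1 < k.1 then x (e i) else 0
  obtain ⟨k, l, hkl, hs⟩ : ∃ k l, k ≠ l ∧ s k = s l := by
    apply Fintype.exists_ne_map_eq_of_card_lt
    rw [ZMod.card, Fintype.card_fin]
    omega
  wlog hlt : k < l generalizing k l
  · exact this l k hkl.symm hs.symm (lt_of_le_of_ne (not_lt.1 hlt) hkl.symm)
  set J : Finset (Fin m) := Finset.univ.filter fun i => k.1 ≤ i.1 ∧ i.1 < l.1 with hJ
  refine ⟨J.image fun i => (e i : ι), ?_, ?_, ?_, ?_⟩
  · intro j hj
    obtain ⟨i, -, rfl⟩ := Finset.mem_image.1 hj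
    exact hU' (e i).2
  · have h1 : k.1 < m := by
      have := l.2
      have := Fin.lt_def.1 hlt
      omega
    refine ⟨e ⟨k.1, h1⟩, Finset.mem_image_of_mem _ ?_⟩
    rw [hJ, Finset.mem_filter]
    exact ⟨Finset.mem_univ _, le_rfl, hlt⟩
  · refine Finset.card_image_le.trans ((Finset.card_le_univ _).trans ?_)
    rw [Fintype.card_fin]
  · rw [Finset.sum_image]
    · have h2 : s l - s k = ∑ i ∈ J, x (e i) := by
        rw [hJ, Finset.sum_filter]
        simp only [s]
        rw [← Finset.sum_sub_distrib]
        refine Finset.sum_congr rfl fun i _ => ?_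
        have h3 := Fin.lt_def.1 hlt
        by_cases h4 : i.1 < k.1
        · rw [if_pos h4, if_pos (by omega), if_neg (by omega), sub_self]
        · by_cases h5 : i.1 < l.1
          · rw [if_neg h4, if_pos h5, if_pos ⟨by omega, h5⟩, sub_zero]
          · rw [if_neg h4, if_neg h5, if_neg (by omega), sub_zero]
      rw [← h2, hs, sub_self]
    · intro i _ j _ hij
      exact e.injective (Subtype.ext hij)

/-- Labels with `t + 1` values and sums zero. -/
lemma exists_labels {x : ι → ZMod m} : ∀ (t : ℕ) (S : Finset ι), m * t < S.card →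
    ∑ j ∈ S, x j = 0 → ∃ f : ι → ℕ, (∀ a ≤ t, ∃ j ∈ S, f j = a) ∧ (∀ j ∈ S, f j ≤ t) ∧
      ∀ a, ∑ j ∈ S with f j = a, x j = 0 := by
  intro t
  induction t with
  | zero =>
    intro S hS hsum
    rw [mul_zero, Finset.card_pos] at hS
    obtain ⟨j, hj⟩ := hS
    refine ⟨fun _ => 0, ?_, ?_, ?_⟩
    · intro a ha
      exact ⟨j, hj, (Nat.le_zero.1 ha).symm⟩
    · intro _ _
      exact le_rfl
    · intro a
      by_cases ha : 0 = a
      · rw [Finset.filter_true_of_mem fun _ _ => ha]
        exact hsum
      · rw [Finset.filter_false_of_mem fun _ _ => ha, Finset.sum_empty]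
  | succ t ih =>
    intro S hS hsum
    obtain ⟨V, hVS, hV, hVm, hVsum⟩ := exists_zero_sum (x := x) (U := S) (by
      have : m * 1 ≤ m * (t + 1) := Nat.mul_le_mul_left m (by omega)
      omega)
    have hsd := Finset.card_sdiff_of_subset hVS
    obtain ⟨f, h1, h2, h3⟩ := ih (S \ V) (by
      rw [hsd]
      have : m * (t + 1) = m * t + m := by ring
      omega) (by
      have h4 := Finset.sum_sdiff (f := x) hVS
      rw [hVsum, add_zero] at h4
      rw [h4]
      exact hsum)
    refine ⟨fun j => if j ∈ V then t + 1 else f j, ?_, ?_, ?_⟩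
    · intro a ha
      rcases Nat.lt_or_ge a (t + 1) with h4 | h4
      · obtain ⟨j, hj, hfj⟩ := h1 a (by omega)
        rw [Finset.mem_sdiff] at hj
        exact ⟨j, hj.1, (if_neg hj.2).trans hfj⟩
      · obtain ⟨j, hj⟩ := hV
        exact ⟨j, hVS hj, (if_pos hj).trans (by omega)⟩
    · intro j hj
      beta_reduce
      split_ifs with h4
      · exact le_rfl
      · exact (h2 j (Finset.mem_sdiff.2 ⟨hj, h4⟩)).trans (Nat.le_succ t)
    · intro a
      rcases Nat.lt_or_ge a (t + 1) with h4 | h4
      · have h5 : (S.filter fun j => (if j ∈ V then t + 1 else f j) = a) =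
            (S \ V).filter fun j => f j = a := by
          ext j
          rw [Finset.mem_filter, Finset.mem_filter, Finset.mem_sdiff]
          split_ifs with h6
          · constructor
            · rintro ⟨-, h7⟩
              omega
            · rintro ⟨⟨-, h7⟩, -⟩
              exact absurd h6 h7
          · constructor
            · rintro ⟨h7, h8⟩
              exact ⟨⟨h7, h6⟩, h8⟩
            · rintro ⟨⟨h7, -⟩, h8⟩
              exact ⟨h7, h8⟩
        rw [h5]
        exact h3 a
      · by_cases h5 : a = t + 1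
        · have h6 : (S.filter fun j => (if j ∈ V then t + 1 else f j) = a) = V := by
            ext j
            rw [Finset.mem_filter]
            split_ifs with h6
            · exact ⟨fun _ => h6, fun _ => ⟨hVS h6, h5.symm⟩⟩
            · constructor
              · rintro ⟨h7, h8⟩
                have := h2 j (Finset.mem_sdiff.2 ⟨h7, h6⟩)
                omega
              · intro h7
                exact absurd h7 h6
          rw [h6]
          exact hVsum
        · rw [Finset.filter_false_of_mem, Finset.sum_empty]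
          intro j hj
          beta_reduce
          split_ifs with h6
          · omega
          · have := h2 j (Finset.mem_sdiff.2 ⟨hj, h6⟩)
            omega

/-- From labels to a map of the index set to itself. -/
lemma exists_merge [Fintype ι] {x : ι → ZMod m} {t : ℕ} {f : ι → ℕ}
    (h1 : ∀ a ≤ t, ∃ j, f j = a) (h2 : ∀ j, f j ≤ t)
    (h3 : ∀ a, ∑ j with f j = a, x j = 0) :
    ∃ π : ι → ι, (Finset.univ.image π).card = t + 1 ∧ ∀ k, ∑ j with π j = k, x j = 0 := by
  have hne : Nonempty ι := by
    obtain ⟨j, -⟩ := h1 0 (Nat.zero_le _)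
    exact ⟨j⟩
  choose! r hr using h1
  refine ⟨fun j => r (f j), ?_, ?_⟩
  · have h4 : Finset.univ.image (fun j => r (f j)) = (Finset.range (t + 1)).image r := by
      ext k
      rw [Finset.mem_image, Finset.mem_image]
      constructor
      · rintro ⟨j, -, rfl⟩
        exact ⟨f j, Finset.mem_range.2 (Nat.lt_succ_of_le (h2 j)), rfl⟩
      · rintro ⟨a, ha, rfl⟩
        refine ⟨r a, Finset.mem_univ _, ?_⟩
        rw [hr a (Nat.lt_succ_iff.1 (Finset.mem_range.1 ha))]
    rw [h4, Finset.card_image_of_injOn, Finset.card_range]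
    intro a ha b hb hab
    rw [Finset.coe_range, Set.mem_Iio] at ha hb
    rw [← hr a (by omega), ← hr b (by omega), hab]
  · intro k
    by_cases hk : ∃ j, r (f j) = k
    · obtain ⟨j₀, rfl⟩ := hk
      have h5 : (Finset.univ.filter fun j => r (f j) = r (f j₀)) =
          Finset.univ.filter fun j => f j = f j₀ := by
        ext j
        rw [Finset.mem_filter, Finset.mem_filter]
        refine and_congr_right fun _ => ⟨fun h6 => ?_, fun h6 => by rw [h6]⟩
        rw [← hr (f j) (h2 j), ← hr (f j₀) (h2 j₀), h6]
      rw [h5]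
      exact h3 _
    · rw [Finset.filter_false_of_mem, Finset.sum_empty]
      intro j _ h6
      exact hk ⟨j, h6⟩

/-- **Merging**: more than `m t` residues with sum zero. -/
theorem exists_merge_of_card [Fintype ι] {x : ι → ZMod m} {t : ℕ} (hcard : m * t < Fintype.card ι)
    (hsum : ∑ j, x j = 0) :
    ∃ π : ι → ι, (Finset.univ.image π).card = t + 1 ∧ ∀ k, ∑ j with π j = k, x j = 0 := by
  obtain ⟨f, h1, h2, h3⟩ := exists_labels (x := x) t Finset.univ (by
    rw [Finset.card_univ]
    exact hcard) hsum
  exact exists_merge (fun a ha => by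
    obtain ⟨j, -, hj⟩ := h1 a ha
    exact ⟨j, hj⟩) (fun j => h2 j (Finset.mem_univ _)) h3

end Pool.Agent.H835.AV
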