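import Pool.Agent.H835.AV.SF
import Pool.Agent.H835.AV.Comb

set_option autoImplicit false
set_option linter.unusedSectionVars false

/-!
# From averages to all cycles
-/

universe u

namespace Pool.Agent.H835.AV

open MvPolynomial Pool.Agent.W5h86.HC

section fourier

variable {m : ℕ} {ι : Type} [Fintype ι] [DecidableEq ι] [NeZero m]

/-- the standard character of `(ℤ/m)^ι` given by `x` -/
noncomputable def ch (x g : ι → ZMod m) : ℂ := ZMod.stdAddChar (∑ k, x k * g k)

lemma ch_add_right (x g h : ι → ZMod m) : ch x (g + h) = ch x g * ch x h := by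
  unfold ch
  rw [← AddChar.map_add_eq_mul, ← Finset.sum_add_distrib]
  congr 1
  refine Finset.sum_congr rfl fun k _ => ?_
  rw [Pi.add_apply, mul_add]

lemma ch_add_left (x y g : ι → ZMod m) : ch (x + y) g = ch x g * ch y g := by
  unfold ch
  rw [← AddChar.map_add_eq_mul, ← Finset.sum_add_distrib]
  congr 1
  refine Finset.sum_congr rfl fun k _ => ?_
  rw [Pi.add_apply, add_mul]

lemma ch_ne_one {x g : ι → ZMod m} (h : ∑ k, x k * g k ≠ 0) : ch x g ≠ 1 := by
  unfold ch
  intro h1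
  apply h
  apply ZMod.injective_stdAddChar
  rw [h1, AddChar.map_zero_eq_one]

lemma ch_eq_one {x g : ι → ZMod m} (h : ∑ k, x k * g k = 0) : ch x g = 1 := by
  unfold ch
  rw [h, AddChar.map_zero_eq_one]

lemma sum_ch {g : ι → ZMod m} (hg : g ≠ 0) : ∑ x : ι → ZMod m, ch x g = 0 := by
  obtain ⟨k, hk⟩ := Function.ne_iff.1 hg
  have h1 : ∑ x : ι → ZMod m, ch x g = ∑ x : ι → ZMod m, ch (x + Pi.single k 1) g :=
    (Fintype.sum_equiv (Equiv.addRight (Pi.single k 1)) _ _ fun x => rfl).symm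
  simp only [ch_add_left] at h1
  rw [← Finset.sum_mul] at h1
  have h2 : ch (Pi.single k (1 : ZMod m)) g ≠ 1 := by
    apply ch_ne_one
    rw [Finset.sum_eq_single k]
    · rw [Pi.single_eq_same, one_mul]
      exact hk
    · intro j _ hj
      rw [Pi.single_eq_of_ne hj, zero_mul]
    · simp
  have h3 : (∑ x : ι → ZMod m, ch x g) * (ch (Pi.single k (1 : ZMod m)) g - 1) = 0 := by
    rw [mul_sub, mul_one, ← h1, sub_self]
  exact (mul_eq_zero.1 h3).resolve_right (sub_ne_zero.2 h2)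

/-- Parseval. -/
lemma pairing_eq_zero {z L : (ι → ZMod m) → ℂ}
    (h : ∀ x : ι → ZMod m, ∑ g, z g * ch x g = 0 ∨ ∑ g, L g * ch (-x) g = 0) :
    ∑ g, z g * L g = 0 := by
  have h1 : ∑ x : ι → ZMod m, (∑ g, z g * ch x g) * (∑ g, L g * ch (-x) g) = 0 := by
    refine Finset.sum_eq_zero fun x _ => ?_
    rcases h x with h2 | h2 <;> rw [h2] <;> ring
  have h2 : ∀ x g g' : ι → ZMod m, ch x g * ch (-x) g' = ch x (g - g') := by
    intro x g g'
    unfold ch
    rw [← AddChar.map_add_eq_mul, ← Finset.sum_add_distrib]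
    congr 1
    refine Finset.sum_congr rfl fun k _ => ?_
    rw [Pi.neg_apply, Pi.sub_apply]
    ring
  have h3 : ∑ x : ι → ZMod m, (∑ g, z g * ch x g) * (∑ g, L g * ch (-x) g) =
      ∑ g, ∑ g', z g * L g' * ∑ x : ι → ZMod m, ch x (g - g') := by
    have h4 : ∀ x : ι → ZMod m, (∑ g, z g * ch x g) * (∑ g, L g * ch (-x) g) =
        ∑ g, ∑ g', z g * L g' * ch x (g - g') := by
      intro x
      rw [Finset.sum_mul_sum]
      refine Finset.sum_congr rfl fun g _ => Finset.sum_congr rfl fun g' _ => ?_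
      rw [← h2]
      ring
    rw [Finset.sum_congr rfl fun x _ => h4 x, Finset.sum_comm]
    refine Finset.sum_congr rfl fun g _ => ?_
    rw [Finset.sum_comm]
    refine Finset.sum_congr rfl fun g' _ => ?_
    rw [Finset.mul_sum]
  rw [h3] at h1
  have h4 : ∀ g g' : ι → ZMod m, z g * L g' * ∑ x : ι → ZMod m, ch x (g - g') =
      if g' = g then (Fintype.card (ι → ZMod m) : ℂ) * (z g * L g) else 0 := by
    intro g g'
    by_cases hg : g' = g
    · rw [if_pos hg, hg, sub_self]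
      have h5 : ∀ x : ι → ZMod m, ch x 0 = 1 := fun x => ch_eq_one (by simp)
      simp only [h5, Finset.sum_const, Finset.card_univ, nsmul_eq_mul, mul_one]
      ring
    · rw [if_neg hg, sum_ch (sub_ne_zero.2 fun h => hg h.symm), mul_zero]
  simp only [h4, Finset.sum_ite_eq', Finset.mem_univ, if_true] at h1
  rw [← Finset.mul_sum] at h1
  exact (mul_eq_zero.1 h1).resolve_left (Nat.cast_ne_zero.2 Fintype.card_ne_zero)

lemma sum_ch_of_fibres {L : (ι → ZMod m) → ℚ} {π : ι → ι}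
    (hL : ∀ g : ι → ZMod m, ∑ a : ι → ZMod m, L (g + a ∘ π) = 0) {x : ι → ZMod m}
    (hx : ∀ k, ∑ j with π j = k, x j = 0) : ∑ g, (L g : ℂ) * ch (-x) g = 0 := by
  have h7 : ∀ a : ι → ZMod m, ch (-x) (a ∘ π) = 1 := by
    intro a
    apply ch_eq_one
    rw [← Finset.sum_fiberwise Finset.univ π]
    refine Finset.sum_eq_zero fun k _ => ?_
    have h8 : ∑ i with π i = k, (-x) i * (a ∘ π) i = -(∑ i with π i = k, x i) * a k := by
      rw [neg_mul, Finset.sum_mul, ← Finset.sum_neg_distrib]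
      refine Finset.sum_congr rfl fun i hi => ?_
      rw [Function.comp_apply, (Finset.mem_filter.1 hi).2, Pi.neg_apply, neg_mul]
    rw [h8, hx k, neg_zero, zero_mul]
  have h10 : ∀ a : ι → ZMod m, ∑ g, (L g : ℂ) * ch (-x) g =
      ∑ g, (L (g + a ∘ π) : ℂ) * ch (-x) g := by
    intro a
    rw [← Fintype.sum_equiv (Equiv.addRight (a ∘ π)) (fun g =>
      (L (g + a ∘ π) : ℂ) * ch (-x) (g + a ∘ π)) (fun g => (L g : ℂ) * ch (-x) g)
      fun g => rfl]
    refine Finset.sum_congr rfl fun g _ => ?_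
    rw [ch_add_right, h7, mul_one]
  have h9 : (Fintype.card (ι → ZMod m) : ℂ) * ∑ g, (L g : ℂ) * ch (-x) g = 0 := by
    have h11 : (Fintype.card (ι → ZMod m) : ℂ) * ∑ g, (L g : ℂ) * ch (-x) g =
        ∑ a : ι → ZMod m, ∑ g, (L (g + a ∘ π) : ℂ) * ch (-x) g := by
      rw [← Finset.sum_congr rfl fun a _ => h10 a, Finset.sum_const, Finset.card_univ,
        nsmul_eq_mul]
    rw [h11, Finset.sum_comm]
    refine Finset.sum_eq_zero fun g _ => ?_
    rw [← Finset.sum_mul, ← Rat.cast_sum, hL, Rat.cast_zero, zero_mul]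
  exact (mul_eq_zero.1 h9).resolve_left (Nat.cast_ne_zero.2 Fintype.card_ne_zero)

lemma sum_ch_of_diag {L : (ι → ZMod m) → ℚ} {u : ι → ZMod m} (hu : ∀ k, u k = 1)
    (hL : ∀ g : ι → ZMod m, L (g + u) = L g) {x : ι → ZMod m}
    (hx : ∑ k, x k ≠ 0) : ∑ g, (L g : ℂ) * ch (-x) g = 0 := by
  have h4 : ∑ g, (L g : ℂ) * ch (-x) g = (∑ g, (L g : ℂ) * ch (-x) g) * ch (-x) u := by
    rw [Finset.sum_mul]
    rw [← Fintype.sum_equiv (Equiv.addRight u) (fun g =>
      (L (g + u) : ℂ) * ch (-x) (g + u)) (fun g => (L g : ℂ) * ch (-x) g)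
      fun g => rfl]
    refine Finset.sum_congr rfl fun g _ => ?_
    rw [hL, ch_add_right, mul_assoc]
  have h5 : ch (-x) u ≠ 1 := by
    apply ch_ne_one
    simp only [Pi.neg_apply, hu, mul_one, Finset.sum_neg_distrib]
    exact neg_ne_zero.2 hx
  have h6 : (∑ g, (L g : ℂ) * ch (-x) g) * (ch (-x) u - 1) = 0 := by
    rw [mul_sub, mul_one, ← h4, sub_self]
  exact (mul_eq_zero.1 h6).resolve_right (sub_ne_zero.2 h5)

end fourier

section main

variable {m : ℕ} {ι : Type} [Fintype ι] [DecidableEq ι] [NeZero m] {K : Type u} [Field K] {N : ℕ}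
  {e : AddChar (ZMod m) K} {β : Fin N → ι}

lemma Stable.comp {I : Ideal (MvPolynomial (Fin N) K)} (h : Stable e β I) (f : ι → ι) :
    Stable e (f ∘ β) I := fun a => h (a ∘ f)

/-- Scalar matrices fix the homogeneous ideals. -/
lemma comap_sc_const {P : Ideal (MvPolynomial (Fin N) K)} (hP : IsHomIdeal P) {z z' : K}
    (hz : z * z' = 1) : P.comap (sc fun _ => z) = P := by
  have key : ∀ (y : K) (f : MvPolynomial (Fin N) K), f ∈ P → sc (fun _ => y) f ∈ P := by
    intro y f hf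
    rw [← sum_homogeneousComponent f, map_sum]
    refine Ideal.sum_mem _ fun i _ => ?_
    have h1 : homogeneousComponent i f ∈ supported K (Set.univ : Set (Fin N)) := by
      rw [supported_univ]
      exact Algebra.mem_top
    rw [sc_of_supported (homogeneousComponent_isHomogeneous i f) h1 (z := y) fun _ _ => rfl]
    exact Ideal.mul_mem_left _ _ (hP f hf i)
  apply le_antisymm
  · intro f hf
    rw [Ideal.mem_comap] at hf
    have h1 := key z' _ hf
    rw [sc_sc] at h1
    have h2 : ((fun _ => z') * fun _ => z : Fin N → K) = 1 := by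
      funext j
      rw [Pi.mul_apply, Pi.one_apply, mul_comm, hz]
    rw [h2, sc_one] at h1
    exact h1
  · intro f hf
    exact key z f hf

lemma tr_const {t : ℕ} {P : Ideal (MvPolynomial (Fin N) K)} (hP : IsSub t 1 P) (c : ZMod m) :
    tr (wt e β fun _ => c) (pt P) = pt P := by
  have h1 : e (-c) * e c = 1 := by
    rw [← AddChar.map_add_eq_mul, neg_add_cancel, AddChar.map_zero_eq_one]
  have h2 : wt e β (-(fun _ => c : ι → ZMod m)) = fun _ => e (-c) := by
    funext j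
    simp only [wt, Pi.neg_apply]
  have h3 : P.comap (sc (wt e β (-(fun _ => c : ι → ZMod m)))) = P := by
    rw [h2]
    exact comap_sc_const hP.hom h1
  rw [tr_pt (wt_mul_neg e β (fun _ => c : ι → ZMod m)), h3]

/-- **From averages to all cycles.** -/
theorem char_main {t : ℕ} {I : Ideal (MvPolynomial (Fin N) K)} (hst : Stable e β I)
    {π₀ : ι → ι} (h₀ : AvTriv e (π₀ ∘ β) t I) (z : (ι → ZMod m) → ℚ)
    (hz : ∀ x : ι → ZMod m, ∑ k, x k = 0 → ∑ g, (z g : ℂ) * ch x g ≠ 0 →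
      ∃ π : ι → ι, AvTriv e (π ∘ β) t I ∧ ∀ k, ∑ j with π j = k, x j = 0) :
    ∃ (k : ℕ) (c : Fin k → Fin N), DimLe t (secI I c) ∧ ∀ P, IsSub t 1 P → I ≤ P →
      ∑ g, z g • tr (wt e β g) (pt P) ∈
        Submodule.span ℚ {icyc t (secI I c)} ⊔ IRatEq I t := by
  obtain ⟨k₀, c₀, hdim₀, hmem₀⟩ := h₀
  refine ⟨k₀, c₀, hdim₀, fun P hP hIP => ?_⟩
  set S := Submodule.span ℚ {icyc t (secI I c₀)} ⊔ IRatEq I t with hS
  -- the other sections
  have hsec : ∀ π : ι → ι, AvTriv e (π ∘ β) t I → ∀ P, IsSub t 1 P → I ≤ P →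
      av e (π ∘ β) (pt P) ∈ S := by
    rintro π ⟨k, c, hdim, hmem⟩ P hP hIP
    have h1 : icyc t (secI I c) ∈ S.comap (av e (π₀ ∘ β)) := by
      refine mem_of_support hdim.finite fun P' hP' => ?_
      obtain ⟨h2, h3⟩ := le_of_icyc_ne_zero hP'
      exact hmem₀ P' h2 (le_sup_left.trans h3)
    rw [Submodule.mem_comap, av_of_inv e (π₀ ∘ β)
      (tr_icyc (stable_secI (hst.comp π₀) c) t)] at h1
    have h2 := S.smul_mem (Fintype.card (ι → ZMod m) : ℚ)⁻¹ h1
    rw [smul_smul, inv_mul_cancel₀ card_ne_zero', one_smul] at h2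
    refine (sup_le ?_ le_sup_right : Submodule.span ℚ {icyc t (secI I c)} ⊔ IRatEq I t ≤ S)
      (hmem P hP hIP)
    rw [Submodule.span_le, Set.singleton_subset_iff]
    exact h2
  by_contra hcon
  obtain ⟨L, hLv, hL⟩ := Submodule.exists_le_ker_of_notMem hcon
  apply hLv
  rw [map_sum]
  have h1 : ∀ g, L (z g • tr (wt e β g) (pt P)) = z g * L (tr (wt e β g) (pt P)) := by
    intro g
    rw [map_smul, smul_eq_mul]
  rw [Finset.sum_congr rfl fun g _ => h1 g]
  have h3 : ∀ π : ι → ι, AvTriv e (π ∘ β) t I → ∀ g : ι → ZMod m,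
      ∑ a : ι → ZMod m, L (tr (wt e β (g + a ∘ π)) (pt P)) = 0 := by
    intro π hπ g
    have h4 : tr (wt e β g) (pt P) = pt (P.comap (sc (wt e β (-g)))) :=
      tr_pt (wt_mul_neg e β g) P
    have h5 := hsec π hπ (P.comap (sc (wt e β (-g))))
      ((isSub_comap_sc_iff (wt_neg_mul e β g) (eig_one _) (eig_one _)).2 hP)
      ((hst (-g)).trans (Ideal.comap_mono hIP))
    rw [← h4, av_apply] at h5
    have h6 := hL h5
    rw [LinearMap.mem_ker, map_sum] at h6
    rw [← h6]
    refine Finset.sum_congr rfl fun a _ => ?_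
    rw [tr_tr, add_comm, wt_add]
    rfl
  have h2 : ∑ g, (z g : ℂ) * (L (tr (wt e β g) (pt P)) : ℂ) = 0 := by
    refine pairing_eq_zero fun x => ?_
    by_cases hx : ∑ k, x k = 0
    · by_cases hzx : ∑ g, (z g : ℂ) * ch x g = 0
      · exact Or.inl hzx
      · right
        obtain ⟨π, hπ, hπx⟩ := hz x hx hzx
        exact sum_ch_of_fibres (h3 π hπ) hπx
    · right
      refine sum_ch_of_diag (u := fun _ => 1) (fun _ => rfl) (fun g => ?_) hx
      rw [wt_add, ← tr_tr, tr_const hP]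
  exact_mod_cast h2

end main

end Pool.Agent.H835.AV
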