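import Pool.Agent.H835.AV.Char
import Pool.Graph.R_pool_sql_team_seeded_63374d34.N998.ZS.Coords
import Mathlib.RingTheory.Polynomial.Cyclotomic.Roots

set_option autoImplicit false
set_option linter.unusedSectionVars false

/-!
# Zero-sum partitions and conjugate characters
-/

namespace Pool.Agent.H835.AV

section comb

variable {m : ℕ} {ι : Type} [Fintype ι] [DecidableEq ι] [NeZero m]

/-- From a partition of the nonzero coordinates to a map of the index set to itself. -/
lemma exists_merge_of_finpartition {x : ι → ZMod m}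
    (P : Finpartition (Finset.univ : Finset {j // x j ≠ 0}))
    (hP : ∀ T ∈ P.parts, ∑ i ∈ T, x i = 0) :
    ∃ π : ι → ι, (Finset.univ.image π).card =
      P.parts.card + (Finset.univ.filter fun j => x j = 0).card ∧
        ∀ k, ∑ j with π j = k, x j = 0 := by
  classical
  rcases isEmpty_or_nonempty ι with hι | ⟨⟨j₀⟩⟩
  · refine ⟨id, ?_, fun k => hι.elim k⟩
    have h1 : P.parts = ∅ := by
      by_contra h
      obtain ⟨T, hT⟩ := Finset.nonempty_iff_ne_empty.2 h
      obtain ⟨i, -⟩ := P.nonempty_of_mem_parts hT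
      exact hι.elim i.1
    rw [h1]
    simp
  let r : Finset {j // x j ≠ 0} → ι := fun S => if h : S.Nonempty then (h.choose : ι) else j₀
  have hr : ∀ S : Finset {j // x j ≠ 0}, S.Nonempty → ∃ i ∈ S, r S = i := by
    intro S hS
    refine ⟨hS.choose, hS.choose_spec, ?_⟩
    simp only [r]
    rw [dif_pos hS]
  have hrne : ∀ S ∈ P.parts, x (r S) ≠ 0 := by
    intro S hS
    obtain ⟨i, -, hi⟩ := hr S (P.nonempty_of_mem_parts hS)
    rw [hi]
    exact i.2
  have hrinj : ∀ S ∈ P.parts, ∀ T ∈ P.parts, r S = r T → S = T := by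
    intro S hS T hT h
    obtain ⟨i, hiS, hi⟩ := hr S (P.nonempty_of_mem_parts hS)
    obtain ⟨j, hjT, hj⟩ := hr T (P.nonempty_of_mem_parts hT)
    have hij : i = j := Subtype.ext (by rw [← hi, ← hj, h])
    subst hij
    exact P.eq_of_mem_parts hS hT hiS hjT
  let π : ι → ι := fun j => if h : x j ≠ 0 then r (P.part ⟨j, h⟩) else j
  have hπ0 : ∀ j, x j = 0 → π j = j := by
    intro j hj
    simp only [π]
    rw [dif_neg (not_not.2 hj)]
  have hπ1 : ∀ j (h : x j ≠ 0), π j = r (P.part ⟨j, h⟩) := by
    intro j hj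
    simp only [π]
    rw [dif_pos hj]
  have hpart : ∀ i : {j // x j ≠ 0}, P.part i ∈ P.parts := fun i =>
    P.part_mem.2 (Finset.mem_univ i)
  refine ⟨π, ?_, ?_⟩
  · have h1 : Finset.univ.image π = P.parts.image r ∪ Finset.univ.filter fun j => x j = 0 := by
      ext k
      rw [Finset.mem_union, Finset.mem_image, Finset.mem_image, Finset.mem_filter]
      constructor
      · rintro ⟨j, -, rfl⟩
        by_cases hj : x j = 0
        · right
          rw [hπ0 j hj]
          exact ⟨Finset.mem_univ _, hj⟩
        · left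
          exact ⟨_, hpart ⟨j, hj⟩, (hπ1 j hj).symm⟩
      · rintro (⟨S, hS, rfl⟩ | ⟨-, hk⟩)
        · obtain ⟨i, hiS, hi⟩ := hr S (P.nonempty_of_mem_parts hS)
          refine ⟨i, Finset.mem_univ _, ?_⟩
          rw [hπ1 i i.2]
          congr 1
          exact P.part_eq_of_mem hS hiS
        · exact ⟨k, Finset.mem_univ _, hπ0 k hk⟩
    rw [h1, Finset.card_union_of_disjoint, Finset.card_image_of_injOn]
    · intro S hS T hT h
      exact hrinj S hS T hT h
    · rw [Finset.disjoint_left]
      intro k hk hk'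
      obtain ⟨S, hS, rfl⟩ := Finset.mem_image.1 hk
      exact hrne S hS (Finset.mem_filter.1 hk').2
  · intro k
    by_cases hk : x k = 0
    · have h1 : (Finset.univ.filter fun j => π j = k) = {k} := by
        ext j
        rw [Finset.mem_filter, Finset.mem_singleton]
        constructor
        · rintro ⟨-, hj⟩
          by_cases hxj : x j = 0
          · rw [← hj, hπ0 j hxj]
          · exfalso
            rw [hπ1 j hxj] at hj
            exact hrne _ (hpart ⟨j, hxj⟩) (by rw [hj]; exact hk)
        · rintro rfl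
          exact ⟨Finset.mem_univ _, hπ0 _ hk⟩
      rw [h1, Finset.sum_singleton, hk]
    · by_cases hk2 : ∃ S ∈ P.parts, r S = k
      · obtain ⟨S, hS, rfl⟩ := hk2
        have h1 : (Finset.univ.filter fun j => π j = r S) = S.map (Function.Embedding.subtype _) := by
          ext j
          rw [Finset.mem_filter, Finset.mem_map]
          constructor
          · rintro ⟨-, hj⟩
            by_cases hxj : x j = 0
            · exfalso
              rw [hπ0 j hxj] at hj
              rw [← hj] at hk
              exact hk hxj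
            · refine ⟨⟨j, hxj⟩, ?_, rfl⟩
              rw [hπ1 j hxj] at hj
              have h2 := hrinj _ (hpart ⟨j, hxj⟩) S hS hj
              rw [← h2]
              exact P.mem_part (Finset.mem_univ _)
          · rintro ⟨i, hi, rfl⟩
            refine ⟨Finset.mem_univ _, ?_⟩
            change π i = r S
            rw [hπ1 i i.2]
            congr 1
            exact P.part_eq_of_mem hS hi
        rw [h1, Finset.sum_map]
        exact hP S hS
      · rw [Finset.filter_false_of_mem, Finset.sum_empty]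
        intro j _ hj
        by_cases hxj : x j = 0
        · rw [hπ0 j hxj] at hj
          rw [hj] at hxj
          exact hk hxj
        · rw [hπ1 j hxj] at hj
          exact hk2 ⟨_, hpart ⟨j, hxj⟩, hj⟩

/-- The height of a residue vector: the zero residue counts as `m`. -/
def hgt (x : ι → ZMod m) : ℕ := ∑ j, if x j = 0 then m else (x j).val

lemma hgt_eq (x : ι → ZMod m) : hgt x = (Finset.univ.filter fun j => x j = 0).card * m +
    ∑ i : {j // x j ≠ 0}, (x i).val := by
  unfold hgt
  rw [Finset.sum_ite, Finset.sum_const, smul_eq_mul]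
  congr 1
  rw [Finset.sum_subtype (p := fun j => x j ≠ 0)]
  intro j
  rw [Finset.mem_filter]
  exact and_iff_right (Finset.mem_univ j)

/-- **Zero-sum partitions from heights.** -/
theorem exists_merge_of_hgt (hm : 2 ≤ m) {x : ι → ZMod m} (hx : ∑ j, x j = 0) {k : ℕ}
    (hlen : k * m + 3 ≤ 2 * Fintype.card ι)
    (h0 : (Finset.univ.filter fun j => x j = 0).card ≤ k)
    (hh : ∀ t : (ZMod m)ˣ, k * m < hgt fun j => (t : ZMod m) * x j) :
    ∃ π : ι → ι, (Finset.univ.image π).card = k + 1 ∧ ∀ l, ∑ j with π j = l, x j = 0 := by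
  classical
  set z := (Finset.univ.filter fun j => x j = 0).card with hz
  have hcard : Fintype.card {j // x j ≠ 0} = Fintype.card ι - z := by
    rw [Fintype.card_subtype_compl, Fintype.card_subtype]
  have hzle : z ≤ Fintype.card ι := by
    rw [hz, ← Finset.card_univ]
    exact Finset.card_filter_le _ _
  have hsum : ∑ i : {j // x j ≠ 0}, x i = 0 := by
    have h1 : ∑ j with x j ≠ 0, x j = ∑ j, x j := Finset.sum_filter_ne_zero _
    rw [hx, Finset.sum_subtype (p := fun j => x j ≠ 0) _ (fun j => by
      rw [Finset.mem_filter]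
      exact and_iff_right (Finset.mem_univ j)) x] at h1
    exact h1
  obtain ⟨d, hd⟩ := Nat.exists_eq_add_of_le h0
  have hlen' : d * m + 3 ≤ 2 * Fintype.card {j // x j ≠ 0} := by
    rw [hcard]
    have h1 : z * 2 ≤ z * m := Nat.mul_le_mul_left z hm
    have h2 : k * m = z * m + d * m := by rw [hd, add_mul]
    omega
  have h1 := (Pool.Agent.N998.ZS.finpartition_iff (fun i : {j // x j ≠ 0} => x i) (fun i => i.2)
    hsum d hlen').2 (by
      intro t
      have h2 := hh t
      rw [hgt_eq] at h2
      have h3 : ∀ j, (t : ZMod m) * x j = 0 ↔ x j = 0 := fun j => by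
        rw [Units.mul_right_eq_zero]
      have h4 : (Finset.univ.filter fun j => (t : ZMod m) * x j = 0).card = z := by
        rw [hz]
        congr 1
        ext j
        rw [Finset.mem_filter, Finset.mem_filter, h3]
      have h5 : ∑ i : {j // (t : ZMod m) * x j ≠ 0}, ((t : ZMod m) * x i).val =
          ∑ i : {j // x j ≠ 0}, ((t : ZMod m) * x i).val := by
        refine Fintype.sum_equiv (Equiv.subtypeEquivRight fun j => not_congr (h3 j)) _ _
          fun i => rfl
      rw [h4, h5] at h2
      have h6 : d * m < ∑ i : {j // x j ≠ 0}, ((t : ZMod m) * x i).val := by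
        have h7 : k * m = z * m + d * m := by rw [hd, add_mul]
        omega
      have h8 : m ∣ ∑ i : {j // x j ≠ 0}, ((t : ZMod m) * x i).val := by
        rw [← ZMod.natCast_eq_zero_iff]
        push_cast
        have h9 : ∀ i : {j // x j ≠ 0}, ((((t : ZMod m) * x i).val : ℕ) : ZMod m) =
            (t : ZMod m) * x i := fun i => ZMod.natCast_zmod_val _
        rw [Finset.sum_congr rfl fun i _ => h9 i, ← Finset.mul_sum, hsum, mul_zero]
      obtain ⟨q, hq⟩ := h8
      rw [hq] at h6 ⊢
      have h10 : d < q := by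
        by_contra hcon
        have h11 : m * q ≤ d * m := by
          rw [mul_comm d m]
          exact Nat.mul_le_mul_left m (not_lt.1 hcon)
        omega
      rw [mul_comm]
      exact Nat.mul_le_mul_left m h10)
  obtain ⟨P, hP, hPs⟩ := h1
  obtain ⟨π, h2, h3⟩ := exists_merge_of_finpartition P hPs
  refine ⟨π, ?_, h3⟩
  rw [h2, hP, ← hz, hd]
  omega

end comb

section conj

variable {m : ℕ} {ι : Type} [Fintype ι] [DecidableEq ι] [NeZero m]

lemma isPrimitiveRoot_std : IsPrimitiveRoot (ZMod.stdAddChar (1 : ZMod m)) m := by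
  refine ⟨?_, ?_⟩
  · rw [← AddChar.map_nsmul_eq_pow, nsmul_eq_mul, ZMod.natCast_self, zero_mul,
      AddChar.map_zero_eq_one]
  · intro l hl
    rw [← AddChar.map_nsmul_eq_pow, nsmul_eq_mul, mul_one] at hl
    rw [← ZMod.natCast_eq_zero_iff]
    apply ZMod.injective_stdAddChar
    rw [hl, AddChar.map_zero_eq_one]

lemma std_eq_pow (j : ZMod m) : ZMod.stdAddChar j = ZMod.stdAddChar (1 : ZMod m) ^ j.val := by
  rw [← AddChar.map_nsmul_eq_pow, nsmul_eq_mul, mul_one, ZMod.natCast_zmod_val]

/-- **Conjugate characters.** -/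
lemma sum_ch_conj (z : (ι → ZMod m) → ℚ) (x : ι → ZMod m) (t : (ZMod m)ˣ)
    (h : ∑ g, (z g : ℂ) * ch x g = 0) :
    ∑ g, (z g : ℂ) * ch (fun j => (t : ZMod m) * x j) g = 0 := by
  set ω : ℂ := ZMod.stdAddChar (1 : ZMod m) with hω
  have hω1 : IsPrimitiveRoot ω m := isPrimitiveRoot_std
  have hω2 : IsPrimitiveRoot (ω ^ (t : ZMod m).val) m := by
    refine hω1.pow_of_coprime _ ?_
    exact ZMod.val_coe_unit_coprime t
  have hpos : 0 < m := NeZero.pos m
  let P : Polynomial ℚ := ∑ g : ι → ZMod m, Polynomial.monomial (∑ k, x k * g k).val (z g)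
  have h1 : ∀ y : ℂ, Polynomial.aeval y P = ∑ g : ι → ZMod m, (z g : ℂ) * y ^ (∑ k, x k * g k).val := by
    intro y
    simp only [P]
    rw [map_sum]
    refine Finset.sum_congr rfl fun g _ => ?_
    rw [Polynomial.aeval_monomial]
    rfl
  have h2 : Polynomial.aeval ω P = 0 := by
    rw [h1, ← h]
    refine Finset.sum_congr rfl fun g _ => ?_
    unfold ch
    rw [std_eq_pow]
  have h3 : minpoly ℚ (ω ^ (t : ZMod m).val) = minpoly ℚ ω := by
    rw [← Polynomial.cyclotomic_eq_minpoly_rat hω1 hpos,
      ← Polynomial.cyclotomic_eq_minpoly_rat hω2 hpos]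
  have h4 : minpoly ℚ (ω ^ (t : ZMod m).val) ∣ P := by
    rw [h3]
    exact minpoly.dvd ℚ ω h2
  have h5 : Polynomial.aeval (ω ^ (t : ZMod m).val) P = 0 := by
    obtain ⟨q, hq⟩ := h4
    rw [hq, map_mul, minpoly.aeval, zero_mul]
  rw [h1] at h5
  rw [← h5]
  refine Finset.sum_congr rfl fun g _ => ?_
  congr 1
  unfold ch
  have h6 : ∑ k, (t : ZMod m) * x k * g k = ((t : ZMod m).val * (∑ k, x k * g k).val : ℕ) := by
    push_cast
    rw [ZMod.natCast_zmod_val, ZMod.natCast_zmod_val, Finset.mul_sum]
    refine Finset.sum_congr rfl fun k _ => ?_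
    rw [mul_assoc]
  rw [h6, ← pow_mul, ← mul_one (((t : ZMod m).val * (∑ k, x k * g k).val : ℕ) : ZMod m),
    ← nsmul_eq_mul, AddChar.map_nsmul_eq_pow]

end conj

end Pool.Agent.H835.AV
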