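import Pool.Agent.H835.AV.Elim
import Pool.Agent.H835.AV.Comb2

set_option autoImplicit false
set_option linter.unusedSectionVars false

/-!
# Diagonal complete intersections
-/

universe u

namespace Pool.Agent.H835.AV

open MvPolynomial Pool.Agent.W5h86.HC

section forms

variable {K : Type u} [Field K] {N ρ : ℕ}

/-- diagonal forms -/
noncomputable def dg (n : ℕ) : (Fin N → K) →ₗ[K] MvPolynomial (Fin N) K where
  toFun v := ∑ j, C (v j) * X j ^ n
  map_add' v w := by
    rw [← Finset.sum_add_distrib]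
    refine Finset.sum_congr rfl fun j _ => ?_
    rw [Pi.add_apply, map_add, add_mul]
  map_smul' c v := by
    rw [RingHom.id_apply, Finset.smul_sum]
    refine Finset.sum_congr rfl fun j _ => ?_
    rw [Pi.smul_apply, smul_eq_mul, map_mul, mul_assoc, smul_eq_C_mul]

lemma dg_apply (n : ℕ) (v : Fin N → K) : dg n v = ∑ j, C (v j) * X j ^ n := rfl

/-- The ideal generated by the diagonal forms `∑ j, A i j * X j ^ n`. -/
noncomputable def diagI (n : ℕ) (A : Matrix (Fin ρ) (Fin N) K) :
    Ideal (MvPolynomial (Fin N) K) :=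
  Ideal.span (Set.range fun i => ∑ j, C (A i j) * X j ^ n)

lemma sF_dg (n : ℕ) (v : Fin N → K) : SF (id : Fin N → Fin N) n (∑ j, C (v j) * X j ^ n) := by
  refine ⟨fun j => C (v j) * X j ^ n, fun j => ?_, fun j => ?_, rfl⟩
  · exact (isHomogeneous_C_mul_X_pow (v j) j n)
  · refine Subalgebra.mul_mem _ (Subalgebra.algebraMap_mem _ (v j)) (Subalgebra.pow_mem _ ?_ n)
    rw [X_mem_supported]
    rfl

/-- Change of generators. -/
lemma diagI_mul_le (n : ℕ) (B : Matrix (Fin ρ) (Fin ρ) K) (A : Matrix (Fin ρ) (Fin N) K) :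
    diagI n (B * A) ≤ diagI n A := by
  unfold diagI
  rw [Ideal.span_le]
  rintro _ ⟨i, rfl⟩
  rw [SetLike.mem_coe]
  have h1 : (∑ j, C ((B * A) i j) * X j ^ n : MvPolynomial (Fin N) K) =
      ∑ l, C (B i l) * ∑ j, C (A l j) * X j ^ n := by
    have h2 : (B * A) i = ∑ l, B i l • A l := by
      funext j
      rw [Matrix.mul_apply, Finset.sum_apply]
      rfl
    have h3 : (∑ j, C ((B * A) i j) * X j ^ n : MvPolynomial (Fin N) K) = dg n ((B * A) i) := rfl
    rw [h3, h2, map_sum]
    refine Finset.sum_congr rfl fun l _ => ?_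
    rw [map_smul, smul_eq_C_mul]
    rfl
  have h4 : (∑ j, C ((B * A) i j) * X j ^ n : MvPolynomial (Fin N) K) ∈
      Ideal.span (Set.range fun i => (∑ j, C (A i j) * X j ^ n : MvPolynomial (Fin N) K)) := by
    rw [h1]
    exact Ideal.sum_mem _ fun l _ => Ideal.mul_mem_left _ _ (Ideal.subset_span ⟨l, rfl⟩)
  exact h4

lemma diagI_mul (n : ℕ) {B B' : Matrix (Fin ρ) (Fin ρ) K} (h : B' * B = 1)
    (A : Matrix (Fin ρ) (Fin N) K) : diagI n (B * A) = diagI n A := by
  apply le_antisymm (diagI_mul_le n B A)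
  have h1 := diagI_mul_le n B' (B * A)
  rw [← Matrix.mul_assoc, h, Matrix.one_mul] at h1
  exact h1

end forms

section elim

variable {m : ℕ} [NeZero m] {K : Type u} [Field K] {N ρ : ℕ}

/-- **Elimination of variables**. -/
lemma avTriv_elim {e : AddChar (ZMod m) K} {n : ℕ} (he : Good e n) {A : Matrix (Fin ρ) (Fin N) K}
    {f : Fin ρ → Fin N} (hf : Function.Injective f) (hA : (A.submatrix id f).det ≠ 0)
    {π : Fin N → Fin N} {k₀ : Fin N} (hk₀ : k₀ ∉ Finset.univ.image f)
    (hπ : ∀ j, π j = if j ∈ Finset.univ.image f then j else k₀) {t : ℕ} (ht : 1 ≤ t)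
    (htN : t + ρ ≤ N) : AvTriv e π t (diagI n A) := by
  classical
  set J : Finset (Fin N) := Finset.univ.image f with hJ
  set B := A.submatrix id f with hB
  have hu : IsUnit B.det := isUnit_iff_ne_zero.2 hA
  have h1 : B * B⁻¹ = 1 := Matrix.mul_nonsing_inv B hu
  have h2 : B⁻¹ * B = 1 := Matrix.nonsing_inv_mul B hu
  set D := B⁻¹ * A with hD
  have hDf : ∀ i l, D i (f l) = if i = l then 1 else 0 := by
    intro i l
    have h3 : D i (f l) = (B⁻¹ * B) i l := by
      rw [hD, Matrix.mul_apply, Matrix.mul_apply]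
      rfl
    rw [h3, h2, Matrix.one_apply]
  let L : Fin N → MvPolynomial (Fin N) K := fun j =>
    if h : ∃ i, f i = j then -∑ k ∈ Finset.univ \ J, C (D h.choose k) * X k ^ n else 0
  have hL : ∀ i, L (f i) = -∑ k ∈ Finset.univ \ J, C (D i k) * X k ^ n := by
    intro i
    have h3 : ∃ l, f l = f i := ⟨i, rfl⟩
    simp only [L]
    rw [dif_pos h3, hf h3.choose_spec]
  have hgen : ∀ i, X (f i) ^ n - L (f i) = ∑ j, C (D i j) * X j ^ n := by
    intro i
    rw [hL, sub_neg_eq_add, ← Finset.sum_sdiff (Finset.subset_univ J), add_comm]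
    congr 1
    rw [hJ, Finset.sum_image (fun a _ b _ h => hf h), Finset.sum_eq_single i]
    · rw [hDf, if_pos rfl, map_one, one_mul]
    · intro l _ hl
      rw [hDf, if_neg hl.symm, map_zero, zero_mul]
    · simp
  have hI : diagI n A = Ideal.span ((fun j => X j ^ n - L j) '' (J : Set (Fin N))) := by
    rw [← diagI_mul n h1 A]
    unfold diagI
    congr 1
    ext x
    constructor
    · rintro ⟨i, rfl⟩
      refine ⟨f i, ?_, hgen i⟩
      rw [hJ, Finset.coe_image]
      exact ⟨i, Finset.mem_coe.2 (Finset.mem_univ i), rfl⟩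
    · rintro ⟨j, hj, rfl⟩
      rw [hJ, Finset.coe_image] at hj
      obtain ⟨i, -, rfl⟩ := hj
      exact ⟨i, (hgen i).symm⟩
  refine gen_proj (cls_CJ n) N K e π t ρ _ ⟨he, J, L, ?_, ?_, ?_, ?_, ?_, hI⟩ htN ht
  · intro j hj i hij
    rw [hπ j, if_pos hj, hπ i] at hij
    split_ifs at hij with h3
    · exact hij
    · rw [← hij] at hj
      exact absurd hj hk₀
  · rw [hJ, Finset.card_image_of_injective _ hf, Finset.card_univ, Fintype.card_fin]
  · intro i hi j hj
    rw [hπ, hπ, if_neg hi, if_neg hj]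
  · intro j hj
    obtain ⟨i, -, rfl⟩ := Finset.mem_image.1 hj
    rw [hL]
    refine (IsHomogeneous.sum _ _ _ fun k _ => ?_).neg
    exact isHomogeneous_C_mul_X_pow _ k n
  · intro j hj
    obtain ⟨i, -, rfl⟩ := Finset.mem_image.1 hj
    rw [hL]
    refine Subalgebra.neg_mem _ (Subalgebra.sum_mem _ fun k hk => ?_)
    refine Subalgebra.mul_mem _ (Subalgebra.algebraMap_mem _ _) (Subalgebra.pow_mem _ ?_ n)
    rw [X_mem_supported]
    exact (Finset.mem_sdiff.1 hk).2

end elim

section main

variable {m : ℕ} [NeZero m] {K : Type u} [Field K] {N ρ : ℕ}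

lemma diagI_stable {e : AddChar (ZMod m) K} {n : ℕ} (hmn : m ∣ n) (A : Matrix (Fin ρ) (Fin N) K) :
    Stable e (id : Fin N → Fin N) (diagI n A) := by
  intro a
  unfold diagI
  rw [Ideal.span_le]
  rintro _ ⟨i, rfl⟩
  rw [SetLike.mem_coe, Ideal.mem_comap, (sF_dg n (A i)).inv hmn]
  exact Ideal.subset_span ⟨i, rfl⟩

/-- **The group ring acts trivially on cycles of low dimension.** -/
theorem diag_main {e : AddChar (ZMod m) K} {n : ℕ} (he : Good e n) (hm : 2 ≤ m)
    (A : Matrix (Fin ρ) (Fin N) K)
    (hA : ∀ f : Fin ρ → Fin N, Function.Injective f → (A.submatrix id f).det ≠ 0)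
    {c t : ℕ} (ht : 1 ≤ t) (htc : t ≤ c) (hlen : (c + ρ - 1) * m + 3 ≤ 2 * N)
    (z : (Fin N → ZMod m) → ℚ)
    (hz : ∀ x : Fin N → ZMod m, ∑ j, x j = 0 →
      (Finset.univ.filter fun j => x j = 0).card < ρ → hgt x ≤ (c + ρ - 1) * m →
      ∑ g, (z g : ℂ) * ch x g = 0) :
    ∃ (k : ℕ) (c : Fin k → Fin N), DimLe t (secI (diagI n A) c) ∧
      ∀ P, IsSub t 1 P → diagI n A ≤ P →
      ∑ g, z g • tr (wt e (id : Fin N → Fin N) g) (pt P) ∈
        Submodule.span ℚ {icyc t (secI (diagI n A) c)} ⊔ IRatEq (diagI n A) t := by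
  classical
  have hN : c + ρ < N + 1 := by
    have h1 : (c + ρ - 1) * 2 ≤ (c + ρ - 1) * m := Nat.mul_le_mul_left _ hm
    omega
  have key : ∀ x : Fin N → ZMod m, ∑ k, x k = 0 → ∑ g, (z g : ℂ) * ch x g ≠ 0 →
      ∃ π : Fin N → Fin N, AvTriv e (π ∘ id) t (diagI n A) ∧ ∀ k, ∑ j with π j = k, x j = 0 := by
    intro x hx hzx
    rcases Nat.lt_or_ge (Finset.univ.filter fun j => x j = 0).card ρ with h0 | h0
    · -- few zeros
      obtain ⟨π, h1, h2⟩ := exists_merge_of_hgt hm hx (k := c + ρ - 1) (by
        rw [Fintype.card_fin]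
        exact hlen) (by omega) (by
        intro s
        by_contra hcon
        have hsum : ∑ j, (s : ZMod m) * x j = 0 := by
          rw [← Finset.mul_sum, hx, mul_zero]
        have hcard : (Finset.univ.filter fun j => (s : ZMod m) * x j = 0).card < ρ := by
          have h3 : (Finset.univ.filter fun j => (s : ZMod m) * x j = 0) =
              Finset.univ.filter fun j => x j = 0 := by
            ext j
            rw [Finset.mem_filter, Finset.mem_filter, Units.mul_right_eq_zero]
          rw [h3]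
          exact h0
        have h4 := hz _ hsum hcard (not_lt.1 hcon)
        have h5 := sum_ch_conj z _ s⁻¹ h4
        have h6 : (fun j => ((s⁻¹ : (ZMod m)ˣ) : ZMod m) * ((s : ZMod m) * x j)) = x := by
          funext j
          rw [← mul_assoc, Units.inv_mul, one_mul]
        rw [h6] at h5
        exact hzx h5)
      refine ⟨π, ?_, h2⟩
      refine gen_proj (cls_CSF n) N K e (π ∘ id) t ρ _ ⟨he, ?_, fun i => ∑ j, C (A i j) * X j ^ n,
        fun i => (sF_dg n (A i)).comp π, rfl⟩ (by omega) ht
      have h7 : Finset.univ.image (π ∘ id) = Finset.univ.image π := rfl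
      rw [h7, h1]
      omega
    · -- many zeros
      obtain ⟨T, hT, hTcard⟩ := Finset.exists_subset_card_eq h0
      let f : Fin ρ → Fin N := fun i => (T.equivFinOfCardEq hTcard).symm i
      have hf : Function.Injective f := fun a b h =>
        (T.equivFinOfCardEq hTcard).symm.injective (Subtype.ext h)
      have hfT : ∀ i, f i ∈ T := fun i => ((T.equivFinOfCardEq hTcard).symm i).2
      have hfx : ∀ i, x (f i) = 0 := fun i => (Finset.mem_filter.1 (hT (hfT i))).2
      obtain ⟨k₀, hk₀⟩ : ∃ k₀, k₀ ∉ Finset.univ.image f := by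
        by_contra hcon
        push Not at hcon
        have h1 : (Finset.univ.image f).card = N := by
          rw [Finset.eq_univ_of_forall hcon, Finset.card_univ, Fintype.card_fin]
        rw [Finset.card_image_of_injective _ hf, Finset.card_univ, Fintype.card_fin] at h1
        omega
      refine ⟨fun j => if j ∈ Finset.univ.image f then j else k₀,
        avTriv_elim he hf (hA f hf) hk₀ (fun j => rfl) ht (by omega), ?_⟩
      have hdich : ∀ j, (if j ∈ Finset.univ.image f then j else k₀) = k₀ ∨ x j = 0 := by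
        intro j
        by_cases hj : j ∈ Finset.univ.image f
        · right
          obtain ⟨i, -, rfl⟩ := Finset.mem_image.1 hj
          exact hfx i
        · left
          exact if_neg hj
      intro k
      by_cases hk : k = k₀
      · refine Eq.trans ?_ hx
        rw [Finset.sum_filter]
        refine Finset.sum_congr rfl fun j _ => ?_
        rcases hdich j with h2 | h2
        · exact if_pos (h2.trans hk.symm)
        · rw [h2]
          exact ite_self 0
      · refine Finset.sum_eq_zero fun j hj => ?_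
        have h1 : (if j ∈ Finset.univ.image f then j else k₀) = k := (Finset.mem_filter.1 hj).2
        rcases hdich j with h2 | h2
        · exact absurd (h1.symm.trans h2) hk
        · exact h2
  -- a first section
  obtain ⟨π₀, h₀⟩ : ∃ π₀ : Fin N → Fin N, AvTriv e (π₀ ∘ id) t (diagI n A) := by
    obtain ⟨f, hf⟩ : ∃ f : Fin ρ → Fin N, Function.Injective f :=
      ⟨Fin.castLE (by omega), Fin.castLE_injective _⟩
    obtain ⟨k₀, hk₀⟩ : ∃ k₀, k₀ ∉ Finset.univ.image f := by
      by_contra hcon
      push Not at hcon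
      have h1 : (Finset.univ.image f).card = N := by
        rw [Finset.eq_univ_of_forall hcon, Finset.card_univ, Fintype.card_fin]
      rw [Finset.card_image_of_injective _ hf, Finset.card_univ, Fintype.card_fin] at h1
      omega
    exact ⟨fun j => if j ∈ Finset.univ.image f then j else k₀,
      avTriv_elim he hf (hA f hf) hk₀ (fun j => rfl) ht (by omega)⟩
  exact char_main (diagI_stable he.dvd A) h₀ z key

end main

end Pool.Agent.H835.AV
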