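import Pool.Agent.H835.AV.Chow
import Pool.Agent.H835.AV.Diag

set_option autoImplicit false
set_option linter.unusedSectionVars false

/-!
# Diagonal automorphisms acting on Chow groups
-/

universe u

namespace Pool.Agent.H835.AV

open MvPolynomial Pool.Agent.W5h86.HC

section scale

variable {K : Type u} [Field K] {N : ℕ} {I : Ideal (MvPolynomial (Fin N) K)} {i : ℕ}

/-- The image of the subvariety `V` of `I = 0` under the automorphism `x ↦ w x` of the projective
space which multiplies the coordinate `x j` by `w j` (`w'` is the inverse of `w`), where `I = 0` is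
mapped to itself: its ideal consists of the `f` with `f(w x)` in the ideal of `V`. -/
noncomputable def Subvar.scale {w w' : Fin N → K} (h : w * w' = 1)
    (hI : I ≤ I.comap (sc w)) (V : Subvar I i) : Subvar I i where
  P := V.P.comap (sc w)
  prime := by
    haveI := V.prime
    exact Ideal.comap_isPrime _ _
  hom := (isSub_comap_sc h V.isSub fun h1 => by rwa [map_one] at h1).hom
  dim := by
    rw [(isSub_comap_sc h V.isSub fun h1 => by rwa [map_one] at h1).trdeg]
    push_cast
    rfl
  le := hI.trans (Ideal.comap_mono V.le)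

/-- The action on cycles of the automorphism `x ↦ w x`. -/
noncomputable def scaleCyc {w w' : Fin N → K} (h : w * w' = 1)
    (hI : I ≤ I.comap (sc w)) : Cyc I i →ₗ[ℚ] Cyc I i :=
  Finsupp.lmapDomain ℚ ℚ (Subvar.scale h hI)

lemma emb_scaleCyc {w w' : Fin N → K} (h : w * w' = 1) (hI : I ≤ I.comap (sc w)) (z : Cyc I i) :
    emb I i (scaleCyc h hI z) = tr w' (emb I i z) := by
  induction z using Finsupp.induction_linear with
  | zero => rw [map_zero, map_zero, map_zero]
  | add z z' hz hz' => rw [map_add, map_add, map_add, map_add, hz, hz']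
  | single V q =>
    have h2 : Finsupp.single V q = q • (Finsupp.single V 1 : Cyc I i) := by
      rw [Finsupp.smul_single, smul_eq_mul, mul_one]
    rw [h2, map_smul, map_smul, map_smul, map_smul]
    congr 1
    unfold scaleCyc
    rw [Finsupp.lmapDomain_apply, Finsupp.mapDomain_single, emb_single, emb_single,
      tr_pt (w := w') (w' := w) (by rw [mul_comm, h])]
    rfl

lemma ratEq_le_scale {w w' : Fin N → K} (h : w * w' = 1) (hI : I ≤ I.comap (sc w)) :
    ratEq I i ≤ (ratEq I i).comap (scaleCyc h hI) := by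
  intro z hz
  rw [Submodule.mem_comap]
  have h1 : emb I i z ∈ IRatEq I (i + 1) := by
    rw [← map_ratEq]
    exact Submodule.mem_map_of_mem hz
  have h2 : emb I i (scaleCyc h hI z) ∈ IRatEq I (i + 1) := by
    rw [emb_scaleCyc]
    exact tr_iRatEq (by rw [mul_comm, h]) hI (Submodule.mem_map_of_mem h1)
  rw [← map_ratEq] at h2
  obtain ⟨z', h3, h4⟩ := h2
  rw [← emb_injective h4]
  exact h3

/-- The action on the Chow group of the automorphism `x ↦ w x`. -/
noncomputable def scaleCH {w w' : Fin N → K} (h : w * w' = 1)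
    (hI : I ≤ I.comap (sc w)) : CH I i →ₗ[ℚ] CH I i :=
  (ratEq I i).mapQ (ratEq I i) (scaleCyc h hI) (ratEq_le_scale h hI)

end scale

section root

variable {K : Type u} [Field K] {N ρ m : ℕ} [NeZero m] {ζ : K}

/-- The vector `(ζ ^ g 0, ..., ζ ^ g (N - 1))`. -/
def zpows (ζ : K) (g : Fin N → ZMod m) : Fin N → K := fun j => ζ ^ (g j).val

lemma zpows_eq (hζ : ζ ^ m = 1) (g : Fin N → ZMod m) :
    zpows ζ g = wt (AddChar.zmodChar m hζ) (id : Fin N → Fin N) g := by
  funext j
  unfold zpows wt
  rw [AddChar.zmodChar_apply]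
  rfl

lemma zpows_mul_neg (hζ : ζ ^ m = 1) (g : Fin N → ZMod m) : zpows ζ g * zpows ζ (-g) = 1 := by
  rw [zpows_eq hζ, zpows_eq hζ, wt_mul_neg]

lemma diagI_le_comap (hζ : ζ ^ m = 1) {n : ℕ} (hmn : m ∣ n) (A : Matrix (Fin ρ) (Fin N) K)
    (g : Fin N → ZMod m) : diagI n A ≤ (diagI n A).comap (sc (zpows ζ g)) := by
  rw [zpows_eq hζ]
  exact diagI_stable hmn A g

/-- The action of `g` in `(ℤ/m)^N` on the Chow groups of the intersection of diagonal hypersurfaces:
the automorphism which multiplies the coordinate `x j` by `ζ ^ g j`. -/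
noncomputable def rootAct (hζ : ζ ^ m = 1) {n : ℕ} (hmn : m ∣ n) (A : Matrix (Fin ρ) (Fin N) K)
    (i : ℕ) (g : Fin N → ZMod m) : CH (diagI n A) i →ₗ[ℚ] CH (diagI n A) i :=
  scaleCH (zpows_mul_neg hζ g) (diagI_le_comap hζ hmn A g)

lemma ch_neg_left (x g : Fin N → ZMod m) : ch (-x) g = ch x (-g) := by
  unfold ch
  congr 1
  refine Finset.sum_congr rfl fun j _ => ?_
  rw [Pi.neg_apply, Pi.neg_apply, neg_mul, mul_neg]

/-- **The group ring acts trivially on cycles of low dimension.** -/
theorem rootAct_main (hζ : IsPrimitiveRoot ζ m) {n a : ℕ} (hn : n = m * ringExpChar K ^ a)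
    (A : Matrix (Fin ρ) (Fin N) K) (i : ℕ) (z : (Fin N → ZMod m) → ℚ)
    (hdiag : ∀ e : AddChar (ZMod m) K, Good e n → ∀ z' : (Fin N → ZMod m) → ℚ,
      (∀ g, z' g = z (-g)) →
      ∃ (k : ℕ) (c : Fin k → Fin N), DimLe (i + 1) (secI (diagI n A) c) ∧
      ∀ P, IsSub (i + 1) 1 P → diagI n A ≤ P →
      ∑ g, z' g • tr (wt e (id : Fin N → Fin N) g) (pt P) ∈
        Submodule.span ℚ {icyc (i + 1) (secI (diagI n A) c)} ⊔ IRatEq (diagI n A) (i + 1)) :
    ∃ (k : ℕ) (c : Fin k → Fin N),
      DimAtMost (diagI n A ⊔ Ideal.span (Set.range fun j => X (c j))) i ∧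
      ∀ α : CH (diagI n A) i, ∃ q : ℚ,
        ∑ g, z g • rootAct hζ.pow_eq_one (hn ▸ dvd_mul_right m _) A i g α =
        q • (ratEq (diagI n A) i).mkQ
          (cyc (diagI n A) i (diagI n A ⊔ Ideal.span (Set.range fun j => X (c j)))) := by
  classical
  have hgood : Good (AddChar.zmodChar m hζ.pow_eq_one) n := by
    refine ⟨?_, ringExpChar K, a, inferInstance, hn⟩
    intro x hx
    rw [AddChar.zmodChar_apply, hζ.pow_eq_one_iff_dvd] at hx
    have h1 := ZMod.val_lt x
    have h2 : x.val = 0 := Nat.eq_zero_of_dvd_of_lt hx h1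
    exact (ZMod.val_eq_zero x).1 h2
  obtain ⟨k, c, hdim, hmem⟩ := hdiag _ hgood (fun g => z (-g)) fun g => rfl
  refine ⟨k, c, ?_, ?_⟩
  · intro P hP hIP
    obtain ⟨n, hn⟩ := exists_trdeg_eq (K := K) P
    have h1 := hdim P hP hIP n hn
    rw [hn]
    exact_mod_cast h1
  · intro α
    obtain ⟨α, rfl⟩ := (ratEq (diagI n A) i).mkQ_surjective α
    have h1 : ∑ g, z g • scaleCyc (zpows_mul_neg hζ.pow_eq_one g)
        (diagI_le_comap hζ.pow_eq_one (hn ▸ dvd_mul_right m _) A g) α ∈
        Submodule.span ℚ {cyc (diagI n A) i (secI (diagI n A) c)} ⊔ ratEq (diagI n A) i := by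
      induction α using Finsupp.induction_linear with
      | zero =>
        simp only [map_zero, smul_zero, Finset.sum_const_zero]
        exact Submodule.zero_mem _
      | add α α' h h' =>
        simp only [map_add, smul_add, Finset.sum_add_distrib]
        exact Submodule.add_mem _ h h'
      | single V q =>
        have h2 : Finsupp.single V q = q • (Finsupp.single V 1 : Cyc (diagI n A) i) := by
          rw [Finsupp.smul_single, smul_eq_mul, mul_one]
        rw [h2]
        simp only [map_smul, smul_comm _ q, ← Finset.smul_sum]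
        refine Submodule.smul_mem _ _ (mem_of_emb le_sup_left ?_)
        rw [map_sum]
        have h3 : ∀ g, emb (diagI n A) i (z g • scaleCyc (zpows_mul_neg hζ.pow_eq_one g)
            (diagI_le_comap hζ.pow_eq_one (hn ▸ dvd_mul_right m _) A g) (Finsupp.single V 1)) =
            z g • tr (wt (AddChar.zmodChar m hζ.pow_eq_one) (id : Fin N → Fin N) (-g))
              (pt V.P) := by
          intro g
          rw [map_smul, emb_scaleCyc, emb_single, zpows_eq hζ.pow_eq_one]
        rw [Finset.sum_congr rfl fun g _ => h3 g]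
        have h4 := hmem V.P V.isSub V.le
        rw [← Fintype.sum_equiv (Equiv.neg (Fin N → ZMod m))
          (fun g => z g • tr (wt (AddChar.zmodChar m hζ.pow_eq_one) (id : Fin N → Fin N) (-g))
              (pt V.P)) _ (fun g => by rw [Equiv.neg_apply, neg_neg])] at h4
        exact h4
    obtain ⟨a', ha', b, hb, hab⟩ := Submodule.mem_sup.1 h1
    obtain ⟨q, rfl⟩ := Submodule.mem_span_singleton.1 ha'
    refine ⟨q, ?_⟩
    have h5 : ∑ g, z g • rootAct hζ.pow_eq_one (hn ▸ dvd_mul_right m _) A i g
        ((ratEq (diagI n A) i).mkQ α) = (ratEq (diagI n A) i).mkQ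
        (∑ g, z g • scaleCyc (zpows_mul_neg hζ.pow_eq_one g)
        (diagI_le_comap hζ.pow_eq_one (hn ▸ dvd_mul_right m _) A g) α) := by
      rw [map_sum]
      refine Finset.sum_congr rfl fun g _ => ?_
      rw [map_smul]
      rfl
    have h6 : (ratEq (diagI n A) i).mkQ b = 0 := by
      rw [Submodule.mkQ_apply, Submodule.Quotient.mk_eq_zero]
      exact hb
    rw [h5, ← hab, map_add, map_smul, h6, add_zero]
    rfl

end root

end Pool.Agent.H835.AV
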