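import Pool.Agent.H835.AV.Low

set_option autoImplicit false
set_option linter.unusedSectionVars false

/-!
# Averages of cycles on projective hypersurfaces
-/

universe u

namespace Pool.Agent.H835.AV

open MvPolynomial Pool.Agent.W5h86.HC

variable {m : ℕ} {ι : Type} [Fintype ι] [DecidableEq ι] [NeZero m]

section stable

variable {K : Type u} [Field K] {N : ℕ} {e : AddChar (ZMod m) K} {β : Fin N → ι}

lemma Stable.comap_eq {J : Ideal (MvPolynomial (Fin N) K)} (hJ : Stable e β J) (a : ι → ZMod m) :
    J.comap (sc (wt e β a)) = J := by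
  apply le_antisymm _ (hJ a)
  intro f hf
  have h1 := hJ (-a) hf
  rw [Ideal.mem_comap, sc_sc, wt_neg_mul, sc_one] at h1
  exact h1

lemma mult_comap_sc {J : Ideal (MvPolynomial (Fin N) K)} (hJ : Stable e β J) (a : ι → ZMod m)
    {P : Ideal (MvPolynomial (Fin N) K)} (hP : P.IsPrime) :
    mult J (P.comap (sc (wt e β a))) = mult J P := by
  conv_lhs => rw [← hJ.comap_eq a]
  refine mult_comap (sc (wt e β a) : MvPolynomial (Fin N) K →+* MvPolynomial (Fin N) K) hP ?_ J
  intro y
  refine ⟨1, sc (wt e β (-a)) y, ?_, ?_⟩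
  · rw [map_one]
    exact fun h => hP.ne_top ((Ideal.eq_top_iff_one _).2 h)
  · rw [map_one, one_mul]
    change sc (wt e β a) (sc (wt e β (-a)) y) = y
    rw [sc_sc, wt_mul_neg, sc_one]

/-- The class of a stable ideal is fixed by the group. -/
lemma tr_sect {i t : ℕ} {F : MvPolynomial (Fin N) K} {ℓ : Fin i → Fin N → K}
    (h : Stable e β (Ideal.span {F} ⊔ Ideal.span (Set.range fun k => lform (ℓ k))))
    (a : ι → ZMod m) : tr (wt e β a) (sect t F ℓ) = sect t F ℓ := by
  funext P
  rw [tr_apply]
  by_cases hP : IsSub t 1 P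
  · rw [sect_of hP, sect_of ((isSub_comap_sc_iff (wt_mul_neg e β a) (eig_one _) (eig_one _)).2 hP),
      mult_comap_sc h a hP.prime]
  · rw [sect_of_not hP, sect_of_not fun h1 => hP
      ((isSub_comap_sc_iff (wt_mul_neg e β a) (eig_one _) (eig_one _)).1 h1)]

end stable

lemma coeff_lsub_zi {K : Type u} [Field K] {M : ℕ} (u : Fin (M + 1)) (j : Fin M)
    (F : MvPolynomial (Fin (M + 1)) K) (d : ℕ) :
    coeff (Finsupp.single j d) (lsub K (zi K u) F) =
      coeff (Finsupp.single (u.succAbove j) d) F := by
  have h1 : ∀ s : Fin (M + 1) →₀ ℕ, lsub K (zi K u) (monomial s 1) =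
      if s u = 0 then monomial (s.comapDomain u.succAbove
        Fin.succAbove_right_injective.injOn) 1 else 0 := by
    intro s
    rw [monomial_eq, map_one, one_mul, Finsupp.prod_fintype _ _ (fun i => pow_zero _), map_prod,
      Fin.prod_univ_succAbove _ u, map_pow, lsub_zi_self]
    by_cases hs : s u = 0
    · rw [if_pos hs, hs, pow_zero, one_mul, monomial_eq, map_one, one_mul,
        Finsupp.prod_fintype _ _ (fun i => pow_zero _)]
      refine Finset.prod_congr rfl fun k _ => ?_
      rw [map_pow, lsub_zi_succAbove]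
      rfl
    · rw [if_neg hs, zero_pow hs, zero_mul]
  induction F using MvPolynomial.induction_on' with
  | monomial s a =>
    have h2 : monomial s a = C a * monomial s (1 : K) := by
      rw [C_mul_monomial, mul_one]
    rw [h2, map_mul, lsub_C, coeff_C_mul, h1]
    change a * _ = _
    rw [coeff_C_mul]
    congr 1
    by_cases hs : s u = 0
    · rw [if_pos hs, coeff_monomial, coeff_monomial]
      congr 1
      rw [eq_iff_iff]
      constructor
      · intro h3
        ext i
        rcases Fin.eq_self_or_eq_succAbove u i with hi | ⟨k, hi⟩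
        · rw [hi, hs, Finsupp.single_eq_of_ne (Fin.succAbove_ne u j).symm]
        · have h4 := DFunLike.congr_fun h3 k
          rw [Finsupp.comapDomain_apply] at h4
          rw [hi, h4, Finsupp.single_apply, Finsupp.single_apply]
          congr 1
          rw [eq_iff_iff]
          exact ⟨fun h => by rw [h], fun h => Fin.succAbove_right_injective h⟩
      · intro h3
        ext k
        rw [Finsupp.comapDomain_apply, h3, Finsupp.single_apply, Finsupp.single_apply]
        congr 1
        rw [eq_iff_iff]
        exact ⟨fun h => Fin.succAbove_right_injective h, fun h => by rw [h]⟩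
    · rw [if_neg hs, coeff_zero, coeff_monomial, if_neg]
      intro h3
      apply hs
      rw [h3, Finsupp.single_eq_of_ne (Fin.succAbove_ne u j).symm]
  | add p q hp hq => rw [map_add, coeff_add, coeff_add, hp, hq]

/-- The inclusion of a coordinate hyperplane and averages. -/
lemma push_av_zi {K : Type u} [Field K] {M : ℕ} (u : Fin (M + 1)) {t : ℕ}
    {e : AddChar (ZMod m) K} {β : Fin (M + 1) → ι} (c : Ideal (MvPolynomial (Fin M) K) → ℚ) :
    push (lsub K (zi K u)) 1 t (av e (β ∘ u.succAbove) c) =
      av e β (push (lsub K (zi K u)) 1 t c) := by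
  have h1 := push_av (isFib_zi u 1) (t := t) (e := e) (β := β) (β' := β ∘ u.succAbove)
    (fun a f => compat_zi (e := e) (β := β) u a f) (fun a => by
      rw [map_one]
      exact eig_one _) c
  rw [ex_self] at h1
  exact h1

/-- **Averages of cycles on projective hypersurfaces.** -/
theorem av_proj : ∀ (k : ℕ) (K : Type u) [Field K] (e : AddChar (ZMod m) K), Faithful e →
    ∀ (N : ℕ) (β : Fin N → ι) (F : MvPolynomial (Fin N) K), IsSF e β F → ∀ j₀ : Fin N,
    coeff (Finsupp.single j₀ m) F ≠ 0 → ∀ t, t + 1 = (Finset.univ.image β).card → t + 1 + k = N →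
    ∃ ℓ : Fin k → Fin N → K, LinearIndependent K ℓ ∧
      F ∉ Ideal.span (Set.range fun i => lform (ℓ i)) ∧
      ∀ P, IsSub t 1 P → F ∈ P → av e β (pt P) ∈ Submodule.span ℚ {sect t F ℓ} ⊔ RatEq F t := by
  intro k
  induction k with
  | zero =>
    intro K _ e he N β F hF j₀ hj₀ t ht htN
    have hF0 : F ≠ 0 := by
      rintro rfl
      exact hj₀ (coeff_zero _)
    have hspan : Ideal.span (Set.range fun i : Fin 0 => lform ((Fin.elim0 : Fin 0 → Fin N → K) i))
        = ⊥ := by
      rw [Set.range_eq_empty, Ideal.span_empty]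
    refine ⟨Fin.elim0, linearIndependent_empty_type, ?_, ?_⟩
    · rw [hspan]
      exact hF0
    · intro P hP hFP
      have hinj : Function.Injective β := injective_of_card (by omega)
      have hst : Stable e β (Ideal.span {F} ⊔
          Ideal.span (Set.range fun i => lform ((Fin.elim0 : Fin 0 → Fin N → K) i))) := by
        rw [hspan, sup_bot_eq]
        exact hF.stable
      have hN : IsSub N 1 (⊥ : Ideal (MvPolynomial (Fin N) K)) := (isSub_iff.1 (isSub_bot j₀)).1
      have hidiv : sect t F (Fin.elim0 : Fin 0 → Fin N → K) = idiv t 1 ⊥ F := by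
        funext P'
        by_cases hP' : IsSub t 1 P'
        · rw [sect_of hP', idiv_of hP', hspan, sup_bot_eq, bot_sup_eq]
        · rw [sect_of_not hP', idiv_of_not hP']
      have hN' : N = t + 1 := by omega
      subst hN'
      refine Submodule.mem_sup_left ?_
      refine av_pt_mem_of_conj (c := sect t F Fin.elim0) ?_ ?_ ?_ ?_ ?_
      · rw [hidiv]
        exact idiv_support_finite hN (by rwa [Ideal.mem_bot])
      · intro P'
        rw [hidiv]
        exact idiv_nonneg _ _ _ _ _
      · rw [sect_of hP, Nat.cast_ne_zero]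
        apply mult_ne_zero
        refine mem_minimalPrimes (K := K) (Q := ⊥) hP.prime Ideal.isPrime_bot hP.trdeg trdeg_bot
          bot_le (a := F) hF0 (Ideal.mem_sup_left (Ideal.mem_span_singleton_self _)) ?_
        rw [hspan, sup_bot_eq, Ideal.span_singleton_le_iff_mem]
        exact hFP
      · intro P' hP'
        obtain ⟨h1, h2, -⟩ := le_of_sect_ne_zero hP'
        exact conj_of_injective hinj he hF hF0 rfl hP h1 hFP h2
      · rw [av_of_inv e β (tr_sect hst)]
        exact Submodule.smul_mem _ _ (Submodule.mem_span_singleton_self _)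
  | succ k ih =>
    intro K _ e he N β F hF j₀ hj₀ t ht htN
    obtain ⟨M, rfl⟩ : ∃ M, N = M + 1 := ⟨N - 1, by omega⟩
    obtain ⟨u, v, hβ, huv, huj⟩ : ∃ u v, β u = β v ∧ v ≠ u ∧ j₀ ≠ u := by
      have hninj : ¬ Function.Injective β := by
        intro h
        have := Finset.card_image_of_injective Finset.univ h
        rw [Finset.card_univ, Fintype.card_fin] at this
        omega
      unfold Function.Injective at hninj
      push Not at hninj
      obtain ⟨u, v, h1, h2⟩ := hninj
      by_cases h3 : j₀ = u
      · exact ⟨v, u, h1.symm, h2, by rw [h3]; exact h2⟩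
      · exact ⟨u, v, h1, h2.symm, h3⟩
    have himg : Finset.univ.image (β ∘ u.succAbove) = Finset.univ.image β :=
      image_comp_succAbove huv hβ
    obtain ⟨j₁, hj₁⟩ := Fin.exists_succAbove_eq huj
    obtain ⟨u', hu'⟩ := Fin.exists_succAbove_eq huv.symm
    obtain ⟨ℓ', hℓ', hFℓ', hmem'⟩ := ih K e he M (β ∘ u.succAbove) (lsub K (zi K u) F) (hF.zi u) j₁
      (by rw [coeff_lsub_zi, hj₁]; exact hj₀) t (by rw [himg]; exact ht) (by omega)
    set ℓ : Fin (k + 1) → Fin (M + 1) → K :=
      Fin.cons (Pi.single u 1) fun i => Matrix.vecMul (ℓ' i) (zi K u).transpose with hℓ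
    have hℓ0 : ℓ 0 = Pi.single u 1 := by rw [hℓ, Fin.cons_zero]
    have hℓs : ∀ i : Fin k, Matrix.vecMul (ℓ i.succ) (zi K u) = ℓ' i := by
      intro i
      rw [hℓ, Fin.cons_succ, Matrix.vecMul_vecMul, zi_mul, Matrix.vecMul_one]
    have hfun : (fun i : Fin k => Matrix.vecMul (ℓ i.succ) (zi K u)) = ℓ' := funext hℓs
    have h1 : (zi K u).transpose * zi K u = 1 := zi_mul u
    have h2 : zi K u * (zi K u).transpose = 1 - Matrix.vecMulVec (Pi.single u 1) (ℓ 0) := by
      rw [hℓ0]
      exact mul_zi u
    have h3 : Matrix.vecMul (ℓ 0) (zi K u) = 0 := by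
      rw [hℓ0]
      exact single_vecMul_zi u
    refine ⟨ℓ, ?_, ?_, ?_⟩
    · rw [Fintype.linearIndependent_iff]
      intro c hc
      have h4 : ∑ i : Fin k, c i.succ • ℓ' i = 0 := by
        have h5 := congrArg (fun w => Matrix.vecMul w (zi K u)) hc
        simp only [Fin.sum_univ_succ, Matrix.add_vecMul, Matrix.smul_vecMul, Matrix.sum_vecMul,
          h3, Matrix.zero_vecMul, smul_zero, zero_add, hℓs] at h5
        exact h5
      have h6 : ∀ i : Fin k, c i.succ = 0 :=
        Fintype.linearIndependent_iff.1 hℓ' (fun i => c i.succ) h4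
      intro i
      refine Fin.cases ?_ h6 i
      rw [Fin.sum_univ_succ, Finset.sum_eq_zero (fun i _ => by rw [h6 i, zero_smul]), add_zero,
        hℓ0] at hc
      have h7 := congrFun hc u
      rw [Pi.smul_apply, Pi.single_eq_same, smul_eq_mul, mul_one] at h7
      exact h7
    · intro h4
      apply hFℓ'
      have h5 := span_comap h1 h2 h3 (⊥ : Ideal (MvPolynomial (Fin (M + 1)) K))
      have hfun' : (fun i : Fin k => lform (Matrix.vecMul (ℓ i.succ) (zi K u))) =
          fun i => lform (ℓ' i) := funext fun i => by rw [hℓs]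
      rw [Ideal.map_bot, bot_sup_eq, bot_sup_eq, hfun'] at h5
      rw [← h5] at h4
      exact h4
    · -- the subvarieties of the hyperplane
      have key : ∀ P, IsSub t 1 P → F ∈ P → X u ∈ P →
          av e β (pt P) ∈ Submodule.span ℚ {sect t F ℓ} ⊔ RatEq F t := by
        intro P hP hFP hlP
        obtain ⟨P', hP', hPP'⟩ := exists_isSub_zi u hP hlP
        rw [map_one] at hP'
        have h4 := hmem' P' hP' (by
          rw [← hPP', Ideal.mem_comap] at hFP
          exact hFP)
        have h5 := Submodule.mem_map_of_mem (f := push (lsub K (zi K u)) 1 t) h4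
        rw [push_av_zi, push_pt (isFib_zi u 1) (by rw [map_one]; exact hP'), hPP',
          Submodule.map_sup, Submodule.map_span, Set.image_singleton, ← hfun,
          push_sect_param h1 h2 h3] at h5
        exact (sup_le_sup_left (push_ratEq_param h1 h2 h3) _) h5
      intro P hP hFP
      by_cases hlP : X u ∈ P
      · exact key P hP hFP hlP
      · have h4 := av_low (M + 1) K e he β F hF t u P (by omega) (by omega)
          (isSub_iff.2 ⟨hP, hlP⟩) hFP
        set S := Submodule.span ℚ {sect t F ℓ} ⊔ RatEq F t with hS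
        have h5 : IRatEq (Ideal.span {F}) t ≤ S.comap (av e β) := by
          refine (iRatEq_le_av hF.stable).trans (Submodule.comap_mono ?_)
          rw [iRatEq_span]
          exact le_sup_right
        have h6 := iRel_le (I := Ideal.span {F}) (t := t) (r := Pi.single u (1 : K)) h5
          fun P₂ hP₂ hFP₂ hu₂ => by
            rw [lform_single] at hu₂
            rw [Ideal.span_singleton_le_iff_mem] at hFP₂
            exact key P₂ hP₂ hFP₂ hu₂
        rw [lform_single] at h6
        exact av_mem_of_av_av_mem (h6 h4)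

end Pool.Agent.H835.AV
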