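import Pool.Agent.H835.AV.Gen
import Pool.Agent.H835.AV.Proj

set_option autoImplicit false
set_option linter.unusedSectionVars false

/-!
# Averages of cycles on projective varieties
-/

universe u

namespace Pool.Agent.H835.AV

open MvPolynomial Pool.Agent.W5h86.HC

variable {m : ℕ} {ι : Type} [Fintype ι] [DecidableEq ι] [NeZero m]

section defs

variable {K : Type u} [Field K] {N : ℕ}

/-- the ideal of a coordinate section -/
noncomputable def secI {k : ℕ} (I : Ideal (MvPolynomial (Fin N) K)) (c : Fin k → Fin N) :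
    Ideal (MvPolynomial (Fin N) K) := I ⊔ Ideal.span (Set.range fun i => X (c i))

open scoped Classical in
/-- The cycle of dimension `t - 1` of the ideal `J`. -/
noncomputable def icyc (t : ℕ) (J : Ideal (MvPolynomial (Fin N) K)) :
    Ideal (MvPolynomial (Fin N) K) → ℚ :=
  fun P => if IsSub t 1 P then (mult J P : ℚ) else 0

lemma icyc_of {t : ℕ} {J P : Ideal (MvPolynomial (Fin N) K)} (h : IsSub t 1 P) :
    icyc t J P = (mult J P : ℚ) := if_pos h

lemma icyc_of_not {t : ℕ} {J P : Ideal (MvPolynomial (Fin N) K)} (h : ¬ IsSub t 1 P) :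
    icyc t J P = 0 := if_neg h

lemma le_of_icyc_ne_zero {t : ℕ} {J P : Ideal (MvPolynomial (Fin N) K)} (h : icyc t J P ≠ 0) :
    IsSub t 1 P ∧ J ≤ P := by
  by_cases hP : IsSub t 1 P
  · rw [icyc_of hP] at h
    refine ⟨hP, ?_⟩
    by_contra hcon
    rw [mult_eq_zero hcon] at h
    exact h rfl
  · exact absurd (icyc_of_not hP) h

/-- all components have dimension at most `t - 1` -/
def DimLe (t : ℕ) (J : Ideal (MvPolynomial (Fin N) K)) : Prop :=
  ∀ P : Ideal (MvPolynomial (Fin N) K), P.IsPrime → J ≤ P → ∀ n : ℕ,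
    Algebra.trdeg K (MvPolynomial (Fin N) K ⧸ P) = n → n ≤ t

lemma DimLe.mem_minimalPrimes {t : ℕ} {J P : Ideal (MvPolynomial (Fin N) K)} (h : DimLe t J)
    (hP : P.IsPrime) (hJP : J ≤ P) (ht : Algebra.trdeg K (MvPolynomial (Fin N) K ⧸ P) = t) :
    P ∈ J.minimalPrimes := by
  refine ⟨⟨hP, hJP⟩, fun P' ⟨hP', hJP'⟩ hle => ?_⟩
  by_contra hcon
  obtain ⟨k, hk⟩ := exists_trdeg_eq (K := K) P'
  have h1 := trdeg_quot_lt (K := K) hP' hP (lt_of_le_of_ne hle fun h => hcon h.symm.le) hk ht
  have h2 := h P' hP' hJP' k hk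
  omega

lemma DimLe.finite {t : ℕ} {J : Ideal (MvPolynomial (Fin N) K)} (h : DimLe t J) :
    (Function.support (icyc t J)).Finite := by
  refine (Ideal.finite_minimalPrimes_of_isNoetherianRing _ J).subset fun P hP => ?_
  obtain ⟨h1, h2⟩ := le_of_icyc_ne_zero hP
  exact h.mem_minimalPrimes h1.prime h2 h1.trdeg

lemma icyc_nonneg (t : ℕ) (J P : Ideal (MvPolynomial (Fin N) K)) : 0 ≤ icyc t J P := by
  by_cases hP : IsSub t 1 P
  · rw [icyc_of hP]
    exact Nat.cast_nonneg _
  · rw [icyc_of_not hP]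

lemma stable_secI {e : AddChar (ZMod m) K} {β : Fin N → ι} {I : Ideal (MvPolynomial (Fin N) K)}
    (hI : Stable e β I) {k : ℕ} (c : Fin k → Fin N) : Stable e β (secI I c) := by
  intro a
  refine sup_le ((hI a).trans (Ideal.comap_mono le_sup_left)) ?_
  rw [Ideal.span_le]
  rintro _ ⟨i, rfl⟩
  rw [SetLike.mem_coe, Ideal.mem_comap, (eig_wt_X (e := e) (β := β) (c i) a).mem_iff]
  exact Ideal.mem_sup_right (Ideal.subset_span ⟨i, rfl⟩)

/-- The class of a stable ideal is fixed by the group. -/
lemma tr_icyc {e : AddChar (ZMod m) K} {β : Fin N → ι} {J : Ideal (MvPolynomial (Fin N) K)}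
    (hJ : Stable e β J) (t : ℕ) (a : ι → ZMod m) : tr (wt e β a) (icyc t J) = icyc t J := by
  funext P
  rw [tr_apply]
  by_cases hP : IsSub t 1 P
  · rw [icyc_of hP, icyc_of ((isSub_comap_sc_iff (wt_mul_neg e β a) (eig_one _) (eig_one _)).2 hP),
      mult_comap_sc hJ a hP.prime]
  · rw [icyc_of_not hP, icyc_of_not fun h1 => hP
      ((isSub_comap_sc_iff (wt_mul_neg e β a) (eig_one _) (eig_one _)).1 h1)]

end defs

section zi

variable {K : Type u} [Field K] {M : ℕ} (u : Fin (M + 1)) {I : Ideal (MvPolynomial (Fin (M + 1)) K)}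

lemma comap_secI {k : ℕ} (c : Fin k → Fin M) :
    (secI (zI u I) c).comap (lsub K (zi K u)) =
      secI I (Fin.cons u fun i => u.succAbove (c i)) := by
  have hsurj : Function.Surjective (lsub K (zi K u)) :=
    fun y => ⟨lsub K (zi K u).transpose y, lsub_param_inv (zi_mul u) y⟩
  have h5 : secI (zI u I) c =
      (secI I (Fin.cons u fun i => u.succAbove (c i))).map (lsub K (zi K u)) := by
    unfold secI zI
    rw [Ideal.map_sup, Ideal.map_span]
    congr 1
    apply le_antisymm
    · rw [Ideal.span_le]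
      rintro _ ⟨i, rfl⟩
      rw [SetLike.mem_coe]
      apply Ideal.subset_span
      refine ⟨X (u.succAbove (c i)), ⟨i.succ, ?_⟩, lsub_zi_succAbove u (c i)⟩
      simp only [Fin.cons_succ]
    · rw [Ideal.span_le]
      rintro _ ⟨_, ⟨i, rfl⟩, rfl⟩
      rw [SetLike.mem_coe]
      refine Fin.cases ?_ (fun j => ?_) i
      · simp only [Fin.cons_zero]
        rw [lsub_zi_self]
        exact Ideal.zero_mem _
      · simp only [Fin.cons_succ]
        rw [lsub_zi_succAbove]
        exact Ideal.subset_span ⟨j, rfl⟩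
  rw [h5]
  apply le_antisymm
  · intro f hf
    rw [Ideal.comap_map_of_surjective (lsub K (zi K u)) hsurj] at hf
    obtain ⟨a, ha, b, hb, rfl⟩ := Submodule.mem_sup.1 hf
    refine Ideal.add_mem _ ha (Ideal.mem_sup_right ?_)
    have hb' : lsub K (zi K u) b = 0 := hb
    have hb2 := lsub_param_eq_zero (mul_zi u) hb'
    rw [lform_single] at hb2
    have hle : Ideal.span {X u} ≤ Ideal.span (Set.range fun i : Fin (k + 1) =>
        (X ((Fin.cons u fun i => u.succAbove (c i) : Fin (k + 1) → Fin (M + 1)) i) :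
          MvPolynomial (Fin (M + 1)) K)) := by
      rw [Ideal.span_singleton_le_iff_mem]
      exact Ideal.subset_span ⟨0, by simp only [Fin.cons_zero]⟩
    exact hle hb2
  · exact Ideal.le_comap_map

lemma push_icyc_zi {k : ℕ} (c : Fin k → Fin M) (t : ℕ) :
    push (lsub K (zi K u)) 1 t (icyc t (secI (zI u I) c)) =
      icyc t (secI I (Fin.cons u fun i => u.succAbove (c i))) := by
  have hfib := isFib_zi (K := K) u (1 : MvPolynomial (Fin (M + 1)) K)
  funext P
  by_cases hP : ∃ P', IsSub t (lsub K (zi K u) 1) P' ∧ P'.comap (lsub K (zi K u)) = P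
  · obtain ⟨P', hP', rfl⟩ := hP
    have hP1 : IsSub t 1 P' := by
      rw [map_one] at hP'
      exact hP'
    rw [push_of hfib _ hP', icyc_of hP1, icyc_of (isSub_comap_param (zi_mul u) hP1),
      ← comap_secI]
    congr 1
    exact (mult_comap (lsub K (zi K u) : MvPolynomial (Fin (M + 1)) K →+* MvPolynomial (Fin M) K)
      hP'.prime (hfib.den' hP'.prime hP'.notMem) _).symm
  · rw [push_of_not _ hP]
    by_contra h4
    obtain ⟨h5, h6⟩ := le_of_icyc_ne_zero (Ne.symm h4)
    have h7 : X u ∈ P := h6 (Ideal.mem_sup_right (Ideal.subset_span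
      ⟨0, by simp only [Fin.cons_zero]⟩))
    exact hP (exists_isSub_zi u h5 h7)

lemma push_iRatEq_zi (t : ℕ) :
    (IRatEq (zI u I) t).map (push (lsub K (zi K u)) 1 t) ≤ IRatEq I t := by
  have h1 : (zi K u).transpose * zi K u = 1 := zi_mul u
  have h2 := mul_zi (K := K) u
  have h3 := single_vecMul_zi (K := K) u
  unfold IRatEq
  rw [Submodule.map_span_le]
  rintro c ⟨Q', G₁, G₂, e, hQ, hIQ, hG₁, hG₂, hGQ₁, hGQ₂, rfl⟩
  rw [map_sub, push_idiv_param h1 h2 h3, push_idiv_param h1 h2 h3]
  refine Submodule.subset_span ⟨_, _, _, e, isSub_comap_param h1 hQ,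
    (le_comap_zI u I).trans (Ideal.comap_mono hIQ),
    isHomogeneous_lsub _ hG₁, isHomogeneous_lsub _ hG₂, ?_, ?_, rfl⟩
  · rw [Ideal.mem_comap, lsub_param_inv h1]
    exact hGQ₁
  · rw [Ideal.mem_comap, lsub_param_inv h1]
    exact hGQ₂

lemma dimLe_cons {k t : ℕ} {c : Fin k → Fin M} (h : DimLe t (secI (zI u I) c)) :
    DimLe t (secI I (Fin.cons u fun i => u.succAbove (c i))) := by
  intro P hP hle n hn
  have hu : X u ∈ P := hle (Ideal.mem_sup_right (Ideal.subset_span
    ⟨0, by simp only [Fin.cons_zero]⟩))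
  have hsurj : Function.Surjective (lsub K (zi K u) :
      MvPolynomial (Fin (M + 1)) K →+* MvPolynomial (Fin M) K) :=
    fun y => ⟨lsub K (zi K u).transpose y, lsub_param_inv (zi_mul u) y⟩
  have hker : RingHom.ker (lsub K (zi K u) :
      MvPolynomial (Fin (M + 1)) K →+* MvPolynomial (Fin M) K) ≤ P := by
    intro f hf
    have hf' : lsub K (zi K u) f = 0 := hf
    have h2 := lsub_param_eq_zero (mul_zi u) hf'
    rw [lform_single] at h2
    have hle : Ideal.span {X u} ≤ P := by
      rw [Ideal.span_singleton_le_iff_mem]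
      exact hu
    exact hle h2
  have hprime := Ideal.map_isPrime_of_surjective hsurj hker
  have hcomap : (P.map (lsub K (zi K u) :
      MvPolynomial (Fin (M + 1)) K →+* MvPolynomial (Fin M) K)).comap
      (lsub K (zi K u) : MvPolynomial (Fin (M + 1)) K →ₐ[K] MvPolynomial (Fin M) K) = P := by
    have h3 := Ideal.comap_map_of_surjective (lsub K (zi K u) :
      MvPolynomial (Fin (M + 1)) K →+* MvPolynomial (Fin M) K) hsurj P
    rw [← RingHom.ker_eq_comap_bot, sup_eq_left.2 hker] at h3
    exact h3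
  refine h _ hprime ?_ n ?_
  · rw [← comap_secI, ← hcomap] at hle
    intro y hy
    obtain ⟨x, rfl⟩ := hsurj y
    exact hle hy
  · rw [← hn, ← hcomap]
    have h4 := trdeg_comap_integral (K := K) (lsub K (zi K u)) hprime fun y => by
      obtain ⟨x, rfl⟩ := hsurj y
      exact RingHom.isIntegralElem_map _
    rw [hcomap] at h4 ⊢
    exact h4.symm

end zi

variable {C : ∀ (κ : Type u) [Field κ] (M : ℕ), AddChar (ZMod m) κ → (Fin M → ι) → ℕ → ℕ →
    Ideal (MvPolynomial (Fin M) κ) → Prop}

/-- The conclusion on averages of cycles on a projective variety. -/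
def AvTriv {K : Type u} [Field K] {N : ℕ} (e : AddChar (ZMod m) K) (β : Fin N → ι) (t : ℕ)
    (I : Ideal (MvPolynomial (Fin N) K)) : Prop :=
  ∃ (k : ℕ) (c : Fin k → Fin N), DimLe t (secI I c) ∧ ∀ P, IsSub t 1 P → I ≤ P →
    av e β (pt P) ∈ Submodule.span ℚ {icyc t (secI I c)} ⊔ IRatEq I t

lemma span_icyc_le_av {K : Type u} [Field K] {N : ℕ} {e : AddChar (ZMod m) K} {β : Fin N → ι}
    {t : ℕ} {I : Ideal (MvPolynomial (Fin N) K)} (hI : Stable e β I) {k : ℕ}
    (c : Fin k → Fin N) :
    Submodule.span ℚ {icyc t (secI I c)} ⊔ IRatEq I t ≤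
      (Submodule.span ℚ {icyc t (secI I c)} ⊔ IRatEq I t).comap (av e β) := by
  refine sup_le ?_ ((iRatEq_le_av hI).trans (Submodule.comap_mono le_sup_right))
  rw [Submodule.span_le, Set.singleton_subset_iff, SetLike.mem_coe, Submodule.mem_comap,
    av_of_inv e β (tr_icyc (stable_secI hI c) t)]
  exact Submodule.mem_sup_left (Submodule.smul_mem _ _ (Submodule.mem_span_singleton_self _))

/-- **Averages of cycles on projective varieties.** -/
theorem gen_proj (hC : Cls m ι C) : ∀ (N : ℕ) (K : Type u) [Field K] (e : AddChar (ZMod m) K)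
    (β : Fin N → ι) (t ρ : ℕ) (I : Ideal (MvPolynomial (Fin N) K)), C K N e β t ρ I →
    t + ρ ≤ N → 1 ≤ t → AvTriv e β t I := by
  intro N
  induction N with
  | zero =>
    intro K _ e β t ρ I _ ht ht1
    omega
  | succ M ih =>
    -- the case of positive codimension
    have key : ∀ (K : Type u) [Field K] (e : AddChar (ZMod m) K)
        (β : Fin (M + 1) → ι) (t ρ : ℕ) (I : Ideal (MvPolynomial (Fin (M + 1)) K)),
        C K (M + 1) e β t ρ I → t + ρ < M + 1 → 1 ≤ t → ¬ Function.Injective β →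
        AvTriv e β t I := by
      intro K _ e β t ρ I h ht ht1 hβ
      have hst := hC.stable _ _ _ _ _ _ _ h
      obtain ⟨u, v, hβ, huv⟩ : ∃ u v, β u = β v ∧ v ≠ u := by
        unfold Function.Injective at hβ
        push Not at hβ
        obtain ⟨u, v, h1, h2⟩ := hβ
        exact ⟨u, v, h1, h2.symm⟩
      obtain ⟨k, c, hdim, hmem⟩ := ih K e (β ∘ u.succAbove) t ρ (zI u I)
        (hC.zi _ _ _ _ _ _ _ u v huv hβ h) (by omega) ht1
      refine ⟨k + 1, Fin.cons u fun i => u.succAbove (c i), dimLe_cons u hdim, ?_⟩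
      set S := Submodule.span ℚ {icyc t (secI I (Fin.cons u fun i => u.succAbove (c i)))} ⊔
        IRatEq I t with hS
      have key2 : ∀ P, IsSub t 1 P → I ≤ P → X u ∈ P → av e β (pt P) ∈ S := by
        intro P hP hIP hlP
        obtain ⟨P', hP', hPP'⟩ := exists_isSub_zi u hP hlP
        rw [map_one] at hP'
        have h4 := hmem P' hP' (zI_le (by rw [hPP']; exact hIP))
        have h5 := Submodule.mem_map_of_mem (f := push (lsub K (zi K u)) 1 t) h4
        rw [push_av_zi, push_pt (isFib_zi u 1) (by rw [map_one]; exact hP'), hPP',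
          Submodule.map_sup, Submodule.map_span, Set.image_singleton, push_icyc_zi] at h5
        exact (sup_le_sup_left (push_iRatEq_zi u t) _) h5
      intro P hP hIP
      by_cases hlP : X u ∈ P
      · exact key2 P hP hIP hlP
      · have h4 := gen_low hC (M + 1) K e β t ρ I h ht u P (isSub_iff.2 ⟨hP, hlP⟩) hIP
        have h5 : IRatEq I t ≤ S.comap (av e β) :=
          (iRatEq_le_av hst).trans (Submodule.comap_mono le_sup_right)
        have h6 := iRel_le (I := I) (t := t) (r := Pi.single u (1 : K)) h5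
          fun P₂ hP₂ hIP₂ hu₂ => by
            rw [lform_single] at hu₂
            exact key2 P₂ hP₂ hIP₂ hu₂
        rw [lform_single] at h6
        exact av_mem_of_av_av_mem (h6 h4)
    have key' : ∀ (K : Type u) [Field K] (e : AddChar (ZMod m) K)
        (β : Fin (M + 1) → ι) (t ρ : ℕ) (I : Ideal (MvPolynomial (Fin (M + 1)) K)),
        C K (M + 1) e β t ρ I → t + ρ < M + 1 → 1 ≤ t → AvTriv e β t I := by
      intro K _ e β t ρ I h ht ht1
      by_cases hβ : Function.Injective β
      · obtain ⟨f, h1, h2⟩ := hC.merge _ _ _ _ _ _ _ h hβ ht ht1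
        obtain ⟨k, c, hdim, hmem⟩ := key K e (f ∘ β) t ρ I h2 ht ht1 h1
        refine ⟨k, c, hdim, fun P hP hIP => ?_⟩
        exact av_mem_of_comp f (span_icyc_le_av (hC.stable _ _ _ _ _ _ _ h) c) (hmem P hP hIP)
      · exact key K e β t ρ I h ht ht1 hβ
    intro K _ e β t ρ I h ht ht1
    rcases Nat.lt_or_ge (t + ρ) (M + 1) with h1 | h1
    · exact key' K e β t ρ I h h1 ht1
    · rcases hC.top _ _ _ _ _ _ _ h (by omega) with ⟨ρ', hρ', h3⟩ | h3
      · exact key' K e β t ρ' I h3 (by omega) ht1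
      · have hsec : secI I (Fin.elim0 : Fin 0 → Fin (M + 1)) = I := by
          unfold secI
          rw [Set.range_eq_empty, Ideal.span_empty, sup_bot_eq]
        refine ⟨0, Fin.elim0, ?_, ?_⟩
        · rw [hsec]
          exact h3.2
        · intro P hP hIP
          rw [hsec]
          refine Submodule.mem_sup_left ?_
          have hdim : DimLe t I := h3.2
          refine av_pt_mem_of_conj (c := icyc t I) hdim.finite (icyc_nonneg t I) ?_ ?_ ?_
          · rw [icyc_of hP, Nat.cast_ne_zero]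
            exact mult_ne_zero (hdim.mem_minimalPrimes hP.prime hIP hP.trdeg)
          · intro P' hP'
            obtain ⟨h4, h5⟩ := le_of_icyc_ne_zero hP'
            exact h3.1 P P' hP h4 hIP h5
          · rw [av_of_inv e β (tr_icyc (hC.stable _ _ _ _ _ _ _ h) t)]
            exact Submodule.smul_mem _ _ (Submodule.mem_span_singleton_self _)

end Pool.Agent.H835.AV
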