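import Pool.Agent.H835.AV.HartMain

set_option autoImplicit false
set_option linter.unusedSectionVars false

/-!
# The group ring acting on cycles of low dimension on intersections of sums of forms
-/

universe u

namespace Pool.Agent.H835.AV

open MvPolynomial Pool.Agent.W5h86.HC

section stable

variable {K : Type u} [Field K] {m : ℕ} [NeZero m] {ζ : K} {N ρ : ℕ} {ι : Type} [Fintype ι]
  [DecidableEq ι] {β : Fin N → ι}

/-- The ideal generated by sums of forms is stable. -/
lemma sums_stable (hζ : ζ ^ m = 1) {n : ℕ} (hmn : m ∣ n) {G : Fin ρ → MvPolynomial (Fin N) K}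
    (hG : ∀ r, SF β n (G r)) (g : ι → ZMod m) :
    Ideal.span (Set.range G) ≤ (Ideal.span (Set.range G)).comap (sc (zpows ζ (g ∘ β))) := by
  rw [zpows_block hζ, Ideal.span_le]
  rintro _ ⟨r, rfl⟩
  rw [SetLike.mem_coe, Ideal.mem_comap, (hG r).inv hmn]
  exact Ideal.subset_span ⟨r, rfl⟩

/-- Averages over merged blocks. -/
lemma avTriv_low {n t : ℕ} {e : AddChar (ZMod m) K} (he : Good e n)
    (hβ : Function.Surjective β) (ht : 1 ≤ t)
    {G : Fin ρ → MvPolynomial (Fin N) K} (hG : ∀ r, SF β n (G r)) {π : ι → ι}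
    (hπ : t + ρ ≤ (Finset.univ.image π).card) :
    AvTriv e (π ∘ β) t (Ideal.span (Set.range G)) := by
  have h1 : Finset.univ.image (π ∘ β) = Finset.univ.image π := by
    ext x
    simp only [Finset.mem_image, Finset.mem_univ, true_and, Function.comp_apply]
    exact ⟨fun ⟨j, hj⟩ => ⟨_, hj⟩, fun ⟨k, hk⟩ => by
      obtain ⟨j, rfl⟩ := hβ k
      exact ⟨j, hk⟩⟩
  have h2 : t + ρ ≤ N := by
    refine hπ.trans ?_
    rw [← h1]
    exact Finset.card_image_le.trans (by rw [Finset.card_univ, Fintype.card_fin])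
  exact gen_proj (cls_CSF n) N K e (π ∘ β) t ρ _
    ⟨he, by rw [h1]; exact hπ, G, fun i => (hG i).comp π, rfl⟩ h2 ht

end stable

section main

variable {K : Type u} [Field K] {m : ℕ} [NeZero m] {ζ : K} {N ρ s : ℕ} {β : Fin N → Fin s}

/-- **The group ring acting on cycles of low dimension.** -/
theorem low_act (hζ : IsPrimitiveRoot ζ m) {n a i : ℕ} (hn : n = m * ringExpChar K ^ a)
    (hβ : Function.Surjective β) (hs : i + 1 + ρ ≤ s) {G : Fin ρ → MvPolynomial (Fin N) K}
    (hG : ∀ r, SF β n (G r)) (z : (Fin s → ZMod m) → ℚ)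
    (hz : ∀ x : Fin s → ZMod m, ∑ k, x k = 0 →
        (¬ ∃ π : Fin s → Fin (i + 1 + ρ), Function.Surjective π ∧
          ∀ l, ∑ k with π k = l, x k = 0) →
        ∑ g, (z g : ℂ) * ZMod.stdAddChar (∑ k, x k * g k) = 0) :
    ∃ (r : ℕ) (c : Fin r → Fin N),
      DimAtMost (Ideal.span (Set.range G) ⊔ Ideal.span (Set.range fun l => X (c l))) i ∧
      ∀ α : CH (Ideal.span (Set.range G)) i, ∃ q : ℚ,
        ∑ g, z g • blockAct hζ.pow_eq_one
          (sums_stable hζ.pow_eq_one (hn ▸ Dvd.intro _ rfl) hG) i g α =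
        q • (ratEq (Ideal.span (Set.range G)) i).mkQ (cyc (Ideal.span (Set.range G)) i
          (Ideal.span (Set.range G) ⊔ Ideal.span (Set.range fun l => X (c l)))) := by
  refine block_main' hζ hn _ i z ?_
  intro e he z' hz'
  have hst : Stable e β (Ideal.span (Set.range G)) := by
    intro b
    rw [Ideal.span_le]
    rintro _ ⟨r, rfl⟩
    rw [SetLike.mem_coe, Ideal.mem_comap, (hG r).inv he.dvd]
    exact Ideal.subset_span ⟨r, rfl⟩
  have h0 : AvTriv e (id ∘ β) (i + 1) (Ideal.span (Set.range G)) := by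
    refine avTriv_low he hβ (by omega) hG ?_
    rw [Finset.image_id, Finset.card_univ, Fintype.card_fin]
    exact hs
  refine char_main hst h0 z' fun x hx hzx => ?_
  obtain ⟨π, h3, h4⟩ : ∃ π : Fin s → Fin s, (Finset.univ.image π).card = i + 1 + ρ ∧
      ∀ k, ∑ j with π j = k, x j = 0 := by
    apply exists_self_map hs
    by_contra hcon
    apply hzx
    rw [sum_ch_neg hz']
    refine hz (-x) ?_ fun h => hcon (exists_neg h)
    simp only [Pi.neg_apply, Finset.sum_neg_distrib, hx, neg_zero]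
  exact ⟨π, avTriv_low he hβ (by omega) hG (by omega), h4⟩

end main

section inv

variable {K : Type u} [Field K] {m : ℕ} [NeZero m] {ζ : K} {N ρ s : ℕ} {β : Fin N → Fin s}

open scoped Classical in
/-- The projector on the invariants of a subgroup. -/
noncomputable def proj (H : AddSubgroup (Fin s → ZMod m)) (g : Fin s → ZMod m) : ℚ :=
  if g ∈ H then (Nat.card H : ℚ)⁻¹ else 0

lemma sum_proj_ch (H : AddSubgroup (Fin s → ZMod m)) {x h : Fin s → ZMod m} (hh : h ∈ H)
    (hx : ∑ k, x k * h k ≠ 0) :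
    ∑ g, (proj H g : ℂ) * ZMod.stdAddChar (∑ k, x k * g k) = 0 := by
  classical
  have h1 : ∑ g, (proj H g : ℂ) * ch x g = ∑ g, (proj H g : ℂ) * ch x g * ch x h := by
    rw [← Fintype.sum_equiv (Equiv.addRight h) (fun g => (proj H (g + h) : ℂ) * ch x (g + h))
      (fun g => (proj H g : ℂ) * ch x g) fun g => rfl]
    refine Finset.sum_congr rfl fun g _ => ?_
    rw [ch_add_right, mul_assoc]
    congr 2
    unfold proj
    simp only [AddSubgroup.add_mem_cancel_right H hh]
  rw [← Finset.sum_mul] at h1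
  have h2 : (∑ g, (proj H g : ℂ) * ch x g) * (ch x h - 1) = 0 := by
    rw [mul_sub, mul_one, ← h1, sub_self]
  exact (mul_eq_zero.1 h2).resolve_right (sub_ne_zero.2 (ch_ne_one hx))

lemma sum_proj_smul {V : Type u} [AddCommGroup V] [Module ℚ V] (H : AddSubgroup (Fin s → ZMod m))
    {A : (Fin s → ZMod m) → V →ₗ[ℚ] V} {α : V} (hα : ∀ g ∈ H, A g α = α) :
    ∑ g, proj H g • A g α = α := by
  classical
  have h1 : ∀ g, proj H g • A g α = if g ∈ H then (Nat.card H : ℚ)⁻¹ • α else 0 := by
    intro g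
    unfold proj
    by_cases hg : g ∈ H
    · rw [if_pos hg, if_pos hg, hα g hg]
    · rw [if_neg hg, if_neg hg, zero_smul]
  rw [Finset.sum_congr rfl fun g _ => h1 g, ← Finset.sum_filter, Finset.sum_const]
  have h2 : (Finset.univ.filter fun g => g ∈ H).card = Nat.card H := by
    rw [Nat.card_eq_fintype_card, Fintype.card_subtype]
  rw [h2, ← Nat.cast_smul_eq_nsmul ℚ, smul_smul, mul_inv_cancel₀, one_smul]
  rw [Nat.cast_ne_zero]
  exact Nat.card_pos.ne'

end inv

end Pool.Agent.H835.AV
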