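import Pool.Agent.H835.AV.LowProj
import Pool.Agent.H835.AV.LowAct

set_option autoImplicit false
set_option linter.unusedSectionVars false

/-!
# The group ring acting on cycles of low dimension on a sum of forms
-/

universe u

namespace Pool.Agent.H835.AV

open MvPolynomial Pool.Agent.W5h86 Pool.Agent.W5h86.HC

section char

variable {K : Type u} [Field K] {N m : ℕ} {ι : Type} [Fintype ι] [DecidableEq ι] [NeZero m]
  {e : AddChar (ZMod m) K} {β : Fin N → ι}

/-- **From averages to all cycles.** -/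
theorem char_main' {t : ℕ} {I : Ideal (MvPolynomial (Fin N) K)} (hst : Stable e β I)
    (S : Submodule ℚ (Ideal (MvPolynomial (Fin N) K) → ℚ)) (z : (ι → ZMod m) → ℚ)
    (hz : ∀ x : ι → ZMod m, ∑ k, x k = 0 → ∑ g, (z g : ℂ) * ch x g ≠ 0 →
      ∃ π : ι → ι, (∀ P, IsSub t 1 P → I ≤ P → av e (π ∘ β) (pt P) ∈ S) ∧
        ∀ k, ∑ j with π j = k, x j = 0) :
    ∀ P, IsSub t 1 P → I ≤ P → ∑ g, z g • tr (wt e β g) (pt P) ∈ S := by
  intro P hP hIP
  by_contra hcon
  obtain ⟨L, hLv, hL⟩ := Submodule.exists_le_ker_of_notMem hcon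
  apply hLv
  rw [map_sum]
  have h1 : ∀ g, L (z g • tr (wt e β g) (pt P)) = z g * L (tr (wt e β g) (pt P)) := by
    intro g
    rw [map_smul, smul_eq_mul]
  rw [Finset.sum_congr rfl fun g _ => h1 g]
  have h3 : ∀ π : ι → ι, (∀ P, IsSub t 1 P → I ≤ P → av e (π ∘ β) (pt P) ∈ S) →
      ∀ g : ι → ZMod m, ∑ a : ι → ZMod m, L (tr (wt e β (g + a ∘ π)) (pt P)) = 0 := by
    intro π hπ g
    have h4 : tr (wt e β g) (pt P) = pt (P.comap (sc (wt e β (-g)))) :=
      tr_pt (wt_mul_neg e β g) P
    have h5 := hπ (P.comap (sc (wt e β (-g))))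
      ((isSub_comap_sc_iff (wt_neg_mul e β g) (eig_one _) (eig_one _)).2 hP)
      ((hst (-g)).trans (Ideal.comap_mono hIP))
    rw [← h4, av_apply] at h5
    have h6 := hL h5
    rw [LinearMap.mem_ker, map_sum] at h6
    rw [← h6]
    refine Finset.sum_congr rfl fun a _ => ?_
    rw [tr_tr, add_comm, wt_add]
    rfl
  have h2 : ∑ g, (z g : ℂ) * (L (tr (wt e β g) (pt P)) : ℂ) = 0 := by
    refine pairing_eq_zero fun x => ?_
    by_cases hx : ∑ k, x k = 0
    · by_cases hzx : ∑ g, (z g : ℂ) * ch x g = 0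
      · exact Or.inl hzx
      · right
        obtain ⟨π, hπ, hπx⟩ := hz x hx hzx
        exact sum_ch_of_fibres (h3 π hπ) hπx
    · right
      refine sum_ch_of_diag (u := fun _ => 1) (fun _ => rfl) (fun g => ?_) hx
      rw [wt_add, ← tr_tr, tr_const hP]
  exact_mod_cast h2

end char

section block

variable {K : Type u} [Field K] {N m : ℕ} [NeZero m] {ζ : K} {ι : Type} [Fintype ι]
  [DecidableEq ι] {β : Fin N → ι} {I J : Ideal (MvPolynomial (Fin N) K)}

/-- **The group ring acting on the Chow groups**, with an arbitrary section. -/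
theorem block_sec (hζ : IsPrimitiveRoot ζ m) {n a : ℕ} (hn : n = m * ringExpChar K ^ a)
    (hI : ∀ g : ι → ZMod m, I ≤ I.comap (sc (zpows ζ (g ∘ β)))) (hIJ : I ≤ J) (i : ℕ)
    (z : (ι → ZMod m) → ℚ)
    (hdiag : ∀ e : AddChar (ZMod m) K, Good e n → ∀ z' : (ι → ZMod m) → ℚ,
      (∀ g, z' g = z (-g)) → ∀ P, IsSub (i + 1) 1 P → I ≤ P →
      ∑ g, z' g • tr (wt e β g) (pt P) ∈
        Submodule.span ℚ {icyc (i + 1) J} ⊔ IRatEq I (i + 1)) (α : CH I i) :
    ∃ q : ℚ, ∑ g, z g • blockAct hζ.pow_eq_one hI i g α = q • (ratEq I i).mkQ (cyc I i J) := by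
  classical
  have hgood : Good (AddChar.zmodChar m hζ.pow_eq_one) n := by
    refine ⟨?_, ringExpChar K, a, inferInstance, hn⟩
    intro x hx
    rw [AddChar.zmodChar_apply, hζ.pow_eq_one_iff_dvd] at hx
    have h1 := ZMod.val_lt x
    have h2 : x.val = 0 := Nat.eq_zero_of_dvd_of_lt hx h1
    exact (ZMod.val_eq_zero x).1 h2
  have hmem := hdiag _ hgood (fun g => z (-g)) fun g => rfl
  obtain ⟨α, rfl⟩ := (ratEq I i).mkQ_surjective α
  have h1 : ∑ g, z g • scaleCyc (zpows_mul_neg hζ.pow_eq_one (g ∘ β)) (hI g) α ∈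
      Submodule.span ℚ {cyc I i J} ⊔ ratEq I i := by
    induction α using Finsupp.induction_linear with
    | zero =>
      simp only [map_zero, smul_zero, Finset.sum_const_zero]
      exact Submodule.zero_mem _
    | add α α' h h' =>
      simp only [map_add, smul_add, Finset.sum_add_distrib]
      exact Submodule.add_mem _ h h'
    | single V q =>
      have h2 : Finsupp.single V q = q • (Finsupp.single V 1 : Cyc I i) := by
        rw [Finsupp.smul_single, smul_eq_mul, mul_one]
      rw [h2]
      simp only [map_smul, smul_comm _ q, ← Finset.smul_sum]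
      refine Submodule.smul_mem _ _ (mem_of_emb hIJ ?_)
      rw [map_sum]
      have h3 : ∀ g : ι → ZMod m, emb I i (z g • scaleCyc
          (zpows_mul_neg hζ.pow_eq_one (g ∘ β)) (hI g) (Finsupp.single V 1)) =
          z g • tr (wt (AddChar.zmodChar m hζ.pow_eq_one) β (-g)) (pt V.P) := by
        intro g
        rw [map_smul, emb_scaleCyc, emb_single,
          (show -(g ∘ β) = (-g) ∘ β from rfl), zpows_block hζ.pow_eq_one]
      rw [Finset.sum_congr rfl fun g _ => h3 g]
      have h4 := hmem V.P V.isSub V.le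
      rw [← Fintype.sum_equiv (Equiv.neg (ι → ZMod m))
        (fun g => z g • tr (wt (AddChar.zmodChar m hζ.pow_eq_one) β (-g))
            (pt V.P)) _ (fun g => by rw [Equiv.neg_apply, neg_neg])] at h4
      exact h4
  obtain ⟨a', ha', b, hb, hab⟩ := Submodule.mem_sup.1 h1
  obtain ⟨q, rfl⟩ := Submodule.mem_span_singleton.1 ha'
  refine ⟨q, ?_⟩
  have h5 : ∑ g, z g • blockAct hζ.pow_eq_one hI i g
      ((ratEq I i).mkQ α) = (ratEq I i).mkQ
      (∑ g, z g • scaleCyc (zpows_mul_neg hζ.pow_eq_one (g ∘ β)) (hI g) α) := by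
    rw [map_sum]
    refine Finset.sum_congr rfl fun g _ => ?_
    rw [map_smul]
    rfl
  have h6 : (ratEq I i).mkQ b = 0 := by
    rw [Submodule.mkQ_apply, Submodule.Quotient.mk_eq_zero]
    exact hb
  rw [h5, ← hab, map_add, map_smul, h6, add_zero]

lemma blockAct_zero (hζ : ζ ^ m = 1)
    (hI : ∀ g : ι → ZMod m, I ≤ I.comap (sc (zpows ζ (g ∘ β)))) (i : ℕ) (α : CH I i) :
    blockAct hζ hI i 0 α = α := by
  obtain ⟨α, rfl⟩ := (ratEq I i).mkQ_surjective α
  have h1 : scaleCyc (zpows_mul_neg hζ ((0 : ι → ZMod m) ∘ β)) (hI 0) α = α := by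
    apply emb_injective
    rw [emb_scaleCyc, (show -((0 : ι → ZMod m) ∘ β) = (0 : ι → ZMod m) ∘ β from by
      funext j
      exact neg_zero), zpows_block hζ, wt_zero, tr_one]
  conv_rhs => rw [← h1]
  rfl

end block

section lin

variable {K : Type u} [Field K] {N : ℕ}

/-- Linear subspaces given by equations. -/
lemma exists_lin_space [Infinite K] {k t : ℕ} {c : Fin k → Fin N → K}
    (hc : LinearIndependent K c) (hN : t + 1 + k = N) :
    ∃ U : Submodule K (Fin N → K), Module.finrank K U = t + 1 ∧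
      VI U = Ideal.span (Set.range fun i => lform (c i)) := by
  classical
  let L : (Fin N → K) →ₗ[K] (Fin k → K) := Matrix.mulVecLin (Matrix.of c)
  have h1 : IsSub (t + 1) 1 (Ideal.span (Set.range fun i => lform (c i))) :=
    isSub_linear k N (t + 1) _ hc hN.symm
  have h2 := isSub_VI (LinearMap.ker L) rfl
  have hle : Ideal.span (Set.range fun i => lform (c i)) ≤ VI (LinearMap.ker L) := by
    rw [Ideal.span_le]
    rintro _ ⟨i, rfl⟩ x hx
    rw [eval_lform]
    have h3 := congrFun (LinearMap.mem_ker.1 hx) i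
    exact h3
  have hfin : t + 1 ≤ Module.finrank K (LinearMap.ker L) := by
    have h3 := LinearMap.finrank_range_add_finrank_ker L
    have h4 := Submodule.finrank_le (LinearMap.range L)
    rw [Module.finrank_fin_fun] at h3 h4
    omega
  have heq : Ideal.span (Set.range fun i => lform (c i)) = VI (LinearMap.ker L) := by
    by_contra hne
    have h3 := trdeg_quot_lt (K := K) h1.prime h2.prime (lt_of_le_of_ne hle hne) h1.trdeg
      h2.trdeg
    omega
  refine ⟨LinearMap.ker L, ?_, heq.symm⟩
  have h3 := h2.trdeg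
  rw [← heq, h1.trdeg] at h3
  exact_mod_cast h3.symm

end lin

section exist

variable {K : Type u} [Field K] {N : ℕ}

/-- There are proper linear sections. -/
lemma exists_section [Infinite K] {F : MvPolynomial (Fin N) K} {n : ℕ} (hn : 0 < n)
    (hF : IsHomogeneous F n) (hF0 : F ≠ 0) {i r : ℕ} (hr : i + 2 + r = N) :
    ∃ c : Fin r → Fin N → K, LinearIndependent K c ∧
      F ∉ Ideal.span (Set.range fun l => lform (c l)) := by
  obtain ⟨a, ha⟩ : ∃ a, eval a F ≠ 0 := by
    by_contra hcon
    push Not at hcon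
    exact hF0 (MvPolynomial.funext fun x => by rw [hcon x, map_zero])
  have ha0 : a ≠ 0 := by
    rintro rfl
    apply ha
    have h1 := eval_smul_hom hF (0 : K) (0 : Fin N → K)
    rw [zero_smul, zero_pow hn.ne', zero_mul] at h1
    exact h1
  let L : (Fin N → K) →ₗ[K] K := ∑ j, a j • LinearMap.proj j
  have hL : ∀ c, L c = ∑ j, c j * a j := by
    intro c
    simp only [L, LinearMap.sum_apply, LinearMap.smul_apply, LinearMap.proj_apply, smul_eq_mul]
    exact Finset.sum_congr rfl fun j _ => mul_comm _ _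
  have hL0 : (L : Module.Dual K (Fin N → K)) ≠ 0 := by
    intro h
    apply ha0
    funext j
    have h1 := LinearMap.congr_fun h (Pi.single j 1)
    rw [hL, Finset.sum_eq_single j (fun i _ hi => by rw [Pi.single_eq_of_ne hi, zero_mul])
      (fun h => absurd (Finset.mem_univ _) h), Pi.single_eq_same, one_mul] at h1
    exact h1
  have h1 := Module.Dual.finrank_ker_add_one_of_ne_zero hL0
  rw [Module.finrank_fin_fun] at h1
  obtain ⟨f, hf⟩ := exists_linearIndependent_of_le_finrank (R := K) (M := LinearMap.ker L)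
    (n := r) (by omega)
  refine ⟨fun l => f l, ?_, fun hcon => ha ?_⟩
  · exact hf.map' (LinearMap.ker L).subtype (Submodule.ker_subtype _)
  · have h2 : Ideal.span (Set.range fun l => lform (f l : Fin N → K)) ≤
        RingHom.ker (eval a : MvPolynomial (Fin N) K →+* K) := by
      rw [Ideal.span_le]
      rintro _ ⟨l, rfl⟩
      rw [SetLike.mem_coe, RingHom.mem_ker, eval_lform, ← hL]
      exact (f l).2
    exact RingHom.mem_ker.1 (h2 hcon)

/-- The ideal of a sum of forms is stable. -/
lemma span_stable {m s n : ℕ} [NeZero m] {ζ : K} (hζ : ζ ^ m = 1) (hmn : m ∣ n)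
    {β : Fin N → Fin s} {F : MvPolynomial (Fin N) K} (hF : SF β n F) (g : Fin s → ZMod m) :
    Ideal.span {F} ≤ (Ideal.span {F}).comap (sc (zpows ζ (g ∘ β))) := by
  rw [zpows_block hζ, Ideal.span_singleton_le_iff_mem, Ideal.mem_comap, hF.inv hmn]
  exact Ideal.mem_span_singleton_self _

end exist

section main

variable {K : Type u} [Field K] [IsAlgClosed K] {m : ℕ} [NeZero m] {ζ : K} {N s : ℕ}
  {β : Fin N → Fin s}

/-- The set of blocks has a partition into `i + 2` nonempty parts such that the sum of the `x k`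
over each part is `0`, or such a partition into `i + 1` parts one of which contains more than `n`
variables. -/
def Splits (β : Fin N → Fin s) (n i : ℕ) (x : Fin s → ZMod m) : Prop :=
  (∃ π : Fin s → Fin (i + 2), Function.Surjective π ∧ ∀ l, ∑ k with π k = l, x k = 0) ∨
  ∃ π : Fin s → Fin (i + 1), Function.Surjective π ∧ (∀ l, ∑ k with π k = l, x k = 0) ∧
    ∃ l, n < (Finset.univ.filter fun j => π (β j) = l).card

lemma image_comp_of_surj (hβ : Function.Surjective β) (π : Fin s → Fin s) :
    Finset.univ.image (π ∘ β) = Finset.univ.image π := by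
  ext x
  simp only [Finset.mem_image, Finset.mem_univ, true_and, Function.comp_apply]
  exact ⟨fun ⟨j, hj⟩ => ⟨_, hj⟩, fun ⟨k, hk⟩ => by
    obtain ⟨j, rfl⟩ := hβ k
    exact ⟨j, hk⟩⟩

lemma le_of_surj {c : ℕ} {π : Fin s → Fin c} (h : Function.Surjective π) : c ≤ s := by
  have h1 := Fintype.card_le_of_surjective π h
  rwa [Fintype.card_fin, Fintype.card_fin] at h1

/-- **The group ring acting on cycles of low dimension on a sum of forms.** -/
theorem plus_main (hζ : IsPrimitiveRoot ζ m) {n a i k : ℕ} (hn : n = m * ringExpChar K ^ a)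
    (hβ : Function.Surjective β) {F : MvPolynomial (Fin N) K} (hF : SF β n F)
    {c : Fin k → Fin N → K} (hc : LinearIndependent K c) (hN : i + 2 + k = N)
    (hFc : F ∉ Ideal.span (Set.range fun l => lform (c l))) (z : (Fin s → ZMod m) → ℚ)
    (hz : ∀ x : Fin s → ZMod m, ∑ k, x k = 0 → ¬ Splits β n i x →
        ∑ g, (z g : ℂ) * ZMod.stdAddChar (∑ k, x k * g k) = 0)
    (hI : ∀ g : Fin s → ZMod m, Ideal.span {F} ≤ (Ideal.span {F}).comap (sc (zpows ζ (g ∘ β))))
    (α : CH (Ideal.span {F}) i) :
    ∃ q : ℚ, ∑ g, z g • blockAct hζ.pow_eq_one hI i g α =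
      q • (ratEq (Ideal.span {F}) i).mkQ (cyc (Ideal.span {F}) i
        (Ideal.span {F} ⊔ Ideal.span (Set.range fun l => lform (c l)))) := by
  have hinf : Infinite K := IsAlgClosed.instInfinite
  obtain ⟨U₀, hU₀, hVI⟩ := exists_lin_space (t := i + 1) hc (by omega)
  have hFU₀ : F ∉ VI U₀ := by
    rw [hVI]
    exact hFc
  have hcyc : icyc (i + 1) (Ideal.span {F} ⊔ Ideal.span (Set.range fun l => lform (c l))) =
      lsec F (i + 1) U₀ := by
    unfold lsec
    rw [hVI, sup_comm]
  refine block_sec hζ hn hI le_sup_left i z ?_ α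
  intro e he z' hz'
  rw [hcyc]
  have hst : Stable e β (Ideal.span {F}) := hF.stable he.dvd
  refine char_main' hst _ z' fun x hx hzx => ?_
  have hsp : Splits β n i x := by
    by_contra hcon
    apply hzx
    rw [sum_ch_neg hz']
    refine hz (-x) ?_ fun h => hcon ?_
    · simp only [Pi.neg_apply, Finset.sum_neg_distrib, hx, neg_zero]
    · rcases h with h | ⟨π, h1, h2, h3⟩
      · exact Or.inl (exists_neg h)
      · refine Or.inr ⟨π, h1, fun l => ?_, h3⟩
        have h4 := h2 l
        simp only [Pi.neg_apply, Finset.sum_neg_distrib, neg_eq_zero] at h4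
        exact h4
  rcases hsp with h | ⟨π, h1, h2, l, hl⟩
  · have hs : i + 2 ≤ s := by
      obtain ⟨π, h1, -⟩ := h
      exact le_of_surj h1
    obtain ⟨π, h3, h4⟩ := exists_self_map hs h
    refine ⟨π, fun P hP hIP => ?_, h4⟩
    refine low_final (β := π ∘ β) he (by omega) ?_ (hF.comp π) hU₀ hFU₀ hP
      (by rwa [Ideal.span_singleton_le_iff_mem] at hIP)
    rw [image_comp_of_surj hβ, h3]
  · have hs : i + 1 ≤ s := le_of_surj h1
    refine ⟨Fin.castLE hs ∘ π, fun P hP hIP => ?_, ?_⟩
    · refine pan_final (β := (Fin.castLE hs ∘ π) ∘ β) he ?_ (by omega) (hF.comp _)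
        (k₀ := Fin.castLE hs l) ?_ hU₀ hFU₀ hP (by rwa [Ideal.span_singleton_le_iff_mem] at hIP)
      · rw [image_comp_of_surj hβ, ← Finset.image_image, Finset.image_univ_of_surjective h1,
          Finset.card_image_of_injective _ (Fin.castLE_injective hs), Finset.card_univ,
          Fintype.card_fin]
      · refine lt_of_lt_of_eq hl ?_
        congr 1
        ext j
        simp only [Finset.mem_filter, Finset.mem_univ, true_and, Function.comp_apply]
        exact (Fin.castLE_injective hs).eq_iff.symm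
    · intro k'
      by_cases hk : ∃ l', Fin.castLE hs l' = k'
      · obtain ⟨l', rfl⟩ := hk
        rw [← h2 l']
        refine Finset.sum_congr ?_ fun _ _ => rfl
        ext j
        simp only [Finset.mem_filter, Finset.mem_univ, true_and, Function.comp_apply]
        exact (Fin.castLE_injective hs).eq_iff
      · rw [Finset.filter_false_of_mem, Finset.sum_empty]
        intro j _ hj
        exact hk ⟨_, hj⟩

/-- If there are enough blocks and variables, all `x` with sum `0` split. -/
lemma splits_of_card {n i : ℕ} (hs : m * i < s)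
    (hN : n * (i + 1) < N) {x : Fin s → ZMod m} (hx : ∑ k, x k = 0) : Splits β n i x := by
  obtain ⟨π, h1, h2⟩ := exists_merge_of_card (t := i) (by rwa [Fintype.card_fin]) hx
  right
  let e : {k // k ∈ Finset.univ.image π} ≃ Fin (i + 1) := Fintype.equivFinOfCardEq (by
    rw [Fintype.card_coe, h1])
  let π' : Fin s → Fin (i + 1) := fun k => e ⟨π k, Finset.mem_image_of_mem π (Finset.mem_univ k)⟩
  refine ⟨π', ?_, ?_, ?_⟩
  · intro l
    obtain ⟨k, -, hk⟩ := Finset.mem_image.1 (e.symm l).2
    refine ⟨k, ?_⟩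
    change e _ = l
    rw [← e.apply_symm_apply l]
    congr 1
    exact Subtype.ext hk
  · intro l
    rw [← h2 (e.symm l)]
    refine Finset.sum_congr ?_ fun _ _ => rfl
    ext k
    simp only [Finset.mem_filter, Finset.mem_univ, true_and]
    constructor
    · intro h
      rw [← h, e.symm_apply_apply]
    · intro h
      change e _ = l
      rw [← e.apply_symm_apply l]
      congr 1
      exact Subtype.ext h
  · obtain ⟨l, -, hl⟩ := Finset.exists_lt_card_fiber_of_mul_lt_card_of_maps_to
      (s := (Finset.univ : Finset (Fin N))) (t := (Finset.univ : Finset (Fin (i + 1))))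
      (f := fun j => π' (β j)) (n := n) (fun _ _ => Finset.mem_univ _) (by
        rw [Finset.card_univ, Finset.card_univ, Fintype.card_fin, Fintype.card_fin, mul_comm]
        exact hN)
    exact ⟨l, hl⟩

end main

end Pool.Agent.H835.AV
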