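import Pool.Agent.H835.AV.HartMain
import Pool.Agent.H835.AV.Plus

set_option autoImplicit false
set_option linter.unusedSectionVars false

/-!
# The group ring acting on cycles of low codimension on smooth sums of forms, with an arbitrary
linear section
-/

universe u

namespace Pool.Agent.H835.AV

open MvPolynomial Pool.Agent.W5h86 Pool.Agent.W5h86.HC

section smooth

variable {K : Type u} [Field K] [IsAlgClosed K] {N : ℕ}

/-- A smooth hypersurface contains no linear subspace of more than half its dimension. -/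
lemma notMem_span_of_smooth {F : MvPolynomial (Fin N) K} {n k : ℕ} (hn : 2 ≤ n)
    (hF : IsHomogeneous F n)
    (hsm : ∀ x : Fin N → K, x ≠ 0 → aeval x F = 0 → ∃ l, aeval x (pderiv l F) ≠ 0)
    (c : Fin k → Fin N) (hk : 2 * k + 1 ≤ N) :
    F ∉ Ideal.span (Set.range fun i => (X (c i) : MvPolynomial (Fin N) K)) := by
  intro hcon
  obtain ⟨a, ha, h⟩ := exists_common_zero' (κ := Fin k ⊕ Fin k)
    (Sum.elim (fun i => X (c i)) (fun i => pderiv (c i) F)) (by
      rintro (i | i)
      · exact ⟨0, isHomogeneous_X _ _⟩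
      · refine ⟨n - 2, ?_⟩
        have h1 := hF.pderiv (i := c i)
        rw [show n - 2 + 1 = n - 1 by omega]
        exact h1) (by
      rw [Fintype.card_sum, Fintype.card_fin]
      omega)
  have hX : ∀ i, eval a (X (c i) : MvPolynomial (Fin N) K) = 0 := fun i => h (Sum.inl i)
  have hP : ∀ i, eval a (pderiv (c i) F) = 0 := fun i => h (Sum.inr i)
  have key : ∀ G ∈ Ideal.span (Set.range fun i => (X (c i) : MvPolynomial (Fin N) K)),
      eval a G = 0 ∧ ∀ l, l ∉ Set.range c → eval a (pderiv l G) = 0 := by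
    intro G hG
    induction hG using Submodule.span_induction with
    | mem x hx =>
      obtain ⟨i, rfl⟩ := hx
      refine ⟨hX i, fun l hl => ?_⟩
      have h1 : c i ≠ l := fun h2 => hl ⟨i, h2⟩
      simp only
      rw [pderiv_X_of_ne h1, map_zero]
    | zero => exact ⟨map_zero _, fun l _ => by rw [map_zero, map_zero]⟩
    | add x y _ _ hx hy =>
      refine ⟨by rw [map_add, hx.1, hy.1, add_zero], fun l hl => ?_⟩
      rw [map_add, map_add, hx.2 l hl, hy.2 l hl, add_zero]
    | smul r x _ hx =>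
      refine ⟨by rw [smul_eq_mul, map_mul, hx.1, mul_zero], fun l hl => ?_⟩
      rw [smul_eq_mul, pderiv_mul, map_add, map_mul, map_mul, hx.1, hx.2 l hl, mul_zero, mul_zero,
        add_zero]
  obtain ⟨hF0, hF1⟩ := key F hcon
  have hae : ∀ G : MvPolynomial (Fin N) K, aeval a G = eval a G := fun G => by
    rw [← coe_aeval_eq_eval]
    rfl
  obtain ⟨l, hl⟩ := hsm a ha (by rw [hae]; exact hF0)
  apply hl
  rw [hae]
  by_cases hlc : l ∈ Set.range c
  · obtain ⟨i, rfl⟩ := hlc
    exact hP i
  · exact hF1 l hlc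

lemma coord_sec_mem_inj {F : MvPolynomial (Fin N) K} {n t k : ℕ} (hn : 2 ≤ n)
    (hF : IsHomogeneous F n)
    (hsm : ∀ x : Fin N → K, x ≠ 0 → aeval x F = 0 → ∃ l, aeval x (pderiv l F) ≠ 0)
    (ht : 1 ≤ t) (htN : t ≤ N) (hNt : N + 1 ≤ 2 * t) {c : Fin k → Fin N}
    (hc : Function.Injective c) (hdim : DimLe t (secI (Ideal.span {F}) c))
    {U₀ : Submodule K (Fin N → K)} (hU₀ : Module.finrank K U₀ = t + 1) (hFU₀ : F ∉ VI U₀) :
    icyc t (secI (Ideal.span {F}) c) ∈ Submodule.span ℚ {lsec F t U₀} ⊔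
      IRatEq (Ideal.span {F}) t := by
  classical
  have hinf : Infinite K := IsAlgClosed.instInfinite
  have hle : Ideal.span (Set.range fun i => (X (c i) : MvPolynomial (Fin N) K)) ≤
      secI (Ideal.span {F}) c := le_sup_right
  have hFs : F ∈ secI (Ideal.span {F}) c :=
    (le_sup_left : _ ≤ secI (Ideal.span {F}) c) (Ideal.mem_span_singleton_self F)
  by_cases h1 : t + 1 + k = N
  · refine lSec_mem hF (by omega) ht hU₀ hFU₀ ⟨k, c, hc, rfl, Or.inl ⟨h1, fun hcon => ?_⟩⟩
    obtain ⟨U, hU1, hU2⟩ := exists_coord_space (K := K) (t := t) hc h1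
    have h2 := isSub_VI U hU1
    have h3 := hdim (VI U) h2.prime (by
      unfold secI
      rw [← hU2]
      refine sup_le ?_ le_rfl
      rw [Ideal.span_singleton_le_iff_mem, hU2]
      exact hcon) (t + 1) h2.trdeg
    omega
  · have h2 : N < t + 1 + k := by
      by_contra hcon
      have h3 : t + 1 + k < N := by omega
      obtain ⟨Q, hQ1, -, hQ3, -, d, hd1, hd2⟩ := exists_component' (ρ := k + 1)
        (Fin.cons F fun i => (X (c i) : MvPolynomial (Fin N) K) :
          Fin (k + 1) → MvPolynomial (Fin N) K) (by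
          intro i
          refine Fin.cases ?_ (fun i => ?_) i
          · exact ⟨n, hF⟩
          · exact ⟨1, isHomogeneous_X _ _⟩) (P := RingHom.ker
            (eval (0 : Fin N → K) : MvPolynomial (Fin N) K →+* K)) (RingHom.ker_isPrime _) (by
          intro i
          refine Fin.cases ?_ (fun i => ?_) i
          · rw [Fin.cons_zero, RingHom.mem_ker]
            have h4 := eval_smul_hom hF (0 : K) (0 : Fin N → K)
            rw [zero_smul, zero_pow (by omega), zero_mul] at h4
            exact h4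
          · rw [Fin.cons_succ, RingHom.mem_ker, eval_X]
            rfl)
      have h5 := hdim Q hQ1 (by
        unfold secI
        refine sup_le ?_ ?_
        · rw [Ideal.span_singleton_le_iff_mem]
          exact hQ3 0
        · rw [Ideal.span_le]
          rintro _ ⟨i, rfl⟩
          exact hQ3 i.succ) d hd2
      omega
    have h3 : icyc t (secI (Ideal.span {F}) c) = 0 := by
      funext P
      by_contra hcon
      obtain ⟨hP1, hP2⟩ := le_of_icyc_ne_zero hcon
      obtain ⟨k', hk'⟩ : ∃ k', t + k' = N := ⟨N - t, by omega⟩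
      have hkk : k' ≤ k := by omega
      obtain ⟨t', rfl⟩ : ∃ t', t = t' + 1 := ⟨t - 1, by omega⟩
      have hinj : Function.Injective (c ∘ Fin.castLE hkk) :=
        hc.comp (Fin.castLE_injective hkk)
      obtain ⟨U, hU1, hU2⟩ := exists_coord_space (K := K) (t := t') hinj hk'
      have h4 := isSub_VI U hU1
      have h5 : VI U ≤ P := by
        rw [hU2, Ideal.span_le]
        rintro _ ⟨i, rfl⟩
        exact hP2 (hle (Ideal.subset_span ⟨Fin.castLE hkk i, rfl⟩))
      have h6 : VI U = P := by
        by_contra hne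
        have h7 := trdeg_quot_lt (K := K) h4.prime hP1.prime (lt_of_le_of_ne h5 hne) h4.trdeg
          hP1.trdeg
        omega
      refine notMem_span_of_smooth hn hF hsm (c ∘ Fin.castLE hkk) (by omega) ?_
      have h8 := hP2 hFs
      rw [← h6, hU2] at h8
      exact h8
    rw [h3]
    exact Submodule.zero_mem _

/-- Coordinate sections of dimension at most `t - 1` are equivalent to multiples of an arbitrary
linear section. -/
lemma coord_sec_mem {F : MvPolynomial (Fin N) K} {n t k : ℕ} (hn : 2 ≤ n)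
    (hF : IsHomogeneous F n)
    (hsm : ∀ x : Fin N → K, x ≠ 0 → aeval x F = 0 → ∃ l, aeval x (pderiv l F) ≠ 0)
    (ht : 1 ≤ t) (htN : t ≤ N) (hNt : N + 1 ≤ 2 * t) {c : Fin k → Fin N}
    (hdim : DimLe t (secI (Ideal.span {F}) c))
    {U₀ : Submodule K (Fin N → K)} (hU₀ : Module.finrank K U₀ = t + 1) (hFU₀ : F ∉ VI U₀) :
    icyc t (secI (Ideal.span {F}) c) ∈ Submodule.span ℚ {lsec F t U₀} ⊔
      IRatEq (Ideal.span {F}) t := by
  classical
  set C : Finset (Fin N) := Finset.univ.image c with hC
  let c' : Fin C.card → Fin N := fun i => (C.equivFin.symm i : Fin N)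
  have hc' : Function.Injective c' := Subtype.val_injective.comp C.equivFin.symm.injective
  have hrange : (Set.range fun i => (X (c' i) : MvPolynomial (Fin N) K)) =
      Set.range fun i => (X (c i) : MvPolynomial (Fin N) K) := by
    ext x
    constructor
    · rintro ⟨i, rfl⟩
      have h1 : c' i ∈ C := (C.equivFin.symm i).2
      rw [hC, Finset.mem_image] at h1
      obtain ⟨l, -, hl⟩ := h1
      exact ⟨l, by simp only [hl]⟩
    · rintro ⟨i, rfl⟩
      have h1 : c i ∈ C := Finset.mem_image_of_mem _ (Finset.mem_univ i)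
      refine ⟨C.equivFin ⟨c i, h1⟩, ?_⟩
      simp only [c', Equiv.symm_apply_apply]
  have h1 : secI (Ideal.span {F}) c' = secI (Ideal.span {F}) c := by
    unfold secI
    rw [hrange]
  rw [← h1] at hdim ⊢
  exact coord_sec_mem_inj hn hF hsm ht htN hNt hc' hdim hU₀ hFU₀

end smooth

section main

variable {K : Type u} [Field K] [IsAlgClosed K] {m : ℕ} [NeZero m] {ζ : K} {N s : ℕ}
  {β : Fin N → Fin s}

/-- **The group ring acting on cycles of low codimension on a smooth sum of forms.** -/
theorem hart_plus (hζ : IsPrimitiveRoot ζ m) {n a i j k : ℕ} (hn : n = m * ringExpChar K ^ a)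
    (hn2 : 2 ≤ n) (hN : N = i + j + 2) (hj : 1 ≤ j) (hij : j < i) (hjs : j < s)
    (hβ : Function.Surjective β) {F : MvPolynomial (Fin N) K} (hF : SF β n F)
    (hsm : ∀ x : Fin N → K, x ≠ 0 → aeval x F = 0 → ∃ l, aeval x (pderiv l F) ≠ 0)
    {c : Fin k → Fin N → K} (hc : LinearIndependent K c) (hk : i + 2 + k = N)
    (hFc : F ∉ Ideal.span (Set.range fun l => lform (c l))) (z : (Fin s → ZMod m) → ℚ)
    (hz : ∀ x : Fin s → ZMod m, ∑ k, x k = 0 →
        (¬ ∃ π : Fin s → Fin (j + 1), Function.Surjective π ∧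
          ∀ l, ∑ k with π k = l, x k = 0) →
        ∑ g, (z g : ℂ) * ZMod.stdAddChar (∑ k, x k * g k) = 0)
    (hI : ∀ g : Fin s → ZMod m, Ideal.span {F} ≤ (Ideal.span {F}).comap (sc (zpows ζ (g ∘ β))))
    (α : CH (Ideal.span {F}) i) :
    ∃ q : ℚ, ∑ g, z g • blockAct hζ.pow_eq_one hI i g α =
      q • (ratEq (Ideal.span {F}) i).mkQ (cyc (Ideal.span {F}) i
        (Ideal.span {F} ⊔ Ideal.span (Set.range fun l => lform (c l)))) := by
  have hinf : Infinite K := IsAlgClosed.instInfinite
  obtain ⟨U₀, hU₀, hVI⟩ := exists_lin_space (t := i + 1) hc (by omega)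
  have hFU₀ : F ∉ VI U₀ := by
    rw [hVI]
    exact hFc
  have hcyc : icyc (i + 1) (Ideal.span {F} ⊔ Ideal.span (Set.range fun l => lform (c l))) =
      lsec F (i + 1) U₀ := by
    unfold lsec
    rw [hVI, sup_comm]
  refine block_sec hζ hn hI le_sup_left i z ?_ α
  intro e he z' hz'
  rw [hcyc]
  have hFh := hF.hom
  obtain ⟨f, hf, hfβ, rfl⟩ := hF
  obtain ⟨k', c', hdim, hmem⟩ := smooth_main he hn2 hβ hf hfβ hsm (t := i + 1) (c := j + 1)
    (by omega) (by omega) (by omega) (by omega) (by rw [Fintype.card_fin]; exact hjs) z' (by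
      intro x hx hzx
      apply exists_self_map hjs
      by_contra hcon
      apply hzx
      rw [sum_ch_neg hz']
      refine hz (-x) ?_ fun h => hcon (exists_neg h)
      simp only [Pi.neg_apply, Finset.sum_neg_distrib, hx, neg_zero])
  intro P hP hIP
  have hle : Submodule.span ℚ {icyc (i + 1) (secI (Ideal.span {∑ k, f k}) c')} ⊔
      IRatEq (Ideal.span {∑ k, f k}) (i + 1) ≤
      Submodule.span ℚ {lsec (∑ k, f k) (i + 1) U₀} ⊔
        IRatEq (Ideal.span {∑ k, f k}) (i + 1) := by
    refine sup_le ?_ le_sup_right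
    rw [Submodule.span_singleton_le_iff_mem]
    exact coord_sec_mem hn2 hFh hsm (by omega) (by omega) (by omega) hdim hU₀ hFU₀
  exact hle (hmem P hP hIP)

end main

end Pool.Agent.H835.AV
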