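import Pool.Agent.H835.AV.GProj

set_option autoImplicit false
set_option linter.unusedSectionVars false

/-!
# Transitivity of the roots of unity
-/

universe u

namespace Pool.Agent.H835.AV

open MvPolynomial Pool.Agent.W5h86.HC
open scoped Pointwise

section

variable {K : Type u} [Field K] {N : ℕ} {m : ℕ} {ι : Type} [Fintype ι] [DecidableEq ι] [NeZero m]
  {e : AddChar (ZMod m) K} {β : Fin N → ι}

/-- The roots of unity permute the primes over a given prime. -/
theorem conj_of_comap_eq {J : Finset (Fin N)} (hJ : Alone β J) (he : ∀ x, e x = 1 → x = 0)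
    {P₁ P₂ : Ideal (MvPolynomial (Fin N) K)} (h₁ : P₁.IsPrime) (h₂ : P₂.IsPrime)
    (h : P₁.comap (pw (kJ m J)) = P₂.comap (pw (kJ m J))) :
    ∃ a : ι → ZMod m, P₂ = P₁.comap (sc (wt e β a)) := by
  classical
  let G := (scHom e β J).range
  have hfin : Finite G := Finite.of_surjective (scHom e β J).rangeRestrict
    (scHom e β J).rangeRestrict_surjective
  let A : Subalgebra K (MvPolynomial (Fin N) K) := (pw (K := K) (kJ m J)).range
  have hfix : ∀ (g : G) (x : A), g • (x : MvPolynomial (Fin N) K) = x := by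
    rintro ⟨_, a, rfl⟩ ⟨_, y, rfl⟩
    exact sc_pw hJ _ y
  have hcomm : SMulCommClass G A (MvPolynomial (Fin N) K) := by
    refine ⟨fun g x y => ?_⟩
    rw [Subalgebra.smul_def, Subalgebra.smul_def, smul_eq_mul, smul_eq_mul, smul_mul', hfix]
  have hinv : Algebra.IsInvariant A (MvPolynomial (Fin N) K) G := by
    refine ⟨fun b hb => ?_⟩
    obtain ⟨y, hy⟩ := exists_pw (e := e) hJ he (b := b) fun a =>
      hb ⟨scHom e β J (Multiplicative.ofAdd a), ⟨_, rfl⟩⟩
    exact ⟨⟨b, ⟨y, hy⟩⟩, rfl⟩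
  have hunder : P₁.under A = P₂.under A := by
    ext ⟨x, y, hxy⟩
    rw [Ideal.mem_comap, Ideal.mem_comap]
    change x ∈ P₁ ↔ x ∈ P₂
    have h5 : pw (kJ m J) y = x := hxy
    rw [← h5]
    have h6 : ∀ P : Ideal (MvPolynomial (Fin N) K), pw (kJ m J) y ∈ P ↔
        y ∈ P.comap (pw (kJ m J)) := fun P => Iff.rfl
    rw [h6, h6, h]
  obtain ⟨⟨g, a, rfl⟩, hg⟩ := Algebra.IsInvariant.exists_smul_of_under_eq A
    (MvPolynomial (Fin N) K) G P₁ P₂ hunder
  refine ⟨-(rJ β J a.toAdd), ?_⟩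
  rw [hg]
  ext x
  rw [Ideal.mem_comap, Ideal.mem_pointwise_smul_iff_inv_smul_mem]
  have h7 : (⟨scHom e β J a, ⟨a, rfl⟩⟩ : G)⁻¹ • x = sc (wt e β (-(rJ β J a.toAdd))) x := by
    rw [inv_smul_eq_iff]
    change x = sc (wt e β (rJ β J a.toAdd)) (sc (wt e β (-(rJ β J a.toAdd))) x)
    rw [sc_sc, wt_mul_neg, sc_one]
  rw [h7]

/-- The character is faithful, and the degree is its order up to powers of the characteristic. -/
structure Good (e : AddChar (ZMod m) K) (n : ℕ) : Prop where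
  faithful : Faithful e
  exp : ∃ p a, ExpChar K p ∧ n = m * p ^ a

lemma Good.pos {n : ℕ} (h : Good e n) : 0 < n := by
  obtain ⟨p, a, hp, rfl⟩ := h.exp
  exact Nat.mul_pos (NeZero.pos m) (pow_pos (expChar_pos K p) a)

lemma Good.dvd {n : ℕ} (h : Good e n) : m ∣ n := by
  obtain ⟨p, a, hp, rfl⟩ := h.exp
  exact dvd_mul_right _ _

lemma Good.ex {n : ℕ} (h : Good e n) {κ : Type u} [Field κ] [Algebra K κ] :
    Good (ex κ e) n := by
  refine ⟨h.faithful.ex, ?_⟩
  obtain ⟨p, a, hp, hn⟩ := h.exp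
  exact ⟨p, a, expChar_of_injective_algebraMap (algebraMap K κ).injective p, hn⟩

theorem conj_of_comap_eq' {J : Finset (Fin N)} (hJ : Alone β J) {n : ℕ} (hn : Good e n)
    {P₁ P₂ : Ideal (MvPolynomial (Fin N) K)} (h₁ : P₁.IsPrime) (h₂ : P₂.IsPrime)
    (h : P₁.comap (pw (kJ n J)) = P₂.comap (pw (kJ n J))) :
    ∃ a : ι → ZMod m, P₂ = P₁.comap (sc (wt e β a)) := by
  refine conj_of_comap_eq hJ hn.faithful h₁ h₂ ?_
  obtain ⟨p, a, hp, rfl⟩ := hn.exp
  have key : ∀ f : MvPolynomial (Fin N) K, ∃ f' : MvPolynomial (Fin N) K,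
      pw (kJ (m * p ^ a) J) f' = (pw (kJ m J) f) ^ p ^ a := by
    intro f
    induction f using MvPolynomial.induction_on with
    | C c =>
      refine ⟨C (c ^ p ^ a), ?_⟩
      unfold pw
      rw [aeval_C, aeval_C, map_pow]
    | add f g hf hg =>
      obtain ⟨f', hf⟩ := hf
      obtain ⟨g', hg⟩ := hg
      refine ⟨f' + g', ?_⟩
      have hchar : ExpChar (MvPolynomial (Fin N) K) p :=
        expChar_of_injective_algebraMap (C_injective (Fin N) K) p
      rw [map_add, map_add, hf, hg, add_pow_expChar_pow]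
    | mul_X f j hf =>
      obtain ⟨f', hf⟩ := hf
      by_cases hj : j ∈ J
      · refine ⟨f' * X j, ?_⟩
        rw [map_mul, map_mul, hf, pw_X, pw_X, mul_pow, ← pow_mul]
        congr 2
        unfold kJ
        rw [if_pos hj, if_pos hj]
      · refine ⟨f' * X j ^ p ^ a, ?_⟩
        rw [map_mul, map_mul, hf, map_pow, pw_X, pw_X, mul_pow]
        congr 2
        unfold kJ
        rw [if_neg hj, if_neg hj]
  have hle : ∀ P P' : Ideal (MvPolynomial (Fin N) K), P.IsPrime → P'.IsPrime →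
      P.comap (pw (kJ (m * p ^ a) J)) = P'.comap (pw (kJ (m * p ^ a) J)) →
      P.comap (pw (kJ m J)) ≤ P'.comap (pw (kJ m J)) := by
    intro P P' hP hP' h f hf
    obtain ⟨f', hf'⟩ := key f
    rw [Ideal.mem_comap] at hf ⊢
    have h1 : pw (kJ (m * p ^ a) J) f' ∈ P := by
      rw [hf']
      exact Ideal.pow_mem_of_mem _ hf _ (pow_pos (expChar_pos K p) a)
    have h2 : f' ∈ P.comap (pw (kJ (m * p ^ a) J)) := h1
    rw [h, Ideal.mem_comap, hf'] at h2
    exact hP'.mem_of_pow_mem _ h2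
  exact le_antisymm (hle P₁ P₂ h₁ h₂ h) (hle P₂ P₁ h₂ h₁ h.symm)

/-- Transitivity on the primes over a prime ideal in the powers of the variables. -/
theorem top_of_prime {J : Finset (Fin N)} (hJ : Alone β J) {n : ℕ} (hn : Good e n) {t : ℕ}
    {L : Ideal (MvPolynomial (Fin N) K)} (hL : L.IsPrime)
    (ht : Algebra.trdeg K (MvPolynomial (Fin N) K ⧸ L) = t)
    {I : Ideal (MvPolynomial (Fin N) K)} (hI : L ≤ I.comap (pw (kJ n J))) : Top e β t I := by
  have hk : ∀ j, 0 < kJ n J j := by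
    intro j
    unfold kJ
    have := hn.pos
    split_ifs <;> omega
  have htr : ∀ P : Ideal (MvPolynomial (Fin N) K), P.IsPrime →
      Algebra.trdeg K (MvPolynomial (Fin N) K ⧸ P.comap (pw (K := K) (kJ n J))) =
        Algebra.trdeg K (MvPolynomial (Fin N) K ⧸ P) := fun P hP =>
    trdeg_comap_integral (K := K) (pw (kJ n J)) hP (pw_integral hk)
  have key : ∀ P : Ideal (MvPolynomial (Fin N) K), P.IsPrime → I ≤ P →
      Algebra.trdeg K (MvPolynomial (Fin N) K ⧸ P) = t → P.comap (pw (kJ n J)) = L := by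
    intro P hP hIP htP
    exact (eq_of_trdeg_eq (K := K) hL (hP.comap _) (hI.trans (Ideal.comap_mono hIP)) ht
      ((htr P hP).trans htP)).symm
  constructor
  · intro P₁ P₂ h₁ h₂ h₃ h₄
    exact conj_of_comap_eq' hJ hn h₁.prime h₂.prime
      ((key P₁ h₁.prime h₃ h₁.trdeg).trans (key P₂ h₂.prime h₄ h₂.trdeg).symm)
  · intro P hP hIP k hk
    have hle : L ≤ P.comap (pw (K := K) (kJ n J)) := hI.trans (Ideal.comap_mono hIP)
    by_cases h1 : L = P.comap (pw (K := K) (kJ n J))
    · have h2 := htr P hP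
      have h3 : P.comap (pw (K := K) (kJ n J)) = L := h1.symm
      rw [h3, ht, hk] at h2
      have h4 : t = k := by exact_mod_cast h2
      omega
    · exact (trdeg_quot_lt (K := K) hL (hP.comap _) (lt_of_le_of_ne hle h1) ht
        ((htr P hP).trans hk)).le

end

section linear

variable {K : Type u} [Field K]

/-- Linear subspaces. -/
theorem isSub_linear : ∀ (ρ M t : ℕ) (ℓ : Fin ρ → Fin M → K), LinearIndependent K ℓ →
    M = t + ρ → IsSub t 1 (Ideal.span (Set.range fun i => lform (ℓ i))) := by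
  intro ρ
  induction ρ with
  | zero =>
    intro M t ℓ _ hM
    have h1 : M = t := hM
    subst h1
    rw [Set.range_eq_empty, Ideal.span_empty]
    exact ⟨Ideal.isPrime_bot, (by
      intro f hf i
      rw [Ideal.mem_bot] at hf
      rw [hf, map_zero]
      exact Ideal.zero_mem _), trdeg_bot, by
      rw [Ideal.mem_bot]
      exact one_ne_zero⟩
  | succ ρ ih =>
    intro M t ℓ hℓ hM
    obtain ⟨M', rfl⟩ : ∃ M', M = M' + 1 := ⟨M - 1, by omega⟩
    obtain ⟨B, B', q, h1, h2, h3⟩ := exists_param (hℓ.ne_zero 0)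
    have h4 := ih M' t _ (li_param h2 hℓ) (by omega)
    have h5 := span_comap h1 h2 h3 (⊥ : Ideal (MvPolynomial (Fin (M' + 1)) K))
    rw [Ideal.map_bot, bot_sup_eq, bot_sup_eq] at h5
    rw [← h5]
    exact isSub_comap_param h1 h4

end linear

end Pool.Agent.H835.AV
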