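import Pool.Agent.H835.AV.PanProj

set_option autoImplicit false
set_option linter.unusedSectionVars false

/-!
# Averages of cycles on a projective hypersurface when the dimension is at most the number of
blocks minus two
-/

universe u

namespace Pool.Agent.H835.AV

open MvPolynomial Pool.Agent.W5h86 Pool.Agent.W5h86.HC

variable {m : ℕ} {ι : Type} [Fintype ι] [DecidableEq ι] [NeZero m]

/-- `σ` is the class of a proper coordinate section, or of a coordinate hyperplane in a linear
subspace of the hypersurface. -/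
def LSec {K : Type u} [Field K] {N : ℕ} (t : ℕ) (F : MvPolynomial (Fin N) K)
    (σ : Ideal (MvPolynomial (Fin N) K) → ℚ) : Prop :=
  ∃ (k : ℕ) (c : Fin k → Fin N), Function.Injective c ∧ σ = icyc t (secI (Ideal.span {F}) c) ∧
    ((t + 1 + k = N ∧ F ∉ Ideal.span (Set.range fun i => (X (c i) : MvPolynomial (Fin N) K))) ∨
    (t + k = N ∧ ∃ i₀, F ∈ Ideal.span ((fun i => (X (c i) : MvPolynomial (Fin N) K)) ''
      {i | i ≠ i₀})))

lemma lSec_le_av {K : Type u} [Field K] {N : ℕ} {e : AddChar (ZMod m) K} {β : Fin N → ι} {t : ℕ}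
    {F : MvPolynomial (Fin N) K} (hI : Stable e β (Ideal.span {F}))
    {σ : Ideal (MvPolynomial (Fin N) K) → ℚ} (hσ : LSec t F σ) :
    Submodule.span ℚ {σ} ⊔ IRatEq (Ideal.span {F}) t ≤
      (Submodule.span ℚ {σ} ⊔ IRatEq (Ideal.span {F}) t).comap (av e β) := by
  obtain ⟨k, c, -, rfl, -⟩ := hσ
  exact span_icyc_le_av hI c

lemma lsub_zi_span {K : Type u} [Field K] {M k : ℕ} {u : Fin (M + 1)}
    {F : MvPolynomial (Fin (M + 1)) K} {c : Fin k → Fin M} {s : Set (Fin k)}
    {s' : Set (Fin (k + 1))} (hs : ∀ i, i.succ ∈ s' → i ∈ s)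
    (hcon : F ∈ Ideal.span ((fun i => (X ((Fin.cons u fun i => u.succAbove (c i) :
      Fin (k + 1) → Fin (M + 1)) i) : MvPolynomial (Fin (M + 1)) K)) '' s')) :
    lsub K (zi K u) F ∈ Ideal.span ((fun i => (X (c i) : MvPolynomial (Fin M) K)) '' s) := by
  have h2 := Ideal.mem_map_of_mem (lsub K (zi K u)) hcon
  rw [Ideal.map_span] at h2
  have h3 : Ideal.span ((lsub K (zi K u)) '' ((fun i => (X ((Fin.cons u
      fun i => u.succAbove (c i) : Fin (k + 1) → Fin (M + 1)) i) :
      MvPolynomial (Fin (M + 1)) K)) '' s')) ≤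
      Ideal.span ((fun i => (X (c i) : MvPolynomial (Fin M) K)) '' s) := by
    rw [Ideal.span_le]
    rintro _ ⟨_, ⟨i, hi, rfl⟩, rfl⟩
    rw [SetLike.mem_coe]
    revert hi
    refine Fin.cases ?_ (fun j => ?_) i
    · intro _
      simp only [Fin.cons_zero]
      rw [lsub_zi_self]
      exact Ideal.zero_mem _
    · intro hj
      simp only [Fin.cons_succ]
      rw [lsub_zi_succAbove]
      exact Ideal.subset_span ⟨j, hs j hj, rfl⟩
  exact h3 h2

lemma mem_span_of_lsub_zi {K : Type u} [Field K] {M k : ℕ} {u : Fin (M + 1)}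
    {F : MvPolynomial (Fin (M + 1)) K} {c : Fin k → Fin M} {s : Set (Fin k)}
    {s' : Set (Fin (k + 1))} (hs : ∀ i, i ∈ s → i.succ ∈ s') (h0 : 0 ∈ s')
    (h : lsub K (zi K u) F ∈ Ideal.span ((fun i => (X (c i) : MvPolynomial (Fin M) K)) '' s)) :
    F ∈ Ideal.span ((fun i => (X ((Fin.cons u fun i => u.succAbove (c i) :
      Fin (k + 1) → Fin (M + 1)) i) : MvPolynomial (Fin (M + 1)) K)) '' s') := by
  have h1 := Ideal.mem_map_of_mem (lsub K (zi K u).transpose) h
  rw [Ideal.map_span] at h1
  have h2 : Ideal.span ((lsub K (zi K u).transpose) ''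
      ((fun i => (X (c i) : MvPolynomial (Fin M) K)) '' s)) ≤
      Ideal.span ((fun i => (X ((Fin.cons u fun i => u.succAbove (c i) :
      Fin (k + 1) → Fin (M + 1)) i) : MvPolynomial (Fin (M + 1)) K)) '' s') := by
    rw [Ideal.span_le]
    rintro _ ⟨_, ⟨i, hi, rfl⟩, rfl⟩
    rw [SetLike.mem_coe]
    have h3 : lsub K (zi K u).transpose (X (c i)) = X (u.succAbove (c i)) := by
      rw [lsub_X, Finset.sum_eq_single (u.succAbove (c i))]
      · have h4 := lsub_zi_succAbove (K := K) u (c i)
        rw [Matrix.transpose_apply]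
        unfold zi
        simp
      · intro j _ hj
        rw [Matrix.transpose_apply]
        unfold zi
        simp [hj]
      · simp
    simp only
    rw [h3]
    exact Ideal.subset_span ⟨i.succ, hs i hi, by simp only [Fin.cons_succ]⟩
  have h3 := h2 h1
  have h4 := lsub_param_sub_mem (mul_zi (K := K) u) F
  rw [lform_single] at h4
  have h5 : Ideal.span {X u} ≤ Ideal.span ((fun i => (X ((Fin.cons u fun i => u.succAbove (c i) :
      Fin (k + 1) → Fin (M + 1)) i) : MvPolynomial (Fin (M + 1)) K)) '' s') := by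
    rw [Ideal.span_singleton_le_iff_mem]
    exact Ideal.subset_span ⟨0, h0, by simp only [Fin.cons_zero]⟩
  have h6 := Ideal.add_mem _ (h5 h4) h3
  rw [sub_add_cancel] at h6
  exact h6

/-- **Averages of cycles** whose dimension is at most the number of blocks minus two. -/
theorem low_proj : ∀ (N : ℕ) (K : Type u) [Field K] (e : AddChar (ZMod m) K)
    (β : Fin N → ι) (t n : ℕ) (F : MvPolynomial (Fin N) K), Good e n → 1 ≤ t →
    t + 1 ≤ (Finset.univ.image β).card → SF β n F → ∃ σ, LSec t F σ ∧ ∀ P, IsSub t 1 P → F ∈ P →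
      av e β (pt P) ∈ Submodule.span ℚ {σ} ⊔ IRatEq (Ideal.span {F}) t := by
  intro N
  induction N with
  | zero =>
    intro K _ e β t n F _ ht1 hβt _
    have h1 : (Finset.univ.image β).card ≤ 0 := Finset.card_image_le.trans (by simp)
    omega
  | succ M ih =>
    have key : ∀ (K : Type u) [Field K] (e : AddChar (ZMod m) K)
        (β : Fin (M + 1) → ι) (t n : ℕ) (F : MvPolynomial (Fin (M + 1)) K), Good e n → 1 ≤ t →
        t + 1 ≤ (Finset.univ.image β).card → SF β n F → t + 1 < M + 1 →
        ¬ Function.Injective β → ∃ σ, LSec t F σ ∧ ∀ P, IsSub t 1 P → F ∈ P →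
          av e β (pt P) ∈ Submodule.span ℚ {σ} ⊔ IRatEq (Ideal.span {F}) t := by
      intro K _ e β t n F he ht1 hβt hF h1 hβ
      have hst : Stable e β (Ideal.span {F}) := hF.stable he.dvd
      obtain ⟨u, v, hβ, huv⟩ : ∃ u v, β u = β v ∧ v ≠ u := by
        unfold Function.Injective at hβ
        push Not at hβ
        obtain ⟨u, v, h1, h2⟩ := hβ
        exact ⟨u, v, h1, h2.symm⟩
      obtain ⟨σ', hσ', hmem⟩ := ih K e (β ∘ u.succAbove) t n (lsub K (zi K u) F) he ht1
        (by rw [image_comp_succAbove huv hβ]; exact hβt) (hF.zi u)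
      have hσ : LSec t F (push (lsub K (zi K u)) 1 t σ') := by
        obtain ⟨k, c, hc1, rfl, hc2⟩ := hσ'
        refine ⟨k + 1, Fin.cons u fun i => u.succAbove (c i), ?_, ?_, ?_⟩
        · rw [Fin.cons_injective_iff]
          refine ⟨?_, Fin.succAbove_right_injective.comp hc1⟩
          rintro ⟨i, hi⟩
          exact Fin.succAbove_ne _ _ hi
        · rw [← push_icyc_zi u c t, zI_span]
        · rcases hc2 with ⟨hc2, hc3⟩ | ⟨hc2, i₀, hc3⟩
          · left
            refine ⟨by omega, fun hcon => hc3 ?_⟩
            rw [← Set.image_univ] at hcon ⊢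
            exact lsub_zi_span (fun _ _ => Set.mem_univ _) hcon
          · right
            refine ⟨by omega, i₀.succ, mem_span_of_lsub_zi (s := {i | i ≠ i₀})
              (s' := {i | i ≠ i₀.succ}) (fun i hi h => hi ?_) ?_ hc3⟩
            · exact Fin.succ_injective _ h
            · exact (Fin.succ_ne_zero i₀).symm
      refine ⟨_, hσ, ?_⟩
      set S := Submodule.span ℚ {push (lsub K (zi K u)) 1 t σ'} ⊔ IRatEq (Ideal.span {F}) t
        with hS
      have hSav : S ≤ S.comap (av e β) := lSec_le_av hst hσ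
      have key2 : ∀ P, IsSub t 1 P → F ∈ P → X u ∈ P → av e β (pt P) ∈ S := by
        intro P hP hFP hlP
        obtain ⟨P', hP', hPP'⟩ := exists_isSub_zi u hP hlP
        rw [map_one] at hP'
        have h4 := hmem P' hP' (by
          rw [← hPP', Ideal.mem_comap] at hFP
          exact hFP)
        have h5 := Submodule.mem_map_of_mem (f := push (lsub K (zi K u)) 1 t) h4
        rw [push_av_zi, push_pt (isFib_zi u 1) (by rw [map_one]; exact hP'), hPP',
          Submodule.map_sup, Submodule.map_span, Set.image_singleton] at h5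
        have h7 : (IRatEq (Ideal.span {lsub K (zi K u) F}) t).map
            (push (lsub K (zi K u)) 1 t) ≤ IRatEq (Ideal.span {F}) t := by
          have h8 := push_iRatEq_zi u t (I := Ideal.span {F})
          rw [zI_span] at h8
          exact h8
        exact (sup_le_sup_left h7 _) h5
      intro P hP hFP
      by_cases hlP : X u ∈ P
      · exact key2 P hP hFP hlP
      · have h4 := gen_low (cls_CSF n) (M + 1) K e β t 1 _ (csf_one he hβt hF) h1 u P
          (isSub_iff.2 ⟨hP, hlP⟩) (by rwa [Ideal.span_singleton_le_iff_mem])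
        have h5 : IRatEq (Ideal.span {F}) t ≤ S.comap (av e β) :=
          (iRatEq_le_av hst).trans (Submodule.comap_mono le_sup_right)
        have h6 := iRel_le (I := Ideal.span {F}) (t := t) (r := Pi.single u (1 : K)) h5
          fun P₂ hP₂ hIP₂ hu₂ => by
            rw [lform_single] at hu₂
            exact key2 P₂ hP₂ (by rwa [Ideal.span_singleton_le_iff_mem] at hIP₂) hu₂
        rw [lform_single] at h6
        exact av_mem_of_av_av_mem (h6 h4)
    intro K _ e β t n F he ht1 hβt hF
    have hN : (Finset.univ.image β).card ≤ M + 1 :=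
      Finset.card_image_le.trans (by rw [Finset.card_univ, Fintype.card_fin])
    have hst : Stable e β (Ideal.span {F}) := hF.stable he.dvd
    rcases Nat.lt_or_ge (t + 1) (M + 1) with h1 | h1
    · by_cases hβ : Function.Injective β
      · obtain ⟨f, h2, h3⟩ := (cls_CSF n).merge K (M + 1) e β t 1 _ (csf_one he hβt hF) hβ h1 ht1
        obtain ⟨σ, hσ, hmem⟩ := key K e (f ∘ β) t n F he ht1 h3.2.1 (hF.comp f) h1 h2
        exact ⟨σ, hσ, fun P hP hFP => av_mem_of_comp f (lSec_le_av hst hσ) (hmem P hP hFP)⟩
      · exact key K e β t n F he ht1 hβt hF h1 hβ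
    · have hM : M = t := by omega
      subst hM
      by_cases hF0 : F = 0
      · have hσ : LSec M F (icyc M (secI (Ideal.span {F}) (fun _ : Fin 1 => (0 : Fin (M + 1))))) :=
          ⟨1, fun _ => 0, fun _ _ _ => Subsingleton.elim _ _, rfl,
            Or.inr ⟨rfl, 0, by rw [hF0]; exact Ideal.zero_mem _⟩⟩
        refine ⟨_, hσ, fun P hP hFP => lSec_le_av hst hσ ?_⟩
        have hS0 : IsSub M 1 (Ideal.span {(X 0 : MvPolynomial (Fin (M + 1)) K)}) :=
          isSub_span_of_prime X_prime (isHomogeneous_X K 0)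
        have h2 : ∀ P, IsSub M 1 P → X 0 ∈ P →
            pt P ∈ Submodule.span ℚ {icyc M (secI (Ideal.span {F})
              (fun _ : Fin 1 => (0 : Fin (M + 1))))} ⊔ IRatEq (Ideal.span {F}) M := by
          intro P hP hu
          have h3 : P = Ideal.span {X 0} := by
            refine (eq_of_trdeg_eq hS0.prime hP.prime ?_ hS0.trdeg hP.trdeg).symm
            rw [Ideal.span_singleton_le_iff_mem]
            exact hu
          have h4 : icyc M (secI (Ideal.span {F}) (fun _ : Fin 1 => (0 : Fin (M + 1)))) =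
              pt P := by
            unfold secI
            rw [hF0, Ideal.span_singleton_zero, bot_sup_eq, Set.range_const, ← h3,
              icyc_eq_pt hP]
          rw [h4]
          exact Submodule.mem_sup_left (Submodule.mem_span_singleton_self _)
        by_cases hu : X 0 ∈ P
        · exact h2 P hP hu
        · have h4 := zero_rel (M + 1) K M 0 P (by omega) (isSub_iff.2 ⟨hP, hu⟩)
          have h5 := iRel_le (I := Ideal.span {F}) (t := M) (r := Pi.single 0 (1 : K))
            (S := Submodule.span ℚ {icyc M (secI (Ideal.span {F})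
              (fun _ : Fin 1 => (0 : Fin (M + 1))))} ⊔ IRatEq (Ideal.span {F}) M) le_sup_right
            fun P₂ hP₂ hIP₂ hu₂ => by
              rw [lform_single] at hu₂
              exact h2 P₂ hP₂ hu₂
          rw [lform_single] at h5
          apply h5
          rw [hF0, Ideal.span_singleton_zero]
          exact h4
      · have hinj : Function.Injective β := injective_of_card (by omega)
        have h3 : Top e β M (Ideal.span {F}) := by
          rcases top_diagonal (ρ := 1) he hinj rfl (fun _ => F) (fun _ => hF) with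
            ⟨ρ', h3, G', -, h5⟩ | h3
          · exfalso
            have h6 : ρ' = 0 := by omega
            subst h6
            rw [Set.range_const, Set.range_eq_empty G', Ideal.span_empty,
              Ideal.span_singleton_eq_bot] at h5
            exact hF0 h5
          · rw [Set.range_const] at h3
            exact h3
        have hsec : secI (Ideal.span {F}) (Fin.elim0 : Fin 0 → Fin (M + 1)) =
            Ideal.span {F} := by
          unfold secI
          rw [Set.range_eq_empty, Ideal.span_empty, sup_bot_eq]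
        refine ⟨icyc M (secI (Ideal.span {F}) (Fin.elim0 : Fin 0 → Fin (M + 1))),
          ⟨0, Fin.elim0, fun i => i.elim0, rfl, Or.inl ⟨rfl, ?_⟩⟩, fun P hP hFP => ?_⟩
        · rw [Set.range_eq_empty, Ideal.span_empty, Ideal.mem_bot]
          exact hF0
        · rw [hsec]
          refine Submodule.mem_sup_left ?_
          have hdim : DimLe M (Ideal.span {F}) := h3.2
          have hIP : Ideal.span {F} ≤ P := by rwa [Ideal.span_singleton_le_iff_mem]
          refine av_pt_mem_of_conj (c := icyc M (Ideal.span {F})) hdim.finite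
            (icyc_nonneg M _) ?_ ?_ ?_
          · rw [icyc_of hP, Nat.cast_ne_zero]
            exact mult_ne_zero (hdim.mem_minimalPrimes hP.prime hIP hP.trdeg)
          · intro P' hP'
            obtain ⟨h4, h5⟩ := le_of_icyc_ne_zero hP'
            exact h3.1 P P' hP h4 hIP h5
          · rw [av_of_inv e β (tr_icyc hst M)]
            exact Submodule.smul_mem _ _ (Submodule.mem_span_singleton_self _)

section final

variable {K : Type u} [Field K] [Infinite K] {N : ℕ}

/-- Coordinate subspaces with a further coordinate. -/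
lemma lSec_mem {F : MvPolynomial (Fin N) K} {n t : ℕ} (hF : IsHomogeneous F n) (hn : 0 < n)
    (ht : 1 ≤ t) {U₀ : Submodule K (Fin N → K)} (hU₀ : Module.finrank K U₀ = t + 1)
    (hFU₀ : F ∉ VI U₀) {σ : Ideal (MvPolynomial (Fin N) K) → ℚ} (hσ : LSec t F σ) :
    σ ∈ Submodule.span ℚ {lsec F t U₀} ⊔ IRatEq (Ideal.span {F}) t := by
  classical
  obtain ⟨k, c, hc1, rfl, ⟨hc2, hc3⟩ | ⟨hc2, i₀, hc3⟩⟩ := hσ
  · obtain ⟨U, hU1, hU2⟩ := exists_coord_space (K := K) (t := t) hc1 hc2
    have h1 : icyc t (secI (Ideal.span {F}) c) = lsec F t U := by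
      unfold lsec secI
      rw [hU2, sup_comm]
    rw [← hU2] at hc3
    have h2 := lsec_sub_mem hF ht hU1 hU₀ hc3 hFU₀
    rw [h1]
    have h3 := Submodule.add_mem _ (Submodule.mem_sup_right (S := Submodule.span ℚ
      {lsec F t U₀}) h2) (Submodule.mem_sup_left (Submodule.mem_span_singleton_self _))
    rw [sub_add_cancel] at h3
    exact h3
  · obtain ⟨t', rfl⟩ : ∃ t', t = t' + 1 := ⟨t - 1, by omega⟩
    obtain ⟨U, hU1, hU2⟩ := exists_coord_space (K := K) (t := t') hc1 hc2
    set v : Fin N → K := Pi.single (c i₀) 1 with hv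
    have hFle : Ideal.span ((fun i => (X (c i) : MvPolynomial (Fin N) K)) '' {i | i ≠ i₀}) ≤
        Ideal.span (Set.range fun i => (X (c i) : MvPolynomial (Fin N) K)) :=
      Ideal.span_mono (Set.image_subset_range _ _)
    have hFU : F ∈ VI U := by
      rw [hU2]
      exact hFle hc3
    have h1 : icyc (t' + 1) (secI (Ideal.span {F}) c) = pt (VI U) := by
      have h2 : secI (Ideal.span {F}) c = VI U := by
        unfold secI
        rw [← hU2]
        exact sup_eq_right.2 (by rwa [Ideal.span_singleton_le_iff_mem])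
      rw [h2, icyc_eq_pt (isSub_VI U hU1)]
    have hvU : v ∉ U := by
      intro h
      have h2 : (X (c i₀) : MvPolynomial (Fin N) K) ∈ VI U := by
        rw [hU2]
        exact Ideal.subset_span ⟨i₀, rfl⟩
      have h3 := h2 v h
      rw [eval_X, hv, Pi.single_eq_same] at h3
      exact one_ne_zero h3
    have hzero : ∀ x ∈ U, ∀ w : K, eval (x + w • v) F = 0 := by
      intro x hx w
      have h2 : Ideal.span ((fun i => (X (c i) : MvPolynomial (Fin N) K)) '' {i | i ≠ i₀}) ≤
          RingHom.ker (eval (x + w • v) : MvPolynomial (Fin N) K →+* K) := by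
        rw [Ideal.span_le]
        rintro _ ⟨i, hi, rfl⟩
        have h3 : (X (c i) : MvPolynomial (Fin N) K) ∈ VI U := by
          rw [hU2]
          exact Ideal.subset_span ⟨i, rfl⟩
        have h4 := h3 x hx
        rw [eval_X] at h4
        rw [SetLike.mem_coe, RingHom.mem_ker, eval_X, Pi.add_apply, h4, Pi.smul_apply, hv,
          Pi.single_eq_of_ne (hc1.ne hi), smul_zero, add_zero]
      exact RingHom.mem_ker.1 (h2 hc3)
    have hF0 : F ≠ 0 := by
      rintro rfl
      exact hFU₀ (Ideal.zero_mem _)
    obtain ⟨e, he⟩ : ∃ e, eval e F ≠ 0 := by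
      by_contra hcon
      push Not at hcon
      exact hF0 (MvPolynomial.funext fun x => by rw [hcon x, map_zero])
    have h3 := roitman hF hn ht hU1 hvU (fun x hx w => by
      rw [hzero x hx w]
      have h4 := hzero 0 U.zero_mem 1
      rw [zero_add, one_smul] at h4
      rw [h4, mul_zero]) he
    have heU : e ∉ U := fun h => he (hFU e h)
    have hfin : Module.finrank K (U ⊔ Submodule.span K {e} : Submodule K (Fin N → K)) =
        t' + 1 + 1 := by
      rw [Submodule.finrank_sup_span_singleton heU, hU1]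
    have h4 := lsec_sub_mem hF ht hfin hU₀ (fun h => he (h e (Submodule.mem_sup_right
      (Submodule.mem_span_singleton_self e)))) hFU₀
    have h5 := Submodule.add_mem _ h3 h4
    rw [sub_add_sub_cancel] at h5
    have h6 := Submodule.add_mem _ (Submodule.mem_sup_right (S := Submodule.span ℚ
      {lsec F (t' + 1) U₀}) h5) (Submodule.mem_sup_left (Submodule.mem_span_singleton_self _))
    rw [sub_add_cancel] at h6
    rw [h1]
    exact (Submodule.smul_mem_iff _ (Nat.cast_ne_zero.2 hn.ne')).1 h6

/-- **Averages of cycles** over at least `t + 1` blocks. -/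
theorem low_final {e : AddChar (ZMod m) K} {β : Fin N → ι} {t n : ℕ}
    {F : MvPolynomial (Fin N) K} (he : Good e n) (ht : 1 ≤ t)
    (hβt : t + 1 ≤ (Finset.univ.image β).card) (hF : SF β n F)
    {U₀ : Submodule K (Fin N → K)} (hU₀ : Module.finrank K U₀ = t + 1) (hFU₀ : F ∉ VI U₀)
    {P : Ideal (MvPolynomial (Fin N) K)} (hP : IsSub t 1 P) (hFP : F ∈ P) :
    av e β (pt P) ∈ Submodule.span ℚ {lsec F t U₀} ⊔ IRatEq (Ideal.span {F}) t := by
  obtain ⟨σ, hσ, hmem⟩ := low_proj N K e β t n F he ht hβt hF
  have h1 : Submodule.span ℚ {σ} ⊔ IRatEq (Ideal.span {F}) t ≤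
      Submodule.span ℚ {lsec F t U₀} ⊔ IRatEq (Ideal.span {F}) t := by
    refine sup_le ?_ le_sup_right
    rw [Submodule.span_singleton_le_iff_mem]
    exact lSec_mem hF.hom he.pos ht hU₀ hFU₀ hσ
  exact h1 (hmem P hP hFP)

end final

end Pool.Agent.H835.AV
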