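import Pool.Agent.H835.AV.Main
import Pool.Graph.R_pool_sql_team_seeded_9f66d723.W5h86.HD.Desc
import Mathlib.LinearAlgebra.TensorProduct.Pi

set_option autoImplicit false
set_option linter.unusedSectionVars false

/-!
# Descent along finite Galois extensions of the base field
-/

universe u

namespace Pool.Agent.H835.AV

open MvPolynomial Pool.Agent.W5h86.HC Pool.Agent.W5h86.HD

section len

open TensorProduct

variable {S R : Type u} [CommRing S] [Nontrivial S] [CommRing R] [Algebra S R] [Module.Free S R]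
  [Module.Finite S R]

lemma len_map (P J : Ideal S) : len P (R ⧸ J.map (algebraMap S R)) =
    (Module.finrank S R : ℕ∞) * len P (S ⧸ J) := by
  let e1 : (R ⧸ J.map (algebraMap S R)) ≃ₗ[S] R ⊗[S] (S ⧸ J) :=
    (Algebra.TensorProduct.quotIdealMapEquivTensorQuot R J).toLinearEquiv.restrictScalars S
  let e2 : R ⊗[S] (S ⧸ J) ≃ₗ[S] (S ⧸ J) ⊗[S] R := TensorProduct.comm S R (S ⧸ J)
  let e3 : (S ⧸ J) ⊗[S] R ≃ₗ[S] (S ⧸ J) ⊗[S] (Fin (Module.finrank S R) → S) :=
    TensorProduct.congr (LinearEquiv.refl S (S ⧸ J)) (Module.finBasis S R).equivFun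
  let e4 : (S ⧸ J) ⊗[S] (Fin (Module.finrank S R) → S) ≃ₗ[S]
      (Fin (Module.finrank S R) → (S ⧸ J)) :=
    TensorProduct.piScalarRight S S (S ⧸ J) (Fin (Module.finrank S R))
  rw [len_equiv (((e1.trans e2).trans e3).trans e4), len_pi]

end len

attribute [local instance] MvPolynomial.algebraMvPolynomial

section ext

variable {K L : Type u} [Field K] [Field L] [Algebra K L] {N : ℕ}

instance free_ext : Module.Free (MvPolynomial (Fin N) K) (MvPolynomial (Fin N) L) := by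
  have h1 : Algebra.IsPushout K (MvPolynomial (Fin N) K) L (MvPolynomial (Fin N) L) := inferInstance
  exact Module.Free.of_equiv h1.out.equiv

variable [Module.Finite K L]

lemma sum_fdeg {P : Ideal (MvPolynomial (Fin N) K)} (hP : P.IsPrime) :
    ∑ P' ∈ (over_finite (R := MvPolynomial (Fin N) L) P).toFinset,
      (fdeg (MvPolynomial (Fin N) K) P' : ℚ) *
        (mult (P.map (algebraMap (MvPolynomial (Fin N) K) (MvPolynomial (Fin N) L))) P' : ℚ) =
      Module.finrank (MvPolynomial (Fin N) K) (MvPolynomial (Fin N) L) := by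
  have hT : ∀ P', P' ∈ (over_finite (R := MvPolynomial (Fin N) L) P).toFinset ↔
      P' ∈ Over (MvPolynomial (Fin N) L) P := fun P' => Set.Finite.mem_toFinset _
  have h1 := lenS_eq_sum hP hT (MvPolynomial (Fin N) L ⧸
    (P.map (algebraMap (MvPolynomial (Fin N) K) (MvPolynomial (Fin N) L))))
  rw [lenS_eq, len_map, len_self hP, mul_one] at h1
  have h2 := congrArg ENat.toNat h1
  rw [ENat.toNat_natCast, ENat.toNat_sum] at h2
  · rw [h2, Nat.cast_sum]
    refine Finset.sum_congr rfl fun P' hP' => ?_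
    have h4 : P'.comap (algebraMap (MvPolynomial (Fin N) K) (MvPolynomial (Fin N) L)) = P :=
      ((hT P').1 hP').2
    rw [mult_eq_len, ENat.toNat_mul, Nat.cast_mul, mul_comm]
    unfold fdeg
    rw [h4]
  · intro P' hP'
    have h5 := (hT P').1 hP'
    refine WithTop.mul_ne_top (len_ne_top_of_minimal (over_minimal h5)) ?_
    exact lenS_over_ne_top hP h5

/-- The norm of the cycle of an ideal. -/
lemma Nm_icyc (t : ℕ) (J : Ideal (MvPolynomial (Fin N) K)) :
    Nm (MvPolynomial (Fin N) K)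
      (icyc t (J.map (algebraMap (MvPolynomial (Fin N) K) (MvPolynomial (Fin N) L)))) =
      (Module.finrank (MvPolynomial (Fin N) K) (MvPolynomial (Fin N) L) : ℚ) • icyc t J := by
  funext P
  rw [Nm_apply, Pi.smul_apply, smul_eq_mul]
  by_cases hP : IsSub t 1 P
  · rw [icyc_of hP, ← sum_fdeg (L := L) hP.prime, Finset.sum_mul]
    refine Finset.sum_congr rfl fun P' hP' => ?_
    rw [Set.Finite.mem_toFinset] at hP'
    obtain ⟨h1, h2⟩ := hP'
    have h3 : IsSub t 1 P' := by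
      have h4 := (isSub_ext_iff (K := K) h1 (t := t) (l := 1)).1 (by rw [h2]; exact hP)
      rw [map_one] at h4
      exact h4
    rw [icyc_of h3, mult_map_flat (S := MvPolynomial (Fin N) K) h1, h2]
    push_cast
    ring
  · rw [icyc_of_not hP, mul_zero, Finset.sum_eq_zero]
    intro P' hP'
    rw [Set.Finite.mem_toFinset] at hP'
    obtain ⟨h1, h2⟩ := hP'
    rw [icyc_of_not, mul_zero]
    intro h3
    apply hP
    rw [← h2, isSub_ext_iff (K := K) h1, map_one]
    exact h3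

variable [IsGalois K L]

/-- **The norm of a relation.** -/
theorem Nm_idiv_sub_mem {t : ℕ} {I : Ideal (MvPolynomial (Fin N) K)}
    {Q' : Ideal (MvPolynomial (Fin N) L)} {g₁ g₂ : MvPolynomial (Fin N) L} {e : ℕ}
    (hQ : IsSub (t + 1) 1 Q')
    (hF : I ≤ Q'.comap (algebraMap (MvPolynomial (Fin N) K) (MvPolynomial (Fin N) L)))
    (hg₁ : IsHomogeneous g₁ e) (hg₂ : IsHomogeneous g₂ e) (hgQ₁ : g₁ ∉ Q') (hgQ₂ : g₂ ∉ Q') :
    Nm (MvPolynomial (Fin N) K) (idiv t 1 Q' g₁ - idiv t 1 Q' g₂) ∈ IRatEq I t := by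
  classical
  have h : IsQuot (galAct K L N) := isQuot_gal
  have := Fintype.ofFinite Gal(L/K)
  have hQp := hQ.prime
  obtain ⟨w, ew, hw, hwQ, hwσ⟩ := h.exists_separating hQ.prime hQ.hom
  set ρ := galAct K L N with hρ
  set H : Subgroup Gal(L/K) :=
    { carrier := {σ | Q'.comap (ρ σ : MvPolynomial (Fin N) L →+* MvPolynomial (Fin N) L) = Q'}
      mul_mem' := by
        intro σ τ hσ hτ
        simp only [Set.mem_ofPred_eq] at hσ hτ ⊢
        ext x
        rw [Ideal.mem_comap, map_mul]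
        change ρ σ (ρ τ x) ∈ Q' ↔ x ∈ Q'
        have h1 : ρ σ (ρ τ x) ∈ Q' ↔ ρ τ x ∈ Q' := by
          conv_rhs => rw [← hσ]
          rfl
        have h2 : ρ τ x ∈ Q' ↔ x ∈ Q' := by
          conv_rhs => rw [← hτ]
          rfl
        exact h1.trans h2
      one_mem' := by
        simp only [Set.mem_ofPred_eq, map_one]
        rfl
      inv_mem' := by
        intro σ hσ
        simp only [Set.mem_ofPred_eq] at hσ ⊢
        ext x
        rw [Ideal.mem_comap]
        have h1 : ρ σ (ρ σ⁻¹ x) ∈ Q' ↔ ρ σ⁻¹ x ∈ Q' := by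
          conv_rhs => rw [← hσ]
          rfl
        have h2 : ρ σ (ρ σ⁻¹ x) = x := by
          change (ρ σ * ρ σ⁻¹) x = x
          rw [← map_mul, mul_inv_cancel, map_one]
          rfl
        rw [h2] at h1
        exact h1.symm } with hH
  have hHiff : ∀ σ ∈ H, ∀ x, ρ σ x ∈ Q' ↔ x ∈ Q' := by
    intro σ hσ x
    have h1 : Q'.comap (ρ σ : MvPolynomial (Fin N) L →+* MvPolynomial (Fin N) L) = Q' := hσ
    conv_rhs => rw [← h1]
    rfl
  have hmul : ∀ (σ τ : Gal(L/K)) (x : MvPolynomial (Fin N) L), ρ (σ * τ) x = ρ σ (ρ τ x) := by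
    intro σ τ x
    rw [map_mul]
    rfl
  -- norms under the stabilizer
  have hinvH : ∀ g : MvPolynomial (Fin N) L, ∀ σ ∈ H, ρ σ (∏ τ : H, ρ τ g) = ∏ τ : H, ρ τ g := by
    intro g σ hσ
    rw [map_prod]
    refine Fintype.prod_equiv (Equiv.mulLeft (⟨σ, hσ⟩ : H)) _ _ fun τ => ?_
    rw [Equiv.coe_mulLeft, Subgroup.coe_mul, hmul]
  set w₂ := ∏ τ : H, ρ τ w with hw₂
  have hw₂Q : w₂ ∉ Q' := by
    intro h1
    obtain ⟨σ, -, h2⟩ := (Ideal.IsPrime.prod_mem_iff).1 h1
    exact hwQ ((hHiff σ σ.2 w).1 h2)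
  have hw₂σ : ∀ σ, σ ∉ H → ρ σ w₂ ∈ Q' := by
    intro σ hσ
    rw [hw₂, map_prod]
    have h1 : ρ σ (ρ (1 : H) w) ∈ Q' := by
      rw [← hmul]
      apply hwσ
      intro h2
      apply hσ
      rw [Subgroup.coe_one, mul_one] at h2
      exact h2
    rw [← Finset.mul_prod_erase _ _ (Finset.mem_univ (1 : H))]
    exact Ideal.mul_mem_right _ _ h1
  have hw₂hom : IsHomogeneous w₂ (∑ _τ : H, ew) :=
    IsHomogeneous.prod _ _ (fun _ => ew) fun σ _ => h.hom σ w ew hw
  -- the key construction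
  have key : ∀ g : MvPolynomial (Fin N) L, IsHomogeneous g e → g ∉ Q' →
      ∃ s : MvPolynomial (Fin N) K, IsHomogeneous s ((∑ _τ : H, ew) + ∑ _τ : H, e) ∧
        s ∉ Q'.comap (algebraMap (MvPolynomial (Fin N) K) (MvPolynomial (Fin N) L)) ∧
        idiv t 1 Q' (algebraMap (MvPolynomial (Fin N) K) (MvPolynomial (Fin N) L) s) =
          idiv t 1 Q' w₂ + ∑ σ : H, idiv t 1 Q' (ρ σ g) := by
    intro g hg hgQ
    set y := w₂ * ∏ τ : H, ρ τ g with hy
    have hyH : ∀ σ ∈ H, ρ σ y = y := by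
      intro σ hσ
      rw [hy, map_mul, hinvH g σ hσ, hw₂, hinvH w σ hσ]
    have hyhom : IsHomogeneous y ((∑ _τ : H, ew) + ∑ _τ : H, e) :=
      hw₂hom.mul (IsHomogeneous.prod _ _ (fun _ => e) fun σ _ => h.hom σ g e hg)
    -- sum over the cosets
    let φ : Gal(L/K) ⧸ H → MvPolynomial (Fin N) L := fun q => ρ q.out y
    have hφ : ∀ σ : Gal(L/K), φ (QuotientGroup.mk σ) = ρ σ y := by
      intro σ
      have h1 : σ⁻¹ * (QuotientGroup.mk σ : Gal(L/K) ⧸ H).out ∈ H :=
        QuotientGroup.eq.1 (Quotient.out_eq _).symm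
      have h2 : (QuotientGroup.mk σ : Gal(L/K) ⧸ H).out =
          σ * (σ⁻¹ * (QuotientGroup.mk σ : Gal(L/K) ⧸ H).out) := by rw [mul_inv_cancel_left]
      change ρ (QuotientGroup.mk σ : Gal(L/K) ⧸ H).out y = ρ σ y
      rw [h2, hmul, hyH _ h1]
    have := Fintype.ofFinite (Gal(L/K) ⧸ H)
    set r := ∑ q, φ q with hr
    have hrhom : IsHomogeneous r ((∑ _τ : H, ew) + ∑ _τ : H, e) :=
      IsHomogeneous.sum _ _ _ fun q _ => h.hom _ _ _ hyhom
    have hrinv : ∀ σ, ρ σ r = r := by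
      intro σ
      rw [hr, map_sum]
      refine Fintype.sum_equiv (MulAction.toPerm σ) _ _ fun q => ?_
      obtain ⟨τ, rfl⟩ := QuotientGroup.mk_surjective q
      rw [hφ, ← hmul]
      exact (hφ (σ * τ)).symm
    have hry : r - y ∈ Q' := by
      have h1 : r - y = ∑ q ∈ Finset.univ.erase (QuotientGroup.mk (1 : Gal(L/K)) : Gal(L/K) ⧸ H),
          φ q := by
        rw [hr, ← Finset.add_sum_erase _ _ (Finset.mem_univ
          (QuotientGroup.mk (1 : Gal(L/K)) : Gal(L/K) ⧸ H)), hφ, map_one]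
        change y + _ - y = _
        ring
      rw [h1]
      refine Ideal.sum_mem _ fun q hq => ?_
      obtain ⟨τ, rfl⟩ := QuotientGroup.mk_surjective q
      rw [hφ, hy, map_mul]
      refine Ideal.mul_mem_right _ _ (hw₂σ τ fun hτ => ?_)
      apply (Finset.mem_erase.1 hq).1
      rw [QuotientGroup.eq, mul_one]
      exact H.inv_mem hτ
    have hyQ : y ∉ Q' := by
      intro h1
      rcases hQp.mem_or_mem h1 with h2 | h2
      · exact hw₂Q h2
      · obtain ⟨σ, -, h3⟩ := (Ideal.IsPrime.prod_mem_iff).1 h2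
        exact hgQ ((hHiff σ σ.2 g).1 h3)
    have hrQ : r ∉ Q' := by
      intro h1
      apply hyQ
      have h2 : y = r - (r - y) := by ring
      rw [h2]
      exact Ideal.sub_mem _ h1 hry
    obtain ⟨s, e', hs, hsr⟩ := h.inv r _ hrhom hrinv
    have hshom : IsHomogeneous s ((∑ _τ : H, ew) + ∑ _τ : H, e) := by
      intro d hd
      apply hrhom
      rw [← hsr]
      change coeff d (map (algebraMap K L) s) ≠ 0
      rw [coeff_map]
      intro h3
      exact hd ((map_eq_zero_iff _ (algebraMap K L).injective).1 h3)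
    refine ⟨s, hshom, ?_, ?_⟩
    · rw [Ideal.mem_comap, hsr]
      exact hrQ
    · have h4 : idiv t 1 Q' (∏ τ : H, ρ τ g) = ∑ σ : H, idiv t 1 Q' (ρ σ g) :=
        idiv_prod hQ Finset.univ (fun τ : H => ρ τ g) fun σ _ h3 =>
          hgQ ((hHiff σ σ.2 g).1 h3)
      rw [hsr, idiv_congr hry, hy, idiv_mul hQ hw₂Q, h4]
      intro h2
      obtain ⟨σ, -, h3⟩ := (Ideal.IsPrime.prod_mem_iff).1 h2
      exact hgQ ((hHiff σ σ.2 g).1 h3)
  obtain ⟨s₁, hs₁, hsQ₁, hi₁⟩ := key g₁ hg₁ hgQ₁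
  obtain ⟨s₂, hs₂, hsQ₂, hi₂⟩ := key g₂ hg₂ hgQ₂
  have hQ' : IsSub (t + 1) (algebraMap (MvPolynomial (Fin N) K) (MvPolynomial (Fin N) L) 1) Q' := by
    rw [map_one]
    exact hQ
  obtain ⟨e₀, he₀, hNm⟩ := Nm_idiv_map (l := 1) (t := t) h hQ'
  rw [map_one] at hNm
  have hsum : ∀ g : MvPolynomial (Fin N) L, Nm (MvPolynomial (Fin N) K)
      (∑ σ : H, idiv t 1 Q' (ρ σ g)) =
      (Fintype.card H : ℚ) • Nm (MvPolynomial (Fin N) K) (idiv t 1 Q' g) := by
    intro g
    rw [map_sum]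
    have h5 : ∀ σ ∈ (Finset.univ : Finset H), Nm (MvPolynomial (Fin N) K)
        (idiv t 1 Q' (ρ σ g)) = Nm (MvPolynomial (Fin N) K) (idiv t 1 Q' g) := by
      intro σ _
      have h6 : idiv t 1 Q' (ρ σ g) = fun P' => idiv t 1 Q' g
          (P'.comap (ρ σ : MvPolynomial (Fin N) L →+* MvPolynomial (Fin N) L)) := by
        funext P'
        have h7 := h.idiv_comap (l := 1) (t := t) σ σ.2 g P'
        rw [map_one] at h7
        exact h7
      rw [h6, Nm_comap]
    rw [Finset.sum_congr rfl h5, Finset.sum_const, Finset.card_univ, Nat.cast_smul_eq_nsmul]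
  have h1 : (Fintype.card H : ℚ) • Nm (MvPolynomial (Fin N) K)
      (idiv t 1 Q' g₁ - idiv t 1 Q' g₂) = (e₀ : ℚ) •
      (idiv t 1 (Q'.comap (algebraMap (MvPolynomial (Fin N) K) (MvPolynomial (Fin N) L))) s₁ -
        idiv t 1 (Q'.comap (algebraMap (MvPolynomial (Fin N) K) (MvPolynomial (Fin N) L))) s₂) := by
    rw [map_sub, smul_sub, ← hsum, ← hsum, smul_sub, ← hNm _ hsQ₁, ← hNm _ hsQ₂, hi₁, hi₂,
      map_add, map_add]
    abel
  have hcard : (Fintype.card H : ℚ) ≠ 0 := Nat.cast_ne_zero.2 Fintype.card_ne_zero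
  have h8 : (Fintype.card H : ℚ) • Nm (MvPolynomial (Fin N) K)
      (idiv t 1 Q' g₁ - idiv t 1 Q' g₂) ∈ IRatEq I t := by
    rw [h1]
    refine Submodule.smul_mem _ _ (Submodule.subset_span
      ⟨_, s₁, s₂, _, ?_, hF, hs₁, hs₂, hsQ₁, hsQ₂, rfl⟩)
    rw [isSub_ext_iff hQ.prime, map_one]
    exact hQ
  have h9 := Submodule.smul_mem _ (Fintype.card H : ℚ)⁻¹ h8
  rw [smul_smul, inv_mul_cancel₀ hcard, one_smul] at h9
  exact h9

lemma map_Nm_iRatEq_le (I : Ideal (MvPolynomial (Fin N) K)) (t : ℕ) :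
    (IRatEq (I.map (algebraMap (MvPolynomial (Fin N) K) (MvPolynomial (Fin N) L))) t).map
      (Nm (MvPolynomial (Fin N) K)) ≤ IRatEq I t := by
  conv_lhs => unfold IRatEq
  rw [Submodule.map_span_le]
  rintro c ⟨Q', G₁, G₂, e, hQ, hIQ, hG₁, hG₂, hGQ₁, hGQ₂, rfl⟩
  exact Nm_idiv_sub_mem hQ (Ideal.map_le_iff_le_comap.1 hIQ) hG₁ hG₂ hGQ₁ hGQ₂

end ext

/-- All cycles of dimension `t - 1` are rationally equivalent to multiples of a coordinate linear
section. -/
def Triv {K : Type u} [Field K] {N : ℕ} (t : ℕ) (I : Ideal (MvPolynomial (Fin N) K)) : Prop :=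
  ∃ (k : ℕ) (c : Fin k → Fin N), DimLe t (secI I c) ∧ ∀ P, IsSub t 1 P → I ≤ P →
    pt P ∈ Submodule.span ℚ {icyc t (secI I c)} ⊔ IRatEq I t

section main

variable {K L : Type u} [Field K] [Field L] [Algebra K L] {N : ℕ} [Module.Finite K L]

lemma map_secI (I : Ideal (MvPolynomial (Fin N) K)) {k : ℕ} (c : Fin k → Fin N) :
    (secI I c).map (algebraMap (MvPolynomial (Fin N) K) (MvPolynomial (Fin N) L)) =
      secI (I.map (algebraMap (MvPolynomial (Fin N) K) (MvPolynomial (Fin N) L))) c := by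
  unfold secI
  rw [Ideal.map_sup, Ideal.map_span, ← Set.range_comp]
  congr 2
  congr 1
  funext i
  rw [Function.comp_apply, algebraMap_eq_map, map_X]

lemma dimLe_of_map {t : ℕ} {J : Ideal (MvPolynomial (Fin N) K)}
    (h : DimLe t (J.map (algebraMap (MvPolynomial (Fin N) K) (MvPolynomial (Fin N) L)))) :
    DimLe t J := by
  intro P hP hJP n hn
  have hinj : Function.Injective (algebraMap (MvPolynomial (Fin N) K) (MvPolynomial (Fin N) L)) :=
    map_injective _ (algebraMap K L).injective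
  obtain ⟨P', -, hP', hcomap⟩ := Ideal.exists_ideal_over_prime_of_isIntegral
    (S := MvPolynomial (Fin N) L) P ⊥ (by
    intro x hx
    have h1 : algebraMap (MvPolynomial (Fin N) K) (MvPolynomial (Fin N) L) x = 0 := hx
    rw [map_eq_zero_iff _ hinj] at h1
    rw [h1]
    exact P.zero_mem)
  refine h P' hP' ?_ n ?_
  · rw [Ideal.map_le_iff_le_comap, hcomap]
    exact hJP
  · rw [← hn, ← hcomap]
    exact (trdeg_ext (K := K) hP').symm

theorem Triv.descent [IsGalois K L] {t : ℕ} {I : Ideal (MvPolynomial (Fin N) K)}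
    (h : Triv t (I.map (algebraMap (MvPolynomial (Fin N) K) (MvPolynomial (Fin N) L)))) :
    Triv t I := by
  classical
  obtain ⟨k, c, hdim, hmem⟩ := h
  rw [← map_secI] at hdim hmem
  refine ⟨k, c, dimLe_of_map hdim, fun P hP hIP => ?_⟩
  obtain ⟨P', hP', hcomap⟩ := exists_over_isSub (Ω := L) hP
  rw [map_one] at hP'
  have h1 := hmem P' hP' (by
    rw [Ideal.map_le_iff_le_comap, hcomap]
    exact hIP)
  have h2 := Submodule.mem_map_of_mem (f := Nm (MvPolynomial (Fin N) K)) h1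
  rw [Submodule.map_sup, Submodule.map_span, Set.image_singleton, Nm_icyc] at h2
  have h3 : Nm (MvPolynomial (Fin N) K) (pt P') =
      (fdeg (MvPolynomial (Fin N) K) P' : ℚ) • pt P := by
    have h4 := Nm_single (S := MvPolynomial (Fin N) K) hP'.prime
    rw [hcomap] at h4
    unfold pt
    convert h4 using 1
  rw [h3] at h2
  have h5 : (fdeg (MvPolynomial (Fin N) K) P' : ℚ) ≠ 0 := by
    rw [Nat.cast_ne_zero]
    exact fdeg_ne_zero hP'.prime
  have h6 : (fdeg (MvPolynomial (Fin N) K) P' : ℚ) • (pt P : Ideal (MvPolynomial (Fin N) K) → ℚ) ∈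
      Submodule.span ℚ {icyc t (secI I c)} ⊔ IRatEq I t := by
    refine (sup_le_sup ?_ (map_Nm_iRatEq_le I t) : _ ≤ _) h2
    rw [Submodule.span_le, Set.singleton_subset_iff]
    exact Submodule.smul_mem _ _ (Submodule.mem_span_singleton_self _)
  have h7 := Submodule.smul_mem _ (fdeg (MvPolynomial (Fin N) K) P' : ℚ)⁻¹ h6
  rw [smul_smul, inv_mul_cancel₀ h5, one_smul] at h7
  exact h7

end main

end Pool.Agent.H835.AV
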