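import Pool.Agent.H835.AV.Exact
import Pool.Agent.H835.AV.Arith

set_option autoImplicit false
set_option linter.unusedSectionVars false
set_option linter.unusedVariables false

/-!
# Degrees 2, 3, 4, 5, 7
-/

namespace Pool.Agent.H835.AV

section small

lemma HH_2_1 (c : ZMod 2 → ℕ) : HH (1 : ZMod 2) c = c 1 := by
  refine (Fin.sum_univ_two (fun a : ZMod 2 => c a * (((1 : ZMod 2) * a : ZMod 2).val : ℕ))).trans ?_
  change c 0 * 0 + c 1 * 1 = _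
  ring

theorem stepProp_2 : StepProp 2 := by
  intro c k h0 hk hd hh
  have e1 := hh 1 (isUnit_iff_exists_inv.2 ⟨1, by decide⟩)
  rw [HH_2_1] at hd
  rw [HH_2_1] at e1
  obtain ⟨q, hq⟩ := hd
  obtain ⟨y1, q', a1, hpos, hq', f1⟩ := ar2 (c 1) k q hk hq e1
  let y : ZMod 2 → ℕ := ![0, y1]
  have z0 : y 0 = 0 := rfl
  have z1 : y 1 = y1 := rfl
  refine ⟨y, ?_, ?_, ?_, ?_⟩
  · intro a
    fin_cases a
    · exact Nat.zero_le _
    · exact a1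
  · by_contra hcon
    push Not at hcon
    have b1 := hcon 1
    rw [z1] at b1
    omega
  · rw [HH_2_1, z1]
    exact ⟨q', hq'⟩
  · intro t ht
    have ht2 := isUnit_iff_exists_inv.1 ht
    fin_cases t
    · exact absurd ht2 (by decide)
    · change HH (1 : ZMod 2) y + _ ≤ HH (1 : ZMod 2) c
      rw [HH_2_1, HH_2_1, z1]
      exact f1

lemma HH_3_1 (c : ZMod 3 → ℕ) : HH (1 : ZMod 3) c = c 1 + 2 * c 2 := by
  refine (Fin.sum_univ_three (fun a : ZMod 3 => c a * (((1 : ZMod 3) * a : ZMod 3).val : ℕ))).trans ?_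
  change c 0 * 0 + c 1 * 1 + c 2 * 2 = _
  ring

lemma HH_3_2 (c : ZMod 3 → ℕ) : HH (2 : ZMod 3) c = 2 * c 1 + c 2 := by
  refine (Fin.sum_univ_three (fun a : ZMod 3 => c a * (((2 : ZMod 3) * a : ZMod 3).val : ℕ))).trans ?_
  change c 0 * 0 + c 1 * 2 + c 2 * 1 = _
  ring

theorem stepProp_3 : StepProp 3 := by
  intro c k h0 hk hd hh
  have e1 := hh 1 (isUnit_iff_exists_inv.2 ⟨1, by decide⟩)
  have e2 := hh 2 (isUnit_iff_exists_inv.2 ⟨2, by decide⟩)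
  rw [HH_3_1] at hd
  rw [HH_3_1] at e1
  rw [HH_3_2] at e2
  obtain ⟨q, hq⟩ := hd
  obtain ⟨y1, y2, q', ⟨a1, a2⟩, hpos, hq', f1, f2⟩ := ar3 (c 1) (c 2) k q hk hq e1 e2
  let y : ZMod 3 → ℕ := ![0, y1, y2]
  have z0 : y 0 = 0 := rfl
  have z1 : y 1 = y1 := rfl
  have z2 : y 2 = y2 := rfl
  refine ⟨y, ?_, ?_, ?_, ?_⟩
  · intro a
    fin_cases a
    · exact Nat.zero_le _
    · exact a1
    · exact a2
  · by_contra hcon
    push Not at hcon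
    have b1 := hcon 1
    rw [z1] at b1
    have b2 := hcon 2
    rw [z2] at b2
    omega
  · rw [HH_3_1, z1, z2]
    exact ⟨q', hq'⟩
  · intro t ht
    have ht2 := isUnit_iff_exists_inv.1 ht
    fin_cases t
    · exact absurd ht2 (by decide)
    · change HH (1 : ZMod 3) y + _ ≤ HH (1 : ZMod 3) c
      rw [HH_3_1, HH_3_1, z1, z2]
      exact f1
    · change HH (2 : ZMod 3) y + _ ≤ HH (2 : ZMod 3) c
      rw [HH_3_2, HH_3_2, z1, z2]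
      exact f2

lemma HH_4_1 (c : ZMod 4 → ℕ) : HH (1 : ZMod 4) c = c 1 + 2 * c 2 + 3 * c 3 := by
  refine (Fin.sum_univ_four (fun a : ZMod 4 => c a * (((1 : ZMod 4) * a : ZMod 4).val : ℕ))).trans ?_
  change c 0 * 0 + c 1 * 1 + c 2 * 2 + c 3 * 3 = _
  ring

lemma HH_4_3 (c : ZMod 4 → ℕ) : HH (3 : ZMod 4) c = 3 * c 1 + 2 * c 2 + c 3 := by
  refine (Fin.sum_univ_four (fun a : ZMod 4 => c a * (((3 : ZMod 4) * a : ZMod 4).val : ℕ))).trans ?_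
  change c 0 * 0 + c 1 * 3 + c 2 * 2 + c 3 * 1 = _
  ring

theorem stepProp_4 : StepProp 4 := by
  intro c k h0 hk hd hh
  have e1 := hh 1 (isUnit_iff_exists_inv.2 ⟨1, by decide⟩)
  have e3 := hh 3 (isUnit_iff_exists_inv.2 ⟨3, by decide⟩)
  rw [HH_4_1] at hd
  rw [HH_4_1] at e1
  rw [HH_4_3] at e3
  obtain ⟨q, hq⟩ := hd
  obtain ⟨y1, y2, y3, q', ⟨a1, a2, a3⟩, hpos, hq', f1, f3⟩ := ar4 (c 1) (c 2) (c 3) k q hk hq e1 e3
  let y : ZMod 4 → ℕ := ![0, y1, y2, y3]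
  have z0 : y 0 = 0 := rfl
  have z1 : y 1 = y1 := rfl
  have z2 : y 2 = y2 := rfl
  have z3 : y 3 = y3 := rfl
  refine ⟨y, ?_, ?_, ?_, ?_⟩
  · intro a
    fin_cases a
    · exact Nat.zero_le _
    · exact a1
    · exact a2
    · exact a3
  · by_contra hcon
    push Not at hcon
    have b1 := hcon 1
    rw [z1] at b1
    have b2 := hcon 2
    rw [z2] at b2
    have b3 := hcon 3
    rw [z3] at b3
    omega
  · rw [HH_4_1, z1, z2, z3]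
    exact ⟨q', hq'⟩
  · intro t ht
    have ht2 := isUnit_iff_exists_inv.1 ht
    fin_cases t
    · exact absurd ht2 (by decide)
    · change HH (1 : ZMod 4) y + _ ≤ HH (1 : ZMod 4) c
      rw [HH_4_1, HH_4_1, z1, z2, z3]
      exact f1
    · exact absurd ht2 (by decide)
    · change HH (3 : ZMod 4) y + _ ≤ HH (3 : ZMod 4) c
      rw [HH_4_3, HH_4_3, z1, z2, z3]
      exact f3

lemma HH_5_1 (c : ZMod 5 → ℕ) : HH (1 : ZMod 5) c = c 1 + 2 * c 2 + 3 * c 3 + 4 * c 4 := by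
  refine (Fin.sum_univ_five (fun a : ZMod 5 => c a * (((1 : ZMod 5) * a : ZMod 5).val : ℕ))).trans ?_
  change c 0 * 0 + c 1 * 1 + c 2 * 2 + c 3 * 3 + c 4 * 4 = _
  ring

lemma HH_5_2 (c : ZMod 5 → ℕ) : HH (2 : ZMod 5) c = 2 * c 1 + 4 * c 2 + c 3 + 3 * c 4 := by
  refine (Fin.sum_univ_five (fun a : ZMod 5 => c a * (((2 : ZMod 5) * a : ZMod 5).val : ℕ))).trans ?_
  change c 0 * 0 + c 1 * 2 + c 2 * 4 + c 3 * 1 + c 4 * 3 = _
  ring

lemma HH_5_3 (c : ZMod 5 → ℕ) : HH (3 : ZMod 5) c = 3 * c 1 + c 2 + 4 * c 3 + 2 * c 4 := by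
  refine (Fin.sum_univ_five (fun a : ZMod 5 => c a * (((3 : ZMod 5) * a : ZMod 5).val : ℕ))).trans ?_
  change c 0 * 0 + c 1 * 3 + c 2 * 1 + c 3 * 4 + c 4 * 2 = _
  ring

lemma HH_5_4 (c : ZMod 5 → ℕ) : HH (4 : ZMod 5) c = 4 * c 1 + 3 * c 2 + 2 * c 3 + c 4 := by
  refine (Fin.sum_univ_five (fun a : ZMod 5 => c a * (((4 : ZMod 5) * a : ZMod 5).val : ℕ))).trans ?_
  change c 0 * 0 + c 1 * 4 + c 2 * 3 + c 3 * 2 + c 4 * 1 = _
  ring

theorem stepProp_5 : StepProp 5 := by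
  intro c k h0 hk hd hh
  have e1 := hh 1 (isUnit_iff_exists_inv.2 ⟨1, by decide⟩)
  have e2 := hh 2 (isUnit_iff_exists_inv.2 ⟨3, by decide⟩)
  have e3 := hh 3 (isUnit_iff_exists_inv.2 ⟨2, by decide⟩)
  have e4 := hh 4 (isUnit_iff_exists_inv.2 ⟨4, by decide⟩)
  rw [HH_5_1] at hd
  rw [HH_5_1] at e1
  rw [HH_5_2] at e2
  rw [HH_5_3] at e3
  rw [HH_5_4] at e4
  obtain ⟨q, hq⟩ := hd
  obtain ⟨y1, y2, y3, y4, q', ⟨a1, a2, a3, a4⟩, hpos, hq', f1, f2, f3, f4⟩ := ar5 (c 1) (c 2) (c 3) (c 4) k q hk hq e1 e2 e3 e4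
  let y : ZMod 5 → ℕ := ![0, y1, y2, y3, y4]
  have z0 : y 0 = 0 := rfl
  have z1 : y 1 = y1 := rfl
  have z2 : y 2 = y2 := rfl
  have z3 : y 3 = y3 := rfl
  have z4 : y 4 = y4 := rfl
  refine ⟨y, ?_, ?_, ?_, ?_⟩
  · intro a
    fin_cases a
    · exact Nat.zero_le _
    · exact a1
    · exact a2
    · exact a3
    · exact a4
  · by_contra hcon
    push Not at hcon
    have b1 := hcon 1
    rw [z1] at b1
    have b2 := hcon 2
    rw [z2] at b2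
    have b3 := hcon 3
    rw [z3] at b3
    have b4 := hcon 4
    rw [z4] at b4
    omega
  · rw [HH_5_1, z1, z2, z3, z4]
    exact ⟨q', hq'⟩
  · intro t ht
    have ht2 := isUnit_iff_exists_inv.1 ht
    fin_cases t
    · exact absurd ht2 (by decide)
    · change HH (1 : ZMod 5) y + _ ≤ HH (1 : ZMod 5) c
      rw [HH_5_1, HH_5_1, z1, z2, z3, z4]
      exact f1
    · change HH (2 : ZMod 5) y + _ ≤ HH (2 : ZMod 5) c
      rw [HH_5_2, HH_5_2, z1, z2, z3, z4]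
      exact f2
    · change HH (3 : ZMod 5) y + _ ≤ HH (3 : ZMod 5) c
      rw [HH_5_3, HH_5_3, z1, z2, z3, z4]
      exact f3
    · change HH (4 : ZMod 5) y + _ ≤ HH (4 : ZMod 5) c
      rw [HH_5_4, HH_5_4, z1, z2, z3, z4]
      exact f4

lemma HH_7_1 (c : ZMod 7 → ℕ) : HH (1 : ZMod 7) c = c 1 + 2 * c 2 + 3 * c 3 + 4 * c 4 + 5 * c 5 + 6 * c 6 := by
  refine (Fin.sum_univ_seven (fun a : ZMod 7 => c a * (((1 : ZMod 7) * a : ZMod 7).val : ℕ))).trans ?_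
  change c 0 * 0 + c 1 * 1 + c 2 * 2 + c 3 * 3 + c 4 * 4 + c 5 * 5 + c 6 * 6 = _
  ring

lemma HH_7_2 (c : ZMod 7 → ℕ) : HH (2 : ZMod 7) c = 2 * c 1 + 4 * c 2 + 6 * c 3 + c 4 + 3 * c 5 + 5 * c 6 := by
  refine (Fin.sum_univ_seven (fun a : ZMod 7 => c a * (((2 : ZMod 7) * a : ZMod 7).val : ℕ))).trans ?_
  change c 0 * 0 + c 1 * 2 + c 2 * 4 + c 3 * 6 + c 4 * 1 + c 5 * 3 + c 6 * 5 = _
  ring

lemma HH_7_3 (c : ZMod 7 → ℕ) : HH (3 : ZMod 7) c = 3 * c 1 + 6 * c 2 + 2 * c 3 + 5 * c 4 + c 5 + 4 * c 6 := by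
  refine (Fin.sum_univ_seven (fun a : ZMod 7 => c a * (((3 : ZMod 7) * a : ZMod 7).val : ℕ))).trans ?_
  change c 0 * 0 + c 1 * 3 + c 2 * 6 + c 3 * 2 + c 4 * 5 + c 5 * 1 + c 6 * 4 = _
  ring

lemma HH_7_4 (c : ZMod 7 → ℕ) : HH (4 : ZMod 7) c = 4 * c 1 + c 2 + 5 * c 3 + 2 * c 4 + 6 * c 5 + 3 * c 6 := by
  refine (Fin.sum_univ_seven (fun a : ZMod 7 => c a * (((4 : ZMod 7) * a : ZMod 7).val : ℕ))).trans ?_
  change c 0 * 0 + c 1 * 4 + c 2 * 1 + c 3 * 5 + c 4 * 2 + c 5 * 6 + c 6 * 3 = _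
  ring

lemma HH_7_5 (c : ZMod 7 → ℕ) : HH (5 : ZMod 7) c = 5 * c 1 + 3 * c 2 + c 3 + 6 * c 4 + 4 * c 5 + 2 * c 6 := by
  refine (Fin.sum_univ_seven (fun a : ZMod 7 => c a * (((5 : ZMod 7) * a : ZMod 7).val : ℕ))).trans ?_
  change c 0 * 0 + c 1 * 5 + c 2 * 3 + c 3 * 1 + c 4 * 6 + c 5 * 4 + c 6 * 2 = _
  ring

lemma HH_7_6 (c : ZMod 7 → ℕ) : HH (6 : ZMod 7) c = 6 * c 1 + 5 * c 2 + 4 * c 3 + 3 * c 4 + 2 * c 5 + c 6 := by
  refine (Fin.sum_univ_seven (fun a : ZMod 7 => c a * (((6 : ZMod 7) * a : ZMod 7).val : ℕ))).trans ?_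
  change c 0 * 0 + c 1 * 6 + c 2 * 5 + c 3 * 4 + c 4 * 3 + c 5 * 2 + c 6 * 1 = _
  ring

theorem stepProp_7 : StepProp 7 := by
  intro c k h0 hk hd hh
  have e1 := hh 1 (isUnit_iff_exists_inv.2 ⟨1, by decide⟩)
  have e2 := hh 2 (isUnit_iff_exists_inv.2 ⟨4, by decide⟩)
  have e3 := hh 3 (isUnit_iff_exists_inv.2 ⟨5, by decide⟩)
  have e4 := hh 4 (isUnit_iff_exists_inv.2 ⟨2, by decide⟩)
  have e5 := hh 5 (isUnit_iff_exists_inv.2 ⟨3, by decide⟩)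
  have e6 := hh 6 (isUnit_iff_exists_inv.2 ⟨6, by decide⟩)
  rw [HH_7_1] at hd
  rw [HH_7_1] at e1
  rw [HH_7_2] at e2
  rw [HH_7_3] at e3
  rw [HH_7_4] at e4
  rw [HH_7_5] at e5
  rw [HH_7_6] at e6
  obtain ⟨q, hq⟩ := hd
  obtain ⟨y1, y2, y3, y4, y5, y6, q', ⟨a1, a2, a3, a4, a5, a6⟩, hpos, hq', f1, f2, f3, f4, f5, f6⟩ := ar7 (c 1) (c 2) (c 3) (c 4) (c 5) (c 6) k q hk hq e1 e2 e3 e4 e5 e6
  let y : ZMod 7 → ℕ := ![0, y1, y2, y3, y4, y5, y6]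
  have z0 : y 0 = 0 := rfl
  have z1 : y 1 = y1 := rfl
  have z2 : y 2 = y2 := rfl
  have z3 : y 3 = y3 := rfl
  have z4 : y 4 = y4 := rfl
  have z5 : y 5 = y5 := rfl
  have z6 : y 6 = y6 := rfl
  refine ⟨y, ?_, ?_, ?_, ?_⟩
  · intro a
    fin_cases a
    · exact Nat.zero_le _
    · exact a1
    · exact a2
    · exact a3
    · exact a4
    · exact a5
    · exact a6
  · by_contra hcon
    push Not at hcon
    have b1 := hcon 1
    rw [z1] at b1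
    have b2 := hcon 2
    rw [z2] at b2
    have b3 := hcon 3
    rw [z3] at b3
    have b4 := hcon 4
    rw [z4] at b4
    have b5 := hcon 5
    rw [z5] at b5
    have b6 := hcon 6
    rw [z6] at b6
    omega
  · rw [HH_7_1, z1, z2, z3, z4, z5, z6]
    exact ⟨q', hq'⟩
  · intro t ht
    have ht2 := isUnit_iff_exists_inv.1 ht
    fin_cases t
    · exact absurd ht2 (by decide)
    · change HH (1 : ZMod 7) y + _ ≤ HH (1 : ZMod 7) c
      rw [HH_7_1, HH_7_1, z1, z2, z3, z4, z5, z6]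
      exact f1
    · change HH (2 : ZMod 7) y + _ ≤ HH (2 : ZMod 7) c
      rw [HH_7_2, HH_7_2, z1, z2, z3, z4, z5, z6]
      exact f2
    · change HH (3 : ZMod 7) y + _ ≤ HH (3 : ZMod 7) c
      rw [HH_7_3, HH_7_3, z1, z2, z3, z4, z5, z6]
      exact f3
    · change HH (4 : ZMod 7) y + _ ≤ HH (4 : ZMod 7) c
      rw [HH_7_4, HH_7_4, z1, z2, z3, z4, z5, z6]
      exact f4
    · change HH (5 : ZMod 7) y + _ ≤ HH (5 : ZMod 7) c
      rw [HH_7_5, HH_7_5, z1, z2, z3, z4, z5, z6]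
      exact f5
    · change HH (6 : ZMod 7) y + _ ≤ HH (6 : ZMod 7) c
      rw [HH_7_6, HH_7_6, z1, z2, z3, z4, z5, z6]
      exact f6

end small

end Pool.Agent.H835.AV
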