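import Pool.Agent.H835.AV.Diag
import Pool.Agent.H835.AV.Small

set_option autoImplicit false
set_option linter.unusedSectionVars false

/-!
# Diagonal complete intersections of degrees 2, 3, 4, 5, 7
-/

universe u

namespace Pool.Agent.H835.AV

open MvPolynomial Pool.Agent.W5h86.HC

section comb

variable {m : ℕ} {ι : Type} [Fintype ι] [DecidableEq ι] [NeZero m]

/-- **Zero-sum partitions from heights, without a condition on the length.** -/
theorem exists_merge_of_step (hs : StepProp m) {x : ι → ZMod m} (hx : ∑ j, x j = 0) {k : ℕ}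
    (hh : ∀ t : (ZMod m)ˣ, k * m ≤ hgt fun j => (t : ZMod m) * x j) :
    ∃ π : ι → ι, k ≤ (Finset.univ.image π).card ∧ ∀ l, ∑ j with π j = l, x j = 0 := by
  classical
  set z := (Finset.univ.filter fun j => x j = 0).card with hz
  have hsum : ∑ i : {j // x j ≠ 0}, x i = 0 := by
    have h1 : ∑ j with x j ≠ 0, x j = ∑ j, x j := Finset.sum_filter_ne_zero _
    rw [hx, Finset.sum_subtype (p := fun j => x j ≠ 0) _ (fun j => by
      rw [Finset.mem_filter]
      exact and_iff_right (Finset.mem_univ j)) x] at h1
    exact h1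
  have hheight : ∀ t : ZMod m, IsUnit t →
      (k - z) * m ≤ ((((Finset.univ : Finset {j // x j ≠ 0}).val.map
        fun i : {j // x j ≠ 0} => x i).map fun a => (t * a).val).sum) := by
    rintro _ ⟨t, rfl⟩
    rw [Multiset.map_map]
    have h2 := hh t
    rw [hgt_eq] at h2
    have h3 : ∀ j, (t : ZMod m) * x j = 0 ↔ x j = 0 := fun j => by
      rw [Units.mul_right_eq_zero]
    have h4 : (Finset.univ.filter fun j => (t : ZMod m) * x j = 0).card = z := by
      rw [hz]
      congr 1
      ext j
      rw [Finset.mem_filter, Finset.mem_filter, h3]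
    have h5 : ∑ i : {j // (t : ZMod m) * x j ≠ 0}, ((t : ZMod m) * x i).val =
        ∑ i : {j // x j ≠ 0}, ((t : ZMod m) * x i).val := by
      refine Fintype.sum_equiv (Equiv.subtypeEquivRight fun j => not_congr (h3 j)) _ _
        fun i => rfl
    rw [h4, h5] at h2
    rw [Nat.sub_mul]
    have h6 : (Multiset.map ((fun a => ((t : ZMod m) * a).val) ∘ fun i : {j // x j ≠ 0} => x i)
        (Finset.univ : Finset {j // x j ≠ 0}).val).sum =
        ∑ i : {j // x j ≠ 0}, ((t : ZMod m) * x i).val := rfl
    rw [h6]
    omega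
  obtain ⟨k', hk', hP⟩ := exact_of_step hs _ ((Finset.univ : Finset {j // x j ≠ 0}).val.map
    fun i : {j // x j ≠ 0} => x i) rfl (by
      intro h
      obtain ⟨i, -, hi⟩ := Multiset.mem_map.1 h
      exact i.2 hi) hsum (k - z) hheight
  obtain ⟨P, hP1, hP2⟩ := Pool.Agent.N998.ZS.finpartition_of_parts
    (fun i : {j // x j ≠ 0} => x i) k' Finset.univ hP
  obtain ⟨π, h2, h3⟩ := exists_merge_of_finpartition P hP2
  refine ⟨π, ?_, h3⟩
  rw [h2, hP1, ← hz]
  omega

end comb

section main

variable {m : ℕ} [NeZero m] {K : Type u} [Field K] {N ρ : ℕ}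

/-- **The group ring acts trivially on cycles of low dimension.** -/
theorem diag_small {e : AddChar (ZMod m) K} {n : ℕ} (he : Good e n) (hs : StepProp m)
    (A : Matrix (Fin ρ) (Fin N) K)
    (hA : ∀ f : Fin ρ → Fin N, Function.Injective f → (A.submatrix id f).det ≠ 0)
    {c t : ℕ} (ht : 1 ≤ t) (htc : t ≤ c) (htN : t + ρ ≤ N)
    (z : (Fin N → ZMod m) → ℚ)
    (hz : ∀ x : Fin N → ZMod m, ∑ j, x j = 0 →
      (Finset.univ.filter fun j => x j = 0).card < ρ → hgt x < (c + ρ) * m →
      ∑ g, (z g : ℂ) * ch x g = 0) :
    ∃ (k : ℕ) (c : Fin k → Fin N), DimLe t (secI (diagI n A) c) ∧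
      ∀ P, IsSub t 1 P → diagI n A ≤ P →
      ∑ g, z g • tr (wt e (id : Fin N → Fin N) g) (pt P) ∈
        Submodule.span ℚ {icyc t (secI (diagI n A) c)} ⊔ IRatEq (diagI n A) t := by
  classical
  have key : ∀ x : Fin N → ZMod m, ∑ k, x k = 0 → ∑ g, (z g : ℂ) * ch x g ≠ 0 →
      ∃ π : Fin N → Fin N, AvTriv e (π ∘ id) t (diagI n A) ∧ ∀ k, ∑ j with π j = k, x j = 0 := by
    intro x hx hzx
    rcases Nat.lt_or_ge (Finset.univ.filter fun j => x j = 0).card ρ with h0 | h0
    · -- few zeros
      obtain ⟨π, h1, h2⟩ := exists_merge_of_step hs hx (k := c + ρ) (by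
        intro s
        by_contra hcon
        have hsum : ∑ j, (s : ZMod m) * x j = 0 := by
          rw [← Finset.mul_sum, hx, mul_zero]
        have hcard : (Finset.univ.filter fun j => (s : ZMod m) * x j = 0).card < ρ := by
          have h3 : (Finset.univ.filter fun j => (s : ZMod m) * x j = 0) =
              Finset.univ.filter fun j => x j = 0 := by
            ext j
            rw [Finset.mem_filter, Finset.mem_filter, Units.mul_right_eq_zero]
          rw [h3]
          exact h0
        have h4 := hz _ hsum hcard (not_le.1 hcon)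
        have h5 := sum_ch_conj z _ s⁻¹ h4
        have h6 : (fun j => ((s⁻¹ : (ZMod m)ˣ) : ZMod m) * ((s : ZMod m) * x j)) = x := by
          funext j
          rw [← mul_assoc, Units.inv_mul, one_mul]
        rw [h6] at h5
        exact hzx h5)
      refine ⟨π, ?_, h2⟩
      refine gen_proj (cls_CSF n) N K e (π ∘ id) t ρ _ ⟨he, ?_, fun i => ∑ j, C (A i j) * X j ^ n,
        fun i => (sF_dg n (A i)).comp π, rfl⟩ (by omega) ht
      have h7 : Finset.univ.image (π ∘ id) = Finset.univ.image π := rfl
      rw [h7]
      omega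
    · -- many zeros
      obtain ⟨T, hT, hTcard⟩ := Finset.exists_subset_card_eq h0
      let f : Fin ρ → Fin N := fun i => (T.equivFinOfCardEq hTcard).symm i
      have hf : Function.Injective f := fun a b h =>
        (T.equivFinOfCardEq hTcard).symm.injective (Subtype.ext h)
      have hfT : ∀ i, f i ∈ T := fun i => ((T.equivFinOfCardEq hTcard).symm i).2
      have hfx : ∀ i, x (f i) = 0 := fun i => (Finset.mem_filter.1 (hT (hfT i))).2
      obtain ⟨k₀, hk₀⟩ : ∃ k₀, k₀ ∉ Finset.univ.image f := by
        by_contra hcon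
        push Not at hcon
        have h1 : (Finset.univ.image f).card = N := by
          rw [Finset.eq_univ_of_forall hcon, Finset.card_univ, Fintype.card_fin]
        rw [Finset.card_image_of_injective _ hf, Finset.card_univ, Fintype.card_fin] at h1
        omega
      refine ⟨fun j => if j ∈ Finset.univ.image f then j else k₀,
        avTriv_elim he hf (hA f hf) hk₀ (fun j => rfl) ht (by omega), ?_⟩
      have hdich : ∀ j, (if j ∈ Finset.univ.image f then j else k₀) = k₀ ∨ x j = 0 := by
        intro j
        by_cases hj : j ∈ Finset.univ.image f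
        · right
          obtain ⟨i, -, rfl⟩ := Finset.mem_image.1 hj
          exact hfx i
        · left
          exact if_neg hj
      intro k
      by_cases hk : k = k₀
      · refine Eq.trans ?_ hx
        rw [Finset.sum_filter]
        refine Finset.sum_congr rfl fun j _ => ?_
        rcases hdich j with h2 | h2
        · exact if_pos (h2.trans hk.symm)
        · rw [h2]
          exact ite_self 0
      · refine Finset.sum_eq_zero fun j hj => ?_
        have h1 : (if j ∈ Finset.univ.image f then j else k₀) = k := (Finset.mem_filter.1 hj).2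
        rcases hdich j with h2 | h2
        · exact absurd (h1.symm.trans h2) hk
        · exact h2
  -- a first section
  obtain ⟨π₀, h₀⟩ : ∃ π₀ : Fin N → Fin N, AvTriv e (π₀ ∘ id) t (diagI n A) := by
    obtain ⟨f, hf⟩ : ∃ f : Fin ρ → Fin N, Function.Injective f :=
      ⟨Fin.castLE (by omega), Fin.castLE_injective _⟩
    obtain ⟨k₀, hk₀⟩ : ∃ k₀, k₀ ∉ Finset.univ.image f := by
      by_contra hcon
      push Not at hcon
      have h1 : (Finset.univ.image f).card = N := by
        rw [Finset.eq_univ_of_forall hcon, Finset.card_univ, Fintype.card_fin]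
      rw [Finset.card_image_of_injective _ hf, Finset.card_univ, Fintype.card_fin] at h1
      omega
    exact ⟨fun j => if j ∈ Finset.univ.image f then j else k₀,
      avTriv_elim he hf (hA f hf) hk₀ (fun j => rfl) ht (by omega)⟩
  exact char_main (diagI_stable he.dvd A) h₀ z key

end main

end Pool.Agent.H835.AV
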