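import Pool.Agent.H835.AV.Trans
import Pool.Graph.R_pool_sql_team_seeded_9f66d723.W5h86.HD.Ext

set_option autoImplicit false
set_option linter.unusedSectionVars false

/-!
# Dimensions of hypersurface sections
-/

universe u

namespace Pool.Agent.H835.AV

open MvPolynomial Pool.Agent.W5h86.HC

/-- Krull's principal ideal theorem and the dimension formula. -/
theorem trdeg_minimal {K D : Type u} [Field K] [CommRing D] [IsDomain D] [Algebra K D]
    [Algebra.FiniteType K D] {a : D} (ha : a ≠ 0) {p : Ideal D}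
    (hp : p ∈ (Ideal.span {a}).minimalPrimes) {n : ℕ} (hn : Algebra.trdeg K D = n) :
    ∃ n', n = n' + 1 ∧ Algebra.trdeg K (D ⧸ p) = (n' : ℕ) := by
  have hpp : p.IsPrime := hp.1.1
  have hap : a ∈ p := hp.1.2 (Ideal.mem_span_singleton_self a)
  have hnoeth : IsNoetherianRing D := Algebra.FiniteType.isNoetherianRing K D
  obtain ⟨s, g, hg, hint⟩ := exists_integral_inj_algHom_of_fg K D
  have hinj : Function.Injective (g : MvPolynomial (Fin s) K →+* D) := hg
  have htr : ∀ P : Ideal D, P.IsPrime →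
      Algebra.trdeg K (MvPolynomial (Fin s) K ⧸ P.comap g) = Algebra.trdeg K (D ⧸ P) :=
    fun P hP => trdeg_comap_integral g hP hint
  have hq : (p.comap g).IsPrime := Ideal.comap_isPrime g p
  have hD : Algebra.trdeg K (D ⧸ (⊥ : Ideal D)) = n := by
    rw [← hn]
    exact (AlgEquiv.quotientBot K D).trdeg_eq
  have hs : s = n := by
    have h1 := htr ⊥ Ideal.isPrime_bot
    have h2 : (⊥ : Ideal D).comap g = ⊥ := by
      rw [eq_bot_iff]
      intro x hx
      rw [Ideal.mem_comap, Ideal.mem_bot] at hx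
      rw [Ideal.mem_bot]
      exact (map_eq_zero_iff g hg).1 hx
    rw [h2, trdeg_bot, hD] at h1
    exact_mod_cast h1
  subst hs
  algebraize [g.toRingHom]
  have hfs : FaithfulSMul (MvPolynomial (Fin s) K) D := by
    rw [faithfulSMul_iff_algebraMap_injective]
    exact hg
  have hInt : Algebra.IsIntegral (MvPolynomial (Fin s) K) D := ⟨hint⟩
  have hne : p.comap g ≠ ⊥ := by
    intro h1
    have h2 : p = ⊥ := Ideal.eq_bot_of_comap_eq_bot (R := MvPolynomial (Fin s) K) h1
    rw [h2, Ideal.mem_bot] at hap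
    exact ha hap
  obtain ⟨f, hf, hf0⟩ := Submodule.exists_mem_ne_zero_of_ne_bot hne
  obtain ⟨F, hF, hFf⟩ := UniqueFactorizationMonoid.exists_prime_factors f hf0
  have h1 : F.prod ∈ p.comap g := by
    obtain ⟨v, hv⟩ := hFf
    have h2 : F.prod * v ∈ p.comap g := by
      rw [hv]
      exact hf
    refine (hq.mem_or_mem h2).resolve_right fun h3 => ?_
    exact hq.ne_top (Ideal.eq_top_of_isUnit_mem _ h3 v.isUnit)
  obtain ⟨z, hz, hzp⟩ := (hq.multiset_prod_mem_iff_exists_mem F).1 h1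
  have hzprime := hF z hz
  have hspan : (Ideal.span {z}).IsPrime :=
    (Ideal.span_singleton_prime hzprime.ne_zero).2 hzprime
  have hle : Ideal.span {z} ≤ p.comap g := by
    rw [Ideal.span_singleton_le_iff_mem]
    exact hzp
  have hlies : p.LiesOver (p.comap g) := ⟨rfl⟩
  obtain ⟨P₀, hP₀, hP₀p, hP₀l⟩ := Ideal.exists_ideal_le_liesOver_of_le
    (R := MvPolynomial (Fin s) K) p hle
  have hP₀eq : P₀ = p := by
    by_contra hcon
    have hlt : P₀ < p := lt_of_le_of_ne hP₀ hcon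
    have hbot : ⊥ < P₀ := by
      rw [bot_lt_iff_ne_bot]
      intro h3
      have h4 : z ∈ Ideal.span {z} := Ideal.mem_span_singleton_self z
      rw [hP₀l.over, h3] at h4
      have h5 : g z = 0 := h4
      exact hzprime.ne_zero ((map_eq_zero_iff g hg).1 h5)
    have h6 := Ideal.height_le_one_of_isPrincipal_of_mem_minimalPrimes (Ideal.span {a}) p hp
    have h7 : P₀.height + 1 ≤ p.height := Ideal.height_add_one_le_of_lt_of_isPrime hlt
    have h8 : (⊥ : Ideal D).height + 1 ≤ P₀.height :=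
      Ideal.height_add_one_le_of_lt_of_isPrime hbot
    have h9 : (2 : ℕ∞) ≤ 1 := by
      calc (2 : ℕ∞) = 1 + 1 := by norm_num
        _ ≤ ((⊥ : Ideal D).height + 1) + 1 := by gcongr; exact le_add_self
        _ ≤ P₀.height + 1 := by gcongr
        _ ≤ p.height := h7
        _ ≤ 1 := h6
    exact absurd h9 (by norm_num)
  have hqz : p.comap g = Ideal.span {z} := by
    rw [hP₀l.over, hP₀eq]
    rfl
  obtain ⟨k, rfl⟩ : ∃ k, s = k + 1 := by
    refine Nat.exists_eq_succ_of_ne_zero ?_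
    rintro rfl
    apply hzprime.not_isUnit
    have h3 : z = C (coeff 0 z) := eq_C_of_isEmpty z
    rw [h3]
    apply IsUnit.map
    rw [isUnit_iff_ne_zero]
    intro h4
    rw [h4, map_zero] at h3
    exact hzprime.ne_zero h3
  refine ⟨k, rfl, ?_⟩
  rw [← htr p hpp, hqz]
  exact trdeg_span_prime hzprime

section next

variable {K : Type u} [Field K] {N : ℕ}

/-- One more equation. -/
theorem exists_next {P Q : Ideal (MvPolynomial (Fin N) K)} (hQ : Q.IsPrime) (hQh : IsHomIdeal Q)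
    {n : ℕ} (hn : Algebra.trdeg K (MvPolynomial (Fin N) K ⧸ Q) = n) (hQP : Q ≤ P)
    (hP : P.IsPrime) {f : MvPolynomial (Fin N) K} {d : ℕ} (hf : IsHomogeneous f d) (hfP : f ∈ P)
    (hfQ : f ∉ Q) : ∃ Q' : Ideal (MvPolynomial (Fin N) K), Q'.IsPrime ∧ IsHomIdeal Q' ∧ Q ≤ Q' ∧
      f ∈ Q' ∧ Q' ≤ P ∧ ∃ n', n = n' + 1 ∧
        Algebra.trdeg K (MvPolynomial (Fin N) K ⧸ Q') = (n' : ℕ) := by
  set mk := Ideal.Quotient.mkₐ K Q with hmk
  have hsurj : Function.Surjective (mk : MvPolynomial (Fin N) K →+* MvPolynomial (Fin N) K ⧸ Q) :=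
    Ideal.Quotient.mk_surjective
  have hker : RingHom.ker (mk : MvPolynomial (Fin N) K →+* MvPolynomial (Fin N) K ⧸ Q) = Q :=
    Ideal.mk_ker
  have hPm : (P.map (mk : MvPolynomial (Fin N) K →+* MvPolynomial (Fin N) K ⧸ Q)).IsPrime :=
    Ideal.map_isPrime_of_surjective hsurj (by rw [hker]; exact hQP)
  have hcomap : (P.map (mk : MvPolynomial (Fin N) K →+* MvPolynomial (Fin N) K ⧸ Q)).comap
      (mk : MvPolynomial (Fin N) K →+* MvPolynomial (Fin N) K ⧸ Q) = P := by
    rw [Ideal.comap_map_of_surjective _ hsurj, ← RingHom.ker_eq_comap_bot, hker]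
    exact sup_eq_left.2 hQP
  obtain ⟨p, hp, hpP⟩ := Ideal.exists_minimalPrimes_le (I := Ideal.span {mk f})
    (J := P.map (mk : MvPolynomial (Fin N) K →+* MvPolynomial (Fin N) K ⧸ Q)) (by
      rw [Ideal.span_singleton_le_iff_mem]
      exact Ideal.mem_map_of_mem _ hfP)
  have hpp : p.IsPrime := hp.1.1
  have hfp : mk f ∈ p := hp.1.2 (Ideal.mem_span_singleton_self _)
  have hf0 : mk f ≠ 0 := by
    intro h1
    exact hfQ (Ideal.Quotient.eq_zero_iff_mem.1 h1)
  have hdom : IsDomain (MvPolynomial (Fin N) K ⧸ Q) := Ideal.Quotient.isDomain Q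
  obtain ⟨n', hn', htr⟩ := trdeg_minimal (K := K) hf0 hp hn
  have hQQ' : Q ≤ p.comap (mk : MvPolynomial (Fin N) K →+* MvPolynomial (Fin N) K ⧸ Q) := by
    intro x hx
    rw [Ideal.mem_comap]
    have h1 : mk x = 0 := Ideal.Quotient.eq_zero_iff_mem.2 hx
    have h2 : (mk : MvPolynomial (Fin N) K →+* MvPolynomial (Fin N) K ⧸ Q) x = 0 := h1
    rw [h2]
    exact p.zero_mem
  refine ⟨p.comap (mk : MvPolynomial (Fin N) K →+* MvPolynomial (Fin N) K ⧸ Q),
    Ideal.comap_isPrime _ p, ?_, hQQ', hfp, ?_, n', hn', ?_⟩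
  · refine Pool.Agent.W5h86.HD.isHomIdeal_of_minimal' (J := Q ⊔ Ideal.span {f}) ?_ ?_
    · intro x hx i
      obtain ⟨a, ha, b, hb, rfl⟩ := Submodule.mem_sup.1 hx
      obtain ⟨c, rfl⟩ := Ideal.mem_span_singleton'.1 hb
      rw [map_add]
      refine Ideal.add_mem _ (Ideal.mem_sup_left (hQh a ha i)) (Ideal.mem_sup_right ?_)
      rw [← sum_homogeneousComponent c, Finset.sum_mul, map_sum]
      refine Ideal.sum_mem _ fun j _ => ?_
      rw [homogeneousComponent_of_mem ((homogeneousComponent_isHomogeneous j c).mul hf)]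
      split_ifs
      · exact Ideal.mul_mem_left _ _ (Ideal.mem_span_singleton_self f)
      · exact Ideal.zero_mem _
    · have h1 : Q ⊔ Ideal.span {f} = (Ideal.span {mk f}).comap
          (mk : MvPolynomial (Fin N) K →+* MvPolynomial (Fin N) K ⧸ Q) := by
        have h2 : Ideal.span {mk f} = (Ideal.span {f}).map
            (mk : MvPolynomial (Fin N) K →+* MvPolynomial (Fin N) K ⧸ Q) := by
          rw [Ideal.map_span, Set.image_singleton]
          rfl
        rw [h2, Ideal.comap_map_of_surjective _ hsurj, ← RingHom.ker_eq_comap_bot, hker, sup_comm]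
      rw [h1, Ideal.comap_minimalPrimes_eq_of_surjective hsurj]
      exact ⟨p, hp, rfl⟩
  · rw [← hcomap]
    exact Ideal.comap_mono hpP
  · rw [← htr]
    exact trdeg_comap_integral mk hpp fun y => by
      obtain ⟨x, rfl⟩ := hsurj y
      exact RingHom.isIntegralElem_map _

/-- **Intermediate primes.** -/
theorem exists_between {P : Ideal (MvPolynomial (Fin N) K)} (hP : P.IsPrime) (hPh : IsHomIdeal P)
    {t : ℕ} (ht : Algebra.trdeg K (MvPolynomial (Fin N) K ⧸ P) = t) {d : ℕ} (hd : t ≤ d) :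
    ∀ (n : ℕ) (Q : Ideal (MvPolynomial (Fin N) K)), Q.IsPrime → IsHomIdeal Q →
      Algebra.trdeg K (MvPolynomial (Fin N) K ⧸ Q) = n → d ≤ n → Q ≤ P →
      ∃ Q' : Ideal (MvPolynomial (Fin N) K), Q'.IsPrime ∧ IsHomIdeal Q' ∧ Q ≤ Q' ∧ Q' ≤ P ∧
        Algebra.trdeg K (MvPolynomial (Fin N) K ⧸ Q') = d := by
  intro n
  induction n with
  | zero =>
    intro Q hQ hQh hn hdn hQP
    have h1 : d = 0 := by omega
    subst h1
    exact ⟨Q, hQ, hQh, le_rfl, hQP, hn⟩
  | succ n ih =>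
    intro Q hQ hQh hn hdn hQP
    rcases Nat.lt_or_ge n d with h1 | h1
    · have h2 : d = n + 1 := by omega
      subst h2
      exact ⟨Q, hQ, hQh, le_rfl, hQP, hn⟩
    · obtain ⟨f, e, hf, hfP, hfQ⟩ : ∃ f e, IsHomogeneous f e ∧ f ∈ P ∧ f ∉ Q := by
        by_contra hcon
        push Not at hcon
        have h2 : P ≤ Q := by
          intro x hx
          rw [← sum_homogeneousComponent x]
          exact Ideal.sum_mem _ fun j _ => hcon _ j (homogeneousComponent_isHomogeneous j x)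
            (hPh x hx j)
        have h3 : P = Q := le_antisymm h2 hQP
        rw [h3, hn] at ht
        have h4 : n + 1 = t := by exact_mod_cast ht
        omega
      obtain ⟨Q', h2, h3, h4, h5, h6, n', h7, h8⟩ := exists_next hQ hQh hn hQP hP hf hfP hfQ
      have h9 : n' = n := by omega
      subst h9
      obtain ⟨Q'', h10, h11, h12, h13, h14⟩ := ih Q' h2 h3 h8 h1 h6
      exact ⟨Q'', h10, h11, h4.trans h12, h13, h14⟩

/-- Subvarieties of the set of common zeros of `ρ` forms. -/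
theorem exists_component' {ρ : ℕ} : ∀ (G : Fin ρ → MvPolynomial (Fin N) K)
    (_ : ∀ i, ∃ d, IsHomogeneous (G i) d) {P : Ideal (MvPolynomial (Fin N) K)} (_ : P.IsPrime)
    (_ : ∀ i, G i ∈ P), ∃ Q : Ideal (MvPolynomial (Fin N) K), Q.IsPrime ∧ IsHomIdeal Q ∧
      (∀ i, G i ∈ Q) ∧ Q ≤ P ∧ ∃ n, N ≤ n + ρ ∧
        Algebra.trdeg K (MvPolynomial (Fin N) K ⧸ Q) = (n : ℕ) := by
  induction ρ with
  | zero =>
    intro G _ P _ _
    refine ⟨⊥, Ideal.isPrime_bot, ?_, fun i => i.elim0, bot_le, N, by omega, trdeg_bot⟩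
    intro f hf i
    rw [Ideal.mem_bot] at hf
    rw [hf, map_zero]
    exact Ideal.zero_mem _
  | succ ρ ih =>
    intro G hG P hP hGP
    obtain ⟨Q, h1, h2, h3, h4, n, h5, h6⟩ := ih (fun i => G i.succ) (fun i => hG i.succ) hP
      fun i => hGP i.succ
    by_cases h7 : G 0 ∈ Q
    · refine ⟨Q, h1, h2, fun i => ?_, h4, n, by omega, h6⟩
      refine Fin.cases h7 h3 i
    · obtain ⟨d, hd⟩ := hG 0
      obtain ⟨Q', h8, h9, h10, h11, h12, n', h13, h14⟩ :=
        exists_next h1 h2 h6 h4 hP hd (hGP 0) h7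
      refine ⟨Q', h8, h9, fun i => ?_, h12, n', by omega, h14⟩
      exact Fin.cases h11 (fun i => h10 (h3 i)) i

/-- The same for a prescribed dimension. -/
theorem exists_isSub_component {ρ t : ℕ} (G : Fin ρ → MvPolynomial (Fin N) K)
    (hG : ∀ i, ∃ d, IsHomogeneous (G i) d) {P : Ideal (MvPolynomial (Fin N) K)}
    {l : MvPolynomial (Fin N) K} (hP : IsSub t l P)
    (hGP : ∀ i, G i ∈ P) (ht : t + ρ + 1 ≤ N) :
    ∃ Q, IsSub (t + 1) l Q ∧ (∀ i, G i ∈ Q) ∧ Q ≤ P := by
  obtain ⟨Q, h1, h2, h3, h4, n, h5, h6⟩ := exists_component' G hG hP.prime hGP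
  obtain ⟨Q', h7, h8, h9, h10, h11⟩ := exists_between hP.prime hP.hom hP.trdeg (d := t + 1)
    (by omega) n Q h1 h2 h6 (by omega) h4
  exact ⟨Q', ⟨h7, h8, h11, fun h => hP.notMem (h10 h)⟩, fun i => h9 (h3 i), h10⟩

end next

end Pool.Agent.H835.AV
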