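import Pool.Agent.H835.AV.SF

set_option autoImplicit false
set_option linter.unusedSectionVars false

/-!
# Averages of cycles on coverings of a linear space
-/

universe u

namespace Pool.Agent.H835.AV

open MvPolynomial Pool.Agent.W5h86.HC

variable {m : ℕ} {ι : Type} [Fintype ι] [DecidableEq ι] [NeZero m]

/-- The variables in `J` are blocks by themselves, the others are in one block, and the ideal is
generated by the `X j ^ n - L j`, `j ∈ J`, for forms `L j` in the other variables. -/
def CJ (m : ℕ) [NeZero m] (ι : Type) [Fintype ι] [DecidableEq ι] (n : ℕ) (κ : Type u) [Field κ]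
    (M : ℕ) (e : AddChar (ZMod m) κ) (β : Fin M → ι) (_t ρ : ℕ)
    (I : Ideal (MvPolynomial (Fin M) κ)) : Prop :=
  Good e n ∧ ∃ (J : Finset (Fin M)) (L : Fin M → MvPolynomial (Fin M) κ), Alone β J ∧
    J.card = ρ ∧ (∀ i ∉ J, ∀ j ∉ J, β i = β j) ∧ (∀ j ∈ J, IsHomogeneous (L j) n) ∧
    (∀ j ∈ J, L j ∈ supported κ {k | k ∉ J}) ∧
    I = Ideal.span ((fun j => X j ^ n - L j) '' (J : Set (Fin M)))

/-- the substitution -/
noncomputable def sbs {κ : Type u} [Field κ] {M : ℕ} (J : Finset (Fin M))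
    (L : Fin M → MvPolynomial (Fin M) κ) : MvPolynomial (Fin M) κ →ₐ[κ] MvPolynomial (Fin M) κ :=
  aeval fun j => if j ∈ J then L j else X j

section elim

variable {κ : Type u} [Field κ] {M : ℕ} {J : Finset (Fin M)} {L : Fin M → MvPolynomial (Fin M) κ}

lemma sbs_range (hL : ∀ j ∈ J, L j ∈ supported κ {k | k ∉ J}) :
    (sbs J L).range = supported κ {k | k ∉ J} := by
  apply le_antisymm
  · rintro _ ⟨f, rfl⟩
    change sbs J L f ∈ _
    induction f using MvPolynomial.induction_on with
    | C a =>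
      unfold sbs
      rw [aeval_C]
      exact Subalgebra.algebraMap_mem _ _
    | add f g hf hg =>
      rw [map_add]
      exact Subalgebra.add_mem _ hf hg
    | mul_X f j hf =>
      rw [map_mul]
      refine Subalgebra.mul_mem _ hf ?_
      unfold sbs
      rw [aeval_X]
      split_ifs with h
      · exact hL j h
      · rw [X_mem_supported]
        exact h
  · rw [supported_eq_adjoin_X]
    refine Algebra.adjoin_le ?_
    rintro _ ⟨j, hj, rfl⟩
    refine ⟨X j, ?_⟩
    change sbs J L (X j) = X j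
    unfold sbs
    rw [aeval_X, if_neg hj]

lemma trdeg_supported (s : Set (Fin M)) [Fintype s] :
    Algebra.trdeg κ (supported κ s) = Fintype.card s := by
  have h1 := (supportedEquivMvPolynomial (R := κ) s).trdeg_eq
  rw [h1, MvPolynomial.trdeg_of_isDomain, Cardinal.mk_fintype]
  simp

lemma trdeg_ker_sbs (hL : ∀ j ∈ J, L j ∈ supported κ {k | k ∉ J}) {t : ℕ} (hM : M = t + J.card) :
    Algebra.trdeg κ (MvPolynomial (Fin M) κ ⧸ RingHom.ker (sbs J L)) = t := by
  classical
  have h1 := (Ideal.quotientKerEquivRange (sbs J L)).trdeg_eq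
  rw [h1, (Subalgebra.equivOfEq _ _ (sbs_range hL)).trdeg_eq, trdeg_supported]
  norm_cast
  have h2 : Fintype.card {k : Fin M | k ∉ J} = (Finset.univ \ J).card := by
    rw [← Set.toFinset_card]
    congr 1
    ext k
    simp
  rw [h2, Finset.card_sdiff_of_subset (Finset.subset_univ J), Finset.card_univ, Fintype.card_fin]
  omega

lemma pw_sub_sbs_mem {n : ℕ} {I : Ideal (MvPolynomial (Fin M) κ)}
    (hI : I = Ideal.span ((fun j => X j ^ n - L j) '' (J : Set (Fin M))))
    (f : MvPolynomial (Fin M) κ) : pw (kJ n J) f - sbs J L f ∈ I := by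
  induction f using MvPolynomial.induction_on with
  | C a =>
    unfold pw sbs
    rw [aeval_C, aeval_C, sub_self]
    exact Ideal.zero_mem _
  | add f g hf hg =>
    rw [map_add, map_add]
    have h1 : pw (kJ n J) f + pw (kJ n J) g - (sbs J L f + sbs J L g) =
        (pw (kJ n J) f - sbs J L f) + (pw (kJ n J) g - sbs J L g) := by ring
    rw [h1]
    exact Ideal.add_mem _ hf hg
  | mul_X f j hf =>
    rw [map_mul, map_mul]
    have h1 : pw (kJ n J) f * pw (kJ n J) (X j) - sbs J L f * sbs J L (X j) =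
        (pw (kJ n J) f - sbs J L f) * pw (kJ n J) (X j) +
          sbs J L f * (pw (kJ n J) (X j) - sbs J L (X j)) := by ring
    rw [h1]
    refine Ideal.add_mem _ (Ideal.mul_mem_right _ _ hf) (Ideal.mul_mem_left _ _ ?_)
    rw [pw_X]
    unfold sbs kJ
    rw [aeval_X]
    split_ifs with h
    · rw [hI]
      exact Ideal.subset_span ⟨j, h, rfl⟩
    · rw [pow_one, sub_self]
      exact Ideal.zero_mem _

lemma ker_sbs_le {n : ℕ} {I : Ideal (MvPolynomial (Fin M) κ)}
    (hI : I = Ideal.span ((fun j => X j ^ n - L j) '' (J : Set (Fin M)))) :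
    RingHom.ker (sbs J L) ≤ I.comap (pw (kJ n J)) := by
  intro f hf
  rw [RingHom.mem_ker] at hf
  rw [Ideal.mem_comap]
  have h1 := pw_sub_sbs_mem hI f
  rw [hf, sub_zero] at h1
  exact h1

end elim

section step

variable {κ κ' : Type u} [Field κ] [Field κ'] [Algebra κ κ'] {M : ℕ}

/-- Transport of the generators. -/
lemma CJ_map {n : ℕ} {J : Finset (Fin (M + 1))} {L : Fin (M + 1) → MvPolynomial (Fin (M + 1)) κ}
    {v : Fin (M + 1)} (hv : v ∉ J) (φ : MvPolynomial (Fin (M + 1)) κ →+* MvPolynomial (Fin M) κ')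
    (hφ : ∀ j, φ (X (v.succAbove j)) = X j) :
    (Ideal.span ((fun j => X j ^ n - L j) '' (J : Set (Fin (M + 1))))).map φ =
      Ideal.span ((fun j => X j ^ n - φ (L (v.succAbove j))) ''
        ((J.preimage v.succAbove (Fin.succAbove_right_injective.injOn) : Finset (Fin M)) :
          Set (Fin M))) := by
  rw [Ideal.map_span]
  congr 1
  ext x
  constructor
  · rintro ⟨_, ⟨j, hj, rfl⟩, rfl⟩
    obtain ⟨j', rfl⟩ := Fin.exists_succAbove_eq (x := j) (y := v) (by
      rintro rfl
      exact hv hj)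
    refine ⟨j', ?_, ?_⟩
    · rw [Finset.mem_coe, Finset.mem_preimage]
      exact hj
    · simp only [map_sub, map_pow, hφ]
  · rintro ⟨j, hj, rfl⟩
    rw [Finset.mem_coe, Finset.mem_preimage] at hj
    refine ⟨_, ⟨v.succAbove j, hj, rfl⟩, ?_⟩
    simp only [map_sub, map_pow, hφ]

lemma card_preimage_succAbove {J : Finset (Fin (M + 1))} {v : Fin (M + 1)} (hv : v ∉ J) :
    (J.preimage v.succAbove (Fin.succAbove_right_injective.injOn) : Finset (Fin M)).card =
      J.card := by
  rw [← Finset.card_image_of_injective _ (Fin.succAbove_right_injective (p := v))]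
  congr 1
  ext j
  rw [Finset.mem_image]
  constructor
  · rintro ⟨i, hi, rfl⟩
    exact Finset.mem_preimage.1 hi
  · intro hj
    obtain ⟨j', rfl⟩ := Fin.exists_succAbove_eq (x := j) (y := v) (by
      rintro rfl
      exact hv hj)
    exact ⟨j', Finset.mem_preimage.2 hj, rfl⟩

end step

lemma Alone.notMem {M : ℕ} {β : Fin M → ι} {J : Finset (Fin M)} (hJ : Alone β J) {v w : Fin M}
    (h : w ≠ v) (hβ : β v = β w) : v ∉ J := fun hv => h (hJ v hv w hβ.symm)

lemma Alone.succAbove {M : ℕ} {β : Fin (M + 1) → ι} {J : Finset (Fin (M + 1))} (hJ : Alone β J)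
    (v : Fin (M + 1)) : Alone (β ∘ v.succAbove)
      (J.preimage v.succAbove (Fin.succAbove_right_injective.injOn)) := by
  intro j hj i hi
  exact Fin.succAbove_right_injective (hJ _ (Finset.mem_preimage.1 hj) _ hi)

theorem cls_CJ (n : ℕ) : Cls m ι (CJ.{u} m ι n) where
  gens := by
    rintro κ _ M e β t ρ I ⟨hn, J, L, hJ, hρ, hβ, hL, hLs, rfl⟩
    refine ⟨fun i => X (J.equivFinOfCardEq hρ |>.symm i : Fin M) ^ n -
      L (J.equivFinOfCardEq hρ |>.symm i : Fin M), fun i => ⟨n, ?_⟩, ?_⟩
    · exact ((isHomogeneous_X_pow _ _)).sub (hL _ (J.equivFinOfCardEq hρ |>.symm i).2)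
    · congr 1
      ext x
      constructor
      · rintro ⟨j, hj, rfl⟩
        refine ⟨J.equivFinOfCardEq hρ ⟨j, hj⟩, ?_⟩
        simp only [Equiv.symm_apply_apply]
      · rintro ⟨i, rfl⟩
        exact ⟨_, (J.equivFinOfCardEq hρ |>.symm i).2, rfl⟩
  stable := by
    rintro κ _ M e β t ρ I ⟨hn, J, L, hJ, hρ, hβ, hL, hLs, rfl⟩ a
    rw [Ideal.span_le]
    rintro _ ⟨j, hj, rfl⟩
    rw [SetLike.mem_coe, Ideal.mem_comap]
    have key : ∀ x : ZMod m, e x ^ n = 1 := by
      intro x
      rw [← AddChar.map_nsmul_eq_pow, nsmul_eq_mul, (ZMod.natCast_eq_zero_iff n m).2 hn.dvd,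
        zero_mul, AddChar.map_zero_eq_one]
    have h1 : sc (wt e β a) (L j) = L j := by
      by_cases hex : ∃ k₀, k₀ ∉ J
      · obtain ⟨k₀, hk₀⟩ := hex
        rw [sc_of_supported (z := e (a (β k₀))) (hL j hj) (hLs j hj), key, map_one, one_mul]
        intro k hk
        unfold wt
        rw [hβ k hk k₀ hk₀]
      · rw [sc_of_supported (z := 1) (hL j hj) (hLs j hj), one_pow, map_one, one_mul]
        intro k hk
        exact absurd ⟨k, hk⟩ hex
    have h2 : sc (wt e β a) (X j ^ n) = X j ^ n := by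
      rw [sc_of_supported (z := e (a (β j))) (isHomogeneous_X_pow j n)
        (Subalgebra.pow_mem _ (X_mem_supported.2 (Set.mem_singleton j)) n), key, map_one, one_mul]
      intro k hk
      rw [Set.mem_singleton_iff.1 hk]
      rfl
    rw [map_sub, h1, h2]
    exact Ideal.subset_span ⟨j, hj, rfl⟩
  lower := by
    rintro κ _ M e β t ρ I h
    exact h
  fm := by
    rintro κ _ M e β t ρ I v u' hβv ⟨hn, J, L, hJ, hρ, hβ, hL, hLs, rfl⟩ κ' _ _ θ
    have hv : v ∉ J := hJ.notMem (Fin.succAbove_ne v u') hβv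
    have hu : v.succAbove u' ∉ J := hJ.notMem (Fin.succAbove_ne v u').symm hβv.symm
    refine ⟨hn.ex, J.preimage v.succAbove (Fin.succAbove_right_injective.injOn),
      fun j => lsub κ (AV.fm v u' θ) (L (v.succAbove j)), hJ.succAbove v,
      (card_preimage_succAbove hv).trans hρ, ?_, ?_, ?_, ?_⟩
    · intro i hi j hj
      exact hβ _ (fun h => hi (Finset.mem_preimage.2 h)) _ (fun h => hj (Finset.mem_preimage.2 h))
    · intro j hj
      exact isHomogeneous_lsub _ (hL _ (Finset.mem_preimage.1 hj))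
    · intro j hj
      refine lsub_mem_supported _ (fun k hk => ?_) (hLs _ (Finset.mem_preimage.1 hj))
      have hk' : k ∉ J := hk
      rcases Fin.eq_self_or_eq_succAbove v k with hi | ⟨i, hi⟩
      · rw [hi, lsub_fm_self]
        refine Subalgebra.mul_mem _ (Subalgebra.algebraMap_mem _ θ) ?_
        rw [X_mem_supported]
        intro h
        exact hu (Finset.mem_preimage.1 h)
      · rw [hi, lsub_fm_succAbove, X_mem_supported]
        intro h
        apply hk'
        rw [hi]
        exact Finset.mem_preimage.1 h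
    · have h5 := CJ_map (κ' := κ') (n := n) (L := L) hv
        ((lsub κ (AV.fm v u' θ) : MvPolynomial (Fin (M + 1)) κ →ₐ[κ] MvPolynomial (Fin M) κ') :
          MvPolynomial (Fin (M + 1)) κ →+* MvPolynomial (Fin M) κ')
        (fun j => lsub_fm_succAbove v u' θ j)
      exact h5
  zi := by
    rintro κ _ M e β t ρ I v w hw hβv ⟨hn, J, L, hJ, hρ, hβ, hL, hLs, rfl⟩
    have hv : v ∉ J := hJ.notMem hw hβv
    refine ⟨hn, J.preimage v.succAbove (Fin.succAbove_right_injective.injOn),
      fun j => lsub κ (AV.zi κ v) (L (v.succAbove j)), hJ.succAbove v,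
      (card_preimage_succAbove hv).trans hρ, ?_, ?_, ?_, ?_⟩
    · intro i hi j hj
      exact hβ _ (fun h => hi (Finset.mem_preimage.2 h)) _ (fun h => hj (Finset.mem_preimage.2 h))
    · intro j hj
      exact isHomogeneous_lsub _ (hL _ (Finset.mem_preimage.1 hj))
    · intro j hj
      refine lsub_mem_supported _ (fun k hk => ?_) (hLs _ (Finset.mem_preimage.1 hj))
      have hk' : k ∉ J := hk
      rcases Fin.eq_self_or_eq_succAbove v k with hi | ⟨i, hi⟩
      · rw [hi, lsub_zi_self]
        exact Subalgebra.zero_mem _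
      · rw [hi, lsub_zi_succAbove, X_mem_supported]
        intro h
        apply hk'
        rw [hi]
        exact Finset.mem_preimage.1 h
    · have h5 := CJ_map (κ' := κ) (n := n) (L := L) hv
        ((lsub κ (AV.zi κ v) : MvPolynomial (Fin (M + 1)) κ →ₐ[κ] MvPolynomial (Fin M) κ) :
          MvPolynomial (Fin (M + 1)) κ →+* MvPolynomial (Fin M) κ)
        (fun j => lsub_zi_succAbove v j)
      exact h5
  top := by
    rintro κ _ M e β t ρ I ⟨hn, J, L, hJ, hρ, hβ, hL, hLs, rfl⟩ hM
    right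
    have h1 : (RingHom.ker (sbs J L)).IsPrime := RingHom.ker_isPrime (sbs J L)
    have h2 : Algebra.trdeg κ (MvPolynomial (Fin M) κ ⧸ RingHom.ker (sbs J L)) = t :=
      trdeg_ker_sbs hLs (by omega)
    have h3 : RingHom.ker (sbs J L) ≤
        (Ideal.span ((fun j => X j ^ n - L j) '' (J : Set (Fin M)))).comap (pw (kJ n J)) :=
      ker_sbs_le rfl
    exact top_of_prime hJ hn h1 h2 h3
  merge := by
    rintro κ _ M e β t ρ I ⟨hn, J, L, hJ, hρ, hβ, hL, hLs, rfl⟩ hinj ht ht1
    exfalso
    have h1 : 1 < (Finset.univ \ J).card := by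
      rw [Finset.card_sdiff_of_subset (Finset.subset_univ J), Finset.card_univ, Fintype.card_fin]
      omega
    obtain ⟨i, hi, j, hj, hij⟩ := Finset.one_lt_card.1 h1
    exact hij (hinj (hβ i (Finset.mem_sdiff.1 hi).2 j (Finset.mem_sdiff.1 hj).2))

end Pool.Agent.H835.AV
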