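import Pool.Agent.H835.AV.Comb2

set_option autoImplicit false
set_option linter.unusedSectionVars false

/-!
# Degrees for which heights compute the zero-sum partitions
-/

namespace Pool.Agent.H835.AV

open Pool.Agent.N998.ZS

section exact

variable {m : ℕ} [NeZero m]

/-- heights of multiplicity functions -/
def HH (t : ZMod m) (c : ZMod m → ℕ) : ℕ := ∑ a, c a * (t * a).val

variable (m) in
/-- One step of the decomposition. -/
def StepProp : Prop := ∀ (c : ZMod m → ℕ) (k : ℕ), c 0 = 0 → 1 ≤ k → m ∣ HH 1 c →
  (∀ t : ZMod m, IsUnit t → k * m ≤ HH t c) →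
    ∃ y : ZMod m → ℕ, (∀ a, y a ≤ c a) ∧ (∃ a, 0 < y a) ∧ m ∣ HH 1 y ∧
      ∀ t : ZMod m, IsUnit t → HH t y + (k - 1) * m ≤ HH t c

lemma sum_map_eq (s : Multiset (ZMod m)) (t : ZMod m) :
    (s.map fun a => (t * a).val).sum = HH t fun a => s.count a := by
  classical
  unfold HH
  rw [Finset.sum_multiset_map_count]
  simp only [smul_eq_mul]
  refine Finset.sum_subset (Finset.subset_univ _) fun a _ ha => ?_
  rw [Multiset.mem_toFinset] at ha
  rw [Multiset.count_eq_zero.2 ha, zero_mul]

lemma cast_HH (s : Multiset (ZMod m)) : ((HH 1 fun a => s.count a : ℕ) : ZMod m) = s.sum := by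
  rw [← sum_map_eq]
  induction s using Multiset.induction_on with
  | empty => simp
  | cons a s ih =>
    rw [Multiset.map_cons, Multiset.sum_cons, Nat.cast_add, ih, Multiset.sum_cons, one_mul,
      ZMod.natCast_zmod_val]

/-- **Zero-sum partitions from heights, without a condition on the length.** -/
theorem exact_of_step (h : StepProp m) : ∀ (n : ℕ) (s : Multiset (ZMod m)),
    Multiset.card s = n → (0 : ZMod m) ∉ s → s.sum = 0 → ∀ k : ℕ,
    (∀ t : ZMod m, IsUnit t → k * m ≤ (s.map fun a => (t * a).val).sum) →
    ∃ k', k ≤ k' ∧ Parts s k' := by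
  classical
  intro n
  induction n using Nat.strong_induction_on with
  | _ n ih =>
    intro s hn h0 hs k hk
    by_cases hs0 : s = 0
    · subst hs0
      have h1 := hk 1 isUnit_one
      rw [Multiset.map_zero, Multiset.sum_zero] at h1
      have h2 : k = 0 := by
        by_contra h3
        have := Nat.mul_pos (Nat.pos_of_ne_zero h3) (NeZero.pos m)
        omega
      subst h2
      exact ⟨0, le_rfl, 0, by simp⟩
    · rcases Nat.eq_zero_or_pos k with hk0 | hk0
      · subst hk0
        refine ⟨1, Nat.zero_le _, {s}, by simp, by simp, ?_⟩
        intro Z hZ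
        rw [Multiset.mem_singleton] at hZ
        subst hZ
        exact ⟨hs0, hs⟩
      · obtain ⟨y, hy1, ⟨a₀, ha₀⟩, hy2, hy3⟩ := h (fun a => s.count a) k
          (Multiset.count_eq_zero.2 h0) hk0 (by
            rw [← ZMod.natCast_eq_zero_iff, cast_HH, hs]) (fun t ht => by
            rw [← sum_map_eq]
            exact hk t ht)
        set ys := Finsupp.toMultiset (Finsupp.equivFunOnFinite.symm y) with hys
        have hcount : ∀ a, ys.count a = y a := by
          intro a
          rw [hys, Finsupp.count_toMultiset]
          rfl
        have hle : ys ≤ s := by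
          rw [Multiset.le_iff_count]
          intro a
          rw [hcount]
          exact hy1 a
        have hysum : ys.sum = 0 := by
          rw [← cast_HH, ZMod.natCast_eq_zero_iff]
          simp only [hcount]
          exact hy2
        have hyne : ys ≠ 0 := by
          intro h1
          have h2 := hcount a₀
          rw [h1, Multiset.count_zero] at h2
          omega
        obtain ⟨s', hs'⟩ := Multiset.le_iff_exists_add.1 hle
        have hcard : Multiset.card s' < n := by
          rw [← hn, hs', Multiset.card_add]
          have := Multiset.card_pos.2 hyne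
          omega
        obtain ⟨k', hk', P, hP1, hP2, hP3⟩ := ih _ hcard s' rfl (fun h1 => h0 (by
          rw [hs']
          exact Multiset.mem_add.2 (Or.inr h1))) (by
          rw [hs', Multiset.sum_add, hysum, zero_add] at hs
          exact hs) (k - 1) (fun t ht => by
          have h1 := hy3 t ht
          rw [← sum_map_eq, hs', Multiset.map_add, Multiset.sum_add, sum_map_eq ys] at h1
          simp only [hcount] at h1
          have h2 : (fun a => y a) = y := rfl
          rw [h2] at h1
          omega)
        refine ⟨k' + 1, by omega, ys ::ₘ P, ?_, ?_, ?_⟩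
        · rw [Multiset.card_cons, hP1]
        · rw [Multiset.sum_cons, hP2, ← hs']
        · intro Z hZ
          rcases Multiset.mem_cons.1 hZ with rfl | hZ
          · exact ⟨hyne, hysum⟩
          · exact hP3 Z hZ

end exact

end Pool.Agent.H835.AV
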