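import Pool.Agent.H835.AV.Act

set_option autoImplicit false
set_option linter.unusedSectionVars false

/-!
# The fibration by the quotient of two coordinates
-/

universe u

namespace Pool.Agent.H835.AV

open MvPolynomial Pool.Agent.W5h86.HC

variable {K κ : Type u} [Field K] [Field κ] [Algebra K κ] {M : ℕ}

/-- The substitution `x v = θ * x u`, where `u = v.succAbove u'`. -/
def fm (v : Fin (M + 1)) (u' : Fin M) (θ : κ) : Matrix (Fin (M + 1)) (Fin M) κ :=
  fun i j => if i = v then (if j = u' then θ else 0) else if i = v.succAbove j then 1 else 0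

lemma lsub_fm_self (v : Fin (M + 1)) (u' : Fin M) (θ : κ) :
    lsub K (fm v u' θ) (X v) = C θ * X u' := by
  rw [lsub_X, Finset.sum_eq_single u']
  · simp [fm]
  · intro j _ hj
    simp [fm, hj]
  · simp

lemma lsub_fm_succAbove (v : Fin (M + 1)) (u' : Fin M) (θ : κ) (j : Fin M) :
    lsub K (fm v u' θ) (X (v.succAbove j)) = X j := by
  rw [lsub_X, Finset.sum_eq_single j]
  · simp [fm, Fin.succAbove_ne]
  · intro i _ hi
    have h1 : v.succAbove j ≠ v.succAbove i := fun h =>
      hi (Fin.succAbove_right_injective h).symm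
    simp [fm, Fin.succAbove_ne, h1]
  · simp

/-- homogenization of a polynomial in one variable, as a form in `x a` and `x b` -/
noncomputable def hm {N : ℕ} (a b : Fin N) (D : ℕ) (p : Polynomial K) : MvPolynomial (Fin N) K :=
  ∑ k ∈ Finset.range (D + 1), C (p.coeff k) * (X b ^ k * X a ^ (D - k))

lemma isHomogeneous_hm {N : ℕ} (a b : Fin N) (D : ℕ) (p : Polynomial K) :
    IsHomogeneous (hm a b D p) D := by
  apply IsHomogeneous.sum
  intro k hk
  apply IsHomogeneous.C_mul
  have h1 := ((isHomogeneous_X_pow (R := K) b k).mul (isHomogeneous_X_pow (R := K) a (D - k)))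
  have h2 : k + (D - k) = D := by
    have := Finset.mem_range.1 hk
    omega
  rw [h2] at h1
  exact h1

lemma map_hm {N : ℕ} {A : Type u} [CommRing A] [Algebra K A] {a b : Fin N}
    (f : MvPolynomial (Fin N) K →ₐ[K] A) {x y : A} (h0 : f (X a) = y) (h1 : f (X b) = x * y)
    {D : ℕ} {p : Polynomial K} (hp : p.natDegree ≤ D) :
    f (hm a b D p) = Polynomial.aeval x p * y ^ D := by
  unfold hm
  rw [map_sum, Polynomial.aeval_eq_sum_range' (Nat.lt_succ_of_le hp), Finset.sum_mul]
  refine Finset.sum_congr rfl fun k hk => ?_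
  have h2 : k ≤ D := Nat.lt_succ_iff.1 (Finset.mem_range.1 hk)
  rw [map_mul, map_mul, map_pow, map_pow, h0, h1, mul_pow, ← algebraMap_eq, AlgHom.commutes,
    Algebra.smul_def]
  have h3 : y ^ D = y ^ k * y ^ (D - k) := by
    rw [← pow_add]
    congr 1
    omega
  rw [h3]
  ring

variable {v : Fin (M + 1)} {u' : Fin M} {θ : κ}

lemma lsub_fm_hm {D : ℕ} {p : Polynomial K} (hp : p.natDegree ≤ D) :
    lsub K (fm v u' θ) (hm (v.succAbove u') v D p) = C (Polynomial.aeval θ p) * X u' ^ D := by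
  rw [map_hm (lsub K (fm v u' θ)) (lsub_fm_succAbove v u' θ u') (lsub_fm_self v u' θ) hp]
  congr 1
  have h1 : (C θ : MvPolynomial (Fin M) κ) = algebraMap κ _ θ := rfl
  rw [h1, Polynomial.aeval_algebraMap_apply]
  rfl

lemma lsub_fm_a : lsub K (fm v u' θ) (X (v.succAbove u')) = X u' := lsub_fm_succAbove v u' θ u'

/-- The substitution defining a member of the pencil. -/
theorem isFib_fm (hgen : ∀ a : κ, ∃ p q : Polynomial K, Polynomial.aeval θ q ≠ 0 ∧
    a * Polynomial.aeval θ q = Polynomial.aeval θ p) :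
    IsFib (lsub K (fm v u' θ)) (X (v.succAbove u')) where
  graded := homogeneousComponent_lsub _
  den := by
    intro y
    induction y using MvPolynomial.induction_on with
    | C a =>
      obtain ⟨p, q, hq, hpq⟩ := hgen a
      set D := max p.natDegree q.natDegree
      refine ⟨hm (v.succAbove u') v D q, hm (v.succAbove u') v D p, D, isHomogeneous_hm _ _ D q,
        ?_, ?_⟩
      · rw [lsub_fm_hm (le_max_left _ _), lsub_fm_hm (le_max_right _ _), ← hpq,
          map_mul]
        ring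
      · intro P hP h0 h1
        rw [lsub_fm_a] at h0
        rw [lsub_fm_hm (le_max_right _ _)] at h1
        rcases hP.mem_or_mem h1 with h2 | h2
        · have h3 : IsUnit (C (Polynomial.aeval θ q) : MvPolynomial (Fin M) κ) :=
            (isUnit_iff_ne_zero.2 hq).map C
          exact hP.ne_top (Ideal.eq_top_of_isUnit_mem _ h2 h3)
        · exact h0 (hP.mem_of_pow_mem _ h2)
    | add y₁ y₂ h₁ h₂ =>
      obtain ⟨s₁, r₁, e₁, hs₁, hr₁, hP₁⟩ := h₁
      obtain ⟨s₂, r₂, e₂, hs₂, hr₂, hP₂⟩ := h₂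
      refine ⟨s₁ * s₂, r₁ * s₂ + r₂ * s₁, e₁ + e₂, hs₁.mul hs₂, ?_, ?_⟩
      · rw [map_add, map_mul, map_mul, map_mul, hr₁, hr₂]
        ring
      · intro P hP h0 h1
        rw [map_mul] at h1
        exact (hP.mem_or_mem h1).elim (hP₁ P hP h0) (hP₂ P hP h0)
    | mul_X y j h =>
      obtain ⟨s, r, e, hs, hr, hP⟩ := h
      refine ⟨s, r * X (v.succAbove j), e, hs, ?_, hP⟩
      rw [map_mul, hr, lsub_fm_succAbove, mul_assoc]

/-! ### The value of the pencil at a subvariety -/

/-- The value of `x b / x a` at the generic point. -/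
noncomputable def vl {N : ℕ} (a b : Fin N) (P : Ideal (MvPolynomial (Fin N) K)) [P.IsPrime] :
    FF P := cls P (X b) / cls P (X a)

/-- The prime ideals of `κ[y]` over a prime ideal of `K[x]`. -/
theorem exists_over' {t : ℕ} {P : Ideal (MvPolynomial (Fin (M + 1)) K)}
    (h : IsSub t (X (v.succAbove u')) P) [P.IsPrime]
    (hgen : ∀ a : κ, ∃ p q : Polynomial K,
      Polynomial.aeval θ q ≠ 0 ∧ a * Polynomial.aeval θ q = Polynomial.aeval θ p)
    {δ : ℕ} (hδ : Algebra.trdeg K κ = δ) (ι : κ →ₐ[K] FF P) (hι : ι θ = vl (v.succAbove u') v P) :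
    ∃ t' P', t = t' + δ ∧ IsSub t' (lsub K (fm v u' θ) (X (v.succAbove u'))) P' ∧
      P'.comap (lsub K (fm v u' θ)) = P := by
  have h0 : cls P (X (v.succAbove u')) ≠ 0 := fun h1 => h.notMem ((cls_eq_zero _).1 h1)
  let ψ : MvPolynomial (Fin M) κ →+* FF P :=
    eval₂Hom (ι : κ →+* FF P) (fun j => cls P (X (v.succAbove j)))
  have hψC : ∀ a, ψ (C a) = ι a := fun a => eval₂Hom_C _ _ _
  have hψs : ∀ i : Fin M, ψ (X i) = cls P (X (v.succAbove i)) := fun i => eval₂Hom_X' _ _ _
  have hψ : ∀ f, ψ (lsub K (fm v u' θ) f) = cls P f := by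
    intro f
    let ψ' : MvPolynomial (Fin M) κ →ₐ[K] FF P := { ψ with
      commutes' := fun a => by
        change ψ (C (algebraMap K κ a)) = _
        rw [hψC, AlgHom.commutes] }
    have h1 : ψ'.comp (lsub K (fm v u' θ)) = cls P := by
      apply MvPolynomial.algHom_ext
      intro i
      rw [AlgHom.comp_apply]
      change ψ _ = _
      rcases Fin.eq_self_or_eq_succAbove v i with hi | ⟨j, hi⟩
      · rw [hi, lsub_fm_self, map_mul, hψC, hψs, hι, vl, div_mul_cancel₀ _ h0]
      · rw [hi, lsub_fm_succAbove, hψs]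
    exact DFunLike.congr_fun h1 f
  obtain ⟨t', h1, h2, h3⟩ := (isFib_fm (v := v) (u' := u') hgen).exists_isSub hδ h ψ
    (fun f => by rw [hψ, cls_eq_zero])
  exact ⟨t', _, h1, h2, h3⟩

/-- The generic member. -/
theorem exists_over_generic' {t : ℕ} {P : Ideal (MvPolynomial (Fin (M + 1)) K)}
    (h : IsSub t (X (v.succAbove u')) P) [P.IsPrime]
    (hval : Transcendental K (vl (v.succAbove u') v P)) :
    ∃ t' P', t = t' + 1 ∧ IsSub t' (X u') P' ∧
      P'.comap (lsub K (fm v u' (tt K))) = P := by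
  have hinj : Function.Injective (Polynomial.aeval (R := K) (vl (v.succAbove u') v P)) :=
    transcendental_iff_injective.1 hval
  obtain ⟨t', P', h1, h2, h3⟩ := exists_over' (u' := u') h hgen_Kt trdeg_Kt
    (IsFractionRing.liftAlgHom (K := Kt K) hinj) (by
      unfold tt
      rw [IsFractionRing.liftAlgHom_apply, IsFractionRing.lift_algebraMap]
      exact Polynomial.aeval_X _)
  rw [lsub_fm_a] at h2
  exact ⟨t', P', h1, h2, h3⟩

/-- The closed members. -/
theorem exists_over_closed' (π : Polynomial K) [hπ : Fact (Irreducible π)] {t : ℕ}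
    {P : Ideal (MvPolynomial (Fin (M + 1)) K)}
    (h : IsSub t (X (v.succAbove u')) P) [P.IsPrime]
    (hval : Polynomial.aeval (vl (v.succAbove u') v P) π = 0) :
    ∃ P', IsSub t (X u') P' ∧
      P'.comap (lsub K (fm v u' (AdjoinRoot.root π))) = P := by
  obtain ⟨t', P', h1, h2, h3⟩ := exists_over' (u' := u') h (hgen_adjoinRoot π) (trdeg_adjoinRoot π)
    (AdjoinRoot.liftAlgHom π (Algebra.ofId K (FF P)) (vl (v.succAbove u') v P) (by
      rw [← hval]
      rfl)) (AdjoinRoot.liftAlgHom_root _ _ _ _)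
  rw [add_zero] at h1
  subst h1
  rw [lsub_fm_a] at h2
  exact ⟨P', h2, h3⟩

lemma hm_mem_iff {N : ℕ} {a b : Fin N} {t : ℕ} {P : Ideal (MvPolynomial (Fin N) K)}
    (h : IsSub t (X a) P) [P.IsPrime] (p : Polynomial K) :
    hm a b p.natDegree p ∈ P ↔ Polynomial.aeval (vl a b P) p = 0 := by
  have h0 : cls P (X a) ≠ 0 := fun h1 => h.notMem ((cls_eq_zero _).1 h1)
  rw [← cls_eq_zero, map_hm (cls P) rfl (x := vl a b P) (by
    rw [vl, div_mul_cancel₀ _ h0]) le_rfl]
  constructor
  · intro h1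
    exact (mul_eq_zero.1 h1).resolve_right (pow_ne_zero _ h0)
  · intro h1
    rw [h1, zero_mul]

/-- The form `hm` vanishes on the closed member. -/
lemma hm_mem_comap (π : Polynomial K) [hπ : Fact (Irreducible π)]
    (Q' : Ideal (MvPolynomial (Fin M) (AdjoinRoot π))) :
    hm (v.succAbove u') v π.natDegree π ∈ Q'.comap (lsub K (fm v u' (AdjoinRoot.root π))) := by
  rw [Ideal.mem_comap, lsub_fm_hm le_rfl]
  have h6 : Polynomial.aeval (AdjoinRoot.root π) π = 0 := by
    rw [AdjoinRoot.aeval_eq, AdjoinRoot.mk_self]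
  rw [h6, map_zero, zero_mul]
  exact Q'.zero_mem

end Pool.Agent.H835.AV
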