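import Pool.Agent.H835.AV.Desc
import Mathlib.NumberTheory.Cyclotomic.Gal

set_option autoImplicit false
set_option linter.unusedSectionVars false

/-!
# Cycles of low dimension on intersections of sums of forms, over arbitrary fields
-/

universe u

namespace Pool.Agent.H835.AV

open MvPolynomial Pool.Agent.W5h86.HC Pool.Agent.W5h86.HD

attribute [local instance] MvPolynomial.algebraMvPolynomial

section

variable {ι : Type} [Fintype ι] [DecidableEq ι] {K : Type u} [Field K] {N : ℕ}

lemma SF.map {L : Type u} [Field L] [Algebra K L] {β : Fin N → ι} {n : ℕ}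
    {F : MvPolynomial (Fin N) K} (h : SF β n F) :
    SF β n (algebraMap (MvPolynomial (Fin N) K) (MvPolynomial (Fin N) L) F) := by
  obtain ⟨G, h1, h2, rfl⟩ := h
  refine ⟨fun k => algebraMap _ _ (G k), fun k => ?_, fun k => ?_, map_sum _ _ _⟩
  · exact (h1 k).map _
  · have h3 := h2 k
    rw [mem_supported] at h3 ⊢
    refine Set.Subset.trans ?_ h3
    intro j hj
    exact vars_map _ _ hj

/-- **Cycles of low dimension.** -/
theorem low_any {n m a ρ t : ℕ} (hn : n = m * ringExpChar K ^ a) (hm : (m : K) ≠ 0)
    {β : Fin N → ι} (hβ : Function.Surjective β) (ht : 1 ≤ t)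
    (hs : m * (t + ρ - 1) < Fintype.card ι) (G : Fin ρ → MvPolynomial (Fin N) K)
    (hG : ∀ i, SF β n (G i)) : Triv t (Ideal.span (Set.range G)) := by
  have hm' : NeZero m := ⟨by
    rintro rfl
    exact hm Nat.cast_zero⟩
  have hmK : NeZero (m : K) := ⟨hm⟩
  let L := CyclotomicField m K
  have hfin : Module.Finite K L := IsCyclotomicExtension.finite_of_singleton m K L
  have hgal : IsGalois K L := IsCyclotomicExtension.isGalois {m} K L
  have hchar : ExpChar L (ringExpChar K) :=
    expChar_of_injective_algebraMap (algebraMap K L).injective _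
  obtain ⟨e, he⟩ := exists_good (IsCyclotomicExtension.zeta_spec m K L) hchar hn
  apply Triv.descent (L := L)
  have h1 : (Ideal.span (Set.range G)).map
      (algebraMap (MvPolynomial (Fin N) K) (MvPolynomial (Fin N) L)) =
      Ideal.span (Set.range fun i =>
        algebraMap (MvPolynomial (Fin N) K) (MvPolynomial (Fin N) L) (G i)) := by
    rw [Ideal.map_span, ← Set.range_comp]
    rfl
  rw [h1]
  exact low_of_good he hβ ht hs _ fun i => (hG i).map

end

end Pool.Agent.H835.AV
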