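import Pool.Agent.H835.AV.Low
import Pool.Agent.H835.AV.Dim

set_option autoImplicit false
set_option linter.unusedSectionVars false

/-!
# Averages of cycles for classes of ideals
-/

universe u

namespace Pool.Agent.H835.AV

open MvPolynomial Pool.Agent.W5h86.HC

variable {m : ℕ} {ι : Type} [Fintype ι] [DecidableEq ι] [NeZero m]

/-- Transitivity of the group on the subvarieties of dimension `t` of the zero set of `I`, which
has dimension at most `t`. -/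
def Top {κ : Type u} [Field κ] {M : ℕ} (e : AddChar (ZMod m) κ) (β : Fin M → ι) (t : ℕ)
    (I : Ideal (MvPolynomial (Fin M) κ)) : Prop :=
  (∀ P₁ P₂ : Ideal (MvPolynomial (Fin M) κ), IsSub t 1 P₁ → IsSub t 1 P₂ → I ≤ P₁ → I ≤ P₂ →
    ∃ a : ι → ZMod m, P₂ = P₁.comap (sc (wt e β a))) ∧
  ∀ P : Ideal (MvPolynomial (Fin M) κ), P.IsPrime → I ≤ P → ∀ n : ℕ,
    Algebra.trdeg κ (MvPolynomial (Fin M) κ ⧸ P) = n → n ≤ t

variable (m ι) in
/-- Classes of ideals for which the induction works. -/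
structure Cls (C : ∀ (κ : Type u) [Field κ] (M : ℕ), AddChar (ZMod m) κ → (Fin M → ι) → ℕ → ℕ →
    Ideal (MvPolynomial (Fin M) κ) → Prop) : Prop where
  gens : ∀ (κ : Type u) [Field κ] (M : ℕ) (e : AddChar (ZMod m) κ) (β : Fin M → ι) (t ρ : ℕ)
    (I : Ideal (MvPolynomial (Fin M) κ)), C κ M e β t ρ I →
    ∃ G : Fin ρ → MvPolynomial (Fin M) κ, (∀ i, ∃ d, IsHomogeneous (G i) d) ∧
      I = Ideal.span (Set.range G)
  stable : ∀ (κ : Type u) [Field κ] (M : ℕ) (e : AddChar (ZMod m) κ) (β : Fin M → ι) (t ρ : ℕ)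
    (I : Ideal (MvPolynomial (Fin M) κ)), C κ M e β t ρ I → Stable e β I
  lower : ∀ (κ : Type u) [Field κ] (M : ℕ) (e : AddChar (ZMod m) κ) (β : Fin M → ι) (t ρ : ℕ)
    (I : Ideal (MvPolynomial (Fin M) κ)), C κ M e β (t + 1) ρ I → C κ M e β t ρ I
  fm : ∀ (κ : Type u) [Field κ] (M : ℕ) (e : AddChar (ZMod m) κ) (β : Fin (M + 1) → ι) (t ρ : ℕ)
    (I : Ideal (MvPolynomial (Fin (M + 1)) κ)) (v : Fin (M + 1)) (u' : Fin M),
    β v = β (v.succAbove u') → C κ (M + 1) e β t ρ I → ∀ (κ' : Type u) [Field κ'] [Algebra κ κ']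
    (θ : κ'), C κ' M (ex κ' e) (β ∘ v.succAbove) t ρ (fI v u' θ I)
  zi : ∀ (κ : Type u) [Field κ] (M : ℕ) (e : AddChar (ZMod m) κ) (β : Fin (M + 1) → ι) (t ρ : ℕ)
    (I : Ideal (MvPolynomial (Fin (M + 1)) κ)) (v w : Fin (M + 1)), w ≠ v → β v = β w →
    C κ (M + 1) e β t ρ I → C κ M e (β ∘ v.succAbove) t ρ (zI v I)
  top : ∀ (κ : Type u) [Field κ] (M : ℕ) (e : AddChar (ZMod m) κ) (β : Fin M → ι) (t ρ : ℕ)
    (I : Ideal (MvPolynomial (Fin M) κ)), C κ M e β t ρ I → M = t + ρ →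
    (∃ ρ' < ρ, C κ M e β t ρ' I) ∨ Top e β t I
  merge : ∀ (κ : Type u) [Field κ] (M : ℕ) (e : AddChar (ZMod m) κ) (β : Fin M → ι) (t ρ : ℕ)
    (I : Ideal (MvPolynomial (Fin M) κ)), C κ M e β t ρ I → Function.Injective β → t + ρ < M →
    1 ≤ t → ∃ f : ι → ι, ¬ Function.Injective (f ∘ β) ∧ C κ M e (f ∘ β) t ρ I

variable {C : ∀ (κ : Type u) [Field κ] (M : ℕ), AddChar (ZMod m) κ → (Fin M → ι) → ℕ → ℕ →
    Ideal (MvPolynomial (Fin M) κ) → Prop}

lemma not_isSub_of_top {κ : Type u} [Field κ] {M : ℕ} {e : AddChar (ZMod m) κ} {β : Fin M → ι}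
    {t : ℕ} {I : Ideal (MvPolynomial (Fin M) κ)} (h : Top e β t I) {l : MvPolynomial (Fin M) κ}
    {Q : Ideal (MvPolynomial (Fin M) κ)} (hQ : IsSub (t + 1) l Q) : ¬ I ≤ Q := by
  intro h1
  have := h.2 Q hQ.prime h1 (t + 1) hQ.trdeg
  omega

/-- The statement on averages in `M` variables. -/
def GLow (C : ∀ (κ : Type u) [Field κ] (M : ℕ), AddChar (ZMod m) κ → (Fin M → ι) → ℕ → ℕ →
    Ideal (MvPolynomial (Fin M) κ) → Prop) (M : ℕ) : Prop :=
  ∀ (κ : Type u) [Field κ] (e : AddChar (ZMod m) κ) (β : Fin M → ι) (t ρ : ℕ)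
    (I : Ideal (MvPolynomial (Fin M) κ)), C κ M e β t ρ I → t + ρ < M → ∀ (b : Fin M)
    (P : Ideal (MvPolynomial (Fin M) κ)), IsSub t (X b) P → I ≤ P →
      av e β (pt P) ∈ IRel I t (X b)

lemma Cls.exists_component (hC : Cls m ι C) {κ : Type u} [Field κ] {M : ℕ}
    {e : AddChar (ZMod m) κ} {β : Fin M → ι} {t ρ : ℕ} {I : Ideal (MvPolynomial (Fin M) κ)}
    (h : C κ M e β t ρ I) (ht : t + ρ + 1 ≤ M) {l : MvPolynomial (Fin M) κ}
    {P : Ideal (MvPolynomial (Fin M) κ)} (hP : IsSub t l P) (hIP : I ≤ P) :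
    ∃ Q, IsSub (t + 1) l Q ∧ I ≤ Q ∧ Q ≤ P := by
  obtain ⟨G, hG, rfl⟩ := hC.gens κ M e β t ρ I h
  rw [Ideal.span_le] at hIP
  obtain ⟨Q, h1, h2, h3⟩ := exists_isSub_component G hG hP (fun i => hIP ⟨i, rfl⟩) ht
  refine ⟨Q, h1, ?_, h3⟩
  rw [Ideal.span_le]
  rintro _ ⟨i, rfl⟩
  exact h2 i

/-- One step with a pencil. -/
lemma gen_pencil (hC : Cls m ι C) {K : Type u} [Field K] {M : ℕ} (ih : GLow C M)
    {e : AddChar (ZMod m) K} {β : Fin (M + 1) → ι} {t ρ : ℕ}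
    {I : Ideal (MvPolynomial (Fin (M + 1)) K)} (h : C K (M + 1) e β t ρ I) (htM : t + ρ < M + 1)
    {v : Fin (M + 1)} {u' : Fin M} (hβ : β v = β (v.succAbove u'))
    {P : Ideal (MvPolynomial (Fin (M + 1)) K)} (hP : IsSub t (X (v.succAbove u')) P)
    (hIP : I ≤ P) : av e β (pt P) ∈ IRel I t (X (v.succAbove u')) := by
  have hst := hC.stable _ _ _ _ _ _ _ h
  refine pencil_step hβ hst ?_ ?_ hP hIP
  · intro P hPp hP hIP π _ hval
    have h2 := hC.fm _ _ _ _ _ _ _ v u' hβ h (AdjoinRoot π) (AdjoinRoot.root π)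
    rcases Nat.lt_or_ge (t + ρ) M with h1 | h1
    · refine closed_step hβ hst π hP hIP hval ?_
      intro P' hP' hIP'
      exact ih (AdjoinRoot π) _ _ _ _ _ h2 h1 u' P' hP' hIP'
    · rcases hC.top _ _ _ _ _ _ _ h2 (by omega) with ⟨ρ', hρ', h3⟩ | h3
      · refine closed_step hβ hst π hP hIP hval ?_
        intro P' hP' hIP'
        exact ih (AdjoinRoot π) _ _ _ _ _ h3 (by omega) u' P' hP' hIP'
      · obtain ⟨Q, hQ, hIQ, hQP⟩ := hC.exists_component h (by omega) hP hIP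
        refine closed_top hβ hst π hP hval hQ hIQ hQP ?_ ?_
        · intro P₁ P₂ h₁ h₂ h₃ h₄
          exact h3.1 P₁ P₂ (isSub_iff.1 h₁).1 (isSub_iff.1 h₂).1 h₃ h₄
        · intro Q' hQ'
          exact not_isSub_of_top h3 hQ'
  · intro s hs P' hP' hIP'
    subst hs
    have h2 := hC.fm _ _ _ _ _ _ _ v u' hβ h (Kt K) (tt K)
    exact ih (Kt K) _ _ _ _ _ (hC.lower _ _ _ _ _ _ _ h2) (by omega) u' P' hP' hIP'

/-- One step with a hyperplane. -/
lemma gen_hyp (hC : Cls m ι C) {K : Type u} [Field K] {M : ℕ} (ih : GLow C M)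
    {e : AddChar (ZMod m) K} {β : Fin (M + 1) → ι} {t ρ : ℕ}
    {I : Ideal (MvPolynomial (Fin (M + 1)) K)} (h : C K (M + 1) e β t ρ I) (htM : t + ρ < M + 1)
    {u v b : Fin (M + 1)} (huv : v ≠ u) (hβ : β u = β v)
    {P : Ideal (MvPolynomial (Fin (M + 1)) K)} (hP : IsSub t (X b) P)
    (hIP : I ≤ P) (hu : X u ∈ P) : av e β (pt P) ∈ IRel I t (X b) := by
  have hst := hC.stable _ _ _ _ _ _ _ h
  have hbu : b ≠ u := by
    rintro rfl
    exact hP.notMem hu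
  obtain ⟨b', rfl⟩ := Fin.exists_succAbove_eq hbu
  have h2 := hC.zi _ _ _ _ _ _ _ u v huv hβ h
  have hstep : (∀ P' : Ideal (MvPolynomial (Fin M) K), IsSub t (X b') P' → zI u I ≤ P' →
      av e (β ∘ u.succAbove) (pt P') ∈ IRel (zI u I) t (X b')) →
      av e β (pt P) ∈ IRel I t (X (u.succAbove b')) := by
    intro h3
    refine hyp_step u hst (fun a => eig_wt_X _ _) (fun a => ?_) hP hIP hu ?_
    · rw [lsub_zi_succAbove]
      exact eig_wt_X _ _
    · intro P' hP' hIP'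
      rw [lsub_zi_succAbove] at hP' ⊢
      exact h3 P' hP' hIP'
  rcases Nat.lt_or_ge (t + ρ) M with h1 | h1
  · exact hstep fun P' hP' hIP' => ih K _ _ _ _ _ h2 h1 b' P' hP' hIP'
  · rcases hC.top _ _ _ _ _ _ _ h2 (by omega) with ⟨ρ', hρ', h3⟩ | h3
    · exact hstep fun P' hP' hIP' => ih K _ _ _ _ _ h3 (by omega) b' P' hP' hIP'
    · obtain ⟨Q, hQ, hIQ, hQP⟩ := hC.exists_component h (by omega) hP hIP
      refine hyp_top u hst (fun a => eig_wt_X _ _) hP hu hQ hIQ hQP ?_ ?_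
      · intro P₁ P₂ h₁ h₂ h₃ h₄
        exact h3.1 P₁ P₂ (isSub_iff.1 h₁).1 (isSub_iff.1 h₂).1 h₃ h₄
      · intro Q' hQ'
        exact not_isSub_of_top h3 hQ'

lemma gen_not_injective (hC : Cls m ι C) {K : Type u} [Field K] {M : ℕ} (ih : GLow C M)
    {e : AddChar (ZMod m) K} {β : Fin (M + 1) → ι} {t ρ : ℕ}
    {I : Ideal (MvPolynomial (Fin (M + 1)) K)} (h : C K (M + 1) e β t ρ I) (htM : t + ρ < M + 1)
    (hβ : ¬ Function.Injective β) {b : Fin (M + 1)}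
    {P : Ideal (MvPolynomial (Fin (M + 1)) K)} (hP : IsSub t (X b) P)
    (hIP : I ≤ P) : av e β (pt P) ∈ IRel I t (X b) := by
  have key : ∀ (u v : Fin (M + 1)), v ≠ u → β u = β v →
      ∀ P : Ideal (MvPolynomial (Fin (M + 1)) K), IsSub t (X u) P → I ≤ P →
      av e β (pt P) ∈ IRel I t (X u) := by
    intro u v huv hβ P hP hIP
    obtain ⟨u', rfl⟩ := Fin.exists_succAbove_eq huv.symm
    exact gen_pencil hC ih h htM hβ.symm hP hIP
  obtain ⟨u, v, hβ, huv⟩ : ∃ u v, β u = β v ∧ v ≠ u := by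
    unfold Function.Injective at hβ
    push Not at hβ
    obtain ⟨u, v, h1, h2⟩ := hβ
    exact ⟨u, v, h1, h2.symm⟩
  by_cases hu : X u ∈ P
  · exact gen_hyp hC ih h htM huv hβ hP hIP hu
  · have hPu : IsSub t (X u) P := isSub_iff.2 ⟨(isSub_iff.1 hP).1, hu⟩
    have h1 := key u v huv hβ P hPu hIP
    have hst : IRel I t (X b) ≤ (IRel I t (X b)).comap (av e β) :=
      iRel_le_av (hC.stable _ _ _ _ _ _ _ h) fun a => eig_wt_X _ _
    have h2 := restr_iRel_le (l := X b) (l' := X u) hst (fun P₂ hP₂ hIP₂ hu₂ => by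
      rw [Submodule.mem_comap]
      exact gen_hyp hC ih h htM huv hβ hP₂ hIP₂ hu₂) (Submodule.mem_map_of_mem h1)
    rw [restr_av_pt hP.notMem, Submodule.mem_comap] at h2
    exact av_mem_of_av_av_mem h2

/-- **Averages of cycles.** -/
theorem gen_low (hC : Cls m ι C) : ∀ N : ℕ, GLow C N := by
  intro N
  induction N with
  | zero =>
    intro K _ e β t ρ I h ht b
    exact b.elim0
  | succ M ih =>
    intro K _ e β t ρ I h ht b P hP hIP
    by_cases hβ : Function.Injective β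
    · obtain ⟨f, h1, h2⟩ := hC.merge _ _ _ _ _ _ _ h hβ ht (pos_of_isSub hP)
      refine av_mem_of_comp f (iRel_le_av (hC.stable _ _ _ _ _ _ _ h) fun a => eig_wt_X _ _) ?_
      exact gen_not_injective hC ih h2 ht h1 hP hIP
    · exact gen_not_injective hC ih h ht hβ hP hIP

end Pool.Agent.H835.AV
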