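import Pool.Agent.H835.AV.GProj

set_option autoImplicit false
set_option linter.unusedSectionVars false

/-!
# Averages of cycles for more general classes of ideals
-/

universe u

namespace Pool.Agent.H835.AV

open MvPolynomial Pool.Agent.W5h86.HC

variable {m : ℕ} {ι : Type} [Fintype ι] [DecidableEq ι] [NeZero m]

variable (m ι) in
/-- Classes of ideals for which the induction works. -/
structure Cls2 (C : ∀ (κ : Type u) [Field κ] (M : ℕ), AddChar (ZMod m) κ → (Fin M → ι) → ℕ → ℕ →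
    Ideal (MvPolynomial (Fin M) κ) → Prop) : Prop where
  gens : ∀ (κ : Type u) [Field κ] (M : ℕ) (e : AddChar (ZMod m) κ) (β : Fin M → ι) (t ρ : ℕ)
    (I : Ideal (MvPolynomial (Fin M) κ)), C κ M e β t ρ I →
    ∃ G : Fin ρ → MvPolynomial (Fin M) κ, (∀ i, ∃ d, IsHomogeneous (G i) d) ∧
      I = Ideal.span (Set.range G)
  stable : ∀ (κ : Type u) [Field κ] (M : ℕ) (e : AddChar (ZMod m) κ) (β : Fin M → ι) (t ρ : ℕ)
    (I : Ideal (MvPolynomial (Fin M) κ)), C κ M e β t ρ I → Stable e β I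
  fmg : ∀ (κ : Type u) [Field κ] (M : ℕ) (e : AddChar (ZMod m) κ) (β : Fin (M + 1) → ι) (t ρ : ℕ)
    (I : Ideal (MvPolynomial (Fin (M + 1)) κ)) (v : Fin (M + 1)) (u' : Fin M),
    β v = β (v.succAbove u') → C κ (M + 1) e β (t + 1) ρ I →
    C (Kt κ) M (ex (Kt κ) e) (β ∘ v.succAbove) t ρ (fI v u' (tt κ) I)
  fm : ∀ (κ : Type u) [Field κ] (M : ℕ) (e : AddChar (ZMod m) κ) (β : Fin (M + 1) → ι) (t ρ : ℕ)
    (I : Ideal (MvPolynomial (Fin (M + 1)) κ)) (v : Fin (M + 1)) (u' : Fin M),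
    β v = β (v.succAbove u') → C κ (M + 1) e β t ρ I → ∀ (κ' : Type u) [Field κ'] [Algebra κ κ']
    (θ : κ'), C κ' M (ex κ' e) (β ∘ v.succAbove) t ρ (fI v u' θ I)
  zi : ∀ (κ : Type u) [Field κ] (M : ℕ) (e : AddChar (ZMod m) κ) (β : Fin (M + 1) → ι) (t ρ : ℕ)
    (I : Ideal (MvPolynomial (Fin (M + 1)) κ)) (v w : Fin (M + 1)), w ≠ v → β v = β w →
    C κ (M + 1) e β t ρ I → C κ M e (β ∘ v.succAbove) t ρ (zI v I)
  top : ∀ (κ : Type u) [Field κ] (M : ℕ) (e : AddChar (ZMod m) κ) (β : Fin M → ι) (t ρ : ℕ)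
    (I : Ideal (MvPolynomial (Fin M) κ)), C κ M e β t ρ I → M = t + ρ →
    (∃ ρ' < ρ, C κ M e β t ρ' I) ∨ Top e β t I
  merge : ∀ (κ : Type u) [Field κ] (M : ℕ) (e : AddChar (ZMod m) κ) (β : Fin M → ι) (t ρ : ℕ)
    (I : Ideal (MvPolynomial (Fin M) κ)), C κ M e β t ρ I → Function.Injective β → t + ρ < M →
    1 ≤ t → ∃ f : ι → ι, ¬ Function.Injective (f ∘ β) ∧ C κ M e (f ∘ β) t ρ I

variable {C : ∀ (κ : Type u) [Field κ] (M : ℕ), AddChar (ZMod m) κ → (Fin M → ι) → ℕ → ℕ →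
    Ideal (MvPolynomial (Fin M) κ) → Prop}

lemma Cls2.exists_component (hC : Cls2 m ι C) {κ : Type u} [Field κ] {M : ℕ}
    {e : AddChar (ZMod m) κ} {β : Fin M → ι} {t ρ : ℕ} {I : Ideal (MvPolynomial (Fin M) κ)}
    (h : C κ M e β t ρ I) (ht : t + ρ + 1 ≤ M) {l : MvPolynomial (Fin M) κ}
    {P : Ideal (MvPolynomial (Fin M) κ)} (hP : IsSub t l P) (hIP : I ≤ P) :
    ∃ Q, IsSub (t + 1) l Q ∧ I ≤ Q ∧ Q ≤ P := by
  obtain ⟨G, hG, rfl⟩ := hC.gens κ M e β t ρ I h
  rw [Ideal.span_le] at hIP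
  obtain ⟨Q, h1, h2, h3⟩ := exists_isSub_component G hG hP (fun i => hIP ⟨i, rfl⟩) ht
  refine ⟨Q, h1, ?_, h3⟩
  rw [Ideal.span_le]
  rintro _ ⟨i, rfl⟩
  exact h2 i

/-- One step with a pencil. -/
lemma gen_pencil2 (hC : Cls2 m ι C) {K : Type u} [Field K] {M : ℕ} (ih : GLow C M)
    {e : AddChar (ZMod m) K} {β : Fin (M + 1) → ι} {t ρ : ℕ}
    {I : Ideal (MvPolynomial (Fin (M + 1)) K)} (h : C K (M + 1) e β t ρ I) (htM : t + ρ < M + 1)
    {v : Fin (M + 1)} {u' : Fin M} (hβ : β v = β (v.succAbove u'))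
    {P : Ideal (MvPolynomial (Fin (M + 1)) K)} (hP : IsSub t (X (v.succAbove u')) P)
    (hIP : I ≤ P) : av e β (pt P) ∈ IRel I t (X (v.succAbove u')) := by
  have hst := hC.stable _ _ _ _ _ _ _ h
  refine pencil_step hβ hst ?_ ?_ hP hIP
  · intro P hPp hP hIP π _ hval
    have h2 := hC.fm _ _ _ _ _ _ _ v u' hβ h (AdjoinRoot π) (AdjoinRoot.root π)
    rcases Nat.lt_or_ge (t + ρ) M with h1 | h1
    · refine closed_step hβ hst π hP hIP hval ?_
      intro P' hP' hIP'
      exact ih (AdjoinRoot π) _ _ _ _ _ h2 h1 u' P' hP' hIP'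
    · rcases hC.top _ _ _ _ _ _ _ h2 (by omega) with ⟨ρ', hρ', h3⟩ | h3
      · refine closed_step hβ hst π hP hIP hval ?_
        intro P' hP' hIP'
        exact ih (AdjoinRoot π) _ _ _ _ _ h3 (by omega) u' P' hP' hIP'
      · obtain ⟨Q, hQ, hIQ, hQP⟩ := hC.exists_component h (by omega) hP hIP
        refine closed_top hβ hst π hP hval hQ hIQ hQP ?_ ?_
        · intro P₁ P₂ h₁ h₂ h₃ h₄
          exact h3.1 P₁ P₂ (isSub_iff.1 h₁).1 (isSub_iff.1 h₂).1 h₃ h₄
        · intro Q' hQ'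
          exact not_isSub_of_top h3 hQ'
  · intro s hs P' hP' hIP'
    subst hs
    exact ih (Kt K) _ _ _ _ _ (hC.fmg _ _ _ _ _ _ _ v u' hβ h) (by omega) u' P' hP' hIP'

/-- One step with a hyperplane. -/
lemma gen_hyp2 (hC : Cls2 m ι C) {K : Type u} [Field K] {M : ℕ} (ih : GLow C M)
    {e : AddChar (ZMod m) K} {β : Fin (M + 1) → ι} {t ρ : ℕ}
    {I : Ideal (MvPolynomial (Fin (M + 1)) K)} (h : C K (M + 1) e β t ρ I) (htM : t + ρ < M + 1)
    {u v b : Fin (M + 1)} (huv : v ≠ u) (hβ : β u = β v)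
    {P : Ideal (MvPolynomial (Fin (M + 1)) K)} (hP : IsSub t (X b) P)
    (hIP : I ≤ P) (hu : X u ∈ P) : av e β (pt P) ∈ IRel I t (X b) := by
  have hst := hC.stable _ _ _ _ _ _ _ h
  have hbu : b ≠ u := by
    rintro rfl
    exact hP.notMem hu
  obtain ⟨b', rfl⟩ := Fin.exists_succAbove_eq hbu
  have h2 := hC.zi _ _ _ _ _ _ _ u v huv hβ h
  have hstep : (∀ P' : Ideal (MvPolynomial (Fin M) K), IsSub t (X b') P' → zI u I ≤ P' →
      av e (β ∘ u.succAbove) (pt P') ∈ IRel (zI u I) t (X b')) →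
      av e β (pt P) ∈ IRel I t (X (u.succAbove b')) := by
    intro h3
    refine hyp_step u hst (fun a => eig_wt_X _ _) (fun a => ?_) hP hIP hu ?_
    · rw [lsub_zi_succAbove]
      exact eig_wt_X _ _
    · intro P' hP' hIP'
      rw [lsub_zi_succAbove] at hP' ⊢
      exact h3 P' hP' hIP'
  rcases Nat.lt_or_ge (t + ρ) M with h1 | h1
  · exact hstep fun P' hP' hIP' => ih K _ _ _ _ _ h2 h1 b' P' hP' hIP'
  · rcases hC.top _ _ _ _ _ _ _ h2 (by omega) with ⟨ρ', hρ', h3⟩ | h3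
    · exact hstep fun P' hP' hIP' => ih K _ _ _ _ _ h3 (by omega) b' P' hP' hIP'
    · obtain ⟨Q, hQ, hIQ, hQP⟩ := hC.exists_component h (by omega) hP hIP
      refine hyp_top u hst (fun a => eig_wt_X _ _) hP hu hQ hIQ hQP ?_ ?_
      · intro P₁ P₂ h₁ h₂ h₃ h₄
        exact h3.1 P₁ P₂ (isSub_iff.1 h₁).1 (isSub_iff.1 h₂).1 h₃ h₄
      · intro Q' hQ'
        exact not_isSub_of_top h3 hQ'

lemma gen_not_injective2 (hC : Cls2 m ι C) {K : Type u} [Field K] {M : ℕ} (ih : GLow C M)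
    {e : AddChar (ZMod m) K} {β : Fin (M + 1) → ι} {t ρ : ℕ}
    {I : Ideal (MvPolynomial (Fin (M + 1)) K)} (h : C K (M + 1) e β t ρ I) (htM : t + ρ < M + 1)
    (hβ : ¬ Function.Injective β) {b : Fin (M + 1)}
    {P : Ideal (MvPolynomial (Fin (M + 1)) K)} (hP : IsSub t (X b) P)
    (hIP : I ≤ P) : av e β (pt P) ∈ IRel I t (X b) := by
  have key : ∀ (u v : Fin (M + 1)), v ≠ u → β u = β v →
      ∀ P : Ideal (MvPolynomial (Fin (M + 1)) K), IsSub t (X u) P → I ≤ P →
      av e β (pt P) ∈ IRel I t (X u) := by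
    intro u v huv hβ P hP hIP
    obtain ⟨u', rfl⟩ := Fin.exists_succAbove_eq huv.symm
    exact gen_pencil2 hC ih h htM hβ.symm hP hIP
  obtain ⟨u, v, hβ, huv⟩ : ∃ u v, β u = β v ∧ v ≠ u := by
    unfold Function.Injective at hβ
    push Not at hβ
    obtain ⟨u, v, h1, h2⟩ := hβ
    exact ⟨u, v, h1, h2.symm⟩
  by_cases hu : X u ∈ P
  · exact gen_hyp2 hC ih h htM huv hβ hP hIP hu
  · have hPu : IsSub t (X u) P := isSub_iff.2 ⟨(isSub_iff.1 hP).1, hu⟩
    have h1 := key u v huv hβ P hPu hIP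
    have hst : IRel I t (X b) ≤ (IRel I t (X b)).comap (av e β) :=
      iRel_le_av (hC.stable _ _ _ _ _ _ _ h) fun a => eig_wt_X _ _
    have h2 := restr_iRel_le (l := X b) (l' := X u) hst (fun P₂ hP₂ hIP₂ hu₂ => by
      rw [Submodule.mem_comap]
      exact gen_hyp2 hC ih h htM huv hβ hP₂ hIP₂ hu₂) (Submodule.mem_map_of_mem h1)
    rw [restr_av_pt hP.notMem, Submodule.mem_comap] at h2
    exact av_mem_of_av_av_mem h2

/-- **Averages of cycles.** -/
theorem gen_low2 (hC : Cls2 m ι C) : ∀ N : ℕ, GLow C N := by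
  intro N
  induction N with
  | zero =>
    intro K _ e β t ρ I h ht b
    exact b.elim0
  | succ M ih =>
    intro K _ e β t ρ I h ht b P hP hIP
    by_cases hβ : Function.Injective β
    · obtain ⟨f, h1, h2⟩ := hC.merge _ _ _ _ _ _ _ h hβ ht (pos_of_isSub hP)
      refine av_mem_of_comp f (iRel_le_av (hC.stable _ _ _ _ _ _ _ h) fun a => eig_wt_X _ _) ?_
      exact gen_not_injective2 hC ih h2 ht h1 hP hIP
    · exact gen_not_injective2 hC ih h ht hβ hP hIP



/-- **Averages of cycles on projective varieties.** -/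
theorem gen_proj2 (hC : Cls2 m ι C) : ∀ (N : ℕ) (K : Type u) [Field K] (e : AddChar (ZMod m) K)
    (β : Fin N → ι) (t ρ : ℕ) (I : Ideal (MvPolynomial (Fin N) K)), C K N e β t ρ I →
    t + ρ ≤ N → 1 ≤ t → AvTriv e β t I := by
  intro N
  induction N with
  | zero =>
    intro K _ e β t ρ I _ ht ht1
    omega
  | succ M ih =>
    -- the case of positive codimension
    have key : ∀ (K : Type u) [Field K] (e : AddChar (ZMod m) K)
        (β : Fin (M + 1) → ι) (t ρ : ℕ) (I : Ideal (MvPolynomial (Fin (M + 1)) K)),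
        C K (M + 1) e β t ρ I → t + ρ < M + 1 → 1 ≤ t → ¬ Function.Injective β →
        AvTriv e β t I := by
      intro K _ e β t ρ I h ht ht1 hβ
      have hst := hC.stable _ _ _ _ _ _ _ h
      obtain ⟨u, v, hβ, huv⟩ : ∃ u v, β u = β v ∧ v ≠ u := by
        unfold Function.Injective at hβ
        push Not at hβ
        obtain ⟨u, v, h1, h2⟩ := hβ
        exact ⟨u, v, h1, h2.symm⟩
      obtain ⟨k, c, hdim, hmem⟩ := ih K e (β ∘ u.succAbove) t ρ (zI u I)
        (hC.zi _ _ _ _ _ _ _ u v huv hβ h) (by omega) ht1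
      refine ⟨k + 1, Fin.cons u fun i => u.succAbove (c i), dimLe_cons u hdim, ?_⟩
      set S := Submodule.span ℚ {icyc t (secI I (Fin.cons u fun i => u.succAbove (c i)))} ⊔
        IRatEq I t with hS
      have key2 : ∀ P, IsSub t 1 P → I ≤ P → X u ∈ P → av e β (pt P) ∈ S := by
        intro P hP hIP hlP
        obtain ⟨P', hP', hPP'⟩ := exists_isSub_zi u hP hlP
        rw [map_one] at hP'
        have h4 := hmem P' hP' (zI_le (by rw [hPP']; exact hIP))
        have h5 := Submodule.mem_map_of_mem (f := push (lsub K (zi K u)) 1 t) h4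
        rw [push_av_zi, push_pt (isFib_zi u 1) (by rw [map_one]; exact hP'), hPP',
          Submodule.map_sup, Submodule.map_span, Set.image_singleton, push_icyc_zi] at h5
        exact (sup_le_sup_left (push_iRatEq_zi u t) _) h5
      intro P hP hIP
      by_cases hlP : X u ∈ P
      · exact key2 P hP hIP hlP
      · have h4 := gen_low2 hC (M + 1) K e β t ρ I h ht u P (isSub_iff.2 ⟨hP, hlP⟩) hIP
        have h5 : IRatEq I t ≤ S.comap (av e β) :=
          (iRatEq_le_av hst).trans (Submodule.comap_mono le_sup_right)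
        have h6 := iRel_le (I := I) (t := t) (r := Pi.single u (1 : K)) h5
          fun P₂ hP₂ hIP₂ hu₂ => by
            rw [lform_single] at hu₂
            exact key2 P₂ hP₂ hIP₂ hu₂
        rw [lform_single] at h6
        exact av_mem_of_av_av_mem (h6 h4)
    have key' : ∀ (K : Type u) [Field K] (e : AddChar (ZMod m) K)
        (β : Fin (M + 1) → ι) (t ρ : ℕ) (I : Ideal (MvPolynomial (Fin (M + 1)) K)),
        C K (M + 1) e β t ρ I → t + ρ < M + 1 → 1 ≤ t → AvTriv e β t I := by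
      intro K _ e β t ρ I h ht ht1
      by_cases hβ : Function.Injective β
      · obtain ⟨f, h1, h2⟩ := hC.merge _ _ _ _ _ _ _ h hβ ht ht1
        obtain ⟨k, c, hdim, hmem⟩ := key K e (f ∘ β) t ρ I h2 ht ht1 h1
        refine ⟨k, c, hdim, fun P hP hIP => ?_⟩
        exact av_mem_of_comp f (span_icyc_le_av (hC.stable _ _ _ _ _ _ _ h) c) (hmem P hP hIP)
      · exact key K e β t ρ I h ht ht1 hβ
    intro K _ e β t ρ I h ht ht1
    rcases Nat.lt_or_ge (t + ρ) (M + 1) with h1 | h1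
    · exact key' K e β t ρ I h h1 ht1
    · rcases hC.top _ _ _ _ _ _ _ h (by omega) with ⟨ρ', hρ', h3⟩ | h3
      · exact key' K e β t ρ' I h3 (by omega) ht1
      · have hsec : secI I (Fin.elim0 : Fin 0 → Fin (M + 1)) = I := by
          unfold secI
          rw [Set.range_eq_empty, Ideal.span_empty, sup_bot_eq]
        refine ⟨0, Fin.elim0, ?_, ?_⟩
        · rw [hsec]
          exact h3.2
        · intro P hP hIP
          rw [hsec]
          refine Submodule.mem_sup_left ?_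
          have hdim : DimLe t I := h3.2
          refine av_pt_mem_of_conj (c := icyc t I) hdim.finite (icyc_nonneg t I) ?_ ?_ ?_
          · rw [icyc_of hP, Nat.cast_ne_zero]
            exact mult_ne_zero (hdim.mem_minimalPrimes hP.prime hIP hP.trdeg)
          · intro P' hP'
            obtain ⟨h4, h5⟩ := le_of_icyc_ne_zero hP'
            exact h3.1 P P' hP h4 hIP h5
          · rw [av_of_inv e β (tr_icyc (hC.stable _ _ _ _ _ _ _ h) t)]
            exact Submodule.smul_mem _ _ (Submodule.mem_span_singleton_self _)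

end Pool.Agent.H835.AV
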