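import Pool.Agent.H835.AV.AllDim
import Pool.Agent.H835.AV.LowAct

set_option autoImplicit false
set_option linter.unusedSectionVars false

/-!
# Averages of cycles modulo further cycles
-/

universe u

namespace Pool.Agent.H835.AV

open MvPolynomial Pool.Agent.W5h86.HC

section push

variable {K κ : Type u} [Field K] [Field κ] [Algebra K κ] {N N' : ℕ}
  {φ : MvPolynomial (Fin N) K →ₐ[K] MvPolynomial (Fin N') κ} {l : MvPolynomial (Fin N) K}

variable {m : ℕ} {ι : Type} [Fintype ι] [DecidableEq ι] [NeZero m]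

/-- **Transport of relations between averages**, modulo further cycles. -/
theorem av_mem_of_av_mem_E (h : IsFib φ l) {δ t : ℕ} (hδ : Algebra.trdeg K κ = δ)
    {e : AddChar (ZMod m) K} {β : Fin N → ι} {β' : Fin N' → ι}
    (hc : ∀ (a : ι → ZMod m) f, φ (sc (wt e β a) f) = sc (wt (ex κ e) β' a) (φ f))
    (hl : ∀ a : ι → ZMod m, Eig (wt (ex κ e) β' a) (φ l))
    (hl0 : ∀ a : ι → ZMod m, Eig (wt e β a) l)
    {I : Ideal (MvPolynomial (Fin N) K)} {I' : Ideal (MvPolynomial (Fin N') κ)}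
    {E : Submodule ℚ (Ideal (MvPolynomial (Fin N) K) → ℚ)}
    {E' : Submodule ℚ (Ideal (MvPolynomial (Fin N') κ) → ℚ)}
    (hE : E'.map (push φ l t) ≤ E) (hEa : E ≤ E.comap (av e β))
    (hI : I ≤ I'.comap φ) (hst : Stable e β I)
    {P' : Ideal (MvPolynomial (Fin N') κ)} (hP' : IsSub t (φ l) P')
    (hmem : av (ex κ e) β' (pt P') ∈ IRel I' t (φ l) ⊔ E')
    (hsp : ∀ (Q : Ideal (MvPolynomial (Fin N') κ)) P, I ≤ Q.comap φ → Q.comap φ ≤ P →
      IsSub (t + δ) l P → (¬ ∃ P', IsSub t (φ l) P' ∧ P'.comap φ = P) →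
        av e β (pt P) ∈ IRel I (t + δ) l ⊔ E) :
    av e β (pt (P'.comap φ)) ∈ IRel I (t + δ) l ⊔ E := by
  have h1 : (IRel I' t (φ l)).map (push φ l t) ≤ (IRel I (t + δ) l ⊔ E).comap (av e β) :=
    push_rel_le h hδ hI ((iRel_le_av hst hl0).trans (Submodule.comap_mono le_sup_left))
      fun Q P hP1 hP2 hP3 hP4 => hsp Q P hP1 hP2 hP3 hP4
  have h2 : E'.map (push φ l t) ≤ (IRel I (t + δ) l ⊔ E).comap (av e β) :=
    hE.trans (hEa.trans (Submodule.comap_mono le_sup_right))
  have h3 : (IRel I' t (φ l) ⊔ E').map (push φ l t) ≤ (IRel I (t + δ) l ⊔ E).comap (av e β) := by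
    rw [Submodule.map_sup]
    exact sup_le h1 h2
  have h4 := h3 (Submodule.mem_map_of_mem hmem)
  rw [Submodule.mem_comap, push_av h hc hl, push_pt h hP'] at h4
  exact av_mem_of_av_av_mem h4

end push

section pencil

variable {K κ : Type u} [Field K] [Field κ] [Algebra K κ] {M : ℕ} {v : Fin (M + 1)} {u' : Fin M}
  {m : ℕ} {ι : Type} [Fintype ι] [DecidableEq ι] [NeZero m] {e : AddChar (ZMod m) K}
  {β : Fin (M + 1) → ι}

/-- **The closed members of the pencil.** -/
theorem closed_step_E (hβ : β v = β (v.succAbove u'))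
    {I : Ideal (MvPolynomial (Fin (M + 1)) K)}
    (hst : Stable e β I) (π : Polynomial K) [hπ : Fact (Irreducible π)]
    {t : ℕ} {E : Submodule ℚ (Ideal (MvPolynomial (Fin (M + 1)) K) → ℚ)}
    {E' : Submodule ℚ (Ideal (MvPolynomial (Fin M) (AdjoinRoot π)) → ℚ)}
    (hE : E'.map (push (lsub K (fm v u' (AdjoinRoot.root π))) (X (v.succAbove u')) t) ≤ E)
    (hEa : E ≤ E.comap (av e β))
    {P : Ideal (MvPolynomial (Fin (M + 1)) K)} [P.IsPrime]
    (hP : IsSub t (X (v.succAbove u')) P) (hIP : I ≤ P)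
    (hval : Polynomial.aeval (vl (v.succAbove u') v P) π = 0)
    (hcl : ∀ P' : Ideal (MvPolynomial (Fin M) (AdjoinRoot π)), IsSub t (X u') P' →
      fI v u' (AdjoinRoot.root π) I ≤ P' →
      av (ex (AdjoinRoot π) e) (β ∘ v.succAbove) (pt P') ∈
        IRel (fI v u' (AdjoinRoot.root π) I) t (X u') ⊔ E') :
    av e β (pt P) ∈ IRel I t (X (v.succAbove u')) ⊔ E := by
  obtain ⟨P', hP', hPP'⟩ := exists_over_closed' (u' := u') π hP hval
  have h1 := hcl P' hP' (fI_le (by rw [hPP']; exact hIP))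
  have h2 := av_mem_of_av_mem_E (isFib_fm (v := v) (u' := u') (hgen_adjoinRoot π))
    (trdeg_adjoinRoot π)
    (t := t) (fun a f => compat_fm (e := e) hβ (AdjoinRoot.root π) a f)
    (fun a => by
      rw [lsub_fm_a]
      exact eig_wt_X _ _) (fun a => eig_wt_X _ _) hE hEa
    (le_comap_fI I _) hst
    (by
      rw [lsub_fm_a]
      exact hP') (by
      rw [lsub_fm_a]
      exact h1) (by
      intro Q₂ P₂ _ hQP₂ hP₂ hno
      exfalso
      apply hno
      have hmem : hm (v.succAbove u') v π.natDegree π ∈ P₂ := hQP₂ (hm_mem_comap π Q₂)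
      rw [add_zero] at hP₂
      have hprime := hP₂.prime
      rw [lsub_fm_a]
      exact exists_over_closed' (u' := u') π hP₂ ((hm_mem_iff hP₂ π).1 hmem))
  rw [hPP', add_zero] at h2
  exact h2

/-- **A pencil**: from the generic and the closed members to the whole family. -/
theorem pencil_step_E (hβ : β v = β (v.succAbove u'))
    {I : Ideal (MvPolynomial (Fin (M + 1)) K)}
    (hst : Stable e β I) {t : ℕ} {E : Submodule ℚ (Ideal (MvPolynomial (Fin (M + 1)) K) → ℚ)}
    (hEa : E ≤ E.comap (av e β))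
    (hcl : ∀ (P : Ideal (MvPolynomial (Fin (M + 1)) K)) [P.IsPrime],
      IsSub t (X (v.succAbove u')) P → I ≤ P → ∀ (π : Polynomial K) [Fact (Irreducible π)],
      Polynomial.aeval (vl (v.succAbove u') v P) π = 0 →
        av e β (pt P) ∈ IRel I t (X (v.succAbove u')) ⊔ E)
    (hgen : ∀ s, t = s + 1 → ∀ P' : Ideal (MvPolynomial (Fin M) (Kt K)), IsSub s (X u') P' →
      fI v u' (tt K) I ≤ P' →
      av (ex (Kt K) e) (β ∘ v.succAbove) (pt P') ∈ IRel (fI v u' (tt K) I) s (X u'))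
    {P : Ideal (MvPolynomial (Fin (M + 1)) K)}
    (hP : IsSub t (X (v.succAbove u')) P) (hIP : I ≤ P) :
    av e β (pt P) ∈ IRel I t (X (v.succAbove u')) ⊔ E := by
  have hclosed : ∀ (P : Ideal (MvPolynomial (Fin (M + 1)) K)) [P.IsPrime],
      IsSub t (X (v.succAbove u')) P → I ≤ P → IsAlgebraic K (vl (v.succAbove u') v P) →
        av e β (pt P) ∈ IRel I t (X (v.succAbove u')) ⊔ E := by
    intro P _ hP hIP hval
    have hirr : Irreducible (minpoly K (vl (v.succAbove u') v P)) :=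
      minpoly.irreducible hval.isIntegral
    have hfact : Fact (Irreducible (minpoly K (vl (v.succAbove u') v P))) := ⟨hirr⟩
    exact hcl P hP hIP _ (minpoly.aeval K (vl (v.succAbove u') v P))
  have hprime := hP.prime
  by_cases hval : IsAlgebraic K (vl (v.succAbove u') v P)
  · exact hclosed P hP hIP hval
  · obtain ⟨s, P', hs, hP', hPP'⟩ := exists_over_generic' (u' := u') hP hval
    subst hs
    have h1 := hgen s rfl P' hP' (fI_le (by rw [hPP']; exact hIP))
    have h2 := av_mem_of_av_mem_E (isFib_fm (v := v) (u' := u') (θ := tt K) (hgen_Kt (K := K)))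
      (trdeg_Kt (K := K))
      (t := s) (fun a f => compat_fm (e := e) hβ (tt K) a f)
      (fun a => by
        rw [lsub_fm_a]
        exact eig_wt_X _ _) (fun a => eig_wt_X _ _) (E' := ⊥) (by
        rw [Submodule.map_bot]
        exact bot_le) hEa (le_comap_fI I _) hst
      (by
        rw [lsub_fm_a]
        exact hP') (by
        rw [lsub_fm_a]
        exact Submodule.mem_sup_left h1) (by
        intro Q₂ P₂ hIQ₂ hQP₂ hP₂ hno
        have hprime₂ := hP₂.prime
        by_cases hval₂ : IsAlgebraic K (vl (v.succAbove u') v P₂)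
        · exact hclosed P₂ hP₂ (hIQ₂.trans hQP₂) hval₂
        · exfalso
          apply hno
          obtain ⟨s₂, P₃, hs₂, hP₃, hPP₃⟩ := exists_over_generic' (u' := u') hP₂ hval₂
          have h6 : s₂ = s := by omega
          subst h6
          rw [lsub_fm_a]
          exact ⟨P₃, hP₃, hPP₃⟩)
    rw [hPP'] at h2
    exact h2

/-- The cycles in a hyperplane. -/
theorem hyp_step_E (u : Fin (M + 1)) {I : Ideal (MvPolynomial (Fin (M + 1)) K)}
    (hst : Stable e β I) {t : ℕ} {l : MvPolynomial (Fin (M + 1)) K}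
    {E : Submodule ℚ (Ideal (MvPolynomial (Fin (M + 1)) K) → ℚ)}
    {E' : Submodule ℚ (Ideal (MvPolynomial (Fin M) K) → ℚ)}
    (hE : E'.map (push (lsub K (zi K u)) l t) ≤ E)
    (hEa : E ≤ E.comap (av e β))
    (hl : ∀ a : ι → ZMod m, Eig (wt e β a) l)
    (hl' : ∀ a : ι → ZMod m, Eig (wt e (β ∘ u.succAbove) a) (lsub K (zi K u) l))
    {P : Ideal (MvPolynomial (Fin (M + 1)) K)} (hP : IsSub t l P) (hIP : I ≤ P) (hu : X u ∈ P)
    (hz : ∀ P' : Ideal (MvPolynomial (Fin M) K), IsSub t (lsub K (zi K u) l) P' → zI u I ≤ P' →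
      av e (β ∘ u.succAbove) (pt P') ∈ IRel (zI u I) t (lsub K (zi K u) l) ⊔ E') :
    av e β (pt P) ∈ IRel I t l ⊔ E := by
  obtain ⟨P', hP', hPP'⟩ := exists_isSub_zi u hP hu
  have h1 := hz P' hP' (zI_le (by rw [hPP']; exact hIP))
  have h2 := av_mem_of_av_mem_E (isFib_zi u l) (trdeg_self_eq (K := K)) (t := t)
    (fun a f => compat_zi (e := e) (β := β) u a f)
    (fun a => by
      rw [ex_self]
      exact hl' a) hl hE hEa (le_comap_zI u I) hst hP' (by
      rw [ex_self]
      exact h1) (by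
      intro Q₂ P₂ _ hQP₂ hP₂ hno
      exfalso
      apply hno
      have hmem : X u ∈ P₂ := hQP₂ (by
        rw [Ideal.mem_comap, lsub_zi_self]
        exact Q₂.zero_mem)
      rw [add_zero] at hP₂
      exact exists_isSub_zi u hP₂ hmem)
  rw [hPP', add_zero] at h2
  exact h2

end pencil

end Pool.Agent.H835.AV
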