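import Pool.Agent.H835.AV.Sp

set_option autoImplicit false
set_option linter.unusedSectionVars false

/-!
# Averages of cycles, modulo cycles supported in a closed subset
-/

universe u

namespace Pool.Agent.H835.AV

open MvPolynomial Pool.Agent.W5h86.HC

variable {m : ℕ} {ι : Type} [Fintype ι] [DecidableEq ι] [NeZero m]

variable (m ι) in
/-- Classes of pairs of ideals for which the induction works. -/
structure Cls3 (C : ∀ (κ : Type u) [Field κ] (M : ℕ), AddChar (ZMod m) κ → (Fin M → ι) → ℕ → ℕ →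
    Ideal (MvPolynomial (Fin M) κ) → Ideal (MvPolynomial (Fin M) κ) → Prop) : Prop where
  gens : ∀ (κ : Type u) [Field κ] (M : ℕ) (e : AddChar (ZMod m) κ) (β : Fin M → ι) (t ρ : ℕ)
    (I J : Ideal (MvPolynomial (Fin M) κ)), C κ M e β t ρ I J →
    ∃ G : Fin ρ → MvPolynomial (Fin M) κ, (∀ i, ∃ d, IsHomogeneous (G i) d) ∧
      I = Ideal.span (Set.range G)
  stable : ∀ (κ : Type u) [Field κ] (M : ℕ) (e : AddChar (ZMod m) κ) (β : Fin M → ι) (t ρ : ℕ)
    (I J : Ideal (MvPolynomial (Fin M) κ)), C κ M e β t ρ I J → Stable e β I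
  stable' : ∀ (κ : Type u) [Field κ] (M : ℕ) (e : AddChar (ZMod m) κ) (β : Fin M → ι) (t ρ : ℕ)
    (I J : Ideal (MvPolynomial (Fin M) κ)), C κ M e β t ρ I J → Stable e β J
  fmg : ∀ (κ : Type u) [Field κ] (M : ℕ) (e : AddChar (ZMod m) κ) (β : Fin (M + 1) → ι) (t ρ : ℕ)
    (I J : Ideal (MvPolynomial (Fin (M + 1)) κ)) (v : Fin (M + 1)) (u' : Fin M),
    β v = β (v.succAbove u') → C κ (M + 1) e β (t + 1) ρ I J →
    C (Kt κ) M (ex (Kt κ) e) (β ∘ v.succAbove) t ρ (fI v u' (tt κ) I) (fI v u' (tt κ) J)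
  fm : ∀ (κ : Type u) [Field κ] (M : ℕ) (e : AddChar (ZMod m) κ) (β : Fin (M + 1) → ι) (t ρ : ℕ)
    (I J : Ideal (MvPolynomial (Fin (M + 1)) κ)) (v : Fin (M + 1)) (u' : Fin M),
    β v = β (v.succAbove u') → C κ (M + 1) e β t ρ I J → ∀ (κ' : Type u) [Field κ']
    [Algebra κ κ'] (θ : κ'), C κ' M (ex κ' e) (β ∘ v.succAbove) t ρ (fI v u' θ I) (fI v u' θ J)
  zi : ∀ (κ : Type u) [Field κ] (M : ℕ) (e : AddChar (ZMod m) κ) (β : Fin (M + 1) → ι) (t ρ : ℕ)
    (I J : Ideal (MvPolynomial (Fin (M + 1)) κ)) (v w : Fin (M + 1)), w ≠ v → β v = β w →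
    C κ (M + 1) e β t ρ I J → C κ M e (β ∘ v.succAbove) t ρ (zI v I) (zI v J)
  top : ∀ (κ : Type u) [Field κ] (M : ℕ) (e : AddChar (ZMod m) κ) (β : Fin M → ι) (t ρ : ℕ)
    (I J : Ideal (MvPolynomial (Fin M) κ)), C κ M e β t ρ I J → M = t + ρ →
    (∃ ρ' < ρ, C κ M e β t ρ' I J) ∨ Top e β t I ∨ J ≤ I
  merge : ∀ (κ : Type u) [Field κ] (M : ℕ) (e : AddChar (ZMod m) κ) (β : Fin M → ι) (t ρ : ℕ)
    (I J : Ideal (MvPolynomial (Fin M) κ)), C κ M e β t ρ I J → Function.Injective β →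
    t + ρ < M → 1 ≤ t → ∃ (f : ι → ι) (J' : Ideal (MvPolynomial (Fin M) κ)), J ≤ J' ∧
      ¬ Function.Injective (f ∘ β) ∧ C κ M e (f ∘ β) t ρ I J'

/-- The conclusion for cycles outside of a coordinate hyperplane. -/
def GLow3 (C : ∀ (κ : Type u) [Field κ] (M : ℕ), AddChar (ZMod m) κ → (Fin M → ι) → ℕ → ℕ →
    Ideal (MvPolynomial (Fin M) κ) → Ideal (MvPolynomial (Fin M) κ) → Prop) (N : ℕ) : Prop :=
  ∀ (K : Type u) [Field K] (e : AddChar (ZMod m) K) (β : Fin N → ι) (t ρ : ℕ)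
    (I J : Ideal (MvPolynomial (Fin N) K)), C K N e β t ρ I J → t + ρ < N →
    ∀ (b : Fin N) (P : Ideal (MvPolynomial (Fin N) K)), IsSub t (X b) P → I ≤ P →
      av e β (pt P) ∈ SRel I J t (X b)

variable {C : ∀ (κ : Type u) [Field κ] (M : ℕ), AddChar (ZMod m) κ → (Fin M → ι) → ℕ → ℕ →
    Ideal (MvPolynomial (Fin M) κ) → Ideal (MvPolynomial (Fin M) κ) → Prop}

lemma Cls3.exists_component (hC : Cls3 m ι C) {κ : Type u} [Field κ] {M : ℕ}
    {e : AddChar (ZMod m) κ} {β : Fin M → ι} {t ρ : ℕ} {I J : Ideal (MvPolynomial (Fin M) κ)}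
    (h : C κ M e β t ρ I J) (ht : t + ρ + 1 ≤ M) {l : MvPolynomial (Fin M) κ}
    {P : Ideal (MvPolynomial (Fin M) κ)} (hP : IsSub t l P) (hIP : I ≤ P) :
    ∃ Q, IsSub (t + 1) l Q ∧ I ≤ Q ∧ Q ≤ P := by
  obtain ⟨G, hG, rfl⟩ := hC.gens κ M e β t ρ I J h
  rw [Ideal.span_le] at hIP
  obtain ⟨Q, h1, h2, h3⟩ := exists_isSub_component G hG hP (fun i => hIP ⟨i, rfl⟩) ht
  refine ⟨Q, h1, ?_, h3⟩
  rw [Ideal.span_le]
  rintro _ ⟨i, rfl⟩
  exact h2 i

lemma av_pt_mem_sp {K : Type u} [Field K] {N : ℕ} {e : AddChar (ZMod m) K} {β : Fin N → ι}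
    {J P : Ideal (MvPolynomial (Fin N) K)} (hJ : Stable e β J) {t : ℕ}
    {l : MvPolynomial (Fin N) K} (hl : ∀ a : ι → ZMod m, Eig (wt e β a) l)
    (hP : IsSub t l P) (hJP : J ≤ P) : av e β (pt P) ∈ sp J t l :=
  sp_le_av hJ hl (pt_mem_sp hP hJP)

/-- One step with a pencil. -/
lemma gen_pencil3 (hC : Cls3 m ι C) {K : Type u} [Field K] {M : ℕ} (ih : GLow3 C M)
    {e : AddChar (ZMod m) K} {β : Fin (M + 1) → ι} {t ρ : ℕ}
    {I J : Ideal (MvPolynomial (Fin (M + 1)) K)} (h : C K (M + 1) e β t ρ I J)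
    (htM : t + ρ < M + 1)
    {v : Fin (M + 1)} {u' : Fin M} (hβ : β v = β (v.succAbove u'))
    {P : Ideal (MvPolynomial (Fin (M + 1)) K)} (hP : IsSub t (X (v.succAbove u')) P)
    (hIP : I ≤ P) : av e β (pt P) ∈ SRel I J t (X (v.succAbove u')) := by
  have hst := hC.stable _ _ _ _ _ _ _ _ h
  have hst' := hC.stable' _ _ _ _ _ _ _ _ h
  refine pencil_step_sp hβ hst hst' ?_ ?_ hP hIP
  · intro P hPp hP hIP π _ hval
    have h2 := hC.fm _ _ _ _ _ _ _ _ v u' hβ h (AdjoinRoot π) (AdjoinRoot.root π)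
    rcases Nat.lt_or_ge (t + ρ) M with h1 | h1
    · refine closed_step_sp hβ hst hst' π hP hIP hval ?_
      intro P' hP' hIP'
      exact ih (AdjoinRoot π) _ _ _ _ _ _ h2 h1 u' P' hP' hIP'
    · rcases hC.top _ _ _ _ _ _ _ _ h2 (by omega) with ⟨ρ', hρ', h3⟩ | h3 | h3
      · refine closed_step_sp hβ hst hst' π hP hIP hval ?_
        intro P' hP' hIP'
        exact ih (AdjoinRoot π) _ _ _ _ _ _ h3 (by omega) u' P' hP' hIP'
      · obtain ⟨Q, hQ, hIQ, hQP⟩ := hC.exists_component h (by omega) hP hIP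
        refine Submodule.mem_sup_left (closed_top hβ hst π hP hval hQ hIQ hQP ?_ ?_)
        · intro P₁ P₂ h₁ h₂ h₃ h₄
          exact h3.1 P₁ P₂ (isSub_iff.1 h₁).1 (isSub_iff.1 h₂).1 h₃ h₄
        · intro Q' hQ'
          exact not_isSub_of_top h3 hQ'
      · refine closed_step_sp hβ hst hst' π hP hIP hval ?_
        intro P' hP' hIP'
        exact Submodule.mem_sup_right (av_pt_mem_sp (hC.stable' _ _ _ _ _ _ _ _ h2)
          (fun a => eig_wt_X _ _) hP' (h3.trans hIP'))
  · intro s hs P' hP' hIP'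
    subst hs
    exact ih (Kt K) _ _ _ _ _ _ (hC.fmg _ _ _ _ _ _ _ _ v u' hβ h) (by omega) u' P' hP' hIP'

/-- One step with a hyperplane. -/
lemma gen_hyp3 (hC : Cls3 m ι C) {K : Type u} [Field K] {M : ℕ} (ih : GLow3 C M)
    {e : AddChar (ZMod m) K} {β : Fin (M + 1) → ι} {t ρ : ℕ}
    {I J : Ideal (MvPolynomial (Fin (M + 1)) K)} (h : C K (M + 1) e β t ρ I J)
    (htM : t + ρ < M + 1)
    {u v b : Fin (M + 1)} (huv : v ≠ u) (hβ : β u = β v)
    {P : Ideal (MvPolynomial (Fin (M + 1)) K)} (hP : IsSub t (X b) P)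
    (hIP : I ≤ P) (hu : X u ∈ P) : av e β (pt P) ∈ SRel I J t (X b) := by
  have hst := hC.stable _ _ _ _ _ _ _ _ h
  have hst' := hC.stable' _ _ _ _ _ _ _ _ h
  have hbu : b ≠ u := by
    rintro rfl
    exact hP.notMem hu
  obtain ⟨b', rfl⟩ := Fin.exists_succAbove_eq hbu
  have h2 := hC.zi _ _ _ _ _ _ _ _ u v huv hβ h
  have hstep : (∀ P' : Ideal (MvPolynomial (Fin M) K), IsSub t (X b') P' → zI u I ≤ P' →
      av e (β ∘ u.succAbove) (pt P') ∈ SRel (zI u I) (zI u J) t (X b')) →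
      av e β (pt P) ∈ SRel I J t (X (u.succAbove b')) := by
    intro h3
    refine hyp_step_sp u hst hst' (fun a => eig_wt_X _ _) (fun a => ?_) hP hIP hu ?_
    · rw [lsub_zi_succAbove]
      exact eig_wt_X _ _
    · intro P' hP' hIP'
      rw [lsub_zi_succAbove] at hP' ⊢
      exact h3 P' hP' hIP'
  rcases Nat.lt_or_ge (t + ρ) M with h1 | h1
  · exact hstep fun P' hP' hIP' => ih K _ _ _ _ _ _ h2 h1 b' P' hP' hIP'
  · rcases hC.top _ _ _ _ _ _ _ _ h2 (by omega) with ⟨ρ', hρ', h3⟩ | h3 | h3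
    · exact hstep fun P' hP' hIP' => ih K _ _ _ _ _ _ h3 (by omega) b' P' hP' hIP'
    · obtain ⟨Q, hQ, hIQ, hQP⟩ := hC.exists_component h (by omega) hP hIP
      refine Submodule.mem_sup_left
        (hyp_top u hst (fun a => eig_wt_X _ _) hP hu hQ hIQ hQP ?_ ?_)
      · intro P₁ P₂ h₁ h₂ h₃ h₄
        exact h3.1 P₁ P₂ (isSub_iff.1 h₁).1 (isSub_iff.1 h₂).1 h₃ h₄
      · intro Q' hQ'
        exact not_isSub_of_top h3 hQ'
    · exact hstep fun P' hP' hIP' => Submodule.mem_sup_right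
        (av_pt_mem_sp (hC.stable' _ _ _ _ _ _ _ _ h2) (fun a => eig_wt_X _ _) hP'
          (h3.trans hIP'))

lemma gen_not_injective3 (hC : Cls3 m ι C) {K : Type u} [Field K] {M : ℕ} (ih : GLow3 C M)
    {e : AddChar (ZMod m) K} {β : Fin (M + 1) → ι} {t ρ : ℕ}
    {I J : Ideal (MvPolynomial (Fin (M + 1)) K)} (h : C K (M + 1) e β t ρ I J)
    (htM : t + ρ < M + 1)
    (hβ : ¬ Function.Injective β) {b : Fin (M + 1)}
    {P : Ideal (MvPolynomial (Fin (M + 1)) K)} (hP : IsSub t (X b) P)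
    (hIP : I ≤ P) : av e β (pt P) ∈ SRel I J t (X b) := by
  have key : ∀ (u v : Fin (M + 1)), v ≠ u → β u = β v →
      ∀ P : Ideal (MvPolynomial (Fin (M + 1)) K), IsSub t (X u) P → I ≤ P →
      av e β (pt P) ∈ SRel I J t (X u) := by
    intro u v huv hβ P hP hIP
    obtain ⟨u', rfl⟩ := Fin.exists_succAbove_eq huv.symm
    exact gen_pencil3 hC ih h htM hβ.symm hP hIP
  obtain ⟨u, v, hβ, huv⟩ : ∃ u v, β u = β v ∧ v ≠ u := by
    unfold Function.Injective at hβ
    push Not at hβ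
    obtain ⟨u, v, h1, h2⟩ := hβ
    exact ⟨u, v, h1, h2.symm⟩
  by_cases hu : X u ∈ P
  · exact gen_hyp3 hC ih h htM huv hβ hP hIP hu
  · have hPu : IsSub t (X u) P := isSub_iff.2 ⟨(isSub_iff.1 hP).1, hu⟩
    have h1 := key u v huv hβ P hPu hIP
    have hst := hC.stable _ _ _ _ _ _ _ _ h
    have hst' := hC.stable' _ _ _ _ _ _ _ _ h
    have h2 : (SRel I J t (X u)).map (restr (X b)) ≤ (SRel I J t (X b)).comap (av e β) := by
      unfold SRel
      rw [Submodule.map_sup]
      refine sup_le ?_ ?_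
      · refine restr_iRel_le (l := X b) (l' := X u)
          ((iRel_le_av hst fun a => eig_wt_X _ _).trans (Submodule.comap_mono le_sup_left))
          (fun P₂ hP₂ hIP₂ hu₂ => ?_)
        rw [Submodule.mem_comap]
        exact gen_hyp3 hC ih h htM huv hβ hP₂ hIP₂ hu₂
      · exact restr_sp_le.trans ((sp_le_av hst' fun a => eig_wt_X _ _).trans
          (Submodule.comap_mono le_sup_right))
    have h3 := h2 (Submodule.mem_map_of_mem h1)
    rw [restr_av_pt hP.notMem, Submodule.mem_comap] at h3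
    exact av_mem_of_av_av_mem h3

/-- **Averages of cycles**, modulo cycles supported in a closed subset. -/
theorem gen_low3 (hC : Cls3 m ι C) : ∀ N : ℕ, GLow3 C N := by
  intro N
  induction N with
  | zero =>
    intro K _ e β t ρ I J h ht b
    exact b.elim0
  | succ M ih =>
    intro K _ e β t ρ I J h ht b P hP hIP
    by_cases hβ : Function.Injective β
    · obtain ⟨f, J', hJ, h1, h2⟩ := hC.merge _ _ _ _ _ _ _ _ h hβ ht (pos_of_isSub hP)
      refine av_mem_of_comp f (sRel_le_av (hC.stable _ _ _ _ _ _ _ _ h)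
        (hC.stable' _ _ _ _ _ _ _ _ h) fun a => eig_wt_X _ _) ?_
      exact sRel_anti I hJ t _ (gen_not_injective3 hC ih h2 ht h1 hP hIP)
    · exact gen_not_injective3 hC ih h ht hβ hP hIP

section proj

variable {K : Type u} [Field K] {N : ℕ}

/-- Linear sections and rational equivalence and cycles supported in a closed subset. -/
noncomputable def SS {k : ℕ} (I J : Ideal (MvPolynomial (Fin N) K)) (t : ℕ) (c : Fin k → Fin N) :
    Submodule ℚ (Ideal (MvPolynomial (Fin N) K) → ℚ) :=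
  Submodule.span ℚ {icyc t (secI I c)} ⊔ IRatEq I t ⊔ sp J t 1

/-- The conclusion on averages of cycles on a projective variety. -/
def AvSp (e : AddChar (ZMod m) K) (β : Fin N → ι) (t : ℕ)
    (I J : Ideal (MvPolynomial (Fin N) K)) : Prop :=
  ∃ (k : ℕ) (c : Fin k → Fin N), DimLe t (secI I c) ∧ ∀ P, IsSub t 1 P → I ≤ P →
    av e β (pt P) ∈ SS I J t c

lemma sS_le_av {e : AddChar (ZMod m) K} {β : Fin N → ι}
    {t : ℕ} {I J : Ideal (MvPolynomial (Fin N) K)} (hI : Stable e β I) (hJ : Stable e β J) {k : ℕ}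
    (c : Fin k → Fin N) : SS I J t c ≤ (SS I J t c).comap (av e β) :=
  sup_le ((span_icyc_le_av hI c).trans (Submodule.comap_mono le_sup_left))
    ((sp_le_av hJ fun _ => eig_one _).trans (Submodule.comap_mono le_sup_right))

lemma sp_le_one {J : Ideal (MvPolynomial (Fin N) K)} {t : ℕ} {l : MvPolynomial (Fin N) K} :
    sp J t l ≤ sp J t 1 := by
  unfold sp
  apply Submodule.span_mono
  rintro c ⟨Q, h1, h2, h3⟩
  exact ⟨Q, (isSub_iff.1 h1).1, h2, h3⟩

lemma dimLe_all (t : ℕ) (I : Ideal (MvPolynomial (Fin N) K)) :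
    DimLe t (secI I (id : Fin N → Fin N)) := by
  intro P hP hle n hn
  have h1 : ∀ j, (X j : MvPolynomial (Fin N) K) ∈ P := fun j =>
    hle (Ideal.mem_sup_right (Ideal.subset_span ⟨j, rfl⟩))
  have h2 : ∀ f : MvPolynomial (Fin N) K, ∃ a : K, f - C a ∈ P := by
    intro f
    induction f using MvPolynomial.induction_on with
    | C a => exact ⟨a, by rw [sub_self]; exact P.zero_mem⟩
    | add p q hp hq =>
      obtain ⟨a, ha⟩ := hp
      obtain ⟨b, hb⟩ := hq
      refine ⟨a + b, ?_⟩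
      have h3 := P.add_mem ha hb
      rw [map_add]
      convert h3 using 1
      ring
    | mul_X p j _ =>
      refine ⟨0, ?_⟩
      rw [map_zero, sub_zero]
      exact P.mul_mem_left _ (h1 j)
  have h3 : Algebra.IsAlgebraic K (MvPolynomial (Fin N) K ⧸ P) := by
    refine ⟨fun x => ?_⟩
    obtain ⟨f, rfl⟩ := Ideal.Quotient.mk_surjective x
    obtain ⟨a, ha⟩ := h2 f
    have h4 : Ideal.Quotient.mk P f = algebraMap K (MvPolynomial (Fin N) K ⧸ P) a := by
      have h5 := Ideal.Quotient.eq.2 ha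
      rw [h5]
      rfl
    rw [h4]
    exact isAlgebraic_algebraMap a
  have h4 : Algebra.trdeg K (MvPolynomial (Fin N) K ⧸ P) = 0 :=
    trdeg_eq_zero
  rw [hn] at h4
  have h5 : n = 0 := by exact_mod_cast h4
  omega

end proj

/-- **Averages of cycles on projective varieties.** -/
theorem gen_proj3 (hC : Cls3 m ι C) : ∀ (N : ℕ) (K : Type u) [Field K] (e : AddChar (ZMod m) K)
    (β : Fin N → ι) (t ρ : ℕ) (I J : Ideal (MvPolynomial (Fin N) K)), C K N e β t ρ I J →
    t + ρ ≤ N → 1 ≤ t → AvSp e β t I J := by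
  intro N
  induction N with
  | zero =>
    intro K _ e β t ρ I J _ ht ht1
    omega
  | succ M ih =>
    -- the case of positive codimension
    have key : ∀ (K : Type u) [Field K] (e : AddChar (ZMod m) K)
        (β : Fin (M + 1) → ι) (t ρ : ℕ) (I J : Ideal (MvPolynomial (Fin (M + 1)) K)),
        C K (M + 1) e β t ρ I J → t + ρ < M + 1 → 1 ≤ t → ¬ Function.Injective β →
        AvSp e β t I J := by
      intro K _ e β t ρ I J h ht ht1 hβ
      have hst := hC.stable _ _ _ _ _ _ _ _ h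
      have hst' := hC.stable' _ _ _ _ _ _ _ _ h
      obtain ⟨u, v, hβ, huv⟩ : ∃ u v, β u = β v ∧ v ≠ u := by
        unfold Function.Injective at hβ
        push Not at hβ
        obtain ⟨u, v, h1, h2⟩ := hβ
        exact ⟨u, v, h1, h2.symm⟩
      obtain ⟨k, c, hdim, hmem⟩ := ih K e (β ∘ u.succAbove) t ρ (zI u I) (zI u J)
        (hC.zi _ _ _ _ _ _ _ _ u v huv hβ h) (by omega) ht1
      refine ⟨k + 1, Fin.cons u fun i => u.succAbove (c i), dimLe_cons u hdim, ?_⟩
      have key2 : ∀ P, IsSub t 1 P → I ≤ P → X u ∈ P → av e β (pt P) ∈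
          SS I J t (Fin.cons u fun i => u.succAbove (c i)) := by
        intro P hP hIP hlP
        obtain ⟨P', hP', hPP'⟩ := exists_isSub_zi u hP hlP
        rw [map_one] at hP'
        have h4 := hmem P' hP' (zI_le (by rw [hPP']; exact hIP))
        have h5 := Submodule.mem_map_of_mem (f := push (lsub K (zi K u)) 1 t) h4
        unfold SS at h5
        rw [push_av_zi, push_pt (isFib_zi u 1) (by rw [map_one]; exact hP'), hPP',
          Submodule.map_sup, Submodule.map_sup, Submodule.map_span, Set.image_singleton,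
          push_icyc_zi] at h5
        have h6 : (sp (zI u J) t 1).map (push (lsub K (zi K u)) 1 t) ≤ sp J t 1 := by
          have h7 := push_sp_le (isFib_zi (K := K) u (1 : MvPolynomial (Fin (M + 1)) K))
            (trdeg_self_eq (K := K)) (t := t) (le_comap_zI u J)
          rw [map_one, add_zero] at h7
          exact h7
        exact (sup_le_sup (sup_le_sup_left (push_iRatEq_zi u t) _) h6) h5
      intro P hP hIP
      by_cases hlP : X u ∈ P
      · exact key2 P hP hIP hlP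
      · have h4 := gen_low3 hC (M + 1) K e β t ρ I J h ht u P (isSub_iff.2 ⟨hP, hlP⟩) hIP
        have h5 : IRatEq I t ≤
            (SS I J t (Fin.cons u fun i => u.succAbove (c i))).comap (av e β) :=
          (iRatEq_le_av hst).trans (Submodule.comap_mono (le_sup_right.trans le_sup_left))
        have h6 := iRel_le (I := I) (t := t) (r := Pi.single u (1 : K)) h5
          fun P₂ hP₂ hIP₂ hu₂ => by
            rw [lform_single] at hu₂
            exact key2 P₂ hP₂ hIP₂ hu₂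
        rw [lform_single] at h6
        have h7 : sp J t (X u) ≤
            (SS I J t (Fin.cons u fun i => u.succAbove (c i))).comap (av e β) :=
          (sp_le_one.trans (sp_le_av hst' fun a => eig_one _)).trans
            (Submodule.comap_mono le_sup_right)
        exact av_mem_of_av_av_mem (sup_le h6 h7 h4)
    have key' : ∀ (K : Type u) [Field K] (e : AddChar (ZMod m) K)
        (β : Fin (M + 1) → ι) (t ρ : ℕ) (I J : Ideal (MvPolynomial (Fin (M + 1)) K)),
        C K (M + 1) e β t ρ I J → t + ρ < M + 1 → 1 ≤ t → AvSp e β t I J := by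
      intro K _ e β t ρ I J h ht ht1
      by_cases hβ : Function.Injective β
      · obtain ⟨f, J', hJ, h1, h2⟩ := hC.merge _ _ _ _ _ _ _ _ h hβ ht ht1
        obtain ⟨k, c, hdim, hmem⟩ := key K e (f ∘ β) t ρ I J' h2 ht ht1 h1
        refine ⟨k, c, hdim, fun P hP hIP => ?_⟩
        exact av_mem_of_comp f (sS_le_av (hC.stable _ _ _ _ _ _ _ _ h)
          (hC.stable' _ _ _ _ _ _ _ _ h) c) (sup_le_sup_left (sp_anti hJ t 1) _ (hmem P hP hIP))
      · exact key K e β t ρ I J h ht ht1 hβ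
    intro K _ e β t ρ I J h ht ht1
    rcases Nat.lt_or_ge (t + ρ) (M + 1) with h1 | h1
    · exact key' K e β t ρ I J h h1 ht1
    · rcases hC.top _ _ _ _ _ _ _ _ h (by omega) with ⟨ρ', hρ', h3⟩ | h3 | h3
      · exact key' K e β t ρ' I J h3 (by omega) ht1
      · have hsec : secI I (Fin.elim0 : Fin 0 → Fin (M + 1)) = I := by
          unfold secI
          rw [Set.range_eq_empty, Ideal.span_empty, sup_bot_eq]
        refine ⟨0, Fin.elim0, ?_, ?_⟩
        · rw [hsec]
          exact h3.2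
        · intro P hP hIP
          unfold SS
          rw [hsec]
          refine Submodule.mem_sup_left (Submodule.mem_sup_left ?_)
          have hdim : DimLe t I := h3.2
          refine av_pt_mem_of_conj (c := icyc t I) hdim.finite (icyc_nonneg t I) ?_ ?_ ?_
          · rw [icyc_of hP, Nat.cast_ne_zero]
            exact mult_ne_zero (hdim.mem_minimalPrimes hP.prime hIP hP.trdeg)
          · intro P' hP'
            obtain ⟨h4, h5⟩ := le_of_icyc_ne_zero hP'
            exact h3.1 P P' hP h4 hIP h5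
          · rw [av_of_inv e β (tr_icyc (hC.stable _ _ _ _ _ _ _ _ h) t)]
            exact Submodule.smul_mem _ _ (Submodule.mem_span_singleton_self _)
      · refine ⟨M + 1, id, dimLe_all t I, fun P hP hIP => Submodule.mem_sup_right ?_⟩
        exact av_pt_mem_sp (hC.stable' _ _ _ _ _ _ _ _ h) (fun a => eig_one _) hP
          (h3.trans hIP)

end Pool.Agent.H835.AV
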