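import Pool.Agent.H835.AV.SmoothSum
import Pool.Agent.H835.AV.ChowAct

set_option autoImplicit false
set_option linter.unusedSectionVars false

/-!
# Cycles of codimension less than half the dimension on smooth sums of forms
-/

universe u

namespace Pool.Agent.H835.AV

open MvPolynomial Pool.Agent.W5h86.HC

section sing

variable {K : Type u} [Field K] {N : ℕ}

lemma pderiv_mem_supported {B : Set (Fin N)} {f : MvPolynomial (Fin N) K}
    (hf : f ∈ supported K B) (i : Fin N) : pderiv i f ∈ supported K B := by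
  classical
  rw [supported_eq_adjoin_X] at hf ⊢
  induction hf using Algebra.adjoin_induction with
  | mem x hx =>
    obtain ⟨j, hj, rfl⟩ := hx
    rw [pderiv_X]
    by_cases hij : j = i
    · rw [hij, Pi.single_eq_same]
      exact Subalgebra.one_mem _
    · rw [Pi.single_eq_of_ne hij]
      exact Subalgebra.zero_mem _
  | algebraMap r =>
    rw [algebraMap_eq, pderiv_C]
    exact Subalgebra.zero_mem _
  | add x y _ _ hx hy =>
    rw [map_add]
    exact Subalgebra.add_mem _ hx hy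
  | mul x y hx' hy' hx hy =>
    rw [pderiv_mul]
    exact Subalgebra.add_mem _ (Subalgebra.mul_mem _ hx hy') (Subalgebra.mul_mem _ hx' hy)

/-- A form in variables which all vanish at `x`. -/
lemma aeval_eq_zero_of_supported {B : Set (Fin N)} {f : MvPolynomial (Fin N) K}
    (hf : f ∈ supported K B) {d : ℕ} (hd : 1 ≤ d) (hhom : IsHomogeneous f d) {x : Fin N → K}
    (hx : ∀ j ∈ B, x j = 0) : aeval x f = 0 := by
  classical
  rw [f.as_sum, map_sum]
  refine Finset.sum_eq_zero fun s hs => ?_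
  rw [aeval_monomial]
  have h1 : coeff s f ≠ 0 := mem_support_iff.1 hs
  have h2 : ∑ j, s j = d := sum_eq_of_coeff hhom h1
  obtain ⟨j, hj⟩ : ∃ j, s j ≠ 0 := by
    by_contra hcon
    push Not at hcon
    rw [Finset.sum_eq_zero fun j _ => hcon j] at h2
    omega
  have h3 : j ∈ B := mem_of_coeff hf h1 hj
  rw [Finsupp.prod_fintype _ _ (fun i => by rw [pow_zero]),
    Finset.prod_eq_zero (Finset.mem_univ j) (by rw [hx j h3, zero_pow hj]), mul_zero]

/-- The singular points of a part of a sum of forms. -/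
lemma smooth_part {B : Set (Fin N)} {f g : MvPolynomial (Fin N) K} {n : ℕ} (hn : 2 ≤ n)
    (hg : IsHomogeneous g n) (hgB : g ∈ supported K Bᶜ)
    (hsm : ∀ x : Fin N → K, x ≠ 0 → aeval x (f + g) = 0 → ∃ j, aeval x (pderiv j (f + g)) ≠ 0)
    {x : Fin N → K} (hx0 : x ≠ 0) (hx : ∀ j, j ∉ B → x j = 0) (hfx : aeval x f = 0) :
    ∃ j, aeval x (pderiv j f) ≠ 0 := by
  have h1 : aeval x g = 0 := aeval_eq_zero_of_supported hgB (by omega) hg fun j hj => hx j hj
  obtain ⟨j, hj⟩ := hsm x hx0 (by rw [map_add, hfx, h1, add_zero])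
  refine ⟨j, ?_⟩
  rw [map_add, map_add, aeval_eq_zero_of_supported (pderiv_mem_supported hgB j) (d := n - 1)
    (by omega) hg.pderiv (fun j hj => hx j hj), add_zero] at hj
  exact hj

end sing

section merged

variable {K : Type u} [Field K] {N : ℕ} {ι : Type} [Fintype ι] [DecidableEq ι]
  {β : Fin N → ι} {G : ι → MvPolynomial (Fin N) K}

/-- the forms of the merged blocks -/
noncomputable def mrg (G : ι → MvPolynomial (Fin N) K) (π : ι → ι) (k : ι) :
    MvPolynomial (Fin N) K := ∑ l with π l = k, G l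

lemma mrg_hom {n : ℕ} (h1 : ∀ k, IsHomogeneous (G k) n) (π : ι → ι) (k : ι) :
    IsHomogeneous (mrg G π k) n := IsHomogeneous.sum _ _ _ fun l _ => h1 l

lemma mrg_mem (h2 : ∀ k, G k ∈ supported K {j | β j = k}) (π : ι → ι) (k : ι) :
    mrg G π k ∈ supported K {j | (π ∘ β) j = k} := by
  refine Subalgebra.sum_mem _ fun l hl => supported_mono ?_ (h2 l)
  intro j hj
  have h3 : β j = l := hj
  change π (β j) = k
  rw [h3]
  exact (Finset.mem_filter.1 hl).2

lemma sum_mrg (π : ι → ι) : ∑ k, mrg G π k = ∑ k, G k :=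
  Finset.sum_fiberwise Finset.univ π G

lemma mrg_ne_zero {n : ℕ} (hn : 0 < n) (h1 : ∀ k, IsHomogeneous (G k) n)
    (h2 : ∀ k, G k ∈ supported K {j | β j = k}) (h0 : ∀ k, G k ≠ 0) (π : ι → ι) (k : ι) :
    k ∈ Finset.univ.image π ↔ mrg G π k ≠ 0 := by
  constructor
  · intro hk
    obtain ⟨l, -, rfl⟩ := Finset.mem_image.1 hk
    exact sum_forms_ne_zero hn h1 h2 (Finset.mem_filter.2 ⟨Finset.mem_univ l, rfl⟩) (h0 l)
  · intro hk
    by_contra hcon
    apply hk
    unfold mrg
    rw [Finset.filter_eq_empty_iff.2 fun l _ hl => hcon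
      (Finset.mem_image.2 ⟨l, Finset.mem_univ l, hl⟩), Finset.sum_empty]

lemma compl_mem {n : ℕ} (h1 : ∀ k, IsHomogeneous (G k) n)
    (h2 : ∀ k, G k ∈ supported K {j | β j = k}) (k : ι) :
    ∃ g : MvPolynomial (Fin N) K, ∑ l, G l = G k + g ∧ IsHomogeneous g n ∧
      g ∈ supported K {j | β j = k}ᶜ :=
  ⟨∑ l ∈ Finset.univ.erase k, G l, (Finset.add_sum_erase _ _ (Finset.mem_univ k)).symm,
    IsHomogeneous.sum _ _ _ fun l _ => h1 l, gr_sum h2 k⟩

/-- The forms of a smooth sum of forms are not zero. -/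
lemma forms_ne_zero {n : ℕ} (hn : 2 ≤ n) (hβ : Function.Surjective β)
    (h1 : ∀ k, IsHomogeneous (G k) n) (h2 : ∀ k, G k ∈ supported K {j | β j = k})
    (hsm : ∀ x : Fin N → K, x ≠ 0 → aeval x (∑ k, G k) = 0 →
      ∃ j, aeval x (pderiv j (∑ k, G k)) ≠ 0) (k : ι) : G k ≠ 0 := by
  classical
  intro hk
  obtain ⟨g, hg1, hg2, hg3⟩ := compl_mem h1 h2 k
  rw [hg1] at hsm
  obtain ⟨i, rfl⟩ := hβ k
  obtain ⟨j, hj⟩ := smooth_part (B := {j | β j = β i}) hn hg2 hg3 hsm (x := Pi.single i 1) (by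
    intro h
    have h1 := congrFun h i
    rw [Pi.single_eq_same] at h1
    exact one_ne_zero h1) (fun j hj => Pi.single_eq_of_ne (by
      rintro rfl
      exact hj rfl) _) (by rw [hk, map_zero])
  rw [hk, map_zero, map_zero] at hj
  exact hj rfl

variable [IsAlgClosed K]

/-- The forms of a smooth sum of forms are irreducible if there are at least three variables. -/
lemma forms_prime {n : ℕ} (hn : 2 ≤ n)
    (h1 : ∀ k, IsHomogeneous (G k) n) (h2 : ∀ k, G k ∈ supported K {j | β j = k})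
    (hsm : ∀ x : Fin N → K, x ≠ 0 → aeval x (∑ k, G k) = 0 →
      ∃ j, aeval x (pderiv j (∑ k, G k)) ≠ 0) (k : ι)
    (hk : 3 ≤ (Finset.univ.filter fun j => β j = k).card) : Prime (G k) := by
  obtain ⟨g, hg1, hg2, hg3⟩ := compl_mem h1 h2 k
  rw [hg1] at hsm
  have hset : (((Finset.univ.filter fun j => β j = k) : Finset (Fin N)) : Set (Fin N)) =
      {j | β j = k} := by
    ext j
    simp
  refine prime_of_smooth (by omega) (h1 k) (B := Finset.univ.filter fun j => β j = k)
    (by rw [hset]; exact h2 k) hk ?_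
  intro x hx0 hx hfx
  refine smooth_part (B := {j | β j = k}) hn hg2 hg3 hsm hx0 (fun j hj => hx j ?_) hfx
  intro hj2
  exact hj (Finset.mem_filter.1 hj2).2

variable {m : ℕ} [NeZero m] {e : AddChar (ZMod m) K}

/-- **Averages over merged blocks of cycles of low codimension.** -/
theorem avTriv_smooth {n t c : ℕ} (he : Good e n) (hn : 2 ≤ n) (hβ : Function.Surjective β)
    (h1 : ∀ k, IsHomogeneous (G k) n) (h2 : ∀ k, G k ∈ supported K {j | β j = k})
    (hsm : ∀ x : Fin N → K, x ≠ 0 → aeval x (∑ k, G k) = 0 →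
      ∃ j, aeval x (pderiv j (∑ k, G k)) ≠ 0) (ht : 1 ≤ t) (hc : 2 ≤ c) (hN : t + c = N)
    (hcN : 2 * c < N) {π : ι → ι} (hπ : (Finset.univ.image π).card = c) :
    AvTriv e (π ∘ β) t (Ideal.span {∑ k, G k}) := by
  classical
  have h0 := forms_ne_zero hn hβ h1 h2 hsm
  rw [← sum_mrg π] at hsm ⊢
  -- a large block
  obtain ⟨l₀, hl₀, hl₀2⟩ := Finset.exists_lt_card_fiber_of_mul_lt_card_of_maps_to
    (s := (Finset.univ : Finset (Fin N))) (t := Finset.univ.image π) (f := π ∘ β) (n := 2)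
    (fun j _ => Finset.mem_image.2 ⟨β j, Finset.mem_univ _, rfl⟩) (by
      rw [hπ, Finset.card_univ, Fintype.card_fin]
      omega)
  obtain ⟨l₁, hl₁, hne⟩ : ∃ l₁ ∈ Finset.univ.image π, l₁ ≠ l₀ := by
    by_contra hcon
    push Not at hcon
    have h3 : Finset.univ.image π ⊆ {l₀} := fun l hl => Finset.mem_singleton.2 (hcon l hl)
    have h4 := Finset.card_le_card h3
    rw [hπ, Finset.card_singleton] at h4
    omega
  obtain ⟨u, hu, v, hv, huv⟩ := Finset.one_lt_card.1
    (show 1 < (Finset.univ.filter fun j => (π ∘ β) j = l₀).card by omega)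
  exact border_proj he (mrg_hom h1 π) (mrg_mem h2 π) (T := Finset.univ.image π)
    (fun k => mrg_ne_zero he.pos h1 h2 h0 π k) hl₀ hl₁ hne
    (forms_prime (β := π ∘ β) hn (mrg_hom h1 π) (mrg_mem h2 π) hsm l₀ (by omega))
    (by rw [hπ]; exact hN) ht (u := u) (v := v) huv.symm
    (Finset.mem_filter.1 hu).2 (Finset.mem_filter.1 hv).2

/-- **The group ring acts trivially on cycles of low codimension.** -/
theorem smooth_main {n t c : ℕ} (he : Good e n) (hn : 2 ≤ n) (hβ : Function.Surjective β)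
    (h1 : ∀ k, IsHomogeneous (G k) n) (h2 : ∀ k, G k ∈ supported K {j | β j = k})
    (hsm : ∀ x : Fin N → K, x ≠ 0 → aeval x (∑ k, G k) = 0 →
      ∃ j, aeval x (pderiv j (∑ k, G k)) ≠ 0) (ht : 1 ≤ t) (hc : 2 ≤ c) (hN : t + c = N)
    (hcN : 2 * c < N) (hcι : c ≤ Fintype.card ι) (z : (ι → ZMod m) → ℚ)
    (hz : ∀ x : ι → ZMod m, ∑ k, x k = 0 → ∑ g, (z g : ℂ) * ch x g ≠ 0 →
      ∃ π : ι → ι, (Finset.univ.image π).card = c ∧ ∀ k, ∑ j with π j = k, x j = 0) :
    ∃ (k : ℕ) (c : Fin k → Fin N), DimLe t (secI (Ideal.span {∑ k, G k}) c) ∧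
      ∀ P, IsSub t 1 P → Ideal.span {∑ k, G k} ≤ P →
      ∑ g, z g • tr (wt e β g) (pt P) ∈
        Submodule.span ℚ {icyc t (secI (Ideal.span {∑ k, G k}) c)} ⊔
          IRatEq (Ideal.span {∑ k, G k}) t := by
  classical
  obtain ⟨S, -, hS⟩ := Finset.exists_subset_card_eq (s := (Finset.univ : Finset ι)) (n := c)
    (by rw [Finset.card_univ]; exact hcι)
  obtain ⟨k₀, hk₀⟩ := Finset.card_pos.1 (show 0 < S.card by omega)
  have hπ₀ : (Finset.univ.image fun k => if k ∈ S then k else k₀) = S := by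
    ext k
    rw [Finset.mem_image]
    constructor
    · rintro ⟨l, -, rfl⟩
      split_ifs with h
      · exact h
      · exact hk₀
    · intro hk
      exact ⟨k, Finset.mem_univ k, if_pos hk⟩
  refine char_main ?_ (avTriv_smooth he hn hβ h1 h2 hsm ht hc hN hcN
    (π := fun k => if k ∈ S then k else k₀) (by rw [hπ₀]; exact hS)) z ?_
  · intro a
    rw [Ideal.span_singleton_le_iff_mem, Ideal.mem_comap,
      (show SF β n (∑ k, G k) from ⟨G, h1, h2, rfl⟩).inv he.dvd]
    exact Ideal.mem_span_singleton_self _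
  · intro x hx hzx
    obtain ⟨π, h3, h4⟩ := hz x hx hzx
    exact ⟨π, avTriv_smooth he hn hβ h1 h2 hsm ht hc hN hcN h3, h4⟩

end merged

end Pool.Agent.H835.AV
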