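import Pool.Agent.H835.AV.Hart
import Pool.Agent.H835.AV.BlockAct

set_option autoImplicit false
set_option linter.unusedSectionVars false

/-!
# The group ring acting on cycles of low codimension on smooth sums of forms
-/

universe u

namespace Pool.Agent.H835.AV

open MvPolynomial Pool.Agent.W5h86.HC

section aux

variable {K : Type u} [Field K] {m : ℕ} [NeZero m] {ζ : K} {ι : Type} [Fintype ι] [DecidableEq ι]

lemma good_zmodChar (hζ : IsPrimitiveRoot ζ m) {n a : ℕ} (hn : n = m * ringExpChar K ^ a) :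
    Good (AddChar.zmodChar m hζ.pow_eq_one) n := by
  refine ⟨?_, ringExpChar K, a, inferInstance, hn⟩
  intro x hx
  rw [AddChar.zmodChar_apply, hζ.pow_eq_one_iff_dvd] at hx
  have h1 := ZMod.val_lt x
  have h2 : x.val = 0 := Nat.eq_zero_of_dvd_of_lt hx h1
  exact (ZMod.val_eq_zero x).1 h2

lemma ch_neg_left' (x g : ι → ZMod m) : ch (-x) g = ch x (-g) := by
  unfold ch
  congr 1
  refine Finset.sum_congr rfl fun j _ => ?_
  rw [Pi.neg_apply, Pi.neg_apply, neg_mul, mul_neg]

/-- The condition on the characters for the opposite element of the group ring. -/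
lemma sum_ch_neg {z z' : (ι → ZMod m) → ℚ} (hz : ∀ g, z' g = z (-g)) (x : ι → ZMod m) :
    ∑ g, (z' g : ℂ) * ch x g = ∑ g, (z g : ℂ) * ch (-x) g := by
  refine Fintype.sum_equiv (Equiv.neg _) _ _ fun g => ?_
  rw [Equiv.neg_apply, hz, ch_neg_left', neg_neg]

/-- Partitions indexed by the blocks. -/
lemma exists_self_map {c s : ℕ} {x : Fin s → ZMod m} (hcs : c ≤ s)
    (h : ∃ π : Fin s → Fin c, Function.Surjective π ∧ ∀ l, ∑ k with π k = l, x k = 0) :
    ∃ π : Fin s → Fin s, (Finset.univ.image π).card = c ∧ ∀ k, ∑ j with π j = k, x j = 0 := by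
  obtain ⟨π, h1, h2⟩ := h
  refine ⟨Fin.castLE hcs ∘ π, ?_, ?_⟩
  · rw [← Finset.image_image, Finset.image_univ_of_surjective h1,
      Finset.card_image_of_injective _ (Fin.castLE_injective hcs), Finset.card_univ,
      Fintype.card_fin]
  · intro k
    by_cases hk : ∃ l, Fin.castLE hcs l = k
    · obtain ⟨l, rfl⟩ := hk
      rw [← h2 l]
      refine Finset.sum_congr ?_ fun _ _ => rfl
      ext j
      rw [Finset.mem_filter, Finset.mem_filter, Function.comp_apply]
      exact and_congr_right fun _ => ⟨fun h3 => Fin.castLE_injective hcs h3, fun h3 => by rw [h3]⟩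
    · refine Finset.sum_eq_zero fun j hj => ?_
      exact absurd ⟨π j, (Finset.mem_filter.1 hj).2⟩ hk

lemma exists_neg {c s : ℕ} {x : Fin s → ZMod m}
    (h : ∃ π : Fin s → Fin c, Function.Surjective π ∧ ∀ l, ∑ k with π k = l, (-x) k = 0) :
    ∃ π : Fin s → Fin c, Function.Surjective π ∧ ∀ l, ∑ k with π k = l, x k = 0 := by
  obtain ⟨π, h1, h2⟩ := h
  refine ⟨π, h1, fun l => ?_⟩
  have h3 := h2 l
  simp only [Pi.neg_apply, Finset.sum_neg_distrib, neg_eq_zero] at h3
  exact h3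

/-- Sums over all elements of a nontrivial character. -/
lemma sum_ch_eq_zero {x : ι → ZMod m} (hx : x ≠ 0) : ∑ g, ch x g = 0 := by
  obtain ⟨k, hk⟩ := Function.ne_iff.1 hx
  have h1 : ∑ g, ch x g = ∑ g, ch x g * ch x (Pi.single k 1) := by
    rw [← Fintype.sum_equiv (Equiv.addRight (Pi.single k (1 : ZMod m))) _ _ fun g => rfl]
    refine Finset.sum_congr rfl fun g _ => ?_
    rw [Equiv.coe_addRight, ch_add_right]
  rw [← Finset.sum_mul] at h1
  have h2 : ch x (Pi.single k 1) ≠ 1 := by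
    apply ch_ne_one
    rw [Finset.sum_eq_single k (fun l _ hl => by rw [Pi.single_eq_of_ne hl, mul_zero])
      (fun h => absurd (Finset.mem_univ k) h), Pi.single_eq_same, mul_one]
    exact hk
  have h3 : (∑ g, ch x g) * (ch x (Pi.single k 1) - 1) = 0 := by
    rw [mul_sub, mul_one, ← h1, sub_self]
  exact (mul_eq_zero.1 h3).resolve_right (sub_ne_zero.2 h2)

end aux

section main

variable {K : Type u} [Field K] [IsAlgClosed K] {m : ℕ} [NeZero m] {ζ : K}

theorem hart_main (hm : 2 ≤ m) (hζ : IsPrimitiveRoot ζ m) {N s i j : ℕ} (hN : N = i + j + 2)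
    (hj : 1 ≤ j) (hij : j < i)
    (hjs : j < s) {β : Fin N → Fin s} (hβ : Function.Surjective β)
    {f : Fin s → MvPolynomial (Fin N) K} (hf : ∀ k, IsHomogeneous (f k) m)
    (hfβ : ∀ k, f k ∈ supported K {l | β l = k})
    (hsm : ∀ x : Fin N → K, x ≠ 0 → aeval x (∑ k, f k) = 0 →
      ∃ l, aeval x (pderiv l (∑ k, f k)) ≠ 0)
    (z : (Fin s → ZMod m) → ℚ)
    (hz : ∀ x : Fin s → ZMod m, ∑ k, x k = 0 →
        (¬ ∃ π : Fin s → Fin (j + 1), Function.Surjective π ∧
          ∀ l, ∑ k with π k = l, x k = 0) →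
        ∑ g, (z g : ℂ) * ZMod.stdAddChar (∑ k, x k * g k) = 0) :
      ∃ (r : ℕ) (c : Fin r → Fin N),
        DimAtMost (Ideal.span {∑ k, f k} ⊔ Ideal.span (Set.range fun l => X (c l))) i ∧
        ∀ α : CH (Ideal.span {∑ k, f k}) i, ∃ q : ℚ,
          ∑ g, z g • blockAct hζ.pow_eq_one (sum_stable hζ.pow_eq_one dvd_rfl hf hfβ) i g α =
          q • (ratEq (Ideal.span {∑ k, f k}) i).mkQ (cyc (Ideal.span {∑ k, f k}) i
            (Ideal.span {∑ k, f k} ⊔ Ideal.span (Set.range fun l => X (c l)))) := by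
  refine block_main' (n := m) (a := 0) hζ (by rw [pow_zero, mul_one]) _ i z ?_
  intro e he z' hz'
  refine smooth_main he hm hβ hf hfβ hsm (t := i + 1) (c := j + 1) (by omega) (by omega)
    (by omega) (by omega) (by rw [Fintype.card_fin]; exact hjs) z' ?_
  intro x hx hzx
  apply exists_self_map hjs
  by_contra hcon
  apply hzx
  rw [sum_ch_neg hz']
  refine hz (-x) ?_ fun h => hcon (exists_neg h)
  simp only [Pi.neg_apply, Finset.sum_neg_distrib, hx, neg_zero]

theorem hart_full (hm : 2 ≤ m) (hζ : IsPrimitiveRoot ζ m) {N s i j : ℕ} (hN : N = i + j + 2)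
    (hj : 1 ≤ j) (hij : j < i)
    {β : Fin N → Fin s} (hβ : Function.Surjective β)
    {f : Fin s → MvPolynomial (Fin N) K} (hf : ∀ k, IsHomogeneous (f k) m)
    (hfβ : ∀ k, f k ∈ supported K {l | β l = k})
    (hsm : ∀ x : Fin N → K, x ≠ 0 → aeval x (∑ k, f k) = 0 →
      ∃ l, aeval x (pderiv l (∑ k, f k)) ≠ 0) (hs : m * j < s) :
      ∃ (r : ℕ) (c : Fin r → Fin N),
        DimAtMost (Ideal.span {∑ k, f k} ⊔ Ideal.span (Set.range fun l => X (c l))) i ∧
        ∀ α : CH (Ideal.span {∑ k, f k}) i, ∃ q : ℚ,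
          α = q • (ratEq (Ideal.span {∑ k, f k}) i).mkQ (cyc (Ideal.span {∑ k, f k}) i
            (Ideal.span {∑ k, f k} ⊔ Ideal.span (Set.range fun l => X (c l)))) := by
  have he := good_zmodChar hζ (n := m) (a := 0) (by rw [pow_zero, mul_one])
  refine chow_of_triv (triv_of_key (e := AddChar.zmodChar m hζ.pow_eq_one) (β := β) ?_ ?_)
  · intro a
    rw [Ideal.span_singleton_le_iff_mem, Ideal.mem_comap,
      (show SF β m (∑ k, f k) from ⟨f, hf, hfβ, rfl⟩).inv he.dvd]
    exact Ideal.mem_span_singleton_self _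
  · intro x hx
    obtain ⟨π, h3, h4⟩ := exists_merge_of_card (t := j) (by rw [Fintype.card_fin]; exact hs) hx
    exact ⟨π, avTriv_smooth he hm hβ hf hfβ hsm (t := i + 1) (c := j + 1) (by omega) (by omega)
      (by omega) (by omega) h3, h4⟩

theorem hart_inv (hm : 2 ≤ m) (hζ : IsPrimitiveRoot ζ m) {N s i j : ℕ} (hN : N = i + j + 2)
    (hj : 1 ≤ j) (hij : j < i)
    (hjs : j < s) {β : Fin N → Fin s} (hβ : Function.Surjective β)
    {f : Fin s → MvPolynomial (Fin N) K} (hf : ∀ k, IsHomogeneous (f k) m)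
    (hfβ : ∀ k, f k ∈ supported K {l | β l = k})
    (hsm : ∀ x : Fin N → K, x ≠ 0 → aeval x (∑ k, f k) = 0 →
      ∃ l, aeval x (pderiv l (∑ k, f k)) ≠ 0) :
      ∃ (r : ℕ) (c : Fin r → Fin N),
        DimAtMost (Ideal.span {∑ k, f k} ⊔ Ideal.span (Set.range fun l => X (c l))) i ∧
        ∀ α : CH (Ideal.span {∑ k, f k}) i,
          (∀ g, blockAct hζ.pow_eq_one (sum_stable hζ.pow_eq_one dvd_rfl hf hfβ) i g α = α) →
          ∃ q : ℚ, α = q • (ratEq (Ideal.span {∑ k, f k}) i).mkQ (cyc (Ideal.span {∑ k, f k}) i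
            (Ideal.span {∑ k, f k} ⊔ Ideal.span (Set.range fun l => X (c l)))) := by
  obtain ⟨r, c, h1, h2⟩ := hart_main hm hζ hN hj hij hjs hβ hf hfβ hsm
    (fun _ => (Fintype.card (Fin s → ZMod m) : ℚ)⁻¹) (by
      intro x hx hπ
      have hx0 : x ≠ 0 := by
        rintro rfl
        apply hπ
        refine ⟨fun k => ⟨min k.val j, by omega⟩, fun l => ?_, fun l => ?_⟩
        · refine ⟨⟨l.val, by omega⟩, ?_⟩
          apply Fin.ext
          simp only
          omega
        · exact Finset.sum_eq_zero fun k _ => rfl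
      rw [← Finset.mul_sum]
      have h1 := sum_ch_eq_zero hx0
      unfold ch at h1
      rw [h1, mul_zero])
  refine ⟨r, c, h1, fun α hα => ?_⟩
  obtain ⟨q, hq⟩ := h2 α
  refine ⟨q, ?_⟩
  rw [← hq, ← Finset.smul_sum, Finset.sum_congr rfl fun g _ => hα g, Finset.sum_const,
    Finset.card_univ, ← Nat.cast_smul_eq_nsmul ℚ, smul_smul, inv_mul_cancel₀ card_ne_zero',
    one_smul]

end main

end Pool.Agent.H835.AV
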