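import Pool.Agent.H835.AV.Step

set_option autoImplicit false
set_option linter.unusedSectionVars false

/-!
# Averages and coordinate hyperplanes
-/

universe u

namespace Pool.Agent.H835.AV

open MvPolynomial Pool.Agent.W5h86.HC

variable {K : Type u} [Field K] {M : ℕ}

/-- The inclusion of the coordinate hyperplane `x u = 0`. -/
def zi (K : Type u) [Field K] (u : Fin (M + 1)) : Matrix (Fin (M + 1)) (Fin M) K :=
  fun i j => if i = u.succAbove j then 1 else 0

lemma lsub_zi_self (u : Fin (M + 1)) : lsub K (zi K u) (X u) = 0 := by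
  rw [lsub_X]
  refine Finset.sum_eq_zero fun j _ => ?_
  have h1 : u ≠ u.succAbove j := fun h => Fin.succAbove_ne u j h.symm
  simp [zi, h1]

lemma lsub_zi_succAbove (u : Fin (M + 1)) (j : Fin M) :
    lsub K (zi K u) (X (u.succAbove j)) = X j := by
  rw [lsub_X, Finset.sum_eq_single j]
  · simp [zi]
  · intro i _ hi
    have h1 : u.succAbove j ≠ u.succAbove i := fun h =>
      hi (Fin.succAbove_right_injective h).symm
    simp [zi, h1]
  · simp

lemma zi_mul (u : Fin (M + 1)) : (zi K u).transpose * zi K u = 1 := by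
  ext i j
  rw [Matrix.mul_apply, Finset.sum_eq_single (u.succAbove i)]
  · simp only [Matrix.transpose_apply, zi, if_true, one_mul, Matrix.one_apply]
    congr 1
    rw [eq_iff_iff]
    exact ⟨fun h => Fin.succAbove_right_injective h, fun h => h ▸ rfl⟩
  · intro k _ hk
    simp [zi, hk]
  · simp

lemma mul_zi (u : Fin (M + 1)) : zi K u * (zi K u).transpose =
    1 - Matrix.vecMulVec (Pi.single u 1) (Pi.single u 1) := by
  ext i j
  rw [Matrix.mul_apply, Matrix.sub_apply, Matrix.vecMulVec_apply]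
  rcases Fin.eq_self_or_eq_succAbove u i with hi | ⟨i', hi⟩
  · rw [hi, Finset.sum_eq_zero]
    · rw [Pi.single_eq_same, one_mul, Matrix.one_apply, Pi.single_apply]
      simp only [eq_comm]
      simp
    · intro k _
      have h1 : u ≠ u.succAbove k := fun h => Fin.succAbove_ne u k h.symm
      simp [zi, h1]
  · rw [Finset.sum_eq_single i']
    · rw [hi]
      simp only [zi, if_true, one_mul, Matrix.one_apply, Matrix.transpose_apply]
      rw [Pi.single_eq_of_ne (Fin.succAbove_ne u i'), zero_mul, sub_zero]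
      simp only [eq_comm]
    · intro k _ hk
      have h1 : i ≠ u.succAbove k := by
        rw [hi]
        exact fun h => hk (Fin.succAbove_right_injective h).symm
      simp [zi, h1]
    · simp

lemma single_vecMul_zi (u : Fin (M + 1)) : Matrix.vecMul (Pi.single u 1) (zi K u) = 0 := by
  rw [Matrix.single_one_vecMul]
  funext j
  have h1 : u ≠ u.succAbove j := fun h => Fin.succAbove_ne u j h.symm
  simp [zi, h1]

lemma isFib_zi (u : Fin (M + 1)) (l : MvPolynomial (Fin (M + 1)) K) :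
    IsFib (lsub K (zi K u)) l where
  graded := homogeneousComponent_lsub _
  den := by
    intro y
    refine ⟨1, lsub K (zi K u).transpose y, 0, isHomogeneous_one _ _, ?_, ?_⟩
    · rw [lsub_param_inv (zi_mul u), map_one, one_mul]
    · intro P hP _ h1
      rw [map_one] at h1
      exact hP.ne_top ((Ideal.eq_top_iff_one _).2 h1)

/-- The subvarieties of the hyperplane. -/
lemma exists_isSub_zi (u : Fin (M + 1)) {t : ℕ} {l : MvPolynomial (Fin (M + 1)) K}
    {P : Ideal (MvPolynomial (Fin (M + 1)) K)} (hP : IsSub t l P) (hr : X u ∈ P) :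
    ∃ P', IsSub t (lsub K (zi K u) l) P' ∧ P'.comap (lsub K (zi K u)) = P := by
  obtain ⟨h1, h2⟩ := isSub_iff.1 hP
  obtain ⟨P', h3, h4⟩ := exists_isSub_param (zi_mul (K := K) u) (mul_zi u) h1 (by
    rw [lform_single]
    exact hr)
  refine ⟨P', isSub_iff.2 ⟨h3, ?_⟩, h4⟩
  rw [← h4, Ideal.mem_comap] at h2
  exact h2

variable {m : ℕ} {ι : Type} [Fintype ι] [DecidableEq ι] [NeZero m] {e : AddChar (ZMod m) K}
  {β : Fin (M + 1) → ι}

lemma ex_self (e : AddChar (ZMod m) K) : ex K e = e := by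
  ext x
  rfl

lemma compat_zi (u : Fin (M + 1)) (a : ι → ZMod m) (f : MvPolynomial (Fin (M + 1)) K) :
    lsub K (zi K u) (sc (wt e β a) f) =
      sc (wt (ex K e) (β ∘ u.succAbove) a) (lsub K (zi K u) f) := by
  have h : (lsub K (zi K u)).comp (sc (wt e β a)) =
      (sc (wt (ex K e) (β ∘ u.succAbove) a)).comp (lsub K (zi K u)) := by
    apply MvPolynomial.algHom_ext
    intro i
    rw [AlgHom.comp_apply, AlgHom.comp_apply, sc_X, map_mul, lsub_C]
    rcases Fin.eq_self_or_eq_succAbove u i with hi | ⟨j, hi⟩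
    · rw [hi, lsub_zi_self, map_zero, mul_zero]
    · rw [hi, lsub_zi_succAbove, sc_X]
      rfl
  exact DFunLike.congr_fun h f

/-- the image of `I` in the hyperplane -/
noncomputable def zI (u : Fin (M + 1)) (I : Ideal (MvPolynomial (Fin (M + 1)) K)) :
    Ideal (MvPolynomial (Fin M) K) := I.map (lsub K (zi K u) : _ →+* _)

lemma le_comap_zI (u : Fin (M + 1)) (I : Ideal (MvPolynomial (Fin (M + 1)) K)) :
    I ≤ (zI u I).comap (lsub K (zi K u)) := Ideal.le_comap_map

lemma zI_le {u : Fin (M + 1)} {I : Ideal (MvPolynomial (Fin (M + 1)) K)}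
    {P' : Ideal (MvPolynomial (Fin M) K)} (h : I ≤ P'.comap (lsub K (zi K u))) :
    zI u I ≤ P' := Ideal.map_le_iff_le_comap.2 h

/-- The cycles in a hyperplane. -/
theorem hyp_step (u : Fin (M + 1)) {I : Ideal (MvPolynomial (Fin (M + 1)) K)}
    (hst : Stable e β I) {t : ℕ} {l : MvPolynomial (Fin (M + 1)) K}
    (hl : ∀ a : ι → ZMod m, Eig (wt e β a) l)
    (hl' : ∀ a : ι → ZMod m, Eig (wt e (β ∘ u.succAbove) a) (lsub K (zi K u) l))
    {P : Ideal (MvPolynomial (Fin (M + 1)) K)} (hP : IsSub t l P) (hIP : I ≤ P) (hu : X u ∈ P)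
    (hz : ∀ P' : Ideal (MvPolynomial (Fin M) K), IsSub t (lsub K (zi K u) l) P' → zI u I ≤ P' →
      av e (β ∘ u.succAbove) (pt P') ∈ IRel (zI u I) t (lsub K (zi K u) l)) :
    av e β (pt P) ∈ IRel I t l := by
  obtain ⟨P', hP', hPP'⟩ := exists_isSub_zi u hP hu
  have h1 := hz P' hP' (zI_le (by rw [hPP']; exact hIP))
  have h2 := av_mem_of_av_mem (isFib_zi u l) (trdeg_self_eq (K := K)) (t := t)
    (fun a f => compat_zi (e := e) (β := β) u a f)
    (fun a => by
      rw [ex_self]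
      exact hl' a) hl (le_comap_zI u I) hst hP' (by
      rw [ex_self]
      exact h1) (by
      intro Q₂ P₂ _ hQP₂ hP₂ hno
      exfalso
      apply hno
      have hmem : X u ∈ P₂ := hQP₂ (by
        rw [Ideal.mem_comap, lsub_zi_self]
        exact Q₂.zero_mem)
      rw [add_zero] at hP₂
      exact exists_isSub_zi u hP₂ hmem)
  rw [hPP', add_zero] at h2
  exact h2

/-- Cycles of codimension zero in a hyperplane section. -/
theorem hyp_top (u : Fin (M + 1)) {I : Ideal (MvPolynomial (Fin (M + 1)) K)}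
    (hst : Stable e β I) {t : ℕ} {l : MvPolynomial (Fin (M + 1)) K}
    (hl : ∀ a : ι → ZMod m, Eig (wt e β a) l)
    {P Q : Ideal (MvPolynomial (Fin (M + 1)) K)} (hP : IsSub t l P) (hu : X u ∈ P)
    (hQ : IsSub (t + 1) l Q) (hIQ : I ≤ Q) (hQP : Q ≤ P)
    (hconj : ∀ P₁ P₂ : Ideal (MvPolynomial (Fin M) K), IsSub t (lsub K (zi K u) l) P₁ →
      IsSub t (lsub K (zi K u) l) P₂ → zI u I ≤ P₁ → zI u I ≤ P₂ → ∃ a : ι → ZMod m,
        P₂ = P₁.comap (sc (wt e (β ∘ u.succAbove) a)))
    (hdim : ∀ Q' : Ideal (MvPolynomial (Fin M) K), IsSub (t + 1) (lsub K (zi K u) l) Q' →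
      ¬ zI u I ≤ Q') :
    av e β (pt P) ∈ IRel I t l := by
  have huQ : X u ∉ Q := by
    intro h1
    obtain ⟨Q', hQ', hQQ'⟩ := exists_isSub_zi u hQ h1
    exact hdim Q' hQ' (zI_le (by rw [hQQ']; exact hIQ))
  obtain ⟨P₁, hP₁, hPP₁⟩ := exists_isSub_zi u hP hu
  have hIP : I ≤ P := hIQ.trans hQP
  refine av_pt_mem_of_conj (c := idiv t l Q (X u))
    (idiv_support_finite hQ huQ) (fun P' => idiv_nonneg _ _ _ _ _) ?_ ?_ ?_
  · rw [idiv_of hP, Nat.cast_ne_zero]
    apply mult_ne_zero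
    refine mem_minimalPrimes (K := K) hP.prime hQ.prime hP.trdeg hQ.trdeg le_sup_left huQ
      (Ideal.mem_sup_right (Ideal.mem_span_singleton_self _)) (sup_le hQP ?_)
    rw [Ideal.span_singleton_le_iff_mem]
    exact hu
  · intro P₂ hP₂
    obtain ⟨h1, h2, h3⟩ := le_of_idiv_ne_zero hP₂
    obtain ⟨P₃, hP₃, hPP₃⟩ := exists_isSub_zi u h1 h3
    obtain ⟨a, ha⟩ := hconj P₁ P₃ hP₁ hP₃ (zI_le (by rw [hPP₁]; exact hIP))
      (zI_le (by rw [hPP₃]; exact hIQ.trans h2))
    refine ⟨a, ?_⟩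
    rw [← hPP₃, ha]
    have h4 := comap_comap_compat (fun f => compat_zi (e := e) (β := β) u a f) P₁
    rw [ex_self] at h4
    rw [h4, hPP₁]
  · exact iRel_le_av hst hl (Submodule.subset_span
      ⟨Q, X u, 1, hQ, hIQ, isHomogeneous_X _ _, huQ, rfl⟩)

end Pool.Agent.H835.AV
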