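import Pool.Agent.H835.AV.Border

set_option autoImplicit false
set_option linter.unusedSectionVars false

/-!
# Nonsingular forms are irreducible
-/

universe u

namespace Pool.Agent.H835.AV

open MvPolynomial Pool.Agent.W5h86.HC

section zero

variable {K : Type u} [Field K] {N : ℕ}

lemma isSub_irrelevant : IsSub 0 1 (RingHom.ker (constantCoeff : MvPolynomial (Fin N) K →+* K)) where
  prime := RingHom.ker_isPrime _
  hom := by
    intro f hf i
    rw [RingHom.mem_ker] at hf ⊢
    change coeff 0 (homogeneousComponent i f) = 0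
    rw [coeff_homogeneousComponent]
    split_ifs
    · exact hf
    · rfl
  trdeg := by
    obtain ⟨n, hn⟩ := exists_trdeg_eq (K := K)
      (RingHom.ker (constantCoeff : MvPolynomial (Fin N) K →+* K))
    have h1 := dimLe_all (K := K) 0 (⊥ : Ideal (MvPolynomial (Fin N) K)) _ (RingHom.ker_isPrime
      (constantCoeff : MvPolynomial (Fin N) K →+* K)) (by
        refine sup_le bot_le ?_
        rw [Ideal.span_le]
        rintro _ ⟨j, rfl⟩
        rw [SetLike.mem_coe, RingHom.mem_ker]
        exact constantCoeff_X _ _) n hn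
    rw [hn]
    have h2 : n = 0 := by omega
    rw [h2]
  notMem := by
    rw [RingHom.mem_ker, map_one]
    exact one_ne_zero

variable [IsAlgClosed K]

/-- Less than `N` forms of positive degree have a common nontrivial zero. -/
theorem exists_common_zero {ρ : ℕ} (G : Fin ρ → MvPolynomial (Fin N) K)
    (hG : ∀ i, ∃ d, IsHomogeneous (G i) d) (hG0 : ∀ i, constantCoeff (G i) = 0)
    (hρ : ρ + 1 ≤ N) : ∃ a : Fin N → K, a ≠ 0 ∧ ∀ i, aeval a (G i) = 0 := by
  obtain ⟨Q, hQ, hGQ, -⟩ := exists_isSub_component (t := 0) G hG isSub_irrelevant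
    (fun i => (RingHom.mem_ker).2 (hG0 i)) (by omega)
  obtain ⟨j, hj⟩ : ∃ j, (X j : MvPolynomial (Fin N) K) ∉ Q := by
    by_contra hcon
    push Not at hcon
    have h1 := dimLe_all (K := K) 0 (⊥ : Ideal (MvPolynomial (Fin N) K)) Q hQ.prime (by
        refine sup_le bot_le ?_
        rw [Ideal.span_le]
        rintro _ ⟨j, rfl⟩
        exact hcon j) _ hQ.trdeg
    omega
  have hprime := hQ.prime
  rw [← IsPrime.vanishingIdeal_zeroLocus (K := K) Q, mem_vanishingIdeal_iff] at hj
  push Not at hj
  obtain ⟨a, ha, haj⟩ := hj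
  rw [aeval_X] at haj
  rw [mem_zeroLocus_iff] at ha
  refine ⟨a, ?_, fun i => ha _ (hGQ i)⟩
  rintro rfl
  exact haj rfl

/-- **Nonsingular forms in at least three variables are irreducible.** -/
theorem prime_of_smooth {F : MvPolynomial (Fin N) K} {n : ℕ} (hn : 1 ≤ n)
    (hF : IsHomogeneous F n) {B : Finset (Fin N)} (hB : F ∈ supported K (B : Set (Fin N)))
    (h3 : 3 ≤ B.card) (hsm : ∀ x : Fin N → K, x ≠ 0 → (∀ j, j ∉ B → x j = 0) →
      aeval x F = 0 → ∃ j, aeval x (pderiv j F) ≠ 0) : Prime F := by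
  classical
  have hF0 : F ≠ 0 := by
    rintro rfl
    obtain ⟨b, hb⟩ := Finset.card_pos.1 (show 0 < B.card by omega)
    obtain ⟨j, hj⟩ := hsm (Pi.single b 1) (by
      intro h
      have h1 := congrFun h b
      rw [Pi.single_eq_same] at h1
      exact one_ne_zero h1) (fun j hj => Pi.single_eq_of_ne (by
        rintro rfl
        exact hj hb) _) (map_zero _)
    rw [map_zero, map_zero] at hj
    exact hj rfl
  have hunit : ∀ g : MvPolynomial (Fin N) K, g ≠ 0 → ∀ d, IsHomogeneous g d →
      ¬ IsUnit g → constantCoeff g = 0 := by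
    intro g hg0 d hd hu
    by_contra hcon
    have h4 : d = 0 := by
      have h5 := hd (show coeff 0 g ≠ 0 from hcon)
      simpa using h5.symm
    rw [h4] at hd
    obtain ⟨c, hc⟩ := (totalDegree_eq_zero_iff_eq_C (p := g)).1 (by
      have := hd.totalDegree_le
      omega) |> fun h => (⟨_, h⟩ : ∃ c, g = C c)
    apply hu
    rw [hc] at hg0 ⊢
    refine (isUnit_iff_ne_zero.2 ?_).map C
    rintro rfl
    rw [map_zero] at hg0
    exact hg0 rfl
  rw [← irreducible_iff_prime]
  refine ⟨?_, ?_⟩
  · intro hu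
    obtain ⟨a, ha⟩ := exists_common_zero (N := N) (fun _ : Fin 0 => (0 : MvPolynomial (Fin N) K))
      (fun i => i.elim0) (fun i => i.elim0) (by
        have := Finset.card_le_univ B
        rw [Fintype.card_fin] at this
        omega)
    have h4 : constantCoeff F = 0 := by
      by_contra hcon
      have h5 := hF (show coeff 0 F ≠ 0 from hcon)
      have h6 : n = 0 := by simpa using h5.symm
      omega
    have h5 := hu.map (constantCoeff : MvPolynomial (Fin N) K →+* K)
    rw [h4] at h5
    exact not_isUnit_zero h5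
  · intro g h hgh
    by_contra hcon
    push Not at hcon
    have hg0 : g ≠ 0 := by
      rintro rfl
      rw [zero_mul] at hgh
      exact hF0 hgh
    have hh0 : h ≠ 0 := by
      rintro rfl
      rw [mul_zero] at hgh
      exact hF0 hgh
    obtain ⟨d₁, hd₁⟩ := isHomogeneous_of_dvd hF hF0 ⟨h, hgh⟩
    obtain ⟨d₂, hd₂⟩ := isHomogeneous_of_dvd hF hF0 ⟨g, by rw [hgh, mul_comm]⟩
    have hgB := mem_supported_of_dvd hB hF0 ⟨h, hgh⟩
    let eq := (Bᶜ.equivFinOfCardEq (show Bᶜ.card = N - B.card by
      rw [Finset.card_compl, Fintype.card_fin])).symm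
    have hBN := Finset.card_le_univ B
    rw [Fintype.card_fin] at hBN
    obtain ⟨a, ha0, ha⟩ := exists_common_zero (N := N)
      (Fin.cons g (Fin.cons h fun i => X ((eq i : {x // x ∈ Bᶜ}) : Fin N)) :
        Fin (N - B.card + 2) → MvPolynomial (Fin N) K)
      (by
        intro i
        refine Fin.cases ?_ (fun i => ?_) i
        · exact ⟨d₁, hd₁⟩
        · refine Fin.cases ?_ (fun i => ?_) i
          · exact ⟨d₂, hd₂⟩
          · exact ⟨1, isHomogeneous_X _ _⟩)
      (by
        intro i
        refine Fin.cases ?_ (fun i => ?_) i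
        · exact hunit g hg0 d₁ hd₁ hcon.1
        · refine Fin.cases ?_ (fun i => ?_) i
          · exact hunit h hh0 d₂ hd₂ hcon.2
          · exact constantCoeff_X _ _) (by omega)
    have hga : aeval a g = 0 := ha 0
    have hha : aeval a h = 0 := ha 1
    have hBa : ∀ j, j ∉ B → a j = 0 := by
      intro j hj
      have h4 := ha (Fin.succ (Fin.succ (eq.symm ⟨j, Finset.mem_compl.2 hj⟩)))
      rw [Fin.cons_succ, Fin.cons_succ, Equiv.apply_symm_apply, aeval_X] at h4
      exact h4
    obtain ⟨j, hj⟩ := hsm a ha0 hBa (by rw [hgh, map_mul, hga, zero_mul])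
    apply hj
    rw [hgh, Derivation.leibniz, smul_eq_mul, smul_eq_mul, map_add, map_mul, map_mul, hga, hha,
      zero_mul, zero_mul, add_zero]

end zero

end Pool.Agent.H835.AV
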