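import Pool.Agent.H835.AV.LinSec
import Pool.Agent.H835.AV.SmoothSum

set_option autoImplicit false
set_option linter.unusedSectionVars false

/-!
# Linear sections are rationally equivalent
-/

universe u

namespace Pool.Agent.H835.AV

open MvPolynomial Pool.Agent.W5h86 Pool.Agent.W5h86.HC

section prim

variable {K : Type u} [Field K]

/-- Hypersurfaces. -/
lemma isSub_span_of_prime {t : ℕ} {p : MvPolynomial (Fin (t + 1)) K} (hp : Prime p) {d : ℕ}
    (hd : IsHomogeneous p d) : IsSub t 1 (Ideal.span {p}) := by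
  have h0 : constantCoeff p = 0 := by
    rcases Nat.eq_zero_or_pos d with rfl | hd0
    · exfalso
      rw [← totalDegree_zero_iff_isHomogeneous, totalDegree_eq_zero_iff_eq_C] at hd
      apply hp.not_isUnit
      have h1 : coeff 0 p ≠ 0 := by
        intro h2
        rw [h2, map_zero] at hd
        exact hp.ne_zero hd
      rw [hd]
      exact (IsUnit.mk0 _ h1).map C
    · by_contra hcon
      have h1 := hd hcon
      rw [map_zero] at h1
      omega
  have key : ∀ k, k ≤ t → ∃ Q, IsSub k 1 Q ∧ p ∈ Q := by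
    intro k
    induction k with
    | zero => exact fun _ => ⟨_, isSub_irrelevant, RingHom.mem_ker.2 h0⟩
    | succ k ih =>
      intro hk
      obtain ⟨Q, hQ, hpQ⟩ := ih (by omega)
      obtain ⟨Q', h1, h2, -⟩ := exists_isSub_component (fun _ : Fin 1 => p) (fun _ => ⟨d, hd⟩) hQ
        (fun _ => hpQ) (by omega)
      exact ⟨Q', h1, h2 0⟩
  obtain ⟨Q, hQ, hpQ⟩ := key t le_rfl
  obtain ⟨g, hg, hgp, rfl⟩ := exists_generator hp.ne_zero hQ.prime hQ.trdeg hpQ
  have h1 : Associated g p := hg.associated_of_dvd hp hgp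
  rw [← Ideal.span_singleton_eq_span_singleton.2 h1]
  exact hQ

lemma idiv_unit {N t : ℕ} {Q : Ideal (MvPolynomial (Fin N) K)} {v : MvPolynomial (Fin N) K}
    (hv : IsUnit v) : idiv t 1 Q v = 0 := by
  funext P
  by_cases hP : IsSub t 1 P
  · rw [idiv_of hP, mult_eq_zero, Pi.zero_apply, Nat.cast_zero]
    intro h
    exact hP.prime.ne_top (Ideal.eq_top_of_isUnit_mem _
      (h (Ideal.mem_sup_right (Ideal.mem_span_singleton_self v))) hv)
  · rw [idiv_of_not hP, Pi.zero_apply]

/-- Two hyperplane sections of a hypersurface are equivalent. -/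
theorem lemY {t k : ℕ} {a b : MvPolynomial (Fin (t + 2)) K} (ha : Prime a) (hb : Prime b)
    (hak : IsHomogeneous a k) (hbk : IsHomogeneous b k) (G : MvPolynomial (Fin (t + 2)) K) :
    G ≠ 0 → (∃ d, IsHomogeneous G d) → ¬ a ∣ G → ¬ b ∣ G →
      idiv t 1 (Ideal.span {a}) G - idiv t 1 (Ideal.span {b}) G ∈ IRatEq (Ideal.span {G}) t := by
  have hA := isSub_span_of_prime ha hak
  have hB := isSub_span_of_prime hb hbk
  induction G using WfDvdMonoid.induction_on_irreducible with
  | zero => exact fun h => absurd rfl h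
  | unit v hv =>
    intro _ _ _ _
    rw [idiv_unit hv, idiv_unit hv, sub_zero]
    exact Submodule.zero_mem _
  | mul G p hG hp ih =>
    rintro h0 ⟨d, hd⟩ haG hbG
    have hp' : Prime p := hp.prime
    obtain ⟨dp, hdp⟩ := isHomogeneous_of_dvd hd h0 (dvd_mul_right p G)
    have hdG := isHomogeneous_of_dvd hd h0 (dvd_mul_left G p)
    have hap : ¬ a ∣ p := fun h => haG (h.mul_right G)
    have haG' : ¬ a ∣ G := fun h => haG (h.mul_left p)
    have hbp : ¬ b ∣ p := fun h => hbG (h.mul_right G)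
    have hbG' : ¬ b ∣ G := fun h => hbG (h.mul_left p)
    have h1 := iRatEq_anti (I := Ideal.span {p * G}) (I' := Ideal.span {G}) (by
      rw [Ideal.span_singleton_le_iff_mem]
      exact Ideal.mul_mem_left _ _ (Ideal.mem_span_singleton_self G)) t (ih hG hdG haG' hbG')
    have hP := isSub_span_of_prime hp' hdp
    have hcomm : ∀ c : MvPolynomial (Fin (t + 2)) K, idiv t 1 (Ideal.span {c}) p =
        idiv t 1 (Ideal.span {p}) c := by
      intro c
      unfold idiv
      rw [sup_comm]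
    have hapm : a ∉ Ideal.span {p} := by
      rw [Ideal.mem_span_singleton]
      intro h
      exact hap ((hp'.associated_of_dvd ha h).symm.dvd)
    have hbpm : b ∉ Ideal.span {p} := by
      rw [Ideal.mem_span_singleton]
      intro h
      exact hbp ((hp'.associated_of_dvd hb h).symm.dvd)
    have h2 : idiv t 1 (Ideal.span {a}) p - idiv t 1 (Ideal.span {b}) p ∈
        IRatEq (Ideal.span {p * G}) t := by
      rw [hcomm, hcomm]
      exact Submodule.subset_span ⟨Ideal.span {p}, a, b, k, hP, by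
        rw [Ideal.span_singleton_le_iff_mem]
        exact Ideal.mul_mem_right _ _ (Ideal.mem_span_singleton_self p), hak, hbk, hapm, hbpm, rfl⟩
    rw [HD.idiv_mul hA (by rwa [Ideal.mem_span_singleton]) (by rwa [Ideal.mem_span_singleton]),
      HD.idiv_mul hB (by rwa [Ideal.mem_span_singleton]) (by rwa [Ideal.mem_span_singleton])]
    have h3 := Submodule.add_mem _ h2 h1
    convert h3 using 1
    abel

end prim

section sec

variable {K : Type u} [Field K] {N : ℕ}

/-- The class of a linear section. -/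
noncomputable def lsec (F : MvPolynomial (Fin N) K) (t : ℕ) (U : Submodule K (Fin N → K)) :
    Ideal (MvPolynomial (Fin N) K) → ℚ := icyc t (VI U ⊔ Ideal.span {F})

lemma idiv_eq_icyc (t : ℕ) (Q : Ideal (MvPolynomial (Fin N) K)) (G : MvPolynomial (Fin N) K) :
    idiv t 1 Q G = icyc t (Q ⊔ Ideal.span {G}) := rfl

lemma lsec_eq_push {F : MvPolynomial (Fin N) K} {t n : ℕ} {V U : Submodule K (Fin N → K)}
    {A : Matrix (Fin N) (Fin n) K} {A' : Matrix (Fin n) (Fin N) K} (h : A' * A = 1)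
    (hA : ∀ x, x ∈ V ↔ ∃ y, A.mulVec y = x) (hUV : U ≤ V) :
    lsec F t U = push (lsub K A) 1 t (idiv t 1 (VI (U.comap A.mulVecLin)) (lsub K A F)) := by
  rw [idiv_eq_icyc, push_icyc_lsub h, comap_sup_span h, VI_comap hA hUV]
  rfl

variable [Infinite K]

lemma prime_lform {n : ℕ} {U : Submodule K (Fin (n + 1) → K)} (hn : Module.finrank K U = n)
    {c : Fin (n + 1) → K} (hc : c ≠ 0) (h : VI U = Ideal.span {lform c}) : Prime (lform c) := by
  have h1 := (isSub_VI U hn).prime
  rw [h] at h1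
  refine (Ideal.span_singleton_prime ?_).1 h1
  intro h0
  apply hc
  funext i
  have h2 := congrArg (eval (Pi.single i (1 : K))) h0
  unfold lform at h2
  rw [map_sum, map_zero, Finset.sum_eq_single i] at h2
  · simpa using h2
  · intro j _ hj
    simp [hj]
  · simp

/-- Linear sections in a common linear subspace. -/
lemma lsec_sub_mem_of_le {F : MvPolynomial (Fin N) K} {n t : ℕ} (hF : IsHomogeneous F n)
    {V U₁ U₂ : Submodule K (Fin N → K)} (hV : Module.finrank K V = t + 2)
    (h₁ : Module.finrank K U₁ = t + 1) (h₂ : Module.finrank K U₂ = t + 1) (hU₁ : U₁ ≤ V)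
    (hU₂ : U₂ ≤ V) (hF₁ : F ∉ VI U₁) (hF₂ : F ∉ VI U₂) :
    lsec F t U₁ - lsec F t U₂ ∈ IRatEq (Ideal.span {F}) t := by
  obtain ⟨A, A', hA1, hA2⟩ := exists_par V hV
  have g₁ : Module.finrank K (U₁.comap A.mulVecLin) = t + 1 := by
    rw [finrank_comap_mulVec hA1 hA2 hU₁, h₁]
  have g₂ : Module.finrank K (U₂.comap A.mulVecLin) = t + 1 := by
    rw [finrank_comap_mulVec hA1 hA2 hU₂, h₂]
  obtain ⟨c₁, hc₁, e₁⟩ := exists_lform_VI g₁
  obtain ⟨c₂, hc₂, e₂⟩ := exists_lform_VI g₂
  have p₁ := prime_lform g₁ hc₁ e₁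
  have p₂ := prime_lform g₂ hc₂ e₂
  have m₁ : ¬ lform c₁ ∣ lsub K A F := by
    rw [← Ideal.mem_span_singleton, ← e₁]
    intro h
    apply hF₁
    rw [← VI_comap hA2 hU₁]
    exact h
  have m₂ : ¬ lform c₂ ∣ lsub K A F := by
    rw [← Ideal.mem_span_singleton, ← e₂]
    intro h
    apply hF₂
    rw [← VI_comap hA2 hU₂]
    exact h
  have hne : lsub K A F ≠ 0 := by
    intro h
    apply m₁
    rw [h]
    exact dvd_zero _
  have h3 := lemY p₁ p₂ (isHomogeneous_lform c₁) (isHomogeneous_lform c₂) (lsub K A F) hne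
    ⟨n, isHomogeneous_lsub A hF⟩ m₁ m₂
  have h4 := push_iRatEq_lsub hA1 (I := Ideal.span {F}) (I' := Ideal.span {lsub K A F}) (by
    rw [Ideal.span_singleton_le_iff_mem, Ideal.mem_comap]
    exact Ideal.mem_span_singleton_self _) t (Submodule.mem_map_of_mem h3)
  rw [map_sub, ← e₁, ← e₂, ← lsec_eq_push hA1 hA2 hU₁, ← lsec_eq_push hA1 hA2 hU₂] at h4
  exact h4

/-- Hyperplanes in a linear subspace which contain a given linear subspace. -/
lemma exists_hyp_between {W U : Submodule K (Fin N → K)} (hWU : W ≤ U) (hne : W ≠ U) :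
    ∃ H, W ≤ H ∧ H ≤ U ∧ Module.finrank K H + 1 = Module.finrank K U := by
  obtain ⟨x, hxU, hxW⟩ := SetLike.exists_of_lt (lt_of_le_of_ne hWU hne)
  obtain ⟨f, hfx, hfW⟩ := Submodule.exists_le_ker_of_notMem hxW
  let g : Module.Dual K U := f.domRestrict U
  have hg : g ≠ 0 := by
    intro h
    apply hfx
    exact LinearMap.congr_fun h ⟨x, hxU⟩
  have h1 := Module.Dual.finrank_ker_add_one_of_ne_zero hg
  refine ⟨(LinearMap.ker g).map U.subtype, ?_, ?_, ?_⟩
  · intro y hy
    exact ⟨⟨y, hWU hy⟩, LinearMap.mem_ker.1 (hfW hy), rfl⟩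
  · rintro _ ⟨y, -, rfl⟩
    exact y.2
  · rw [← h1, Submodule.finrank_map_subtype_eq]

lemma lsec_sub_mem_of_common {F : MvPolynomial (Fin N) K} {n t : ℕ} (hF : IsHomogeneous F n)
    {a : Fin N → K} (ha : eval a F ≠ 0) (d : ℕ) : ∀ (U₁ U₂ : Submodule K (Fin N → K)),
    Module.finrank K U₁ = t + 1 → Module.finrank K U₂ = t + 1 → a ∈ U₁ → a ∈ U₂ →
    t + 1 ≤ Module.finrank K (U₁ ⊓ U₂ : Submodule K (Fin N → K)) + d →
    lsec F t U₁ - lsec F t U₂ ∈ IRatEq (Ideal.span {F}) t := by
  induction d with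
  | zero =>
    intro U₁ U₂ h₁ h₂ _ _ h
    have e₁ : U₁ ⊓ U₂ = U₁ := Submodule.eq_of_le_of_finrank_le inf_le_left (by omega)
    have e₂ : U₁ ⊓ U₂ = U₂ := Submodule.eq_of_le_of_finrank_le inf_le_right (by omega)
    have e₃ : U₁ = U₂ := e₁.symm.trans e₂
    rw [e₃, sub_self]
    exact Submodule.zero_mem _
  | succ d ih =>
    intro U₁ U₂ h₁ h₂ ha₁ ha₂ h
    by_cases hle : U₂ ≤ U₁
    · have e₁ : U₂ = U₁ := Submodule.eq_of_le_of_finrank_le hle (by omega)
      rw [e₁, sub_self]
      exact Submodule.zero_mem _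
    · obtain ⟨b, hb₂, hb₁⟩ := SetLike.not_le_iff_exists.1 hle
      have hne : U₁ ⊓ U₂ ≠ U₁ := by
        intro h3
        apply hle
        have h4 : U₁ ≤ U₂ := inf_eq_left.1 h3
        exact (Submodule.eq_of_le_of_finrank_le h4 (by omega)).ge
      obtain ⟨H, hH1, hH2, hH3⟩ := exists_hyp_between inf_le_left hne
      have hbH : b ∉ H := fun h3 => hb₁ (hH2 h3)
      have hU₃ : Module.finrank K (H ⊔ Submodule.span K {b} : Submodule K (Fin N → K)) = t + 1 := by
        rw [Submodule.finrank_sup_span_singleton hbH]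
        omega
      have hV : Module.finrank K (U₁ ⊔ Submodule.span K {b} : Submodule K (Fin N → K)) =
          t + 2 := by
        rw [Submodule.finrank_sup_span_singleton hb₁]
        omega
      have haH : a ∈ H := hH1 ⟨ha₁, ha₂⟩
      have h3 := lsec_sub_mem_of_le hF hV h₁ hU₃ le_sup_left (sup_le_sup_right hH2 _)
        (fun h4 => ha (h4 a ha₁)) (fun h4 => ha (h4 a (Submodule.mem_sup_left haH)))
      have hb3 : b ∈ (H ⊔ Submodule.span K {b} : Submodule K (Fin N → K)) :=
        Submodule.mem_sup_right (Submodule.mem_span_singleton_self b)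
      have h5 := ih (H ⊔ Submodule.span K {b}) U₂ hU₃ h₂ (Submodule.mem_sup_left haH) ha₂ (by
        have h6 : (U₁ ⊓ U₂) ⊔ Submodule.span K {b} ≤ (H ⊔ Submodule.span K {b}) ⊓ U₂ := by
          refine le_inf (sup_le_sup_right hH1 _) (sup_le inf_le_right ?_)
          rw [Submodule.span_singleton_le_iff_mem]
          exact hb₂
        have h7 := Submodule.finrank_mono h6
        rw [Submodule.finrank_sup_span_singleton (p := U₁ ⊓ U₂) (fun h8 => hb₁ h8.1)] at h7
        omega)
      have h6 := Submodule.add_mem _ h3 h5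
      rw [sub_add_sub_cancel] at h6
      exact h6

/-- **Linear sections of a hypersurface are rationally equivalent.** -/
theorem lsec_sub_mem {F : MvPolynomial (Fin N) K} {n t : ℕ} (hF : IsHomogeneous F n)
    (ht : 1 ≤ t) {U₁ U₂ : Submodule K (Fin N → K)} (h₁ : Module.finrank K U₁ = t + 1)
    (h₂ : Module.finrank K U₂ = t + 1) (hF₁ : F ∉ VI U₁) (hF₂ : F ∉ VI U₂) :
    lsec F t U₁ - lsec F t U₂ ∈ IRatEq (Ideal.span {F}) t := by
  rw [mem_VI] at hF₁ hF₂
  push Not at hF₁ hF₂
  obtain ⟨a₁, ha₁, hFa₁⟩ := hF₁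
  obtain ⟨a₂, ha₂, hFa₂⟩ := hF₂
  by_cases h21 : a₂ ∈ U₁
  · exact lsec_sub_mem_of_common hF hFa₂ (t + 1) U₁ U₂ h₁ h₂ h21 ha₂ (by omega)
  · have hle : Submodule.span K {a₁} ≤ U₁ := by
      rw [Submodule.span_singleton_le_iff_mem]
      exact ha₁
    have hne : Submodule.span K {a₁} ≠ U₁ := by
      intro h3
      have h4 : Module.finrank K (Submodule.span K {a₁} : Submodule K (Fin N → K)) ≤ 1 :=
        (finrank_span_le_card ({a₁} : Set (Fin N → K))).trans (by simp)
      rw [h3, h₁] at h4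
      omega
    obtain ⟨H, hH1, hH2, hH3⟩ := exists_hyp_between hle hne
    have haH : a₁ ∈ H := hH1 (Submodule.mem_span_singleton_self a₁)
    have hU₃ : Module.finrank K (H ⊔ Submodule.span K {a₂} : Submodule K (Fin N → K)) = t + 1 := by
      rw [Submodule.finrank_sup_span_singleton fun h3 => h21 (hH2 h3)]
      omega
    have h3 := lsec_sub_mem_of_common hF hFa₁ (t + 1) U₁ (H ⊔ Submodule.span K {a₂}) h₁ hU₃ ha₁
      (Submodule.mem_sup_left haH) (by omega)
    have h4 := lsec_sub_mem_of_common hF hFa₂ (t + 1) (H ⊔ Submodule.span K {a₂}) U₂ hU₃ h₂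
      (Submodule.mem_sup_right (Submodule.mem_span_singleton_self a₂)) ha₂ (by omega)
    have h5 := Submodule.add_mem _ h3 h4
    rw [sub_add_sub_cancel] at h5
    exact h5

end sec

end Pool.Agent.H835.AV
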