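import Pool.Agent.H835.AV.GenE
import Pool.Agent.H835.AV.Desc

set_option autoImplicit false
set_option linter.unusedSectionVars false

/-!
# Linear subspaces and cycles
-/

universe u

namespace Pool.Agent.H835.AV

open MvPolynomial Pool.Agent.W5h86 Pool.Agent.W5h86.HC

section surj

variable {K : Type u} [Field K] {N n : ℕ} {A : Matrix (Fin N) (Fin n) K}
  {A' : Matrix (Fin n) (Fin N) K}

lemma lsub_inv (h : A' * A = 1) (y : MvPolynomial (Fin n) K) :
    lsub K A (lsub K A' y) = y := by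
  rw [lsub_lsub, h, lsub_one]
  rfl

lemma lsub_surj (h : A' * A = 1) : Function.Surjective (lsub K A) := fun y => ⟨_, lsub_inv h y⟩

lemma isFib_lsub (h : A' * A = 1) : IsFib (lsub K A) (1 : MvPolynomial (Fin N) K) where
  graded := homogeneousComponent_lsub _
  den := by
    intro y
    refine ⟨1, lsub K A' y, 0, isHomogeneous_one _ _, ?_, ?_⟩
    · rw [lsub_inv h, map_one, one_mul]
    · intro P hP _ h1
      rw [map_one] at h1
      exact hP.ne_top ((Ideal.eq_top_iff_one _).2 h1)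

lemma isSub_comap_lsub (h : A' * A = 1) {t : ℕ} {P' : Ideal (MvPolynomial (Fin n) K)}
    (hP : IsSub t 1 P') : IsSub t 1 (P'.comap (lsub K A)) :=
  (isFib_lsub (K := K) h).isSub_comap (t := t) (trdeg_self_eq) (P' := P')
    (by rw [map_one]; exact hP)

/-- The subvarieties of a linear subspace. -/
lemma exists_isSub_lsub (h : A' * A = 1) {t : ℕ} {P : Ideal (MvPolynomial (Fin N) K)}
    (hP : IsSub t 1 P) (hker : ∀ f, lsub K A f = 0 → f ∈ P) :
    ∃ P', IsSub t 1 P' ∧ P'.comap (lsub K A) = P := by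
  have hprime := hP.prime
  obtain ⟨t', h3, h4, h5⟩ := (isFib_lsub (K := K) h).exists_isSub (trdeg_self_eq) hP
    ((HC.cls P : MvPolynomial (Fin N) K →+* FF P).comp
      (lsub K A' : MvPolynomial (Fin n) K →+* MvPolynomial (Fin N) K)) (by
      intro f
      change HC.cls P (lsub K A' (lsub K A f)) = 0 ↔ _
      rw [cls_eq_zero]
      have h6 : f - lsub K A' (lsub K A f) ∈ P := by
        apply hker
        rw [map_sub, lsub_inv h, sub_self]
      constructor
      · intro h7
        have h8 := P.add_mem h6 h7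
        rw [sub_add_cancel] at h8
        exact h8
      · intro h7
        have h8 := P.sub_mem h7 h6
        rw [sub_sub_cancel] at h8
        exact h8)
  rw [add_zero] at h3
  subst h3
  rw [map_one] at h4
  exact ⟨_, h4, h5⟩

lemma comap_sup_span (h : A' * A = 1) (Q' : Ideal (MvPolynomial (Fin n) K))
    (F : MvPolynomial (Fin N) K) :
    (Q' ⊔ Ideal.span {lsub K A F}).comap (lsub K A) = Q'.comap (lsub K A) ⊔ Ideal.span {F} := by
  apply le_antisymm
  · intro f hf
    rw [Ideal.mem_comap] at hf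
    obtain ⟨q, hq, g, hg, hqg⟩ := Submodule.mem_sup.1 hf
    obtain ⟨a, rfl⟩ := Ideal.mem_span_singleton'.1 hg
    have h1 : f - lsub K A' a * F ∈ Q'.comap (lsub K A) := by
      rw [Ideal.mem_comap, map_sub, map_mul, lsub_inv h, ← hqg, add_sub_cancel_right]
      exact hq
    have h2 : f = (f - lsub K A' a * F) + lsub K A' a * F := by ring
    rw [h2]
    exact Ideal.add_mem _ (Ideal.mem_sup_left h1)
      (Ideal.mem_sup_right (Ideal.mul_mem_left _ _ (Ideal.mem_span_singleton_self F)))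
  · refine sup_le (Ideal.comap_mono le_sup_left) ?_
    rw [Ideal.span_singleton_le_iff_mem, Ideal.mem_comap]
    exact Ideal.mem_sup_right (Ideal.mem_span_singleton_self _)

/-- Push-forward of the cycles of ideals. -/
lemma push_icyc_lsub (h : A' * A = 1) (t : ℕ) (J' : Ideal (MvPolynomial (Fin n) K)) :
    push (lsub K A) 1 t (icyc t J') = icyc t (J'.comap (lsub K A)) := by
  have hfib := isFib_lsub (K := K) h
  funext P
  by_cases hP : ∃ P', IsSub t (lsub K A 1) P' ∧ P'.comap (lsub K A) = P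
  · obtain ⟨P', hP', rfl⟩ := hP
    have hP1 : IsSub t 1 P' := by
      rw [map_one] at hP'
      exact hP'
    rw [push_of hfib _ hP', icyc_of hP1, icyc_of (isSub_comap_lsub h hP1)]
    congr 1
    exact (mult_comap (lsub K A : MvPolynomial (Fin N) K →+* MvPolynomial (Fin n) K)
      hP'.prime (hfib.den' hP'.prime hP'.notMem) _).symm
  · rw [push_of_not _ hP]
    by_contra h4
    obtain ⟨h5, h6⟩ := le_of_icyc_ne_zero (Ne.symm h4)
    obtain ⟨P', hP', hPP'⟩ := exists_isSub_lsub h h5 fun f hf => h6 (by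
      rw [Ideal.mem_comap, hf]
      exact J'.zero_mem)
    exact hP ⟨P', by rw [map_one]; exact hP', hPP'⟩

/-- Push-forward of intersection cycles. -/
lemma push_idiv_lsub (h : A' * A = 1) {t : ℕ} {Q' : Ideal (MvPolynomial (Fin n) K)}
    {G' : MvPolynomial (Fin n) K} :
    push (lsub K A) 1 t (idiv t 1 Q' G') = idiv t 1 (Q'.comap (lsub K A)) (lsub K A' G') := by
  have h1 : ∀ {k : ℕ} (Q : Ideal (MvPolynomial (Fin k) K)) G, idiv t 1 Q G =
      icyc t (Q ⊔ Ideal.span {G}) := fun Q G => rfl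
  rw [h1, h1, push_icyc_lsub h, ← comap_sup_span h, lsub_inv h]

lemma push_iRatEq_lsub (h : A' * A = 1) {I : Ideal (MvPolynomial (Fin N) K)}
    {I' : Ideal (MvPolynomial (Fin n) K)} (hI : I ≤ I'.comap (lsub K A)) (t : ℕ) :
    (IRatEq I' t).map (push (lsub K A) 1 t) ≤ IRatEq I t := by
  unfold IRatEq
  rw [Submodule.map_span_le]
  rintro c ⟨Q', G₁, G₂, e, hQ, hIQ, hG₁, hG₂, hGQ₁, hGQ₂, rfl⟩
  rw [map_sub, push_idiv_lsub h, push_idiv_lsub h]
  refine Submodule.subset_span ⟨_, _, _, e, isSub_comap_lsub h hQ,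
    hI.trans (Ideal.comap_mono hIQ), isHomogeneous_lsub _ hG₁, isHomogeneous_lsub _ hG₂, ?_, ?_,
    rfl⟩
  · rw [Ideal.mem_comap, lsub_inv h]
    exact hGQ₁
  · rw [Ideal.mem_comap, lsub_inv h]
    exact hGQ₂

lemma push_pt_lsub (h : A' * A = 1) {t : ℕ} {P' : Ideal (MvPolynomial (Fin n) K)}
    (hP' : IsSub t 1 P') : push (lsub K A) 1 t (pt P') = pt (P'.comap (lsub K A)) :=
  push_pt (isFib_lsub h) (by rw [map_one]; exact hP')

lemma iRatEq_anti {I I' : Ideal (MvPolynomial (Fin N) K)} (h : I ≤ I') (t : ℕ) :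
    IRatEq I' t ≤ IRatEq I t := by
  unfold IRatEq
  apply Submodule.span_mono
  rintro c ⟨Q, G₁, G₂, e, h1, h2, h3, h4, h5, h6, h7⟩
  exact ⟨Q, G₁, G₂, e, h1, h.trans h2, h3, h4, h5, h6, h7⟩

end surj

section VI

variable {K : Type u} [Field K] {N n : ℕ}

/-- The ideal of a linear subspace. -/
def VI (U : Submodule K (Fin N → K)) : Ideal (MvPolynomial (Fin N) K) where
  carrier := {f | ∀ x ∈ U, eval x f = 0}
  add_mem' := by
    intro f g hf hg x hx
    rw [map_add, hf x hx, hg x hx, add_zero]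
  zero_mem' := fun x _ => map_zero _
  smul_mem' := by
    intro c f hf x hx
    rw [smul_eq_mul, map_mul, hf x hx, mul_zero]

lemma mem_VI {U : Submodule K (Fin N → K)} {f : MvPolynomial (Fin N) K} :
    f ∈ VI U ↔ ∀ x ∈ U, eval x f = 0 := Iff.rfl

lemma VI_anti {U V : Submodule K (Fin N → K)} (h : U ≤ V) : VI V ≤ VI U :=
  fun _ hf x hx => hf x (h hx)

/-- Parametrizations of linear subspaces. -/
lemma exists_par (U : Submodule K (Fin N → K)) (hn : Module.finrank K U = n) :
    ∃ (A : Matrix (Fin N) (Fin n) K) (A' : Matrix (Fin n) (Fin N) K), A' * A = 1 ∧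
      ∀ x, x ∈ U ↔ ∃ y, A.mulVec y = x := by
  classical
  let e : (Fin n → K) ≃ₗ[K] U := LinearEquiv.ofFinrankEq _ _ (by
    rw [Module.finrank_fin_fun, hn])
  let T : (Fin n → K) →ₗ[K] (Fin N → K) := U.subtype ∘ₗ e.toLinearMap
  have hT : Function.Injective T := U.injective_subtype.comp e.injective
  obtain ⟨g, hg⟩ := LinearMap.exists_leftInverse_of_injective T (LinearMap.ker_eq_bot.2 hT)
  refine ⟨LinearMap.toMatrix' T, LinearMap.toMatrix' g, ?_, fun x => ?_⟩
  · rw [← LinearMap.toMatrix'_comp, hg, LinearMap.toMatrix'_id]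
  · constructor
    · intro hx
      refine ⟨e.symm ⟨x, hx⟩, ?_⟩
      rw [LinearMap.toMatrix'_mulVec]
      change ((e (e.symm ⟨x, hx⟩) : U) : Fin N → K) = x
      rw [e.apply_symm_apply]
    · rintro ⟨y, rfl⟩
      rw [LinearMap.toMatrix'_mulVec]
      exact (e y).2

lemma eval_lsub (A : Matrix (Fin N) (Fin n) K) (y : Fin n → K) (f : MvPolynomial (Fin N) K) :
    eval y (lsub K A f) = eval (A.mulVec y) f := by
  have h1 := aeval_lsub (L := K) A f y
  rw [← coe_aeval_eq_eval, ← coe_aeval_eq_eval]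
  exact h1

lemma lsub_eq_zero_iff [Infinite K] {U : Submodule K (Fin N → K)} {A : Matrix (Fin N) (Fin n) K}
    (hA : ∀ x, x ∈ U ↔ ∃ y, A.mulVec y = x) {f : MvPolynomial (Fin N) K} :
    lsub K A f = 0 ↔ f ∈ VI U := by
  rw [mem_VI]
  constructor
  · intro h x hx
    obtain ⟨y, rfl⟩ := (hA x).1 hx
    rw [← eval_lsub, h, map_zero]
  · intro h
    apply MvPolynomial.funext
    intro y
    rw [eval_lsub, map_zero]
    exact h _ ((hA _).2 ⟨y, rfl⟩)

lemma isSub_bot' : IsSub N 1 (⊥ : Ideal (MvPolynomial (Fin N) K)) where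
  prime := Ideal.isPrime_bot
  hom := by
    intro f hf i
    rw [Ideal.mem_bot] at hf
    rw [hf, map_zero]
    exact Ideal.zero_mem _
  trdeg := trdeg_bot
  notMem := by
    rw [Ideal.mem_bot]
    exact one_ne_zero

lemma VI_eq_comap_bot [Infinite K] {U : Submodule K (Fin N → K)}
    {A : Matrix (Fin N) (Fin n) K} (hA : ∀ x, x ∈ U ↔ ∃ y, A.mulVec y = x) :
    VI U = (⊥ : Ideal (MvPolynomial (Fin n) K)).comap (lsub K A) := by
  ext f
  rw [Ideal.mem_comap, Ideal.mem_bot, lsub_eq_zero_iff hA]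

lemma isSub_VI [Infinite K] (U : Submodule K (Fin N → K)) (hn : Module.finrank K U = n) :
    IsSub n 1 (VI U) := by
  obtain ⟨A, A', h1, h2⟩ := exists_par U hn
  rw [VI_eq_comap_bot h2]
  exact isSub_comap_lsub h1 isSub_bot'

lemma VI_comap {V U : Submodule K (Fin N → K)} {A : Matrix (Fin N) (Fin n) K}
    (hA : ∀ x, x ∈ V ↔ ∃ y, A.mulVec y = x) (hUV : U ≤ V) :
    (VI (U.comap A.mulVecLin)).comap (lsub K A) = VI U := by
  ext f
  rw [Ideal.mem_comap, mem_VI, mem_VI]
  constructor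
  · intro h x hx
    obtain ⟨y, rfl⟩ := (hA x).1 (hUV hx)
    rw [← eval_lsub]
    exact h y hx
  · intro h y hy
    rw [eval_lsub]
    exact h _ hy

lemma mulVec_injective {A : Matrix (Fin N) (Fin n) K} {A' : Matrix (Fin n) (Fin N) K}
    (h : A' * A = 1) : Function.Injective A.mulVecLin := by
  intro x y hxy
  have h1 := congrArg A'.mulVec hxy
  rw [Matrix.mulVecLin_apply, Matrix.mulVecLin_apply, Matrix.mulVec_mulVec, Matrix.mulVec_mulVec,
    h, Matrix.one_mulVec, Matrix.one_mulVec] at h1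
  exact h1

lemma finrank_comap_mulVec {V U : Submodule K (Fin N → K)} {A : Matrix (Fin N) (Fin n) K}
    {A' : Matrix (Fin n) (Fin N) K} (h : A' * A = 1)
    (hA : ∀ x, x ∈ V ↔ ∃ y, A.mulVec y = x) (hUV : U ≤ V) :
    Module.finrank K (U.comap A.mulVecLin) = Module.finrank K U := by
  have h1 := mulVec_injective h
  have h2 := LinearEquiv.finrank_eq (Submodule.equivMapOfInjective A.mulVecLin h1
    (U.comap A.mulVecLin))
  rw [h2, Submodule.map_comap_eq_of_le]
  intro x hx
  obtain ⟨y, rfl⟩ := (hA x).1 (hUV hx)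
  exact ⟨y, rfl⟩

/-- Hyperplanes. -/
lemma exists_lform_VI [Infinite K] {U : Submodule K (Fin (n + 1) → K)}
    (hn : Module.finrank K U = n) : ∃ c : Fin (n + 1) → K, c ≠ 0 ∧
      VI U = Ideal.span {lform c} := by
  have hlt : U < ⊤ := by
    refine lt_top_iff_ne_top.2 fun h => ?_
    rw [h, finrank_top, Module.finrank_fin_fun] at hn
    omega
  obtain ⟨f, hf0, hf⟩ := Submodule.exists_le_ker_of_lt_top U hlt
  set c : Fin (n + 1) → K := fun i => f (Pi.single i 1) with hc
  have hfc : ∀ x, f x = ∑ i, c i * x i := by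
    intro x
    conv_lhs => rw [← Finset.univ_sum_single x]
    rw [map_sum]
    refine Finset.sum_congr rfl fun i _ => ?_
    have h1 : Pi.single i (x i) = x i • (Pi.single i 1 : Fin (n + 1) → K) := by
      rw [← Pi.single_smul, smul_eq_mul, mul_one]
    rw [h1, map_smul, smul_eq_mul, mul_comm]
  have hc0 : c ≠ 0 := by
    intro h
    apply hf0
    refine LinearMap.ext fun x => ?_
    rw [hfc, h]
    simp
  refine ⟨c, hc0, ?_⟩
  have h1 : IsSub n 1 (Ideal.span {lform c}) := by
    have h2 := isSub_linear 1 (n + 1) n (fun _ : Fin 1 => c)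
      (by
        rw [linearIndependent_unique_iff]
        exact hc0) rfl
    rw [Set.range_const] at h2
    exact h2
  have h2 := isSub_VI U hn
  refine (eq_of_trdeg_eq h1.prime h2.prime ?_ h1.trdeg h2.trdeg).symm
  rw [Ideal.span_singleton_le_iff_mem, mem_VI]
  intro x hx
  have h3 : eval x (lform c) = ∑ i, c i * x i := by
    unfold lform
    simp
  rw [h3, ← hfc]
  exact LinearMap.mem_ker.1 (hf hx)

end VI

end Pool.Agent.H835.AV
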