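import Pool.Agent.H835.AV.SpChar
import Pool.Agent.H835.AV.CodMain

set_option autoImplicit false
set_option linter.unusedSectionVars false

/-!
# Cycles in linear subspaces
-/

universe u

namespace Pool.Agent.H835.AV

open MvPolynomial Pool.Agent.W5h86.HC

section lin

variable {K : Type u} [Field K] {N : ℕ}

/-- The ideal of a linear subspace. -/
def IsLin (P : Ideal (MvPolynomial (Fin N) K)) : Prop :=
  ∃ S : Set (MvPolynomial (Fin N) K), (∀ l ∈ S, IsHomogeneous l 1) ∧ P = Ideal.span S

lemma lform_add (v w : Fin N → K) : lform (v + w) = lform v + lform w := by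
  unfold lform
  rw [← Finset.sum_add_distrib]
  refine Finset.sum_congr rfl fun i _ => ?_
  rw [Pi.add_apply, C_add, add_mul]

lemma lform_smul (a : K) (v : Fin N → K) : lform (a • v) = C a * lform v := by
  unfold lform
  rw [Finset.mul_sum]
  refine Finset.sum_congr rfl fun i _ => ?_
  rw [Pi.smul_apply, smul_eq_mul, C_mul, mul_assoc]

lemma lform_zero : lform (0 : Fin N → K) = 0 := by
  unfold lform
  refine Finset.sum_eq_zero fun i _ => ?_
  rw [Pi.zero_apply, C_0, zero_mul]

lemma exists_lform {l : MvPolynomial (Fin N) K} (h : IsHomogeneous l 1) :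
    ∃ v : Fin N → K, l = lform v := by
  classical
  refine ⟨fun i => coeff (Finsupp.single i 1) l, ?_⟩
  ext d
  unfold lform
  rw [coeff_sum]
  by_cases hd : d.degree = 1
  · obtain ⟨j, rfl⟩ : ∃ j, d = Finsupp.single j 1 := by
      have h1 : Finsupp.degree d = 1 := hd
      obtain ⟨j, hj⟩ : ∃ j, d j ≠ 0 := by
        by_contra hcon
        push Not at hcon
        have : d = 0 := Finsupp.ext hcon
        rw [this] at h1
        simp at h1
      refine ⟨j, ?_⟩
      rw [Finsupp.degree_apply] at h1
      have h2 : d j ≤ d.sum fun _ x => x := by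
        rw [Finsupp.sum]
        exact Finset.single_le_sum (f := fun i => d i) (fun _ _ => Nat.zero_le _)
          (Finsupp.mem_support_iff.2 hj)
      ext k
      by_cases hk : k = j
      · subst hk
        rw [Finsupp.single_eq_same]
        have h3 : (∑ i ∈ d.support, d i) = 1 := h1
        have h4 : d k ≤ ∑ i ∈ d.support, d i :=
          Finset.single_le_sum (f := fun i => d i) (fun _ _ => Nat.zero_le _)
            (Finsupp.mem_support_iff.2 hj)
        omega
      · rw [Finsupp.single_eq_of_ne (by exact hk)]
        by_contra hcon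
        have h3 : (∑ i ∈ d.support, d i) = 1 := h1
        have h4 : d k + d j ≤ ∑ i ∈ d.support, d i := by
          rw [← Finset.sum_pair (f := fun i => d i) hk]
          refine Finset.sum_le_sum_of_subset ?_
          intro i hi
          rw [Finset.mem_insert, Finset.mem_singleton] at hi
          rcases hi with rfl | rfl
          · exact Finsupp.mem_support_iff.2 hcon
          · exact Finsupp.mem_support_iff.2 hj
        omega
    rw [Finset.sum_eq_single j]
    · rw [coeff_C_mul, coeff_X, if_pos rfl, mul_one]
    · intro i _ hi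
      rw [coeff_C_mul, coeff_X, if_neg, mul_zero]
      intro h1
      exact hi (Finsupp.single_left_injective one_ne_zero h1)
    · intro h1
      exact absurd (Finset.mem_univ _) h1
  · have h1 : coeff d l = 0 := by
      by_contra hcon
      apply hd
      have h2 := h hcon
      rw [← h2, Finsupp.degree_eq_weight_one]
      rfl
    rw [h1]
    symm
    refine Finset.sum_eq_zero fun i _ => ?_
    rw [coeff_C_mul, coeff_X, if_neg, mul_zero]
    intro h2
    apply hd
    rw [← h2, Finsupp.degree_single]

/-- Linear subspaces have linearly independent equations. -/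
lemma exists_indep (S : Set (MvPolynomial (Fin N) K)) (hS : ∀ l ∈ S, IsHomogeneous l 1) :
    ∃ (ρ : ℕ) (ℓ : Fin ρ → Fin N → K), LinearIndependent K ℓ ∧ ρ ≤ N ∧
      Ideal.span S = Ideal.span (Set.range fun i => lform (ℓ i)) := by
  set V : Set (Fin N → K) := {v | lform v ∈ S} with hV
  obtain ⟨b, hb1, hb2, hb3⟩ := exists_linearIndependent K V
  have hfin : Finite b := hb3.finite
  obtain ⟨ρ, ⟨eq⟩⟩ := Finite.exists_equiv_fin b
  have hli : LinearIndependent K (fun i => ((eq.symm i : b) : Fin N → K)) :=
    hb3.comp _ eq.symm.injective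
  refine ⟨ρ, fun i => eq.symm i, hli, ?_, ?_⟩
  · have h1 := hli.fintype_card_le_finrank
    rw [Fintype.card_fin, Module.finrank_fin_fun] at h1
    exact h1
  · apply le_antisymm
    · have key : ∀ v ∈ Submodule.span K b,
          lform v ∈ Ideal.span (Set.range fun i => lform ((eq.symm i : b) : Fin N → K)) := by
        intro v hv
        induction hv using Submodule.span_induction with
        | mem x hx =>
          refine Ideal.subset_span ⟨eq ⟨x, hx⟩, ?_⟩
          simp only [Equiv.symm_apply_apply]
        | zero =>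
          rw [lform_zero]
          exact Ideal.zero_mem _
        | add x y _ _ hx hy =>
          rw [lform_add]
          exact Ideal.add_mem _ hx hy
        | smul a x _ hx =>
          rw [lform_smul]
          exact Ideal.mul_mem_left _ _ hx
      rw [Ideal.span_le]
      intro l hl
      obtain ⟨v, rfl⟩ := exists_lform (hS l hl)
      refine key v ?_
      rw [hb2]
      exact Submodule.subset_span hl
    · rw [Ideal.span_le]
      rintro _ ⟨i, rfl⟩
      have h := hb1 (eq.symm i).2
      rw [hV, Set.mem_ofPred_eq] at h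
      exact Ideal.subset_span h

lemma le_of_isSub {t t' : ℕ} {P P' : Ideal (MvPolynomial (Fin N) K)} (h : IsSub t 1 P)
    (h' : IsSub t' 1 P') (hle : P' ≤ P) : t ≤ t' := by
  by_cases h1 : P' = P
  · have h2 := h'.trdeg
    rw [h1, h.trdeg] at h2
    have h3 : t = t' := by exact_mod_cast h2
    omega
  · exact (trdeg_quot_lt (K := K) h'.prime h.prime (lt_of_le_of_ne hle h1) h'.trdeg h.trdeg).le

/-- **Cycles in a linear subspace** are multiples of a linear subspace. -/
theorem lin_cycles (S : Set (MvPolynomial (Fin N) K)) (hS : ∀ l ∈ S, IsHomogeneous l 1) {t : ℕ}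
    (ht : 1 ≤ t) :
    ∃ T : Set (Ideal (MvPolynomial (Fin N) K)), T.Subsingleton ∧
      (∀ P ∈ T, IsSub t 1 P ∧ Ideal.span S ≤ P ∧ IsLin P) ∧
      ∀ Q, IsSub t 1 Q → Ideal.span S ≤ Q →
        pt Q ∈ Submodule.span ℚ (pt '' T) ⊔ IRatEq (Ideal.span S) t := by
  obtain ⟨ρ, ℓ, hℓ, hρ, hspan⟩ := exists_indep S hS
  have h1 := isSub_linear ρ N (N - ρ) ℓ hℓ (by omega)
  rw [← hspan] at h1
  by_cases htN : t + ρ ≤ N
  · have h2 : Triv t (Ideal.span (Set.range fun i => lform (ℓ i))) := by
      refine low_any (n := 1) (m := 1) (a := 0) (by simp) (by simp) (β := (id : Fin N → Fin N))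
        Function.surjective_id ht (by rw [Fintype.card_fin]; omega) _ fun i => ?_
      refine ⟨fun j => C (ℓ i j) * X j, fun j => ?_, fun j => ?_, rfl⟩
      · exact (isHomogeneous_X K j).C_mul _
      · refine Subalgebra.mul_mem _ (Subalgebra.algebraMap_mem _ _) ?_
        rw [X_mem_supported]
        rfl
    rw [← hspan] at h2
    obtain ⟨k, c, hdim, hmem⟩ := h2
    set S' : Set (MvPolynomial (Fin N) K) := S ∪ Set.range fun i => X (c i) with hS'
    have hsec : secI (Ideal.span S) c = Ideal.span S' := by
      unfold secI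
      rw [hS', Ideal.span_union]
    have hS'' : ∀ l ∈ S', IsHomogeneous l 1 := by
      rintro l (hl | ⟨i, rfl⟩)
      · exact hS l hl
      · exact isHomogeneous_X K _
    obtain ⟨ρ', ℓ', hℓ', hρ', hspan'⟩ := exists_indep S' hS''
    have h3 := isSub_linear ρ' N (N - ρ') ℓ' hℓ' (by omega)
    rw [← hspan', ← hsec] at h3
    have h4 : N - ρ' ≤ t := hdim _ h3.prime le_rfl _ h3.trdeg
    by_cases h5 : N - ρ' = t
    · rw [h5] at h3
      refine ⟨{secI (Ideal.span S) c}, Set.subsingleton_singleton, ?_, ?_⟩
      · rintro P rfl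
        refine ⟨h3, le_sup_left, S', hS'', hsec⟩
      · intro Q hQ hSQ
        refine (sup_le_sup_right ?_ _ : Submodule.span ℚ {icyc t (secI (Ideal.span S) c)} ⊔
          IRatEq (Ideal.span S) t ≤ _) (hmem Q hQ hSQ)
        rw [Submodule.span_le, Set.singleton_subset_iff, SetLike.mem_coe]
        refine mem_of_support hdim.finite fun P' hP' => ?_
        obtain ⟨h6, h7⟩ := le_of_icyc_ne_zero hP'
        have h8 : secI (Ideal.span S) c = P' :=
          eq_of_trdeg_eq (K := K) h3.prime h6.prime h7 h3.trdeg h6.trdeg
        rw [← h8]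
        exact Submodule.subset_span ⟨_, rfl, rfl⟩
    · refine ⟨∅, Set.subsingleton_empty, fun P hP => absurd hP (Set.notMem_empty P), ?_⟩
      intro Q hQ hSQ
      refine (sup_le_sup_right ?_ _ : Submodule.span ℚ {icyc t (secI (Ideal.span S) c)} ⊔
        IRatEq (Ideal.span S) t ≤ _) (hmem Q hQ hSQ)
      rw [Submodule.span_le, Set.singleton_subset_iff, SetLike.mem_coe]
      refine mem_of_support hdim.finite fun P' hP' => ?_
      obtain ⟨h6, h7⟩ := le_of_icyc_ne_zero hP'
      have h8 := le_of_isSub h6 h3 h7
      omega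
  · refine ⟨∅, Set.subsingleton_empty, fun P hP => absurd hP (Set.notMem_empty P), ?_⟩
    intro Q hQ hSQ
    have h2 := le_of_isSub hQ h1 hSQ
    omega

end lin

end Pool.Agent.H835.AV
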