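import Pool.Agent.H835.AV.Trans

set_option autoImplicit false
set_option linter.unusedSectionVars false

/-!
# Averages of cycles of small dimension
-/

universe u

namespace Pool.Agent.H835.AV

open MvPolynomial Pool.Agent.W5h86.HC

section zero

variable {K : Type u} [Field K] {N : ℕ}

/-- Subvarieties outside of a coordinate hyperplane are not empty. -/
lemma pos_of_isSub {t : ℕ} {P : Ideal (MvPolynomial (Fin N) K)} {b : Fin N}
    (hP : IsSub t (X b) P) : 1 ≤ t := by
  by_contra hcon
  have ht : t = 0 := by omega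
  subst ht
  have hprime := hP.prime
  have h1 := hP.trdeg
  rw [Nat.cast_zero, trdeg_eq_zero_iff] at h1
  have h2 : IsAlgebraic K (Ideal.Quotient.mk P (X b)) := h1.isAlgebraic _
  obtain ⟨p, hp, hp0⟩ := h2
  have h3 : Polynomial.aeval (X b : MvPolynomial (Fin N) K) p ∈ P := by
    rw [← Ideal.Quotient.eq_zero_iff_mem, ← hp0]
    exact (Polynomial.aeval_algHom_apply (Ideal.Quotient.mkₐ K P) (X b) p).symm
  obtain ⟨k, hk⟩ : ∃ k, p.coeff k ≠ 0 := by
    by_contra hcon
    push Not at hcon
    exact hp (Polynomial.ext fun k => by rw [hcon k, Polynomial.coeff_zero])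
  have h4 := hP.hom _ h3 k
  have h5 : homogeneousComponent k (Polynomial.aeval (X b : MvPolynomial (Fin N) K) p) =
      C (p.coeff k) * X b ^ k := by
    rw [Polynomial.aeval_eq_sum_range, map_sum]
    have h6 : ∀ i, homogeneousComponent k (p.coeff i • (X b : MvPolynomial (Fin N) K) ^ i) =
        if i = k then C (p.coeff k) * X b ^ k else 0 := by
      intro i
      rw [smul_eq_C_mul, homogeneousComponent_of_mem
        ((isHomogeneous_X_pow (R := K) (b : Fin N) i).C_mul _)]
      by_cases hik : i = k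
      · rw [if_pos hik.symm, if_pos hik, hik]
      · rw [if_neg (fun h => hik h.symm), if_neg hik]
    rw [Finset.sum_congr rfl fun i _ => h6 i, Finset.sum_ite_eq', if_pos]
    rw [Finset.mem_range, Nat.lt_succ_iff]
    exact Polynomial.le_natDegree_of_ne_zero hk
  rw [h5] at h4
  rcases hprime.mem_or_mem h4 with h7 | h7
  · apply hprime.ne_top
    exact Ideal.eq_top_of_isUnit_mem _ h7 ((isUnit_iff_ne_zero.2 hk).map C)
  · exact hP.notMem (hprime.mem_of_pow_mem _ h7)

/-- A prime ideal of maximal transcendence degree is zero. -/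
lemma eq_bot_of_trdeg {P : Ideal (MvPolynomial (Fin N) K)} {l : MvPolynomial (Fin N) K}
    (hP : IsSub N l P) : P = ⊥ :=
  (eq_of_trdeg_eq (K := K) Ideal.isPrime_bot hP.prime bot_le trdeg_bot hP.trdeg).symm

lemma not_isSub_of_lt {t : ℕ} (h : N < t) {P : Ideal (MvPolynomial (Fin N) K)}
    {l : MvPolynomial (Fin N) K} (hP : IsSub t l P) : False := by
  by_cases hb : P = ⊥
  · have h1 := hP.trdeg
    rw [hb, trdeg_bot] at h1
    have h2 : N = t := by exact_mod_cast h1
    omega
  · have h1 := trdeg_quot_lt (K := K) Ideal.isPrime_bot hP.prime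
      (lt_of_le_of_ne bot_le (Ne.symm hb)) trdeg_bot hP.trdeg
    omega

lemma isSub_bot (b : Fin N) : IsSub N (X b) (⊥ : Ideal (MvPolynomial (Fin N) K)) where
  prime := Ideal.isPrime_bot
  hom := by
    intro f hf i
    rw [Ideal.mem_bot] at hf
    rw [hf, map_zero]
    exact Ideal.zero_mem _
  trdeg := trdeg_bot
  notMem := by
    rw [Ideal.mem_bot]
    exact X_ne_zero b

end zero

/-- the trivial group -/
noncomputable def e1 (K : Type u) [Field K] : AddChar (ZMod 1) K := 1

lemma av_e1 {K : Type u} [Field K] {N : ℕ} (β : Fin N → Unit)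
    (c : Ideal (MvPolynomial (Fin N) K) → ℚ) : av (e1 K) β c = c := by
  rw [av_apply, Fintype.sum_eq_single (0 : Unit → ZMod 1)]
  · rw [wt_zero, tr_one]
  · intro a ha
    exact absurd (Subsingleton.elim a 0) ha

lemma ex_e1 {K : Type u} [Field K] {κ : Type u} [Field κ] [Algebra K κ] : ex κ (e1 K) = e1 κ := by
  ext x
  rw [ex_apply]
  unfold e1
  rw [AddChar.one_apply, AddChar.one_apply, map_one]

/-- **Affine spaces.** -/
theorem zero_rel : ∀ (N : ℕ) (K : Type u) [Field K] (t : ℕ) (b : Fin N)
    (P : Ideal (MvPolynomial (Fin N) K)), t < N → IsSub t (X b) P → pt P ∈ IRel ⊥ t (X b) := by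
  intro N
  induction N with
  | zero =>
    intro K _ t b
    exact b.elim0
  | succ M ih =>
    intro K _ t b P ht hP
    have hpos := pos_of_isSub hP
    obtain ⟨v, hv⟩ : ∃ v, v ≠ b := by
      by_contra hcon
      push Not at hcon
      have h1 : Subsingleton (Fin (M + 1)) := ⟨fun x y => by rw [hcon x, hcon y]⟩
      have h2 := Fintype.card_le_one_iff_subsingleton.2 h1
      rw [Fintype.card_fin] at h2
      omega
    obtain ⟨u', hu'⟩ := Fin.exists_succAbove_eq hv.symm
    subst hu'
    have hst : ∀ {n : ℕ} {k : Type u} [Field k] (β : Fin n → Unit), Stable (e1 k) β ⊥ :=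
      fun β a => bot_le
    have hbot : ∀ {κ : Type u} [Field κ] [Algebra K κ] (θ : κ),
        fI v u' θ (⊥ : Ideal (MvPolynomial (Fin (M + 1)) K)) = ⊥ := by
      intro κ _ _ θ
      exact Ideal.map_bot
    have key := pencil_step (e := e1 K) (β := fun _ : Fin (M + 1) => ()) (v := v) (u' := u')
      (I := (⊥ : Ideal (MvPolynomial (Fin (M + 1)) K))) rfl (hst _) (t := t) ?_ ?_ hP bot_le
    · rwa [av_e1] at key
    · intro P hPp hP _ π _ hval
      rcases Nat.lt_or_ge t M with h1 | h1
      · refine closed_step rfl (hst _) π hP bot_le hval ?_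
        intro P' hP' _
        rw [ex_e1, av_e1, hbot]
        exact ih (AdjoinRoot π) t u' P' h1 hP'
      · have h2 : t = M := by omega
        subst h2
        refine closed_top (Q := ⊥) rfl (hst _) π hP hval (isSub_bot _) bot_le bot_le ?_ ?_
        · intro P₁ P₂ h₁ h₂ _ _
          refine ⟨0, ?_⟩
          rw [wt_zero, comap_sc_one, eq_bot_of_trdeg h₁, eq_bot_of_trdeg h₂]
        · intro Q' hQ' _
          exact not_isSub_of_lt (by omega) hQ'
    · intro s hs P' hP' _
      rw [ex_e1, av_e1, hbot]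
      exact ih (Kt K) s u' P' (by omega) hP'

/-! ### Sums of forms -/

section sf

variable {K : Type u} [Field K] {N m : ℕ} {ι : Type} [Fintype ι] [DecidableEq ι] [NeZero m]
  {e : AddChar (ZMod m) K} {β : Fin N → ι}

/-- `F` is a form of degree `m` which is fixed by the roots of unity: a sum of forms of degree `m`
in the blocks of variables. -/
structure IsSF (e : AddChar (ZMod m) K) (β : Fin N → ι) (F : MvPolynomial (Fin N) K) : Prop where
  hom : IsHomogeneous F m
  inv : ∀ a : ι → ZMod m, sc (wt e β a) F = F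

lemma IsSF.stable {F : MvPolynomial (Fin N) K} (h : IsSF e β F) :
    Stable e β (Ideal.span {F}) := by
  intro a
  rw [Ideal.span_singleton_le_iff_mem, Ideal.mem_comap, h.inv]
  exact Ideal.mem_span_singleton_self _

lemma stable_bot : Stable e β (⊥ : Ideal (MvPolynomial (Fin N) K)) := fun _ => bot_le

/-- the character is faithful -/
def Faithful (e : AddChar (ZMod m) K) : Prop := ∀ x, e x = 1 → x = 0

lemma Faithful.ex {κ : Type u} [Field κ] [Algebra K κ] (h : Faithful e) : Faithful (ex κ e) := by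
  intro x hx
  rw [ex_apply] at hx
  apply h
  rw [← map_one (algebraMap K κ)] at hx
  exact (algebraMap K κ).injective hx

end sf

section sf

variable {K : Type u} [Field K] {M m : ℕ} {ι : Type} [Fintype ι] [DecidableEq ι] [NeZero m]
  {e : AddChar (ZMod m) K} {β : Fin (M + 1) → ι}

lemma IsSF.fm {F : MvPolynomial (Fin (M + 1)) K} (h : IsSF e β F) {v : Fin (M + 1)} {u' : Fin M}
    (hβ : β v = β (v.succAbove u')) {κ : Type u} [Field κ] [Algebra K κ] (θ : κ) :
    IsSF (ex κ e) (β ∘ v.succAbove) (lsub K (fm v u' θ) F) where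
  hom := isHomogeneous_lsub _ h.hom
  inv a := by
    rw [← compat_fm hβ, h.inv]

lemma IsSF.zi {F : MvPolynomial (Fin (M + 1)) K} (h : IsSF e β F) (u : Fin (M + 1)) :
    IsSF e (β ∘ u.succAbove) (lsub K (AV.zi K u) F) where
  hom := isHomogeneous_lsub _ h.hom
  inv a := by
    have h1 := compat_zi (e := e) (β := β) u a F
    rw [ex_self, h.inv] at h1
    exact h1.symm

lemma fI_span (v : Fin (M + 1)) (u' : Fin M) {κ : Type u} [Field κ] [Algebra K κ] (θ : κ)
    (F : MvPolynomial (Fin (M + 1)) K) :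
    fI v u' θ (Ideal.span {F}) = Ideal.span {lsub K (AV.fm v u' θ) F} := by
  unfold fI
  rw [Ideal.map_span, Set.image_singleton]
  rfl

lemma zI_span (u : Fin (M + 1)) (F : MvPolynomial (Fin (M + 1)) K) :
    zI u (Ideal.span {F}) = Ideal.span {lsub K (AV.zi K u) F} := by
  unfold zI
  rw [Ideal.map_span, Set.image_singleton]
  rfl

lemma image_comp_succAbove {v w : Fin (M + 1)} (hvw : w ≠ v) (hβ : β v = β w) :
    Finset.univ.image (β ∘ v.succAbove) = Finset.univ.image β := by
  ext k
  rw [Finset.mem_image, Finset.mem_image]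
  constructor
  · rintro ⟨j, -, hj⟩
    exact ⟨v.succAbove j, Finset.mem_univ _, hj⟩
  · rintro ⟨i, -, hi⟩
    rcases Fin.eq_self_or_eq_succAbove v i with h | ⟨j, h⟩
    · obtain ⟨j, hj⟩ := Fin.exists_succAbove_eq hvw
      refine ⟨j, Finset.mem_univ _, ?_⟩
      rw [Function.comp_apply, hj, ← hβ, ← h, hi]
    · refine ⟨j, Finset.mem_univ _, ?_⟩
      rw [Function.comp_apply, ← h, hi]

end sf

/-- A linear form is a prime element. -/
lemma prime_of_degree_one {K : Type u} [Field K] {N : ℕ} {f : MvPolynomial (Fin N) K}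
    (hf : IsHomogeneous f 1) (h0 : f ≠ 0) : Prime f := by
  rw [← irreducible_iff_prime]
  apply irreducible_of_totalDegree_eq_one (hf.totalDegree h0)
  intro x hx
  rw [isUnit_iff_ne_zero]
  rintro rfl
  apply h0
  ext d
  have h1 := hx d
  rw [zero_dvd_iff] at h1
  rw [h1, coeff_zero]

section top

variable {K : Type u} [Field K] {N m : ℕ} {ι : Type} [Fintype ι] [DecidableEq ι] [NeZero m]
  {e : AddChar (ZMod m) K} {β : Fin N → ι}

/-- **Transitivity** if all variables are blocks by themselves. -/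
theorem conj_of_injective (hβ : Function.Injective β) (he : Faithful e)
    {F : MvPolynomial (Fin N) K} (hF : IsSF e β F) (h0 : F ≠ 0) {t : ℕ} (ht : t + 1 = N)
    {l : MvPolynomial (Fin N) K}
    {P₁ P₂ : Ideal (MvPolynomial (Fin N) K)} (h₁ : IsSub t l P₁) (h₂ : IsSub t l P₂)
    (hF₁ : F ∈ P₁) (hF₂ : F ∈ P₂) : ∃ a : ι → ZMod m, P₂ = P₁.comap (sc (wt e β a)) := by
  subst ht
  have hJ : Alone β Finset.univ := fun j _ i h => hβ h
  obtain ⟨y, hy⟩ := exists_pw (e := e) hJ he (b := F) fun a => hF.inv _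
  have hm : m ≠ 0 := NeZero.ne m
  have hpw : pw (kJ m (Finset.univ : Finset (Fin (t + 1)))) = expand (R := K) m := by
    apply MvPolynomial.algHom_ext
    intro i
    rw [pw_X, expand_X]
    simp [kJ]
  have hy1 : IsHomogeneous y 1 := by
    intro d hd
    rw [← coeff_expand_smul m hm y d, ← hpw, hy] at hd
    have h3 := hF.hom hd
    rw [map_nsmul, smul_eq_mul] at h3
    exact Nat.eq_of_mul_eq_mul_left (Nat.pos_of_ne_zero hm) (h3.trans (mul_one m).symm)
  have hy0 : y ≠ 0 := by
    rintro rfl
    rw [map_zero] at hy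
    exact h0 hy.symm
  exact conj_of_prime hJ he (prime_of_degree_one hy1 hy0) h₁.prime h₂.prime
    (by rw [hy]; exact hF₁) (by rw [hy]; exact hF₂) h₁.trdeg h₂.trdeg

end top

lemma injective_of_card {M : ℕ} {ι : Type} [DecidableEq ι] {β : Fin M → ι}
    (h : M ≤ (Finset.univ.image β).card) : Function.Injective β := by
  have h1 : (Finset.univ.image β).card = (Finset.univ : Finset (Fin M)).card := by
    apply le_antisymm Finset.card_image_le
    rw [Finset.card_univ, Fintype.card_fin]
    exact h
  have h2 := Finset.card_image_iff.1 h1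
  intro x y hxy
  exact h2 (Finset.mem_coe.2 (Finset.mem_univ _)) (Finset.mem_coe.2 (Finset.mem_univ _)) hxy

section low

variable {m : ℕ} {ι : Type} [Fintype ι] [DecidableEq ι] [NeZero m]

/-- The statement on averages in `M` variables. -/
def LowSt (m : ℕ) (ι : Type) [Fintype ι] [DecidableEq ι] [NeZero m] (M : ℕ) : Prop :=
  ∀ (κ : Type u) [Field κ] (e : AddChar (ZMod m) κ), Faithful e → ∀ (β : Fin M → ι)
    (F : MvPolynomial (Fin M) κ), IsSF e β F → ∀ (t : ℕ) (b : Fin M)
    (P : Ideal (MvPolynomial (Fin M) κ)), t < (Finset.univ.image β).card → t + 1 < M →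
    IsSub t (X b) P → F ∈ P → av e β (pt P) ∈ IRel (Ideal.span {F}) t (X b)

/-- One step with a pencil. -/
lemma low_pencil {K : Type u} [Field K] {M : ℕ} (ih : LowSt.{u} m ι M) {e : AddChar (ZMod m) K}
    (he : Faithful e) {β : Fin (M + 1) → ι} {F : MvPolynomial (Fin (M + 1)) K}
    (hF : IsSF e β F) {t : ℕ} (ht : t < (Finset.univ.image β).card) (htM : t + 1 < M + 1)
    {v : Fin (M + 1)} {u' : Fin M} (hβ : β v = β (v.succAbove u'))
    {P : Ideal (MvPolynomial (Fin (M + 1)) K)} (hP : IsSub t (X (v.succAbove u')) P)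
    (hFP : F ∈ P) : av e β (pt P) ∈ IRel (Ideal.span {F}) t (X (v.succAbove u')) := by
  have himg : Finset.univ.image (β ∘ v.succAbove) = Finset.univ.image β :=
    image_comp_succAbove (Fin.succAbove_ne v u') hβ
  refine pencil_step hβ hF.stable ?_ ?_ hP (by rwa [Ideal.span_singleton_le_iff_mem])
  · intro P hPp hP hFP π _ hval
    rw [Ideal.span_singleton_le_iff_mem] at hFP
    rcases Nat.lt_or_ge (t + 1) M with h1 | h1
    · refine closed_step hβ hF.stable π hP (by rwa [Ideal.span_singleton_le_iff_mem]) hval ?_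
      intro P' hP' hFP'
      rw [fI_span] at hFP' ⊢
      rw [Ideal.span_singleton_le_iff_mem] at hFP'
      exact ih (AdjoinRoot π) _ he.ex _ _ (hF.fm hβ _) t u' P' (by rw [himg]; exact ht) h1 hP' hFP'
    · have h2 : M = t + 1 := by omega
      subst h2
      have hinj : Function.Injective (β ∘ v.succAbove) := by
        apply injective_of_card
        rw [himg]
        exact ht
      by_cases h0 : lsub K (fm v u' (AdjoinRoot.root π)) F = 0
      · refine closed_step hβ hF.stable π hP (by rwa [Ideal.span_singleton_le_iff_mem]) hval ?_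
        intro P' hP' hFP'
        rw [fI_span, h0, Ideal.span_singleton_eq_bot.2 rfl]
        exact iRel_le_av stable_bot (fun a => eig_wt_X _ _)
          (zero_rel _ (AdjoinRoot π) t u' P' (by omega) hP')
      · have hF0 : F ≠ 0 := by
          rintro rfl
          exact h0 (map_zero _)
        obtain ⟨Q, hQ, hFQ, hQP⟩ := exists_component hF.hom hF0 hP.prime hFP hP.notMem
        refine closed_top hβ hF.stable π hP hval hQ (by rwa [Ideal.span_singleton_le_iff_mem]) hQP
          ?_ ?_
        · intro P₁ P₂ h₁ h₂ h₃ h₄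
          rw [fI_span, Ideal.span_singleton_le_iff_mem] at h₃ h₄
          exact conj_of_injective hinj he.ex (hF.fm hβ _) h0 rfl h₁ h₂ h₃ h₄
        · intro Q' hQ' hQ''
          rw [fI_span, Ideal.span_singleton_le_iff_mem, eq_bot_of_trdeg hQ', Ideal.mem_bot] at hQ''
          exact h0 hQ''
  · intro s hs P' hP' hFP'
    rw [fI_span] at hFP' ⊢
    rw [Ideal.span_singleton_le_iff_mem] at hFP'
    exact ih (Kt K) _ he.ex _ _ (hF.fm hβ _) s u' P' (by rw [himg]; omega) (by omega) hP' hFP'

/-- One step with a hyperplane. -/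
lemma low_hyp {K : Type u} [Field K] {M : ℕ} (ih : LowSt.{u} m ι M) {e : AddChar (ZMod m) K}
    (he : Faithful e) {β : Fin (M + 1) → ι} {F : MvPolynomial (Fin (M + 1)) K}
    (hF : IsSF e β F) {t : ℕ} (ht : t < (Finset.univ.image β).card) (htM : t + 1 < M + 1)
    {u v b : Fin (M + 1)} (huv : v ≠ u) (hβ : β u = β v)
    {P : Ideal (MvPolynomial (Fin (M + 1)) K)} (hP : IsSub t (X b) P)
    (hFP : F ∈ P) (hu : X u ∈ P) : av e β (pt P) ∈ IRel (Ideal.span {F}) t (X b) := by
  have himg : Finset.univ.image (β ∘ u.succAbove) = Finset.univ.image β :=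
    image_comp_succAbove huv hβ
  have hbu : b ≠ u := by
    rintro rfl
    exact hP.notMem hu
  obtain ⟨b', rfl⟩ := Fin.exists_succAbove_eq hbu
  rcases Nat.lt_or_ge (t + 1) M with h1 | h1
  · refine hyp_step u hF.stable (fun a => eig_wt_X _ _) (fun a => ?_) hP
      (by rwa [Ideal.span_singleton_le_iff_mem]) hu ?_
    · rw [lsub_zi_succAbove]
      exact eig_wt_X _ _
    · intro P' hP' hFP'
      rw [lsub_zi_succAbove] at hP' ⊢
      rw [zI_span] at hFP' ⊢
      rw [Ideal.span_singleton_le_iff_mem] at hFP'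
      exact ih K _ he _ _ (hF.zi u) t b' P' (by rw [himg]; exact ht) h1 hP' hFP'
  · have h2 : M = t + 1 := by omega
    subst h2
    have hinj : Function.Injective (β ∘ u.succAbove) := by
      apply injective_of_card
      rw [himg]
      exact ht
    by_cases h0 : lsub K (zi K u) F = 0
    · refine hyp_step u hF.stable (fun a => eig_wt_X _ _) (fun a => ?_) hP
        (by rwa [Ideal.span_singleton_le_iff_mem]) hu ?_
      · rw [lsub_zi_succAbove]
        exact eig_wt_X _ _
      · intro P' hP' hFP'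
        rw [lsub_zi_succAbove] at hP' ⊢
        rw [zI_span, h0, Ideal.span_singleton_eq_bot.2 rfl]
        exact iRel_le_av stable_bot (fun a => eig_wt_X _ _)
          (zero_rel _ K t b' P' (by omega) hP')
    · have hF0 : F ≠ 0 := by
        rintro rfl
        exact h0 (map_zero _)
      obtain ⟨Q, hQ, hFQ, hQP⟩ := exists_component hF.hom hF0 hP.prime hFP hP.notMem
      refine hyp_top u hF.stable (fun a => eig_wt_X _ _) hP hu hQ
        (by rwa [Ideal.span_singleton_le_iff_mem]) hQP ?_ ?_
      · intro P₁ P₂ h₁ h₂ h₃ h₄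
        rw [zI_span, Ideal.span_singleton_le_iff_mem] at h₃ h₄
        exact conj_of_injective hinj he (hF.zi u) h0 rfl h₁ h₂ h₃ h₄
      · intro Q' hQ' hQ''
        rw [zI_span, Ideal.span_singleton_le_iff_mem, eq_bot_of_trdeg hQ', Ideal.mem_bot] at hQ''
        exact h0 hQ''

/-- The restriction of an average. -/
lemma restr_av_pt {K : Type u} [Field K] {N : ℕ} {e : AddChar (ZMod m) K} {β : Fin N → ι}
    {b : Fin N} {P : Ideal (MvPolynomial (Fin N) K)} (hb : X b ∉ P) :
    restr (X b) (av e β (pt P)) = av e β (pt P) := by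
  rw [av_apply, map_sum]
  refine Finset.sum_congr rfl fun a _ => ?_
  rw [tr_pt (wt_mul_neg e β a), restr_pt]
  rw [Ideal.mem_comap, (eig_wt_X (e := e) (β := β) b (-a)).mem_iff]
  exact hb

/-- Blocks which are not single variables. -/
lemma low_not_injective {K : Type u} [Field K] {M : ℕ} (ih : LowSt.{u} m ι M)
    {e : AddChar (ZMod m) K} (he : Faithful e) {β : Fin (M + 1) → ι}
    {F : MvPolynomial (Fin (M + 1)) K} (hF : IsSF e β F) {t : ℕ}
    (ht : t < (Finset.univ.image β).card) (htM : t + 1 < M + 1)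
    (hβ : ¬ Function.Injective β) {b : Fin (M + 1)}
    {P : Ideal (MvPolynomial (Fin (M + 1)) K)} (hP : IsSub t (X b) P)
    (hFP : F ∈ P) : av e β (pt P) ∈ IRel (Ideal.span {F}) t (X b) := by
  have key : ∀ (u v : Fin (M + 1)), v ≠ u → β u = β v →
      ∀ P : Ideal (MvPolynomial (Fin (M + 1)) K), IsSub t (X u) P → F ∈ P →
      av e β (pt P) ∈ IRel (Ideal.span {F}) t (X u) := by
    intro u v huv hβ P hP hFP
    obtain ⟨u', rfl⟩ := Fin.exists_succAbove_eq huv.symm
    exact low_pencil ih he hF ht htM hβ.symm hP hFP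
  obtain ⟨u, v, hβ, huv⟩ : ∃ u v, β u = β v ∧ v ≠ u := by
    unfold Function.Injective at hβ
    push Not at hβ
    obtain ⟨u, v, h1, h2⟩ := hβ
    exact ⟨u, v, h1, h2.symm⟩
  by_cases hu : X u ∈ P
  · exact low_hyp ih he hF ht htM huv hβ hP hFP hu
  · have hPu : IsSub t (X u) P := isSub_iff.2 ⟨(isSub_iff.1 hP).1, hu⟩
    have h1 := key u v huv hβ P hPu hFP
    have hst : IRel (Ideal.span {F}) t (X b) ≤
        (IRel (Ideal.span {F}) t (X b)).comap (av e β) :=
      iRel_le_av hF.stable fun a => eig_wt_X _ _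
    have h2 := restr_iRel_le (l := X b) (l' := X u) hst (fun P₂ hP₂ hFP₂ hu₂ => by
      rw [Submodule.mem_comap]
      rw [Ideal.span_singleton_le_iff_mem] at hFP₂
      exact low_hyp ih he hF ht htM huv hβ hP₂ hFP₂ hu₂) (Submodule.mem_map_of_mem h1)
    rw [restr_av_pt hP.notMem, Submodule.mem_comap] at h2
    exact av_mem_of_av_av_mem h2

lemma wt_comp {K : Type u} [Field K] {N : ℕ} (e : AddChar (ZMod m) K) (β : Fin N → ι)
    (f : ι → ι) (a : ι → ZMod m) : wt e (f ∘ β) a = wt e β (a ∘ f) := rfl

lemma IsSF.comp {K : Type u} [Field K] {N : ℕ} {e : AddChar (ZMod m) K} {β : Fin N → ι}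
    {F : MvPolynomial (Fin N) K} (hF : IsSF e β F) (f : ι → ι) : IsSF e (f ∘ β) F where
  hom := hF.hom
  inv a := by
    rw [wt_comp, hF.inv]

/-- The average over the bigger group. -/
lemma av_mem_of_comp {K : Type u} [Field K] {N : ℕ} {e : AddChar (ZMod m) K} {β : Fin N → ι}
    (f : ι → ι) {S : Submodule ℚ (Ideal (MvPolynomial (Fin N) K) → ℚ)}
    (hS : S ≤ S.comap (av e β)) {c : Ideal (MvPolynomial (Fin N) K) → ℚ}
    (h : av e (f ∘ β) c ∈ S) : av e β c ∈ S := by
  have h1 := hS h
  rw [Submodule.mem_comap] at h1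
  have h2 : av e β (av e (f ∘ β) c) = (Fintype.card (ι → ZMod m) : ℚ) • av e β c := by
    rw [av_apply e (f ∘ β), map_sum]
    simp only [wt_comp, av_tr]
    rw [Finset.sum_const, Finset.card_univ, Nat.cast_smul_eq_nsmul]
  rw [h2] at h1
  have h3 := S.smul_mem (Fintype.card (ι → ZMod m) : ℚ)⁻¹ h1
  rwa [smul_smul, inv_mul_cancel₀ card_ne_zero', one_smul] at h3

/-- merging of two blocks -/
def mg (k₀ k₁ : ι) : ι → ι := fun k => if k = k₁ then k₀ else k

lemma card_image_mg {N : ℕ} (β : Fin N → ι) (k₀ k₁ : ι) :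
    (Finset.univ.image β).card ≤ (Finset.univ.image (mg k₀ k₁ ∘ β)).card + 1 := by
  have h1 : Finset.univ.image β ⊆ insert k₁ (Finset.univ.image (mg k₀ k₁ ∘ β)) := by
    intro k hk
    rw [Finset.mem_image] at hk
    obtain ⟨j, -, rfl⟩ := hk
    by_cases h : β j = k₁
    · rw [h]
      exact Finset.mem_insert_self _ _
    · apply Finset.mem_insert_of_mem
      rw [Finset.mem_image]
      exact ⟨j, Finset.mem_univ _, by simp [mg, h]⟩
  exact (Finset.card_le_card h1).trans (Finset.card_insert_le _ _)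

/-- **Averages of cycles of small dimension.** -/
theorem av_low : ∀ N : ℕ, LowSt.{u} m ι N := by
  intro N
  induction N with
  | zero =>
    intro K _ e he β F hF t b
    exact b.elim0
  | succ M ih =>
    intro K _ e he β F hF t b P ht htM hP hFP
    by_cases hβ : Function.Injective β
    · have hpos := pos_of_isSub hP
      have h2 : ∃ u v : Fin (M + 1), u ≠ v := by
        refine ⟨⟨0, by omega⟩, ⟨1, by omega⟩, ?_⟩
        intro h
        have := congrArg Fin.val h
        simp at this
      obtain ⟨u, v, huv⟩ := h2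
      have hcard : (Finset.univ.image β).card = M + 1 := by
        rw [Finset.card_image_of_injective _ hβ, Finset.card_univ, Fintype.card_fin]
      have h3 := card_image_mg β (β u) (β v)
      refine av_mem_of_comp (mg (β u) (β v)) (iRel_le_av hF.stable fun a => eig_wt_X _ _) ?_
      refine low_not_injective ih he (hF.comp _) (by omega) htM ?_ hP hFP
      intro h4
      apply huv
      apply h4
      simp [mg]
    · exact low_not_injective ih he hF ht htM hβ hP hFP

end low

end Pool.Agent.H835.AV
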