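import Pool.Agent.H835.AV.Char
import Mathlib.NumberTheory.LegendreSymbol.AddCharacter

set_option autoImplicit false
set_option linter.unusedSectionVars false

/-!
# Cycles of low dimension on intersections of sums of forms, over fields with roots of unity
-/

universe u

namespace Pool.Agent.H835.AV

open MvPolynomial Pool.Agent.W5h86.HC

section

variable {K : Type u} [Field K]

/-- The characters of `ℤ/m` given by primitive roots of unity. -/
lemma exists_good {m : ℕ} [NeZero m] {ζ : K} (hζ : IsPrimitiveRoot ζ m) {p a : ℕ} (hp : ExpChar K p)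
    {n : ℕ} (hn : n = m * p ^ a) : ∃ e : AddChar (ZMod m) K, Good e n := by
  refine ⟨AddChar.zmodChar m hζ.pow_eq_one, ?_, p, a, hp, hn⟩
  intro x hx
  rw [AddChar.zmodChar_apply, hζ.pow_eq_one_iff_dvd] at hx
  have h1 := ZMod.val_lt x
  have h2 : x.val = 0 := Nat.eq_zero_of_dvd_of_lt hx h1
  exact (ZMod.val_eq_zero x).1 h2

variable {m : ℕ} {ι : Type} [Fintype ι] [DecidableEq ι] [NeZero m] {e : AddChar (ZMod m) K}

/-- **Cycles of low dimension**, with roots of unity. -/
theorem low_of_good {n N ρ t : ℕ} (he : Good e n) {β : Fin N → ι} (hβ : Function.Surjective β)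
    (ht : 1 ≤ t) (hm : m * (t + ρ - 1) < Fintype.card ι) (G : Fin ρ → MvPolynomial (Fin N) K)
    (hG : ∀ i, SF β n (G i)) :
    ∃ (k : ℕ) (c : Fin k → Fin N), DimLe t (secI (Ideal.span (Set.range G)) c) ∧
      ∀ P, IsSub t 1 P → Ideal.span (Set.range G) ≤ P →
        pt P ∈ Submodule.span ℚ {icyc t (secI (Ideal.span (Set.range G)) c)} ⊔
          IRatEq (Ideal.span (Set.range G)) t := by
  have key : ∀ π : ι → ι, (Finset.univ.image π).card = t + ρ →
      AvTriv e (π ∘ β) t (Ideal.span (Set.range G)) := by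
    intro π hπ
    have h1 : Finset.univ.image (π ∘ β) = Finset.univ.image π := by
      ext x
      simp only [Finset.mem_image, Finset.mem_univ, true_and, Function.comp_apply]
      exact ⟨fun ⟨j, hj⟩ => ⟨_, hj⟩, fun ⟨k, hk⟩ => by
        obtain ⟨j, rfl⟩ := hβ k
        exact ⟨j, hk⟩⟩
    have h2 : t + ρ ≤ N := by
      rw [← hπ, ← h1]
      exact Finset.card_image_le.trans (by rw [Finset.card_univ, Fintype.card_fin])
    exact gen_proj (cls_CSF n) N K e (π ∘ β) t ρ _
      ⟨he, by rw [h1, hπ], G, fun i => (hG i).comp π, rfl⟩ h2 ht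
  have key2 : ∀ x : ι → ZMod m, ∑ k, x k = 0 → ∃ π : ι → ι,
      AvTriv e (π ∘ β) t (Ideal.span (Set.range G)) ∧ ∀ k, ∑ j with π j = k, x j = 0 := by
    intro x hx
    obtain ⟨π, h1, h2⟩ := exists_merge_of_card hm hx
    exact ⟨π, key π (by omega), h2⟩
  obtain ⟨π₀, h₀, -⟩ := key2 0 (by simp)
  have hst : Stable e β (Ideal.span (Set.range G)) := by
    intro a
    rw [Ideal.span_le]
    rintro _ ⟨i, rfl⟩
    rw [SetLike.mem_coe, Ideal.mem_comap, (hG i).inv he.dvd]
    exact Ideal.subset_span ⟨i, rfl⟩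
  obtain ⟨k, c, h3, h4⟩ := char_main hst h₀ (Pi.single 0 1) fun x hx _ => key2 x hx
  refine ⟨k, c, h3, fun P hP hIP => ?_⟩
  have h5 := h4 P hP hIP
  rw [Finset.sum_eq_single 0 (fun g _ hg => by rw [Pi.single_eq_of_ne hg, zero_smul])
    (fun h => absurd (Finset.mem_univ _) h), Pi.single_eq_same, one_smul, wt_zero, tr_one] at h5
  exact h5

end

end Pool.Agent.H835.AV
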