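import Pool.Agent.H835.AV.PanLin
import Pool.Agent.H835.AV.Gen2
import Pool.Agent.H835.AV.Codim

set_option autoImplicit false
set_option linter.unusedSectionVars false

/-!
# Averages of cycles when the dimension is the number of blocks minus one
-/

universe u

namespace Pool.Agent.H835.AV

open MvPolynomial Pool.Agent.W5h86 Pool.Agent.W5h86.HC

section cl

variable {ι : Type} [Fintype ι] [DecidableEq ι]

lemma cl_comap {K κ : Type u} [Field K] [Field κ] [Algebra K κ]
    (hsurj : Function.Surjective (algebraMap K κ)) {N N' : ℕ}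
    {φ : MvPolynomial (Fin N) K →ₐ[K] MvPolynomial (Fin N') κ} {r : Fin N → Fin N'}
    {c : Fin N → κ} (hφ : ∀ i, φ (X i) = C (c i) * X (r i)) {β : Fin N → ι} {β' : Fin N' → ι}
    (hβ : ∀ i, β i = β' (r i)) {Q : Ideal (MvPolynomial (Fin N') κ)} (hQ : Cl β' Q) :
    Cl β (Q.comap φ) := by
  intro i j hij
  have hC : ∀ x : K, φ (C x) = C (algebraMap K κ x) := by
    intro x
    have h1 : (C x : MvPolynomial (Fin N) K) = algebraMap K _ x := rfl
    rw [h1, AlgHom.commutes]
    rfl
  obtain ⟨a, b, hab, hmem⟩ := hQ (r i) (r j) (by rw [← hβ, ← hβ, hij])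
  by_cases hci : c i = 0
  · refine ⟨1, 0, Or.inl one_ne_zero, ?_⟩
    rw [Ideal.mem_comap, map_add, map_mul, map_mul, hφ, hci, hC, hC]
    simp
  · by_cases hcj : c j = 0
    · refine ⟨0, 1, Or.inr one_ne_zero, ?_⟩
      rw [Ideal.mem_comap, map_add, map_mul, map_mul, hφ j, hcj, hC, hC]
      simp
    · obtain ⟨a', ha'⟩ := hsurj (a * c j)
      obtain ⟨b', hb'⟩ := hsurj (b * c i)
      refine ⟨a', b', ?_, ?_⟩
      · rcases hab with h | h
        · left
          rintro rfl
          rw [map_zero] at ha'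
          exact mul_ne_zero h hcj ha'.symm
        · right
          rintro rfl
          rw [map_zero] at hb'
          exact mul_ne_zero h hci hb'.symm
      · rw [Ideal.mem_comap, map_add, map_mul, map_mul, hφ, hφ, hC, hC, ha', hb']
        have h1 := Q.mul_mem_left (C (c i * c j)) hmem
        convert h1 using 1
        simp only [map_mul]
        ring

variable {K : Type u} [Field K] {N : ℕ}

lemma Cl.comap_sc {m : ℕ} [NeZero m] {e : AddChar (ZMod m) K} {β : Fin N → ι}
    {Q : Ideal (MvPolynomial (Fin N) K)} (hQ : Cl β Q) (a : ι → ZMod m) :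
    Cl β (Q.comap (sc (wt e β a))) :=
  cl_comap (κ := K) Function.surjective_id (r := id) (c := wt e β a) (fun i => sc_X _ i)
    (fun _ => rfl) hQ

/-- The classes of the subvarieties for which the variables in each block are proportional. -/
noncomputable def pan (β : Fin N → ι) (I : Ideal (MvPolynomial (Fin N) K)) (t : ℕ)
    (l : MvPolynomial (Fin N) K) : Submodule ℚ (Ideal (MvPolynomial (Fin N) K) → ℚ) :=
  Submodule.span ℚ {c | ∃ Q, IsSub t l Q ∧ I ≤ Q ∧ Cl β Q ∧ c = pt Q}

lemma pt_mem_pan {β : Fin N → ι} {I Q : Ideal (MvPolynomial (Fin N) K)} {t : ℕ}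
    {l : MvPolynomial (Fin N) K} (h1 : IsSub t l Q) (h2 : I ≤ Q) (h3 : Cl β Q) :
    pt Q ∈ pan β I t l := Submodule.subset_span ⟨Q, h1, h2, h3, rfl⟩

lemma restr_pan_le {β : Fin N → ι} {I : Ideal (MvPolynomial (Fin N) K)} {t : ℕ}
    {l l' : MvPolynomial (Fin N) K} : (pan β I t l').map (restr l) ≤ pan β I t l := by
  unfold pan
  rw [Submodule.map_span_le]
  rintro c ⟨Q, h1, h2, h3, rfl⟩
  by_cases h4 : l ∈ Q
  · rw [restr_pt_of_mem h4]
    exact Submodule.zero_mem _
  · rw [restr_pt_of_not_mem h4]
    exact Submodule.subset_span ⟨Q, isSub_iff.2 ⟨(isSub_iff.1 h1).1, h4⟩, h2, h3, rfl⟩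

lemma pan_le_one {β : Fin N → ι} {I : Ideal (MvPolynomial (Fin N) K)} {t : ℕ}
    {l : MvPolynomial (Fin N) K} : pan β I t l ≤ pan β I t 1 := by
  unfold pan
  apply Submodule.span_mono
  rintro c ⟨Q, h1, h2, h3, h4⟩
  exact ⟨Q, (isSub_iff.1 h1).1, h2, h3, h4⟩

lemma pan_le_av {m : ℕ} [NeZero m] {e : AddChar (ZMod m) K} {β : Fin N → ι}
    {I : Ideal (MvPolynomial (Fin N) K)} (hI : Stable e β I) {t : ℕ}
    {l : MvPolynomial (Fin N) K} (hl : ∀ a : ι → ZMod m, Eig (wt e β a) l) :
    pan β I t l ≤ (pan β I t l).comap (av e β) := by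
  refine av_map_le fun a => ?_
  unfold pan
  rw [Submodule.map_span_le]
  rintro c ⟨Q, h1, h2, h3, rfl⟩
  rw [tr_pt (wt_mul_neg e β a)]
  refine Submodule.subset_span ⟨_, ?_, (hI (-a)).trans (Ideal.comap_mono h2), h3.comap_sc _, rfl⟩
  exact (isSub_comap_sc_iff (wt_neg_mul e β a) (hl (-a)) (hl a)).2 h1

lemma av_pt_mem_pan {m : ℕ} [NeZero m] {e : AddChar (ZMod m) K} {β : Fin N → ι}
    {I : Ideal (MvPolynomial (Fin N) K)} (hI : Stable e β I) {t : ℕ}
    {l : MvPolynomial (Fin N) K} (hl : ∀ a : ι → ZMod m, Eig (wt e β a) l)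
    {Q : Ideal (MvPolynomial (Fin N) K)} (h1 : IsSub t l Q) (h2 : I ≤ Q) (h3 : Cl β Q) :
    av e β (pt Q) ∈ pan β I t l := pan_le_av hI hl (pt_mem_pan h1 h2 h3)

lemma push_pan_le {κ : Type u} [Field κ] [Algebra K κ]
    (hsurj : Function.Surjective (algebraMap K κ)) {N' : ℕ}
    {φ : MvPolynomial (Fin N) K →ₐ[K] MvPolynomial (Fin N') κ} {l : MvPolynomial (Fin N) K}
    (h : IsFib φ l) (hδ : Algebra.trdeg K κ = (0 : ℕ)) {r : Fin N → Fin N'}
    {c : Fin N → κ} (hφ : ∀ i, φ (X i) = C (c i) * X (r i)) {β : Fin N → ι} {β' : Fin N' → ι}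
    (hβ : ∀ i, β i = β' (r i)) {I : Ideal (MvPolynomial (Fin N) K)}
    {I' : Ideal (MvPolynomial (Fin N') κ)} (hI : I ≤ I'.comap φ) {t : ℕ} :
    (pan β' I' t (φ l)).map (push φ l t) ≤ pan β I t l := by
  unfold pan
  rw [Submodule.map_span_le]
  rintro _ ⟨Q, h1, h2, h3, rfl⟩
  rw [push_pt h h1]
  have h4 := h.isSub_comap hδ h1
  rw [add_zero] at h4
  exact Submodule.subset_span ⟨_, h4, hI.trans (Ideal.comap_mono h2),
    cl_comap hsurj hφ hβ h3, rfl⟩

end cl

section bin

variable {K : Type u} [Field K] {N : ℕ}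

lemma aeval_congr_supported {L : Type u} [CommRing L] [Algebra K L] {s : Set (Fin N)}
    {f : MvPolynomial (Fin N) K} (hf : f ∈ supported K s) {x y : Fin N → L}
    (h : ∀ j ∈ s, x j = y j) : aeval x f = aeval y f := by
  rw [supported_eq_adjoin_X] at hf
  induction hf using Algebra.adjoin_induction with
  | mem g hg =>
    obtain ⟨j, hj, rfl⟩ := hg
    rw [aeval_X, aeval_X]
    exact h j hj
  | algebraMap r => rw [AlgHom.commutes, AlgHom.commutes]
  | add f g _ _ hf hg => rw [map_add, map_add, hf, hg]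
  | mul f g _ _ hf hg => rw [map_mul, map_mul, hf, hg]

/-- The prime ideals over a binary form. -/
lemma bin [IsAlgClosed K] {F : MvPolynomial (Fin N) K} {n : ℕ} (hF : IsHomogeneous F n)
    (hF0 : F ≠ 0) {i j : Fin N} (hij : i ≠ j) (hs : F ∈ supported K {i, j})
    {P : Ideal (MvPolynomial (Fin N) K)} (hP : P.IsPrime) (hFP : F ∈ P) :
    ∃ a b : K, (a ≠ 0 ∨ b ≠ 0) ∧ C a * X i + C b * X j ∈ P := by
  classical
  have hinf : Infinite K := IsAlgClosed.instInfinite
  by_cases hj : X j ∈ P
  · exact ⟨0, 1, Or.inr one_ne_zero, by simpa using hj⟩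
  · have hj0 : HC.cls P (X j) ≠ 0 := fun h => hj ((cls_eq_zero _).1 h)
    set x := HC.cls P (X i) / HC.cls P (X j) with hx
    let g : Fin N → Polynomial K := fun k => if k = j then 1 else if k = i then Polynomial.X else 0
    set f : Polynomial K := aeval g F with hf
    have h1 : ∀ {L : Type u} [Field L] [Algebra K L] (y : L),
        Polynomial.aeval y f = aeval (fun k => if k = j then 1 else if k = i then y else 0) F := by
      intro L _ _ y
      have h2 : (Polynomial.aeval y).comp (aeval g : MvPolynomial (Fin N) K →ₐ[K] Polynomial K) =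
          aeval (fun k => if k = j then 1 else if k = i then y else 0) := by
        apply MvPolynomial.algHom_ext
        intro k
        rw [AlgHom.comp_apply, aeval_X, aeval_X]
        simp only [g]
        split_ifs <;> simp
      exact DFunLike.congr_fun h2 F
    have hf0 : f ≠ 0 := by
      intro h
      have h2 : F * X j = 0 := by
        apply MvPolynomial.funext
        intro y
        rw [map_mul, eval_X, map_zero]
        by_cases hy : y j = 0
        · rw [hy, mul_zero]
        · have h3 := h1 (y i / y j)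
          rw [h, map_zero] at h3
          have h4 := aeval_smul_point (L := K) hF (y j)
            (fun k => if k = j then 1 else if k = i then y i / y j else 0)
          rw [← h3, mul_zero] at h4
          have h5 : eval y F = 0 := by
            rw [← coe_aeval_eq_eval]
            refine Eq.trans (aeval_congr_supported hs ?_) h4
            intro k hk
            rcases hk with rfl | hk
            · rw [if_neg hij, if_pos rfl, mul_div_cancel₀ _ hy]
            · have hk' : k = j := hk
              rw [hk', if_pos rfl, mul_one]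
          rw [h5, zero_mul]
      rcases mul_eq_zero.1 h2 with h3 | h3
      · exact hF0 h3
      · exact X_ne_zero j h3
    have h2 : Polynomial.aeval x f = 0 := by
      have h3 := aeval_smul_point (L := FF P) hF (HC.cls P (X j))
        (fun k => if k = j then 1 else if k = i then x else 0)
      have h4 : aeval (fun k => HC.cls P (X k)) F = 0 := by
        have h5 : (aeval (fun k => HC.cls P (X k)) : MvPolynomial (Fin N) K →ₐ[K] FF P) =
            HC.cls P := by
          apply MvPolynomial.algHom_ext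
          intro k
          rw [aeval_X]
        rw [h5]
        exact (cls_eq_zero _).2 hFP
      have h5 : aeval (fun k => HC.cls P (X j) * (if k = j then 1 else if k = i then x else 0)) F =
          aeval (fun k => HC.cls P (X k)) F := by
        refine aeval_congr_supported hs ?_
        intro k hk
        rcases hk with rfl | hk
        · rw [if_neg hij, if_pos rfl, hx, mul_div_cancel₀ _ hj0]
        · have hk' : k = j := hk
          rw [hk', if_pos rfl, mul_one]
      rw [h5, h4] at h3
      rw [h1]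
      exact (mul_eq_zero.1 h3.symm).resolve_left (pow_ne_zero _ hj0)
    have h3 : IsAlgebraic K x := ⟨f, hf0, h2⟩
    obtain ⟨c, hc⟩ : ∃ c : K, algebraMap K (FF P) c = x := by
      have h4 : IsIntegral K x := h3.isIntegral
      exact minpoly.mem_range_of_degree_eq_one K x
        (IsAlgClosed.degree_eq_one_of_irreducible K (minpoly.irreducible h4))
    refine ⟨1, -c, Or.inl one_ne_zero, ?_⟩
    rw [← cls_eq_zero, map_add, map_mul, map_mul]
    have h4 : ∀ a : K, HC.cls P (C a) = algebraMap K (FF P) a := by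
      intro a
      have h5 : (C a : MvPolynomial (Fin N) K) = algebraMap K _ a := rfl
      rw [h5, AlgHom.commutes]
    rw [h4, h4, map_neg, hc, map_one, one_mul, hx, neg_mul, div_mul_cancel₀ _ hj0, add_neg_cancel]

end bin

end Pool.Agent.H835.AV
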