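import Pool.Agent.H835.AV.Conj

set_option autoImplicit false
set_option linter.unusedSectionVars false

/-!
# Ideals generated by sums of forms in disjoint blocks of variables
-/

universe u

namespace Pool.Agent.H835.AV

open MvPolynomial Pool.Agent.W5h86.HC

variable {m : ℕ} {ι : Type} [Fintype ι] [DecidableEq ι] [NeZero m]

/-- `F` is a sum of forms of degree `n`, one for each block of variables (`β j` is the block of the
variable `X j`). -/
def SF {K : Type u} [Field K] {N : ℕ} (β : Fin N → ι) (n : ℕ) (F : MvPolynomial (Fin N) K) :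
    Prop :=
  ∃ G : ι → MvPolynomial (Fin N) K, (∀ k, IsHomogeneous (G k) n) ∧
    (∀ k, G k ∈ supported K {j | β j = k}) ∧ F = ∑ k, G k

section basic

variable {K : Type u} [Field K] {N : ℕ} {β : Fin N → ι} {n : ℕ}
  {F : MvPolynomial (Fin N) K}

lemma SF.hom (h : SF β n F) : IsHomogeneous F n := by
  obtain ⟨G, h1, -, rfl⟩ := h
  exact IsHomogeneous.sum _ _ _ fun k _ => h1 k

lemma sum_eq_of_coeff {G : MvPolynomial (Fin N) K} (hG : IsHomogeneous G n) {d : Fin N →₀ ℕ}
    (hd : coeff d G ≠ 0) : ∑ j, d j = n := by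
  have h1 := hG hd
  rw [Finsupp.weight_apply, Finsupp.sum_fintype _ _ (fun i => by simp)] at h1
  rw [← h1]
  refine Finset.sum_congr rfl fun j _ => ?_
  simp

lemma mem_of_coeff {G : MvPolynomial (Fin N) K} {s : Set (Fin N)} (hG : G ∈ supported K s)
    {d : Fin N →₀ ℕ} (hd : coeff d G ≠ 0) {j : Fin N} (hj : d j ≠ 0) : j ∈ s := by
  rw [mem_supported] at hG
  apply hG
  rw [Finset.mem_coe, mem_vars_iff_mem_support]
  exact ⟨d, mem_support_iff.2 hd, Finsupp.mem_support_iff.2 hj⟩

lemma sc_of_supported {G : MvPolynomial (Fin N) K} (hG : IsHomogeneous G n) {s : Set (Fin N)}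
    (hs : G ∈ supported K s) {w : Fin N → K} {z : K} (hw : ∀ j ∈ s, w j = z) :
    sc w G = C (z ^ n) * G := by
  ext d
  rw [coeff_sc, coeff_C_mul]
  by_cases hd : coeff d G = 0
  · rw [hd, mul_zero, mul_zero]
  · congr 1
    rw [← sum_eq_of_coeff hG hd, ← Finset.prod_pow_eq_pow_sum]
    refine Finset.prod_congr rfl fun j _ => ?_
    by_cases hj : d j = 0
    · rw [hj, pow_zero, pow_zero]
    · rw [hw j (mem_of_coeff hs hd hj)]

lemma SF.inv (h : SF β n F) (hmn : m ∣ n) {e : AddChar (ZMod m) K} (a : ι → ZMod m) :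
    sc (wt e β a) F = F := by
  obtain ⟨G, h1, h2, rfl⟩ := h
  rw [map_sum]
  refine Finset.sum_congr rfl fun k _ => ?_
  have h3 : ∀ j ∈ ({j | β j = k} : Set (Fin N)), wt e β a j = e (a k) := by
    intro j hj
    have h4 : β j = k := hj
    unfold wt
    rw [h4]
  rw [sc_of_supported (h1 k) (h2 k) h3, ← AddChar.map_nsmul_eq_pow, nsmul_eq_mul,
    (ZMod.natCast_eq_zero_iff n m).2 hmn, zero_mul, AddChar.map_zero_eq_one, map_one, one_mul]

lemma lsub_mem_supported {κ : Type u} [Field κ] [Algebra K κ] {N' : ℕ}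
    (B : Matrix (Fin N) (Fin N') κ) {s : Set (Fin N)} {s' : Set (Fin N')}
    (hB : ∀ j ∈ s, lsub K B (X j) ∈ supported κ s') {G : MvPolynomial (Fin N) K}
    (hG : G ∈ supported K s) : lsub K B G ∈ supported κ s' := by
  rw [supported_eq_adjoin_X] at hG
  induction hG using Algebra.adjoin_induction with
  | mem x hx =>
    obtain ⟨j, hj, rfl⟩ := hx
    exact hB j hj
  | algebraMap r =>
    rw [algebraMap_eq, lsub_C]
    exact Subalgebra.algebraMap_mem _ _
  | add x y _ _ hx hy =>
    rw [map_add]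
    exact Subalgebra.add_mem _ hx hy
  | mul x y _ _ hx hy =>
    rw [map_mul]
    exact Subalgebra.mul_mem _ hx hy

lemma SF.comp (h : SF β n F) (f : ι → ι) : SF (f ∘ β) n F := by
  obtain ⟨G, h1, h2, rfl⟩ := h
  refine ⟨fun k' => ∑ k with f k = k', G k, fun k' => ?_, fun k' => ?_, ?_⟩
  · exact IsHomogeneous.sum _ _ _ fun k _ => h1 k
  · refine Subalgebra.sum_mem _ fun k hk => ?_
    refine supported_mono ?_ (h2 k)
    intro j hj
    have h3 : β j = k := hj
    change f (β j) = k'
    rw [h3]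
    exact (Finset.mem_filter.1 hk).2
  · exact (Finset.sum_fiberwise Finset.univ f G).symm

/-- If each block has at most one variable, then `F` is a diagonal form. -/
lemma SF.diagonal (h : SF β n F) (hn : 0 < n) (hβ : Function.Injective β) :
    F = pw (fun _ => n) (lform fun j => coeff (Finsupp.single j n) F) := by
  classical
  obtain ⟨G, h1, h2, hF⟩ := h
  have key : ∀ d, coeff d F ≠ 0 → ∃ j, d = Finsupp.single j n := by
    intro d hd
    rw [hF, coeff_sum] at hd
    obtain ⟨k, -, hk⟩ := Finset.exists_ne_zero_of_sum_ne_zero hd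
    have h3 := sum_eq_of_coeff (h1 k) hk
    obtain ⟨j, -, hj⟩ := Finset.exists_ne_zero_of_sum_ne_zero (by
      rw [h3]
      exact hn.ne' : ∑ j, d j ≠ 0)
    refine ⟨j, ?_⟩
    have h4 : ∀ i, i ≠ j → d i = 0 := by
      intro i hi
      by_contra hcon
      have h5 : β i = k := mem_of_coeff (h2 k) hk hcon
      have h6 : β j = k := mem_of_coeff (h2 k) hk hj
      exact hi (hβ (h5.trans h6.symm))
    rw [Finset.sum_eq_single j (fun i _ hi => h4 i hi) (by simp)] at h3
    ext i
    by_cases hi : i = j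
    · rw [hi, Finsupp.single_eq_same, h3]
    · rw [h4 i hi, Finsupp.single_eq_of_ne hi]
  have h7 : pw (fun _ => n) (lform fun j => coeff (Finsupp.single j n) F) =
      ∑ j, monomial (Finsupp.single j n) (coeff (Finsupp.single j n) F) := by
    unfold lform
    rw [map_sum]
    refine Finset.sum_congr rfl fun j _ => ?_
    rw [map_mul, pw_X, ← C_mul_X_pow_eq_monomial]
    congr 1
    unfold pw
    rw [aeval_C]
    rfl
  rw [h7]
  ext d
  rw [coeff_sum]
  by_cases hd : coeff d F = 0
  · rw [hd, Finset.sum_eq_zero]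
    intro j _
    rw [coeff_monomial]
    split_ifs with h8
    · rw [h8, hd]
    · rfl
  · obtain ⟨j, rfl⟩ := key d hd
    rw [Finset.sum_eq_single j]
    · rw [coeff_monomial, if_pos rfl]
    · intro i _ hi
      rw [coeff_monomial, if_neg]
      intro h8
      exact hi ((Finsupp.single_left_injective hn.ne') h8)
    · simp

end basic

section step

variable {K : Type u} [Field K] {M n : ℕ} {β : Fin (M + 1) → ι}
  {F : MvPolynomial (Fin (M + 1)) K}

lemma SF.fm (h : SF β n F) {v : Fin (M + 1)} {u' : Fin M}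
    (hβ : β v = β (v.succAbove u')) {κ : Type u} [Field κ] [Algebra K κ] (θ : κ) :
    SF (β ∘ v.succAbove) n (lsub K (fm v u' θ) F) := by
  obtain ⟨G, h1, h2, rfl⟩ := h
  refine ⟨fun k => lsub K (AV.fm v u' θ) (G k), fun k => isHomogeneous_lsub _ (h1 k), fun k => ?_,
    map_sum _ _ _⟩
  refine lsub_mem_supported _ (fun j hj => ?_) (h2 k)
  have hj' : β j = k := hj
  rcases Fin.eq_self_or_eq_succAbove v j with hi | ⟨i, hi⟩
  · rw [hi, lsub_fm_self]
    refine Subalgebra.mul_mem _ (Subalgebra.algebraMap_mem _ θ) ?_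
    rw [X_mem_supported]
    change β (v.succAbove u') = k
    rw [← hβ, ← hi, hj']
  · rw [hi, lsub_fm_succAbove, X_mem_supported]
    change β (v.succAbove i) = k
    rw [← hi, hj']

lemma SF.zi (h : SF β n F) (u : Fin (M + 1)) :
    SF (β ∘ u.succAbove) n (lsub K (zi K u) F) := by
  obtain ⟨G, h1, h2, rfl⟩ := h
  refine ⟨fun k => lsub K (AV.zi K u) (G k), fun k => isHomogeneous_lsub _ (h1 k), fun k => ?_,
    map_sum _ _ _⟩
  refine lsub_mem_supported _ (fun j hj => ?_) (h2 k)
  have hj' : β j = k := hj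
  rcases Fin.eq_self_or_eq_succAbove u j with hi | ⟨i, hi⟩
  · rw [hi, lsub_zi_self]
    exact Subalgebra.zero_mem _
  · rw [hi, lsub_zi_succAbove, X_mem_supported]
    change β (u.succAbove i) = k
    rw [← hi, hj']

end step

/-- The ideals generated by `ρ` sums of forms. -/
def CSF (m : ℕ) [NeZero m] (ι : Type) [Fintype ι] [DecidableEq ι] (n : ℕ) (κ : Type u) [Field κ]
    (M : ℕ) (e : AddChar (ZMod m) κ) (β : Fin M → ι) (t ρ : ℕ)
    (I : Ideal (MvPolynomial (Fin M) κ)) : Prop :=
  Good e n ∧ t + ρ ≤ (Finset.univ.image β).card ∧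
    ∃ G : Fin ρ → MvPolynomial (Fin M) κ, (∀ i, SF β n (G i)) ∧ I = Ideal.span (Set.range G)

lemma map_span_range {K κ : Type u} [Field K] [Field κ] {N N' ρ : ℕ}
    (φ : MvPolynomial (Fin N) K →+* MvPolynomial (Fin N') κ)
    (G : Fin ρ → MvPolynomial (Fin N) K) :
    (Ideal.span (Set.range G)).map φ = Ideal.span (Set.range fun i => φ (G i)) := by
  rw [Ideal.map_span, ← Set.range_comp]
  rfl

/-- **Transitivity for diagonal forms**, or fewer equations suffice. -/
lemma top_diagonal {κ : Type u} [Field κ] {M : ℕ} {e : AddChar (ZMod m) κ} {β : Fin M → ι}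
    {t ρ n : ℕ} (hn : Good e n) (hβ : Function.Injective β) (hM : M = t + ρ)
    (G : Fin ρ → MvPolynomial (Fin M) κ) (hG : ∀ i, SF β n (G i)) :
    (∃ ρ' < ρ, ∃ G' : Fin ρ' → MvPolynomial (Fin M) κ, (∀ i, SF β n (G' i)) ∧
      Ideal.span (Set.range G) = Ideal.span (Set.range G')) ∨
    Top e β t (Ideal.span (Set.range G)) := by
  set ℓ : Fin ρ → Fin M → κ := fun i j => coeff (Finsupp.single j n) (G i) with hℓ
  have hGℓ : ∀ i, G i = pw (fun _ => n) (lform (ℓ i)) := fun i => (hG i).diagonal hn.pos hβ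
  by_cases hli : LinearIndependent κ ℓ
  · right
    have h1 := isSub_linear ρ M t ℓ hli hM
    have hJ : Alone β Finset.univ := fun j _ i h => hβ h
    have hk : kJ n (Finset.univ : Finset (Fin M)) = fun _ => n := by
      funext j
      simp [kJ]
    refine top_of_prime hJ hn h1.prime h1.trdeg ?_
    rw [Ideal.span_le]
    rintro _ ⟨i, rfl⟩
    rw [SetLike.mem_coe, Ideal.mem_comap, hk, ← hGℓ]
    exact Ideal.subset_span ⟨i, rfl⟩
  · left
    rw [Fintype.not_linearIndependent_iff] at hli
    obtain ⟨g, hg, i₀, hi₀⟩ := hli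
    obtain ⟨ρ', rfl⟩ : ∃ ρ', ρ = ρ' + 1 := ⟨ρ - 1, by have := i₀.2; omega⟩
    refine ⟨ρ', Nat.lt_succ_self _, fun i => G (i₀.succAbove i), fun i => hG _, ?_⟩
    apply le_antisymm
    · rw [Ideal.span_le]
      rintro _ ⟨i, rfl⟩
      rw [SetLike.mem_coe]
      rcases Fin.eq_self_or_eq_succAbove i₀ i with h1 | ⟨i', h1⟩
      · rw [h1]
        have h2 : ∑ i, C (g i) * G i = 0 := by
          have h3 : ∑ i, C (g i) * lform (ℓ i) = 0 := by
            have h4 : ∀ i, C (g i) * lform (ℓ i) = lform (g i • ℓ i) := by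
              intro i
              unfold lform
              rw [Finset.mul_sum]
              refine Finset.sum_congr rfl fun j _ => ?_
              rw [Pi.smul_apply, smul_eq_mul, map_mul, mul_assoc]
            have h5 : ∑ i, lform (g i • ℓ i) = lform (∑ i, g i • ℓ i) := by
              unfold lform
              rw [Finset.sum_comm]
              refine Finset.sum_congr rfl fun j _ => ?_
              rw [← Finset.sum_mul, ← map_sum, Finset.sum_apply]
            rw [Finset.sum_congr rfl fun i _ => h4 i, h5, hg]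
            simp [lform]
          have h6 := congrArg (pw (fun _ => n)) h3
          rw [map_sum, map_zero] at h6
          rw [← h6]
          refine Finset.sum_congr rfl fun i _ => ?_
          rw [map_mul, ← hGℓ]
          congr 1
          unfold pw
          rw [aeval_C]
          rfl
        rw [Fin.sum_univ_succAbove _ i₀] at h2
        have h7 : G i₀ = ∑ i, C (-(g i₀)⁻¹ * g (i₀.succAbove i)) * G (i₀.succAbove i) := by
          have h8 : C (g i₀) * G i₀ = -∑ i, C (g (i₀.succAbove i)) * G (i₀.succAbove i) :=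
            eq_neg_of_add_eq_zero_left h2
          have h9 : G i₀ = C (g i₀)⁻¹ * (C (g i₀) * G i₀) := by
            rw [← mul_assoc, ← map_mul, inv_mul_cancel₀ hi₀, map_one, one_mul]
          rw [h9, h8, mul_neg, Finset.mul_sum, ← Finset.sum_neg_distrib]
          refine Finset.sum_congr rfl fun i _ => ?_
          rw [map_mul, map_neg]
          ring
        rw [h7]
        exact Ideal.sum_mem _ fun i _ => Ideal.mul_mem_left _ _ (Ideal.subset_span ⟨i, rfl⟩)
      · rw [h1]
        exact Ideal.subset_span ⟨i', rfl⟩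
    · apply Ideal.span_mono
      rintro _ ⟨i, rfl⟩
      exact ⟨_, rfl⟩

theorem cls_CSF (n : ℕ) : Cls m ι (CSF.{u} m ι n) where
  gens := by
    rintro κ _ M e β t ρ I ⟨-, -, G, hG, rfl⟩
    exact ⟨G, fun i => ⟨n, (hG i).hom⟩, rfl⟩
  stable := by
    rintro κ _ M e β t ρ I ⟨hn, -, G, hG, rfl⟩ a
    rw [Ideal.span_le]
    rintro _ ⟨i, rfl⟩
    rw [SetLike.mem_coe, Ideal.mem_comap, (hG i).inv hn.dvd]
    exact Ideal.subset_span ⟨i, rfl⟩
  lower := by
    rintro κ _ M e β t ρ I ⟨hn, h, G, hG, rfl⟩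
    exact ⟨hn, by omega, G, hG, rfl⟩
  fm := by
    rintro κ _ M e β t ρ I v u' hβ ⟨hn, h, G, hG, rfl⟩ κ' _ _ θ
    refine ⟨hn.ex, ?_, fun i => lsub κ (fm v u' θ) (G i), fun i => (hG i).fm hβ θ, ?_⟩
    · rw [image_comp_succAbove (Fin.succAbove_ne v u') hβ]
      exact h
    · exact map_span_range _ G
  zi := by
    rintro κ _ M e β t ρ I v w hw hβ ⟨hn, h, G, hG, rfl⟩
    refine ⟨hn, ?_, fun i => lsub κ (zi κ v) (G i), fun i => (hG i).zi v, ?_⟩
    · rw [image_comp_succAbove hw hβ]
      exact h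
    · exact map_span_range _ G
  top := by
    rintro κ _ M e β t ρ I ⟨hn, h, G, hG, rfl⟩ hM
    rcases top_diagonal hn (injective_of_card (by omega)) hM G hG with
      ⟨ρ', h1, G', h2, h3⟩ | h1
    · exact Or.inl ⟨ρ', h1, hn, by omega, G', h2, h3⟩
    · exact Or.inr h1
  merge := by
    rintro κ _ M e β t ρ I ⟨hn, h, G, hG, rfl⟩ hβ ht ht1
    obtain ⟨u, v, huv⟩ : ∃ u v : Fin M, u ≠ v := by
      refine ⟨⟨0, by omega⟩, ⟨1, by omega⟩, ?_⟩
      intro h
      have := congrArg Fin.val h
      simp at this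
    have hcard : (Finset.univ.image β).card = M := by
      rw [Finset.card_image_of_injective _ hβ, Finset.card_univ, Fintype.card_fin]
    have h3 := card_image_mg β (β u) (β v)
    refine ⟨mg (β u) (β v), ?_, hn, by omega, G, fun i => (hG i).comp _, rfl⟩
    intro h4
    apply huv
    apply h4
    simp [mg]

end Pool.Agent.H835.AV
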