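import Pool.Agent.H835.AV.Roitman
import Pool.Agent.H835.AV.SF

set_option autoImplicit false
set_option linter.unusedSectionVars false

/-!
# Cycles for which the variables in each block are proportional
-/

universe u

namespace Pool.Agent.H835.AV

open MvPolynomial Pool.Agent.W5h86 Pool.Agent.W5h86.HC

section gam

variable {K : Type u} [Field K] {N : ℕ}

/-- `f(q + T v)` as a polynomial in `T` with coefficients in `K[v]`. -/
noncomputable def Gam (q : Fin N → K) :
    MvPolynomial (Fin N) K →ₐ[K] Polynomial (MvPolynomial (Fin N) K) :=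
  aeval fun j => Polynomial.C (C (q j)) + Polynomial.X * Polynomial.C (X j)

lemma gam_coeff_hom (q : Fin N → K) (f : MvPolynomial (Fin N) K) :
    ∀ i, IsHomogeneous ((Gam q f).coeff i) i := by
  induction f using MvPolynomial.induction_on with
  | C a =>
    intro i
    have h1 : Gam q (C a) = Polynomial.C (C a) := by
      unfold Gam
      rw [aeval_C]
      rfl
    rw [h1, Polynomial.coeff_C]
    split_ifs with h
    · rw [h]
      exact isHomogeneous_C _ _
    · exact isHomogeneous_zero _ _ _
  | add f g hf hg =>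
    intro i
    rw [map_add, Polynomial.coeff_add]
    exact (hf i).add (hg i)
  | mul_X f j hf =>
    intro i
    have h1 : Gam q (X j) = Polynomial.C (C (q j)) + Polynomial.X * Polynomial.C (X j) := by
      unfold Gam
      rw [aeval_X]
    have h2 : Gam q f * (Polynomial.X * Polynomial.C (X j)) =
        Polynomial.C (X j) * Gam q f * Polynomial.X := by ring
    rw [map_mul, h1, mul_add, Polynomial.coeff_add, Polynomial.coeff_mul_C, h2]
    refine IsHomogeneous.add ?_ ?_
    · have h3 := (hf i).mul (isHomogeneous_C (Fin N) (q j))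
      rw [add_zero] at h3
      exact h3
    · cases i with
      | zero =>
        rw [Polynomial.coeff_mul_X_zero]
        exact isHomogeneous_zero _ _ _
      | succ i =>
        rw [Polynomial.coeff_mul_X, Polynomial.coeff_C_mul]
        have h3 := (isHomogeneous_X K j).mul (hf i)
        rw [add_comm] at h3
        exact h3

lemma gam_eval (q v : Fin N → K) (τ : K) (f : MvPolynomial (Fin N) K) :
    Polynomial.eval τ ((Gam q f).map (eval v)) = eval (q + τ • v) f := by
  induction f using MvPolynomial.induction_on with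
  | C a =>
    have h1 : Gam q (C a) = Polynomial.C (C a) := by
      unfold Gam
      rw [aeval_C]
      rfl
    rw [h1]
    simp
  | add f g hf hg => rw [map_add, Polynomial.map_add, Polynomial.eval_add, hf, hg, map_add]
  | mul_X f j hf =>
    have h1 : Gam q (X j) = Polynomial.C (C (q j)) + Polynomial.X * Polynomial.C (X j) := by
      unfold Gam
      rw [aeval_X]
    rw [map_mul, Polynomial.map_mul, Polynomial.eval_mul, hf, h1, map_mul]
    simp only [Polynomial.map_add, Polynomial.map_mul, Polynomial.map_C, Polynomial.map_X,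
      Polynomial.eval_add, Polynomial.eval_mul, Polynomial.eval_C, Polynomial.eval_X, eval_C,
      eval_X, Pi.add_apply, Pi.smul_apply, smul_eq_mul]

lemma gam_natDegree (q : Fin N → K) {f : MvPolynomial (Fin N) K} {n : ℕ}
    (hf : IsHomogeneous f n) : (Gam q f).natDegree ≤ n := by
  have h0 : Gam q f = ∑ d ∈ f.support, Gam q (monomial d (coeff d f)) := by
    conv_lhs => rw [f.as_sum]
    rw [map_sum]
  rw [h0]
  refine Polynomial.natDegree_sum_le_of_forall_le _ _ fun d hd => ?_
  have h1 : Gam q (monomial d (coeff d f)) = Polynomial.C (C (coeff d f)) *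
      ∏ j, (Polynomial.C (C (q j)) + Polynomial.X * Polynomial.C (X j)) ^ d j := by
    unfold Gam
    rw [aeval_monomial, Finsupp.prod_fintype _ _ fun i => by rw [pow_zero]]
    rfl
  rw [h1]
  refine (Polynomial.natDegree_C_mul_le _ _).trans ?_
  refine (Polynomial.natDegree_prod_le _ _).trans ?_
  rw [← sum_eq_of_coeff hf (mem_support_iff.1 hd)]
  refine Finset.sum_le_sum fun j _ => ?_
  refine (Polynomial.natDegree_pow_le).trans ?_
  have h2 : (Polynomial.C (C (q j)) + Polynomial.X * Polynomial.C (X j) :
      Polynomial (MvPolynomial (Fin N) K)).natDegree ≤ 1 := by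
    refine (Polynomial.natDegree_add_le _ _).trans (max_le ?_ ?_)
    · rw [Polynomial.natDegree_C]
      omega
    · refine (Polynomial.natDegree_mul_le).trans ?_
      rw [Polynomial.natDegree_C]
      exact (Polynomial.natDegree_X_le)
  calc d j * (Polynomial.C (C (q j)) + Polynomial.X * Polynomial.C (X j) :
      Polynomial (MvPolynomial (Fin N) K)).natDegree ≤ d j * 1 := Nat.mul_le_mul_left _ h2
    _ = d j := mul_one _

lemma eval_smul_hom {f : MvPolynomial (Fin N) K} {n : ℕ} (hf : IsHomogeneous f n) (c : K)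
    (x : Fin N → K) : eval (c • x) f = c ^ n * eval x f := by
  have h := aeval_smul_point (L := K) hf c x
  rw [← coe_aeval_eq_eval, ← coe_aeval_eq_eval]
  exact h

/-- Points with contact of order `n`. -/
lemma contact [Infinite K] {f : MvPolynomial (Fin N) K} {n : ℕ}
    (hf : IsHomogeneous f n) {q v : Fin N → K} (hq : eval q f = 0)
    (hv : ∀ i, 0 < i → i < n → eval v ((Gam q f).coeff i) = 0) (y w : K) :
    eval (y • q + w • v) f = w ^ n * eval v f := by
  set c := eval v ((Gam q f).coeff n) with hc
  have h1 : ∀ τ : K, eval (q + τ • v) f = c * τ ^ n := by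
    intro τ
    rw [← gam_eval]
    have h2 : (Gam q f).map (eval v) = Polynomial.C c * Polynomial.X ^ n := by
      ext i
      rw [Polynomial.coeff_map, Polynomial.coeff_C_mul_X_pow]
      split_ifs with h
      · rw [h]
      · rcases Nat.lt_or_ge n i with h3 | h3
        · rw [Polynomial.coeff_eq_zero_of_natDegree_lt ((gam_natDegree q hf).trans_lt h3),
            map_zero]
        · rcases Nat.eq_zero_or_pos i with h4 | h4
          · rw [h4, ← Polynomial.coeff_map, Polynomial.coeff_zero_eq_eval_zero, gam_eval,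
              zero_smul, add_zero, hq]
          · exact hv i h4 (by omega)
    rw [h2]
    simp
  have h2 : ∀ y w : K, y ≠ 0 → eval (y • q + w • v) f = c * w ^ n := by
    intro y w hy
    have h3 : y • q + w • v = y • (q + (w / y) • v) := by
      rw [smul_add, smul_smul, mul_div_cancel₀ _ hy]
    rw [h3, eval_smul_hom hf, h1, div_pow]
    field_simp
  have h3 : eval v f = c := by
    let r : Polynomial K := aeval (fun j => Polynomial.C (q j) * Polynomial.X +
      Polynomial.C (v j)) f
    have hr : ∀ y : K, r.eval y = eval (y • q + v) f := by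
      intro y
      have h5 : (Polynomial.aeval y).comp (aeval (fun j => Polynomial.C (q j) * Polynomial.X +
          Polynomial.C (v j)) : MvPolynomial (Fin N) K →ₐ[K] Polynomial K) =
          aeval (y • q + v) := by
        apply MvPolynomial.algHom_ext
        intro j
        rw [AlgHom.comp_apply, aeval_X, aeval_X, map_add, map_mul, Polynomial.aeval_C,
          Polynomial.aeval_C, Polynomial.aeval_X, Pi.add_apply, Pi.smul_apply, smul_eq_mul,
          mul_comm]
        rfl
      have h6 := DFunLike.congr_fun h5 f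
      rw [AlgHom.comp_apply, Polynomial.coe_aeval_eq_eval] at h6
      rw [← coe_aeval_eq_eval]
      exact h6
    have h5 : r = Polynomial.C c := by
      refine Polynomial.eq_of_infinite_eval_eq _ _ ?_
      refine Set.Infinite.mono ?_ (Set.finite_singleton (0 : K)).infinite_compl
      intro y hy
      have hy0 : y ≠ 0 := hy
      change r.eval y = (Polynomial.C c).eval y
      have h6 := h2 y 1 hy0
      rw [one_smul, one_pow, mul_one] at h6
      rw [hr, h6, Polynomial.eval_C]
    have h6 := hr 0
    rw [h5, Polynomial.eval_C, zero_smul, zero_add] at h6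
    exact h6.symm
  by_cases hy : y = 0
  · rw [hy, zero_smul, zero_add, eval_smul_hom hf]
  · rw [h2 y w hy, h3, mul_comm]

lemma eval_congr_supported {s : Set (Fin N)} {f : MvPolynomial (Fin N) K}
    (hf : f ∈ supported K s) {x y : Fin N → K} (h : ∀ j ∈ s, x j = y j) :
    eval x f = eval y f := by
  rw [supported_eq_adjoin_X] at hf
  induction hf using Algebra.adjoin_induction with
  | mem g hg =>
    obtain ⟨j, hj, rfl⟩ := hg
    rw [eval_X, eval_X]
    exact h j hj
  | algebraMap r =>
    rw [algebraMap_eq, eval_C, eval_C]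
  | add f g _ _ hf hg => rw [map_add, map_add, hf, hg]
  | mul f g _ _ hf hg => rw [map_mul, map_mul, hf, hg]

end gam

section cl

variable {K : Type u} [Field K] {N : ℕ} {ι : Type} [Fintype ι] [DecidableEq ι]

/-- In each block the variables are proportional modulo `Q`. -/
def Cl (β : Fin N → ι) (Q : Ideal (MvPolynomial (Fin N) K)) : Prop :=
  ∀ u v, β u = β v → ∃ a b : K, (a ≠ 0 ∨ b ≠ 0) ∧ C a * X u + C b * X v ∈ Q

variable {β : Fin N → ι}

/-- These subvarieties are linear subspaces if their dimension is the number of blocks minus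
one. -/
lemma cl_lin [Infinite K] {t : ℕ} {Q : Ideal (MvPolynomial (Fin N) K)} (hQ : IsSub t 1 Q)
    (hcl : Cl β Q) (hβ : (Finset.univ.image β).card ≤ t) :
    ∃ (w : Fin N → K) (U : Submodule K (Fin N → K)), Q = VI U ∧ Module.finrank K U = t ∧
      ∀ x, x ∈ U ↔ ∃ y : ι → K, ∀ j, x j = w j * y (β j) := by
  classical
  have hprime := hQ.prime
  -- the representatives
  let g : ι → MvPolynomial (Fin N) K := fun k =>
    if h : ∃ v, β v = k ∧ (X v : MvPolynomial (Fin N) K) ∉ Q then X h.choose else 0
  have hw : ∀ j, ∃ w : K, X j - C w * g (β j) ∈ Q := by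
    intro j
    by_cases h : ∃ v, β v = β j ∧ (X v : MvPolynomial (Fin N) K) ∉ Q
    · have hg : g (β j) = X h.choose := dif_pos h
      obtain ⟨h1, h2⟩ := h.choose_spec
      obtain ⟨a, b, hab, hmem⟩ := hcl j h.choose h1.symm
      have ha : a ≠ 0 := by
        rintro rfl
        have hb : b ≠ 0 := hab.resolve_left fun h => h rfl
        rw [map_zero, zero_mul, zero_add] at hmem
        rcases hQ.prime.mem_or_mem hmem with h3 | h3
        · exact hQ.prime.ne_top (Ideal.eq_top_of_isUnit_mem _ h3 ((IsUnit.mk0 b hb).map C))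
        · exact h2 h3
      refine ⟨-(a⁻¹ * b), ?_⟩
      rw [hg]
      have h3 := Q.mul_mem_left (C a⁻¹) hmem
      have h4 : C a⁻¹ * (C a * X j + C b * X h.choose) =
          X j - C (-(a⁻¹ * b)) * (X h.choose : MvPolynomial (Fin N) K) := by
        rw [mul_add, ← mul_assoc, ← map_mul, inv_mul_cancel₀ ha, map_one, one_mul, map_neg,
          map_mul]
        ring
      rw [← h4]
      exact h3
    · have h1 : X j ∈ Q := by
        by_contra hcon
        exact h ⟨j, rfl, hcon⟩
      refine ⟨0, ?_⟩
      rw [map_zero, zero_mul, sub_zero]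
      exact h1
  choose w hw using hw
  let S := {k // k ∈ Finset.univ.image β}
  let b : Fin N → S := fun j => ⟨β j, Finset.mem_image_of_mem β (Finset.mem_univ j)⟩
  let T : (S → K) →ₗ[K] (Fin N → K) := LinearMap.pi fun j => w j • LinearMap.proj (b j)
  have hT : ∀ y j, T y j = w j * y (b j) := fun y j => rfl
  have hle : VI (LinearMap.range T) ≤ Q := by
    intro f hf
    let φ : MvPolynomial (Fin N) K →ₐ[K] MvPolynomial (Fin N) K :=
      aeval fun j => C (w j) * g (β j)
    have h1 : (Ideal.Quotient.mkₐ K Q).comp φ = Ideal.Quotient.mkₐ K Q := by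
      apply MvPolynomial.algHom_ext
      intro j
      rw [AlgHom.comp_apply]
      simp only [φ, aeval_X]
      exact ((Ideal.Quotient.eq (I := Q)).2 (hw j)).symm
    let ψ : MvPolynomial (Fin N) K →ₐ[K] MvPolynomial S K := aeval fun j => C (w j) * X (b j)
    have h2 : (aeval (fun k : S => g k) : MvPolynomial S K →ₐ[K] MvPolynomial (Fin N) K).comp ψ =
        φ := by
      apply MvPolynomial.algHom_ext
      intro j
      simp only [φ, ψ, AlgHom.comp_apply, aeval_X, map_mul, aeval_C, algebraMap_eq]
      rfl
    have h3 : ψ f = 0 := by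
      apply MvPolynomial.funext
      intro y
      rw [map_zero]
      have h4 : eval y (ψ f) = eval (T y) f := by
        have h5 : (aeval y : MvPolynomial S K →ₐ[K] K).comp ψ = aeval (T y) := by
          apply MvPolynomial.algHom_ext
          intro j
          simp only [ψ, AlgHom.comp_apply, aeval_X, map_mul, aeval_C, hT]
          rfl
        have h6 := DFunLike.congr_fun h5 f
        rw [AlgHom.comp_apply] at h6
        rw [← coe_aeval_eq_eval, ← coe_aeval_eq_eval]
        exact h6
      rw [h4]
      exact hf _ ⟨y, rfl⟩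
    have h4 : φ f = 0 := by
      rw [← h2, AlgHom.comp_apply, h3, map_zero]
    have h5 := DFunLike.congr_fun h1 f
    rw [AlgHom.comp_apply, h4, map_zero] at h5
    exact Ideal.Quotient.eq_zero_iff_mem.1 h5.symm
  have hfin : Module.finrank K (LinearMap.range T) ≤ t := by
    refine (LinearMap.finrank_range_le T).trans ?_
    rw [Module.finrank_fintype_fun_eq_card, Fintype.card_coe]
    exact hβ
  have hVI := isSub_VI (LinearMap.range T) rfl
  have heq : VI (LinearMap.range T) = Q := by
    by_contra hne
    have h1 := trdeg_quot_lt (K := K) hVI.prime hQ.prime (lt_of_le_of_ne hle hne) hVI.trdeg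
      hQ.trdeg
    omega
  have hfin' : Module.finrank K (LinearMap.range T) = t := by
    have h1 := hVI.trdeg
    rw [heq, hQ.trdeg] at h1
    exact_mod_cast h1.symm
  refine ⟨w, LinearMap.range T, heq.symm, hfin', fun x => ?_⟩
  constructor
  · rintro ⟨y, rfl⟩
    refine ⟨fun k => if h : k ∈ Finset.univ.image β then y ⟨k, h⟩ else 0, fun j => ?_⟩
    change w j * y (b j) = w j * (if h : β j ∈ Finset.univ.image β then y ⟨β j, h⟩ else 0)
    rw [dif_pos (Finset.mem_image_of_mem β (Finset.mem_univ j))]
  · rintro ⟨y, hy⟩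
    refine ⟨fun k => y k, ?_⟩
    funext j
    rw [hT, hy]

/-- Common zeros of forms, indexed by a finite type. -/
lemma exists_common_zero' [IsAlgClosed K] {κ : Type} [Fintype κ]
    (G : κ → MvPolynomial (Fin N) K) (hG : ∀ i, ∃ d, IsHomogeneous (G i) (d + 1))
    (hκ : Fintype.card κ + 1 ≤ N) : ∃ a : Fin N → K, a ≠ 0 ∧ ∀ i, eval a (G i) = 0 := by
  let eq := Fintype.equivFin κ
  obtain ⟨a, ha, h⟩ := exists_common_zero (fun i => G (eq.symm i))
    (fun i => by
      obtain ⟨d, hd⟩ := hG (eq.symm i)
      exact ⟨_, hd⟩) (fun i => by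
      obtain ⟨d, hd⟩ := hG (eq.symm i)
      by_contra hcon
      have h1 := hd hcon
      rw [map_zero] at h1
      omega) hκ
  refine ⟨a, ha, fun i => ?_⟩
  have h1 := h (eq i)
  rw [eq.symm_apply_apply] at h1
  rw [← coe_aeval_eq_eval]
  exact h1

/-- **The direction of maximal contact** in a block with more than `n` variables. -/
lemma exists_contact [IsAlgClosed K] {n : ℕ} (hn : 0 < n) {G : ι → MvPolynomial (Fin N) K}
    (h1 : ∀ k, IsHomogeneous (G k) n) (h2 : ∀ k, G k ∈ supported K {j | β j = k})
    {w : Fin N → K} {U : Submodule K (Fin N → K)}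
    (hU : ∀ x, x ∈ U ↔ ∃ y : ι → K, ∀ j, x j = w j * y (β j)) (hF : ∑ k, G k ∈ VI U)
    {k₀ : ι} (hk₀ : n < (Finset.univ.filter fun j => β j = k₀).card) :
    ∃ v, v ∉ U ∧ ∀ x ∈ U, ∀ c : K,
      eval (x + c • v) (∑ k, G k) = c ^ n * eval v (∑ k, G k) := by
  classical
  have hinf : Infinite K := IsAlgClosed.instInfinite
  set q : Fin N → K := fun j => if β j = k₀ then w j else 0 with hq
  -- a coordinate of the block
  obtain ⟨j₀, hj₀, hj₀'⟩ : ∃ j₀, β j₀ = k₀ ∧ ((∃ j, β j = k₀ ∧ w j ≠ 0) → w j₀ ≠ 0) := by
    by_cases h : ∃ j, β j = k₀ ∧ w j ≠ 0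
    · obtain ⟨j, hj, hj'⟩ := h
      exact ⟨j, hj, fun _ => hj'⟩
    · obtain ⟨j, hj⟩ := Finset.card_pos.1 (lt_of_le_of_lt (Nat.zero_le n) hk₀)
      exact ⟨j, (Finset.mem_filter.1 hj).2, fun h' => absurd h' h⟩
  let E : {j // β j ≠ k₀} ⊕ Unit ⊕ Fin (n - 1) → MvPolynomial (Fin N) K :=
    Sum.elim (fun j => X j) (Sum.elim (fun _ => X j₀)
      fun i => (Gam q (G k₀)).coeff ((i : ℕ) + 1))
  have hcard : Fintype.card ({j // β j ≠ k₀} ⊕ Unit ⊕ Fin (n - 1)) + 1 ≤ N := by
    rw [Fintype.card_sum, Fintype.card_sum, Fintype.card_unit, Fintype.card_fin]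
    have h3 : Fintype.card {j // β j ≠ k₀} = (Finset.univ.filter fun j => ¬ β j = k₀).card :=
      Fintype.card_subtype _
    have h4 := Finset.card_filter_add_card_filter_not (s := (Finset.univ : Finset (Fin N)))
      (fun j => β j = k₀)
    rw [Finset.card_univ, Fintype.card_fin] at h4
    omega
  obtain ⟨v, hv0, hv⟩ := exists_common_zero' E (by
    rintro (j | i | i)
    · exact ⟨0, isHomogeneous_X K _⟩
    · exact ⟨0, isHomogeneous_X K _⟩
    · exact ⟨i, gam_coeff_hom _ _ _⟩) hcard
  have hv1 : ∀ j, β j ≠ k₀ → v j = 0 := by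
    intro j hj
    have h3 := hv (Sum.inl ⟨j, hj⟩)
    simp only [E, Sum.elim_inl, eval_X] at h3
    exact h3
  have hv2 : v j₀ = 0 := by
    have h3 := hv (Sum.inr (Sum.inl ()))
    simp only [E, Sum.elim_inl, Sum.elim_inr, eval_X] at h3
    exact h3
  have hv3 : ∀ i, 0 < i → i < n → eval v ((Gam q (G k₀)).coeff i) = 0 := by
    intro i hi hin
    have h3 := hv (Sum.inr (Sum.inr ⟨i - 1, by omega⟩))
    simp only [E, Sum.elim_inr] at h3
    rw [Nat.sub_add_cancel hi] at h3
    exact h3
  have hz : ∀ k, eval (0 : Fin N → K) (G k) = 0 := by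
    intro k
    have h3 := eval_smul_hom (h1 k) (0 : K) (0 : Fin N → K)
    rw [zero_smul, zero_pow hn.ne', zero_mul] at h3
    exact h3
  have hqU : q ∈ U := (hU q).2 ⟨fun k => if k = k₀ then 1 else 0, fun j => by
    simp only [hq]
    split_ifs <;> simp⟩
  have hone : ∀ x : Fin N → K, (∀ j, β j ≠ k₀ → x j = 0) →
      eval x (∑ k, G k) = eval x (G k₀) := by
    intro x hx
    rw [map_sum, Finset.sum_eq_single k₀]
    · intro k _ hk
      rw [← hz k]
      refine eval_congr_supported (h2 k) fun j hj => ?_
      have hj' : β j = k := hj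
      exact hx j (by rw [hj']; exact hk)
    · exact fun h => absurd (Finset.mem_univ _) h
  have hq0 : eval q (G k₀) = 0 := by
    rw [← hone q fun j hj => by simp only [hq, if_neg hj]]
    exact hF q hqU
  have hcon := contact (h1 k₀) hq0 hv3
  refine ⟨v, ?_, ?_⟩
  · intro hvU
    obtain ⟨y, hy⟩ := (hU v).1 hvU
    apply hv0
    funext j
    by_cases hj : β j = k₀
    · by_cases hwj : w j = 0
      · rw [hy, hwj, zero_mul]
        rfl
      · have h3 := hj₀' ⟨j, hj, hwj⟩
        have h4 := hy j₀
        rw [hv2, hj₀] at h4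
        have h5 : y k₀ = 0 := by
          rcases mul_eq_zero.1 h4.symm with h6 | h6
          · exact absurd h6 h3
          · exact h6
        rw [hy, hj, h5, mul_zero]
        rfl
    · exact hv1 j hj
  · intro x hx c
    obtain ⟨y, hy⟩ := (hU x).1 hx
    have h3 : eval (x + c • v) (∑ k, G k) - eval x (∑ k, G k) =
        eval (x + c • v) (G k₀) - eval x (G k₀) := by
      rw [map_sum, map_sum, ← Finset.sum_sub_distrib, Finset.sum_eq_single k₀]
      · intro k _ hk
        rw [sub_eq_zero]
        refine eval_congr_supported (h2 k) fun j hj => ?_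
        have hj' : β j = k := hj
        rw [Pi.add_apply, Pi.smul_apply, hv1 j (by rw [hj']; exact hk), smul_zero, add_zero]
      · exact fun h => absurd (Finset.mem_univ _) h
    have h4 : eval x (∑ k, G k) = 0 := hF x hx
    have h5 : ∀ j ∈ ({j | β j = k₀} : Set (Fin N)), x j = (y k₀ • q) j := by
      intro j hj
      have hj' : β j = k₀ := hj
      rw [hy, hj', Pi.smul_apply, smul_eq_mul]
      simp only [hq, if_pos hj']
      ring
    have h6 : eval x (G k₀) = 0 := by
      rw [eval_congr_supported (h2 k₀) h5, eval_smul_hom (h1 k₀), hq0, mul_zero]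
    have h7 : eval (x + c • v) (G k₀) = c ^ n * eval v (G k₀) := by
      rw [← hcon (y k₀) c]
      refine eval_congr_supported (h2 k₀) fun j hj => ?_
      rw [Pi.add_apply, Pi.add_apply, h5 j hj]
    rw [h4, h6, sub_zero, sub_zero, h7] at h3
    rw [h3, hone v hv1]

end cl

end Pool.Agent.H835.AV
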