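import Pool.Agent.H835.AV.Pan

set_option autoImplicit false
set_option linter.unusedSectionVars false

/-!
# Averages of cycles when the dimension is the number of blocks minus one: the induction
-/

universe u

namespace Pool.Agent.H835.AV

open MvPolynomial Pool.Agent.W5h86 Pool.Agent.W5h86.HC

variable {m : ℕ} {ι : Type} [Fintype ι] [DecidableEq ι] [NeZero m]

section top

variable {κ : Type u} [Field κ]

lemma pair_unique {t : ℕ} {β : Fin (t + 1) → ι} (hβ : (Finset.univ.image β).card = t)
    {u v x y : Fin (t + 1)} (huv : u ≠ v) (h1 : β u = β v) (hxy : x ≠ y) (h2 : β x = β y) :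
    (x = u ∧ y = v) ∨ (x = v ∧ y = u) := by
  have hinj : Set.InjOn β (Finset.univ.erase v : Finset (Fin (t + 1))) := by
    rw [← Finset.card_image_iff]
    have h3 : (Finset.univ.erase v).image β = Finset.univ.image β := by
      apply subset_antisymm (Finset.image_subset_image (Finset.erase_subset _ _))
      intro k hk
      obtain ⟨j, -, rfl⟩ := Finset.mem_image.1 hk
      by_cases hj : j = v
      · rw [hj, ← h1]
        exact Finset.mem_image_of_mem β (Finset.mem_erase.2 ⟨huv, Finset.mem_univ _⟩)
      · exact Finset.mem_image_of_mem β (Finset.mem_erase.2 ⟨hj, Finset.mem_univ _⟩)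
    rw [h3, hβ, Finset.card_erase_of_mem (Finset.mem_univ _), Finset.card_univ, Fintype.card_fin]
    omega
  have hmem : ∀ {j}, j ≠ v → j ∈ ((Finset.univ.erase v : Finset (Fin (t + 1))) : Set _) := by
    intro j hj
    rw [Finset.mem_coe, Finset.mem_erase]
    exact ⟨hj, Finset.mem_univ _⟩
  by_cases hx : x = v
  · right
    refine ⟨hx, ?_⟩
    have hy : y ≠ v := by
      rw [← hx]
      exact hxy.symm
    apply hinj (hmem hy) (hmem huv)
    rw [← h2, hx, h1]
  · left
    by_cases hy : y = v
    · refine ⟨?_, hy⟩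
      apply hinj (hmem hx) (hmem huv)
      rw [h2, hy, h1]
    · exact absurd (hinj (hmem hx) (hmem hy) h2) hxy

/-- In dimension one more than the number of blocks: the roots of unity act transitively, or the
variables in each block are proportional. -/
lemma top_pan [IsAlgClosed κ] {t n : ℕ} {e : AddChar (ZMod m) κ} (he : Good e n)
    {β : Fin (t + 1) → ι} (hβ : (Finset.univ.image β).card = t)
    {F : MvPolynomial (Fin (t + 1)) κ} (hSF : SF β n F) (hF0 : F ≠ 0) :
    Top e β t (Ideal.span {F}) ∨ ∀ P, IsSub t 1 P → F ∈ P → Cl β P := by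
  classical
  have hFh := hSF.hom
  obtain ⟨G, h1, h2, rfl⟩ := hSF
  obtain ⟨k, -, hk⟩ := Finset.exists_ne_zero_of_sum_ne_zero hF0
  by_cases hother : ∃ k', k' ≠ k ∧ G k' ≠ 0
  · obtain ⟨k', hk', hG'⟩ := hother
    exact Or.inl (top_of_two he h1 h2 hk' hk hG')
  · have hFk : ∑ l, G l = G k := by
      refine Finset.sum_eq_single k (fun l _ hl => ?_) fun h => absurd (Finset.mem_univ _) h
      by_contra hcon
      exact hother ⟨l, hl, hcon⟩
    rw [hFk] at hFh hF0 ⊢
    have hninj : ¬ Function.Injective β := by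
      intro h
      rw [Finset.card_image_of_injective _ h, Finset.card_univ, Fintype.card_fin] at hβ
      omega
    unfold Function.Injective at hninj
    push Not at hninj
    obtain ⟨u, v, huv', huv⟩ := hninj
    by_cases hku : β u = k
    · right
      intro P hP hFP x y hxy
      have hsup : G k ∈ supported κ {u, v} := by
        refine supported_mono ?_ (h2 k)
        intro j hj
        have hj' : β j = k := hj
        by_cases hju : j = u
        · exact Or.inl hju
        · right
          rcases pair_unique hβ huv huv' hju (by rw [hj', hku]) with ⟨h3, -⟩ | ⟨h3, -⟩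
          · exact absurd h3 hju
          · exact h3
      by_cases hxy' : x = y
      · refine ⟨1, -1, Or.inl one_ne_zero, ?_⟩
        rw [hxy', map_neg, map_one]
        have h3 : (1 : MvPolynomial (Fin (t + 1)) κ) * X y + -1 * X y = 0 := by ring
        rw [h3]
        exact P.zero_mem
      · obtain ⟨a, b, hab, hmem⟩ := bin hFh hF0 huv hsup hP.prime hFP
        rcases pair_unique hβ huv huv' hxy' hxy with ⟨rfl, rfl⟩ | ⟨rfl, rfl⟩
        · exact ⟨a, b, hab, hmem⟩
        · refine ⟨b, a, hab.symm, ?_⟩
          rw [add_comm (C b * X x)]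
          exact hmem
    · left
      -- the block has one variable
      obtain ⟨j, hj⟩ : ∃ j, ∀ i, β i = k → i = j := by
        by_cases hex : ∃ j, β j = k
        · obtain ⟨j, hj⟩ := hex
          refine ⟨j, fun i hi => ?_⟩
          by_contra hij
          rcases pair_unique hβ huv huv' hij (by rw [hi, hj]) with ⟨h3, h4⟩ | ⟨h3, h4⟩
          · exact hku (by rw [← h3, hi])
          · exact hku (by rw [← h4, hj])
        · exact ⟨u, fun i hi => absurd ⟨i, hi⟩ hex⟩
      have hmon : ∀ d, coeff d (G k) ≠ 0 → d = Finsupp.single j n := by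
        intro d hd
        have h3 := sum_eq_of_coeff (h1 k) hd
        have h4 : ∀ i, i ≠ j → d i = 0 := by
          intro i hi
          by_contra hcon
          exact hi (hj i (mem_of_coeff (h2 k) hd hcon))
        rw [Finset.sum_eq_single j (fun i _ hi => h4 i hi) (by simp)] at h3
        ext i
        by_cases hi : i = j
        · rw [hi, Finsupp.single_eq_same, h3]
        · rw [h4 i hi, Finsupp.single_eq_of_ne hi]
      obtain ⟨c, hc0, hc⟩ : ∃ c : κ, c ≠ 0 ∧ G k = C c * X j ^ n := by
        obtain ⟨d, hd⟩ := exists_coeff_ne_zero hF0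
        have h3 := hmon d hd
        rw [h3] at hd
        refine ⟨_, hd, ?_⟩
        rw [C_mul_X_pow_eq_monomial]
        ext d'
        rw [coeff_monomial]
        split_ifs with h4
        · rw [h4]
        · by_contra hcon
          exact h4 (hmon d' hcon).symm
      have hXj : ∀ P, IsSub t 1 P → G k ∈ P → P = Ideal.span {X j} := by
        intro P hP hGP
        rw [hc] at hGP
        rcases hP.prime.mem_or_mem hGP with h3 | h3
        · exact absurd (Ideal.eq_top_of_isUnit_mem _ h3 ((IsUnit.mk0 c hc0).map C))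
            hP.prime.ne_top
        · have h4 := hP.prime.mem_of_pow_mem _ h3
          have h5 := isSub_span_of_prime (t := t) (X_prime (R := κ) (i := j)) (isHomogeneous_X κ j)
          refine (eq_of_trdeg_eq h5.prime hP.prime ?_ h5.trdeg hP.trdeg).symm
          rw [Ideal.span_singleton_le_iff_mem]
          exact h4
      refine ⟨fun P₁ P₂ hP₁ hP₂ hI₁ hI₂ => ?_, fun P hP hIP n' hn' => ?_⟩
      · rw [Ideal.span_singleton_le_iff_mem] at hI₁ hI₂
        refine ⟨0, ?_⟩
        rw [wt_zero, comap_sc_one, hXj P₁ hP₁ hI₁, hXj P₂ hP₂ hI₂]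
      · rw [Ideal.span_singleton_le_iff_mem] at hIP
        have h3 : (⊥ : Ideal (MvPolynomial (Fin (t + 1)) κ)) < P := by
          refine lt_of_le_of_ne bot_le fun h => ?_
          rw [← h, Ideal.mem_bot] at hIP
          exact hF0 hIP
        have h4 := trdeg_quot_lt (K := κ) Ideal.isPrime_bot hP h3 trdeg_bot hn'
        omega

end top

section zero

variable {κ : Type u} [Field κ]

lemma csf_zero {M t n : ℕ} {e : AddChar (ZMod m) κ} (he : Good e n) {β : Fin M → ι}
    (hβ : t ≤ (Finset.univ.image β).card) {F : MvPolynomial (Fin M) κ} (hF : F = 0) :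
    CSF m ι n κ M e β t 0 (Ideal.span {F}) := by
  refine ⟨he, by omega, fun i => i.elim0, fun i => i.elim0, ?_⟩
  rw [hF, Ideal.span_singleton_zero, Set.range_eq_empty, Ideal.span_empty]

lemma csf_one {M t n : ℕ} {e : AddChar (ZMod m) κ} (he : Good e n) {β : Fin M → ι}
    (hβ : t + 1 ≤ (Finset.univ.image β).card) {F : MvPolynomial (Fin M) κ} (hF : SF β n F) :
    CSF m ι n κ M e β t 1 (Ideal.span {F}) := by
  refine ⟨he, hβ, fun _ => F, fun _ => hF, ?_⟩
  rw [Set.range_const]

lemma SF.stable {M n : ℕ} {e : AddChar (ZMod m) κ} {β : Fin M → ι} {F : MvPolynomial (Fin M) κ}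
    (h : SF β n F) (hmn : m ∣ n) : Stable e β (Ideal.span {F}) := by
  intro a
  rw [Ideal.span_singleton_le_iff_mem, Ideal.mem_comap, h.inv hmn]
  exact Ideal.mem_span_singleton_self _

end zero

instance isAlgClosed_adjoinRoot {K : Type u} [Field K] [IsAlgClosed K] (π : Polynomial K)
    [hπ : Fact (Irreducible π)] : IsAlgClosed (AdjoinRoot π) := by
  have h1 : Module.Finite K (AdjoinRoot π) := (AdjoinRoot.powerBasis hπ.out.ne_zero).finite
  have h2 : Function.Bijective (algebraMap K (AdjoinRoot π)) :=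
    IsAlgClosed.algebraMap_bijective_of_isIntegral
  exact IsAlgClosed.of_ringEquiv K (AdjoinRoot π) (RingEquiv.ofBijective _ h2)

lemma surj_adjoinRoot {K : Type u} [Field K] [IsAlgClosed K] (π : Polynomial K)
    [hπ : Fact (Irreducible π)] : Function.Surjective (algebraMap K (AdjoinRoot π)) := by
  have h1 : Module.Finite K (AdjoinRoot π) := (AdjoinRoot.powerBasis hπ.out.ne_zero).finite
  have h2 : Function.Bijective (algebraMap K (AdjoinRoot π)) :=
    IsAlgClosed.algebraMap_bijective_of_isIntegral
  exact h2.2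

/-- The conclusion outside of a coordinate hyperplane. -/
def GPan (m : ℕ) [NeZero m] (ι : Type) [Fintype ι] [DecidableEq ι] (N : ℕ) : Prop :=
  ∀ (K : Type u) [Field K] [IsAlgClosed K] (e : AddChar (ZMod m) K) (β : Fin N → ι) (t n : ℕ)
    (F : MvPolynomial (Fin N) K), Good e n → (Finset.univ.image β).card = t → SF β n F →
    t + 1 < N → ∀ (b : Fin N) (P : Ideal (MvPolynomial (Fin N) K)), IsSub t (X b) P → F ∈ P →
      av e β (pt P) ∈ IRel (Ideal.span {F}) t (X b) ⊔ pan β (Ideal.span {F}) t (X b)

section step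

variable {K : Type u} [Field K] [IsAlgClosed K] {M : ℕ} {e : AddChar (ZMod m) K}
  {β : Fin (M + 1) → ι} {t n : ℕ} {F : MvPolynomial (Fin (M + 1)) K}

lemma fI_span' {κ : Type u} [Field κ] [Algebra K κ] (v : Fin (M + 1)) (u' : Fin M) (θ : κ) :
    fI v u' θ (Ideal.span {F}) = Ideal.span {lsub K (fm v u' θ) F} := by
  unfold fI
  rw [Ideal.map_span, Set.image_singleton]
  rfl

lemma zI_span' (u : Fin (M + 1)) :
    zI u (Ideal.span {F}) = Ideal.span {lsub K (zi K u) F} := by
  unfold zI
  rw [Ideal.map_span, Set.image_singleton]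
  rfl

lemma pan_exists_component {P : Ideal (MvPolynomial (Fin (M + 1)) K)}
    {l : MvPolynomial (Fin (M + 1)) K} (hF : SF β n F) (ht : t + 2 ≤ M + 1) (hP : IsSub t l P)
    (hFP : F ∈ P) : ∃ Q, IsSub (t + 1) l Q ∧ Ideal.span {F} ≤ Q ∧ Q ≤ P := by
  obtain ⟨Q, h1, h2, h3⟩ := exists_isSub_component (fun _ : Fin 1 => F) (fun _ => ⟨n, hF.hom⟩) hP
    (fun _ => hFP) (by omega)
  refine ⟨Q, h1, ?_, h3⟩
  rw [Ideal.span_singleton_le_iff_mem]
  exact h2 0

/-- The data of the elementary fibration, in the form used for `pan`. -/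
lemma fm_data {κ : Type u} [Field κ] [Algebra K κ] {v : Fin (M + 1)} {u' : Fin M}
    (hβ : β v = β (v.succAbove u')) (θ : κ) : ∃ (r : Fin (M + 1) → Fin M) (c : Fin (M + 1) → κ),
      (∀ i, lsub K (fm v u' θ) (X i) = C (c i) * X (r i)) ∧
      ∀ i, β i = (β ∘ v.succAbove) (r i) := by
  have h : ∀ i, ∃ (r : Fin M) (c : κ), lsub K (fm v u' θ) (X i) = C c * X r ∧
      β i = (β ∘ v.succAbove) r := by
    intro i
    rcases Fin.eq_self_or_eq_succAbove v i with rfl | ⟨i', rfl⟩
    · exact ⟨u', θ, lsub_fm_self _ _ _, hβ⟩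
    · refine ⟨i', 1, ?_, rfl⟩
      rw [lsub_fm_succAbove, map_one, one_mul]
  choose r c h1 h2 using h
  exact ⟨r, c, h1, h2⟩

lemma zi_data {u v : Fin (M + 1)} (huv : v ≠ u) (hβ : β u = β v) :
    ∃ (r : Fin (M + 1) → Fin M) (c : Fin (M + 1) → K),
      (∀ i, lsub K (zi K u) (X i) = C (c i) * X (r i)) ∧
      ∀ i, β i = (β ∘ u.succAbove) (r i) := by
  obtain ⟨v', rfl⟩ := Fin.exists_succAbove_eq huv
  have h : ∀ i, ∃ (r : Fin M) (c : K), lsub K (zi K u) (X i) = C c * X r ∧
      β i = (β ∘ u.succAbove) r := by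
    intro i
    rcases Fin.eq_self_or_eq_succAbove u i with rfl | ⟨i', rfl⟩
    · refine ⟨v', 0, ?_, hβ⟩
      rw [lsub_zi_self, map_zero, zero_mul]
    · refine ⟨i', 1, ?_, rfl⟩
      rw [lsub_zi_succAbove, map_one, one_mul]
  choose r c h1 h2 using h
  exact ⟨r, c, h1, h2⟩

/-- One step with a pencil. -/
lemma pan_pencil (ih : GPan.{u} m ι M) (he : Good e n) (hβt : (Finset.univ.image β).card = t)
    (hF : SF β n F) (htM : t + 1 < M + 1) {v : Fin (M + 1)} {u' : Fin M}
    (hβ : β v = β (v.succAbove u')) {P : Ideal (MvPolynomial (Fin (M + 1)) K)}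
    (hP : IsSub t (X (v.succAbove u')) P) (hFP : F ∈ P) :
    av e β (pt P) ∈ IRel (Ideal.span {F}) t (X (v.succAbove u')) ⊔
      pan β (Ideal.span {F}) t (X (v.succAbove u')) := by
  have hst : Stable e β (Ideal.span {F}) := hF.stable he.dvd
  have himg : (Finset.univ.image (β ∘ v.succAbove)).card = t := by
    rw [image_comp_succAbove (Fin.succAbove_ne v u') hβ, hβt]
  refine pencil_step_E hβ hst (pan_le_av hst fun a => eig_wt_X _ _) ?_ ?_ hP
    (by rwa [Ideal.span_singleton_le_iff_mem])
  · intro P hPp hP hIP π _ hval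
    have he' : Good (ex (AdjoinRoot π) e) n := he.ex
    have hF' := hF.fm (v := v) (u' := u') hβ (AdjoinRoot.root π)
    have hstep : (∀ P' : Ideal (MvPolynomial (Fin M) (AdjoinRoot π)), IsSub t (X u') P' →
        lsub K (fm v u' (AdjoinRoot.root π)) F ∈ P' →
        av (ex (AdjoinRoot π) e) (β ∘ v.succAbove) (pt P') ∈
          IRel (Ideal.span {lsub K (fm v u' (AdjoinRoot.root π)) F}) t (X u') ⊔
            pan (β ∘ v.succAbove) (Ideal.span {lsub K (fm v u' (AdjoinRoot.root π)) F}) t
              (X u')) →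
        av e β (pt P) ∈ IRel (Ideal.span {F}) t (X (v.succAbove u')) ⊔
          pan β (Ideal.span {F}) t (X (v.succAbove u')) := by
      intro h3
      refine closed_step_E (E' := pan (β ∘ v.succAbove)
        (Ideal.span {lsub K (fm v u' (AdjoinRoot.root π)) F}) t (X u')) hβ hst π ?_
        (pan_le_av hst fun a => eig_wt_X _ _) hP hIP hval ?_
      · obtain ⟨r, c, hr1, hr2⟩ := fm_data (K := K) hβ (AdjoinRoot.root π)
        have h4 := push_pan_le (surj_adjoinRoot π)
          (isFib_fm (v := v) (u' := u') (hgen_adjoinRoot π)) (trdeg_adjoinRoot π) hr1 hr2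
          (le_comap_fI (v := v) (u' := u') (Ideal.span {F}) (AdjoinRoot.root π)) (t := t)
        rw [lsub_fm_a, fI_span'] at h4
        exact h4
      · intro P' hP' hIP'
        rw [fI_span'] at hIP' ⊢
        exact h3 P' hP' (by rwa [Ideal.span_singleton_le_iff_mem] at hIP')
    rcases Nat.lt_or_ge (t + 1) M with h1 | h1
    · exact hstep fun P' hP' hFP' => ih (AdjoinRoot π) _ _ _ _ _ he' himg hF' h1 u' P' hP' hFP'
    · have hM : M = t + 1 := by omega
      subst hM
      by_cases hF0 : lsub K (fm v u' (AdjoinRoot.root π)) F = 0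
      · exact hstep fun P' hP' hFP' => Submodule.mem_sup_left
          (gen_low (cls_CSF n) _ (AdjoinRoot π) _ _ _ _ _ (csf_zero he' himg.ge hF0) (by omega) u'
            P' hP' (by rwa [Ideal.span_singleton_le_iff_mem]))
      · rcases top_pan he' himg hF' hF0 with h3 | h3
        · obtain ⟨Q, hQ, hIQ, hQP⟩ := pan_exists_component hF (by omega) hP
            (by rwa [Ideal.span_singleton_le_iff_mem] at hIP)
          rw [← fI_span'] at h3
          refine Submodule.mem_sup_left (closed_top hβ hst π hP hval hQ hIQ hQP ?_ ?_)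
          · intro P₁ P₂ h₁ h₂ h₃ h₄
            exact h3.1 P₁ P₂ (isSub_iff.1 h₁).1 (isSub_iff.1 h₂).1 h₃ h₄
          · intro Q' hQ'
            exact not_isSub_of_top h3 hQ'
        · exact hstep fun P' hP' hFP' => Submodule.mem_sup_right
            (av_pt_mem_pan (hF'.stable he'.dvd) (fun a => eig_wt_X _ _) hP'
              (by rwa [Ideal.span_singleton_le_iff_mem])
              (h3 P' (isSub_iff.1 hP').1 hFP'))
  · intro s hs P' hP' hIP'
    subst hs
    have hF' := hF.fm (v := v) (u' := u') hβ (tt K)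
    rw [fI_span'] at hIP' ⊢
    exact gen_low (cls_CSF n) M (Kt K) _ _ _ _ _ (csf_one he.ex himg.ge hF') (by omega) u' P' hP'
      hIP'

/-- One step with a hyperplane. -/
lemma pan_hyp (ih : GPan.{u} m ι M) (he : Good e n) (hβt : (Finset.univ.image β).card = t)
    (hF : SF β n F) (htM : t + 1 < M + 1) {u v b : Fin (M + 1)} (huv : v ≠ u) (hβ : β u = β v)
    {P : Ideal (MvPolynomial (Fin (M + 1)) K)} (hP : IsSub t (X b) P)
    (hFP : F ∈ P) (hu : X u ∈ P) : av e β (pt P) ∈ IRel (Ideal.span {F}) t (X b) ⊔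
      pan β (Ideal.span {F}) t (X b) := by
  have hst : Stable e β (Ideal.span {F}) := hF.stable he.dvd
  have himg : (Finset.univ.image (β ∘ u.succAbove)).card = t := by
    rw [image_comp_succAbove huv hβ, hβt]
  have hbu : b ≠ u := by
    rintro rfl
    exact hP.notMem hu
  obtain ⟨b', rfl⟩ := Fin.exists_succAbove_eq hbu
  have hF' := hF.zi u
  have hIP : Ideal.span {F} ≤ P := by rwa [Ideal.span_singleton_le_iff_mem]
  have hstep : (∀ P' : Ideal (MvPolynomial (Fin M) K), IsSub t (X b') P' →
      lsub K (zi K u) F ∈ P' → av e (β ∘ u.succAbove) (pt P') ∈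
        IRel (Ideal.span {lsub K (zi K u) F}) t (X b') ⊔
          pan (β ∘ u.succAbove) (Ideal.span {lsub K (zi K u) F}) t (X b')) →
      av e β (pt P) ∈ IRel (Ideal.span {F}) t (X (u.succAbove b')) ⊔
        pan β (Ideal.span {F}) t (X (u.succAbove b')) := by
    intro h3
    refine hyp_step_E (E' := pan (β ∘ u.succAbove) (Ideal.span {lsub K (zi K u) F}) t (X b'))
      u hst ?_ (pan_le_av hst fun a => eig_wt_X _ _) (fun a => eig_wt_X _ _) (fun a => ?_) hP hIP
      hu ?_
    · obtain ⟨r, c, hr1, hr2⟩ := zi_data (K := K) huv hβ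
      have h4 := push_pan_le (κ := K) Function.surjective_id
        (isFib_zi u (X (u.succAbove b'))) (trdeg_self_eq (K := K)) hr1 hr2
        (le_comap_zI u (Ideal.span {F})) (t := t)
      rw [lsub_zi_succAbove, zI_span'] at h4
      exact h4
    · rw [lsub_zi_succAbove]
      exact eig_wt_X _ _
    · intro P' hP' hIP'
      rw [lsub_zi_succAbove] at hP' ⊢
      rw [zI_span'] at hIP' ⊢
      exact h3 P' hP' (by rwa [Ideal.span_singleton_le_iff_mem] at hIP')
  rcases Nat.lt_or_ge (t + 1) M with h1 | h1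
  · exact hstep fun P' hP' hFP' => ih K _ _ _ _ _ he himg hF' h1 b' P' hP' hFP'
  · have hM : M = t + 1 := by omega
    subst hM
    by_cases hF0 : lsub K (zi K u) F = 0
    · exact hstep fun P' hP' hFP' => Submodule.mem_sup_left
        (gen_low (cls_CSF n) _ K _ _ _ _ _ (csf_zero he himg.ge hF0) (by omega) b'
          P' hP' (by rwa [Ideal.span_singleton_le_iff_mem]))
    · rcases top_pan he himg hF' hF0 with h3 | h3
      · obtain ⟨Q, hQ, hIQ, hQP⟩ := pan_exists_component hF (by omega) hP hFP
        rw [← zI_span'] at h3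
        refine Submodule.mem_sup_left
          (hyp_top u hst (fun a => eig_wt_X _ _) hP hu hQ hIQ hQP ?_ ?_)
        · intro P₁ P₂ h₁ h₂ h₃ h₄
          exact h3.1 P₁ P₂ (isSub_iff.1 h₁).1 (isSub_iff.1 h₂).1 h₃ h₄
        · intro Q' hQ'
          exact not_isSub_of_top h3 hQ'
      · exact hstep fun P' hP' hFP' => Submodule.mem_sup_right
          (av_pt_mem_pan (hF'.stable he.dvd) (fun a => eig_wt_X _ _) hP'
            (by rwa [Ideal.span_singleton_le_iff_mem])
            (h3 P' (isSub_iff.1 hP').1 hFP'))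

end step

/-- **Averages of cycles** whose dimension is the number of blocks minus one. -/
theorem pan_open : ∀ N : ℕ, GPan.{u} m ι N := by
  intro N
  induction N with
  | zero =>
    intro K _ _ e β t n F _ _ _ _ b
    exact b.elim0
  | succ M ih =>
    intro K _ _ e β t n F he hβt hF htM b P hP hFP
    have hst : Stable e β (Ideal.span {F}) := hF.stable he.dvd
    have hninj : ¬ Function.Injective β := by
      intro h
      rw [Finset.card_image_of_injective _ h, Finset.card_univ, Fintype.card_fin] at hβt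
      omega
    obtain ⟨u, v, hβ, huv⟩ : ∃ u v, β u = β v ∧ v ≠ u := by
      unfold Function.Injective at hninj
      push Not at hninj
      obtain ⟨u, v, h1, h2⟩ := hninj
      exact ⟨u, v, h1, h2.symm⟩
    by_cases hu : X u ∈ P
    · exact pan_hyp ih he hβt hF htM huv hβ hP hFP hu
    · have hPu : IsSub t (X u) P := isSub_iff.2 ⟨(isSub_iff.1 hP).1, hu⟩
      have h1 : av e β (pt P) ∈ IRel (Ideal.span {F}) t (X u) ⊔
          pan β (Ideal.span {F}) t (X u) := by
        obtain ⟨u', rfl⟩ := Fin.exists_succAbove_eq huv.symm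
        exact pan_pencil ih he hβt hF htM hβ.symm hPu hFP
      have h2 : (IRel (Ideal.span {F}) t (X u) ⊔ pan β (Ideal.span {F}) t (X u)).map
          (restr (X b)) ≤ (IRel (Ideal.span {F}) t (X b) ⊔
            pan β (Ideal.span {F}) t (X b)).comap (av e β) := by
        rw [Submodule.map_sup]
        refine sup_le ?_ ?_
        · refine restr_iRel_le (l := X b) (l' := X u)
            ((iRel_le_av hst fun a => eig_wt_X _ _).trans (Submodule.comap_mono le_sup_left))
            (fun P₂ hP₂ hIP₂ hu₂ => ?_)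
          rw [Submodule.mem_comap]
          exact pan_hyp ih he hβt hF htM huv hβ hP₂
            (by rwa [Ideal.span_singleton_le_iff_mem] at hIP₂) hu₂
        · exact restr_pan_le.trans ((pan_le_av hst fun a => eig_wt_X _ _).trans
            (Submodule.comap_mono le_sup_right))
      have h3 := h2 (Submodule.mem_map_of_mem h1)
      rw [restr_av_pt hP.notMem, Submodule.mem_comap] at h3
      exact av_mem_of_av_av_mem h3

end Pool.Agent.H835.AV
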