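import Pool.Agent.H835.AV.PanOpen

set_option autoImplicit false
set_option linter.unusedSectionVars false

/-!
# Averages of cycles on a projective hypersurface when the dimension is the number of blocks
minus one
-/

universe u

namespace Pool.Agent.H835.AV

open MvPolynomial Pool.Agent.W5h86 Pool.Agent.W5h86.HC

variable {m : ℕ} {ι : Type} [Fintype ι] [DecidableEq ι] [NeZero m]

/-- `σ` is zero or the class of a proper coordinate section. -/
def CSec {K : Type u} [Field K] {N : ℕ} (t : ℕ) (F : MvPolynomial (Fin N) K)
    (σ : Ideal (MvPolynomial (Fin N) K) → ℚ) : Prop :=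
  σ = 0 ∨ ∃ (k : ℕ) (c : Fin k → Fin N), Function.Injective c ∧ t + 1 + k = N ∧
    F ∉ Ideal.span (Set.range fun i => (X (c i) : MvPolynomial (Fin N) K)) ∧
    σ = icyc t (secI (Ideal.span {F}) c)

/-- The conclusion on a projective hypersurface. -/
def AvPan {K : Type u} [Field K] {N : ℕ} (e : AddChar (ZMod m) K) (β : Fin N → ι) (t : ℕ)
    (F : MvPolynomial (Fin N) K) : Prop :=
  ∃ σ, CSec t F σ ∧ ∀ P, IsSub t 1 P → F ∈ P → av e β (pt P) ∈
    Submodule.span ℚ {σ} ⊔ IRatEq (Ideal.span {F}) t ⊔ pan β (Ideal.span {F}) t 1

lemma cSec_le_av {K : Type u} [Field K] {N : ℕ} {e : AddChar (ZMod m) K} {β : Fin N → ι} {t : ℕ}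
    {F : MvPolynomial (Fin N) K} (hI : Stable e β (Ideal.span {F}))
    {σ : Ideal (MvPolynomial (Fin N) K) → ℚ} (hσ : CSec t F σ) :
    Submodule.span ℚ {σ} ⊔ IRatEq (Ideal.span {F}) t ⊔ pan β (Ideal.span {F}) t 1 ≤
      (Submodule.span ℚ {σ} ⊔ IRatEq (Ideal.span {F}) t ⊔
        pan β (Ideal.span {F}) t 1).comap (av e β) := by
  refine sup_le ?_ ((pan_le_av hI fun _ => eig_one _).trans (Submodule.comap_mono le_sup_right))
  rcases hσ with rfl | ⟨k, c, -, -, -, rfl⟩
  · refine sup_le ?_ ((iRatEq_le_av hI).trans (Submodule.comap_mono (le_sup_right.trans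
      le_sup_left)))
    rw [Submodule.span_singleton_eq_bot.2 rfl]
    exact bot_le
  · exact (span_icyc_le_av hI c).trans (Submodule.comap_mono le_sup_left)

theorem pan_proj : ∀ (N : ℕ) (K : Type u) [Field K] [IsAlgClosed K] (e : AddChar (ZMod m) K)
    (β : Fin N → ι) (t n : ℕ) (F : MvPolynomial (Fin N) K), Good e n →
    (Finset.univ.image β).card = t → SF β n F → t + 1 ≤ N → AvPan e β t F := by
  intro N
  induction N with
  | zero =>
    intro K _ _ e β t n F _ _ _ ht
    omega
  | succ M ih =>
    intro K _ _ e β t n F he hβt hF ht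
    have hst : Stable e β (Ideal.span {F}) := hF.stable he.dvd
    have hninj : ¬ Function.Injective β := by
      intro h
      rw [Finset.card_image_of_injective _ h, Finset.card_univ, Fintype.card_fin] at hβt
      omega
    obtain ⟨u, v, hβ, huv⟩ : ∃ u v, β u = β v ∧ v ≠ u := by
      unfold Function.Injective at hninj
      push Not at hninj
      obtain ⟨u, v, h1, h2⟩ := hninj
      exact ⟨u, v, h1, h2.symm⟩
    rcases Nat.lt_or_ge (t + 1) (M + 1) with h1 | h1
    · -- the case of positive codimension
      obtain ⟨σ', hσ', hmem⟩ := ih K e (β ∘ u.succAbove) t n (lsub K (zi K u) F) he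
        (by rw [image_comp_succAbove huv hβ, hβt]) (hF.zi u) (by omega)
      have hσ : CSec t F (push (lsub K (zi K u)) 1 t σ') := by
        rcases hσ' with rfl | ⟨k, c, hc1, hc2, hc3, rfl⟩
        · left
          rw [map_zero]
        · right
          refine ⟨k + 1, Fin.cons u fun i => u.succAbove (c i), ?_, by omega, ?_, ?_⟩
          · rw [Fin.cons_injective_iff]
            refine ⟨?_, Fin.succAbove_right_injective.comp hc1⟩
            rintro ⟨i, hi⟩
            exact Fin.succAbove_ne _ _ hi
          · intro hcon
            apply hc3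
            have h2 := Ideal.mem_map_of_mem (lsub K (zi K u)) hcon
            rw [Ideal.map_span] at h2
            have h3 : Ideal.span ((lsub K (zi K u)) '' (Set.range fun i : Fin (k + 1) =>
                (X ((Fin.cons u fun i => u.succAbove (c i) : Fin (k + 1) → Fin (M + 1)) i) :
                  MvPolynomial (Fin (M + 1)) K))) ≤
                Ideal.span (Set.range fun i => (X (c i) : MvPolynomial (Fin M) K)) := by
              rw [Ideal.span_le]
              rintro _ ⟨_, ⟨i, rfl⟩, rfl⟩
              rw [SetLike.mem_coe]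
              refine Fin.cases ?_ (fun j => ?_) i
              · simp only [Fin.cons_zero]
                rw [lsub_zi_self]
                exact Ideal.zero_mem _
              · simp only [Fin.cons_succ]
                rw [lsub_zi_succAbove]
                exact Ideal.subset_span ⟨j, rfl⟩
            exact h3 h2
          · rw [← push_icyc_zi u c t, zI_span']
      refine ⟨_, hσ, ?_⟩
      set S := Submodule.span ℚ {push (lsub K (zi K u)) 1 t σ'} ⊔ IRatEq (Ideal.span {F}) t ⊔
        pan β (Ideal.span {F}) t 1 with hS
      have hSav : S ≤ S.comap (av e β) := cSec_le_av hst hσ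
      have key2 : ∀ P, IsSub t 1 P → F ∈ P → X u ∈ P → av e β (pt P) ∈ S := by
        intro P hP hFP hlP
        obtain ⟨P', hP', hPP'⟩ := exists_isSub_zi u hP hlP
        rw [map_one] at hP'
        have h4 := hmem P' hP' (by
          rw [← hPP', Ideal.mem_comap] at hFP
          exact hFP)
        have h5 := Submodule.mem_map_of_mem (f := push (lsub K (zi K u)) 1 t) h4
        rw [push_av_zi, push_pt (isFib_zi u 1) (by rw [map_one]; exact hP'), hPP',
          Submodule.map_sup, Submodule.map_sup, Submodule.map_span, Set.image_singleton] at h5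
        have h6 : (pan (β ∘ u.succAbove) (Ideal.span {lsub K (zi K u) F}) t 1).map
            (push (lsub K (zi K u)) 1 t) ≤ pan β (Ideal.span {F}) t 1 := by
          obtain ⟨r, c, hr1, hr2⟩ := zi_data (K := K) huv hβ
          have h7 := push_pan_le (κ := K) Function.surjective_id
            (isFib_zi u (1 : MvPolynomial (Fin (M + 1)) K)) (trdeg_self_eq (K := K)) hr1 hr2
            (le_comap_zI u (Ideal.span {F})) (t := t)
          rw [map_one, zI_span'] at h7
          exact h7
        have h7 : (IRatEq (Ideal.span {lsub K (zi K u) F}) t).map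
            (push (lsub K (zi K u)) 1 t) ≤ IRatEq (Ideal.span {F}) t := by
          have h8 := push_iRatEq_zi u t (I := Ideal.span {F})
          rw [zI_span'] at h8
          exact h8
        exact (sup_le_sup (sup_le_sup_left h7 _) h6) h5
      intro P hP hFP
      by_cases hlP : X u ∈ P
      · exact key2 P hP hFP hlP
      · have h4 := pan_open (M + 1) K e β t n F he hβt hF h1 u P (isSub_iff.2 ⟨hP, hlP⟩) hFP
        have h5 : IRatEq (Ideal.span {F}) t ≤ S.comap (av e β) :=
          (iRatEq_le_av hst).trans (Submodule.comap_mono (le_sup_right.trans le_sup_left))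
        have h6 := iRel_le (I := Ideal.span {F}) (t := t) (r := Pi.single u (1 : K)) h5
          fun P₂ hP₂ hIP₂ hu₂ => by
            rw [lform_single] at hu₂
            exact key2 P₂ hP₂ (by rwa [Ideal.span_singleton_le_iff_mem] at hIP₂) hu₂
        rw [lform_single] at h6
        have h7 : pan β (Ideal.span {F}) t (X u) ≤ S.comap (av e β) :=
          pan_le_one.trans ((pan_le_av hst fun a => eig_one _).trans
            (Submodule.comap_mono le_sup_right))
        exact av_mem_of_av_av_mem (sup_le h6 h7 h4)
    · have hM : M = t := by omega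
      subst hM
      by_cases hF0 : F = 0
      · refine ⟨0, Or.inl rfl, fun P hP hFP => ?_⟩
        have h0 : CSec M F 0 := Or.inl rfl
        apply cSec_le_av hst h0
        have h2 : ∀ P, IsSub M 1 P → X u ∈ P →
            pt P ∈ IRatEq (Ideal.span {F}) M ⊔ pan β (Ideal.span {F}) M 1 := by
          intro P hP hu
          refine Submodule.mem_sup_right (pt_mem_pan hP ?_ ?_)
          · rw [hF0, Ideal.span_singleton_zero]
            exact bot_le
          · intro x y hxy
            by_cases hxy' : x = y
            · refine ⟨1, -1, Or.inl one_ne_zero, ?_⟩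
              rw [hxy', map_neg, map_one]
              have h3 : (1 : MvPolynomial (Fin (M + 1)) K) * X y + -1 * X y = 0 := by ring
              rw [h3]
              exact P.zero_mem
            · rcases pair_unique hβt huv.symm hβ hxy' hxy with ⟨rfl, rfl⟩ | ⟨rfl, rfl⟩
              · exact ⟨1, 0, Or.inl one_ne_zero, by simpa using hu⟩
              · exact ⟨0, 1, Or.inr one_ne_zero, by simpa using hu⟩
        have h3 : pt P ∈ IRatEq (Ideal.span {F}) M ⊔ pan β (Ideal.span {F}) M 1 := by
          by_cases hu : X u ∈ P
          · exact h2 P hP hu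
          · have h4 := zero_rel (M + 1) K M u P (by omega) (isSub_iff.2 ⟨hP, hu⟩)
            have h5 := iRel_le (I := Ideal.span {F}) (t := M) (r := Pi.single u (1 : K))
              (S := IRatEq (Ideal.span {F}) M ⊔ pan β (Ideal.span {F}) M 1) le_sup_left
              fun P₂ hP₂ hIP₂ hu₂ => by
                rw [lform_single] at hu₂
                exact h2 P₂ hP₂ hu₂
            rw [lform_single] at h5
            apply h5
            rw [hF0, Ideal.span_singleton_zero]
            exact h4
        have h6 : IRatEq (Ideal.span {F}) M ⊔ pan β (Ideal.span {F}) M 1 ≤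
            Submodule.span ℚ {0} ⊔ IRatEq (Ideal.span {F}) M ⊔ pan β (Ideal.span {F}) M 1 :=
          sup_le_sup_right le_sup_right _
        exact h6 h3
      · rcases top_pan he hβt hF hF0 with h3 | h3
        · have hsec : secI (Ideal.span {F}) (Fin.elim0 : Fin 0 → Fin (M + 1)) =
              Ideal.span {F} := by
            unfold secI
            rw [Set.range_eq_empty, Ideal.span_empty, sup_bot_eq]
          refine ⟨icyc M (secI (Ideal.span {F}) (Fin.elim0 : Fin 0 → Fin (M + 1))),
            Or.inr ⟨0, Fin.elim0, fun i => i.elim0, rfl, ?_, rfl⟩, fun P hP hFP => ?_⟩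
          · rw [Set.range_eq_empty, Ideal.span_empty, Ideal.mem_bot]
            exact hF0
          · rw [hsec]
            refine Submodule.mem_sup_left (Submodule.mem_sup_left ?_)
            have hdim : DimLe M (Ideal.span {F}) := h3.2
            have hIP : Ideal.span {F} ≤ P := by rwa [Ideal.span_singleton_le_iff_mem]
            refine av_pt_mem_of_conj (c := icyc M (Ideal.span {F})) hdim.finite
              (icyc_nonneg M _) ?_ ?_ ?_
            · rw [icyc_of hP, Nat.cast_ne_zero]
              exact mult_ne_zero (hdim.mem_minimalPrimes hP.prime hIP hP.trdeg)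
            · intro P' hP'
              obtain ⟨h4, h5⟩ := le_of_icyc_ne_zero hP'
              exact h3.1 P P' hP h4 hIP h5
            · rw [av_of_inv e β (tr_icyc hst M)]
              exact Submodule.smul_mem _ _ (Submodule.mem_span_singleton_self _)
        · refine ⟨0, Or.inl rfl, fun P hP hFP => Submodule.mem_sup_right ?_⟩
          exact av_pt_mem_pan hst (fun a => eig_one _) hP
            (by rwa [Ideal.span_singleton_le_iff_mem]) (h3 P hP hFP)

section final

variable {K : Type u} [Field K] {N : ℕ}

/-- Coordinate subspaces. -/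
lemma exists_coord_space [Infinite K] {k t : ℕ} {c : Fin k → Fin N} (hc : Function.Injective c)
    (hN : t + 1 + k = N) : ∃ U : Submodule K (Fin N → K), Module.finrank K U = t + 1 ∧
      VI U = Ideal.span (Set.range fun i => (X (c i) : MvPolynomial (Fin N) K)) := by
  classical
  let L : (Fin N → K) →ₗ[K] (Fin k → K) := LinearMap.funLeft K K c
  have h1 : IsSub (t + 1) 1
      (Ideal.span (Set.range fun i => (X (c i) : MvPolynomial (Fin N) K))) := by
    have h2 : LinearIndependent K fun i : Fin k => (Pi.single (c i) (1 : K) : Fin N → K) := by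
      have h3 := (Pi.basisFun K (Fin N)).linearIndependent.comp c hc
      convert h3 using 1
      funext i
      rw [Function.comp_apply, Pi.basisFun_apply]
    have h3 := isSub_linear k N (t + 1) _ h2 hN.symm
    simp only [lform_single] at h3
    exact h3
  have h2 := isSub_VI (LinearMap.ker L) rfl
  have hle : Ideal.span (Set.range fun i => (X (c i) : MvPolynomial (Fin N) K)) ≤
      VI (LinearMap.ker L) := by
    rw [Ideal.span_le]
    rintro _ ⟨i, rfl⟩ x hx
    rw [eval_X]
    exact congrFun (LinearMap.mem_ker.1 hx) i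
  have hfin : t + 1 ≤ Module.finrank K (LinearMap.ker L) := by
    have h3 := LinearMap.finrank_range_add_finrank_ker L
    have h4 := Submodule.finrank_le (LinearMap.range L)
    rw [Module.finrank_fin_fun] at h3 h4
    omega
  have heq : Ideal.span (Set.range fun i => (X (c i) : MvPolynomial (Fin N) K)) =
      VI (LinearMap.ker L) := by
    by_contra hne
    have h3 := trdeg_quot_lt (K := K) h1.prime h2.prime (lt_of_le_of_ne hle hne) h1.trdeg
      h2.trdeg
    omega
  refine ⟨LinearMap.ker L, ?_, heq.symm⟩
  have h3 := h2.trdeg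
  rw [← heq, h1.trdeg] at h3
  exact_mod_cast h3.symm

variable [IsAlgClosed K] {e : AddChar (ZMod m) K} {β : Fin N → ι} {t n : ℕ}

/-- The linear subspaces in which the variables of each block are proportional. -/
theorem pan_le {F : MvPolynomial (Fin N) K} (hn : 0 < n)
    (hβt : (Finset.univ.image β).card = t) (ht : 1 ≤ t)
    (hF : SF β n F) {k₀ : ι} (hk₀ : n < (Finset.univ.filter fun j => β j = k₀).card)
    {U₀ : Submodule K (Fin N → K)} (hU₀ : Module.finrank K U₀ = t + 1) (hFU₀ : F ∉ VI U₀) :
    pan β (Ideal.span {F}) t 1 ≤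
      Submodule.span ℚ {lsec F t U₀} ⊔ IRatEq (Ideal.span {F}) t := by
  have hinf : Infinite K := IsAlgClosed.instInfinite
  unfold pan
  rw [Submodule.span_le]
  rintro _ ⟨Q, hQ, hIQ, hcl, rfl⟩
  rw [SetLike.mem_coe]
  rw [Ideal.span_singleton_le_iff_mem] at hIQ
  have hFh := hF.hom
  obtain ⟨G, h1, h2, rfl⟩ := hF
  obtain ⟨w, U, rfl, hU, hUw⟩ := cl_lin hQ hcl hβt.le
  obtain ⟨v, hv, hv'⟩ := exists_contact hn h1 h2 hUw hIQ hk₀
  rw [mem_VI] at hFU₀
  push Not at hFU₀
  obtain ⟨x, hx, hFx⟩ := hFU₀
  have h3 := roitman hFh hn ht hU hv hv' hFx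
  have hxU : x ∉ U := fun h => hFx (hIQ x h)
  have hfin : Module.finrank K (U ⊔ Submodule.span K {x} : Submodule K (Fin N → K)) = t + 1 := by
    rw [Submodule.finrank_sup_span_singleton hxU, hU]
  have h4 := lsec_sub_mem hFh ht hfin hU₀ (fun h => hFx (h x (Submodule.mem_sup_right
    (Submodule.mem_span_singleton_self x)))) (fun h => hFx (h x hx))
  have h5 := Submodule.add_mem _ h3 h4
  rw [sub_add_sub_cancel] at h5
  have h6 : (n : ℚ) • pt (VI U) ∈ Submodule.span ℚ {lsec (∑ k, G k) t U₀} ⊔
      IRatEq (Ideal.span {∑ k, G k}) t := by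
    have h7 := Submodule.add_mem _ (Submodule.mem_sup_right (S := Submodule.span ℚ
      {lsec (∑ k, G k) t U₀}) h5)
      (Submodule.mem_sup_left (Submodule.mem_span_singleton_self _))
    rw [sub_add_cancel] at h7
    exact h7
  exact (Submodule.smul_mem_iff _ (Nat.cast_ne_zero.2 hn.ne')).1 h6

/-- **Averages of cycles** when one block has more than `n` variables. -/
theorem pan_final {F : MvPolynomial (Fin N) K} (he : Good e n)
    (hβt : (Finset.univ.image β).card = t) (ht : 1 ≤ t)
    (hF : SF β n F) {k₀ : ι} (hk₀ : n < (Finset.univ.filter fun j => β j = k₀).card)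
    {U₀ : Submodule K (Fin N → K)} (hU₀ : Module.finrank K U₀ = t + 1) (hFU₀ : F ∉ VI U₀)
    {P : Ideal (MvPolynomial (Fin N) K)} (hP : IsSub t 1 P) (hFP : F ∈ P) :
    av e β (pt P) ∈ Submodule.span ℚ {lsec F t U₀} ⊔ IRatEq (Ideal.span {F}) t := by
  have hinf : Infinite K := IsAlgClosed.instInfinite
  have hn := he.pos
  have hN : t + 1 ≤ N := by
    by_contra hcon
    have h1 : Function.Injective β := injective_of_card (by omega)
    have h2 : (Finset.univ.filter fun j => β j = k₀).card ≤ 1 := by
      rw [Finset.card_le_one]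
      intro a ha b hb
      exact h1 (((Finset.mem_filter.1 ha).2).trans (Finset.mem_filter.1 hb).2.symm)
    omega
  obtain ⟨σ, hσ, hmem⟩ := pan_proj N K e β t n F he hβt hF hN
  refine sup_le (sup_le ?_ le_sup_right) (pan_le hn hβt ht hF hk₀ hU₀ hFU₀) (hmem P hP hFP)
  rw [Submodule.span_singleton_le_iff_mem]
  rcases hσ with rfl | ⟨k, c, hc1, hc2, hc3, rfl⟩
  · exact Submodule.zero_mem _
  · obtain ⟨U, hU1, hU2⟩ := exists_coord_space (K := K) (t := t) hc1 hc2
    have h1 : icyc t (secI (Ideal.span {F}) c) = lsec F t U := by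
      unfold lsec secI
      rw [hU2, sup_comm]
    rw [← hU2] at hc3
    have h2 := lsec_sub_mem hF.hom ht hU1 hU₀ hc3 hFU₀
    rw [h1]
    have h3 := Submodule.add_mem _ (Submodule.mem_sup_right (S := Submodule.span ℚ
      {lsec F t U₀}) h2) (Submodule.mem_sup_left (Submodule.mem_span_singleton_self _))
    rw [sub_add_cancel] at h3
    exact h3

end final

end Pool.Agent.H835.AV
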