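import Pool.Graph.R_pool_sql_team_seeded_9f66d723.W5h86.HC.Hypl

set_option autoImplicit false

/-!
# Relations between cycles on the zero set of an ideal
-/

universe u

namespace Pool.Agent.H835.AV

open MvPolynomial Pool.Agent.W5h86.HC

section defs

variable {K : Type u} [Field K] {N : ℕ}

/-- The relations between cycles outside of `l = 0`, for the zero set of an ideal. -/
noncomputable def IRel (I : Ideal (MvPolynomial (Fin N) K)) (t : ℕ) (l : MvPolynomial (Fin N) K) :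
    Submodule ℚ (Ideal (MvPolynomial (Fin N) K) → ℚ) :=
  Submodule.span ℚ {c | ∃ Q G e, IsSub (t + 1) l Q ∧ I ≤ Q ∧ IsHomogeneous G e ∧ G ∉ Q ∧
    c = idiv t l Q G}

/-- Rational equivalence of cycles on the zero set of an ideal. -/
noncomputable def IRatEq (I : Ideal (MvPolynomial (Fin N) K)) (t : ℕ) :
    Submodule ℚ (Ideal (MvPolynomial (Fin N) K) → ℚ) :=
  Submodule.span ℚ {c | ∃ Q G₁ G₂ e, IsSub (t + 1) 1 Q ∧ I ≤ Q ∧ IsHomogeneous G₁ e ∧
    IsHomogeneous G₂ e ∧ G₁ ∉ Q ∧ G₂ ∉ Q ∧ c = idiv t 1 Q G₁ - idiv t 1 Q G₂}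

lemma iRel_span (F : MvPolynomial (Fin N) K) (t : ℕ) (l : MvPolynomial (Fin N) K) :
    IRel (Ideal.span {F}) t l = Pool.Agent.W5h86.HC.Rel F t l := by
  unfold IRel Pool.Agent.W5h86.HC.Rel
  simp only [Ideal.span_singleton_le_iff_mem]

lemma iRatEq_span (F : MvPolynomial (Fin N) K) (t : ℕ) :
    IRatEq (Ideal.span {F}) t = RatEq F t := by
  unfold IRatEq RatEq
  simp only [Ideal.span_singleton_le_iff_mem]

lemma iRel_mono {I J : Ideal (MvPolynomial (Fin N) K)} (h : I ≤ J) (t : ℕ)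
    (l : MvPolynomial (Fin N) K) : IRel J t l ≤ IRel I t l := by
  unfold IRel
  apply Submodule.span_mono
  rintro c ⟨Q, G, e, h1, h2, h3, h4, h5⟩
  exact ⟨Q, G, e, h1, h.trans h2, h3, h4, h5⟩

end defs

section trans

variable {K κ : Type u} [Field K] [Field κ] [Algebra K κ] {N N' : ℕ}
  {φ : MvPolynomial (Fin N) K →ₐ[K] MvPolynomial (Fin N') κ} {l : MvPolynomial (Fin N) K}

/-- Transport of relations: the push-forward of the intersection cycles. -/
lemma push_idiv_mem' (h : IsFib φ l) {δ t : ℕ} (hδ : Algebra.trdeg K κ = δ)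
    {I : Ideal (MvPolynomial (Fin N) K)} {S : Submodule ℚ (Ideal (MvPolynomial (Fin N) K) → ℚ)}
    (hS : IRel I (t + δ) l ≤ S) {Q' : Ideal (MvPolynomial (Fin N') κ)}
    (hQ' : IsSub (t + 1) (φ l) Q') (hF : I ≤ Q'.comap φ) {G' : MvPolynomial (Fin N') κ} {e' : ℕ}
    (hG' : IsHomogeneous G' e') (hGQ : G' ∉ Q')
    (hsp : ∀ (Q : Ideal (MvPolynomial (Fin N') κ)) P, I ≤ Q.comap φ → Q.comap φ ≤ P →
      IsSub (t + δ) l P → (¬ ∃ P', IsSub t (φ l) P' ∧ P'.comap φ = P) → pt P ∈ S) :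
    push φ l t (idiv t (φ l) Q' G') ∈ S := by
  classical
  obtain ⟨s, r, e, hs, hrh, hr, hsP⟩ := h.den_hom hG'
  have hQ : IsSub (t + 1 + δ) l (Q'.comap φ) := h.isSub_comap hδ hQ'
  have hQ1 : IsSub (t + δ + 1) l (Q'.comap φ) := by
    have h1 : t + 1 + δ = t + δ + 1 := by ring
    rw [← h1]
    exact hQ
  have hrQ : r ∉ Q'.comap φ := by
    rw [Ideal.mem_comap, hr]
    exact fun h1 => (hQ'.prime.mem_or_mem h1).elim (hsP _ hQ'.prime hQ'.notMem) hGQ
  set c := idiv (t + δ) l (Q'.comap φ) r - push φ l t (idiv t (φ l) Q' G') with hc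
  have hval : ∀ P', IsSub t (φ l) P' → c (P'.comap φ) = 0 := by
    intro P' hP'
    rw [hc, Pi.sub_apply, push_of h _ hP', idiv_of (h.isSub_comap hδ hP'), idiv_of hP',
      h.mult_eq hP'.prime hP'.notMem (hsP _ hP'.prime hP'.notMem) hr, sub_self]
  have hval' : ∀ P, (¬ ∃ P', IsSub t (φ l) P' ∧ P'.comap φ = P) →
      c P = idiv (t + δ) l (Q'.comap φ) r P := by
    intro P hP
    rw [hc, Pi.sub_apply, push_of_not _ hP, sub_zero]
  have hcmem : c ∈ S := by
    have hsub : Function.support c ⊆ Function.support (idiv (t + δ) l (Q'.comap φ) r) := by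
      intro P hP
      by_cases h1 : ∃ P', IsSub t (φ l) P' ∧ P'.comap φ = P
      · obtain ⟨P', hP', rfl⟩ := h1
        exact absurd (hval P' hP') hP
      · rw [Function.mem_support, ← hval' P h1]
        exact hP
    refine mem_of_support ((idiv_support_finite hQ1 hrQ).subset hsub) fun P hP => ?_
    have h1 : ¬ ∃ P', IsSub t (φ l) P' ∧ P'.comap φ = P := by
      rintro ⟨P', hP', rfl⟩
      exact hP (hval P' hP')
    obtain ⟨h2, h3⟩ := idiv_support hQ1 hrQ (hsub hP)
    exact hsp Q' P hF (le_sup_left.trans h3.1.2) h2 h1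
  have h1 : push φ l t (idiv t (φ l) Q' G') = idiv (t + δ) l (Q'.comap φ) r - c := by
    rw [hc, sub_sub_cancel]
  rw [h1]
  exact Submodule.sub_mem _ (hS (Submodule.subset_span ⟨_, _, _, hQ1, hF, hrh, hrQ, rfl⟩)) hcmem

/-- **Transport of relations.** -/
theorem push_rel_le (h : IsFib φ l) {δ t : ℕ} (hδ : Algebra.trdeg K κ = δ)
    {I : Ideal (MvPolynomial (Fin N) K)} {I' : Ideal (MvPolynomial (Fin N') κ)}
    (hI : I ≤ I'.comap φ) {S : Submodule ℚ (Ideal (MvPolynomial (Fin N) K) → ℚ)}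
    (hS : IRel I (t + δ) l ≤ S)
    (hsp : ∀ (Q : Ideal (MvPolynomial (Fin N') κ)) P, I ≤ Q.comap φ → Q.comap φ ≤ P →
      IsSub (t + δ) l P → (¬ ∃ P', IsSub t (φ l) P' ∧ P'.comap φ = P) → pt P ∈ S) :
    (IRel I' t (φ l)).map (push φ l t) ≤ S := by
  unfold IRel
  rw [Submodule.map_span_le]
  rintro c ⟨Q', G', e', hQ', hF, hG', hGQ, rfl⟩
  exact push_idiv_mem' h hδ hS hQ' (hI.trans (Ideal.comap_mono hF)) hG' hGQ hsp

end trans

section ext

variable {K : Type u} [Field K] {N : ℕ}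

/-- **Extension of relations** over a hyperplane. -/
lemma iRel_le {I : Ideal (MvPolynomial (Fin N) K)} {t : ℕ} {r : Fin N → K}
    {S : Submodule ℚ (Ideal (MvPolynomial (Fin N) K) → ℚ)} (hS : IRatEq I t ≤ S)
    (h : ∀ P, IsSub t 1 P → I ≤ P → lform r ∈ P → pt P ∈ S) : IRel I t (lform r) ≤ S := by
  unfold IRel
  rw [Submodule.span_le]
  rintro c ⟨Q, G, e, hQ, hFQ, hG, hGQ, rfl⟩
  rw [SetLike.mem_coe]
  obtain ⟨hQ1, hlQ⟩ := isSub_iff.1 hQ
  have hle : (lform r) ^ e ∉ Q := fun h1 => hlQ (hQ.prime.mem_of_pow_mem _ h1)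
  have hhom : IsHomogeneous ((lform r) ^ e) e := by
    have h1 := (isHomogeneous_lform r).pow e
    rw [one_mul] at h1
    exact h1
  set c₁ := idiv t 1 Q G - idiv t 1 Q ((lform r) ^ e) with hc₁
  have hc₁S : c₁ ∈ S := hS (Submodule.subset_span
    ⟨Q, G, (lform r) ^ e, e, hQ1, hFQ, hG, hhom, hGQ, hle, rfl⟩)
  set c := idiv t (lform r) Q G - c₁ with hc
  have hcval : ∀ P, c P ≠ 0 → IsSub t 1 P ∧ I ≤ P ∧ lform r ∈ P ∧
      P ∈ Function.support (idiv t 1 Q G) ∪ Function.support (idiv t 1 Q ((lform r) ^ e)) := by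
    intro P hcP
    by_cases hP : IsSub t 1 P
    · by_cases hlP : lform r ∈ P
      · have h1 : ¬ IsSub t (lform r) P := fun h1 => (isSub_iff.1 h1).2 hlP
        rw [hc, Pi.sub_apply, idiv_of_not h1, hc₁, Pi.sub_apply] at hcP
        by_cases h2 : idiv t 1 Q G P = 0
        · rw [h2] at hcP
          have h3 : idiv t 1 Q ((lform r) ^ e) P ≠ 0 := by
            intro h3
            rw [h3] at hcP
            exact hcP (by ring)
          exact ⟨hP, hFQ.trans (le_of_idiv_ne_zero h3).2.1, hlP, Or.inr h3⟩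
        · exact ⟨hP, hFQ.trans (le_of_idiv_ne_zero h2).2.1, hlP, Or.inl h2⟩
      · exfalso
        apply hcP
        have h1 : IsSub t (lform r) P := isSub_iff.2 ⟨hP, hlP⟩
        have h2 : idiv t 1 Q ((lform r) ^ e) P = 0 := by
          by_contra h3
          exact hlP (hP.prime.mem_of_pow_mem _ (le_of_idiv_ne_zero h3).2.2)
        rw [hc, Pi.sub_apply, idiv_of h1, hc₁, Pi.sub_apply, idiv_of hP, h2]
        ring
    · exfalso
      apply hcP
      have h1 : ¬ IsSub t (lform r) P := fun h1 => hP (isSub_iff.1 h1).1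
      rw [hc, Pi.sub_apply, idiv_of_not h1, hc₁, Pi.sub_apply, idiv_of_not hP, idiv_of_not hP]
      ring
  have hcS : c ∈ S := by
    refine mem_of_support (((idiv_support_finite hQ1 hGQ).union
      (idiv_support_finite hQ1 hle)).subset fun P hP => (hcval P hP).2.2.2) fun P hP => ?_
    obtain ⟨h1, h2, h3, -⟩ := hcval P hP
    exact h P h1 h2 h3
  have h1 : idiv t (lform r) Q G = c + c₁ := by
    rw [hc, sub_add_cancel]
  rw [h1]
  exact Submodule.add_mem _ hcS hc₁S

/-- **Change of the hyperplane**. Relations outside of `l' = 0` give relations outside of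
`l = 0`, modulo cycles in `l' = 0`. -/
lemma restr_iRel_le {I : Ideal (MvPolynomial (Fin N) K)} {t : ℕ} {l l' : MvPolynomial (Fin N) K}
    {S : Submodule ℚ (Ideal (MvPolynomial (Fin N) K) → ℚ)} (hS : IRel I t l ≤ S)
    (h : ∀ P, IsSub t l P → I ≤ P → l' ∈ P → pt P ∈ S) :
    (IRel I t l').map (restr l) ≤ S := by
  unfold IRel
  rw [Submodule.map_span_le]
  rintro c ⟨Q, G, e, hQ, hFQ, hG, hGQ, rfl⟩
  by_cases hlQ : l ∈ Q
  · have h1 : restr l (idiv t l' Q G) = 0 := by
      funext P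
      by_cases h2 : l ∈ P
      · rw [restr_of_mem _ h2]
        rfl
      · rw [restr_of_not_mem _ h2]
        by_contra h3
        exact h2 ((le_of_idiv_ne_zero h3).2.1 hlQ)
    rw [h1]
    exact Submodule.zero_mem _
  · have hQ1 : IsSub (t + 1) 1 Q := (isSub_iff.1 hQ).1
    have hQl : IsSub (t + 1) l Q := isSub_iff.2 ⟨hQ1, hlQ⟩
    set c₁ := idiv t l Q G with hc₁
    have hc₁S : c₁ ∈ S := hS (Submodule.subset_span ⟨Q, G, e, hQl, hFQ, hG, hGQ, rfl⟩)
    set c := c₁ - restr l (idiv t l' Q G) with hc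
    have hcval : ∀ P, c P ≠ 0 → IsSub t l P ∧ I ≤ P ∧ l' ∈ P ∧ c₁ P ≠ 0 := by
      intro P hcP
      by_cases h2 : l ∈ P
      · exfalso
        apply hcP
        rw [hc, Pi.sub_apply, restr_of_mem _ h2, sub_zero, hc₁, idiv_of_not fun h3 =>
          (isSub_iff.1 h3).2 h2]
      · rw [hc, Pi.sub_apply, restr_of_not_mem _ h2] at hcP
        by_cases h3 : IsSub t 1 P
        · have h4 : IsSub t l P := isSub_iff.2 ⟨h3, h2⟩
          by_cases h5 : l' ∈ P
          · have h6 : idiv t l' Q G P = 0 := idiv_of_not fun h7 => (isSub_iff.1 h7).2 h5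
            rw [h6, sub_zero] at hcP
            exact ⟨h4, hFQ.trans (le_of_idiv_ne_zero hcP).2.1, h5, hcP⟩
          · exfalso
            apply hcP
            rw [hc₁, idiv_of h4, idiv_of (isSub_iff.2 ⟨h3, h5⟩), sub_self]
        · exfalso
          apply hcP
          rw [hc₁, idiv_of_not fun h4 => h3 (isSub_iff.1 h4).1,
            idiv_of_not fun h4 => h3 (isSub_iff.1 h4).1, sub_self]
    have hcS : c ∈ S := by
      refine mem_of_support ((idiv_support_finite hQ1 hGQ).subset fun P hP =>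
        (hcval P hP).2.2.2) fun P hP => ?_
      obtain ⟨h1, h2, h3, -⟩ := hcval P hP
      exact h P h1 h2 h3
    have h1 : restr l (idiv t l' Q G) = c₁ - c := by
      rw [hc, sub_sub_cancel]
    rw [h1]
    exact Submodule.sub_mem _ hc₁S hcS

end ext

end Pool.Agent.H835.AV
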