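import Pool.Agent.H835.AV.LinEq

set_option autoImplicit false
set_option linter.unusedSectionVars false

/-!
# Linear subspaces which meet the hypersurface with maximal multiplicity
-/

universe u

namespace Pool.Agent.H835.AV

open MvPolynomial Pool.Agent.W5h86 Pool.Agent.W5h86.HC

variable {K : Type u} [Field K] {N : ℕ}

lemma icyc_eq_pt {t : ℕ} {P : Ideal (MvPolynomial (Fin N) K)} (hP : IsSub t 1 P) :
    icyc t P = pt P := by
  classical
  funext P'
  unfold pt
  by_cases h : P' = P
  · rw [h, Pi.single_eq_same, icyc_of hP, mult_self hP.prime, Nat.cast_one]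
  · rw [Pi.single_eq_of_ne h]
    by_contra h1
    obtain ⟨h2, h3⟩ := le_of_icyc_ne_zero h1
    exact h (eq_of_trdeg_eq hP.prime h2.prime h3 hP.trdeg h2.trdeg).symm

lemma idiv_pow {t : ℕ} {Q : Ideal (MvPolynomial (Fin N) K)} (hQ : IsSub (t + 1) 1 Q)
    {a : MvPolynomial (Fin N) K} (ha : a ∉ Q) (k : ℕ) :
    idiv t 1 Q (a ^ k) = (k : ℚ) • idiv t 1 Q a := by
  induction k with
  | zero => rw [pow_zero, HD.idiv_one, Nat.cast_zero, zero_smul]
  | succ k ih =>
    rw [pow_succ, HD.idiv_mul hQ (fun h => ha (hQ.prime.mem_of_pow_mem _ h)) ha, ih,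
      Nat.cast_succ, add_smul, one_smul]

lemma eval_lform (c x : Fin N → K) : eval x (lform c) = ∑ i, c i * x i := by
  unfold lform
  simp

lemma eval_lform_add (c x y : Fin N → K) :
    eval (x + y) (lform c) = eval x (lform c) + eval y (lform c) := by
  rw [eval_lform, eval_lform, eval_lform, ← Finset.sum_add_distrib]
  refine Finset.sum_congr rfl fun i _ => ?_
  rw [Pi.add_apply, mul_add]

lemma eval_lform_smul (c : Fin N → K) (w : K) (x : Fin N → K) :
    eval (w • x) (lform c) = w * eval x (lform c) := by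
  rw [eval_lform, eval_lform, Finset.mul_sum]
  refine Finset.sum_congr rfl fun i _ => ?_
  rw [Pi.smul_apply, smul_eq_mul]
  ring

variable [Infinite K]

/-- The intersection of two hyperplanes. -/
lemma VI_sup {t : ℕ} {U₁ U₂ : Submodule K (Fin (t + 2) → K)}
    (h₁ : Module.finrank K U₁ = t + 1) (h₂ : Module.finrank K U₂ = t + 1) (hne : VI U₁ ≠ VI U₂)
    {W : Submodule K (Fin (t + 2) → K)} (hW : Module.finrank K W = t) (hW₁ : W ≤ U₁)
    (hW₂ : W ≤ U₂) : VI U₁ ⊔ VI U₂ = VI W := by
  obtain ⟨c₁, hc₁, e₁⟩ := exists_lform_VI h₁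
  obtain ⟨c₂, hc₂, e₂⟩ := exists_lform_VI h₂
  have hli : LinearIndependent K ![c₁, c₂] := by
    rw [LinearIndependent.pair_iff' hc₁]
    intro a ha
    apply hne
    have ha0 : a ≠ 0 := by
      rintro rfl
      rw [zero_smul] at ha
      exact hc₂ ha.symm
    have h3 : lform c₂ = C a * lform c₁ := by
      rw [← ha]
      unfold lform
      rw [Finset.mul_sum]
      refine Finset.sum_congr rfl fun i _ => ?_
      rw [Pi.smul_apply, smul_eq_mul, map_mul, mul_assoc]
    rw [e₁, e₂, h3, Ideal.span_singleton_mul_left_unit ((IsUnit.mk0 a ha0).map C)]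
  have h3 := isSub_linear 2 (t + 2) t ![c₁, c₂] hli rfl
  have h4 : Ideal.span (Set.range fun i => lform (![c₁, c₂] i)) = VI U₁ ⊔ VI U₂ := by
    rw [e₁, e₂, ← Ideal.span_union]
    congr 1
    ext x
    simp only [Set.mem_range, Set.mem_union, Set.mem_singleton_iff, Fin.exists_fin_two,
      Matrix.cons_val_zero, Matrix.cons_val_one]
    constructor
    · rintro (h | h)
      · exact Or.inl h.symm
      · exact Or.inr h.symm
    · rintro (h | h)
      · exact Or.inl h.symm
      · exact Or.inr h.symm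
  have h5 : IsSub t 1 (VI U₁ ⊔ VI U₂) := by
    rw [← h4]
    exact h3
  have h6 := isSub_VI W hW
  exact eq_of_trdeg_eq h5.prime h6.prime (sup_le (VI_anti hW₁) (VI_anti hW₂)) h5.trdeg h6.trdeg

/-- The section is a multiple of a linear subspace. -/
lemma lsec_eq {F : MvPolynomial (Fin N) K} {n t : ℕ}
    {U : Submodule K (Fin N → K)} (hU : Module.finrank K U = t) {v : Fin N → K} (hv : v ∉ U)
    (hFv : ∀ x ∈ U, ∀ w : K, eval (x + w • v) F = w ^ n * eval v F) (hv0 : eval v F ≠ 0) :
    lsec F t (U ⊔ Submodule.span K {v}) = (n : ℚ) • pt (VI U) := by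
  set U₁ := U ⊔ Submodule.span K {v} with hU₁
  have h1 : Module.finrank K U₁ = t + 1 := by
    rw [hU₁, Submodule.finrank_sup_span_singleton hv, hU]
  obtain ⟨A, A', hA1, hA2⟩ := exists_par U₁ h1
  have hle : U ≤ U₁ := le_sup_left
  have h2 : Module.finrank K (U.comap A.mulVecLin) = t := by
    rw [finrank_comap_mulVec hA1 hA2 hle, hU]
  obtain ⟨c, hc, e⟩ := exists_lform_VI h2
  obtain ⟨y₀, hy₀⟩ := (hA2 v).1 (Submodule.mem_sup_right (Submodule.mem_span_singleton_self v))
  have hκ : eval y₀ (lform c) ≠ 0 := by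
    intro h
    apply hv
    by_contra hcon
    -- the hyperplane is the zero set of the linear form
    have h3 : U₁.comap A.mulVecLin = ⊤ := by
      refine eq_top_iff.2 fun y _ => ?_
      exact (hA2 _).2 ⟨y, rfl⟩
    have h4 : lform c = 0 := by
      apply MvPolynomial.funext
      intro y
      rw [map_zero]
      have h5 : A.mulVec y ∈ U₁ := (hA2 _).2 ⟨y, rfl⟩
      obtain ⟨x, hx, z, hz, hxz⟩ := Submodule.mem_sup.1 h5
      obtain ⟨w, rfl⟩ := Submodule.mem_span_singleton.1 hz
      have h6 : y = (y - w • y₀) + w • y₀ := by abel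
      have h7 : eval (y - w • y₀) (lform c) = 0 := by
        have h8 : lform c ∈ VI (U.comap A.mulVecLin) := by
          rw [e]
          exact Ideal.mem_span_singleton_self _
        apply h8
        change A.mulVec (y - w • y₀) ∈ U
        rw [Matrix.mulVec_sub, Matrix.mulVec_smul, hy₀, ← hxz, add_sub_cancel_right]
        exact hx
      rw [h6, eval_lform_add, eval_lform_smul, h7, h, mul_zero, add_zero]
    have h5 := (prime_lform h2 hc e).ne_zero
    exact h5 h4
  have hH : lsub K A F = C (eval v F / eval y₀ (lform c) ^ n) * lform c ^ n := by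
    apply MvPolynomial.funext
    intro y
    have h5 : A.mulVec y ∈ U₁ := (hA2 _).2 ⟨y, rfl⟩
    obtain ⟨x, hx, z, hz, hxz⟩ := Submodule.mem_sup.1 h5
    obtain ⟨w, rfl⟩ := Submodule.mem_span_singleton.1 hz
    have h6 : y = (y - w • y₀) + w • y₀ := by abel
    have h7 : eval (y - w • y₀) (lform c) = 0 := by
      have h8 : lform c ∈ VI (U.comap A.mulVecLin) := by
        rw [e]
        exact Ideal.mem_span_singleton_self _
      apply h8
      change A.mulVec (y - w • y₀) ∈ U
      rw [Matrix.mulVec_sub, Matrix.mulVec_smul, hy₀, ← hxz, add_sub_cancel_right]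
      exact hx
    have h8 : eval y (lform c) = w * eval y₀ (lform c) := by
      rw [h6, eval_lform_add, eval_lform_smul, h7, zero_add]
    rw [eval_lsub, ← hxz, hFv x hx w, map_mul, map_pow, eval_C, h8]
    field_simp
    ring
  have hp := prime_lform h2 hc e
  have h9 : lsec F t U₁ = push (lsub K A) 1 t (idiv t 1 ⊥ (lsub K A F)) := by
    rw [idiv_eq_icyc, push_icyc_lsub hA1, comap_sup_span hA1, ← VI_eq_comap_bot hA2]
    rfl
  have hbot : IsSub (t + 1) 1 (⊥ : Ideal (MvPolynomial (Fin (t + 1)) K)) := isSub_bot'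
  have hunit : IsUnit (C (eval v F / eval y₀ (lform c) ^ n) : MvPolynomial (Fin (t + 1)) K) :=
    (IsUnit.mk0 _ (div_ne_zero hv0 (pow_ne_zero _ hκ))).map C
  rw [h9, hH, HD.idiv_mul hbot (by rw [Ideal.mem_bot]; exact hunit.ne_zero)
    (by rw [Ideal.mem_bot]; exact pow_ne_zero _ hp.ne_zero), idiv_unit hunit, zero_add,
    idiv_pow hbot (by rw [Ideal.mem_bot]; exact hp.ne_zero), map_smul, idiv_eq_icyc, bot_sup_eq,
    ← e, icyc_eq_pt (isSub_VI _ h2), push_pt_lsub hA1 (isSub_VI _ h2), VI_comap hA2 hle]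

/-- **Roitman's argument**: a linear subspace `U` contained in the hypersurface such that another
one through `U` meets the hypersurface only in `U` (or is contained in it) is equivalent to a
multiple of a linear section. -/
theorem roitman {F : MvPolynomial (Fin N) K} {n t : ℕ} (hF : IsHomogeneous F n) (hn : 0 < n)
    (ht : 1 ≤ t) {U : Submodule K (Fin N → K)} (hU : Module.finrank K U = t) {v : Fin N → K}
    (hv : v ∉ U) (hFv : ∀ x ∈ U, ∀ w : K, eval (x + w • v) F = w ^ n * eval v F)
    {e : Fin N → K} (he : eval e F ≠ 0) :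
    (n : ℚ) • pt (VI U) - lsec F t (U ⊔ Submodule.span K {e}) ∈ IRatEq (Ideal.span {F}) t := by
  have hFU : ∀ x ∈ U, eval x F = 0 := by
    intro x hx
    have h1 := hFv x hx 0
    rw [zero_smul, add_zero, zero_pow hn.ne', zero_mul] at h1
    exact h1
  have heU : e ∉ U := fun h => he (hFU e h)
  have hU₂ : Module.finrank K (U ⊔ Submodule.span K {e} : Submodule K (Fin N → K)) = t + 1 := by
    rw [Submodule.finrank_sup_span_singleton heU, hU]
  have hU₁ : Module.finrank K (U ⊔ Submodule.span K {v} : Submodule K (Fin N → K)) = t + 1 := by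
    rw [Submodule.finrank_sup_span_singleton hv, hU]
  have hF₂ : F ∉ VI (U ⊔ Submodule.span K {e}) := fun h => he (h e
    (Submodule.mem_sup_right (Submodule.mem_span_singleton_self e)))
  by_cases hv0 : eval v F = 0
  · -- the linear subspace is contained in the hypersurface
    set U₁ := U ⊔ Submodule.span K {v} with hU₁d
    set U₂ := U ⊔ Submodule.span K {e} with hU₂d
    have hFU₁ : F ∈ VI U₁ := by
      intro y hy
      obtain ⟨x, hx, z, hz, rfl⟩ := Submodule.mem_sup.1 hy
      obtain ⟨w, rfl⟩ := Submodule.mem_span_singleton.1 hz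
      rw [hFv x hx, hv0, mul_zero]
    have heU₁ : e ∉ U₁ := fun h => he (hFU₁ e h)
    have hV : Module.finrank K (U₁ ⊔ Submodule.span K {e} : Submodule K (Fin N → K)) = t + 2 := by
      rw [Submodule.finrank_sup_span_singleton heU₁, hU₁]
    obtain ⟨A, A', hA1, hA2⟩ := exists_par _ hV
    have l₁ : U₁ ≤ U₁ ⊔ Submodule.span K {e} := le_sup_left
    have l₂ : U₂ ≤ U₁ ⊔ Submodule.span K {e} := sup_le_sup_right le_sup_left _
    have l : U ≤ U₁ ⊔ Submodule.span K {e} := le_sup_left.trans l₁
    have g₁ : Module.finrank K (U₁.comap A.mulVecLin) = t + 1 := by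
      rw [finrank_comap_mulVec hA1 hA2 l₁, hU₁]
    have g₂ : Module.finrank K (U₂.comap A.mulVecLin) = t + 1 := by
      rw [finrank_comap_mulVec hA1 hA2 l₂, hU₂]
    have g : Module.finrank K (U.comap A.mulVecLin) = t := by
      rw [finrank_comap_mulVec hA1 hA2 l, hU]
    obtain ⟨z, hz0, ez⟩ := exists_lform_VI g₁
    obtain ⟨w, hw0, ew⟩ := exists_lform_VI g₂
    have pz := prime_lform g₁ hz0 ez
    have pw := prime_lform g₂ hw0 ew
    have m₁ : lform z ∣ lsub K A F := by
      rw [← Ideal.mem_span_singleton, ← ez]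
      rw [← VI_comap hA2 l₁] at hFU₁
      exact hFU₁
    have m₂ : ¬ lform w ∣ lsub K A F := by
      rw [← Ideal.mem_span_singleton, ← ew]
      intro h
      apply hF₂
      rw [← VI_comap hA2 l₂]
      exact h
    have hH0 : lsub K A F ≠ 0 := by
      intro h
      apply m₂
      rw [h]
      exact dvd_zero _
    have hHh : IsHomogeneous (lsub K A F) n := isHomogeneous_lsub A hF
    obtain ⟨G, hG1, hG2⟩ := (FiniteMultiplicity.of_prime_left pz hH0).exists_eq_pow_mul_and_not_dvd
    set a := multiplicity (lform z) (lsub K A F) with ha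
    have hG0 : G ≠ 0 := by
      rintro rfl
      rw [mul_zero] at hG1
      exact hH0 hG1
    obtain ⟨d, hd⟩ := isHomogeneous_of_dvd hHh hH0 ⟨lform z ^ a, by rw [hG1, mul_comm]⟩
    have had : n = a + d := by
      have h3 := ((isHomogeneous_lform z).pow a).mul hd
      rw [← hG1, one_mul] at h3
      exact hHh.inj_right h3 hH0
    have hwG : ¬ lform w ∣ G := fun h => m₂ (by
      rw [hG1]
      exact h.mul_left _)
    have hwz : ¬ lform w ∣ lform z := by
      intro h
      exact m₂ (h.trans m₁)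
    have hzw : ¬ lform z ∣ lform w := by
      intro h
      exact hwz (pz.associated_of_dvd pw h).symm.dvd
    have Sz := isSub_span_of_prime pz (isHomogeneous_lform z)
    have Sw := isSub_span_of_prime pw (isHomogeneous_lform w)
    have k0 : ∀ {a b : MvPolynomial (Fin (t + 2)) K}, ¬ a ∣ b → b ∉ Ideal.span {a} := by
      intro a b h h1
      exact h (Ideal.mem_span_singleton.1 h1)
    have hne : VI (U₂.comap A.mulVecLin) ≠ VI (U₁.comap A.mulVecLin) := by
      rw [ez, ew]
      intro h
      apply k0 hwz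
      rw [h]
      exact Ideal.mem_span_singleton_self _
    have hsup := VI_sup g₂ g₁ hne g (Submodule.comap_mono le_sup_left)
      (Submodule.comap_mono le_sup_left)
    have hpt : idiv t 1 (Ideal.span {lform w}) (lform z) = pt (VI (U.comap A.mulVecLin)) := by
      rw [idiv_eq_icyc, ← ez, ← ew, hsup, icyc_eq_pt (isSub_VI _ g)]
    have hpt' : idiv t 1 (Ideal.span {lform z}) (lform w) = pt (VI (U.comap A.mulVecLin)) := by
      rw [idiv_eq_icyc, ← ez, ← ew, sup_comm, hsup, icyc_eq_pt (isSub_VI _ g)]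
    have i₁ := lemY pw pz (isHomogeneous_lform w) (isHomogeneous_lform z) G hG0 ⟨d, hd⟩ hwG hG2
    have i₂ : idiv t 1 (Ideal.span {lform z}) G - idiv t 1 (Ideal.span {lform z}) (lform w ^ d) ∈
        IRatEq (Ideal.span {lform z}) t := by
      refine Submodule.subset_span ⟨_, G, lform w ^ d, d, Sz, le_rfl, hd, ?_, k0 hG2, ?_, rfl⟩
      · have h3 := (isHomogeneous_lform w).pow d
        rw [one_mul] at h3
        exact h3
      · intro h3
        exact k0 hzw (Sz.prime.mem_of_pow_mem _ h3)
    rw [idiv_pow Sz (k0 hzw), hpt'] at i₂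
    have hle₁ : Ideal.span {lsub K A F} ≤ Ideal.span {G} := by
      rw [Ideal.span_singleton_le_iff_mem, hG1]
      exact Ideal.mul_mem_left _ _ (Ideal.mem_span_singleton_self G)
    have hle₂ : Ideal.span {lsub K A F} ≤ Ideal.span {lform z} := by
      rw [Ideal.span_singleton_le_iff_mem, Ideal.mem_span_singleton]
      exact m₁
    have i₃ := Submodule.add_mem _ (iRatEq_anti hle₁ t i₁) (iRatEq_anti hle₂ t i₂)
    rw [sub_add_sub_cancel] at i₃
    have i₄ : idiv t 1 (Ideal.span {lform w}) (lsub K A F) =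
        (a : ℚ) • pt (VI (U.comap A.mulVecLin)) + idiv t 1 (Ideal.span {lform w}) G := by
      have h5 : lform z ^ a ∉ Ideal.span {lform w} := fun h3 =>
        k0 hwz (Sw.prime.mem_of_pow_mem _ h3)
      conv_lhs => rw [hG1]
      rw [HD.idiv_mul Sw h5 (k0 hwG), idiv_pow Sw (k0 hwz), hpt]
    have i₅ : (n : ℚ) • pt (VI (U.comap A.mulVecLin)) -
        idiv t 1 (Ideal.span {lform w}) (lsub K A F) ∈ IRatEq (Ideal.span {lsub K A F}) t := by
      have h5 := Submodule.neg_mem _ i₃
      rw [neg_sub] at h5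
      rw [i₄]
      convert h5 using 1
      rw [had, Nat.cast_add, add_smul]
      abel
    have i₆ := push_iRatEq_lsub hA1 (I := Ideal.span {F}) (I' := Ideal.span {lsub K A F}) (by
      rw [Ideal.span_singleton_le_iff_mem, Ideal.mem_comap]
      exact Ideal.mem_span_singleton_self _) t (Submodule.mem_map_of_mem i₅)
    rw [map_sub, map_smul, push_pt_lsub hA1 (isSub_VI _ g), VI_comap hA2 l, ← ew,
      ← lsec_eq_push hA1 hA2 l₂] at i₆
    exact i₆
  · have h1 := lsec_eq hU hv hFv hv0
    have hF₁ : F ∉ VI (U ⊔ Submodule.span K {v}) := fun h => hv0 (h v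
      (Submodule.mem_sup_right (Submodule.mem_span_singleton_self v)))
    rw [← h1]
    exact lsec_sub_mem hF ht hU₁ hU₂ hF₁ hF₂

end Pool.Agent.H835.AV
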