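import Pool.Agent.H835.AV.GProj

set_option autoImplicit false
set_option linter.unusedSectionVars false

/-!
# Averages of cycles modulo cycles supported in a closed subset
-/

universe u

namespace Pool.Agent.H835.AV

open MvPolynomial Pool.Agent.W5h86.HC

section defs

variable {K : Type u} [Field K] {N : ℕ}

/-- The cycles supported in `J = 0`. -/
noncomputable def sp (J : Ideal (MvPolynomial (Fin N) K)) (t : ℕ) (l : MvPolynomial (Fin N) K) :
    Submodule ℚ (Ideal (MvPolynomial (Fin N) K) → ℚ) :=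
  Submodule.span ℚ {c | ∃ Q, IsSub t l Q ∧ J ≤ Q ∧ c = pt Q}

/-- The relations, and the cycles supported in `J = 0`. -/
noncomputable def SRel (I J : Ideal (MvPolynomial (Fin N) K)) (t : ℕ)
    (l : MvPolynomial (Fin N) K) : Submodule ℚ (Ideal (MvPolynomial (Fin N) K) → ℚ) :=
  IRel I t l ⊔ sp J t l

lemma pt_mem_sp {J Q : Ideal (MvPolynomial (Fin N) K)} {t : ℕ} {l : MvPolynomial (Fin N) K}
    (h : IsSub t l Q) (hJ : J ≤ Q) : pt Q ∈ sp J t l :=
  Submodule.subset_span ⟨Q, h, hJ, rfl⟩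

lemma sp_anti {J J' : Ideal (MvPolynomial (Fin N) K)} (h : J ≤ J') (t : ℕ)
    (l : MvPolynomial (Fin N) K) : sp J' t l ≤ sp J t l := by
  unfold sp
  apply Submodule.span_mono
  rintro c ⟨Q, h1, h2, h3⟩
  exact ⟨Q, h1, h.trans h2, h3⟩

lemma sRel_anti (I : Ideal (MvPolynomial (Fin N) K)) {J J' : Ideal (MvPolynomial (Fin N) K)}
    (h : J ≤ J') (t : ℕ) (l : MvPolynomial (Fin N) K) : SRel I J' t l ≤ SRel I J t l :=
  sup_le_sup_left (sp_anti h t l) _

lemma restr_pt_of_mem {P : Ideal (MvPolynomial (Fin N) K)} {l : MvPolynomial (Fin N) K}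
    (h : l ∈ P) : restr l (pt P) = 0 := by
  classical
  funext P'
  by_cases h1 : l ∈ P'
  · rw [restr_of_mem _ h1]
    rfl
  · rw [restr_of_not_mem _ h1]
    unfold pt
    rw [Pi.single_eq_of_ne]
    · rfl
    · rintro rfl
      exact h1 h

lemma restr_pt_of_not_mem {P : Ideal (MvPolynomial (Fin N) K)} {l : MvPolynomial (Fin N) K}
    (h : l ∉ P) : restr l (pt P) = pt P := by
  classical
  funext P'
  by_cases h1 : l ∈ P'
  · rw [restr_of_mem _ h1]
    unfold pt
    rw [Pi.single_eq_of_ne]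
    rintro rfl
    exact h h1
  · rw [restr_of_not_mem _ h1]

lemma restr_sp_le {J : Ideal (MvPolynomial (Fin N) K)} {t : ℕ} {l l' : MvPolynomial (Fin N) K} :
    (sp J t l').map (restr l) ≤ sp J t l := by
  unfold sp
  rw [Submodule.map_span_le]
  rintro c ⟨Q, h1, h2, rfl⟩
  by_cases h3 : l ∈ Q
  · rw [restr_pt_of_mem h3]
    exact Submodule.zero_mem _
  · rw [restr_pt_of_not_mem h3]
    exact Submodule.subset_span ⟨Q, isSub_iff.2 ⟨(isSub_iff.1 h1).1, h3⟩, h2, rfl⟩

end defs

section av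

variable {K : Type u} [Field K] {N m : ℕ} {ι : Type} [Fintype ι] [DecidableEq ι] [NeZero m]
  {e : AddChar (ZMod m) K} {β : Fin N → ι}

lemma sp_le_av {J : Ideal (MvPolynomial (Fin N) K)} (hJ : Stable e β J) {t : ℕ}
    {l : MvPolynomial (Fin N) K} (hl : ∀ a : ι → ZMod m, Eig (wt e β a) l) :
    sp J t l ≤ (sp J t l).comap (av e β) := by
  refine av_map_le fun a => ?_
  unfold sp
  rw [Submodule.map_span_le]
  rintro c ⟨Q, h1, h2, rfl⟩
  rw [tr_pt (wt_mul_neg e β a)]
  refine Submodule.subset_span ⟨_, ?_, (hJ (-a)).trans (Ideal.comap_mono h2), rfl⟩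
  exact (isSub_comap_sc_iff (wt_neg_mul e β a) (hl (-a)) (hl a)).2 h1

lemma sRel_le_av {I J : Ideal (MvPolynomial (Fin N) K)} (hI : Stable e β I) (hJ : Stable e β J)
    {t : ℕ} {l : MvPolynomial (Fin N) K} (hl : ∀ a : ι → ZMod m, Eig (wt e β a) l) :
    SRel I J t l ≤ (SRel I J t l).comap (av e β) :=
  sup_le ((iRel_le_av hI hl).trans (Submodule.comap_mono le_sup_left))
    ((sp_le_av hJ hl).trans (Submodule.comap_mono le_sup_right))

end av

section push

variable {K κ : Type u} [Field K] [Field κ] [Algebra K κ] {N N' : ℕ}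
  {φ : MvPolynomial (Fin N) K →ₐ[K] MvPolynomial (Fin N') κ} {l : MvPolynomial (Fin N) K}

lemma push_sp_le (h : IsFib φ l) {δ t : ℕ} (hδ : Algebra.trdeg K κ = δ)
    {J : Ideal (MvPolynomial (Fin N) K)} {J' : Ideal (MvPolynomial (Fin N') κ)}
    (hJ : J ≤ J'.comap φ) : (sp J' t (φ l)).map (push φ l t) ≤ sp J (t + δ) l := by
  unfold sp
  rw [Submodule.map_span_le]
  rintro c ⟨Q, h1, h2, rfl⟩
  rw [push_pt h h1]
  exact Submodule.subset_span ⟨_, h.isSub_comap hδ h1, hJ.trans (Ideal.comap_mono h2), rfl⟩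

variable {m : ℕ} {ι : Type} [Fintype ι] [DecidableEq ι] [NeZero m]

/-- **Transport of relations between averages.** -/
theorem av_mem_of_av_mem_sp (h : IsFib φ l) {δ t : ℕ} (hδ : Algebra.trdeg K κ = δ)
    {e : AddChar (ZMod m) K} {β : Fin N → ι} {β' : Fin N' → ι}
    (hc : ∀ (a : ι → ZMod m) f, φ (sc (wt e β a) f) = sc (wt (ex κ e) β' a) (φ f))
    (hl : ∀ a : ι → ZMod m, Eig (wt (ex κ e) β' a) (φ l))
    (hl0 : ∀ a : ι → ZMod m, Eig (wt e β a) l)
    {I J : Ideal (MvPolynomial (Fin N) K)} {I' J' : Ideal (MvPolynomial (Fin N') κ)}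
    (hI : I ≤ I'.comap φ) (hJ : J ≤ J'.comap φ) (hst : Stable e β I) (hst' : Stable e β J)
    {P' : Ideal (MvPolynomial (Fin N') κ)} (hP' : IsSub t (φ l) P')
    (hmem : av (ex κ e) β' (pt P') ∈ SRel I' J' t (φ l))
    (hsp : ∀ (Q : Ideal (MvPolynomial (Fin N') κ)) P, I ≤ Q.comap φ → Q.comap φ ≤ P →
      IsSub (t + δ) l P → (¬ ∃ P', IsSub t (φ l) P' ∧ P'.comap φ = P) →
        av e β (pt P) ∈ SRel I J (t + δ) l) :
    av e β (pt (P'.comap φ)) ∈ SRel I J (t + δ) l := by
  have h1 : (IRel I' t (φ l)).map (push φ l t) ≤ (SRel I J (t + δ) l).comap (av e β) :=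
    push_rel_le h hδ hI ((iRel_le_av hst hl0).trans (Submodule.comap_mono le_sup_left))
      fun Q P hP1 hP2 hP3 hP4 => hsp Q P hP1 hP2 hP3 hP4
  have h2 : (sp J' t (φ l)).map (push φ l t) ≤ (SRel I J (t + δ) l).comap (av e β) :=
    (push_sp_le h hδ hJ).trans ((sp_le_av hst' hl0).trans (Submodule.comap_mono le_sup_right))
  have h3 : (SRel I' J' t (φ l)).map (push φ l t) ≤ (SRel I J (t + δ) l).comap (av e β) := by
    unfold SRel
    rw [Submodule.map_sup]
    exact sup_le h1 h2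
  have h4 := h3 (Submodule.mem_map_of_mem hmem)
  rw [Submodule.mem_comap, push_av h hc hl, push_pt h hP'] at h4
  exact av_mem_of_av_av_mem h4

end push

section pencil

variable {K κ : Type u} [Field K] [Field κ] [Algebra K κ] {M : ℕ} {v : Fin (M + 1)} {u' : Fin M}
  {m : ℕ} {ι : Type} [Fintype ι] [DecidableEq ι] [NeZero m] {e : AddChar (ZMod m) K}
  {β : Fin (M + 1) → ι}

/-- **The closed members of the pencil.** -/
theorem closed_step_sp (hβ : β v = β (v.succAbove u'))
    {I J : Ideal (MvPolynomial (Fin (M + 1)) K)}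
    (hst : Stable e β I) (hst' : Stable e β J) (π : Polynomial K) [hπ : Fact (Irreducible π)]
    {t : ℕ} {P : Ideal (MvPolynomial (Fin (M + 1)) K)} [P.IsPrime]
    (hP : IsSub t (X (v.succAbove u')) P) (hIP : I ≤ P)
    (hval : Polynomial.aeval (vl (v.succAbove u') v P) π = 0)
    (hcl : ∀ P' : Ideal (MvPolynomial (Fin M) (AdjoinRoot π)), IsSub t (X u') P' →
      fI v u' (AdjoinRoot.root π) I ≤ P' →
      av (ex (AdjoinRoot π) e) (β ∘ v.succAbove) (pt P') ∈
        SRel (fI v u' (AdjoinRoot.root π) I) (fI v u' (AdjoinRoot.root π) J) t (X u')) :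
    av e β (pt P) ∈ SRel I J t (X (v.succAbove u')) := by
  obtain ⟨P', hP', hPP'⟩ := exists_over_closed' (u' := u') π hP hval
  have h1 := hcl P' hP' (fI_le (by rw [hPP']; exact hIP))
  have h2 := av_mem_of_av_mem_sp (isFib_fm (v := v) (u' := u') (hgen_adjoinRoot π))
    (trdeg_adjoinRoot π)
    (t := t) (fun a f => compat_fm (e := e) hβ (AdjoinRoot.root π) a f)
    (fun a => by
      rw [lsub_fm_a]
      exact eig_wt_X _ _) (fun a => eig_wt_X _ _) (le_comap_fI I _) (le_comap_fI J _) hst hst'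
    (by
      rw [lsub_fm_a]
      exact hP') (by
      rw [lsub_fm_a]
      exact h1) (by
      intro Q₂ P₂ _ hQP₂ hP₂ hno
      exfalso
      apply hno
      have hmem : hm (v.succAbove u') v π.natDegree π ∈ P₂ := hQP₂ (hm_mem_comap π Q₂)
      rw [add_zero] at hP₂
      have hprime := hP₂.prime
      rw [lsub_fm_a]
      exact exists_over_closed' (u' := u') π hP₂ ((hm_mem_iff hP₂ π).1 hmem))
  rw [hPP', add_zero] at h2
  exact h2

/-- **A pencil**: from the generic and the closed members to the whole family. -/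
theorem pencil_step_sp (hβ : β v = β (v.succAbove u'))
    {I J : Ideal (MvPolynomial (Fin (M + 1)) K)}
    (hst : Stable e β I) (hst' : Stable e β J) {t : ℕ}
    (hcl : ∀ (P : Ideal (MvPolynomial (Fin (M + 1)) K)) [P.IsPrime],
      IsSub t (X (v.succAbove u')) P → I ≤ P → ∀ (π : Polynomial K) [Fact (Irreducible π)],
      Polynomial.aeval (vl (v.succAbove u') v P) π = 0 →
        av e β (pt P) ∈ SRel I J t (X (v.succAbove u')))
    (hgen : ∀ s, t = s + 1 → ∀ P' : Ideal (MvPolynomial (Fin M) (Kt K)), IsSub s (X u') P' →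
      fI v u' (tt K) I ≤ P' →
      av (ex (Kt K) e) (β ∘ v.succAbove) (pt P') ∈
        SRel (fI v u' (tt K) I) (fI v u' (tt K) J) s (X u'))
    {P : Ideal (MvPolynomial (Fin (M + 1)) K)}
    (hP : IsSub t (X (v.succAbove u')) P) (hIP : I ≤ P) :
    av e β (pt P) ∈ SRel I J t (X (v.succAbove u')) := by
  have hclosed : ∀ (P : Ideal (MvPolynomial (Fin (M + 1)) K)) [P.IsPrime],
      IsSub t (X (v.succAbove u')) P → I ≤ P → IsAlgebraic K (vl (v.succAbove u') v P) →
        av e β (pt P) ∈ SRel I J t (X (v.succAbove u')) := by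
    intro P _ hP hIP hval
    have hirr : Irreducible (minpoly K (vl (v.succAbove u') v P)) :=
      minpoly.irreducible hval.isIntegral
    have hfact : Fact (Irreducible (minpoly K (vl (v.succAbove u') v P))) := ⟨hirr⟩
    exact hcl P hP hIP _ (minpoly.aeval K (vl (v.succAbove u') v P))
  have hprime := hP.prime
  by_cases hval : IsAlgebraic K (vl (v.succAbove u') v P)
  · exact hclosed P hP hIP hval
  · obtain ⟨s, P', hs, hP', hPP'⟩ := exists_over_generic' (u' := u') hP hval
    subst hs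
    have h1 := hgen s rfl P' hP' (fI_le (by rw [hPP']; exact hIP))
    have h2 := av_mem_of_av_mem_sp (isFib_fm (v := v) (u' := u') (θ := tt K) (hgen_Kt (K := K)))
      (trdeg_Kt (K := K))
      (t := s) (fun a f => compat_fm (e := e) hβ (tt K) a f)
      (fun a => by
        rw [lsub_fm_a]
        exact eig_wt_X _ _) (fun a => eig_wt_X _ _) (le_comap_fI I _) (le_comap_fI J _) hst hst'
      (by
        rw [lsub_fm_a]
        exact hP') (by
        rw [lsub_fm_a]
        exact h1) (by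
        intro Q₂ P₂ hIQ₂ hQP₂ hP₂ hno
        have hprime₂ := hP₂.prime
        by_cases hval₂ : IsAlgebraic K (vl (v.succAbove u') v P₂)
        · exact hclosed P₂ hP₂ (hIQ₂.trans hQP₂) hval₂
        · exfalso
          apply hno
          obtain ⟨s₂, P₃, hs₂, hP₃, hPP₃⟩ := exists_over_generic' (u' := u') hP₂ hval₂
          have h6 : s₂ = s := by omega
          subst h6
          rw [lsub_fm_a]
          exact ⟨P₃, hP₃, hPP₃⟩)
    rw [hPP'] at h2
    exact h2

/-- The cycles in a hyperplane. -/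
theorem hyp_step_sp (u : Fin (M + 1)) {I J : Ideal (MvPolynomial (Fin (M + 1)) K)}
    (hst : Stable e β I) (hst' : Stable e β J) {t : ℕ} {l : MvPolynomial (Fin (M + 1)) K}
    (hl : ∀ a : ι → ZMod m, Eig (wt e β a) l)
    (hl' : ∀ a : ι → ZMod m, Eig (wt e (β ∘ u.succAbove) a) (lsub K (zi K u) l))
    {P : Ideal (MvPolynomial (Fin (M + 1)) K)} (hP : IsSub t l P) (hIP : I ≤ P) (hu : X u ∈ P)
    (hz : ∀ P' : Ideal (MvPolynomial (Fin M) K), IsSub t (lsub K (zi K u) l) P' → zI u I ≤ P' →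
      av e (β ∘ u.succAbove) (pt P') ∈ SRel (zI u I) (zI u J) t (lsub K (zi K u) l)) :
    av e β (pt P) ∈ SRel I J t l := by
  obtain ⟨P', hP', hPP'⟩ := exists_isSub_zi u hP hu
  have h1 := hz P' hP' (zI_le (by rw [hPP']; exact hIP))
  have h2 := av_mem_of_av_mem_sp (isFib_zi u l) (trdeg_self_eq (K := K)) (t := t)
    (fun a f => compat_zi (e := e) (β := β) u a f)
    (fun a => by
      rw [ex_self]
      exact hl' a) hl (le_comap_zI u I) (le_comap_zI u J) hst hst' hP' (by
      rw [ex_self]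
      exact h1) (by
      intro Q₂ P₂ _ hQP₂ hP₂ hno
      exfalso
      apply hno
      have hmem : X u ∈ P₂ := hQP₂ (by
        rw [Ideal.mem_comap, lsub_zi_self]
        exact Q₂.zero_mem)
      rw [add_zero] at hP₂
      exact exists_isSub_zi u hP₂ hmem)
  rw [hPP', add_zero] at h2
  exact h2

end pencil

end Pool.Agent.H835.AV
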