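import Pool.Agent.H835.AV.HartMain

set_option autoImplicit false
set_option linter.unusedSectionVars false

/-!
# The group ring acting on cycles, modulo cycles supported in a closed subset
-/

universe u

namespace Pool.Agent.H835.AV

open MvPolynomial Pool.Agent.W5h86.HC

section main

variable {m : ℕ} {ι : Type} [Fintype ι] [DecidableEq ι] [NeZero m] {K : Type u} [Field K] {N : ℕ}
  {e : AddChar (ZMod m) K} {β : Fin N → ι}

/-- **From averages to all cycles**, modulo cycles supported in a closed subset. -/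
theorem char_main_sp {t : ℕ} {I J J₀ : Ideal (MvPolynomial (Fin N) K)} (hst : Stable e β I)
    {π₀ : ι → ι} (h₀ : AvSp e (π₀ ∘ β) t I J₀) (hJ₀ : J ≤ J₀) (z : (ι → ZMod m) → ℚ)
    (hz : ∀ x : ι → ZMod m, ∑ k, x k = 0 → ∑ g, (z g : ℂ) * ch x g ≠ 0 →
      ∃ (π : ι → ι) (J' : Ideal (MvPolynomial (Fin N) K)), J ≤ J' ∧ AvSp e (π ∘ β) t I J' ∧
        ∀ k, ∑ j with π j = k, x j = 0) :
    ∃ (k : ℕ) (c : Fin k → Fin N), DimLe t (secI I c) ∧ ∀ P, IsSub t 1 P → I ≤ P →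
      ∑ g, z g • tr (wt e β g) (pt P) ∈ SS I J t c := by
  obtain ⟨k₀, c₀, hdim₀, hmem₀⟩ := h₀
  refine ⟨k₀, c₀, hdim₀, fun P hP hIP => ?_⟩
  set S := SS I J t c₀ with hS
  -- the other sections
  have hsec : ∀ (π : ι → ι) (J' : Ideal (MvPolynomial (Fin N) K)), J ≤ J' →
      AvSp e (π ∘ β) t I J' → ∀ P, IsSub t 1 P → I ≤ P → av e (π ∘ β) (pt P) ∈ S := by
    rintro π J' hJ' ⟨k, c, hdim, hmem⟩ P hP hIP
    have h1 : icyc t (secI I c) ∈ S.comap (av e (π₀ ∘ β)) := by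
      refine mem_of_support hdim.finite fun P' hP' => ?_
      obtain ⟨h2, h3⟩ := le_of_icyc_ne_zero hP'
      exact sup_le_sup_left (sp_anti hJ₀ t 1) _ (hmem₀ P' h2 (le_sup_left.trans h3))
    rw [Submodule.mem_comap, av_of_inv e (π₀ ∘ β)
      (tr_icyc (stable_secI (hst.comp π₀) c) t)] at h1
    have h2 := S.smul_mem (Fintype.card (ι → ZMod m) : ℚ)⁻¹ h1
    rw [smul_smul, inv_mul_cancel₀ card_ne_zero', one_smul] at h2
    refine (sup_le (sup_le ?_ (le_sup_right.trans le_sup_left))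
      ((sp_anti hJ' t 1).trans le_sup_right) : SS I J' t c ≤ S) (hmem P hP hIP)
    rw [Submodule.span_le, Set.singleton_subset_iff]
    exact h2
  by_contra hcon
  obtain ⟨L, hLv, hL⟩ := Submodule.exists_le_ker_of_notMem hcon
  apply hLv
  rw [map_sum]
  have h1 : ∀ g, L (z g • tr (wt e β g) (pt P)) = z g * L (tr (wt e β g) (pt P)) := by
    intro g
    rw [map_smul, smul_eq_mul]
  rw [Finset.sum_congr rfl fun g _ => h1 g]
  have h3 : ∀ (π : ι → ι) (J' : Ideal (MvPolynomial (Fin N) K)), J ≤ J' →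
      AvSp e (π ∘ β) t I J' → ∀ g : ι → ZMod m,
      ∑ a : ι → ZMod m, L (tr (wt e β (g + a ∘ π)) (pt P)) = 0 := by
    intro π J' hJ' hπ g
    have h4 : tr (wt e β g) (pt P) = pt (P.comap (sc (wt e β (-g)))) :=
      tr_pt (wt_mul_neg e β g) P
    have h5 := hsec π J' hJ' hπ (P.comap (sc (wt e β (-g))))
      ((isSub_comap_sc_iff (wt_neg_mul e β g) (eig_one _) (eig_one _)).2 hP)
      ((hst (-g)).trans (Ideal.comap_mono hIP))
    rw [← h4, av_apply] at h5
    have h6 := hL h5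
    rw [LinearMap.mem_ker, map_sum] at h6
    rw [← h6]
    refine Finset.sum_congr rfl fun a _ => ?_
    rw [tr_tr, add_comm, wt_add]
    rfl
  have h2 : ∑ g, (z g : ℂ) * (L (tr (wt e β g) (pt P)) : ℂ) = 0 := by
    refine pairing_eq_zero fun x => ?_
    by_cases hx : ∑ k, x k = 0
    · by_cases hzx : ∑ g, (z g : ℂ) * ch x g = 0
      · exact Or.inl hzx
      · right
        obtain ⟨π, J', hJ', hπ, hπx⟩ := hz x hx hzx
        exact sum_ch_of_fibres (h3 π J' hJ' hπ) hπx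
    · right
      refine sum_ch_of_diag (u := fun _ => 1) (fun _ => rfl) (fun g => ?_) hx
      rw [wt_add, ← tr_tr, tr_const hP]
  exact_mod_cast h2

/-- The closed subset where all the merged forms vanish. -/
noncomputable def locus (G : ι → MvPolynomial (Fin N) K) (π : ι → ι) :
    Ideal (MvPolynomial (Fin N) K) := Ideal.span (Set.range (mrg G π))

lemma hyp_le_locus (G : ι → MvPolynomial (Fin N) K) (π : ι → ι) :
    Ideal.span {∑ k, G k} ≤ locus G π := by
  rw [Ideal.span_singleton_le_iff_mem, ← sum_mrg (G := G) π]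
  exact Ideal.sum_mem _ fun k _ => Ideal.subset_span ⟨k, rfl⟩

/-- Averages over merged blocks, modulo cycles supported where the merged forms vanish. -/
theorem avSp_mrg {n t : ℕ} (he : Good e n) (ht : t + 1 ≤ N) (ht1 : 1 ≤ t)
    {G : ι → MvPolynomial (Fin N) K} (h1 : ∀ k, IsHomogeneous (G k) n)
    (h2 : ∀ k, G k ∈ supported K {j | β j = k}) (π : ι → ι) :
    AvSp e (π ∘ β) t (Ideal.span {∑ k, G k}) (locus G π) := by
  have h3 := sum_proj (β := π ∘ β) he ht ht1 (mrg_hom h1 π) (fun k => mrg_mem h2 π k)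
  rw [sum_mrg] at h3
  exact h3

/-- **The group ring acting on cycles of all dimensions.** -/
theorem sp_main {n t : ℕ} (he : Good e n) (ht : t + 1 ≤ N) (ht1 : 1 ≤ t)
    {G : ι → MvPolynomial (Fin N) K} (h1 : ∀ k, IsHomogeneous (G k) n)
    (h2 : ∀ k, G k ∈ supported K {j | β j = k}) {S : Set (ι → ι)} (hS : S.Nonempty)
    (z : (ι → ZMod m) → ℚ)
    (hz : ∀ x : ι → ZMod m, ∑ k, x k = 0 → ∑ g, (z g : ℂ) * ch x g ≠ 0 →
      ∃ π ∈ S, ∀ k, ∑ j with π j = k, x j = 0) :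
    ∃ (k : ℕ) (c : Fin k → Fin N), DimLe t (secI (Ideal.span {∑ k, G k}) c) ∧
      ∀ P, IsSub t 1 P → Ideal.span {∑ k, G k} ≤ P →
      ∑ g, z g • tr (wt e β g) (pt P) ∈
        SS (Ideal.span {∑ k, G k}) (⨅ π ∈ S, locus G π) t c := by
  obtain ⟨π₀, hπ₀⟩ := hS
  refine char_main_sp ?_ (avSp_mrg he ht ht1 h1 h2 π₀) (iInf₂_le π₀ hπ₀) z ?_
  · intro a
    rw [Ideal.span_singleton_le_iff_mem, Ideal.mem_comap,
      (show SF β n (∑ k, G k) from ⟨G, h1, h2, rfl⟩).inv he.dvd]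
    exact Ideal.mem_span_singleton_self _
  · intro x hx hzx
    obtain ⟨π, hπ, h3⟩ := hz x hx hzx
    exact ⟨π, _, iInf₂_le π hπ, avSp_mrg he ht ht1 h1 h2 π, h3⟩

end main

end Pool.Agent.H835.AV
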