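import Pool.Agent.H835.AV.Fib

set_option autoImplicit false
set_option linter.unusedSectionVars false

/-!
# Averages in a fibration
-/

universe u

namespace Pool.Agent.H835.AV

open MvPolynomial Pool.Agent.W5h86.HC

section push

variable {K κ : Type u} [Field K] [Field κ] [Algebra K κ] {N N' : ℕ}
  {φ : MvPolynomial (Fin N) K →ₐ[K] MvPolynomial (Fin N') κ} {l : MvPolynomial (Fin N) K}

lemma comap_comap_compat {w : Fin N → K} {w' : Fin N' → κ}
    (hc : ∀ f, φ (sc w f) = sc w' (φ f)) (P' : Ideal (MvPolynomial (Fin N') κ)) :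
    (P'.comap (sc w')).comap φ = (P'.comap φ).comap (sc w) := by
  ext f
  rw [Ideal.mem_comap, Ideal.mem_comap, Ideal.mem_comap, Ideal.mem_comap, hc]

lemma push_tr (h : IsFib φ l) {t : ℕ} {w v : Fin N → K} {w' v' : Fin N' → κ}
    (hwv : w * v = 1) (hwv' : w' * v' = 1) (hc : ∀ f, φ (sc w f) = sc w' (φ f))
    (hc' : ∀ f, φ (sc v f) = sc v' (φ f)) (hl : Eig w' (φ l)) (hl' : Eig v' (φ l))
    (c : Ideal (MvPolynomial (Fin N') κ) → ℚ) :
    push φ l t (tr w' c) = tr w (push φ l t c) := by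
  funext P
  rw [tr_apply]
  by_cases hP : ∃ P', IsSub t (φ l) P' ∧ P'.comap φ = P
  · obtain ⟨P', hP', rfl⟩ := hP
    rw [push_of h _ hP', tr_apply, ← comap_comap_compat hc,
      push_of h _ ((isSub_comap_sc_iff hwv' hl hl').2 hP')]
  · have hP2 : ¬ ∃ P', IsSub t (φ l) P' ∧ P'.comap φ = P.comap (sc w) := by
      rintro ⟨P', hP', h1⟩
      refine hP ⟨P'.comap (sc v'), ?_, ?_⟩
      · exact (isSub_comap_sc_iff (by rw [mul_comm, hwv']) hl' hl).2 hP'
      · rw [comap_comap_compat hc', h1, comap_comap_sc, hwv, comap_sc_one]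
    rw [push_of_not _ hP, push_of_not _ hP2]

variable {m : ℕ} {ι : Type} [Fintype ι] [DecidableEq ι] [NeZero m]

/-- the additive character with values in an extension field -/
noncomputable def ex (κ : Type u) [Field κ] [Algebra K κ] (e : AddChar (ZMod m) K) :
    AddChar (ZMod m) κ := (algebraMap K κ : K →* κ).compAddChar e

lemma ex_apply (e : AddChar (ZMod m) K) (x : ZMod m) : ex κ e x = algebraMap K κ (e x) := rfl

lemma push_av (h : IsFib φ l) {t : ℕ} {e : AddChar (ZMod m) K} {β : Fin N → ι} {β' : Fin N' → ι}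
    (hc : ∀ (a : ι → ZMod m) f, φ (sc (wt e β a) f) = sc (wt (ex κ e) β' a) (φ f))
    (hl : ∀ a : ι → ZMod m, Eig (wt (ex κ e) β' a) (φ l))
    (c : Ideal (MvPolynomial (Fin N') κ) → ℚ) :
    push φ l t (av (ex κ e) β' c) = av e β (push φ l t c) := by
  rw [av_apply, av_apply, map_sum]
  refine Finset.sum_congr rfl fun a _ => ?_
  exact push_tr h (wt_mul_neg e β a) (wt_mul_neg (ex κ e) β' a) (hc a) (hc (-a)) (hl a) (hl (-a)) c

/-- **Transport of relations between averages.** -/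
theorem av_mem_of_av_mem (h : IsFib φ l) {δ t : ℕ} (hδ : Algebra.trdeg K κ = δ)
    {e : AddChar (ZMod m) K} {β : Fin N → ι} {β' : Fin N' → ι}
    (hc : ∀ (a : ι → ZMod m) f, φ (sc (wt e β a) f) = sc (wt (ex κ e) β' a) (φ f))
    (hl : ∀ a : ι → ZMod m, Eig (wt (ex κ e) β' a) (φ l))
    (hl0 : ∀ a : ι → ZMod m, Eig (wt e β a) l)
    {I : Ideal (MvPolynomial (Fin N) K)} {I' : Ideal (MvPolynomial (Fin N') κ)}
    (hI : I ≤ I'.comap φ) (hst : Stable e β I)
    {P' : Ideal (MvPolynomial (Fin N') κ)} (hP' : IsSub t (φ l) P')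
    (hmem : av (ex κ e) β' (pt P') ∈ IRel I' t (φ l))
    (hsp : ∀ (Q : Ideal (MvPolynomial (Fin N') κ)) P, I ≤ Q.comap φ → Q.comap φ ≤ P →
      IsSub (t + δ) l P → (¬ ∃ P', IsSub t (φ l) P' ∧ P'.comap φ = P) →
        av e β (pt P) ∈ IRel I (t + δ) l) :
    av e β (pt (P'.comap φ)) ∈ IRel I (t + δ) l := by
  have h1 : (IRel I' t (φ l)).map (push φ l t) ≤ (IRel I (t + δ) l).comap (av e β) :=
    push_rel_le h hδ hI (iRel_le_av hst hl0) fun Q P hP1 hP2 hP3 hP4 => hsp Q P hP1 hP2 hP3 hP4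
  have h2 := h1 (Submodule.mem_map_of_mem hmem)
  rw [Submodule.mem_comap, push_av h hc hl, push_pt h hP'] at h2
  exact av_mem_of_av_av_mem h2

end push

section pencil

variable {K κ : Type u} [Field K] [Field κ] [Algebra K κ] {M : ℕ} {v : Fin (M + 1)} {u' : Fin M}
  {m : ℕ} {ι : Type} [Fintype ι] [DecidableEq ι] [NeZero m] {e : AddChar (ZMod m) K}
  {β : Fin (M + 1) → ι}

lemma compat_fm (hβ : β v = β (v.succAbove u')) (θ : κ) (a : ι → ZMod m)
    (f : MvPolynomial (Fin (M + 1)) K) :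
    lsub K (fm v u' θ) (sc (wt e β a) f) =
      sc (wt (ex κ e) (β ∘ v.succAbove) a) (lsub K (fm v u' θ) f) := by
  have h : (lsub K (fm v u' θ)).comp (sc (wt e β a)) =
      ((sc (wt (ex κ e) (β ∘ v.succAbove) a)).restrictScalars K).comp (lsub K (fm v u' θ)) := by
    apply MvPolynomial.algHom_ext
    intro i
    rw [AlgHom.comp_apply, AlgHom.comp_apply, AlgHom.restrictScalars_apply, sc_X, map_mul, lsub_C]
    rcases Fin.eq_self_or_eq_succAbove v i with hi | ⟨j, hi⟩
    · rw [hi, lsub_fm_self, map_mul, sc_C, sc_X]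
      simp only [wt, ex_apply, Function.comp_apply, hβ]
      ring
    · rw [hi, lsub_fm_succAbove, sc_X]
      simp only [wt, ex_apply, Function.comp_apply]
  exact DFunLike.congr_fun h f

/-- the images of `I` in the fibres -/
noncomputable def fI (v : Fin (M + 1)) (u' : Fin M) (θ : κ)
    (I : Ideal (MvPolynomial (Fin (M + 1)) K)) :
    Ideal (MvPolynomial (Fin M) κ) := I.map (lsub K (fm v u' θ) : _ →+* _)

lemma le_comap_fI (I : Ideal (MvPolynomial (Fin (M + 1)) K)) (θ : κ) :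
    I ≤ (fI v u' θ I).comap (lsub K (fm v u' θ)) := Ideal.le_comap_map

lemma fI_le {I : Ideal (MvPolynomial (Fin (M + 1)) K)} {θ : κ}
    {P' : Ideal (MvPolynomial (Fin M) κ)} (h : I ≤ P'.comap (lsub K (fm v u' θ))) :
    fI v u' θ I ≤ P' := Ideal.map_le_iff_le_comap.2 h

/-- **The closed members of the pencil.** -/
theorem closed_step (hβ : β v = β (v.succAbove u')) {I : Ideal (MvPolynomial (Fin (M + 1)) K)}
    (hst : Stable e β I) (π : Polynomial K) [hπ : Fact (Irreducible π)] {t : ℕ}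
    {P : Ideal (MvPolynomial (Fin (M + 1)) K)} [P.IsPrime]
    (hP : IsSub t (X (v.succAbove u')) P) (hIP : I ≤ P)
    (hval : Polynomial.aeval (vl (v.succAbove u') v P) π = 0)
    (hcl : ∀ P' : Ideal (MvPolynomial (Fin M) (AdjoinRoot π)), IsSub t (X u') P' →
      fI v u' (AdjoinRoot.root π) I ≤ P' →
      av (ex (AdjoinRoot π) e) (β ∘ v.succAbove) (pt P') ∈
        IRel (fI v u' (AdjoinRoot.root π) I) t (X u')) :
    av e β (pt P) ∈ IRel I t (X (v.succAbove u')) := by
  obtain ⟨P', hP', hPP'⟩ := exists_over_closed' (u' := u') π hP hval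
  have h1 := hcl P' hP' (fI_le (by rw [hPP']; exact hIP))
  have h2 := av_mem_of_av_mem (isFib_fm (v := v) (u' := u') (hgen_adjoinRoot π)) (trdeg_adjoinRoot π)
    (t := t) (fun a f => compat_fm (e := e) hβ (AdjoinRoot.root π) a f)
    (fun a => by
      rw [lsub_fm_a]
      exact eig_wt_X _ _) (fun a => eig_wt_X _ _) (le_comap_fI I _) hst
    (by
      rw [lsub_fm_a]
      exact hP') (by
      rw [lsub_fm_a]
      exact h1) (by
      intro Q₂ P₂ _ hQP₂ hP₂ hno
      exfalso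
      apply hno
      have hmem : hm (v.succAbove u') v π.natDegree π ∈ P₂ := hQP₂ (hm_mem_comap π Q₂)
      rw [add_zero] at hP₂
      have hprime := hP₂.prime
      rw [lsub_fm_a]
      exact exists_over_closed' (u' := u') π hP₂ ((hm_mem_iff hP₂ π).1 hmem))
  rw [hPP', add_zero] at h2
  exact h2

/-- **A pencil**: from the generic and the closed members to the whole family. -/
theorem pencil_step (hβ : β v = β (v.succAbove u')) {I : Ideal (MvPolynomial (Fin (M + 1)) K)}
    (hst : Stable e β I) {t : ℕ}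
    (hcl : ∀ (P : Ideal (MvPolynomial (Fin (M + 1)) K)) [P.IsPrime],
      IsSub t (X (v.succAbove u')) P → I ≤ P → ∀ (π : Polynomial K) [Fact (Irreducible π)],
      Polynomial.aeval (vl (v.succAbove u') v P) π = 0 →
        av e β (pt P) ∈ IRel I t (X (v.succAbove u')))
    (hgen : ∀ s, t = s + 1 → ∀ P' : Ideal (MvPolynomial (Fin M) (Kt K)), IsSub s (X u') P' →
      fI v u' (tt K) I ≤ P' →
      av (ex (Kt K) e) (β ∘ v.succAbove) (pt P') ∈ IRel (fI v u' (tt K) I) s (X u'))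
    {P : Ideal (MvPolynomial (Fin (M + 1)) K)}
    (hP : IsSub t (X (v.succAbove u')) P) (hIP : I ≤ P) :
    av e β (pt P) ∈ IRel I t (X (v.succAbove u')) := by
  have hclosed : ∀ (P : Ideal (MvPolynomial (Fin (M + 1)) K)) [P.IsPrime],
      IsSub t (X (v.succAbove u')) P → I ≤ P → IsAlgebraic K (vl (v.succAbove u') v P) →
        av e β (pt P) ∈ IRel I t (X (v.succAbove u')) := by
    intro P _ hP hIP hval
    have hirr : Irreducible (minpoly K (vl (v.succAbove u') v P)) :=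
      minpoly.irreducible hval.isIntegral
    have hfact : Fact (Irreducible (minpoly K (vl (v.succAbove u') v P))) := ⟨hirr⟩
    exact hcl P hP hIP _ (minpoly.aeval K (vl (v.succAbove u') v P))
  have hprime := hP.prime
  by_cases hval : IsAlgebraic K (vl (v.succAbove u') v P)
  · exact hclosed P hP hIP hval
  · obtain ⟨s, P', hs, hP', hPP'⟩ := exists_over_generic' (u' := u') hP hval
    subst hs
    have h1 := hgen s rfl P' hP' (fI_le (by rw [hPP']; exact hIP))
    have h2 := av_mem_of_av_mem (isFib_fm (v := v) (u' := u') (θ := tt K) (hgen_Kt (K := K)))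
      (trdeg_Kt (K := K))
      (t := s) (fun a f => compat_fm (e := e) hβ (tt K) a f)
      (fun a => by
        rw [lsub_fm_a]
        exact eig_wt_X _ _) (fun a => eig_wt_X _ _) (le_comap_fI I _) hst
      (by
        rw [lsub_fm_a]
        exact hP') (by
        rw [lsub_fm_a]
        exact h1) (by
        intro Q₂ P₂ hIQ₂ hQP₂ hP₂ hno
        have hprime₂ := hP₂.prime
        by_cases hval₂ : IsAlgebraic K (vl (v.succAbove u') v P₂)
        · exact hclosed P₂ hP₂ (hIQ₂.trans hQP₂) hval₂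
        · exfalso
          apply hno
          obtain ⟨s₂, P₃, hs₂, hP₃, hPP₃⟩ := exists_over_generic' (u' := u') hP₂ hval₂
          have h6 : s₂ = s := by omega
          subst h6
          rw [lsub_fm_a]
          exact ⟨P₃, hP₃, hPP₃⟩)
    rw [hPP'] at h2
    exact h2

/-- **Closed members of codimension zero in the fibre.** -/
theorem closed_top (hβ : β v = β (v.succAbove u')) {I : Ideal (MvPolynomial (Fin (M + 1)) K)}
    (hst : Stable e β I) (π : Polynomial K) [hπ : Fact (Irreducible π)] {t : ℕ}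
    {P Q : Ideal (MvPolynomial (Fin (M + 1)) K)} [P.IsPrime]
    (hP : IsSub t (X (v.succAbove u')) P)
    (hval : Polynomial.aeval (vl (v.succAbove u') v P) π = 0)
    (hQ : IsSub (t + 1) (X (v.succAbove u')) Q) (hIQ : I ≤ Q) (hQP : Q ≤ P)
    (hconj : ∀ P₁ P₂ : Ideal (MvPolynomial (Fin M) (AdjoinRoot π)), IsSub t (X u') P₁ →
      IsSub t (X u') P₂ → fI v u' (AdjoinRoot.root π) I ≤ P₁ →
      fI v u' (AdjoinRoot.root π) I ≤ P₂ → ∃ a : ι → ZMod m,
        P₂ = P₁.comap (sc (wt (ex (AdjoinRoot π) e) (β ∘ v.succAbove) a)))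
    (hdim : ∀ Q' : Ideal (MvPolynomial (Fin M) (AdjoinRoot π)), IsSub (t + 1) (X u') Q' →
      ¬ fI v u' (AdjoinRoot.root π) I ≤ Q') :
    av e β (pt P) ∈ IRel I t (X (v.succAbove u')) := by
  set Pi2 := hm (v.succAbove u') v π.natDegree π with hPi2
  have hover : ∀ (s : ℕ) (P₂ : Ideal (MvPolynomial (Fin (M + 1)) K)),
      IsSub s (X (v.succAbove u')) P₂ → Pi2 ∈ P₂ →
      ∃ P', IsSub s (X u') P' ∧ P'.comap (lsub K (fm v u' (AdjoinRoot.root π))) = P₂ := by
    intro s P₂ hP₂ hmem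
    have hprime₂ := hP₂.prime
    exact exists_over_closed' (u' := u') π hP₂ ((hm_mem_iff hP₂ π).1 hmem)
  have hPi2P : Pi2 ∈ P := (hm_mem_iff hP π).2 hval
  have hPi2Q : Pi2 ∉ Q := by
    intro h1
    obtain ⟨Q', hQ', hQQ'⟩ := hover _ Q hQ h1
    exact hdim Q' hQ' (fI_le (by rw [hQQ']; exact hIQ))
  obtain ⟨P₁, hP₁, hPP₁⟩ := hover _ P hP hPi2P
  have hIP : I ≤ P := hIQ.trans hQP
  refine av_pt_mem_of_conj (c := idiv t (X (v.succAbove u')) Q Pi2)
    (idiv_support_finite hQ hPi2Q) (fun P' => idiv_nonneg _ _ _ _ _) ?_ ?_ ?_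
  · rw [idiv_of hP, Nat.cast_ne_zero]
    apply mult_ne_zero
    refine mem_minimalPrimes (K := K) hP.prime hQ.prime hP.trdeg hQ.trdeg le_sup_left hPi2Q
      (Ideal.mem_sup_right (Ideal.mem_span_singleton_self _)) (sup_le hQP ?_)
    rw [Ideal.span_singleton_le_iff_mem]
    exact hPi2P
  · intro P₂ hP₂
    obtain ⟨h1, h2, h3⟩ := le_of_idiv_ne_zero hP₂
    obtain ⟨P₃, hP₃, hPP₃⟩ := hover _ P₂ h1 h3
    obtain ⟨a, ha⟩ := hconj P₁ P₃ hP₁ hP₃ (fI_le (by rw [hPP₁]; exact hIP))
      (fI_le (by rw [hPP₃]; exact hIQ.trans h2))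
    refine ⟨a, ?_⟩
    rw [← hPP₃, ha, comap_comap_compat (fun f => compat_fm (e := e) hβ (AdjoinRoot.root π) a f),
      hPP₁]
  · exact iRel_le_av hst (fun a => eig_wt_X _ _) (Submodule.subset_span
      ⟨Q, Pi2, π.natDegree, hQ, hIQ, isHomogeneous_hm _ _ _ _, hPi2Q, rfl⟩)

end pencil

end Pool.Agent.H835.AV
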