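import Pool.Agent.H835.AV.Hyp

set_option autoImplicit false
set_option linter.unusedSectionVars false

/-!
# The roots of unity permute the components
-/

universe u

namespace Pool.Agent.H835.AV

open MvPolynomial Pool.Agent.W5h86.HC
open scoped Pointwise

/-- Transcendence degrees under integral homomorphisms. -/
lemma trdeg_comap_integral {K R S : Type u} [Field K] [CommRing R] [CommRing S] [Algebra K R]
    [Algebra K S] (φ : R →ₐ[K] S) {P : Ideal S} (hP : P.IsPrime)
    (hφ : ∀ y : S, (φ : R →+* S).IsIntegralElem y) :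
    Algebra.trdeg K (R ⧸ P.comap φ) = Algebra.trdeg K (S ⧸ P) := by
  have hP' : (P.comap φ).IsPrime := Ideal.comap_isPrime φ P
  let f : R ⧸ P.comap φ →ₐ[K] S ⧸ P := Ideal.quotientMapₐ P φ le_rfl
  have hf : Function.Injective f := Ideal.quotientMap_injective (f := (φ : R →+* S))
  algebraize [f.toRingHom]
  have hst : IsScalarTower K (R ⧸ P.comap φ) (S ⧸ P) := by
    refine IsScalarTower.of_algebraMap_eq fun x => ?_
    exact (f.commutes x).symm
  have hfs : FaithfulSMul (R ⧸ P.comap φ) (S ⧸ P) := by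
    rw [faithfulSMul_iff_algebraMap_injective]
    exact hf
  have halg : Algebra.IsAlgebraic (R ⧸ P.comap φ) (S ⧸ P) := by
    refine ⟨fun z => ?_⟩
    obtain ⟨y, rfl⟩ := Ideal.Quotient.mk_surjective z
    obtain ⟨p, hp, hp0⟩ := hφ y
    refine IsIntegral.isAlgebraic ⟨p.map (Ideal.Quotient.mk (P.comap φ)), hp.map _, ?_⟩
    rw [Polynomial.eval₂_map]
    have h1 : (algebraMap (R ⧸ P.comap φ) (S ⧸ P)).comp (Ideal.Quotient.mk (P.comap φ)) =
        (Ideal.Quotient.mk P).comp (φ : R →+* S) := rfl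
    rw [h1, ← Polynomial.hom_eval₂, hp0, map_zero]
  have h1 := trdeg_add_eq K (R ⧸ P.comap φ) (A := S ⧸ P)
  rw [← h1, trdeg_eq_zero (R := R ⧸ P.comap φ) (A := S ⧸ P), add_zero]

section

variable {K : Type u} [Field K] {N : ℕ}

/-- the substitution `x j ↦ x j ^ k j` -/
noncomputable def pw (k : Fin N → ℕ) : MvPolynomial (Fin N) K →ₐ[K] MvPolynomial (Fin N) K :=
  aeval fun j => X j ^ k j

lemma pw_X (k : Fin N → ℕ) (j : Fin N) : pw (K := K) k (X j) = X j ^ k j := by
  unfold pw
  rw [aeval_X]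

lemma pw_monomial (k : Fin N → ℕ) (d : Fin N →₀ ℕ) (c : K) :
    pw k (monomial d c) = monomial (Finsupp.equivFunOnFinite.symm fun j => d j * k j) c := by
  unfold pw
  rw [aeval_monomial, monomial_eq, ← C_eq_algebraMap]
  congr 1
  rw [Finsupp.prod_fintype _ _ (fun i => by simp), Finsupp.prod_fintype _ _ (fun i => by simp)]
  refine Finset.prod_congr rfl fun j _ => ?_
  rw [← pow_mul, mul_comm (k j)]
  rfl

lemma pw_integral {k : Fin N → ℕ} (hk : ∀ j, 0 < k j) (y : MvPolynomial (Fin N) K) :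
    ((pw k : MvPolynomial (Fin N) K →ₐ[K] _) : MvPolynomial (Fin N) K →+* _).IsIntegralElem y := by
  induction y using MvPolynomial.induction_on with
  | C a =>
    have h1 : (C a : MvPolynomial (Fin N) K) = pw k (C a) := by
      unfold pw
      rw [aeval_C]
      rfl
    rw [h1]
    exact RingHom.isIntegralElem_map _
  | add p q hp hq => exact RingHom.IsIntegralElem.add _ hp hq
  | mul_X p j hp =>
    refine RingHom.IsIntegralElem.mul _ hp ?_
    refine ⟨Polynomial.X ^ k j - Polynomial.C (X j), Polynomial.monic_X_pow_sub_C _ (hk j).ne', ?_⟩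
    rw [Polynomial.eval₂_sub, Polynomial.eval₂_X_pow, Polynomial.eval₂_C]
    change X j ^ k j - pw k (X j) = 0
    rw [pw_X, sub_self]

/-- the exponents -/
def kJ (m : ℕ) (J : Finset (Fin N)) (j : Fin N) : ℕ := if j ∈ J then m else 1

lemma coeff_sc (w : Fin N → K) (d : Fin N →₀ ℕ) (f : MvPolynomial (Fin N) K) :
    coeff d (sc w f) = (∏ j, w j ^ d j) * coeff d f := by
  classical
  induction f using MvPolynomial.induction_on' with
  | monomial d' c =>
    have h1 : sc w (monomial d' c) = monomial d' ((∏ j, w j ^ d' j) * c) := by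
      unfold sc
      rw [aeval_monomial, Finsupp.prod_fintype _ _ (fun i => by simp), ← C_eq_algebraMap]
      simp only [mul_pow, Finset.prod_mul_distrib]
      have h2 : ∏ j, (C (w j) : MvPolynomial (Fin N) K) ^ d' j = C (∏ j, w j ^ d' j) := by
        rw [map_prod]
        refine Finset.prod_congr rfl fun j _ => ?_
        rw [map_pow]
      rw [h2, monomial_eq, Finsupp.prod_fintype _ _ (fun i => by simp), C_mul]
      ring
    rw [h1, coeff_monomial, coeff_monomial]
    split_ifs with h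
    · rw [h]
    · rw [mul_zero]
  | add p q hp hq =>
    rw [map_add, coeff_add, coeff_add, hp, hq, mul_add]

variable {m : ℕ} {ι : Type} [Fintype ι] [DecidableEq ι] [NeZero m] {e : AddChar (ZMod m) K}
  {β : Fin N → ι}

/-- The automorphisms. -/
noncomputable def scE (e : AddChar (ZMod m) K) (β : Fin N → ι) (a : ι → ZMod m) :
    MvPolynomial (Fin N) K ≃ₐ[K] MvPolynomial (Fin N) K :=
  AlgEquiv.ofAlgHom (sc (wt e β a)) (sc (wt e β (-a)))
    (by
      ext f
      rw [AlgHom.comp_apply, sc_sc, wt_mul_neg, sc_one]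
      rfl)
    (by
      ext f
      rw [AlgHom.comp_apply, sc_sc, wt_neg_mul, sc_one]
      rfl)

lemma scE_apply (a : ι → ZMod m) (f : MvPolynomial (Fin N) K) :
    scE e β a f = sc (wt e β a) f := rfl

/-- restriction to the blocks of the variables in `J` -/
def rJ (β : Fin N → ι) (J : Finset (Fin N)) (a : ι → ZMod m) : ι → ZMod m :=
  fun k => if k ∈ J.image β then a k else 0

lemma rJ_add (J : Finset (Fin N)) (a b : ι → ZMod m) : rJ β J (a + b) = rJ β J a + rJ β J b := by
  funext k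
  simp only [rJ, Pi.add_apply]
  split_ifs <;> simp

lemma rJ_zero (J : Finset (Fin N)) : rJ β J (0 : ι → ZMod m) = 0 := by
  funext k
  simp [rJ]

/-- The group of the scalings. -/
noncomputable def scHom (e : AddChar (ZMod m) K) (β : Fin N → ι) (J : Finset (Fin N)) :
    Multiplicative (ι → ZMod m) →* (MvPolynomial (Fin N) K ≃ₐ[K] MvPolynomial (Fin N) K) where
  toFun a := scE e β (rJ β J a.toAdd)
  map_one' := by
    ext f : 1
    rw [scE_apply, toAdd_one, rJ_zero, wt_zero, sc_one]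
    rfl
  map_mul' a b := by
    ext f : 1
    rw [scE_apply, toAdd_mul, rJ_add, wt_add, ← sc_sc]
    rfl

/-- the condition on the variables in `J`: they are blocks by themselves -/
def Alone (β : Fin N → ι) (J : Finset (Fin N)) : Prop := ∀ j ∈ J, ∀ i, β i = β j → i = j

lemma wt_rJ {J : Finset (Fin N)} (hJ : Alone β J) (a : ι → ZMod m) (j : Fin N) :
    wt e β (rJ β J a) j = if j ∈ J then e (a (β j)) else 1 := by
  unfold wt rJ
  by_cases h : j ∈ J
  · rw [if_pos (Finset.mem_image_of_mem _ h), if_pos h]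
  · rw [if_neg h, if_neg, AddChar.map_zero_eq_one]
    intro h1
    obtain ⟨i, hi, hij⟩ := Finset.mem_image.1 h1
    exact h (hJ i hi j hij.symm ▸ hi)

lemma sc_pw {J : Finset (Fin N)} (hJ : Alone β J) (a : ι → ZMod m) (y : MvPolynomial (Fin N) K) :
    sc (wt e β (rJ β J a)) (pw (kJ m J) y) = pw (kJ m J) y := by
  have h : (sc (wt e β (rJ β J a))).comp (pw (kJ m J)) = pw (K := K) (kJ m J) := by
    apply MvPolynomial.algHom_ext
    intro j
    rw [AlgHom.comp_apply, pw_X, map_pow, sc_X, wt_rJ hJ, mul_pow, ← C_pow]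
    unfold kJ
    by_cases h : j ∈ J
    · rw [if_pos h, if_pos h, ← AddChar.map_nsmul_eq_pow, nsmul_eq_mul, CharP.cast_eq_zero,
        zero_mul, AddChar.map_zero_eq_one, C_1, one_mul]
    · rw [if_neg h, if_neg h, one_pow, C_1, one_mul]
  exact DFunLike.congr_fun h y

lemma exists_pw {J : Finset (Fin N)} (hJ : Alone β J) (he : ∀ x, e x = 1 → x = 0)
    {b : MvPolynomial (Fin N) K} (hb : ∀ a, sc (wt e β (rJ β J a)) b = b) :
    ∃ y, pw (kJ m J) y = b := by
  classical
  have key : ∀ d ∈ b.support, ∀ j ∈ J, m ∣ d j := by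
    intro d hd j hj
    have h1 := congrArg (coeff d) (hb (Pi.single (β j) 1))
    rw [coeff_sc] at h1
    have h2 : coeff d b ≠ 0 := mem_support_iff.1 hd
    have h3 : ∏ i, wt e β (rJ β J (Pi.single (β j) 1)) i ^ d i = 1 := by
      have h4 : (∏ i, wt e β (rJ β J (Pi.single (β j) 1)) i ^ d i - 1) * coeff d b = 0 := by
        rw [sub_mul, h1, one_mul, sub_self]
      exact sub_eq_zero.1 ((mul_eq_zero.1 h4).resolve_right h2)
    rw [Finset.prod_eq_single j] at h3
    · rw [wt_rJ hJ, if_pos hj, Pi.single_eq_same, ← AddChar.map_nsmul_eq_pow] at h3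
      have h5 := he _ h3
      rw [nsmul_eq_mul, mul_one] at h5
      exact (ZMod.natCast_eq_zero_iff _ _).1 h5
    · intro i _ hij
      rw [wt_rJ hJ]
      split_ifs with h6
      · rw [Pi.single_eq_of_ne, AddChar.map_zero_eq_one, one_pow]
        intro h7
        exact hij (hJ j hj i h7)
      · rw [one_pow]
    · simp
  refine ⟨∑ d ∈ b.support, monomial (Finsupp.equivFunOnFinite.symm fun j => d j / kJ m J j)
    (coeff d b), ?_⟩
  rw [map_sum]
  conv_rhs => rw [b.as_sum]
  refine Finset.sum_congr rfl fun d hd => ?_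
  rw [pw_monomial]
  have h8 : (Finsupp.equivFunOnFinite.symm fun j =>
      (Finsupp.equivFunOnFinite.symm fun j => d j / kJ m J j) j * kJ m J j) = d := by
    ext j
    change d j / kJ m J j * kJ m J j = d j
    unfold kJ
    split_ifs with h
    · exact Nat.div_mul_cancel (key d hd j h)
    · simp
  rw [h8]

end

section

variable {K : Type u} [Field K] {M : ℕ} {m : ℕ} {ι : Type} [Fintype ι] [DecidableEq ι] [NeZero m]
  {e : AddChar (ZMod m) K} {β : Fin (M + 1) → ι}

/-- **Transitivity.** The roots of unity permute the primes over `F = f (x ^ m, y)` transitively. -/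
theorem conj_of_prime {J : Finset (Fin (M + 1))} (hJ : Alone β J) (he : ∀ x, e x = 1 → x = 0)
    {f : MvPolynomial (Fin (M + 1)) K} (hf : Prime f)
    {P₁ P₂ : Ideal (MvPolynomial (Fin (M + 1)) K)} (h₁ : P₁.IsPrime) (h₂ : P₂.IsPrime)
    (hF₁ : pw (kJ m J) f ∈ P₁) (hF₂ : pw (kJ m J) f ∈ P₂)
    (ht₁ : Algebra.trdeg K (MvPolynomial (Fin (M + 1)) K ⧸ P₁) = M)
    (ht₂ : Algebra.trdeg K (MvPolynomial (Fin (M + 1)) K ⧸ P₂) = M) :
    ∃ a : ι → ZMod m, P₂ = P₁.comap (sc (wt e β a)) := by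
  classical
  have hm : 0 < m := NeZero.pos m
  have hk : ∀ j, 0 < kJ m J j := by
    intro j
    unfold kJ
    split_ifs <;> omega
  have key : ∀ P : Ideal (MvPolynomial (Fin (M + 1)) K), P.IsPrime → pw (kJ m J) f ∈ P →
      Algebra.trdeg K (MvPolynomial (Fin (M + 1)) K ⧸ P) = M →
      P.comap (pw (kJ m J)) = Ideal.span {f} := by
    intro P hP hFP htP
    have h3 : (P.comap (pw (K := K) (kJ m J))).IsPrime := Ideal.comap_isPrime _ P
    have h4 := trdeg_comap_integral (K := K) (pw (kJ m J)) hP (pw_integral hk)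
    refine (eq_of_trdeg_eq (K := K) ((Ideal.span_singleton_prime hf.ne_zero).2 hf) h3 ?_
      (trdeg_span_prime hf) (h4.trans htP)).symm
    rw [Ideal.span_singleton_le_iff_mem]
    exact hFP
  let G := (scHom e β J).range
  have hfin : Finite G := Finite.of_surjective (scHom e β J).rangeRestrict
    (scHom e β J).rangeRestrict_surjective
  let A : Subalgebra K (MvPolynomial (Fin (M + 1)) K) := (pw (K := K) (kJ m J)).range
  have hfix : ∀ (g : G) (x : A), g • (x : MvPolynomial (Fin (M + 1)) K) = x := by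
    rintro ⟨_, a, rfl⟩ ⟨_, y, rfl⟩
    exact sc_pw hJ _ y
  have hcomm : SMulCommClass G A (MvPolynomial (Fin (M + 1)) K) := by
    refine ⟨fun g x y => ?_⟩
    rw [Subalgebra.smul_def, Subalgebra.smul_def, smul_eq_mul, smul_eq_mul, smul_mul', hfix]
  have hinv : Algebra.IsInvariant A (MvPolynomial (Fin (M + 1)) K) G := by
    refine ⟨fun b hb => ?_⟩
    obtain ⟨y, hy⟩ := exists_pw (e := e) hJ he (b := b) fun a =>
      hb ⟨scHom e β J (Multiplicative.ofAdd a), ⟨_, rfl⟩⟩
    exact ⟨⟨b, ⟨y, hy⟩⟩, rfl⟩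
  have hunder : P₁.under A = P₂.under A := by
    ext ⟨x, y, hxy⟩
    rw [Ideal.mem_comap, Ideal.mem_comap]
    change x ∈ P₁ ↔ x ∈ P₂
    have h5 : pw (kJ m J) y = x := hxy
    rw [← h5]
    have h6 : ∀ P : Ideal (MvPolynomial (Fin (M + 1)) K), pw (kJ m J) y ∈ P ↔
        y ∈ P.comap (pw (kJ m J)) := fun P => Iff.rfl
    rw [h6, h6, key P₁ h₁ hF₁ ht₁, key P₂ h₂ hF₂ ht₂]
  obtain ⟨⟨g, a, rfl⟩, hg⟩ := Algebra.IsInvariant.exists_smul_of_under_eq A
    (MvPolynomial (Fin (M + 1)) K) G P₁ P₂ hunder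
  refine ⟨-(rJ β J a.toAdd), ?_⟩
  rw [hg]
  ext x
  rw [Ideal.mem_comap, Ideal.mem_pointwise_smul_iff_inv_smul_mem]
  have h7 : (⟨scHom e β J a, ⟨a, rfl⟩⟩ : G)⁻¹ • x = sc (wt e β (-(rJ β J a.toAdd))) x := by
    rw [inv_smul_eq_iff]
    change x = sc (wt e β (rJ β J a.toAdd)) (sc (wt e β (-(rJ β J a.toAdd))) x)
    rw [sc_sc, wt_mul_neg, sc_one]
  rw [h7]

end

end Pool.Agent.H835.AV
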